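import Pool.Agent.P.MP_42fc1a_nt.EK.IfaceC

/-! Step A2M. -/

namespace Pool.Agent.P.MP_42fc1a_nt.EK

open Finset Real Filter Topology MeasureTheory
open Pool.Agent.P.MP_e86632_nt (ee nn ee_add norm_ee ee_neg ee_zero)
open Pool.Agent.P.MP_8be758_nt.Avg (gs red ft nsq gs_pos gs_le_one gs_neg gs_anti)
open Pool.Agent.P.MP_e94e4b_nt.PF (sgm)
open Pool.Agent.P.E2
open ArithmeticFunction (vonMangoldt moebius)
open DirichletCharacter (LFunction)
open scoped Classical

namespace A2Mx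

theorem cgk (a : ℝ) : Continuous (gk a) := by unfold gk gs; fun_prop

theorem card_le (r : ℝ) (q c : ℕ) (hq : 1 ≤ q) (hX : (q : ℝ) ≤ XX r) :
    ((Ic r q c).card : ℝ) ≤ 111 * XX r / q := by
  have q0 : (0 : ℝ) < q := by exact_mod_cast hq
  have h1 : (Ic r q c).card ≤ (range (⌊110 * XX r⌋₊ / q + 1)).card := by
    refine card_le_card_of_injOn (fun m => m / q) (fun m hm => ?_) fun m hm m' hm' e => ?_
    · have := (mem_Ioc.1 (mem_filter.1 (mem_coe.1 hm)).1).2
      exact mem_coe.2 (mem_range.2 (Nat.lt_succ_of_le (Nat.div_le_div_right this)))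
    · have e1 : m % q = m' % q :=
        ((mem_filter.1 (mem_coe.1 hm)).2.trans (mem_filter.1 (mem_coe.1 hm')).2.symm :)
      have e2 : m / q = m' / q := e
      rw [← Nat.div_add_mod m q, ← Nat.div_add_mod m' q, e1, e2]
  rw [card_range] at h1
  have h2 : ((Ic r q c).card : ℝ) ≤ (⌊110 * XX r⌋₊ / q : ℕ) + 1 := by exact_mod_cast h1
  have h3 : ((⌊110 * XX r⌋₊ / q : ℕ) : ℝ) ≤ 110 * XX r / q :=
    Nat.cast_div_le.trans (div_le_div_of_nonneg_right (Nat.floor_le (by linarith)) q0.le)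
  have h4 : 1 ≤ XX r / q := (one_le_div q0).2 hX
  have h5 : 111 * XX r / q = 110 * XX r / q + XX r / q := by ring
  linarith

theorem split (r θ a u : ℝ) (q c : ℕ) (β : ℕ → ℂ) :
    ∑ m ∈ Ic r q c, β m * (gk a (m - u) : ℂ) =
      (∫ v in (r ^ 13 - 5)..(r ^ 13 + 5), Zc r θ β q c v * (gk a (Real.exp v - u) : ℂ)) +
        ∑ m ∈ Ic r q c, β m * (Kr r θ a m u : ℂ) := by
  have c1 := cgk a
  have c2 := cgk θ
  simp only [Zc, sum_mul]
  rw [intervalIntegral.integral_finsetSum fun m _ => Continuous.intervalIntegrable (by fun_prop) _ _,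
    ← sum_add_distrib]
  refine sum_congr rfl fun m _ => ?_
  simp only [mul_assoc]
  rw [intervalIntegral.integral_const_mul, Kr, Complex.ofReal_sub,
    ← intervalIntegral.integral_ofReal]
  push_cast
  ring

end A2Mx

open A2Mx in
theorem p_A2M (hA2M1 : S_A2M1) (hA2M2 : S_A2M2) (hA2M3 : S_A2M3) (hSCH : S_SCH) :
    S_A2M := by
  refine ⟨1198800, by norm_num, ?_⟩
  filter_upwards [hA2M1, hA2M2, eventually_ge_atTop (1 : ℝ)] with r h1 h2 hr θ a B q c β sw ha hβ
  have q0 : (0 : ℝ) < q := by exact_mod_cast sw.q1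
  have a0 : 0 < a := q0.trans_le ha
  have X0 : 0 < XX r := Real.exp_pos _
  have θ0 : 0 < θ := by
    have := sw.qt
    by_contra h
    nlinarith [not_lt.1 h]
  have hX : (q : ℝ) ≤ XX r :=
    sw.qe.trans (Real.exp_le_exp.2 (le_self_pow₀ hr (by norm_num)))
  have c2 := cgk θ
  obtain ⟨i1, j1⟩ := hA2M3 (Zc r θ β q c) a (r ^ 13 - 5) (r ^ 13 + 5)
    (by unfold Zc; fun_prop) a0 (by linarith)
  obtain ⟨i2, j2⟩ := hSCH (Ic r q c) β (Kr r θ a) B (18 / q)
    (300 * (θ * XX r / a) + Real.exp (-r ^ 13)) (by positivity)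
    (fun m hm => ⟨hβ m, h1 θ a m θ0 sw.tt a0 (mem_filter.1 hm).1⟩) fun u => h2 θ a u q c sw ha
  refine (integral_mono_of_nonneg (ae_of_all _ fun u => sq_nonneg _)
    ((i1.const_mul 2).add (i2.const_mul 2)) (ae_of_all _ fun u => ?_)).trans ?_
  · simp only [split r θ a u q c β, Pi.add_apply]
    refine (pow_le_pow_left₀ (norm_nonneg _) (norm_add_le _ _) 2).trans ?_
    exact (add_sq_le).trans_eq (by ring)
  · simp only [Pi.add_apply]
    rw [integral_add (i1.const_mul 2) (i2.const_mul 2), integral_const_mul, integral_const_mul]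
    have e0 := Real.exp_pos (-r ^ 13)
    have t0 : 0 < θ * XX r / a := by positivity
    have j3 : B ^ 2 * (18 / q) * ((Ic r q c).card * (300 * (θ * XX r / a) + Real.exp (-r ^ 13))) ≤
        B ^ 2 * (18 / q) * (111 * XX r / q * (300 * (θ * XX r / a + Real.exp (-r ^ 13)))) := by
      have := card_le r q c sw.q1 hX
      gcongr
      linarith
    have j4 : 2 * (B ^ 2 * (18 / q) * (111 * XX r / q *
        (300 * (θ * XX r / a + Real.exp (-r ^ 13))))) = 1198800 * B ^ 2 * XX r / (q : ℝ) ^ 2 *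
          (θ * XX r / a + Real.exp (-r ^ 13)) := by ring
    linarith

end Pool.Agent.P.MP_42fc1a_nt.EK
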