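import Pool.Agent.P.MP_42fc1a_nt.EK.IfaceC

/-! Step A2M1. -/

namespace Pool.Agent.P.MP_42fc1a_nt.EK

open Finset Real Filter Topology MeasureTheory
open Pool.Agent.P.MP_e86632_nt (ee nn ee_add norm_ee ee_neg ee_zero)
open Pool.Agent.P.MP_8be758_nt.Avg (gs red ft nsq gs_pos gs_le_one gs_neg gs_anti)
open Pool.Agent.P.MP_e94e4b_nt.PF (sgm)
open Pool.Agent.P.E2
open ArithmeticFunction (vonMangoldt moebius)
open DirichletCharacter (LFunction)
open scoped Classical

namespace A2M1x

theorem tail {w α β x W : ℝ} (hw : 0 < w) (hW : 0 ≤ W) (hab : α ≤ β) (a : α + W * w ≤ x)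
    (b : x ≤ β - W * w) : |1 - ∫ v in α..β, gk w (x - v)| ≤ 2 * Real.exp (-W ^ 2) := by
  rw [intervalIntegral.integral_comp_sub_left (gk w) x,
    intervalIntegral.integral_of_le (by linarith), ← integral_Icc_eq_integral_Ioc,
    ← gk_integral hw, ← integral_add_compl (measurableSet_Icc (a := x - β) (b := x - α))
      (gk_integrable hw), add_sub_cancel_left, abs_of_nonneg (integral_nonneg (gk_nonneg hw))]
  refine (setIntegral_mono_set (gk_integrable hw).integrableOn (ae_of_all _ (gk_nonneg hw))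
    (LE.le.eventuallyLE fun u hu => ?_)).trans (gk_tail hw hW)
  rw [Set.mem_compl_iff, Set.mem_Icc, not_and_or, not_le, not_le] at hu
  change w * W ≤ |u|
  exact le_abs.2 (hu.symm.imp (fun _ => by linarith) fun _ => by linarith)

theorem lip {s t B : ℝ} (hs : s ≤ B) (ht : t ≤ B) :
    |Real.exp s - Real.exp t| ≤ Real.exp B * |s - t| := by
  wlog h : t ≤ s generalizing s t
  · rw [abs_sub_comm, abs_sub_comm s]; exact this ht hs (le_of_not_ge h)
  rw [abs_of_nonneg (sub_nonneg.2 (Real.exp_le_exp.2 h)), abs_of_nonneg (sub_nonneg.2 h)]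
  have h1 := mul_le_mul_of_nonneg_left (Real.add_one_le_exp (t - s)) (Real.exp_pos s).le
  rw [← Real.exp_add, add_sub_cancel] at h1
  nlinarith [mul_le_mul_of_nonneg_right (Real.exp_le_exp.2 hs) (sub_nonneg.2 h)]

theorem fub {F : ℝ → ℝ → ℝ} {g : ℝ → ℝ} {S : Set ℝ} (hS : MeasurableSet S)
    (hc : Continuous F.uncurry) (hi : ∀ v, Integrable fun u => F u v) (g1 : Integrable g)
    (g0 : ∀ v, 0 ≤ g v) (hb : ∀ v ∈ S, ∫ u, ‖F u v‖ ≤ g v) :
    Integrable (fun u => ∫ v in S, F u v) ∧ ∫ u, ‖∫ v in S, F u v‖ ≤ ∫ v, g v := by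
  have hm : AEStronglyMeasurable F.uncurry (volume.prod (volume.restrict S)) :=
    hc.aestronglyMeasurable
  have hb' : ∀ᵐ v ∂volume.restrict S, ∫ u, ‖F u v‖ ≤ g v := (ae_restrict_mem hS).mono hb
  have hF : Integrable F.uncurry (volume.prod (volume.restrict S)) :=
    (integrable_prod_iff' hm).2 ⟨ae_of_all _ hi,
      g1.integrableOn.mono' hm.prod_swap.norm.integral_prod_right' (hb'.mono fun v hv => by
        rwa [Real.norm_of_nonneg (integral_nonneg fun _ => norm_nonneg _)])⟩
  refine ⟨hF.integral_prod_left, ?_⟩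
  calc _ ≤ ∫ u, ∫ v in S, ‖F u v‖ :=
        integral_mono hF.integral_prod_left.norm hF.norm.integral_prod_left fun u =>
          norm_integral_le_integral_norm _
    _ = ∫ v in S, ∫ u, ‖F u v‖ := integral_integral_swap (f := fun u v => ‖F u v‖) hF.norm
    _ ≤ ∫ v in S, g v := integral_mono_ae hF.norm.integral_prod_right g1.integrableOn hb'
    _ ≤ _ := setIntegral_le_integral g1 (ae_of_all _ g0)

theorem main (hGL1 : S_GL1) {θ a α β x y c : ℝ} (hθ : 0 < θ) (ha : 0 < a) (hab : α ≤ β)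
    (hc : 0 ≤ c) (h : ∀ v ∈ Set.Ioc α β, |y - Real.exp v| ≤ c * |x - v|) :
    Integrable (fun u => ∫ v in α..β, gk θ (x - v) * (gk a (y - u) - gk a (Real.exp v - u))) ∧
    ∫ u, |∫ v in α..β, gk θ (x - v) * (gk a (y - u) - gk a (Real.exp v - u))| ≤
      2 * c / a * θ := by
  simp only [intervalIntegral.integral_of_le hab, ← Real.norm_eq_abs]
  have := fub (F := fun u v => gk θ (x - v) * (gk a (y - u) - gk a (Real.exp v - u)))
    (g := fun v => 2 * c / a * (gk θ (x - v) * |x - v|)) (measurableSet_Ioc (a := α) (b := β))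
    (by fun_prop) (fun v => ((gk_integrable' ha y).sub (gk_integrable' ha _)).const_mul _)
    (((hGL1.2 θ hθ).1.comp_sub_left x).const_mul _)
    (fun v => mul_nonneg (by positivity) (mul_nonneg (gk_nonneg hθ _) (abs_nonneg _)))
    fun v hv => by
      simp only [Real.norm_eq_abs, abs_mul, abs_of_pos (gk_pos hθ _), integral_const_mul]
      refine (mul_le_mul_of_nonneg_left ((hGL1.1 a _ _ ha).trans (div_le_div_of_nonneg_right
        (mul_le_mul_of_nonneg_left (h v hv) zero_le_two) ha.le)) (gk_nonneg hθ _)).trans_eq ?_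
      ring
  refine ⟨this.1, this.2.trans ?_⟩
  rw [integral_const_mul, integral_sub_left_eq_self (fun z => gk θ z * |z|) volume x]
  exact mul_le_mul_of_nonneg_left (hGL1.2 θ hθ).2 (by positivity)

theorem e5 : 148 ≤ Real.exp 5 ∧ Real.exp 5 ≤ 150 := by
  rw [show Real.exp 5 = Real.exp 1 ^ 5 by rw [← Real.exp_nat_mul]; norm_num]
  exact ⟨le_trans (by norm_num) (pow_le_pow_left₀ (by norm_num) Real.exp_one_gt_d9.le 5),
    (pow_le_pow_left₀ (Real.exp_pos 1).le Real.exp_one_lt_d9.le 5).trans (by norm_num)⟩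

theorem e4 : 110 ≤ Real.exp (19 / 4) := by
  rw [show (19 / 4 : ℝ) = 5 + -1 / 4 by norm_num, Real.exp_add]
  nlinarith [e5.1, Real.add_one_le_exp (-1 / 4)]

end A2M1x

open A2M1x in
theorem p_A2M1 (hGL1 : S_GL1) :
    S_A2M1 := by
  filter_upwards [ev_pe 32 13 (c := 14) (by norm_num), eventually_ge_atTop 1]
    with r h1 h2 θ a m hθ hT ha hm
  have hX := XX_pos r
  obtain ⟨m1, m2⟩ := mem_Ioc.1 hm
  have m3 : XX r / 60 < m := (Nat.floor_lt (by positivity)).1 m1
  have m4 : (m : ℝ) ≤ 110 * XX r := (Nat.le_floor_iff (by positivity)).1 m2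
  have m0 : (0 : ℝ) < m := lt_trans (by positivity) m3
  have l1 : Real.log m ≤ r ^ 13 + 19 / 4 := by
    rw [Real.log_le_iff_le_exp m0, Real.exp_add]
    exact m4.trans (by rw [mul_comm]; exact mul_le_mul_of_nonneg_left e4 hX.le)
  have l2 : r ^ 13 ≤ Real.log m + 19 / 4 := by
    rw [← Real.exp_le_exp, Real.exp_add, Real.exp_log m0]
    change XX r ≤ _
    nlinarith [e4]
  have hab : r ^ 13 - 5 ≤ r ^ 13 + 5 := by linarith
  obtain ⟨i1, i2⟩ := main hGL1 (x := Real.log m) (y := m) (c := 150 * XX r) hθ ha hab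
    (by positivity) fun v hv => by
      have := lip (l1.trans (by linarith)) hv.2
      rw [Real.exp_log m0, Real.exp_add] at this
      exact this.trans (mul_le_mul_of_nonneg_right (by
        rw [mul_comm]; exact mul_le_mul_of_nonneg_right e5.2 hX.le) (abs_nonneg _))
  have e : 1 / (4 * θ) * θ = 1 / 4 := by field_simp
  have t1 := tail (x := Real.log m) hθ (W := 1 / (4 * θ)) (by positivity) hab (by linarith)
    (by linarith)
  have t2 : 2 * Real.exp (-(1 / (4 * θ)) ^ 2) ≤ Real.exp (-r ^ 13) := by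
    have a1 : Real.exp (7 * r) / 4 ≤ 1 / (4 * θ) := by
      rw [div_le_div_iff₀ (by norm_num) (by positivity)]
      have := mul_le_mul_of_nonneg_left hT (Real.exp_pos (7 * r)).le
      rw [Th, ← Real.exp_add, add_neg_cancel, Real.exp_zero] at this
      linarith
    have a2 := pow_le_pow_left₀ (by positivity) a1 2
    rw [div_pow, ← Real.exp_nat_mul, show ((2 : ℕ) : ℝ) * (7 * r) = 14 * r by push_cast; ring] at a2
    calc _ ≤ Real.exp 1 * Real.exp (-(1 / (4 * θ)) ^ 2) :=
          mul_le_mul_of_nonneg_right (by linarith [Real.add_one_le_exp 1]) (Real.exp_pos _).le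
      _ ≤ _ := by
          rw [← Real.exp_add]
          exact Real.exp_le_exp.2 (by linarith [one_le_pow₀ (n := 13) h2])
  have hK : Kr r θ a m = fun u => (1 - ∫ v in (r ^ 13 - 5)..(r ^ 13 + 5), gk θ (Real.log m - v)) *
      gk a (m - u) + ∫ v in (r ^ 13 - 5)..(r ^ 13 + 5),
        gk θ (Real.log m - v) * (gk a (m - u) - gk a (Real.exp v - u)) := by
    funext u
    simp only [Kr, mul_sub]
    rw [intervalIntegral.integral_sub (Continuous.intervalIntegrable (by fun_prop) _ _)
      (Continuous.intervalIntegrable (by fun_prop) _ _), intervalIntegral.integral_mul_const]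
    ring
  have j1 := (gk_integrable' ha m).const_mul
    (1 - ∫ v in (r ^ 13 - 5)..(r ^ 13 + 5), gk θ (Real.log m - v))
  refine ⟨Continuous.sub (by fun_prop)
    (intervalIntegral.continuous_parametric_intervalIntegral_of_continuous' (by fun_prop) _ _),
    hK ▸ j1.add i1, ?_⟩
  rw [hK]
  refine (integral_mono (j1.add i1).abs (j1.abs.add i1.abs) fun u => abs_add_le _ _).trans ?_
  simp only [Pi.add_apply]
  rw [integral_add j1.abs i1.abs]
  simp only [abs_mul, abs_of_pos (gk_pos ha _)]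
  rw [integral_const_mul, gk_integral' ha, show 300 * (θ * XX r / a) =
    2 * (150 * XX r) / a * θ by ring]
  linarith

end Pool.Agent.P.MP_42fc1a_nt.EK
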