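import Pool.Agent.P.MP_42fc1a_nt.EK.IfaceC

/-! Step A2M3. -/

namespace Pool.Agent.P.MP_42fc1a_nt.EK

open Finset Real Filter Topology MeasureTheory
open Pool.Agent.P.MP_e86632_nt (ee nn ee_add norm_ee ee_neg ee_zero)
open Pool.Agent.P.MP_8be758_nt.Avg (gs red ft nsq gs_pos gs_le_one gs_neg gs_anti)
open Pool.Agent.P.MP_e94e4b_nt.PF (sgm)
open Pool.Agent.P.E2
open ArithmeticFunction (vonMangoldt moebius)
open DirichletCharacter (LFunction)
open scoped Classical

namespace A2M3x

theorem mass {a : ℝ} (ha : 0 < a) (u : ℝ) {v0 v1 : ℝ} (h : v0 ≤ v1) :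
    ∫ v in v0..v1, Real.exp v * gk a (Real.exp v - u) ≤ 1 := by
  have h1 := intervalIntegral.integral_comp_mul_deriv (a := v0) (b := v1) (f := Real.exp)
    (f' := Real.exp) (g := fun y => gk a (y - u)) (fun x _ => Real.hasDerivAt_exp x)
    Real.continuous_exp.continuousOn (by fun_prop)
  have h2 : ∫ v in v0..v1, Real.exp v * gk a (Real.exp v - u) =
      ∫ y in Real.exp v0..Real.exp v1, gk a (y - u) := by
    rw [← h1]
    refine intervalIntegral.integral_congr fun x _ => ?_
    simp only [Function.comp]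
    ring
  have hi : Integrable fun y => gk a (y - u) := (gk_integrable ha).comp_sub_right u
  rw [h2, intervalIntegral.integral_of_le (Real.exp_le_exp.2 h)]
  refine (setIntegral_le_integral hi (Eventually.of_forall fun y => gk_nonneg ha _)).trans ?_
  rw [integral_sub_right_eq_self (gk a) u, gk_integral ha]

theorem point {Z : ℝ → ℂ} (hZ : Continuous Z) {a : ℝ} (ha : 0 < a) (u : ℝ) {v0 v1 : ℝ}
    (h : v0 ≤ v1) :
    ‖∫ v in v0..v1, Z v * (gk a (Real.exp v - u) : ℂ)‖ ^ 2 ≤
      ∫ v in v0..v1, Real.exp (-v) * ‖Z v‖ ^ 2 * gk a (Real.exp v - u) := by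
  set M := ∫ v in v0..v1, ‖Z v‖ * gk a (Real.exp v - u) with hM
  have h1 : ‖∫ v in v0..v1, Z v * (gk a (Real.exp v - u) : ℂ)‖ ≤ M := by
    refine (intervalIntegral.norm_integral_le_integral_norm h).trans (le_of_eq ?_)
    refine intervalIntegral.integral_congr fun x _ => ?_
    simp only [norm_mul, Complex.norm_real, Real.norm_eq_abs, abs_of_nonneg (gk_nonneg ha _)]
  have c1 : Continuous fun v => ‖Z v‖ * gk a (Real.exp v - u) := by fun_prop
  have c2 : Continuous fun v => Real.exp v * gk a (Real.exp v - u) := by fun_prop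
  have c3 : Continuous fun v => Real.exp (-v) * ‖Z v‖ ^ 2 * gk a (Real.exp v - u) := by fun_prop
  have h2 : ∫ v in v0..v1, 2 * M * (‖Z v‖ * gk a (Real.exp v - u)) ≤
      ∫ v in v0..v1, (M ^ 2 * (Real.exp v * gk a (Real.exp v - u)) +
        Real.exp (-v) * ‖Z v‖ ^ 2 * gk a (Real.exp v - u)) := by
    refine intervalIntegral.integral_mono_on h ((c1.const_mul _).intervalIntegrable _ _)
      (((c2.const_mul _).add c3).intervalIntegrable _ _) fun v _ => ?_
    have hg := gk_nonneg ha (Real.exp v - u)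
    have he := Real.exp_pos (-v)
    have e1 : Real.exp (-v) * Real.exp v = 1 := by rw [← Real.exp_add]; simp
    have h3 : 2 * M * ‖Z v‖ ≤ M ^ 2 * Real.exp v + Real.exp (-v) * ‖Z v‖ ^ 2 := by
      have h4 := mul_nonneg he.le (sq_nonneg (M * Real.exp v - ‖Z v‖))
      have h5 : Real.exp (-v) * (M * Real.exp v - ‖Z v‖) ^ 2 =
          M ^ 2 * Real.exp v * (Real.exp (-v) * Real.exp v) -
            2 * M * ‖Z v‖ * (Real.exp (-v) * Real.exp v) + Real.exp (-v) * ‖Z v‖ ^ 2 := by ring
      rw [h5, e1] at h4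
      linarith
    have h6 := mul_le_mul_of_nonneg_right h3 hg
    linarith
  rw [intervalIntegral.integral_add ((c2.const_mul _).intervalIntegrable _ _)
    (c3.intervalIntegrable _ _), intervalIntegral.integral_const_mul,
    intervalIntegral.integral_const_mul, ← hM] at h2
  have h3 := mul_le_mul_of_nonneg_left (mass ha u h) (sq_nonneg M)
  have h4 := pow_le_pow_left₀ (norm_nonneg _) h1 2
  nlinarith

theorem prod {w : ℝ → ℝ} (hw : Continuous w) (h0 : ∀ v, 0 ≤ w v) {a : ℝ} (ha : 0 < a)
    (v0 v1 : ℝ) :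
    Integrable (Function.uncurry fun u v : ℝ => w v * gk a (Real.exp v - u))
      ((volume : Measure ℝ).prod (volume.restrict (Set.Ioc v0 v1))) := by
  have hc : Continuous (Function.uncurry fun u v : ℝ => w v * gk a (Real.exp v - u)) := by
    unfold Function.uncurry
    fun_prop
  rw [integrable_prod_iff' hc.aestronglyMeasurable]
  refine ⟨Eventually.of_forall fun v => (gk_integrable' ha (Real.exp v)).const_mul (w v), ?_⟩
  have e : (fun v : ℝ => ∫ u : ℝ,
      ‖(Function.uncurry fun u v : ℝ => w v * gk a (Real.exp v - u)) (u, v)‖) = w := by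
    funext v
    simp only [Function.uncurry, Real.norm_eq_abs, abs_of_nonneg (mul_nonneg (h0 v) (gk_nonneg ha _))]
    rw [integral_const_mul, gk_integral' ha, mul_one]
  rw [e]
  exact (hw.integrableOn_Icc (a := v0) (b := v1)).mono_set Set.Ioc_subset_Icc_self

end A2M3x

theorem p_A2M3 :
    S_A2M3 := by
  intro Z a v0 v1 hZ ha h
  have hw : Continuous fun v => Real.exp (-v) * ‖Z v‖ ^ 2 := by fun_prop
  have hP := A2M3x.prod hw (fun v => by positivity) ha v0 v1
  have hB : Integrable fun u : ℝ =>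
      ∫ v in v0..v1, Real.exp (-v) * ‖Z v‖ ^ 2 * gk a (Real.exp v - u) := by
    simp only [intervalIntegral.integral_of_le h]
    exact hP.integral_prod_left
  have hc : Continuous fun u : ℝ => ∫ v in v0..v1, Z v * (gk a (Real.exp v - u) : ℂ) := by
    refine intervalIntegral.continuous_parametric_intervalIntegral_of_continuous' ?_ v0 v1
    unfold Function.uncurry
    fun_prop
  have hI : Integrable
      (fun u : ℝ => ‖∫ v in v0..v1, Z v * (gk a (Real.exp v - u) : ℂ)‖ ^ 2) := by
    refine hB.mono' (by fun_prop : Continuous _).aestronglyMeasurable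
      (Eventually.of_forall fun u => ?_)
    rw [Real.norm_eq_abs, abs_of_nonneg (by positivity)]
    exact A2M3x.point hZ ha u h
  refine ⟨hI, (integral_mono hI hB fun u => A2M3x.point hZ ha u h).trans (le_of_eq ?_)⟩
  simp only [intervalIntegral.integral_of_le h]
  rw [integral_integral_swap hP]
  refine integral_congr_ae (Eventually.of_forall fun v => ?_)
  simp only
  rw [integral_const_mul, gk_integral' ha, mul_one]

end Pool.Agent.P.MP_42fc1a_nt.EK
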