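import Pool.Agent.P.MP_42fc1a_nt.EK.IfaceD
import Pool.Agent.P.MP_e94e4b_nt.E2.TAPX

/-! Step APX0. -/

namespace Pool.Agent.P.MP_42fc1a_nt.EK

open Finset Real Filter Topology MeasureTheory
open Pool.Agent.P.MP_e86632_nt (ee nn ee_add norm_ee ee_neg ee_zero)
open Pool.Agent.P.MP_8be758_nt.Avg (gs red ft nsq gs_pos gs_le_one gs_neg gs_anti)
open Pool.Agent.P.MP_e94e4b_nt.PF (sgm)
open Pool.Agent.P.E2
open ArithmeticFunction (vonMangoldt moebius)
open DirichletCharacter (LFunction)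
open scoped Classical

namespace APX0x

theorem kap0 {q : ℕ} [NeZero q] {χ : DirichletCharacter ℂ q} (h : χ ≠ 1) : kap q (ch χ) = 0 := by
  have := MulChar.sum_eq_zero_of_ne_one h
  rw [kap, div_eq_zero_iff]
  refine Or.inl (Eq.trans ?_ this)
  refine sum_bij (fun n _ => (n : ZMod q)) (fun _ _ => mem_univ _) (fun a ha b hb e => ?_)
    (fun x _ => ⟨x.val, mem_range.2 (ZMod.val_lt x), ZMod.natCast_zmod_val x⟩) fun _ _ => rfl
  have := congrArg ZMod.val e
  rwa [ZMod.val_cast_of_lt (mem_range.1 ha), ZMod.val_cast_of_lt (mem_range.1 hb)] at this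

end APX0x

open APX0x APXa in
theorem p_APX0 (hAP1 : S_AP1) (hAP2 : S_AP2) :
    S_APX0 := by
  intro q _ χ s k0 hχ h1 hk
  have hP := per_ch χ
  have A : ∀ s : ℂ, 1 / 2 < s.re → s.im ≠ 0 →
      ‖LFunction χ s - ∑ n ∈ Icc 1 (k0 * q), ch χ n * (n : ℂ) ^ (-s)‖ ≤
        6 * q * ‖s‖ / √(k0 : ℝ) := fun s h1 h2 => by
    have hs : s ≠ 1 := by
      rintro rfl
      norm_num at h2
    have e : LFunction χ s = ∑ n ∈ Icc 1 (k0 * q), ch χ n * (n : ℂ) ^ (-s) +
        ∑' j : ℕ, Bk q (ch χ) s (k0 + j) -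
          kap q (ch χ) * (((k0 * q : ℕ) : ℂ) ^ (1 - s) / (1 - s)) := by
      rcases h2.lt_or_gt with h | h
      · exact key hAP1 hAP2 χ hk (V := {z : ℂ | z.im < 0}) (z0 := 2 - Complex.I)
          (isOpen_lt Complex.continuous_im continuous_const) (convex_halfSpace_im_lt _) (by simp)
          h h1 (by simp) (by simp)
      · exact key hAP1 hAP2 χ hk (V := {z : ℂ | 0 < z.im}) (z0 := 2 + Complex.I)
          (isOpen_lt continuous_const Complex.continuous_im) (convex_halfSpace_im_gt _) (by simp)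
          h h1 (by simp) (by simp)
    rw [e, kap0 hχ, zero_mul, sub_zero, add_sub_cancel_left]
    refine (tsum_of_norm_bounded ((summ hk).mul_left (2 * q * ‖s‖)).hasSum fun j => ?_).trans ?_
    · rw [mul_one_div]
      exact hAP1 q _ _ s hP h1.le hs (by omega)
    · rw [tsum_mul_left]
      refine (mul_le_mul_of_nonneg_left ((summ hk).tsum_le_of_sum_range_le (tail hk))
        (by positivity)).trans_eq (by ring)
  by_cases h2 : s.im = 0
  swap
  · exact A s h1 h2
  have T : Tendsto (fun t : ℝ => s + t * Complex.I) (𝓝[>] 0) (𝓝 s) :=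
    (Continuous.tendsto' (by fun_prop) 0 s (by simp)).mono_left nhdsWithin_le_nhds
  have cf : Continuous fun s : ℂ =>
      ‖LFunction χ s - ∑ n ∈ Icc 1 (k0 * q), ch χ n * (n : ℂ) ^ (-s)‖ :=
    ((DirichletCharacter.differentiable_LFunction hχ).continuous.sub
      (continuous_finsetSum _ fun n hn => ((dcpow (by have := (mem_Icc.1 hn).1; omega)
        (f := fun s => -s) (by fun_prop)).const_mul _).continuous)).norm
  have cg : Continuous fun s : ℂ => 6 * q * ‖s‖ / √(k0 : ℝ) := by fun_prop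
  refine le_of_tendsto_of_tendsto ((cf.tendsto s).comp T) ((cg.tendsto s).comp T) ?_
  filter_upwards [self_mem_nhdsWithin] with t ht
  exact A _ (by simpa using h1) (by simpa [h2] using ne_of_gt ht)

end Pool.Agent.P.MP_42fc1a_nt.EK
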