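import Pool.Agent.P.MP_42fc1a_nt.EK.IfaceC

/-! Step ARCS. -/

namespace Pool.Agent.P.MP_42fc1a_nt.EK

open Finset Real Filter Topology MeasureTheory
open Pool.Agent.P.MP_e86632_nt (ee nn ee_add norm_ee ee_neg ee_zero)
open Pool.Agent.P.MP_8be758_nt.Avg (gs red ft nsq gs_pos gs_le_one gs_neg gs_anti)
open Pool.Agent.P.MP_e94e4b_nt.PF (sgm)
open Pool.Agent.P.E2
open ArithmeticFunction (vonMangoldt moebius)
open DirichletCharacter (LFunction)
open scoped Classical

namespace ARCSx

theorem cover {ι : Type} (F : ℝ → ℝ) (hF : Continuous F) (h0 : ∀ x, 0 ≤ F x) (t : Finset ι)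
    (a b : ι → ℝ) (S : Set ℝ) (hS : ∀ x ∈ S, ∃ i ∈ t, x ∈ Set.Icc (a i) (b i)) :
    ∫ x in S, F x ≤ ∑ i ∈ t, ∫ x in Set.Icc (a i) (b i), F x := by
  have hi : ∀ i, IntegrableOn F (Set.Icc (a i) (b i)) := fun i => hF.continuousOn.integrableOn_Icc
  have hU : MeasurableSet (⋃ i ∈ t, Set.Icc (a i) (b i)) :=
    Finset.measurableSet_biUnion _ fun _ _ => measurableSet_Icc
  have hj : ∀ i ∈ t, Integrable ((Set.Icc (a i) (b i)).indicator F) := fun i _ =>
    (integrable_indicator_iff measurableSet_Icc).2 (hi i)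
  refine (setIntegral_mono_set (integrableOn_finset_iUnion.2 fun i _ => hi i) (ae_of_all _ h0)
    (LE.le.eventuallyLE fun x hx => Set.mem_iUnion₂.2
      ((hS x hx).imp fun _ e => ⟨e.1, e.2⟩))).trans ?_
  simp only [← integral_indicator measurableSet_Icc]
  rw [← integral_indicator hU, ← integral_finsetSum _ hj]
  refine integral_mono_of_nonneg (ae_of_all _ fun x => Set.indicator_nonneg (fun x _ => h0 x) x)
    (integrable_finsetSum _ hj) (ae_of_all _ fun x => ?_)
  have h1 : ∀ i ∈ t, 0 ≤ (Set.Icc (a i) (b i)).indicator F x := fun i _ =>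
    Set.indicator_nonneg (fun x _ => h0 x) x
  refine Set.indicator_apply_le' (fun hx => ?_) fun _ => sum_nonneg h1
  obtain ⟨i, hi, hx⟩ := Set.mem_iUnion₂.1 hx
  exact (Set.indicator_of_mem hx F).ge.trans (single_le_sum h1 hi)

end ARCSx

theorem p_ARCS :
    S_ARCS := by
  intro F q η hF h0 hp hq hη
  have q0 : (0 : ℝ) < q := by exact_mod_cast hq
  refine (ARCSx.cover F hF h0 (range (q + 1)) (fun A => (A : ℝ) / q + -η)
    (fun A => (A : ℝ) / q + η) _ ?_).trans ?_
  · rintro x ⟨⟨x0, x1⟩, hx⟩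
    have r0 : 0 ≤ round (q * x) := by
      rw [round_eq]; exact Int.floor_nonneg.2 (by positivity)
    have r1 : round (q * x) < (q : ℤ) + 1 := by
      rw [round_eq, Int.floor_lt]; push_cast; nlinarith
    obtain ⟨A, hA⟩ := Int.eq_ofNat_of_zero_le r0
    refine ⟨A, mem_range.2 (by omega), ?_⟩
    have hx' : |q * x - (A : ℝ)| ≤ q * η := by simpa [nn, hA] using hx
    rw [abs_le] at hx'
    constructor
    · rw [← le_sub_iff_add_le, div_le_iff₀ q0]; linarith
    · rw [← sub_le_iff_le_add, le_div_iff₀ q0]; linarith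
  · have e : ∀ A : ℕ, ∫ x in Set.Icc ((A : ℝ) / q + -η) ((A : ℝ) / q + η), F x =
        ∫ β in (-η)..η, F ((A : ℝ) / q + β) := fun A => by
      rw [intervalIntegral.integral_comp_add_left, intervalIntegral.integral_of_le (by linarith),
        integral_Icc_eq_integral_Ioc]
    simp only [e]
    rw [sum_range_succ, two_mul]
    refine add_le_add le_rfl (le_trans (le_of_eq ?_) (single_le_sum (a := 0) (fun A _ =>
      intervalIntegral.integral_nonneg (by linarith) fun _ _ => h0 _) (mem_range.2 hq)))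
    simp only [div_self q0.ne', Nat.cast_zero, zero_div, zero_add, add_comm (1 : ℝ), hp]

end Pool.Agent.P.MP_42fc1a_nt.EK
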