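import Pool.Agent.P.MP_42fc1a_nt.EK.IfaceA

/-! Step AVG. -/

namespace Pool.Agent.P.MP_42fc1a_nt.EK

open Finset Real Filter Topology MeasureTheory
open Pool.Agent.P.MP_e86632_nt (ee nn ee_add norm_ee ee_neg ee_zero)
open Pool.Agent.P.MP_8be758_nt.Avg (gs red ft nsq gs_pos gs_le_one gs_neg gs_anti)
open Pool.Agent.P.MP_e94e4b_nt.PF (sgm)
open Pool.Agent.P.E2
open ArithmeticFunction (vonMangoldt moebius)
open DirichletCharacter (LFunction)
open scoped Classical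

namespace AVGx

theorem one (F : ℕ → ℝ) (J : ℕ) :
    ∑ s ∈ Icc 1 J, F (s + 1) + F 1 = ∑ s ∈ Icc 1 J, F s + F (J + 1) := by
  induction J with
  | zero => simp
  | succ J ih =>
    rw [sum_Icc_succ_top (by omega), sum_Icc_succ_top (by omega)]
    linarith

theorem shift (F : ℕ → ℝ) (hF : ∀ s, 0 ≤ F s ∧ F s ≤ 1) (J a : ℕ) :
    ∑ s ∈ Icc 1 J, F (s + a) ≤ ∑ s ∈ Icc 1 J, F s + a ∧
      ∑ s ∈ Icc 1 J, F s ≤ ∑ s ∈ Icc 1 J, F (s + a) + a := by
  induction a with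
  | zero => simp
  | succ a ih =>
    have h := one (fun s => F (s + a)) J
    have e : ∑ s ∈ Icc 1 J, F (s + (a + 1)) = ∑ s ∈ Icc 1 J, F (s + 1 + a) :=
      sum_congr rfl fun s _ => by rw [add_right_comm, add_assoc]
    have h1 := hF (1 + a)
    have h2 := hF (J + 1 + a)
    rw [e]
    push_cast
    constructor <;> linarith [ih.1, ih.2, h1.1, h1.2, h2.1, h2.2]

end AVGx

theorem p_AVG :
    S_AVG := by
  intro f J G0 G1 lam hf l0 l1 hG h0 h1 hs
  by_contra hc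
  push Not at hc
  have hG' : (1 : ℝ) ≤ G1 := by exact_mod_cast hG
  have hJ : (0 : ℝ) < J := by
    by_contra hJ
    have := mul_nonpos_of_nonneg_of_nonpos (sq_nonneg lam) (not_lt.1 hJ)
    linarith
  have hm : ∀ a b, 0 ≤ f a * f b ∧ f a * f b ≤ 1 := fun a b =>
    ⟨mul_nonneg (hf a).1 (hf b).1, mul_le_one₀ (hf a).2 (hf b).1 (hf b).2⟩
  have far : ∀ a b, a + G0 ≤ b → b ≤ G1 →
      ∑ s ∈ Icc 1 J, f (s + a) * f (s + b) ≤ 5 / 16 * (lam ^ 2 * J) := by
    intro a b hab hb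
    obtain ⟨g, rfl⟩ : ∃ g, b = a + g := ⟨b - a, by omega⟩
    have k1 := (AVGx.shift (fun s => f s * f (s + g)) (fun s => hm _ _) J a).1
    have k2 := hc g (by omega) (by omega)
    have k3 : (a : ℝ) ≤ G1 := by exact_mod_cast (by omega : a ≤ G1)
    simp only [add_assoc] at k1
    linarith
  have pos : 0 ≤ lam ^ 2 * J := by positivity
  have T : ∀ a ∈ Icc 1 G1, ∀ b ∈ Icc 1 G1, ∑ s ∈ Icc 1 J, f (s + a) * f (s + b) ≤
      5 / 16 * (lam ^ 2 * J) + if b ∈ Ico (a - G0) (a + G0) then (J : ℝ) else 0 := by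
    intro a ha b hb
    rw [mem_Icc] at ha hb
    split_ifs with h
    · have := sum_le_card_nsmul (Icc 1 J) (fun s => f (s + a) * f (s + b)) 1 fun s _ => (hm _ _).2
      simp only [Nat.card_Icc, add_tsub_cancel_right, nsmul_eq_mul, mul_one] at this
      linarith
    · rw [mem_Ico] at h
      rw [add_zero]
      rcases le_or_gt (a + G0) b with h' | h'
      · exact far a b h' hb.2
      · exact (sum_congr rfl fun s _ => mul_comm _ _).trans_le (far b a (by omega) ha.2)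
  have U : ∀ a ∈ Icc 1 G1, ∑ b ∈ Icc 1 G1, ∑ s ∈ Icc 1 J, f (s + a) * f (s + b) ≤
      G1 * (7 / 16 * (lam ^ 2 * J)) := by
    intro a ha
    refine (sum_le_sum (T a ha)).trans ?_
    rw [sum_add_distrib, ← sum_filter, sum_const, sum_const, Nat.card_Icc, add_tsub_cancel_right,
      nsmul_eq_mul, nsmul_eq_mul]
    have k1 : ((Icc 1 G1).filter fun b => b ∈ Ico (a - G0) (a + G0)).card ≤ 2 * G0 :=
      (card_le_card fun b hb => (mem_filter.1 hb).2).trans (by rw [Nat.card_Ico]; omega)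
    have k2 : (((Icc 1 G1).filter fun b => b ∈ Ico (a - G0) (a + G0)).card : ℝ) ≤ 2 * G0 := by
      exact_mod_cast k1
    nlinarith [mul_le_mul_of_nonneg_right k2 hJ.le, mul_le_mul_of_nonneg_right h0 hJ.le]
  have V : ∑ s ∈ Icc 1 J, (∑ a ∈ Icc 1 G1, f (s + a)) ^ 2 ≤
      G1 * (G1 * (7 / 16 * (lam ^ 2 * J))) := by
    have e : ∑ s ∈ Icc 1 J, (∑ a ∈ Icc 1 G1, f (s + a)) ^ 2 =
        ∑ a ∈ Icc 1 G1, ∑ b ∈ Icc 1 G1, ∑ s ∈ Icc 1 J, f (s + a) * f (s + b) := by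
      simp only [pow_two, sum_mul_sum]
      rw [sum_comm]
      exact sum_congr rfl fun a _ => sum_comm
    have := sum_le_card_nsmul _ _ _ U
    rwa [Nat.card_Icc, add_tsub_cancel_right, nsmul_eq_mul, ← e] at this
  have W : G1 * (15 / 16 * (lam * J)) ≤ ∑ s ∈ Icc 1 J, ∑ a ∈ Icc 1 G1, f (s + a) := by
    have := card_nsmul_le_sum (Icc 1 G1) (fun a => ∑ s ∈ Icc 1 J, f (s + a))
      (15 / 16 * (lam * J)) fun a ha => by
        have k1 := (AVGx.shift f hf J a).2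
        have k2 : (a : ℝ) ≤ G1 := by exact_mod_cast (mem_Icc.1 ha).2
        nlinarith [mul_le_mul_of_nonneg_right l1 (mul_pos l0 hJ).le]
    rwa [Nat.card_Icc, add_tsub_cancel_right, nsmul_eq_mul, sum_comm] at this
  have CS := sq_sum_le_card_mul_sum_sq (s := Icc 1 J) (f := fun s => ∑ a ∈ Icc 1 G1, f (s + a))
  rw [Nat.card_Icc, add_tsub_cancel_right] at CS
  have k1 := pow_le_pow_left₀ (by positivity) W 2
  have k2 := mul_le_mul_of_nonneg_left V hJ.le
  have k3 : 0 < (G1 * (lam * J) : ℝ) ^ 2 := by positivity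
  nlinarith

end Pool.Agent.P.MP_42fc1a_nt.EK
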