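import Pool.Agent.P.MP_42fc1a_nt.EK.IfaceB

/-! Step BIL. -/

namespace Pool.Agent.P.MP_42fc1a_nt.EK

open Finset Real Filter Topology MeasureTheory
open Pool.Agent.P.MP_e86632_nt (ee nn ee_add norm_ee ee_neg ee_zero)
open Pool.Agent.P.MP_8be758_nt.Avg (gs red ft nsq gs_pos gs_le_one gs_neg gs_anti)
open Pool.Agent.P.MP_e94e4b_nt.PF (sgm)
open Pool.Agent.P.E2
open ArithmeticFunction (vonMangoldt moebius)
open DirichletCharacter (LFunction)
open scoped Classical

namespace BILx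

/-- bounded and measurable -/
def BM {E : Type} [NormedRing E] [MeasurableSpace E] (F : ℝ → E) : Prop :=
  Measurable F ∧ ∃ B, ∀ x, ‖F x‖ ≤ B

section
variable {E : Type} [NormedRing E] [MeasurableSpace E] [BorelSpace E] [SecondCountableTopology E]

theorem BM.ii {F : ℝ → E} (h : BM F) : IntervalIntegrable F volume 0 1 := by
  obtain ⟨hm, B, hb⟩ := h
  exact (intervalIntegrable_const (c := B)).mono_fun' hm.aestronglyMeasurable (ae_of_all _ hb)

theorem BM.mul {F G : ℝ → E} (h : BM F) (g : BM G) : BM fun x => F x * G x := by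
  obtain ⟨m1, B1, b1⟩ := h
  obtain ⟨m2, B2, b2⟩ := g
  exact ⟨m1.mul m2, B1 * B2, fun x => (norm_mul_le _ _).trans
    (mul_le_mul (b1 x) (b2 x) (norm_nonneg _) ((norm_nonneg _).trans (b1 x)))⟩

theorem BM.add {F G : ℝ → E} (h : BM F) (g : BM G) : BM fun x => F x + G x := by
  obtain ⟨m1, B1, b1⟩ := h
  obtain ⟨m2, B2, b2⟩ := g
  exact ⟨m1.add m2, B1 + B2, fun x => (norm_add_le _ _).trans (add_le_add (b1 x) (b2 x))⟩

omit [BorelSpace E] [SecondCountableTopology E] in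
theorem BM.const (c : E) : BM fun _ : ℝ => c := ⟨measurable_const, ‖c‖, fun _ => le_rfl⟩

theorem BM.sum {ι : Type} (s : Finset ι) {F : ι → ℝ → E} (h : ∀ i ∈ s, BM (F i)) :
    BM fun x => ∑ i ∈ s, F i x := by
  induction s using Finset.induction_on with
  | empty => simpa using BM.const (0 : E)
  | insert a s ha ih =>
    simp only [sum_insert ha]
    exact (h a (mem_insert_self _ _)).add (ih fun i hi => h i (mem_insert_of_mem hi))

omit [BorelSpace E] [SecondCountableTopology E] in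
theorem BM.comp {F : ℝ → E} (h : BM F) {u : ℝ → ℝ} (hu : Measurable u) : BM fun x => F (u x) := by
  obtain ⟨m1, B1, b1⟩ := h
  exact ⟨m1.comp hu, B1, fun x => b1 _⟩

omit [SecondCountableTopology E] in
theorem BM.norm {F : ℝ → E} (h : BM F) : BM fun x => ‖F x‖ := by
  obtain ⟨m1, B1, b1⟩ := h
  exact ⟨m1.norm, B1, fun x => by rw [norm_norm]; exact b1 x⟩

omit [BorelSpace E] [SecondCountableTopology E] in
theorem BM.ind {F : ℝ → E} (h : BM F) {U : Set ℝ} (hU : MeasurableSet U) : BM (U.indicator F) := by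
  obtain ⟨m1, B1, b1⟩ := h
  exact ⟨m1.indicator hU, B1, fun x => (norm_indicator_le_norm_self F x).trans (b1 x)⟩

theorem BM.sq {F : ℝ → E} (h : BM F) : BM fun x => F x ^ 2 := by
  simpa only [pow_two] using h.mul h

end

theorem BM.ofReal {F : ℝ → ℝ} (h : BM F) : BM fun x => (F x : ℂ) := by
  obtain ⟨m1, B1, b1⟩ := h
  exact ⟨Complex.measurable_ofReal.comp m1, B1, fun x => by
    rw [Complex.norm_real]; exact b1 x⟩

theorem chg (hCHG : S_CHG) {p : ℕ} (hp : 1 ≤ p) {F H : ℝ → ℂ} (hF : BM F) (hH : BM H)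
    (hper : ∀ x, H (x + 1) = H x) : ∫ α in (0 : ℝ)..1, F α * H (p * α) =
      ∫ β in (0 : ℝ)..1, (∑ j ∈ range p, F ((β + j) / p)) / p * H β := by
  obtain ⟨m1, B1, b1⟩ := hF
  obtain ⟨m2, B2, b2⟩ := hH
  exact hCHG p F H (max B1 B2) hp m1 m2
    (fun x => ⟨(b1 x).trans (le_max_left _ _), (b2 x).trans (le_max_right _ _)⟩) hper

theorem chgR (hCHG : S_CHG) {p : ℕ} (hp : 1 ≤ p) {F H : ℝ → ℝ} (hF : BM F) (hH : BM H)
    (hper : ∀ x, H (x + 1) = H x) : ∫ α in (0 : ℝ)..1, F α * H (p * α) =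
      ∫ β in (0 : ℝ)..1, (∑ j ∈ range p, F ((β + j) / p)) / p * H β := by
  have := chg hCHG hp hF.ofReal hH.ofReal (fun x => by rw [hper])
  apply Complex.ofReal_injective
  rw [← intervalIntegral.integral_ofReal, ← intervalIntegral.integral_ofReal]
  push_cast
  exact this

theorem cs {F G : ℝ → ℝ} (hF : BM F) (hG : BM G) :
    (∫ x in (0 : ℝ)..1, F x * G x) ^ 2 ≤ (∫ x in (0 : ℝ)..1, F x ^ 2) * ∫ x in (0 : ℝ)..1, G x ^ 2 := by
  have key : ∀ t : ℝ, 0 ≤ (∫ x in (0 : ℝ)..1, F x ^ 2) * (t * t) +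
      (2 * ∫ x in (0 : ℝ)..1, F x * G x) * t + ∫ x in (0 : ℝ)..1, G x ^ 2 := by
    intro t
    have h0 : 0 ≤ ∫ x in (0 : ℝ)..1, (F x * t + G x) ^ 2 :=
      intervalIntegral.integral_nonneg zero_le_one fun x _ => sq_nonneg _
    have e : ∀ x, (F x * t + G x) ^ 2 = F x ^ 2 * (t * t) + F x * G x * (2 * t) + G x ^ 2 :=
      fun x => by ring
    simp only [e] at h0
    rw [intervalIntegral.integral_add (((hF.sq.mul (BM.const _)).add
      ((hF.mul hG).mul (BM.const _))).ii) hG.sq.ii, intervalIntegral.integral_add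
      (hF.sq.mul (BM.const _)).ii ((hF.mul hG).mul (BM.const _)).ii,
      intervalIntegral.integral_mul_const, intervalIntegral.integral_mul_const] at h0
    linarith
  have := discrim_le_zero key
  rw [discrim] at this
  nlinarith

theorem bm_ft (S : Finset ℕ) (a : ℕ → ℂ) : BM (ft S a) := by
  have hc : Continuous ee := by unfold ee; fun_prop
  refine BM.sum S fun n _ => (BM.const _).mul (BM.comp (F := ee) ⟨hc.measurable, 1, fun x => ?_⟩
    (by fun_prop))
  rw [norm_ee]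

theorem ft_per (S : Finset ℕ) (a : ℕ → ℂ) (x : ℝ) : ft S a (x + 1) = ft S a x := by
  refine sum_congr rfl fun n _ => ?_
  rw [mul_add, mul_one, ← Int.cast_natCast (R := ℝ) n, MP_e86632_nt.ee_add_int]

/-- the averaged form of a function -/
theorem bm_av {E : Type} [NormedField E] [MeasurableSpace E] [BorelSpace E]
    [SecondCountableTopology E] {F : ℝ → E} (h : BM F) (p : ℕ) :
    BM fun β : ℝ => (∑ j ∈ range p, F ((β + j) / p)) / p := by
  simp only [div_eq_mul_inv _ (p : E)]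
  exact (BM.sum _ fun j _ => h.comp (by fun_prop)).mul (BM.const _)

/-- the number of preimages in `U` -/
noncomputable def NN (T : Finset ℕ) (U : Set ℝ) (β : ℝ) : ℝ :=
  ∑ p ∈ T, ∑ j ∈ range p, U.indicator (fun _ => (1 : ℝ)) ((β + j) / p)

theorem NN_eq (T : Finset ℕ) (U : Set ℝ) (β : ℝ) :
    NN T U β = ∑ p ∈ T, (((range p).filter fun j : ℕ => (β + j) / p ∈ U).card : ℝ) := by
  refine sum_congr rfl fun p _ => ?_
  rw [card_filter]
  push_cast
  exact sum_congr rfl fun j _ => by rw [Set.indicator_apply]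

theorem bm_NN (T : Finset ℕ) {U : Set ℝ} (hU : MeasurableSet U) : BM (NN T U) :=
  BM.sum _ fun p _ => BM.sum _ fun j _ => ((BM.const (1 : ℝ)).ind hU).comp (by fun_prop)

theorem NN_per {T : Finset ℕ} (hT : ∀ p ∈ T, 1 ≤ p) {U : Set ℝ} (hU : ∀ x, x + 1 ∈ U ↔ x ∈ U)
    (β : ℝ) : NN T U (β + 1) = NN T U β := by
  refine sum_congr rfl fun p hp => ?_
  have h0 : (p : ℝ) ≠ 0 := by have := hT p hp; positivity
  set g : ℕ → ℝ := fun j => U.indicator (fun _ => (1 : ℝ)) ((β + j) / p) with hg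
  have h1 := sum_range_succ g p
  have h2 := sum_range_succ' g p
  have h3 : g p = g 0 := by
    simp only [hg, Set.indicator_apply, Nat.cast_zero, add_zero]
    rw [add_div, div_self h0]
    simp only [hU]
  have h4 : ∀ j : ℕ, U.indicator (fun _ => (1 : ℝ)) ((β + 1 + j) / p) = g (j + 1) := fun j => by
    simp only [hg]; push_cast; congr 2; ring
  simp only [h4]
  linarith

theorem pw {T : Finset ℕ} {P : ℝ} (hP : 1 ≤ P) (hT : ∀ p ∈ T, P ≤ p) (U : Set ℝ) (ψ : ℝ → ℂ)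
    (β : ℝ) : ‖∑ p ∈ T, (∑ j ∈ range p, U.indicator ψ ((β + j) / p)) / p‖ ^ 2 ≤
      (∑ v ∈ T, (∑ j ∈ range v, ‖U.indicator ψ ((β + j) / v)‖ ^ 2) / v * NN T U β) * P⁻¹ := by
  have h1 : ‖∑ p ∈ T, (∑ j ∈ range p, U.indicator ψ ((β + j) / p)) / p‖ ≤
      ∑ x ∈ T.sigma (fun p => range p), ‖U.indicator ψ ((β + x.2) / x.1)‖ / x.1 := by
    rw [sum_sigma]
    refine (norm_sum_le _ _).trans (sum_le_sum fun p _ => ?_)
    dsimp only
    rw [norm_div, Complex.norm_natCast, ← sum_div]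
    exact div_le_div_of_nonneg_right (norm_sum_le _ _) (Nat.cast_nonneg _)
  have h2 := sum_sq_le_sum_mul_sum_of_sq_le_mul (T.sigma fun p => range p)
    (r := fun x => ‖U.indicator ψ ((β + x.2) / x.1)‖ / x.1)
    (f := fun x => ‖U.indicator ψ ((β + x.2) / x.1)‖ ^ 2 / x.1)
    (g := fun x => U.indicator (fun _ => (1 : ℝ)) ((β + x.2) / x.1) / x.1)
    (fun x _ => by positivity)
    (fun x _ => div_nonneg (Set.indicator_nonneg (fun _ _ => zero_le_one) _) (Nat.cast_nonneg _))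
    (fun x _ => le_of_eq <| by
      by_cases h : (β + x.2) / x.1 ∈ U
      · simp only [Set.indicator_of_mem h]; ring
      · simp [Set.indicator_of_notMem h])
  refine (pow_le_pow_left₀ (norm_nonneg _) h1 2).trans (h2.trans ?_)
  rw [← sum_mul, mul_assoc, sum_sigma, sum_sigma]
  simp only [← sum_div]
  refine mul_le_mul_of_nonneg_left ?_ (by positivity)
  rw [NN, sum_mul]
  refine sum_le_sum fun p hp => ?_
  rw [← div_eq_mul_inv]
  exact div_le_div_of_nonneg_left (sum_nonneg fun j _ =>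
    Set.indicator_nonneg (fun _ _ => zero_le_one) _) (by linarith) (hT p hp)

end BILx

open BILx in
theorem p_BIL (hCI1 : S_CI1) (hCHG : S_CHG) :
    S_BIL := by
  intro T S a ψ U P Nx B hP hT hψ hB hU hper hN hcnt
  have hT1 : ∀ p ∈ T, 1 ≤ p := fun p hp => by exact_mod_cast hP.trans (hT p hp)
  have bψ : BM ψ := ⟨hψ.measurable, B, hB⟩
  have bf : BM (U.indicator ψ) := bψ.ind hU
  have bA := bm_ft S a
  have bN := bm_NN T hU
  set Φ : ℝ → ℂ := fun β => ∑ p ∈ T, (∑ j ∈ range p, U.indicator ψ ((β + j) / p)) / p with hΦ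
  have bΦ : BM Φ := BM.sum _ fun p _ => bm_av bf p
  have e1 : ∫ α in (0 : ℝ)..1, U.indicator ψ α * ∑ p ∈ T, ft S a (p * α) =
      ∫ β in (0 : ℝ)..1, Φ β * ft S a β := by
    simp only [hΦ, mul_sum, sum_mul]
    rw [intervalIntegral.integral_finsetSum fun p _ => (bf.mul (bA.comp (by fun_prop))).ii,
      intervalIntegral.integral_finsetSum fun p _ => ((bm_av bf p).mul bA).ii]
    exact sum_congr rfl fun p hp => chg hCHG (hT1 p hp) bf bA (ft_per S a)
  have e2 : ‖∫ β in (0 : ℝ)..1, Φ β * ft S a β‖ ≤ ∫ β in (0 : ℝ)..1, ‖ft S a β‖ * ‖Φ β‖ := by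
    refine (intervalIntegral.norm_integral_le_integral_norm zero_le_one).trans_eq ?_
    simp only [norm_mul, mul_comm]
  have e3 := cs bA.norm bΦ.norm
  have e4 := (hCI1 S S S a a id 0).1
  rw [zero_add] at e4
  have e5 : ∫ β in (0 : ℝ)..1, ‖Φ β‖ ^ 2 ≤ ∫ β in (0 : ℝ)..1,
      (∑ v ∈ T, (∑ j ∈ range v, ‖U.indicator ψ ((β + j) / v)‖ ^ 2) / v * NN T U β) * P⁻¹ :=
    intervalIntegral.integral_mono_on zero_le_one bΦ.norm.sq.ii
      ((BM.sum _ fun v _ => (bm_av bf.norm.sq v).mul bN).mul (BM.const _)).ii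
      fun β _ => pw hP hT U ψ β
  have e6 : ∫ β in (0 : ℝ)..1,
      ∑ v ∈ T, (∑ j ∈ range v, ‖U.indicator ψ ((β + j) / v)‖ ^ 2) / v * NN T U β =
      ∫ α in (0 : ℝ)..1, ‖U.indicator ψ α‖ ^ 2 * ∑ v ∈ T, NN T U (v * α) := by
    simp only [mul_sum]
    rw [intervalIntegral.integral_finsetSum fun v _ => ((bm_av bf.norm.sq v).mul bN).ii,
      intervalIntegral.integral_finsetSum fun v _ => (bf.norm.sq.mul (bN.comp (by fun_prop))).ii]
    exact sum_congr rfl fun p hp => (chgR hCHG (hT1 p hp) bf.norm.sq bN (NN_per hT1 hper)).symm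
  have e7 : ∫ α in (0 : ℝ)..1, ‖U.indicator ψ α‖ ^ 2 * ∑ v ∈ T, NN T U (v * α) ≤
      ∫ α in (0 : ℝ)..1, ‖ψ α‖ ^ 2 * Nx := by
    refine intervalIntegral.integral_mono_on zero_le_one
      (bf.norm.sq.mul (BM.sum _ fun v _ => bN.comp (by fun_prop))).ii
      (bψ.norm.sq.mul (BM.const _)).ii fun α _ => ?_
    by_cases h : α ∈ U
    · rw [Set.indicator_of_mem h]
      refine mul_le_mul_of_nonneg_left ?_ (sq_nonneg _)
      simp only [NN_eq]
      exact hcnt α h
    · rw [Set.indicator_of_notMem h, norm_zero, zero_pow two_ne_zero, zero_mul]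
      positivity
  rw [intervalIntegral.integral_mul_const] at e5 e7
  rw [e6] at e5
  rw [e1]
  refine (pow_le_pow_left₀ (norm_nonneg _) e2 2).trans (e3.trans ?_)
  rw [e4, mul_assoc]
  refine mul_le_mul_of_nonneg_left (e5.trans ?_) (sum_nonneg fun _ _ => sq_nonneg _)
  refine (mul_le_mul_of_nonneg_right e7 (by positivity)).trans_eq ?_
  ring

end Pool.Agent.P.MP_42fc1a_nt.EK
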