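import Pool.Agent.P.MP_42fc1a_nt.EK.IfaceA

/-! Step BLK. -/

namespace Pool.Agent.P.MP_42fc1a_nt.EK

open Finset Real Filter Topology MeasureTheory
open Pool.Agent.P.MP_e86632_nt (ee nn ee_add norm_ee ee_neg ee_zero)
open Pool.Agent.P.MP_8be758_nt.Avg (gs red ft nsq gs_pos gs_le_one gs_neg gs_anti)
open Pool.Agent.P.MP_e94e4b_nt.PF (sgm)
open Pool.Agent.P.E2
open ArithmeticFunction (vonMangoldt moebius)
open DirichletCharacter (LFunction)
open scoped Classical

namespace BLKx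

theorem split (f : ℕ → ℂ) (b T : ℕ) :
    ∑ s ∈ Icc 1 (b * T), f s = ∑ k ∈ range T, ∑ s ∈ Bl b k, f s := by
  have h0 : ∀ n : ℕ, Icc 1 n = Ioc 0 n := fun n => by
    ext x; simp only [mem_Icc, mem_Ioc]; omega
  rw [h0]
  induction T with
  | zero => simp
  | succ T ih =>
    rw [sum_range_succ, ← ih, Bl, mul_comm T b, mul_comm (T + 1) b]
    exact (sum_Ioc_consecutive f (Nat.zero_le _) (Nat.mul_le_mul_left b (Nat.le_succ T))).symm

theorem blk_le {M b k : ℕ} {ω : ℕ → ℂ} (h : Uni ω) (z : ℝ) : ‖Gw M ω (Bl b k) z‖ ≤ b := by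
  unfold Gw
  refine (norm_sum_le _ _).trans ?_
  have : ∑ s ∈ Bl b k, ‖ω s * ee (2 ^ (M * s) * z)‖ ≤ ∑ _s ∈ Bl b k, (1 : ℝ) :=
    sum_le_sum fun s _ => by rw [norm_mul, norm_ee, mul_one]; exact h s
  refine this.trans ?_
  rw [sum_const, nsmul_eq_mul, mul_one, Bl, Nat.card_Ioc]
  have : (k + 1) * b - k * b = b := by rw [add_mul, one_mul]; omega
  rw [this]

end BLKx

theorem p_BLK :
    S_BLK := by
  intro M b T ω z μ hω hb hμ h
  have hb' : (0 : ℝ) < b := by exact_mod_cast hb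
  have h1 : ‖Gw M ω (Icc 1 (b * T)) z‖ ≤ ∑ k ∈ range T, ‖Gw M ω (Bl b k) z‖ := by
    have := BLKx.split (fun s => ω s * ee (2 ^ (M * s) * z)) b T
    unfold Gw
    rw [this]
    exact norm_sum_le _ _
  have h2 : ∑ k ∈ range T, ‖Gw M ω (Bl b k) z‖ ≤
      ∑ k ∈ range T, ((if μ * b ≤ ‖Gw M ω (Bl b k) z‖ then (b : ℝ) else 0) + μ * b) := by
    refine sum_le_sum fun k _ => ?_
    split_ifs with hk
    · have := BLKx.blk_le (M := M) (b := b) (k := k) hω z
      have : 0 ≤ μ * b := by positivity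
      linarith
    · linarith [not_le.mp hk]
  rw [sum_add_distrib, ← sum_filter, sum_const, sum_const, nsmul_eq_mul, nsmul_eq_mul,
    card_range] at h2
  push_cast at h
  have h3 : μ * T * b ≤
      (((range T).filter fun k => μ * b ≤ ‖Gw M ω (Bl b k) z‖).card : ℝ) * b := by
    nlinarith
  exact le_of_mul_le_mul_right h3 hb'

end Pool.Agent.P.MP_42fc1a_nt.EK
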