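import Pool.Agent.P.MP_42fc1a_nt.EK.IfaceA

/-! Statements, part B: weights, the local part, the pair sieve, the bilinear part. -/

namespace Pool.Agent.P.MP_42fc1a_nt.EK

open Finset Real Filter Topology MeasureTheory
open Pool.Agent.P.MP_e86632_nt (ee nn)
open Pool.Agent.P.MP_8be758_nt.Avg (gs red ft nsq)
open Pool.Agent.P.MP_e94e4b_nt.PF (sgm)
open Pool.Agent.P.E2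
open ArithmeticFunction (vonMangoldt moebius)
open DirichletCharacter (LFunction)
open scoped Classical

/-! ### Facts proved elsewhere: `S_RNG S_PH S_RHO S_WIN1 S_CI1 S_GAL S_PL S_RS S_CMP S_MS S_UM S_PU
S_DPA S_PW S_TAIL S_P0 S_LAN S_BC S_LB S_LD S_ZL1 S_ZL2 S_T341 S_HF S_MEL S_CSN S_AP1 S_AP2` are the
statements of `Pool.Agent.P.E2`. -/

abbrev S_SV : Prop := Pool.Agent.P.MP_e94e4b_nt.PF.S_SV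

def S_MER : Prop := ∀ (t : ℝ) (T : Finset ℕ), 1 ≤ t →
  (∀ l ∈ T, l.Prime ∧ (l : ℝ) ≤ Real.exp t) → Real.exp (∑ l ∈ T, 1 / (l : ℝ)) ≤ 300 * t

def S_ODS : Prop := ∀ (d : ℕ) (T : Finset ℕ),
  (∀ l ∈ T, l.Prime ∧ l ≠ 2 ∧ orderOf (2 : ZMod l) = d) →
  T.card ≤ d ∧ ∑ l ∈ T, 1 / (l : ℝ) ≤ (2 + Real.log d) / d

def S_LOC : Prop := ∃ k : ℕ, ∀ q : ℕ, ∀ r : ℤ, ∃ pows : Multiset ℕ, pows.card ≤ k ∧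
  ∀ p : ℕ, p.Prime → p ∣ q → q ≠ 0 → (((pows.map (2 ^ ·)).sum : ℕ) : ZMod p) ≠ r

/-! ### The weights -/

-- deps: RNG PH RHO
def S_BW : Prop := ∀ᶠ r : ℝ in atTop, ∀ (P : ℝ) (T : Finset ℕ), Pr r P T →
  rh T ≤ 2 ∧ (∀ m, 0 ≤ bw r P T m ∧ bw r P T m ≤ 2 * r ^ 13) ∧
  (∀ m, bw r P T m ≠ 0 → ∃ p ∈ T, ∃ n ∈ RN r P, n.Prime ∧ m = p * n) ∧
  (∀ F : ℕ → ℂ, ∑ m ∈ II r, (bw r P T m : ℂ) * F m =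
    ∑ p ∈ T, ∑ n ∈ RN r P, ((th n * ph r P n : ℝ) : ℂ) * F (p * n)) ∧
  ∑ m ∈ II r, bw r P T m ≤ 200 * rh T * XX r

-- deps:
def S_LIP : Prop := ∀ w α β x y : ℝ, 0 < w → α ≤ β →
  |win w α β x - win w α β y| ≤ 2 * |x - y| / w

-- deps: RNG WIN1 LIP BW
def S_OM : Prop := ∀ᶠ r : ℝ in atTop, ∀ (P : ℝ) (T : Finset ℕ), Pr r P T →
  (∀ v, 0 ≤ om r P T v ∧ om r P T v ≤ rh T) ∧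
  (∀ v v', |om r P T v - om r P T v'| ≤ 4 * r ^ 13 * |v - v'|) ∧
  (∀ v, |v - r ^ 13| ≤ 1 → rh T * (1 - 2 * Real.exp (-r ^ 26)) ≤ om r P T v) ∧
  ∀ v, v ≤ r ^ 13 - 16 / 5 ∨ r ^ 13 + 19 / 5 ≤ v → om r P T v ≤ 4 * Real.exp (-r ^ 20)

-- deps: BW OM
def S_TV : Prop := ∀ᶠ r : ℝ in atTop, ∀ (P : ℝ) (T : Finset ℕ) (θ : ℝ), Pr r P T → 0 < nn θ →
  ‖∑ m ∈ II r, (om r P T (Real.log m) : ℂ) * ee (m * θ)‖ ≤ 100 * r ^ 13 / nn θ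

-- deps:
def S_FW : Prop := ∀ W : ℕ, 1 ≤ W → ∃ c : ℕ → ℂ, (∀ a, ‖c a‖ ≤ W) ∧
  ∀ m : ℕ, (Lm W m : ℂ) = ∑ a ∈ range W, c a * ee (m * ((a : ℝ) / W))

-- deps:
def S_CQ : Prop := (∀ q q' m : ℕ, 1 ≤ q → 1 ≤ q' → q.Coprime q' → cq (q * q') m = cq q m * cq q' m) ∧
  (∀ l m : ℕ, l.Prime → cq l m = if l ∣ m then (l : ℂ) - 1 else -1) ∧ (∀ m, cq 1 m = 1) ∧
  ∀ q m : ℕ, 1 ≤ q → |mf q| ≤ 1 ∧ ‖(mf q : ℂ) * cq q m‖ ≤ 1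

-- deps: CQ
def S_RAM : Prop := ∀ W q i m : ℕ, 1 ≤ W → 2 ∣ W → 1 ≤ q →
  (Lm (W * q * 2 ^ i) m : ℂ) =
    Lm W m * ∑ d ∈ q.divisors.filter (fun d => d.Coprime W), (mf d : ℂ) * cq d m

-- deps: TV FW CQ
def S_TL : Prop := ∀ᶠ r : ℝ in atTop, ∀ (P : ℝ) (T D : Finset ℕ) (W Q0 : ℕ) (α δ : ℝ), Pr r P T →
  1 ≤ W → D ⊆ QS W Q0 → 0 < δ →
  (∀ d ∈ D, ∀ a < W, ∀ a' ∈ red d, δ ≤ nn (α + ((a : ℝ) / W + (a' : ℝ) / d))) →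
  ‖ft (II r) (bd r P T W D) α‖ ≤ (W : ℝ) ^ 2 * (Q0 : ℝ) ^ 2 * (100 * r ^ 13 / δ)

-- deps: TL
def S_E4 : Prop := ∀ A : ℕ, ∀ᶠ r : ℝ in atTop, ∀ (P : ℝ) (T : Finset ℕ) (W Q0 w : ℕ) (α : ℝ),
  Pr r P T → P ≤ r ^ A → 1 ≤ W → (W : ℝ) * Q0 ≤ P → α ∉ Str W Q0 w P →
  ‖ft (II r) (bd r P T W (QS W Q0)) α‖ ≤ Real.exp r

/-! ### The singular series -/

-- deps:
def S_EUL : Prop := ∀ (T D : Finset ℕ) (f : ℕ → ℝ), (∀ l, 0 ≤ f l) →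
  (∀ q ∈ D, Squarefree q ∧ q.primeFactors ⊆ T) →
  ∑ q ∈ D, ∏ l ∈ q.primeFactors, f l ≤ Real.exp (∑ l ∈ T, f l) ∧
    (1 ∉ D → ∑ q ∈ D, ∏ l ∈ q.primeFactors, f l ≤ Real.exp (∑ l ∈ T, f l) - 1)

-- deps: MER
def S_PRS : Prop := ∃ C : ℝ, ∀ (n : ℝ) (T : Finset ℕ), 3 ≤ n → (∀ l ∈ T, l.Prime) →
  (T.card : ℝ) ≤ n → ∑ l ∈ T, 1 / (l : ℝ) ≤ Real.log (Real.log n) + C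

-- deps:
def S_SMO : Prop := ∃ C : ℝ, 0 < C ∧ ∀ (x : ℕ) (Z : ℝ) (D : Finset ℕ), 1 ≤ Z →
  (∀ d ∈ D, Z ≤ d ∧ ∀ l : ℕ, l.Prime → l ∣ d → l ≤ x) →
  ∑ d ∈ D, (2 + Real.log d) / d ≤ C * Real.exp (8 * √(x : ℝ)) / Z ^ (1 / 4 : ℝ)

-- deps: ODS PRS SMO
def S_TAU1 : Prop := ∃ C : ℝ, ∀ (x : ℕ) (T : Finset ℕ), 1 ≤ x →
  (∀ l ∈ T, l.Prime ∧ l ≠ 2 ∧ ∀ l' : ℕ, l'.Prime → l' ∣ orderOf (2 : ZMod l) → l' ≤ x) →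
  ∑ l ∈ T, 1 / (l : ℝ) ≤ C + 2 / 3 * Real.log x

-- deps: ODS SMO
def S_TAU2 : Prop := ∀ (Y : ℕ) (ε : ℝ), 2 ≤ Y → 0 < ε → ∃ M : ℕ, 2 ≤ M ∧
  (∀ l' : ℕ, l'.Prime → l' ∣ M → l' ≤ Y) ∧ ∀ T : Finset ℕ,
    (∀ l ∈ T, l.Prime ∧ l ≠ 2 ∧ ¬ orderOf (2 : ZMod l) ∣ M ∧
      ∀ l' : ℕ, l'.Prime → l' ∣ orderOf (2 : ZMod l) → l' ≤ Y) →
    ∑ l ∈ T, 1 / (l : ℝ) ≤ ε

-- deps: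
def S_DYS : Prop := ∀ (D : Finset ℕ) (f : ℕ → ℝ) (o : ℕ → ℕ) (E : ℕ → ℝ) (s : ℝ),
  (∀ q ∈ D, 0 ≤ f q ∧ 1 ≤ o q) →
  (∀ t : ℕ, ∑ q ∈ D.filter (fun q => o q < 2 ^ (t + 1)), f q ≤ E t) →
  (∀ n : ℕ, ∑ t ∈ range n, E t / 2 ^ t ≤ s) → ∑ q ∈ D, f q / o q ≤ s

-- deps: EUL TAU1 TAU2 DYS
def S_TAU : Prop := ∀ η : ℝ, 0 < η → ∃ M : ℕ, 2 ≤ M ∧ Tau M η

-- deps: EUL MER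
def S_MSUM : Prop := ∃ C : ℝ, 0 < C ∧ ∀ (t : ℝ) (D : Finset ℕ), 1 ≤ t →
  (∀ q ∈ D, 1 ≤ q ∧ (q : ℝ) ≤ Real.exp t) → ∑ q ∈ D, mf q ^ 2 * q ≤ C * t

-- deps:
def S_ORD : Prop := ∀ (M q J : ℕ) (c : ZMod q), 1 ≤ q → q.Coprime 2 → 1 ≤ oo M q ∧
  (((Icc 1 J).filter fun a => (2 : ZMod q) ^ (M * a) = c).card : ℝ) ≤ J / oo M q + 1

-- deps: ORD
def S_GQ : Prop := ∀ M q J : ℕ, 1 ≤ q → q.Coprime 2 → 1 ≤ J →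
  ∑ a ∈ range q, ‖Gn M J ((a : ℝ) / q)‖ ^ 2 ≤ q * (1 / oo M q + 1 / J)

-- deps:
def S_OFF : Prop := ∀ (W Q0 n0 x Y : ℕ) (D : Finset ℕ) (c : ℕ → ℕ → ℂ), 1 ≤ W → D ⊆ QS W Q0 →
  ∑ n ∈ (Ioc x (x + Y)).filter (fun n => n ≡ n0 [MOD W]),
      ‖∑ q ∈ D, ∑ a ∈ red q, c q a * ee (n * ((a : ℝ) / q))‖ ^ 2 ≤
    ((Y : ℝ) / W + 1) * ∑ q ∈ D, ∑ a ∈ red q, ‖c q a‖ ^ 2 +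
      (Q0 : ℝ) ^ 2 * (∑ q ∈ D, ∑ a ∈ red q, ‖c q a‖) ^ 2

-- deps: CQ MSUM GQ OFF
def S_TT : Prop := ∀ (M σ : ℕ) (η : ℝ), 2 ≤ M → 0 < η → Tau M η → ∀ᶠ r : ℝ in atTop,
  ∀ (Q0 J n0 : ℕ) (A : Finset ℕ), (Q0 : ℝ) ≤ Real.exp r → 1 ≤ J → J ≤ LL r M →
    (∀ n ∈ A, XX r < n ∧ (n : ℝ) ≤ 2 * XX r ∧ n ≡ n0 [MOD WW M]) →
    ‖av M (LL r M) J σ A fun m => ∑ d ∈ (QS (WW M) Q0).erase 1, (mf d : ℂ) * cq d m‖ ^ 2 ≤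
      3 * η * A.card * XX r / WW M

-- deps: CQ BW OM TT
def S_E5 : Prop := ∀ (M σ : ℕ) (η : ℝ), 2 ≤ M → 0 < η → Tau M η → ∀ᶠ r : ℝ in atTop,
  ∀ (P : ℝ) (T : Finset ℕ) (Q0 J n0 : ℕ) (A : Finset ℕ), Pr r P T → 1 ≤ Q0 →
    (Q0 : ℝ) ≤ Real.exp r → 1 ≤ J → J ≤ LL r M →
    IsCoprime ((n0 : ℤ) - σ - 3 * 2 ^ M) (WW M) →
    (∀ n ∈ A, XX r < n ∧ (n : ℝ) ≤ 2 * XX r ∧ n ≡ n0 [MOD WW M]) →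
    0 ≤ 9 / 10 * A.card - √(3 * η * A.card * XX r / WW M) →
    rh T * (9 / 10 * A.card - √(3 * η * A.card * XX r / WW M)) ≤
      (av M (LL r M) J σ A (bd r P T (WW M) (QS (WW M) Q0))).re

-- deps:
def S_REP : Prop := ∀ (M L J σ : ℕ) (A I : Finset ℕ) (f : ℕ → ℂ),
  (∀ n ∈ A, ∀ a ∈ Icc 1 L, ∀ a' ∈ Icc 1 L, ∀ s ∈ Icc 1 J,
    σ + 2 ^ (M * a) + 2 ^ (M * a') + 2 ^ (M * s) ≤ n ∧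
      n - (σ + 2 ^ (M * a) + 2 ^ (M * a') + 2 ^ (M * s)) ∈ I) →
  ∫ α in (0 : ℝ)..1, ps M L J σ A α * ft I f α = av M L J σ A f

-- deps:
def S_SHF : Prop := ∀ (M σ : ℕ), 2 ≤ M → ∀ᶠ r : ℝ in atTop, r ^ 13 / (4 * M) ≤ LL r M ∧
  ∀ n a a' s : ℕ, XX r < n → (n : ℝ) ≤ 2 * XX r → a ≤ LL r M → a' ≤ LL r M → s ≤ LL r M →
    ((2 ^ (M * a) : ℕ) : ℝ) ≤ √(XX r) ∧
    σ + 2 ^ (M * a) + 2 ^ (M * a') + 2 ^ (M * s) ≤ n ∧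
    n - (σ + 2 ^ (M * a) + 2 ^ (M * a') + 2 ^ (M * s)) ∈ II r ∧
    |Real.log (n - (σ + 2 ^ (M * a) + 2 ^ (M * a') + 2 ^ (M * s)) : ℕ) - r ^ 13| ≤ 1

-- redeps TT: CQ MSUM GQ OFF SHF
-- redeps E5: CQ BW OM TT SHF

/-! ### The pair sieve -/

-- deps: SV
def S_SV3 : Prop := ∃ C : ℝ, 0 < C ∧ ∀ᶠ H : ℝ in atTop, ∀ (p p' : ℕ) (h : ℤ) (S : Finset (ℕ × ℕ)),
  p.Prime → p'.Prime → p ≠ p' → 5 ≤ p → 5 ≤ p' → h ≠ 0 →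
  (∀ x ∈ S, x.1.Prime ∧ x.2.Prime ∧ H ^ (1 / 10 : ℝ) < x.1 ∧ H ^ (1 / 10 : ℝ) < x.2 ∧
    p' < x.1 ∧ p < x.2 ∧ (x.1 : ℝ) ≤ p' * H ∧ (p' * x.2 : ℤ) - p * x.1 = h) →
  (S.card : ℝ) ≤ C * sgm h.natAbs * H / Real.log H ^ 2

-- deps: RNG PH BW SV3
def S_COR : Prop := ∃ C : ℝ, 0 < C ∧ ∀ᶠ r : ℝ in atTop, ∀ (P : ℝ) (T : Finset ℕ), Pr r P T →
  cor r P T 0 ≤ C * r ^ 13 * rh T * XX r ∧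
  ∀ h : ℤ, h ≠ 0 → ((|h| : ℤ) : ℝ) ≤ XX r → cor r P T h ≤ C * rh T ^ 2 * XX r * sgm h.natAbs

-- deps: ODS EUL PRS DYS
def S_ROM0 : Prop := ∃ C : ℝ, ∀ D : Finset ℕ, (∀ d ∈ D, Squarefree d ∧ d.Coprime 6) →
  ∑ d ∈ D, (∏ l ∈ d.primeFactors, 2 / ((l : ℝ) - 2)) / oo 1 d ≤ C

-- deps:
def S_SGM : Prop := ∀ (h Z : ℕ), 5 ≤ Z → h ≠ 0 → h ≤ 2 ^ Z →
  sgm h ≤ 100 * ∑ t ∈ ((range (Z + 1)).filter fun l => l.Prime ∧ 5 ≤ l).powerset,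
    if (∏ l ∈ t, l) ∣ h then ∏ l ∈ t, 2 / ((l : ℝ) - 2) else 0

-- deps:
def S_H40 : Prop := ∀ M L : ℕ, 2 ≤ M →
  ∑ a ∈ Icc 1 L, ∑ b ∈ Icc 1 L, ∑ c ∈ Icc 1 L, ∑ d ∈ Icc 1 L,
    (if h4 M a b c d = 0 then (1 : ℝ) else 0) ≤ 2 * (L : ℝ) ^ 2

-- deps: MER ORD ROM0 SGM
def S_ROM : Prop := ∀ M : ℕ, 2 ≤ M → ∃ C : ℝ, 0 < C ∧ ∀ᶠ L : ℕ in atTop,
  ∑ a ∈ Icc 1 L, ∑ b ∈ Icc 1 L, ∑ c ∈ Icc 1 L, ∑ d ∈ Icc 1 L,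
    (if h4 M a b c d = 0 then 0 else sgm (h4 M a b c d).natAbs) ≤ C * (L : ℝ) ^ 4

-- deps:
def S_E1A : Prop := ∀ (r P : ℝ) (T : Finset ℕ) (M L : ℕ),
  ∫ α in (0 : ℝ)..1, ‖ft (II r) (fun m => (bw r P T m : ℂ)) α‖ ^ 2 * ‖Gn M L α‖ ^ 4 =
    (∑ a ∈ Icc 1 L, ∑ b ∈ Icc 1 L, ∑ c ∈ Icc 1 L, ∑ d ∈ Icc 1 L, cor r P T (h4 M a b c d)) /
      (L : ℝ) ^ 4

-- deps: SHF COR H40 ROM E1A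
def S_E1 : Prop := ∀ M : ℕ, 2 ≤ M → ∃ C : ℝ, 0 < C ∧ ∀ᶠ r : ℝ in atTop,
  ∀ (P : ℝ) (T : Finset ℕ), Pr r P T →
    ∫ α in (0 : ℝ)..1, ‖ft (II r) (fun m => (bw r P T m : ℂ)) α‖ ^ 2 * ‖Gn M (LL r M) α‖ ^ 4 ≤
      C * rh T ^ 2 * XX r

/-! ### The bilinear part -/

-- deps:
def S_CHG : Prop := ∀ (p : ℕ) (F H : ℝ → ℂ) (B : ℝ), 1 ≤ p → Measurable F → Measurable H →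
  (∀ x, ‖F x‖ ≤ B ∧ ‖H x‖ ≤ B) → (∀ x, H (x + 1) = H x) →
  ∫ α in (0 : ℝ)..1, F α * H (p * α) =
    ∫ β in (0 : ℝ)..1, (∑ j ∈ range p, F ((β + j) / p)) / p * H β

-- deps: CI1 CHG
def S_BIL : Prop := ∀ (T S : Finset ℕ) (a : ℕ → ℂ) (ψ : ℝ → ℂ) (U : Set ℝ) (P Nx B : ℝ), 1 ≤ P →
  (∀ p ∈ T, P ≤ p) → Continuous ψ → (∀ x, ‖ψ x‖ ≤ B) → MeasurableSet U →
  (∀ x, x + 1 ∈ U ↔ x ∈ U) → 0 ≤ Nx →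
  (∀ α ∈ U, ∑ v ∈ T, ∑ p ∈ T,
    (((range p).filter fun j : ℕ => (v * α + j) / p ∈ U).card : ℝ) ≤ Nx) →
  ‖∫ α in (0 : ℝ)..1, U.indicator ψ α * ∑ p ∈ T, ft S a (p * α)‖ ^ 2 ≤
    nsq S a * (Nx / P) * ∫ α in (0 : ℝ)..1, ‖ψ α‖ ^ 2

end Pool.Agent.P.MP_42fc1a_nt.EK
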