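import Pool.Agent.P.MP_42fc1a_nt.EK.IfaceD
import Pool.Agent.P.MP_42fc1a_nt.EK.IfaceB

/-! Step C1U. -/

namespace Pool.Agent.P.MP_42fc1a_nt.EK

open Finset Real Filter Topology MeasureTheory
open Pool.Agent.P.MP_e86632_nt (ee nn ee_add norm_ee ee_neg ee_zero)
open Pool.Agent.P.MP_8be758_nt.Avg (gs red ft nsq gs_pos gs_le_one gs_neg gs_anti)
open Pool.Agent.P.MP_e94e4b_nt.PF (sgm)
open Pool.Agent.P.E2
open ArithmeticFunction (vonMangoldt moebius)
open DirichletCharacter (LFunction)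
open scoped Classical

namespace C1Ux

theorem three {x y z t : ℝ} (hx : 5 + x ≤ t) (hy : y ≤ t) (hz : z ≤ t) :
    30 * Real.exp x + (Real.exp y / 3 + Real.exp z / 3) ≤ Real.exp t := by
  have h1 := Real.exp_le_exp.2 hx
  have h2 := Real.exp_le_exp.2 hy
  have h3 := Real.exp_le_exp.2 hz
  have h4 : (90 : ℝ) ≤ Real.exp 5 := by
    have := Real.exp_one_gt_d9
    rw [show (5 : ℝ) = (5 : ℕ) * 1 by norm_num, Real.exp_nat_mul]
    exact le_trans (by norm_num) (pow_le_pow_left₀ (by norm_num : (0 : ℝ) ≤ 2.5) (by linarith) 5)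
  rw [Real.exp_add] at h1
  nlinarith [Real.exp_pos x]

end C1Ux

theorem p_C1U (hTAIL : S_TAIL) (hRNG : S_RNG) (hPH : S_PH) (hPW : S_PW) (hMS : S_MS) (hLIP : S_LIP) (hWIN1 : S_WIN1) :
    S_C1U := by
  filter_upwards [hPH, hMS, ev_pe 1 7 (c := 7) (by norm_num), ev_pe1 12 13, ev_pe1 48 33,
    ev_pp 3 (c := 1 / 2) (j := 13) (k := 14) (by norm_num) (by norm_num),
    ev_lin 8 23 (c := 1 / 2) (k := 14) (by norm_num) (by norm_num),
    ev_lin 19 7 (c := 1 / 2) (k := 13) (by norm_num) (by norm_num),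
    ev_lin 7 0 (c := 1) (k := 26) one_pos (by norm_num), eventually_ge_atTop 1]
    with r ph0 ms e1 e2 e3 e4 e5 e6 e7 r1 P v F p1 p2 hv hF
  have ph0 := ph0 P p1 p2
  have w0 := Th_pos r
  have iw : 1 / Th r = Real.exp (7 * r) := by rw [Th, Real.exp_neg, one_div, inv_inv]
  have lP := Real.log_nonneg p1
  have lP' := (Real.log_le_iff_le_exp (by linarith)).2 p2
  obtain ⟨v1, v2⟩ := abs_le.1 hv
  have A0 : 0 ≤ r ^ 7 * Th r := by positivity
  have A1 : r ^ 7 * Th r ≤ 1 := by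
    rw [← iw, one_mul, le_div_iff₀ w0] at e1; exact e1
  obtain ⟨s1, s2, -⟩ := hTAIL (fun n => vonMangoldt n) (Th r) v (r ^ 7 * Th r) w0
    (Real.exp_le_one_iff.2 (by linarith)) A0
    fun n => ⟨ArithmeticFunction.vonMangoldt_nonneg, lam_le n⟩
  have m2 := (ms (Th r) v (Real.exp_le_exp.2 (by linarith)) (Real.exp_le_exp.2 (by linarith))
    (by linarith) (by linarith)).2 (Icc 1 ⌊Real.exp (v + 1)⌋₊) fun n hn => (mem_Icc.1 hn).1
  have g0 := fun n : ℕ => gk_nonneg w0 (Real.log n - v)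
  have l0 : ∀ n : ℕ, 0 ≤ vonMangoldt n * gk (Th r) (Real.log n - v) := fun n =>
    mul_nonneg ArithmeticFunction.vonMangoldt_nonneg (g0 n)
  have nm : ∀ (n : ℕ) (x : ℝ), ‖F n * x * (gk (Th r) (Real.log n - v) : ℂ)‖ ≤
      |x| * gk (Th r) (Real.log n - v) := fun n x => by
    rw [mul_assoc, norm_mul, ← Complex.ofReal_mul, Complex.norm_real, Real.norm_eq_abs, abs_mul,
      abs_of_nonneg (g0 n)]
    exact mul_le_of_le_one_left (mul_nonneg (abs_nonneg _) (g0 n)) (hF n)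
  have s3 := Summable.of_norm_bounded s1 fun n => (nm n (vonMangoldt n)).trans
    (by rw [abs_of_nonneg ArithmeticFunction.vonMangoldt_nonneg])
  have s4 : Summable fun n : ℕ => if r ^ 7 * Th r ≤ |Real.log n - v| then
      vonMangoldt n * gk (Th r) (Real.log n - v) else 0 :=
    s1.of_nonneg_of_le (fun n => by split_ifs; exacts [l0 n, le_rfl]) fun n => by
      split_ifs; exacts [le_rfl, l0 n]
  have r0 : 0 < r := by linarith
  obtain ⟨u0, u1, -⟩ := hWIN1 (1 / r ^ 13) (r ^ 13 - Real.log P - 3) (r ^ 13 - Real.log P + 3) v 0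
    (by positivity) (by linarith) le_rfl
  change 0 ≤ wn r P v at u0
  change wn r P v ≤ 1 at u1
  set δ := 2 * (r ^ 7 * Th r) * r ^ 13 + 2 * Real.exp (-r ^ 26) with hδ
  have d0 : 0 ≤ δ := by positivity
  refine (HasSum.norm_le_of_bounded
    ((hasSum_subtype_iff_indicator.1 ((RN r P).hasSum _)).sub (s3.hasSum.mul_left _))
    (s4.hasSum.add (hasSum_subtype_iff_indicator.1 ((Icc 1 ⌊Real.exp (v + 1)⌋₊).hasSum fun n =>
      δ * (2 * r ^ 13) * gk (Th r) (Real.log n - v) + (vonMangoldt n - th n) * (1 / Th r))))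
    fun n => ?_).trans ?_
  · obtain ⟨t0, t1⟩ := hPW.1 n
    obtain ⟨q0, q1, q2, -⟩ := ph0 n
    obtain ⟨a, a0, a1, a2, a3⟩ : ∃ a : ℝ, 0 ≤ a ∧ a ≤ 1 ∧
        (1 ≤ n → |a - ph r P n| ≤ 2 * Real.exp (-r ^ 26)) ∧
        (RN r P : Set ℕ).indicator (fun n => ((th n * ph r P n : ℝ) : ℂ) * F n *
          (gk (Th r) (Real.log n - v) : ℂ)) n =
          ((th n * a : ℝ) : ℂ) * F n * (gk (Th r) (Real.log n - v) : ℂ) := by
      by_cases hn : n ∈ RN r P
      · exact ⟨_, q0, q1, fun _ => by simp; positivity, Set.indicator_of_mem (mem_coe.2 hn) _⟩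
      · exact ⟨0, le_rfl, zero_le_one, fun h => by
          rw [zero_sub, abs_neg, abs_of_nonneg q0]; exact q2 h hn, by
          rw [Set.indicator_of_notMem (mem_coe.not.2 hn)]; simp⟩
    have e : ((th n * a : ℝ) : ℂ) * F n * (gk (Th r) (Real.log n - v) : ℂ) -
        (wn r P v : ℂ) * (F n * vonMangoldt n * (gk (Th r) (Real.log n - v) : ℂ)) =
        F n * (th n * a - wn r P v * vonMangoldt n : ℝ) * (gk (Th r) (Real.log n - v) : ℂ) := by
      push_cast; ring
    rw [a3, e]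
    refine (nm n _).trans ?_
    have i0 := Set.indicator_nonneg (s := ((Icc 1 ⌊Real.exp (v + 1)⌋₊ : Finset ℕ) : Set ℕ))
      (f := fun n : ℕ =>
      δ * (2 * r ^ 13) * gk (Th r) (Real.log n - v) + (vonMangoldt n - th n) * (1 / Th r))
      (fun n _ => add_nonneg (mul_nonneg (by positivity) (g0 n))
        (mul_nonneg (sub_nonneg.2 (hPW.1 n).2) (by positivity))) n
    split_ifs with h
    · refine le_add_of_le_of_nonneg (mul_le_mul_of_nonneg_right (abs_le.2 ⟨?_, ?_⟩) (g0 n)) i0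
      · nlinarith [mul_nonneg t0 a0]
      · nlinarith [mul_nonneg u0 (t0.trans t1)]
    rcases n.eq_zero_or_pos with rfl | h0
    · simpa [th] using i0
    have h := not_le.1 h
    obtain ⟨h1, h2⟩ := abs_lt.1 h
    have hn : n ∈ Icc 1 ⌊Real.exp (v + 1)⌋₊ := mem_Icc.2 ⟨h0, Nat.le_floor
      ((Real.log_le_iff_le_exp (by exact_mod_cast h0)).1 (by linarith))⟩
    rw [Set.indicator_of_mem (mem_coe.2 hn), zero_add]
    have b1 := hLIP (1 / r ^ 13) (r ^ 13 - Real.log P - 3) (r ^ 13 - Real.log P + 3) (Real.log n) v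
      (by positivity) (by linarith)
    change |ph r P n - wn r P v| ≤ _ at b1
    rw [div_div_eq_mul_div, div_one] at b1
    have b2 : |a - wn r P v| ≤ δ := (abs_sub_le a (ph r P n) _).trans (by
      have : 2 * |Real.log n - v| * r ^ 13 ≤ 2 * (r ^ 7 * Th r) * r ^ 13 := by gcongr
      linarith [a2 h0])
    have b3 : th n ≤ 2 * r ^ 13 := (th_le_log n).trans (by linarith)
    have b4 : |th n * a - wn r P v * vonMangoldt n| ≤ δ * (2 * r ^ 13) + (vonMangoldt n - th n) := by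
      rw [show th n * a - wn r P v * vonMangoldt n =
        (a - wn r P v) * th n - wn r P v * (vonMangoldt n - th n) by ring]
      refine (abs_sub _ _).trans (add_le_add ?_ ?_)
      · rw [abs_mul, abs_of_nonneg t0]; gcongr
      · rw [abs_of_nonneg (mul_nonneg u0 (by linarith))]
        exact mul_le_of_le_one_left (by linarith) u1
    refine (mul_le_mul_of_nonneg_right b4 (g0 n)).trans ?_
    rw [add_mul]
    exact add_le_add le_rfl (mul_le_mul_of_nonneg_left (gk_le w0 _) (by linarith))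
  have a1 : (⌊Real.exp (v + 1)⌋₊ : ℝ) ≤ Real.exp (v + 1) := Nat.floor_le (Real.exp_pos _).le
  have a2 : √(⌊Real.exp (v + 1)⌋₊ : ℝ) ≤ Real.exp ((v + 1) / 2) := by
    rw [Real.exp_half]; exact Real.sqrt_le_sqrt a1
  have a3 : Real.log (⌊Real.exp (v + 1)⌋₊ : ℝ) ≤ v + 1 := by
    rcases (⌊Real.exp (v + 1)⌋₊).eq_zero_or_pos with h | h
    · rw [h]; simp; linarith
    · exact (Real.log_le_iff_le_exp (by exact_mod_cast h)).2 a1
  have a4 := hPW.2 _ (Icc 1 ⌊Real.exp (v + 1)⌋₊) fun n hn => (mem_Icc.1 hn).2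
  have a5 : 2 * √(⌊Real.exp (v + 1)⌋₊ : ℝ) * Real.log (⌊Real.exp (v + 1)⌋₊ : ℝ) ≤
      Real.exp ((v + 1) / 2) * (Real.exp r / 3) := by
    rw [mul_comm 2, mul_assoc]
    exact mul_le_mul a2 (by linarith)
      (by have := Real.log_natCast_nonneg ⌊Real.exp (v + 1)⌋₊; positivity) (by positivity)
  have a6 : δ * (2 * r ^ 13) * 2 ≤ Real.exp r / 3 * Th r := by
    have c1 : Real.exp (-r ^ 26) ≤ Th r := Real.exp_le_exp.2 (by linarith)
    have c2 : r ^ 13 ≤ r ^ 33 := pow_le_pow_right₀ r1 (by norm_num)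
    have c3 : Real.exp (-r ^ 26) * r ^ 13 ≤ Th r * r ^ 33 := by gcongr
    have c4 : 16 * r ^ 33 * Th r ≤ Real.exp r / 3 * Th r := by gcongr; linarith
    rw [hδ]
    nlinarith
  have a7 : (r ^ 7 * Th r / Th r) ^ 2 = r ^ 14 := by
    rw [mul_div_cancel_right₀ _ w0.ne']; ring
  rw [a7, div_eq_mul_one_div _ (Th r), iw] at s2
  rw [sum_add_distrib, ← sum_mul, ← mul_sum, iw]
  have a8 : δ * (2 * r ^ 13) * ∑ n ∈ Icc 1 ⌊Real.exp (v + 1)⌋₊, gk (Th r) (Real.log n - v) ≤
      Real.exp r / 3 * Th r * Real.exp v :=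
    (mul_le_mul_of_nonneg_left m2 (by positivity)).trans (by
      rw [← mul_assoc]; exact mul_le_mul_of_nonneg_right a6 (Real.exp_pos _).le)
  refine (add_le_add s2 (add_le_add a8 (mul_le_mul_of_nonneg_right (a4.trans a5)
    (Real.exp_pos _).le))).trans (le_trans (le_of_eq ?_) (C1Ux.three
      (x := 4 * v - r ^ 14 + 7 * r) (y := r + -(7 * r) + v)
      (z := (v + 1) / 2 + r + 7 * r) (by linarith) (by linarith) (by linarith)))
  simp only [Real.exp_add, Th]
  ring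

end Pool.Agent.P.MP_42fc1a_nt.EK
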