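import Pool.Agent.P.MP_42fc1a_nt.EK.IfaceB

/-! Step CHG. -/

namespace Pool.Agent.P.MP_42fc1a_nt.EK

open Finset Real Filter Topology MeasureTheory
open Pool.Agent.P.MP_e86632_nt (ee nn ee_add norm_ee ee_neg ee_zero)
open Pool.Agent.P.MP_8be758_nt.Avg (gs red ft nsq gs_pos gs_le_one gs_neg gs_anti)
open Pool.Agent.P.MP_e94e4b_nt.PF (sgm)
open Pool.Agent.P.E2
open ArithmeticFunction (vonMangoldt moebius)
open DirichletCharacter (LFunction)
open scoped Classical

namespace CHGx

lemma ii (g : ℝ → ℂ) (C a b : ℝ) (hg : Measurable g) (h : ∀ x, ‖g x‖ ≤ C) :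
    IntervalIntegrable g volume a b :=
  (intervalIntegrable_const (c := C)).mono_fun' hg.aestronglyMeasurable
    (ae_of_all _ fun x => h x)

lemma per (H : ℝ → ℂ) (hH : ∀ x, H (x + 1) = H x) (j : ℕ) (x : ℝ) : H (x + j) = H x := by
  induction j with
  | zero => simp
  | succ n ih => rw [Nat.cast_succ, ← add_assoc, hH, ih]

end CHGx

theorem p_CHG :
    S_CHG := by
  intro p F H B hp hF hH hB hper
  have hp0 : (p : ℝ) ≠ 0 := by
    have : p ≠ 0 := by omega
    exact_mod_cast this
  have hB0 : 0 ≤ B := le_trans (norm_nonneg _) (hB 0).1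
  set G : ℝ → ℂ := fun x => F (x / p) * H x with hG
  have hGm : Measurable G := (hF.comp (measurable_id.div_const _)).mul hH
  have hGb : ∀ x, ‖G x‖ ≤ B * B := fun x => by
    simp only [hG]
    rw [norm_mul]
    exact mul_le_mul (hB _).1 (hB _).2 (norm_nonneg _) hB0
  have e1 : ∫ α in (0 : ℝ)..1, F α * H (p * α) = ∫ α in (0 : ℝ)..1, G (p * α) := by
    refine intervalIntegral.integral_congr fun x _ => ?_
    simp only [hG]
    rw [mul_div_cancel_left₀ _ hp0]
  have e2 := intervalIntegral.integral_comp_mul_left (a := (0 : ℝ)) (b := 1) G hp0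
  have e3 := intervalIntegral.sum_integral_adjacent_intervals (f := G) (μ := volume)
    (a := fun k : ℕ => (k : ℝ)) (n := p) (fun k _ => CHGx.ii G _ _ _ hGm hGb)
  have e4 : ∀ j : ℕ, ∫ x in (j : ℝ)..((j + 1 : ℕ) : ℝ), G x =
      ∫ x in (0 : ℝ)..1, F ((x + j) / p) * H x := by
    intro j
    have h1 := intervalIntegral.integral_comp_add_right (a := (0 : ℝ)) (b := 1) G (j : ℝ)
    rw [zero_add, add_comm (1 : ℝ)] at h1
    rw [Nat.cast_succ, ← h1]
    refine intervalIntegral.integral_congr fun x _ => ?_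
    simp only [hG]
    rw [CHGx.per H hper]
  have hint : ∀ j ∈ range p,
      IntervalIntegrable (fun x : ℝ => F ((x + j) / p) * H x) volume 0 1 := by
    intro j _
    refine CHGx.ii _ (B * B) _ _ ((hF.comp ((measurable_id.add_const _).div_const _)).mul hH) ?_
    intro x
    rw [norm_mul]
    exact mul_le_mul (hB _).1 (hB _).2 (norm_nonneg _) hB0
  rw [e1, e2, mul_zero, mul_one]
  simp only [Nat.cast_zero] at e3
  rw [← e3, sum_congr rfl fun j _ => e4 j, ← intervalIntegral.integral_finsetSum hint,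
    ← intervalIntegral.integral_smul]
  refine intervalIntegral.integral_congr fun x _ => ?_
  beta_reduce
  rw [← sum_mul, Complex.real_smul]
  push_cast
  ring

end Pool.Agent.P.MP_42fc1a_nt.EK
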