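import Pool.Agent.P.MP_42fc1a_nt.EK.IfaceE

/-! Step CIR. -/

namespace Pool.Agent.P.MP_42fc1a_nt.EK

open Finset Real Filter Topology MeasureTheory
open Pool.Agent.P.MP_e86632_nt (ee nn ee_add norm_ee ee_neg ee_zero)
open Pool.Agent.P.MP_8be758_nt.Avg (gs red ft nsq gs_pos gs_le_one gs_neg gs_anti)
open Pool.Agent.P.MP_e94e4b_nt.PF (sgm)
open Pool.Agent.P.E2
open ArithmeticFunction (vonMangoldt moebius)
open DirichletCharacter (LFunction)
open scoped Classical

namespace CIRx

lemma cs (μ : Measure ℝ) (a b : ℝ → ℝ) (A B : ℝ) (ha : Integrable (fun x => a x ^ 2) μ)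
    (hb : Integrable (fun x => b x ^ 2) μ) (hab : Integrable (fun x => a x * b x) μ)
    (hA : ∫ x, a x ^ 2 ∂μ ≤ A) (hB : ∫ x, b x ^ 2 ∂μ ≤ B) :
    ∫ x, a x * b x ∂μ ≤ √A * √B := by
  set I := ∫ x, a x * b x ∂μ with hI
  have hA0 : 0 ≤ A := le_trans (integral_nonneg fun x => by positivity) hA
  have key : ∀ t : ℝ, 0 ≤ A * (t * t) + (-2 * I) * t + B := by
    intro t
    have h0 : 0 ≤ ∫ x, (t * a x - b x) ^ 2 ∂μ := integral_nonneg fun x => by positivity
    have h1 : (fun x => (t * a x - b x) ^ 2) =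
        fun x => (t * t * a x ^ 2 + (-2 * t) * (a x * b x)) + b x ^ 2 := by
      funext x; ring
    have j1 : Integrable (fun x => t * t * a x ^ 2 + (-2 * t) * (a x * b x)) μ :=
      (ha.const_mul _).add (hab.const_mul _)
    rw [h1, integral_add j1 hb,
      integral_add (ha.const_mul _) (hab.const_mul _), integral_const_mul, integral_const_mul,
      ← hI] at h0
    have h2 : t * t * ∫ x, a x ^ 2 ∂μ ≤ t * t * A :=
      mul_le_mul_of_nonneg_left hA (mul_self_nonneg t)
    nlinarith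
  have hd := discrim_le_zero key
  rw [discrim] at hd
  rw [← Real.sqrt_mul hA0]
  exact le_trans (le_abs_self I) (Real.abs_le_sqrt (by nlinarith))

lemma ci {E : Type*} [NormedAddCommGroup E] {F : ℝ → E} (hF : Continuous F) :
    Integrable F (volume.restrict (Set.Ioc (0 : ℝ) 1)) :=
  (hF.integrableOn_Icc (a := 0) (b := 1)).mono_set Set.Ioc_subset_Icc_self

end CIRx

theorem p_CIR :
    S_CIR := by
  intro ψ S S' f g h R lam N e1 e3 e4 cψ cS cS' cf cg ch hR hb hlam he4 hN he1 he3 hS'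
  have h01 : (0 : ℝ) ≤ 1 := zero_le_one
  simp only [intervalIntegral.integral_of_le h01] at hN he1 ⊢
  rw [← setIntegral_indicator hR, integral_Icc_eq_integral_Ioc] at he3
  set μ := volume.restrict (Set.Ioc (0 : ℝ) 1) with hμ
  have hU : MeasurableSet ({x | lam ≤ h x} \ R) :=
    (isClosed_le continuous_const ch).measurableSet.diff hR
  set U := {x | lam ≤ h x} \ R with hUdef
  have i1 : Integrable (fun x => ψ x * S' x) μ := CIRx.ci (cψ.mul cS')
  have i2 : Integrable (fun x => ψ x * S x) μ := CIRx.ci (cψ.mul cS)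
  have i3 : Integrable (fun x => U.indicator ψ x * S x) μ := by
    have : (fun x => U.indicator ψ x * S x) = U.indicator (fun x => ψ x * S x) := by
      funext x
      by_cases hx : x ∈ U <;> simp [hx]
    rw [this]
    exact i2.indicator hU
  set k : ℝ → ℝ := R.indicator fun x => ‖S x - S' x‖ with hk
  have f2 : Integrable (fun x => f x ^ 2) μ := CIRx.ci (cf.pow 2)
  have k2e : (fun x => k x ^ 2) = R.indicator fun x => ‖S x - S' x‖ ^ 2 := by
    funext x
    by_cases hx : x ∈ R <;> simp [hk, hx]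
  have k2 : Integrable (fun x => k x ^ 2) μ := by
    rw [k2e]
    exact (CIRx.ci ((cS.sub cS').norm.pow 2)).indicator hR
  have fk : Integrable (fun x => f x * k x) μ := by
    have : (fun x => f x * k x) = R.indicator fun x => f x * ‖S x - S' x‖ := by
      funext x
      by_cases hx : x ∈ R <;> simp [hk, hx]
    rw [this]
    exact (CIRx.ci (cf.mul (cS.sub cS').norm)).indicator hR
  have fg : Integrable (fun x => f x * (‖S x‖ * g x)) μ := CIRx.ci (cf.mul (cS.norm.mul cg))
  have f1 : Integrable (fun x => f x * (1 : ℝ)) μ := CIRx.ci (cf.mul continuous_const)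
  have c1 : ∫ x, f x * k x ∂μ ≤ √N * √e3 :=
    CIRx.cs μ f k N e3 f2 k2 fk hN (by rw [k2e]; exact he3)
  have c2 : ∫ x, f x * (‖S x‖ * g x) ∂μ ≤ √N * √e1 :=
    CIRx.cs μ f (fun x => ‖S x‖ * g x) N e1 f2 (CIRx.ci ((cS.norm.mul cg).pow 2)) fg hN
      (by simpa only [mul_pow] using he1)
  have c3 : ∫ x, f x * (1 : ℝ) ∂μ ≤ √N * √1 :=
    CIRx.cs μ f (fun _ => 1) N 1 f2 (CIRx.ci (continuous_const.pow 2)) f1 hN
      (by simp [hμ])
  rw [Real.sqrt_one, mul_one] at c3
  have pt : ∀ x, ‖ψ x * S' x - ψ x * S x + U.indicator ψ x * S x‖ ≤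
      f x * k x + lam * (f x * (‖S x‖ * g x)) + e4 * (f x * 1) := by
    intro x
    obtain ⟨b1, b2, b3, b4, b5, b6⟩ := hb x
    have hψf : ‖ψ x‖ ≤ f x := by
      have : g x * h x ≤ 1 := mul_le_one₀ b3 b4 b5
      calc ‖ψ x‖ ≤ f x * (g x * h x) := by rw [← mul_assoc]; exact b6
        _ ≤ f x * 1 := mul_le_mul_of_nonneg_left this b1
        _ = f x := mul_one _
    have n2 : 0 ≤ lam * (f x * (‖S x‖ * g x)) := by positivity
    have n3 : 0 ≤ e4 * (f x * 1) := by positivity
    by_cases hx : x ∈ R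
    · have hxU : x ∉ U := fun hh => hh.2 hx
      have e : ψ x * S' x - ψ x * S x + U.indicator ψ x * S x = -(ψ x * (S x - S' x)) := by
        rw [Set.indicator_of_notMem hxU]; ring
      have ek : k x = ‖S x - S' x‖ := by simp [hk, hx]
      rw [e, norm_neg, norm_mul, ek]
      have : ‖ψ x‖ * ‖S x - S' x‖ ≤ f x * ‖S x - S' x‖ :=
        mul_le_mul_of_nonneg_right hψf (norm_nonneg _)
      linarith
    · have ek : k x = 0 := by simp [hk, hx]
      have q1 : ‖ψ x * S' x‖ ≤ e4 * (f x * 1) := by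
        rw [norm_mul, mul_one, mul_comm e4]
        exact mul_le_mul hψf (hS' x hx) (norm_nonneg _) b1
      rw [ek, mul_zero, zero_add]
      by_cases hl : lam ≤ h x
      · have hxU : x ∈ U := ⟨hl, hx⟩
        have e : ψ x * S' x - ψ x * S x + U.indicator ψ x * S x = ψ x * S' x := by
          rw [Set.indicator_of_mem hxU]; ring
        rw [e]
        linarith
      · have hxU : x ∉ U := fun hh => hl hh.1
        rw [Set.indicator_of_notMem hxU, zero_mul, add_zero]
        have q2 : ‖ψ x * S x‖ ≤ lam * (f x * (‖S x‖ * g x)) := by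
          rw [norm_mul]
          have : ‖ψ x‖ ≤ f x * g x * lam :=
            b6.trans (mul_le_mul_of_nonneg_left (not_le.mp hl).le (mul_nonneg b1 b2))
          calc ‖ψ x‖ * ‖S x‖ ≤ f x * g x * lam * ‖S x‖ :=
                mul_le_mul_of_nonneg_right this (norm_nonneg _)
            _ = lam * (f x * (‖S x‖ * g x)) := by ring
        have := norm_sub_le (ψ x * S' x) (ψ x * S x)
        linarith
  have hD : ‖∫ x, (ψ x * S' x - ψ x * S x + U.indicator ψ x * S x) ∂μ‖ ≤
      √N * (√e3 + lam * √e1 + e4) := by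
    refine (norm_integral_le_of_norm_le
      ((fk.add (fg.const_mul lam)).add (f1.const_mul e4)) (Eventually.of_forall pt)).trans ?_
    have : ∫ x, (f x * k x + lam * (f x * (‖S x‖ * g x)) + e4 * (f x * 1)) ∂μ =
        ∫ x, f x * k x ∂μ + lam * ∫ x, f x * (‖S x‖ * g x) ∂μ + e4 * ∫ x, f x * 1 ∂μ := by
      have j2 : Integrable (fun x => f x * k x + lam * (f x * (‖S x‖ * g x))) μ :=
        fk.add (fg.const_mul lam)
      rw [integral_add j2 (f1.const_mul e4),
        integral_add fk (fg.const_mul lam), integral_const_mul, integral_const_mul]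
    refine le_trans (le_of_eq this) ?_
    have d2 := mul_le_mul_of_nonneg_left c2 hlam
    have d3 := mul_le_mul_of_nonneg_left c3 he4
    nlinarith
  have j3 : Integrable (fun x => ψ x * S' x - ψ x * S x) μ := i1.sub i2
  rw [integral_add j3 i3, integral_sub i1 i2] at hD
  set a := ∫ x, ψ x * S' x ∂μ
  set b := ∫ x, ψ x * S x ∂μ
  set c := ∫ x, U.indicator ψ x * S x ∂μ
  have e : a = (b + (a - b + c)) - c := by ring
  calc ‖a‖ = ‖(b + (a - b + c)) - c‖ := by rw [← e]
    _ ≤ ‖b + (a - b + c)‖ + ‖c‖ := norm_sub_le _ _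
    _ ≤ ‖b‖ + ‖a - b + c‖ + ‖c‖ := by gcongr; exact norm_add_le _ _
    _ ≤ _ := by gcongr

end Pool.Agent.P.MP_42fc1a_nt.EK
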