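import Pool.Agent.P.MP_42fc1a_nt.EK.IfaceC

/-! Step CLM. -/

namespace Pool.Agent.P.MP_42fc1a_nt.EK

open Finset Real Filter Topology MeasureTheory
open Pool.Agent.P.MP_e86632_nt (ee nn ee_add norm_ee ee_neg ee_zero)
open Pool.Agent.P.MP_8be758_nt.Avg (gs red ft nsq gs_pos gs_le_one gs_neg gs_anti)
open Pool.Agent.P.MP_e94e4b_nt.PF (sgm)
open Pool.Agent.P.E2
open ArithmeticFunction (vonMangoldt moebius)
open DirichletCharacter (LFunction)
open scoped Classical

namespace CLMx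

theorem e4 : Real.exp 4 ≤ 55 := by
  have h : Real.exp 4 = Real.exp 1 ^ 4 := by rw [Real.exp_one_pow]; norm_num
  rw [h]
  exact (pow_le_pow_left₀ (Real.exp_pos 1).le Real.exp_one_lt_d9.le 4).trans (by norm_num)

theorem e5 : Real.exp 5 ≤ 200 := by
  have h : Real.exp 5 = Real.exp 1 ^ 5 := by rw [Real.exp_one_pow]; norm_num
  rw [h]
  exact (pow_le_pow_left₀ (Real.exp_pos 1).le Real.exp_one_lt_d9.le 5).trans (by norm_num)

theorem card_le (r : ℝ) (q c : ℕ) : ((Ic r q c).card : ℝ) ≤ 110 * XX r := by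
  have h : (Ic r q c).card ≤ ⌊110 * XX r⌋₊ :=
    (card_filter_le _ _).trans (by rw [II, Nat.card_Ioc]; omega)
  exact (Nat.cast_le.2 h).trans (Nat.floor_le (by have := XX_pos r; positivity))

end CLMx

theorem p_CLM (hCMP : S_CMP) (hCLS : S_CLS) :
    S_CLM := by
  filter_upwards [ev_pe1 22000 21, ev_pe1 48400 0, ev_pp 1 (c := 1 / 2) (by norm_num)
    (show 13 < 14 by norm_num), ev_lin 4 0 (c := 1 / 2) (by norm_num) (show 2 ≤ 14 by norm_num),
    eventually_ge_atTop 1] with r h1 h2 h3 h4 hr θ v q c hS hv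
  obtain ⟨q1, qe, qt, tt⟩ := hS
  have hq : (1 : ℝ) ≤ q := by exact_mod_cast q1
  have hX := XX_pos r
  have hθ : 0 < θ := by
    by_contra e
    nlinarith [mul_nonneg (neg_nonneg.2 (not_lt.1 e)) hX.le]
  have hu := Real.exp_pos v
  have hE := Real.exp_pos r
  have ht := Real.exp_pos (-(2 * r))
  have hz := Real.exp_pos (-(r ^ 7) ^ 2)
  have hW : 1 ≤ r ^ 7 := one_le_pow₀ hr
  rw [pow_zero, mul_one] at h2
  have ha : (q : ℝ) ≤ θ * Real.exp v := by
    have a1 : XX r ≤ Real.exp 5 * Real.exp v := by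
      rw [← Real.exp_add]; exact Real.exp_le_exp.2 (by linarith [(abs_le.1 hv).1])
    have a2 : XX r ≤ 200 * Real.exp v := a1.trans (by gcongr; exact CLMx.e5)
    nlinarith [mul_le_mul_of_nonneg_left a2 hθ.le]
  have b1 : Real.exp r * Real.exp r * θ ≤ Real.exp (-(2 * r)) := by
    refine (mul_le_mul_of_nonneg_left tt (by positivity)).trans ?_
    rw [Th, ← Real.exp_add, ← Real.exp_add]; exact Real.exp_le_exp.2 (by linarith)
  have b2 : Real.exp r * Real.exp r * (XX r * Real.exp (-(r ^ 7) ^ 2)) ≤ Real.exp (-(2 * r)) := by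
    rw [XX, ← Real.exp_add, ← Real.exp_add, ← Real.exp_add, show (r ^ 7) ^ 2 = r ^ 14 by ring]
    exact Real.exp_le_exp.2 (by linarith)
  have b3 : Real.exp (-(2 * r)) ≤ 1 := Real.exp_le_one_iff.2 (by linarith)
  have b4 : 1 ≤ XX r := Real.one_le_exp (by positivity)
  have hε : r ^ 7 * θ ≤ 1 / 100 := by
    have a1 : r ^ 7 ≤ r ^ 21 := pow_le_pow_right₀ hr (by norm_num)
    have a2 : Real.exp r * θ ≤ 1 := by nlinarith [mul_pos hE hθ]
    nlinarith [mul_le_mul_of_nonneg_right (show 22000 * r ^ 7 ≤ Real.exp r by linarith) hθ.le]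
  have c0 := hCMP (Real.exp v) (Real.exp v) θ (r ^ 7) (r ^ 7 * θ) 1 (Ic r q c) (Ic r q c)
    (fun _ => 1) hu hθ hW (hq.trans ha) (by rw [sub_self, abs_zero]; positivity) le_rfl
    (by linarith) zero_le_one (fun _ => by simp)
    (fun m hm => by have := (mem_Ioc.1 (mem_filter.1 hm).1).1; omega) fun _ _ => Iff.rfl
  simp only [one_mul, Real.log_exp] at c0
  rw [← Complex.ofReal_sum, ← Complex.ofReal_sum, ← Complex.ofReal_div, ← Complex.ofReal_sub,
    Complex.norm_real, Real.norm_eq_abs] at c0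
  have c1 : 100 * (r ^ 7) ^ 2 * (r ^ 7 * θ) + (((Ic r q c).card : ℝ) + (Ic r q c).card) *
      Real.exp (-(r ^ 7) ^ 2) ≤ Real.exp (-(2 * r)) / 110 / q := by
    rw [le_div_iff₀ (by linarith)]
    have a1 : 100 * (r ^ 7) ^ 2 * (r ^ 7 * θ) ≤ Real.exp r * θ / 220 := by
      have : 100 * (r ^ 7) ^ 2 * (r ^ 7 * θ) = 22000 * r ^ 21 * θ / 220 := by ring
      rw [this]; gcongr
    have a2 : (((Ic r q c).card : ℝ) + (Ic r q c).card) * Real.exp (-(r ^ 7) ^ 2) ≤
        Real.exp r * (XX r * Real.exp (-(r ^ 7) ^ 2)) / 220 := by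
      have a3 := mul_le_mul_of_nonneg_right (CLMx.card_le r q c) hz.le
      have a4 := mul_le_mul_of_nonneg_right h2 (mul_pos hX hz).le
      linarith
    refine (mul_le_mul (add_le_add a1 a2) qe (by linarith) (by positivity)).trans ?_
    linarith
  replace c0 := c0.trans c1
  obtain ⟨d1, d2⟩ := hCLS (θ * Real.exp v) (Real.exp v) q c (Ic r q c) q1 ha
    fun m hm => (mem_filter.1 hm).2
  generalize ∑ m ∈ Ic r q c, gk θ (Real.log m - v) = G at c0 ⊢
  generalize ∑ m ∈ Ic r q c, gk (θ * Real.exp v) (m - Real.exp v) = A at c0 d1 d2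
  have hq0 : (0 : ℝ) < q := by linarith
  refine ⟨?_, fun v1 v2 => ?_⟩
  · have a1 : Real.exp (-(2 * r)) / 110 / q ≤ 2 / q := by gcongr; linarith
    have a2 : G / Real.exp v ≤ 8 / q + 2 / q := by linarith [(abs_le.1 c0).1]
    rw [div_le_iff₀ hu] at a2
    exact a2.trans (le_of_eq (by ring))
  have u1 : XX r ≤ 55 * Real.exp v := by
    refine le_trans ?_ (mul_le_mul_of_nonneg_right CLMx.e4 hu.le)
    rw [← Real.exp_add]; exact Real.exp_le_exp.2 (by linarith)
  have u2 : Real.exp v ≤ 55 * XX r := by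
    refine le_trans ?_ (mul_le_mul_of_nonneg_right CLMx.e4 hX.le)
    rw [XX, ← Real.exp_add]; exact Real.exp_le_exp.2 (by linarith)
  have w1 : r ^ 7 * (θ * Real.exp v) ≤ Real.exp v / 100 := by
    nlinarith [mul_le_mul_of_nonneg_right hε hu.le]
  have w2 : θ * Real.exp v ≤ r ^ 7 * (θ * Real.exp v) := le_mul_of_one_le_left (by positivity) hW
  have d3 := d2 (r ^ 7) (by linarith) (by linarith) fun m m1 m2 => by
    obtain ⟨m3, m4⟩ := abs_le.1 m2
    exact mem_filter.2 ⟨mem_Ioc.2 ⟨(Nat.floor_lt (by positivity)).2 (by linarith),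
      Nat.le_floor (by linarith)⟩, m1⟩
  have a1 : 12 * Real.exp (-(r ^ 7) ^ 2) ≤ Real.exp (-(2 * r)) / 110 := by
    have a2 : Real.exp (-(r ^ 7) ^ 2) ≤ XX r * Real.exp (-(r ^ 7) ^ 2) :=
      le_mul_of_one_le_left hz.le b4
    have a3 : 48400 ≤ Real.exp r * Real.exp r := by nlinarith
    nlinarith [mul_le_mul_of_nonneg_right a3 (mul_pos hX hz).le]
  have a2 : |G / Real.exp v - 1 / q| ≤ 4 / (θ * Real.exp v) + Real.exp (-(2 * r)) / 55 / q := by
    have a3 := abs_sub_le (G / Real.exp v) A (1 / q)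
    rw [abs_sub_comm] at c0
    have a4 : (4 * q / (θ * Real.exp v) + 12 * Real.exp (-(r ^ 7) ^ 2)) / q ≤
        (4 * q / (θ * Real.exp v) + Real.exp (-(2 * r)) / 110) / q := by gcongr
    have a5 : (4 * q / (θ * Real.exp v) + Real.exp (-(2 * r)) / 110) / q +
        Real.exp (-(2 * r)) / 110 / q = 4 / (θ * Real.exp v) + Real.exp (-(2 * r)) / 55 / q := by
      field_simp; ring
    linarith
  have a3 : G - Real.exp v / q = Real.exp v * (G / Real.exp v - 1 / q) := by field_simp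
  rw [a3, abs_mul, abs_of_pos hu]
  refine (mul_le_mul_of_nonneg_left a2 hu.le).trans ?_
  have a4 : Real.exp v * (4 / (θ * Real.exp v) + Real.exp (-(2 * r)) / 55 / q) =
      4 / θ + Real.exp v / 55 * Real.exp (-(2 * r)) / q := by field_simp
  rw [a4]
  gcongr
  linarith

end Pool.Agent.P.MP_42fc1a_nt.EK
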