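import Pool.Agent.P.MP_42fc1a_nt.EK.IfaceC

/-! Step CLS. -/

namespace Pool.Agent.P.MP_42fc1a_nt.EK

open Finset Real Filter Topology MeasureTheory
open Pool.Agent.P.MP_e86632_nt (ee nn ee_add norm_ee ee_neg ee_zero)
open Pool.Agent.P.MP_8be758_nt.Avg (gs red ft nsq gs_pos gs_le_one gs_neg gs_anti)
open Pool.Agent.P.MP_e94e4b_nt.PF (sgm)
open Pool.Agent.P.E2
open ArithmeticFunction (vonMangoldt moebius)
open DirichletCharacter (LFunction)
open scoped Classical

namespace CLSx

end CLSx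

theorem p_CLS (hRS : S_RS) :
    S_CLS := by
  intro a u q c S hq hqa hS
  have q0 : (0 : ℝ) < q := by exact_mod_cast hq
  have a0 : 0 < a := q0.trans_le hqa
  have hc : ((c % q : ℕ) : ℝ) ≤ q := by exact_mod_cast (Nat.mod_lt c hq).le
  have hm : ∀ m ∈ S, m = q * (m / q) + c % q := fun m h => by
    rw [← (hS m h : m % q = c % q)]; exact (Nat.div_add_mod m q).symm
  have key : ∑ m ∈ S, gk a (m - u) =
      (∑ k ∈ S.image (· / q), gk (a / q) (k - (u - (c % q : ℕ)) / q)) / q := by
    rw [sum_image fun m h m' h' e => by rw [hm m h, hm m' h']; simp only [e], sum_div]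
    refine sum_congr rfl fun m h => ?_
    have e : (m : ℝ) = q * (m / q : ℕ) + (c % q : ℕ) := by exact_mod_cast hm m h
    unfold gk
    rw [show (((m / q : ℕ) : ℝ) - (u - (c % q : ℕ)) / q) / (a / q) = (m - u) / a by
      rw [e]; field_simp; ring]
    field_simp
  obtain ⟨h1, h2⟩ := hRS (a / q) ((u - (c % q : ℕ)) / q) (S.image (· / q))
    ((one_le_div q0).2 hqa)
  rw [key]
  refine ⟨by gcongr, fun W hW hu hin => ?_⟩
  have h3 := h2 W hW (by rw [← mul_div_assoc]; gcongr; linarith) fun k hk => by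
    refine mem_image.2 ⟨q * k + c % q, hin _ ?_ ?_, ?_⟩
    · simp [Nat.ModEq]
    · have e : ((q * k + c % q : ℕ) : ℝ) - u = q * (k - (u - (c % q : ℕ)) / q) := by
        push_cast; field_simp; ring
      rw [e, abs_mul, abs_of_pos q0]
      calc (q : ℝ) * |k - (u - (c % q : ℕ)) / q| ≤ q * (W * (a / q)) := by gcongr
        _ = W * a := by field_simp
    · rw [Nat.mul_add_div hq, Nat.div_eq_of_lt (Nat.mod_lt c hq), add_zero]
  rw [← sub_div, abs_div, abs_of_pos q0]
  gcongr
  rwa [show 4 * (q : ℝ) / a = 4 / (a / q) by field_simp]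

end Pool.Agent.P.MP_42fc1a_nt.EK
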