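import Pool.Agent.P.MP_42fc1a_nt.EK.IfaceB

/-! Step COR. -/

namespace Pool.Agent.P.MP_42fc1a_nt.EK

open Finset Real Filter Topology MeasureTheory
open Pool.Agent.P.MP_e86632_nt (ee nn ee_add norm_ee ee_neg ee_zero)
open Pool.Agent.P.MP_8be758_nt.Avg (gs red ft nsq gs_pos gs_le_one gs_neg gs_anti)
open Pool.Agent.P.MP_e94e4b_nt.PF (sgm)
open Pool.Agent.P.E2
open ArithmeticFunction (vonMangoldt moebius)
open DirichletCharacter (LFunction)
open scoped Classical

namespace CORx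

lemma sgm_ge (M : ℕ) : 1 ≤ sgm M := by
  refine one_le_prod fun p hp => ?_
  have h5 : (5 : ℝ) ≤ p := by exact_mod_cast (mem_filter.1 hp).2
  have h1 : 0 < 2 / (p : ℝ) := by positivity
  have h2 : 2 / (p : ℝ) < 1 := by rw [div_lt_one (by linarith)]; linarith
  exact (one_le_inv₀ (by linarith)).2 (by linarith)

/-- pairs of primes on a line -/
noncomputable def SS (R : Finset ℕ) (p p' : ℕ) (h : ℤ) : Finset (ℕ × ℕ) :=
  (R ×ˢ R).filter fun x => x.1.Prime ∧ x.2.Prime ∧ (p' * x.2 : ℤ) - p * x.1 = h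

lemma few {T : Finset ℕ} {h : ℤ} {L : ℝ} (h0 : h ≠ 0) (hL : ((|h| : ℤ) : ℝ) ≤ Real.exp L)
    (hT : ∀ p ∈ T, p.Prime ∧ (3 : ℝ) ≤ p) :
    ((T.filter fun p : ℕ => (p : ℤ) ∣ h).card : ℝ) ≤ L := by
  set U := T.filter fun p : ℕ => (p : ℤ) ∣ h with hU
  have h1 : (∏ p ∈ U, p) ∣ h.natAbs :=
    Finset.prod_primes_dvd _ (fun p hp => (hT p (mem_filter.1 hp).1).1.prime)
      fun p hp => Int.natCast_dvd.1 (mem_filter.1 hp).2
  have h2 : ((∏ p ∈ U, p : ℕ) : ℝ) ≤ h.natAbs := by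
    exact_mod_cast Nat.le_of_dvd (Int.natAbs_pos.2 h0) h1
  have h3 : ∏ _p ∈ U, Real.exp 1 ≤ ∏ p ∈ U, (p : ℝ) :=
    prod_le_prod (fun _ _ => (Real.exp_pos _).le) fun p hp =>
      (Real.exp_one_lt_d9.le.trans (by norm_num)).trans (hT p (mem_filter.1 hp).1).2
  rw [prod_const, ← Real.exp_nat_mul, mul_one] at h3
  have h4 : (h.natAbs : ℝ) = ((|h| : ℤ) : ℝ) := by
    rw [← Int.natCast_natAbs, Int.cast_natCast]
  push_cast at h2
  exact Real.exp_le_exp.1 (h3.trans (h2.trans (h4.le.trans hL)))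

lemma diag (R : Finset ℕ) {p : ℕ} (hp : p ≠ 0) (h : ℤ) :
    ((SS R p p h).card : ℝ) ≤ if (p : ℤ) ∣ h then (R.card : ℝ) else 0 := by
  split_ifs with q
  · have : (SS R p p h).card ≤ R.card := by
      refine card_le_card_of_injOn Prod.fst (fun x hx => (mem_product.1 (mem_filter.1 hx).1).1) ?_
      intro x hx y hy e
      have a := (mem_filter.1 hx).2.2.2
      have b := (mem_filter.1 hy).2.2.2
      have e' : x.1 = y.1 := e
      rw [e'] at a
      have c : (p : ℤ) * x.2 = p * y.2 := by linarith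
      have d : (x.2 : ℤ) = y.2 := mul_left_cancel₀ (by exact_mod_cast hp) c
      exact Prod.ext e' (by exact_mod_cast d)
    exact_mod_cast this
  · have : SS R p p h = ∅ := by
      refine eq_empty_of_forall_notMem fun x hx => q ?_
      rw [← (mem_filter.1 hx).2.2.2]
      exact ⟨x.2 - x.1, by ring⟩
    simp [this]

lemma expand {I T R : Finset ℕ} {b w : ℕ → ℝ} {B : ℝ} (h : ℤ)
    (e : ∀ F : ℕ → ℝ, ∑ m ∈ I, b m * F m = ∑ p ∈ T, ∑ n ∈ R, w n * F (p * n))
    (w0 : ∀ n ∈ R, 0 ≤ w n ∧ w n ≤ B) (w1 : ∀ n, w n ≠ 0 → n.Prime) :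
    ∑ m ∈ I, ∑ m' ∈ I, (if (m' : ℤ) - m = h then b m * b m' else 0) ≤
      ∑ p ∈ T, ∑ p' ∈ T, B ^ 2 * (SS R p p' h).card := by
  have e1 : ∑ m ∈ I, ∑ m' ∈ I, (if (m' : ℤ) - m = h then b m * b m' else 0) =
      ∑ m ∈ I, b m * ∑ m' ∈ I, b m' * (if (m' : ℤ) - m = h then 1 else 0) := by
    refine sum_congr rfl fun m _ => ?_
    rw [mul_sum]
    refine sum_congr rfl fun m' _ => ?_
    split_ifs <;> simp
  rw [e1, e fun m => ∑ m' ∈ I, b m' * (if (m' : ℤ) - m = h then 1 else 0)]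
  refine sum_le_sum fun p _ => ?_
  have e2 : ∀ n : ℕ, ∑ m' ∈ I, b m' * (if (m' : ℤ) - (p * n : ℕ) = h then 1 else 0) =
      ∑ p' ∈ T, ∑ n' ∈ R, w n' * (if ((p' * n' : ℕ) : ℤ) - (p * n : ℕ) = h then 1 else 0) :=
    fun n => e fun m' => if (m' : ℤ) - (p * n : ℕ) = h then 1 else 0
  simp only [e2, mul_sum]
  rw [sum_comm]
  refine sum_le_sum fun p' _ => ?_
  rw [SS, card_filter, sum_product]
  push_cast
  rw [mul_sum]
  refine sum_le_sum fun n hn => ?_
  rw [mul_sum]
  refine sum_le_sum fun n' hn' => ?_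
  have a := w0 n hn
  have a' := w0 n' hn'
  have hB : 0 ≤ B := a.1.trans a.2
  by_cases q : (p' * n' : ℤ) - p * n = h
  · by_cases z : w n = 0
    · rw [z, zero_mul]; positivity
    · by_cases z' : w n' = 0
      · rw [z', zero_mul, mul_zero]; positivity
      · rw [if_pos q, if_pos ⟨w1 n z, w1 n' z', q⟩, mul_one, mul_one, pow_two]
        exact mul_le_mul a.2 a'.2 a'.1 hB
  · rw [if_neg q, mul_zero, mul_zero]; positivity

end CORx

open CORx in
theorem p_COR (hRNG : S_RNG) (hPH : S_PH) (hBW : S_BW) (hSV3 : S_SV3) :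
    S_COR := by
  obtain ⟨C, hC, hS⟩ := hSV3
  obtain ⟨H0, hS⟩ := eventually_atTop.1 hS
  refine ⟨3520 * C + 14080, by positivity, ?_⟩
  filter_upwards [hRNG, hPH, hBW, eventually_ge_atTop (max 8 (2 * H0))] with r g ph' bw' hr P T pr
  have r8 : 8 ≤ r := (le_max_left _ _).trans hr
  have rH : 2 * H0 ≤ r := (le_max_right _ _).trans hr
  have r1 : 1 ≤ r := by linarith
  have P8 : 8 ≤ P := r8.trans ((le_self_pow₀ r1 (by norm_num)).trans pr.p1)
  have P0 : 0 < P := by linarith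
  have g := g P (by linarith) pr.p2
  have ph' := ph' P (by linarith) pr.p2
  obtain ⟨-, b1, -, b3, b4⟩ := bw' P T pr
  have X0 := Real.exp_pos (r ^ 13)
  have XP : 0 < XX r := X0
  have L0 : 0 < r ^ 13 := by positivity
  have rh0 : 0 < rh T := lt_of_lt_of_le (by positivity) pr.rho
  constructor
  · have e1 : cor r P T 0 = ∑ m ∈ II r, bw r P T m * bw r P T m := by
      refine sum_congr rfl fun m hm => ?_
      rw [sum_eq_single_of_mem m hm fun m' _ ne => if_neg fun q => ne (by omega), if_pos (sub_self _)]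
    have e2 : ∑ m ∈ II r, bw r P T m * bw r P T m ≤ ∑ m ∈ II r, 2 * r ^ 13 * bw r P T m :=
      sum_le_sum fun m _ => mul_le_mul_of_nonneg_right (b1 m).2 (b1 m).1
    rw [← mul_sum] at e2
    have e3 := mul_le_mul_of_nonneg_left b4 (by positivity : 0 ≤ 2 * r ^ 13)
    have e4 : 0 ≤ r ^ 13 * rh T * XX r := by positivity
    have e5 := mul_nonneg hC.le e4
    rw [e1]
    nlinarith
  intro h h0 hX
  have s1 := sgm_ge h.natAbs
  have hT := fun p hp => g.pp p (pr.sub hp)
  have ex := expand (I := II r) (T := T) (R := RN r P) (b := bw r P T)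
    (w := fun n => th n * ph r P n) (B := 2 * r ^ 13) h
    (fun F => by exact_mod_cast b3 fun m => (F m : ℂ))
    (fun n hn => by
      have t0 : 0 ≤ th n := by unfold th; split_ifs; exacts [Real.log_natCast_nonneg _, le_rfl]
      have t1 : th n ≤ Real.log n := by
        unfold th; split_ifs; exacts [le_rfl, Real.log_natCast_nonneg _]
      have := (g.rn n hn).2.2
      have u := ph' n
      exact ⟨mul_nonneg t0 u.1, by nlinarith [u.1, u.2.1]⟩)
    (fun n hn => by
      by_contra q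
      exact hn (by simp [th, q]))
  have r12 : 8 ≤ r ^ 12 := r8.trans (le_self_pow₀ r1 (by norm_num))
  have L4 : 8 * r ≤ r ^ 13 := by rw [pow_succ]; nlinarith
  set H := 55 * XX r / P ^ 2 with hH
  have Hl : Real.exp (r ^ 13 / 2) ≤ H := by
    rw [hH, le_div_iff₀ (by positivity)]
    have a1 : P ^ 2 ≤ Real.exp r ^ 2 := pow_le_pow_left₀ P0.le pr.p2 2
    have a2 : Real.exp (r ^ 13 / 2) * Real.exp r ^ 2 ≤ XX r := by
      rw [← Real.exp_nat_mul, ← Real.exp_add]
      exact Real.exp_le_exp.2 (by push_cast; linarith)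
    nlinarith [Real.exp_pos (r ^ 13 / 2)]
  have Hp : 0 < H := (Real.exp_pos _).trans_le Hl
  have Hu : H ≤ XX r := by
    rw [hH, div_le_iff₀ (by positivity)]
    nlinarith [mul_le_mul P8 P8 (by norm_num) P0.le]
  have H1 : H ^ (1 / 10 : ℝ) < Real.exp (r ^ 13 / 2) := by
    refine (Real.rpow_le_rpow Hp.le Hu (by norm_num)).trans_lt ?_
    rw [XX, ← Real.exp_mul]
    exact Real.exp_lt_exp.2 (by linarith)
  have Hg : r ^ 13 / 2 ≤ Real.log H := (Real.le_log_iff_exp_le Hp).2 Hl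
  have HH : H0 ≤ H := by nlinarith [Real.add_one_le_exp (r ^ 13 / 2)]
  have Rc : ((RN r P).card : ℝ) ≤ 55 * XX r / P := by
    have : (RN r P).card ≤ A2 r P := by rw [RN, Nat.card_Ioc]; omega
    have a := g.a2
    rw [X2, ← mul_div_assoc] at a
    exact (Nat.cast_le.2 this).trans a
  have off : ∀ p ∈ T, ∀ p' ∈ T, (2 * r ^ 13) ^ 2 * ((SS (RN r P) p p' h).card : ℝ) ≤
      16 * C * sgm h.natAbs * H + if p' = p then
        (if (p : ℤ) ∣ h then (2 * r ^ 13) ^ 2 * (55 * XX r / P) else 0) else 0 := by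
    intro p hp p' hp'
    have a := hT p hp
    have a' := hT p' hp'
    have pos : 0 ≤ 16 * C * sgm h.natAbs * H := by positivity
    by_cases q : p' = p
    · subst q
      have d := diag (RN r P) a.1.ne_zero h
      rw [if_pos rfl]
      split_ifs at d ⊢
      · nlinarith [mul_le_mul_of_nonneg_left (d.trans Rc) (sq_nonneg (2 * r ^ 13))]
      · nlinarith [mul_le_mul_of_nonneg_left d (sq_nonneg (2 * r ^ 13))]
    · rw [if_neg q, add_zero]
      have c := hS H HH p p' h (SS (RN r P) p p' h) a.1 a'.1 (Ne.symm q)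
        (by exact_mod_cast (show (5 : ℝ) ≤ p by linarith [a.2.1]))
        (by exact_mod_cast (show (5 : ℝ) ≤ p' by linarith [a'.2.1])) h0 fun x hx => by
          obtain ⟨m, m1, m2, m3⟩ := mem_filter.1 hx
          obtain ⟨n1, n2⟩ := mem_product.1 m
          have k1 := g.rn _ n1
          have k2 := g.rn _ n2
          refine ⟨m1, m2, H1.trans_le k1.1, H1.trans_le k2.1,
            by exact_mod_cast a'.2.2.trans_lt k1.2.1, by exact_mod_cast a.2.2.trans_lt k2.2.1, ?_, m3⟩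
          have k3 : (x.1 : ℝ) ≤ A2 r P := Nat.cast_le.2 (mem_Ioc.1 n1).2
          have k4 : 55 * X2 r P = P * H := by rw [hH, X2]; field_simp
          have k5 := mul_le_mul_of_nonneg_right a'.2.1.le Hp.le
          linarith [g.a2]
      have lg : 0 < Real.log H := by linarith
      rw [le_div_iff₀ (by positivity)] at c
      have c2 : (r ^ 13 / 2) ^ 2 ≤ Real.log H ^ 2 := pow_le_pow_left₀ (by positivity) Hg 2
      nlinarith [mul_le_mul_of_nonneg_left c2 (Nat.cast_nonneg (α := ℝ) (SS (RN r P) p p' h).card)]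
  have Tc : (T.card : ℝ) ≤ 2 * P * rh T := by
    rw [rh, mul_sum, card_eq_sum_ones]
    push_cast
    refine sum_le_sum fun p hp => ?_
    have a := hT p hp
    rw [mul_one_div, le_div_iff₀ (by linarith [a.2.1])]
    linarith [a.2.2]
  have fw := few (T := T) h0 hX fun p hp => ⟨(hT p hp).1, by linarith [(hT p hp).2.1]⟩
  have sm : ∑ p ∈ T, ∑ p' ∈ T, (16 * C * sgm h.natAbs * H + if p' = p then
      (if (p : ℤ) ∣ h then (2 * r ^ 13) ^ 2 * (55 * XX r / P) else 0) else 0) =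
      T.card * (T.card * (16 * C * sgm h.natAbs * H)) +
        (T.filter fun p : ℕ => (p : ℤ) ∣ h).card * ((2 * r ^ 13) ^ 2 * (55 * XX r / P)) := by
    simp only [sum_add_distrib, sum_const, nsmul_eq_mul]
    congr 1
    rw [← nsmul_eq_mul (card (T.filter _)), ← sum_const, sum_filter]
    exact sum_congr rfl fun p hp => by rw [sum_ite_eq' T p, if_pos hp]
  have tot := ex.trans ((sum_le_sum fun p hp => sum_le_sum fun p' hp' => off p hp p' hp').trans sm.le)
  have t1 : (T.card : ℝ) * (T.card * (16 * C * sgm h.natAbs * H)) ≤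
      3520 * C * (rh T ^ 2 * XX r * sgm h.natAbs) := by
    have a1 : (T.card : ℝ) * T.card ≤ 2 * P * rh T * (2 * P * rh T) :=
      mul_le_mul Tc Tc (Nat.cast_nonneg _) (by positivity)
    have a2 := mul_le_mul_of_nonneg_right a1 (by positivity : 0 ≤ 16 * C * sgm h.natAbs * H)
    have a3 : 2 * P * rh T * (2 * P * rh T) * (16 * C * sgm h.natAbs * H) =
        3520 * C * (rh T ^ 2 * XX r * sgm h.natAbs) := by rw [hH]; field_simp; norm_num
    linarith
  have t2 : r ^ 13 * ((2 * r ^ 13) ^ 2 * (55 * XX r / P)) ≤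
      14080 * (rh T ^ 2 * XX r * sgm h.natAbs) := by
    have a1 : r ^ 41 ≤ P := (pow_le_pow_right₀ r1 (by norm_num)).trans pr.p1
    have a2 : 1 ≤ rh T * (8 * r) := (div_le_iff₀ (by positivity)).1 pr.rho
    have a3 : 1 ≤ (rh T * (8 * r)) ^ 2 := one_le_pow₀ a2
    have a4 : r ^ 39 / P ≤ 64 * rh T ^ 2 := by
      rw [div_le_iff₀ P0]
      have b1 := mul_le_mul_of_nonneg_left a3 (by positivity : 0 ≤ r ^ 39)
      have b2 := mul_le_mul_of_nonneg_left a1 (by positivity : 0 ≤ 64 * rh T ^ 2)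
      have b3 : r ^ 39 * (rh T * (8 * r)) ^ 2 = 64 * rh T ^ 2 * r ^ 41 := by ring
      linarith
    have a5 : r ^ 13 * ((2 * r ^ 13) ^ 2 * (55 * XX r / P)) = 220 * XX r * (r ^ 39 / P) := by ring
    have a6 := mul_le_mul_of_nonneg_left a4 (by positivity : 0 ≤ 220 * XX r)
    have a7 := mul_le_mul_of_nonneg_left s1 (by positivity : 0 ≤ rh T ^ 2 * XX r)
    rw [a5]
    nlinarith
  have t3 := mul_le_mul_of_nonneg_right fw
    (by positivity : 0 ≤ (2 * r ^ 13) ^ 2 * (55 * XX r / P))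
  have fin : (3520 * C + 14080) * rh T ^ 2 * XX r * sgm h.natAbs =
      3520 * C * (rh T ^ 2 * XX r * sgm h.natAbs) + 14080 * (rh T ^ 2 * XX r * sgm h.natAbs) := by
    ring
  rw [fin, cor]
  linarith

end Pool.Agent.P.MP_42fc1a_nt.EK
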