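import Pool.Agent.P.MP_42fc1a_nt.EK.IfaceB

/-! Step CQ. -/

namespace Pool.Agent.P.MP_42fc1a_nt.EK

open Finset Real Filter Topology MeasureTheory
open Pool.Agent.P.MP_e86632_nt (ee nn ee_add norm_ee ee_neg ee_zero)
open Pool.Agent.P.MP_8be758_nt.Avg (gs red ft nsq gs_pos gs_le_one gs_neg gs_anti)
open Pool.Agent.P.MP_e94e4b_nt.PF (sgm)
open Pool.Agent.P.E2
open ArithmeticFunction (vonMangoldt moebius)
open DirichletCharacter (LFunction)
open scoped Classical

namespace CQx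

theorem card_red (q : ℕ) : (red q).card = q.totient := by
  rw [Nat.totient_eq_card_coprime, red]
  congr 1
  ext a
  simp only [mem_filter, Nat.coprime_comm]

theorem ee_pow (x : ℝ) (a : ℕ) : ee (a * x) = ee x ^ a := by
  induction a with
  | zero => simp
  | succ a ih => rw [pow_succ, ← ih, ← ee_add]; congr 1; push_cast; ring

theorem ee_ne_one {m l : ℕ} (hl : 0 < l) (h : ¬ l ∣ m) : ee ((m : ℝ) / l) ≠ 1 := by
  intro h1
  rw [ee, Complex.exp_eq_one_iff] at h1
  obtain ⟨n, hn⟩ := h1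
  have hl' : (l : ℝ) ≠ 0 := by positivity
  have h2 : ((2 * π * ((m : ℝ) / l) : ℝ) : ℂ) = ((2 * π * n : ℝ) : ℂ) := by
    apply mul_left_cancel₀ Complex.I_ne_zero
    rw [hn]; push_cast; ring
  have h3 : 2 * π * ((m : ℝ) / l) = 2 * π * n := by exact_mod_cast h2
  have h4 : (m : ℝ) / l = n := mul_left_cancel₀ (by positivity) h3
  have h5 : (m : ℝ) = l * n := by rw [← h4]; field_simp
  have h6 : (m : ℤ) = l * n := by exact_mod_cast h5
  exact h (Int.natCast_dvd_natCast.1 ⟨n, h6⟩)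

theorem orth {l : ℕ} (hl : 0 < l) (m : ℕ) :
    ∑ a ∈ range l, ee (m * ((a : ℝ) / l)) = if l ∣ m then (l : ℂ) else 0 := by
  have hl' : (l : ℝ) ≠ 0 := by positivity
  have e : ∀ a ∈ range l, ee (m * ((a : ℝ) / l)) = ee ((m : ℝ) / l) ^ a := by
    intro a _
    rw [← ee_pow]; congr 1; ring
  rw [sum_congr rfl e]
  split_ifs with h
  · obtain ⟨c, rfl⟩ := h
    have : ee (((l * c : ℕ) : ℝ) / l) = 1 := by
      rw [← Pool.Agent.P.MP_e86632_nt.ee_int (c : ℤ)]; congr 1; push_cast; field_simp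
    rw [this]; simp
  · rw [geom_sum_eq (ee_ne_one hl h), ← ee_pow]
    have : ee ((l : ℝ) * ((m : ℝ) / l)) = 1 := by
      rw [← Pool.Agent.P.MP_e86632_nt.ee_int (m : ℤ)]; congr 1; push_cast; field_simp
    rw [this]; simp

theorem ee_mod (m n Q : ℕ) (hQ : 0 < Q) :
    ee (m * (((n % Q : ℕ) : ℝ) / Q)) = ee (m * ((n : ℝ) / Q)) := by
  have hQ' : (Q : ℝ) ≠ 0 := by positivity
  rw [← Pool.Agent.P.MP_e86632_nt.ee_add_int _ ((m * (n / Q) : ℕ) : ℤ)]
  congr 1
  have h := Nat.mod_add_div n Q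
  have h2 : (n : ℝ) = ((n % Q : ℕ) : ℝ) + Q * ((n / Q : ℕ) : ℝ) := by exact_mod_cast h.symm
  rw [Int.cast_natCast, Nat.cast_mul]
  generalize ((n % Q : ℕ) : ℝ) = r at h2 ⊢
  generalize ((n / Q : ℕ) : ℝ) = s at h2 ⊢
  rw [h2]; field_simp

theorem eq_of_mod {q q' a b a' b' : ℕ} (hc : q.Coprime q') (ha : a < q) (hb : b < q)
    (h : a * q' + a' * q ≡ b * q' + b' * q [MOD q * q']) : a = b := by
  have h1 : a * q' + a' * q ≡ b * q' + b' * q [MOD q] := h.of_mul_right q'
  have h2 : a * q' ≡ b * q' [MOD q] := by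
    unfold Nat.ModEq at h1 ⊢
    simpa [Nat.add_mul_mod_self_right] using h1
  have h3 : a ≡ b [MOD q] := Nat.ModEq.cancel_right_of_coprime (by simpa using hc) h2
  exact Nat.ModEq.eq_of_lt_of_lt h3 ha hb

theorem mul {q q' : ℕ} (m : ℕ) (hq : 1 ≤ q) (hq' : 1 ≤ q') (hc : q.Coprime q') :
    cq (q * q') m = cq q m * cq q' m := by
  have hQ : 0 < q * q' := Nat.mul_pos hq hq'
  have hinj : Set.InjOn (fun x : ℕ × ℕ => (x.1 * q' + x.2 * q) % (q * q'))
      ↑(red q ×ˢ red q') := by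
    rintro ⟨a, a'⟩ hx ⟨b, b'⟩ hy h
    simp only [coe_product, Set.mem_prod, mem_coe, mem_red] at hx hy
    have h1 : a * q' + a' * q ≡ b * q' + b' * q [MOD q * q'] := h
    have h2 : a' * q + a * q' ≡ b' * q + b * q' [MOD q' * q] := by
      rw [mul_comm q' q, add_comm (a' * q), add_comm (b' * q)]; exact h1
    rw [eq_of_mod hc hx.1.1 hy.1.1 h1, eq_of_mod hc.symm hx.2.1 hy.2.1 h2]
  have hsub : (red q ×ˢ red q').image (fun x : ℕ × ℕ => (x.1 * q' + x.2 * q) % (q * q'))
      ⊆ red (q * q') := by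
    intro n hn
    obtain ⟨⟨a, a'⟩, hx, rfl⟩ := mem_image.1 hn
    simp only [mem_product, mem_red] at hx
    refine mem_red.2 ⟨Nat.mod_lt _ hQ, ?_⟩
    have h1 : (a * q' + a' * q).Coprime q := by
      rw [Nat.coprime_add_mul_right_left]
      exact Nat.Coprime.mul_left hx.1.2 hc.symm
    have h2 : (a * q' + a' * q).Coprime q' := by
      rw [add_comm, Nat.coprime_add_mul_right_left]
      exact Nat.Coprime.mul_left hx.2.2 hc
    have h3 := Nat.Coprime.mul_right h1 h2
    show Nat.gcd _ _ = 1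
    rw [← Nat.gcd_rec, Nat.gcd_comm]
    exact h3
  have heq := eq_of_subset_of_card_le hsub (by
    rw [card_image_of_injOn hinj, card_product, card_red, card_red, card_red, Nat.totient_mul hc])
  rw [cq, cq, cq, ← heq, sum_image hinj, sum_mul_sum, sum_product]
  refine sum_congr rfl fun a _ => sum_congr rfl fun a' _ => ?_
  have h1 : (q : ℝ) ≠ 0 := by positivity
  have h2 : (q' : ℝ) ≠ 0 := by positivity
  rw [ee_mod m _ _ hQ, ← ee_add]
  congr 1
  push_cast
  field_simp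

theorem prime (l m : ℕ) (hl : l.Prime) : cq l m = if l ∣ m then (l : ℂ) - 1 else -1 := by
  have h1 : red l = (range l).erase 0 := by
    ext a
    rw [mem_red, mem_erase, mem_range]
    constructor
    · rintro ⟨h1, h2⟩
      refine ⟨?_, h1⟩
      rintro rfl
      rw [Nat.coprime_zero_left] at h2
      exact hl.one_lt.ne' h2
    · rintro ⟨h1, h2⟩
      exact ⟨h2, (Nat.coprime_of_lt_prime h1 h2 hl).symm⟩
  have h2 := add_sum_erase (range l) (fun a : ℕ => ee (m * ((a : ℝ) / l)))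
    (mem_range.2 hl.pos)
  rw [orth hl.pos m] at h2
  simp only [Nat.cast_zero, zero_div, mul_zero, ee_zero] at h2
  rw [cq, h1, eq_sub_of_add_eq' h2]
  split_ifs <;> simp

theorem norm_cq (q m : ℕ) : ‖cq q m‖ ≤ q.totient := by
  rw [cq, ← card_red]
  refine (norm_sum_le _ _).trans ?_
  simp

end CQx

theorem p_CQ :
    S_CQ := by
  refine ⟨fun q q' m hq hq' hc => CQx.mul m hq hq' hc, CQx.prime, fun m => ?_,
    fun q m hq => ⟨abs_mf_le q, ?_⟩⟩
  · have : red 1 = {0} := by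
      ext a
      simp [mem_red]
    rw [cq, this]
    simp
  · have ht : (0 : ℝ) < q.totient := by exact_mod_cast Nat.totient_pos.2 hq
    have h1 : |(moebius q : ℝ)| ≤ 1 := by
      exact_mod_cast ArithmeticFunction.abs_moebius_le_one
    rw [norm_mul, Complex.norm_real, Real.norm_eq_abs, mf, abs_div, abs_of_pos ht]
    calc |(moebius q : ℝ)| / q.totient * ‖cq q m‖ ≤ 1 / q.totient * q.totient := by
          gcongr
          exact CQx.norm_cq q m
      _ = 1 := by field_simp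

end Pool.Agent.P.MP_42fc1a_nt.EK
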