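import Pool.Agent.P.MP_42fc1a_nt.EK.IfaceC
import Pool.Agent.P.MP_42fc1a_nt.EK.IfaceB
import Pool.Agent.P.MP_e94e4b_nt.E2.TCHX

/-! Step DLQ. -/

namespace Pool.Agent.P.MP_42fc1a_nt.EK

open Finset Real Filter Topology MeasureTheory
open Pool.Agent.P.MP_e86632_nt (ee nn ee_add norm_ee ee_neg ee_zero)
open Pool.Agent.P.MP_8be758_nt.Avg (gs red ft nsq gs_pos gs_le_one gs_neg gs_anti)
open Pool.Agent.P.MP_e94e4b_nt.PF (sgm)
open Pool.Agent.P.E2
open ArithmeticFunction (vonMangoldt moebius)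
open DirichletCharacter (LFunction)
open scoped Classical

namespace DLQx

theorem intsq (S : Finset ℕ) (b : ℕ → ℂ) (x : ℕ → ℝ) {a a' : ℝ} (ha : 0 < a) (ha' : 0 < a') :
    Integrable fun v : ℝ =>
      ‖∑ j ∈ S, b j * ((gk a (x j - v) - 1 * gk a' (x j - v) : ℝ) : ℂ)‖ ^ 2 := by
  have hi : Integrable fun v : ℝ =>
      ∑ j ∈ S, b j * ((gk a (x j - v) - 1 * gk a' (x j - v) : ℝ) : ℂ) :=
    integrable_finsetSum _ fun j _ =>
      (((gk_integrable' ha _).sub ((gk_integrable' ha' _).const_mul 1)).ofReal).const_mul _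
  refine (hi.norm.const_mul (∑ j ∈ S, ‖b j‖ * (1 / a + 1 / a'))).mono'
    (Continuous.aestronglyMeasurable (by fun_prop)) (Eventually.of_forall fun v => ?_)
  rw [Real.norm_of_nonneg (sq_nonneg _), pow_two]
  refine mul_le_mul_of_nonneg_right (norm_sum_le_of_le _ fun j _ => ?_) (norm_nonneg _)
  rw [norm_mul, Complex.norm_real, Real.norm_eq_abs, one_mul]
  refine mul_le_mul_of_nonneg_left (abs_le.2 ⟨?_, ?_⟩) (norm_nonneg _)
  · linarith [gk_nonneg ha (x j - v), gk_le ha' (x j - v), one_div_pos.2 ha]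
  · linarith [gk_nonneg ha' (x j - v), gk_le ha (x j - v), one_div_pos.2 ha']

theorem small {r X : ℝ} (hr : 1 ≤ r) (h : 4 * 220 ^ 2 * 256 * r ^ 26 ≤ Real.exp (7 * r)) :
    2 * (2 * Real.exp (4 * r)) * ((110 * X * (2 * r ^ 13)) ^ 2 *
      (π * (Th r * (2 * Real.exp (4 * r))) ^ 2) ^ 2) ≤ X ^ 2 / Real.exp r := by
  set E := Real.exp r with hE
  have e0 : 0 < E := Real.exp_pos r
  have e4 : Real.exp (4 * r) = E ^ 4 := by rw [hE, ← Real.exp_nat_mul]; norm_num
  have e8 : Real.exp (7 * r) = E ^ 7 := by rw [hE, ← Real.exp_nat_mul]; norm_num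
  have e7 : Th r = (E ^ 7)⁻¹ := by rw [Th, Real.exp_neg, hE, ← Real.exp_nat_mul]; norm_num
  have hp : π ^ 2 ≤ 16 := by nlinarith [Real.pi_lt_four, Real.pi_pos]
  rw [e8] at h
  rw [e4, e7, le_div_iff₀ (by positivity)]
  calc _ = X ^ 2 * (4 * 220 ^ 2 * 16 * π ^ 2 * r ^ 26 / E ^ 7) := by field_simp; ring
    _ ≤ X ^ 2 * 1 := by
        gcongr
        rw [div_le_one (by positivity)]
        refine le_trans ?_ h
        have : 0 ≤ r ^ 26 := by positivity
        nlinarith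
    _ = _ := mul_one _

end DLQx

theorem p_DLQ (hRNG : S_RNG) (hPL : S_PL) (hBW : S_BW) (hPSV : S_PSV) (hDPQ : S_DPQ) :
    S_DLQ := by
  obtain ⟨α, b, a0, a1, hDP⟩ := hDPQ
  refine ⟨α, b, a0, a1, ?_⟩
  filter_upwards [hRNG, hDP, hBW, eventually_ge_atTop 2,
    ev_pe (4 * 220 ^ 2 * 256) 26 (c := 7) (by norm_num)] with r hR hD hG hr2 hs
  intro P θ T q _ hp h1 h5 h3 h4
  have hr : 1 ≤ r := by linarith
  have h2 := hp.p2
  have hP : 1 ≤ P := (one_le_pow₀ hr).trans h1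
  have hX := XX_pos r
  have hq : (1 : ℝ) ≤ q := by exact_mod_cast Nat.pos_of_ne_zero (NeZero.ne q)
  have hθ : 0 < θ := (pos_iff_pos_of_mul_pos (lt_of_lt_of_le (by positivity) h3)).2 hX
  have hT : Th r ≤ 1 := Real.exp_le_one_iff.2 (by linarith)
  obtain ⟨-, g1, -, g2, -⟩ := hG P T hp
  have hR := hR P hP h2
  have hc : ((II r).card : ℝ) ≤ 110 * XX r := by
    refine le_trans ?_ (Nat.floor_le (by positivity))
    rw [II, Nat.card_Ioc]
    exact_mod_cast Nat.sub_le _ _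
  have h8 := hD P θ⁻¹ T q h1 h2 hp.sub ((one_le_inv₀ hθ).2 (h4.trans hT))
    (by rw [X2, ← div_eq_mul_inv, div_le_div_iff₀ hθ (by positivity)]; linarith) h5
  have h9 := DLQx.small (X := XX r) hr hs
  have main : ∀ χ : DirichletCharacter ℂ q, ∫ v in (r ^ 13 - 5)..(r ^ 13 + 5),
      ‖Zx r P T θ (ch χ) v - Zx r P T (Th r) (ch χ) v‖ ^ 2 ≤
      (∫ t in {t : ℝ | 2 * Real.exp (4 * r) ≤ |t|}, gs (t / θ⁻¹) * (‖dq T (ch χ) t‖ ^ 2 *
        ‖dq (RN r P) (fun n => (th n * ph r P n : ℝ) * ch χ n) t‖ ^ 2)) +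
        XX r ^ 2 / Real.exp r := fun χ => by
    have key : ∀ t, ∑ j ∈ II r, (bw r P T j : ℂ) * ch χ j * ee (-(t * Real.log j)) =
        dq T (ch χ) t * dq (RN r P) (fun n => (th n * ph r P n : ℝ) * ch χ n) t := fun t => by
      simp only [mul_assoc]
      rw [g2 fun j => ch χ j * ee (-(t * Real.log j)), dq, dq, sum_mul_sum]
      refine sum_congr rfl fun p hp' => sum_congr rfl fun n hn => ?_
      have := nit_mul t (hR.pp p (hp.sub hp')).1.ne_zero
        (Nat.zero_lt_of_lt (mem_Ioc.1 hn).1).ne'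
      rw [nit] at this
      rw [this, ch_mul]
      ring
    have hb : ∀ t, ‖∑ j ∈ II r, (bw r P T j : ℂ) * ch χ j * ee (-(t * Real.log j))‖ ≤
        110 * XX r * (2 * r ^ 13) := fun t => by
      refine (norm_dq_le (I := II r) (a := fun j => (bw r P T j : ℂ) * ch χ j) (B := 2 * r ^ 13)
        (fun n _ => ?_) t).trans (mul_le_mul_of_nonneg_right hc (by positivity))
      rw [norm_mul, Complex.norm_real, Real.norm_of_nonneg (g1 n).1]
      exact (mul_le_of_le_one_right (g1 n).1 (norm_ch_le χ n)).trans (g1 n).2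
    have h6 := hPL (II r) (fun m => (bw r P T m : ℂ) * ch χ m) (fun m => Real.log m) θ (Th r) 1 hθ
      (Th_pos r)
    have h7 := CHXa.split
      (F := fun t => ‖∑ j ∈ II r, (bw r P T j : ℂ) * ch χ j * ee (-(t * Real.log j))‖ ^ 2)
      (by fun_prop) (fun _ => sq_nonneg _) (fun t => pow_le_pow_left₀ (norm_nonneg _) (hb t) 2) hθ
      h4 (T := 2 * Real.exp (4 * r)) (by positivity)
    rw [← h6] at h7
    have e : ∀ v, Zx r P T θ (ch χ) v - Zx r P T (Th r) (ch χ) v =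
        ∑ j ∈ II r, (bw r P T j : ℂ) * ch χ j *
          ((gk θ (Real.log j - v) - 1 * gk (Th r) (Real.log j - v) : ℝ) : ℂ) := fun v => by
      rw [Zx, Zx, ← sum_sub_distrib]
      refine sum_congr rfl fun j _ => ?_
      push_cast
      ring
    simp only [e]
    rw [intervalIntegral.integral_of_le (by linarith)]
    refine (setIntegral_le_integral (DLQx.intsq _ _ _ hθ (Th_pos r))
      (Eventually.of_forall fun _ => sq_nonneg _)).trans (h7.trans ?_)
    refine add_le_add (le_of_eq ?_) h9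
    simp only [← mul_pow, ← norm_mul, ← key]
  refine (sum_le_sum fun χ _ => main χ).trans ?_
  rw [sum_add_distrib, sum_const, card_univ, (hPSV q).1, nsmul_eq_mul]
  have hPa : 0 < P ^ α := by positivity
  have k1 : P ^ α ≤ Real.exp (r / 16) := by
    refine (Real.rpow_le_rpow (by positivity) h2 a0.le).trans ?_
    rw [← Real.exp_mul]
    exact Real.exp_le_exp.2 (by nlinarith)
  have k2 : (q.totient : ℝ) ≤ Real.exp (r / 8) :=
    le_trans (by exact_mod_cast Nat.totient_le q) h5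
  have k3 : 2 * (Real.exp (r / 8) * Real.exp (r / 16)) ≤ Real.exp r := by
    have := Real.add_one_le_exp (13 * r / 16)
    rw [← Real.exp_add, show Real.exp r = Real.exp (13 * r / 16) * Real.exp (r / 8 + r / 16) by
      rw [← Real.exp_add]; congr 1; ring]
    exact mul_le_mul_of_nonneg_right (by linarith) (Real.exp_pos _).le
  have k4 : (q.totient : ℝ) * (XX r ^ 2 / Real.exp r) ≤ XX r ^ 2 / (2 * P ^ α) := by
    rw [mul_div_assoc', div_le_div_iff₀ (Real.exp_pos r) (by positivity)]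
    have : (q.totient : ℝ) * P ^ α ≤ Real.exp (r / 8) * Real.exp (r / 16) :=
      mul_le_mul k2 k1 hPa.le (Real.exp_pos _).le
    have h0 : 0 ≤ XX r ^ 2 := sq_nonneg _
    nlinarith [mul_le_mul_of_nonneg_left (show 2 * ((q.totient : ℝ) * P ^ α) ≤ Real.exp r by
      linarith) h0]
  have k5 : XX r ^ 2 / P ^ α = XX r ^ 2 / (2 * P ^ α) + XX r ^ 2 / (2 * P ^ α) := by
    field_simp; ring
  rw [k5]
  exact add_le_add h8 k4

end Pool.Agent.P.MP_42fc1a_nt.EK
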