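import Pool.Agent.P.MP_42fc1a_nt.EK.IfaceC
import Pool.Agent.P.MP_e94e4b_nt.E2.TDP

/-! Step DPQ. -/

namespace Pool.Agent.P.MP_42fc1a_nt.EK

open Finset Real Filter Topology MeasureTheory
open Pool.Agent.P.MP_e86632_nt (ee nn ee_add norm_ee ee_neg ee_zero)
open Pool.Agent.P.MP_8be758_nt.Avg (gs red ft nsq gs_pos gs_le_one gs_neg gs_anti)
open Pool.Agent.P.MP_e94e4b_nt.PF (sgm)
open Pool.Agent.P.E2
open ArithmeticFunction (vonMangoldt moebius)
open DirichletCharacter (LFunction)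
open scoped Classical

namespace DPQx

theorem ind {T S : Finset ℕ} (h : T ⊆ S) (a : ℕ → ℂ) :
    dq T a = dq S fun n => if n ∈ T then a n else 0 := by
  funext t
  simp only [dq, ite_mul, zero_mul]
  rw [← sum_filter, filter_mem_eq_inter, inter_eq_right.2 h]

theorem num {P X V W C R E F q N Z w : ℝ} (hW : 0 < W) (hE : 0 < E) (hF : 0 < F)
    (hR : 1 ≤ R) (hN : 0 ≤ N) (hZ : 0 ≤ Z * w) (s1 : V ^ 2 * (73920 * C * R ^ 2) * W ≤ P ^ 2)
    (h1 : N ≤ q) (h2 : q ≤ E ^ 2) (h3 : W ≤ E) (h4 : F * E ^ 4 = 1) (h5 : 580800 * R ^ 2 ≤ E)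
    (h6 : Z * w * E ^ 4 ≤ 1) :
    V ^ 2 * (C * (56 * X) * (55 * X * (2 * R) ^ 2)) + N * ((2 * P) ^ 2 * (X ^ 2 * F)) +
      N * ((2 * P * (55 * X * (2 * R))) ^ 2 * (2 * Z * w)) ≤ (P * X) ^ 2 / (2 * W) := by
  have h7 : N ≤ E ^ 2 := h1.trans h2
  have h8 : 24 ≤ E := by nlinarith
  have s2 : F * (24 * N * W) ≤ 1 := by
    calc _ ≤ F * (E * E ^ 2 * E) := by gcongr
      _ = 1 := by rw [← h4]; ring
  have s3 : Z * w * (580800 * R ^ 2 * N * W) ≤ 1 := by
    calc _ ≤ Z * w * (E * E ^ 2 * E) := by gcongr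
      _ = Z * w * E ^ 4 := by ring
      _ ≤ 1 := h6
  rw [le_div_iff₀ (by positivity)]
  have u1 := mul_le_mul_of_nonneg_left s1 (sq_nonneg X)
  have u2 := mul_le_mul_of_nonneg_left s2 (sq_nonneg (P * X))
  have u3 := mul_le_mul_of_nonneg_left s3 (sq_nonneg (P * X))
  linear_combination u1 / 3 + u2 / 3 + u3 / 3

end DPQx

theorem p_DPQ (hRNG : S_RNG) (hPH : S_PH) (hUM : S_UM) (hPU : S_PU) (hDPA : S_DPA) (hPSV : S_PSV) (hMVQ : S_MVQ) :
    S_DPQ := by
  obtain ⟨C, hC, hMV⟩ := hMVQ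
  obtain ⟨κ, hκ, hPU⟩ := hPU
  obtain ⟨α, b0, hα, hUM⟩ := hUM κ hκ
  refine ⟨min α (1 / 16), b0 + ⌈320 / α⌉₊, lt_min hα (by norm_num), min_le_right _ _, ?_⟩
  filter_upwards [hRNG, hPH, hPU, hUM, eventually_ge_atTop 1,
    ev_pp (73920 * C) one_pos (show 26 < 320 by omega), ev_pe 580800 26 (c := 1 / 16) (by norm_num)]
    with r hRNG hPH hPU hUM hr e1 e2 P Z T q _ p1 p2 hT z1 z2 hq
  have p3 : 1 ≤ P := (one_le_pow₀ hr).trans p1
  have g := hRNG P p3 p2
  have x0 : 0 < X2 r P := (Real.exp_pos _).trans_le g.x2l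
  have px : XX r = P * X2 r P := by rw [X2]; field_simp
  have q1 : (1 : ℝ) ≤ q := by exact_mod_cast NeZero.one_le
  have cd : ((RN r P).card : ℝ) ≤ 55 * X2 r P := by
    refine le_trans ?_ g.a2
    rw [RN, Nat.card_Ioc]
    exact_mod_cast Nat.sub_le _ _
  have c0 : ∀ n ∈ RN r P, ‖((th n * ph r P n : ℝ) : ℂ)‖ ≤ 2 * r ^ 13 := fun n hn => by
    obtain ⟨a1, a2, -⟩ := hPH P p3 p2 n
    rw [Complex.norm_real, Real.norm_of_nonneg (mul_nonneg (th_nonneg n) a1)]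
    calc _ ≤ 2 * r ^ 13 * 1 := by
          gcongr
          exact (th_le_log n).trans (g.rn n hn).2.2
      _ = _ := by ring
  have co : ∀ (χ : DirichletCharacter ℂ q), ∀ n ∈ RN r P,
      ‖((th n * ph r P n : ℝ) : ℂ) * ch χ n‖ ≤ 2 * r ^ 13 := fun χ n hn => by
    rw [norm_mul]
    exact (mul_le_of_le_one_right (norm_nonneg _) (norm_ch_le χ n)).trans (c0 n hn)
  have v1 := DPa.pw hr hα ((Nat.le_ceil _).trans (Nat.cast_le.2 (Nat.le_add_left _ b0))) p1
  have v0 : 0 ≤ P ^ (1 - α) := by positivity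
  have v2 : P ^ (1 - α) * P ^ min α (1 / 16) ≤ P := by
    rw [← Real.rpow_add (by linarith)]
    exact Real.rpow_le_self_of_one_le p3 (by linarith [min_le_left α (1 / 16)])
  have tc : (T.card : ℝ) ≤ 2 * P := (Nat.cast_le.2 (card_le_card hT)).trans g.ppc
  refine (sum_le_sum fun χ _ => (hDPA _ _ (2 * P) (55 * X2 r P * (2 * r ^ 13)) (P ^ (1 - α)) Z _
    (Real.exp (2 * r ^ 13)) (cont_dq _ _) (cont_dq _ _)
    (fun t => (norm_dq_le (fun n _ => norm_ch_le χ n) t).trans ((mul_one _).trans_le tc))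
    (fun t => (norm_dq_le (co χ) t).trans (by gcongr)) v0 (by linarith) (Real.exp_pos _).le).trans
      (add_le_add (add_le_add le_rfl (mul_le_mul_of_nonneg_left (hPU P q χ _ p3 p2
        (hq.trans (Real.exp_le_exp.2 (by linarith))) (DPa.us (cont_dq _ _) ?_)) (sq_nonneg _)))
        le_rfl)).trans ?_
  · rw [DPQx.ind hT]
    refine hUM P _ ((pow_le_pow_right₀ hr (Nat.le_add_right _ _)).trans p1) p2 fun p => ?_
    split_ifs
    exacts [norm_ch_le χ p, by simp]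
  have t1 := (hMV Z (55 * X2 r P) (RN r P) (fun n => (th n * ph r P n : ℝ)) q (by linarith)
    (by positivity) fun n hn => ⟨Nat.one_le_of_lt (mem_Ioc.1 hn).1,
      (Nat.cast_le.2 (mem_Ioc.1 hn).2).trans g.a2⟩).trans (mul_le_mul
      (mul_le_mul_of_nonneg_left (show _ ≤ 56 * X2 r P by linarith) hC.le)
      ((nsq_le c0).trans (mul_le_mul_of_nonneg_right cd (sq_nonneg _)))
      (sum_nonneg fun _ _ => sq_nonneg _) (by positivity))
  have t3 := DPa.tail z1 (((le_mul_of_one_le_left (by linarith) q1).trans z2).trans g.x2u)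
    (le_self_pow₀ hr (by omega) : r ≤ r ^ 13)
  rw [sum_add_distrib, sum_add_distrib, ← mul_sum, sum_const, sum_const, card_univ, (hPSV q).1,
    nsmul_eq_mul, nsmul_eq_mul, px]
  refine (add_le_add (add_le_add (mul_le_mul_of_nonneg_left t1 (sq_nonneg _)) le_rfl) le_rfl).trans
    (DPQx.num (E := Real.exp (1 / 16 * r)) (by positivity) (Real.exp_pos _) (Real.exp_pos _)
      (one_le_pow₀ hr) (Nat.cast_nonneg _) (by positivity) ?_ (Nat.cast_le.2 (Nat.totient_le q))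
      ?_ ?_ ?_ ?_ ?_)
  · have e3 : 73920 * C * (r ^ 13) ^ 2 ≤ r ^ 320 := by linarith [show (r ^ 13) ^ 2 = r ^ 26 by ring]
    calc _ ≤ (P ^ (1 - α)) ^ 2 * r ^ 320 * P ^ min α (1 / 16) := by gcongr
      _ = (P ^ (1 - α) * r ^ 320) * (P ^ (1 - α) * P ^ min α (1 / 16)) := by ring
      _ ≤ P * P := by gcongr
      _ = _ := by ring
  · rw [← Real.exp_nat_mul]
    exact hq.trans_eq (by congr 1; push_cast; ring)
  · rw [mul_comm, Real.exp_mul]
    exact (Real.rpow_le_rpow_of_exponent_le p3 (min_le_right _ _)).trans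
      (Real.rpow_le_rpow (by linarith) p2 (by norm_num))
  · rw [← Real.exp_nat_mul, ← Real.exp_add, Real.exp_eq_one_iff]
    push_cast; ring
  · exact (le_of_eq (by ring)).trans e2
  · refine le_trans ?_ t3
    rw [← Real.exp_nat_mul]
    gcongr
    push_cast
    linarith

end Pool.Agent.P.MP_42fc1a_nt.EK
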