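import Pool.Agent.P.MP_42fc1a_nt.EK.IfaceE

/-! Step DYA. -/

namespace Pool.Agent.P.MP_42fc1a_nt.EK

open Finset Real Filter Topology MeasureTheory
open Pool.Agent.P.MP_e86632_nt (ee nn ee_add norm_ee ee_neg ee_zero)
open Pool.Agent.P.MP_8be758_nt.Avg (gs red ft nsq gs_pos gs_le_one gs_neg gs_anti)
open Pool.Agent.P.MP_e94e4b_nt.PF (sgm)
open Pool.Agent.P.E2
open ArithmeticFunction (vonMangoldt moebius)
open DirichletCharacter (LFunction)
open scoped Classical

namespace DYAx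

theorem cop (W : ℕ) (hW : W ≠ 0) (σ : ℕ) (t : ℤ)
    (h : ∀ p : ℕ, p.Prime → p ∣ W → W ≠ 0 → ((σ : ℕ) : ZMod p) ≠ t) :
    IsCoprime (t - σ) (W : ℤ) := by
  rw [Int.isCoprime_iff_gcd_eq_one]
  by_contra hg
  obtain ⟨p, hp, hpd⟩ := Nat.exists_prime_and_dvd hg
  have h1 : (p : ℤ) ∣ t - σ := (Int.natCast_dvd_natCast.2 hpd).trans (Int.gcd_dvd_left _ _)
  have h2 : (p : ℤ) ∣ (W : ℤ) := (Int.natCast_dvd_natCast.2 hpd).trans (Int.gcd_dvd_right _ _)
  refine h p hp (Int.natCast_dvd_natCast.1 h2) hW ?_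
  have h3 := (ZMod.intCast_zmod_eq_zero_iff_dvd _ p).2 h1
  push_cast at h3
  exact (sub_eq_zero.1 h3).symm

theorem tend : Tendsto (fun x : ℝ => Real.log x ^ ((1 : ℝ) / 13)) atTop atTop :=
  (tendsto_rpow_atTop (by norm_num)).comp Real.tendsto_log_atTop

theorem pw {x : ℝ} (hx : 1 ≤ x) : (Real.log x ^ ((1 : ℝ) / 13)) ^ 13 = Real.log x := by
  have h0 := Real.log_nonneg hx
  rw [← Real.rpow_natCast, ← Real.rpow_mul h0]
  norm_num

end DYAx

theorem p_DYA (hLOC : S_LOC) (hMAINC : S_MAINC) :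
    S_DYA := by
  obtain ⟨k, hk⟩ := hLOC
  refine ⟨k + 3, fun ε hε => ?_⟩
  obtain ⟨M, hM, A, hA⟩ := hMAINC ε hε
  have hW : WW M ≠ 0 := by
    have : 2 ^ 2 ≤ 2 ^ M := Nat.pow_le_pow_right (by norm_num) hM
    unfold WW
    omega
  choose pows hc hp using fun n0 : ℕ => hk (WW M) ((n0 : ℤ) - 3 * 2 ^ M)
  refine ⟨A + 1, ?_⟩
  have hall := (eventually_all_finset (range (WW M))).2
    fun n0 _ => hA ((pows n0).map (2 ^ ·)).sum
  filter_upwards [DYAx.tend.eventually hall, DYAx.tend.eventually_ge_atTop 2,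
    eventually_ge_atTop (1 : ℝ)] with x hx hr h1
  set r := Real.log x ^ ((1 : ℝ) / 13) with hrd
  have hr13 : r ^ 13 = Real.log x := DYAx.pw h1
  have hX : XX r = x := by
    unfold XX
    rw [hr13, Real.exp_log (by linarith)]
  intro S hS
  have hfib : S.card = ∑ c ∈ range (WW M), (S.filter fun n => n % WW M = c).card :=
    card_eq_sum_card_fiberwise fun n _ => by
      simpa using Nat.mod_lt n (Nat.pos_of_ne_zero hW)
  have hb : ∀ c ∈ range (WW M),
      ((S.filter fun n => n % WW M = c).card : ℝ) ≤ ε * x / WW M := by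
    intro c hcm
    have := hx c hcm c (S.filter fun n => n % WW M = c) ?_ ?_
    · rwa [hX] at this
    · have h5 := DYAx.cop (WW M) hW _ _ (hp c)
      have h6 : (c : ℤ) - 3 * 2 ^ M - (((pows c).map (2 ^ ·)).sum : ℕ) =
          (c : ℤ) - (((pows c).map (2 ^ ·)).sum : ℕ) - 3 * 2 ^ M := by ring
      rwa [h6] at h5
    · intro n hn
      obtain ⟨hn1, hn2⟩ := mem_filter.1 hn
      obtain ⟨a1, a2, a3⟩ := hS n hn1
      rw [hX]
      refine ⟨a1, a2, ?_, fun p₁ p₂ a a' s q1 q2 q3 he => a3 ?_⟩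
      · unfold Nat.ModEq
        rw [hn2, Nat.mod_eq_of_lt (mem_range.1 hcm)]
      · refine ⟨p₁, p₂, a ::ₘ a' ::ₘ s ::ₘ pows c, q1, q2, ?_, ?_, ?_⟩
        · have := hc c
          simp only [Multiset.card_cons]
          omega
        · have l1 : Real.log x ≤ Real.log n := Real.log_le_log (by linarith) a1.le
          have l2 : r ≤ r ^ 13 := le_self_pow₀ (by linarith) (by norm_num)
          have l3 : r ≤ Real.log n := by linarith
          have l4 : r ^ (A + 1) ≤ Real.log n ^ (A + 1) := pow_le_pow_left₀ (by linarith) l3 _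
          have l5 : 0 ≤ r ^ A := by positivity
          have l6 : 2 * r ^ A ≤ r ^ (A + 1) := by
            rw [pow_succ]
            nlinarith
          linarith
        · simp only [Multiset.map_cons, Multiset.sum_cons]
          omega
  have hWr : (0 : ℝ) < WW M := by exact_mod_cast Nat.pos_of_ne_zero hW
  calc (S.card : ℝ) = ∑ c ∈ range (WW M), ((S.filter fun n => n % WW M = c).card : ℝ) := by
        rw [hfib]; push_cast; rfl
    _ ≤ ∑ _c ∈ range (WW M), ε * x / WW M := sum_le_sum hb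
    _ = ε * x := by
        rw [sum_const, card_range, nsmul_eq_mul]
        field_simp

end Pool.Agent.P.MP_42fc1a_nt.EK
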