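import Pool.Agent.P.MP_42fc1a_nt.EK.IfaceB

/-! Step DYS. -/

namespace Pool.Agent.P.MP_42fc1a_nt.EK

open Finset Real Filter Topology MeasureTheory
open Pool.Agent.P.MP_e86632_nt (ee nn ee_add norm_ee ee_neg ee_zero)
open Pool.Agent.P.MP_8be758_nt.Avg (gs red ft nsq gs_pos gs_le_one gs_neg gs_anti)
open Pool.Agent.P.MP_e94e4b_nt.PF (sgm)
open Pool.Agent.P.E2
open ArithmeticFunction (vonMangoldt moebius)
open DirichletCharacter (LFunction)
open scoped Classical

theorem p_DYS :
    S_DYS := by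
  intro D f o E s h1 h2 h3
  have hmap : ∀ q ∈ D, Nat.log 2 (o q) ∈ range (D.sup (fun q => Nat.log 2 (o q)) + 1) :=
    fun q hq => mem_range.2 (Nat.lt_succ_of_le (le_sup (f := fun q => Nat.log 2 (o q)) hq))
  rw [← sum_fiberwise_of_maps_to hmap]
  refine le_trans (sum_le_sum fun t _ => ?_) (h3 _)
  calc ∑ q ∈ D.filter (fun q => Nat.log 2 (o q) = t), f q / o q
      ≤ ∑ q ∈ D.filter (fun q => Nat.log 2 (o q) = t), f q / 2 ^ t := by
        refine sum_le_sum fun q hq => ?_
        obtain ⟨hq, e⟩ := mem_filter.1 hq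
        have h4 : 2 ^ t ≤ o q := by
          rw [← e]; exact Nat.pow_log_le_self 2 (by have := (h1 q hq).2; omega)
        exact div_le_div_of_nonneg_left (h1 q hq).1 (by positivity) (by exact_mod_cast h4)
    _ ≤ ∑ q ∈ D.filter (fun q => o q < 2 ^ (t + 1)), f q / 2 ^ t := by
        refine sum_le_sum_of_subset_of_nonneg (fun q hq => ?_) fun q hq _ =>
          div_nonneg (h1 q (mem_filter.1 hq).1).1 (by positivity)
        obtain ⟨hq, e⟩ := mem_filter.1 hq
        refine mem_filter.2 ⟨hq, ?_⟩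
        rw [← e]; exact Nat.lt_pow_succ_log_self one_lt_two _
    _ ≤ E t / 2 ^ t := by
        rw [← sum_div]
        exact div_le_div_of_nonneg_right (h2 t) (by positivity)

end Pool.Agent.P.MP_42fc1a_nt.EK
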