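import Pool.Agent.P.MP_42fc1a_nt.EK.IfaceB

/-! Step E1A. -/

namespace Pool.Agent.P.MP_42fc1a_nt.EK

open Finset Real Filter Topology MeasureTheory
open Pool.Agent.P.MP_e86632_nt (ee nn ee_add norm_ee ee_neg ee_zero)
open Pool.Agent.P.MP_8be758_nt.Avg (gs red ft nsq gs_pos gs_le_one gs_neg gs_anti)
open Pool.Agent.P.MP_e94e4b_nt.PF (sgm)
open Pool.Agent.P.E2
open ArithmeticFunction (vonMangoldt moebius)
open DirichletCharacter (LFunction)
open scoped Classical

namespace E1Ax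

theorem orth (h : ℤ) : ∫ α in (0 : ℝ)..1, ee (h * α) = if h = 0 then 1 else 0 := by
  split_ifs with h0
  · simp [h0]
  have hc : (Complex.I * (2 * π * h) : ℂ) ≠ 0 :=
    mul_ne_zero Complex.I_ne_zero (mul_ne_zero (mul_ne_zero two_ne_zero
      (Complex.ofReal_ne_zero.2 Real.pi_ne_zero)) (by exact_mod_cast h0))
  have e : ∀ x : ℝ, ee (h * x) = Complex.exp (Complex.I * (2 * π * h) * x) := fun x => by
    unfold ee; congr 1; push_cast; ring
  simp only [e]
  rw [integral_exp_mul_complex hc, ← e, ← e, mul_one, mul_zero, ee_zero,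
    Pool.Agent.P.MP_e86632_nt.ee_int, sub_self, zero_div]

theorem pars {ι : Type} (S : Finset ι) (c : ι → ℝ) (h : ι → ℤ) :
    ∫ α in (0 : ℝ)..1, ‖∑ i ∈ S, (c i : ℂ) * ee (h i * α)‖ ^ 2 =
      ∑ i ∈ S, ∑ j ∈ S, if h i = h j then c i * c j else 0 := by
  apply Complex.ofReal_injective
  rw [← intervalIntegral.integral_ofReal]
  have e : ∀ α : ℝ, ((‖∑ i ∈ S, (c i : ℂ) * ee (h i * α)‖ ^ 2 : ℝ) : ℂ) = ∑ x ∈ S ×ˢ S,
      ((c x.1 * c x.2 : ℝ) : ℂ) * ee (((h x.1 - h x.2 : ℤ) : ℝ) * α) := fun α => by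
    rw [← Complex.normSq_eq_norm_sq, ← Complex.mul_conj, map_sum, sum_mul_sum, sum_product]
    refine sum_congr rfl fun n _ => sum_congr rfl fun m _ => ?_
    rw [map_mul, ← ee_neg, Complex.conj_ofReal, show ((h n - h m : ℤ) : ℝ) * α =
      h n * α + -(h m * α) by push_cast; ring, ee_add]
    push_cast
    ring
  simp only [e]
  rw [intervalIntegral.integral_finsetSum fun i _ =>
    Continuous.intervalIntegrable (by fun_prop) _ _, sum_product, Complex.ofReal_sum]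
  refine sum_congr rfl fun i _ => ?_
  rw [Complex.ofReal_sum]
  refine sum_congr rfl fun j _ => ?_
  rw [intervalIntegral.integral_const_mul, orth]
  simp only [sub_eq_zero]
  split_ifs <;> simp

end E1Ax

open E1Ax in
theorem p_E1A :
    S_E1A := by
  intro r P T M L
  have e : ∀ α : ℝ, ‖ft (II r) (fun m => (bw r P T m : ℂ)) α‖ ^ 2 * ‖Gn M L α‖ ^ 4 =
      ‖∑ x ∈ Icc 1 L ×ˢ Icc 1 L ×ˢ II r, (bw r P T x.2.2 : ℂ) *
        ee (((2 ^ (M * x.1) + 2 ^ (M * x.2.1) + x.2.2 : ℤ) : ℝ) * α)‖ ^ 2 / (L : ℝ) ^ 4 := by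
    intro α
    have : ∑ x ∈ Icc 1 L ×ˢ Icc 1 L ×ˢ II r, (bw r P T x.2.2 : ℂ) *
        ee (((2 ^ (M * x.1) + 2 ^ (M * x.2.1) + x.2.2 : ℤ) : ℝ) * α) =
        Gw M (fun _ => 1) (Icc 1 L) α * (Gw M (fun _ => 1) (Icc 1 L) α *
          ft (II r) (fun m => (bw r P T m : ℂ)) α) := by
      rw [ft, Gw, sum_mul_sum, sum_mul, sum_product]
      refine sum_congr rfl fun a _ => ?_
      rw [mul_sum, sum_product]
      refine sum_congr rfl fun b _ => ?_
      rw [mul_sum]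
      refine sum_congr rfl fun m _ => ?_
      rw [show (((2 ^ (M * (a, b, m).1) + 2 ^ (M * (a, b, m).2.1) + (a, b, m).2.2 : ℤ) : ℝ) * α) =
        2 ^ (M * a) * α + (2 ^ (M * b) * α + m * α) by push_cast; ring, ee_add, ee_add]
      ring
    rw [this, Gn, norm_div, norm_mul, norm_mul, Complex.norm_natCast]
    ring
  simp only [e]
  rw [intervalIntegral.integral_div, pars (c := fun x : ℕ × ℕ × ℕ => bw r P T x.2.2)
    (h := fun x : ℕ × ℕ × ℕ => 2 ^ (M * x.1) + 2 ^ (M * x.2.1) + x.2.2)]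
  congr 1
  simp only [sum_product]
  refine sum_congr rfl fun a _ => sum_congr rfl fun b _ => ?_
  rw [sum_comm]
  refine sum_congr rfl fun c _ => ?_
  rw [sum_comm]
  refine sum_congr rfl fun d _ => ?_
  unfold cor h4
  refine sum_congr rfl fun m _ => sum_congr rfl fun m' _ => if_congr ?_ rfl rfl
  constructor <;> intro k <;> linarith

end Pool.Agent.P.MP_42fc1a_nt.EK
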