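import Pool.Agent.P.MP_42fc1a_nt.EK.IfaceE
import Pool.Agent.P.MP_42fc1a_nt.EK.IfaceB

/-! Step E2. -/

namespace Pool.Agent.P.MP_42fc1a_nt.EK

open Finset Real Filter Topology MeasureTheory
open Pool.Agent.P.MP_e86632_nt (ee nn ee_add norm_ee ee_neg ee_zero)
open Pool.Agent.P.MP_8be758_nt.Avg (gs red ft nsq gs_pos gs_le_one gs_neg gs_anti)
open Pool.Agent.P.MP_e94e4b_nt.PF (sgm)
open Pool.Agent.P.E2
open ArithmeticFunction (vonMangoldt moebius)
open DirichletCharacter (LFunction)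
open scoped Classical

namespace E2x

end E2x

theorem p_E2 (hRNG : S_RNG) (hPH : S_PH) (hBW : S_BW) (hBIL : S_BIL) (hSTR : S_STR) :
    S_E2 := by
  unfold S_E2
  filter_upwards [hRNG, hPH, hBW, eventually_ge_atTop (3 : ℝ)] with r hR hP hB hr
  intro P lam T A M L J σ W Q0 w hPr hN
  have hr1 : (1 : ℝ) ≤ r := by linarith
  have hr0 : (0 : ℝ) < r := by linarith
  have hP1 : 1 ≤ P := le_trans (one_le_pow₀ hr1) hPr.p1
  have hP0 : 0 < P := by linarith
  have hRg := hR P hP1 hPr.p2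
  have hph := hP P hP1 hPr.p2
  obtain ⟨-, -, -, hB4, -⟩ := hB P T hPr
  obtain ⟨hS1, hS2, hS3⟩ := hSTR
  obtain ⟨hGc, -, hGp⟩ := hS2 M J
  obtain ⟨hpc, -, hpb, -, hpi⟩ := hS3 M L J σ A
  obtain ⟨hSm, hSp⟩ := hS1 W Q0 w P
  set U : Set ℝ := {x | lam ≤ ‖Gn M J x‖} \ Str W Q0 w P with hU
  set a : ℕ → ℂ := fun n => ((th n * ph r P n : ℝ) : ℂ) with ha
  have hft : ∀ x : ℝ, ft (II r) (fun m => (bw r P T m : ℂ)) x =
      ∑ p ∈ T, ft (RN r P) a (p * x) := by
    intro x
    unfold ft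
    rw [hB4 (fun m => ee (m * x))]
    refine sum_congr rfl fun p _ => sum_congr rfl fun n _ => ?_
    simp only [ha]
    congr 2
    push_cast
    ring
  have hUm : MeasurableSet U :=
    (isClosed_le continuous_const hGc.norm).measurableSet.diff hSm
  have hUp : ∀ x, x + 1 ∈ U ↔ x ∈ U := by
    intro x
    simp only [hU, Set.mem_sdiff, Set.mem_ofPred_eq, hGp, hSp]
  have hNx : (0 : ℝ) ≤ P ^ 2 / r ^ 35 := by positivity
  have hcnt : ∀ α ∈ U, ∑ v ∈ T, ∑ p ∈ T,
      (((range p).filter fun j : ℕ => (v * α + j) / p ∈ U).card : ℝ) ≤ P ^ 2 / r ^ 35 := by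
    intro α hα
    refine le_trans ?_ (hN α hα.2)
    refine sum_le_sum fun v _ => sum_le_sum fun p _ => ?_
    unfold nb
    exact_mod_cast card_le_card (fun j hj => by
      rw [mem_filter] at hj ⊢
      exact ⟨hj.1, hj.2.1⟩)
  have hbil := hBIL T (RN r P) a (ps M L J σ A) U P (P ^ 2 / r ^ 35) A.card hP1
    (fun p hp => (hRg.pp p (hPr.sub hp)).2.1.le) hpc hpb hUm hUp hNx
    (fun α hα => by convert hcnt α hα)
  simp only [hft]
  refine hbil.trans ?_
  have hX : 0 < XX r := Real.exp_pos _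
  have hnsq : nsq (RN r P) a ≤ 55 * (XX r / P) * (2 * r ^ 13) ^ 2 := by
    unfold nsq
    have h1 : ∀ n ∈ RN r P, ‖a n‖ ^ 2 ≤ (2 * r ^ 13) ^ 2 := by
      intro n hn
      have hl := (hRg.rn n hn).2.2
      have ht0 : 0 ≤ th n := by
        unfold th; split_ifs
        · exact Real.log_natCast_nonneg n
        · exact le_rfl
      have ht1 : th n ≤ 2 * r ^ 13 := by
        unfold th; split_ifs
        · exact hl
        · positivity
      have hp0 := (hph n).1
      have hp1 := (hph n).2.1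
      simp only [ha, Complex.norm_real, Real.norm_eq_abs]
      rw [abs_of_nonneg (mul_nonneg ht0 hp0)]
      refine pow_le_pow_left₀ (mul_nonneg ht0 hp0) ?_ 2
      nlinarith
    refine (sum_le_card_nsmul _ _ _ h1).trans ?_
    rw [nsmul_eq_mul]
    refine mul_le_mul_of_nonneg_right ?_ (by positivity)
    have hc : (RN r P).card ≤ A2 r P := by
      unfold RN; rw [Nat.card_Ioc]; omega
    have hc' : ((RN r P).card : ℝ) ≤ A2 r P := by exact_mod_cast hc
    exact hc'.trans hRg.a2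
  have hA : (0 : ℝ) ≤ A.card := Nat.cast_nonneg _
  have hI0 : 0 ≤ ∫ x in (0 : ℝ)..1, ‖ps M L J σ A x‖ ^ 2 :=
    intervalIntegral.integral_nonneg zero_le_one fun x _ => by positivity
  have hq : 0 ≤ P ^ 2 / r ^ 35 / P := by positivity
  calc nsq (RN r P) a * (P ^ 2 / r ^ 35 / P) * ∫ x in (0 : ℝ)..1, ‖ps M L J σ A x‖ ^ 2
      ≤ 55 * (XX r / P) * (2 * r ^ 13) ^ 2 * (P ^ 2 / r ^ 35 / P) * A.card := by
        refine mul_le_mul (mul_le_mul_of_nonneg_right hnsq hq) hpi hI0 (by positivity)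
    _ = A.card * (XX r / r ^ 4 * (220 / r ^ 5)) := by
        field_simp
        ring
    _ ≤ A.card * (XX r / r ^ 4) := by
        refine mul_le_mul_of_nonneg_left ?_ hA
        refine mul_le_of_le_one_right (by positivity) ?_
        rw [div_le_one (by positivity)]
        have h3 : (3 : ℝ) ^ 5 ≤ r ^ 5 := pow_le_pow_left₀ (by norm_num) hr 5
        norm_num at h3
        linarith

end Pool.Agent.P.MP_42fc1a_nt.EK
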