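import Pool.Agent.P.MP_42fc1a_nt.EK.IfaceB

/-! Step E4. -/

namespace Pool.Agent.P.MP_42fc1a_nt.EK

open Finset Real Filter Topology MeasureTheory
open Pool.Agent.P.MP_e86632_nt (ee nn ee_add norm_ee ee_neg ee_zero)
open Pool.Agent.P.MP_8be758_nt.Avg (gs red ft nsq gs_pos gs_le_one gs_neg gs_anti)
open Pool.Agent.P.MP_e94e4b_nt.PF (sgm)
open Pool.Agent.P.E2
open ArithmeticFunction (vonMangoldt moebius)
open DirichletCharacter (LFunction)
open scoped Classical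

namespace E4x

theorem nn_mul (W d a a' : ℕ) (hW : 1 ≤ W) (hd : 1 ≤ d) (α : ℝ) :
    nn (((W * d * 2 ^ 0 : ℕ) : ℝ) * α) ≤ W * d * nn (α + ((a : ℝ) / W + (a' : ℝ) / d)) := by
  have hW' : (0 : ℝ) < W := by exact_mod_cast hW
  have hd' : (0 : ℝ) < d := by exact_mod_cast hd
  set k : ℤ := round (α + ((a : ℝ) / W + (a' : ℝ) / d)) with hk
  refine (Pool.Agent.P.MP_e86632_nt.nn_le _ (W * d * k - (a * d + a' * W))).trans (le_of_eq ?_)
  unfold nn
  rw [← hk, ← abs_of_pos (mul_pos hW' hd'), ← abs_mul]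
  congr 1
  push_cast
  field_simp
  ring

end E4x

theorem p_E4 (hTL : S_TL) :
    S_E4 := by
  intro A
  filter_upwards [hTL, ev_pe1 100 (5 * A + 13), eventually_ge_atTop 1] with r h1 h2 hr
  intro P T W Q0 w α hP hA hW hWQ hα
  have hP1 : 1 ≤ P := (one_le_pow₀ hr).trans hP.p1
  have hP0 : 0 < P := by linarith
  have hδ : (0 : ℝ) < 1 / P ^ 3 := by positivity
  have key := h1 P T (QS W Q0) W Q0 α (1 / P ^ 3) hP hW subset_rfl hδ (by
    intro d hd a _ a' _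
    by_contra hlt
    rw [not_le] at hlt
    have hd' := mem_Icc.1 (mem_filter.1 hd).1
    refine hα ⟨0, Nat.zero_le _, d, hd'.1, hd'.2, ?_⟩
    refine (E4x.nn_mul W d a a' hW hd'.1 α).trans ?_
    rw [div_eq_mul_one_div ((W : ℝ) * d)]
    exact mul_le_mul_of_nonneg_left hlt.le (by positivity))
  refine key.trans (le_trans ?_ h2)
  have e1 : (W : ℝ) ^ 2 * (Q0 : ℝ) ^ 2 ≤ P ^ 2 := by
    rw [← mul_pow]; exact pow_le_pow_left₀ (by positivity) hWQ 2
  have e2 : P ^ 5 ≤ r ^ (5 * A) := by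
    rw [mul_comm, pow_mul]; exact pow_le_pow_left₀ hP0.le hA 5
  have r0 : 0 < r := by linarith
  calc (W : ℝ) ^ 2 * (Q0 : ℝ) ^ 2 * (100 * r ^ 13 / (1 / P ^ 3))
      ≤ P ^ 2 * (100 * r ^ 13 / (1 / P ^ 3)) := mul_le_mul_of_nonneg_right e1 (by positivity)
    _ = 100 * (P ^ 5 * r ^ 13) := by field_simp
    _ ≤ 100 * (r ^ (5 * A) * r ^ 13) := by gcongr
    _ = 100 * r ^ (5 * A + 13) := by rw [pow_add]

end Pool.Agent.P.MP_42fc1a_nt.EK
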