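import Pool.Agent.P.MP_42fc1a_nt.EK.IfaceB

/-! Step E5. -/

namespace Pool.Agent.P.MP_42fc1a_nt.EK

open Finset Real Filter Topology MeasureTheory
open Pool.Agent.P.MP_e86632_nt (ee nn ee_add norm_ee ee_neg ee_zero)
open Pool.Agent.P.MP_8be758_nt.Avg (gs red ft nsq gs_pos gs_le_one gs_neg gs_anti)
open Pool.Agent.P.MP_e94e4b_nt.PF (sgm)
open Pool.Agent.P.E2
open ArithmeticFunction (vonMangoldt moebius)
open DirichletCharacter (LFunction)
open scoped Classical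

namespace E5x

theorem av_re (M L J σ : ℕ) (A : Finset ℕ) (f : ℕ → ℂ) : (av M L J σ A f).re =
    (∑ n ∈ A, ∑ a ∈ Icc 1 L, ∑ a' ∈ Icc 1 L, ∑ s ∈ Icc 1 J,
      (f (n - (σ + 2 ^ (M * a) + 2 ^ (M * a') + 2 ^ (M * s)))).re) / ((L : ℝ) ^ 2 * J) := by
  rw [av, show ((L : ℂ) ^ 2 * J) = (((L : ℝ) ^ 2 * J : ℝ) : ℂ) by push_cast; rfl,
    Complex.div_ofReal_re]
  simp only [Complex.re_sum]

theorem pw {M s : ℕ} (hM : 2 ≤ M) (hs : 1 ≤ s) :
    ((WW M : ℕ) : ℤ) ∣ 2 ^ (M * s) - 2 ^ M := by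
  obtain ⟨s, rfl⟩ := Nat.exists_eq_add_of_le hs
  obtain ⟨N, rfl⟩ := Nat.exists_eq_add_of_le (show 1 ≤ M by omega)
  obtain ⟨c, hc⟩ := sub_dvd_pow_sub_pow ((2 : ℤ) ^ (1 + N)) 1 s
  refine ⟨2 ^ N * c, ?_⟩
  rw [WW, Nat.cast_mul, Nat.cast_sub Nat.one_le_two_pow, mul_add, mul_one, pow_add, pow_mul]
  push_cast
  rw [one_pow] at hc
  linear_combination (2 ^ (1 + N)) * hc

end E5x

theorem p_E5 (hCQ : S_CQ) (hBW : S_BW) (hOM : S_OM) (hTT : S_TT) (hSHF : S_SHF) :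
    S_E5 := by
  intro M σ η hM hη hτ
  filter_upwards [hOM, hTT M σ η hM hη hτ, hSHF M σ hM, eventually_ge_atTop (2 : ℝ)] with r om1 tt
    shf hr P T Q0 J n0 A hP hQ hQ' hJ hJ' hc hA h0
  obtain ⟨o1, -, o2, -⟩ := om1 P T hP
  have t1 := tt Q0 J n0 A hQ' hJ hJ' hA
  set L := LL r M
  set W := WW M with hW
  set g : ℕ → ℂ := fun m => ∑ d ∈ (QS W Q0).erase 1, (mf d : ℂ) * cq d m with hg
  have W0 : 0 < W := by
    have : 1 < 2 ^ M := Nat.one_lt_two_pow (by omega)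
    rw [hW, WW]; omega
  have k1 : (1 : ℝ) ≤ W / W.totient :=
    (one_le_div (by exact_mod_cast Nat.totient_pos.2 W0)).2 (by exact_mod_cast Nat.totient_le W)
  have ρ0 : 0 ≤ rh T := (o1 0).1.trans (o1 0).2
  have ε1 : 2 * Real.exp (-r ^ 26) * Q0 ≤ 1 / 10 := by
    have h1 : r + 20 ≤ r ^ 26 := by
      have : (2 : ℝ) ^ 25 ≤ r ^ 25 := pow_le_pow_left₀ (by norm_num) hr 25
      nlinarith
    have h2 : Real.exp (-r ^ 26) * Real.exp r ≤ Real.exp (-20) := by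
      rw [← Real.exp_add]; exact Real.exp_le_exp.2 (by linarith)
    have h3 : Real.exp (-20) * 21 ≤ 1 := by
      rw [Real.exp_neg, inv_mul_le_iff₀ (Real.exp_pos _)]; linarith [Real.add_one_le_exp 20]
    nlinarith [Real.exp_pos (-r ^ 26)]
  have D0 : (0 : ℝ) < (L : ℝ) ^ 2 * J := by
    have : 0 < L := by omega
    positivity
  have key : ∀ n ∈ A, ∀ a ∈ Icc 1 L, ∀ a' ∈ Icc 1 L, ∀ s ∈ Icc 1 J,
      W / W.totient * rh T * (9 / 10 + (g (n - (σ + 2 ^ (M * a) + 2 ^ (M * a') + 2 ^ (M * s)))).re) ≤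
      (bd r P T W (QS W Q0) (n - (σ + 2 ^ (M * a) + 2 ^ (M * a') + 2 ^ (M * s)))).re := by
    intro n hn a ha a' ha' s hs
    rw [mem_Icc] at ha ha' hs
    obtain ⟨n1, n2, n3⟩ := hA n hn
    obtain ⟨-, s1, -, s2⟩ := shf.2 n a a' s n1 n2 ha.2 ha'.2 (hs.2.trans hJ')
    have cop : (n - (σ + 2 ^ (M * a) + 2 ^ (M * a') + 2 ^ (M * s))).Coprime W := by
      rw [← Nat.isCoprime_iff_coprime, Nat.cast_sub s1]
      obtain ⟨c0, e0⟩ := n3.dvd
      obtain ⟨c1, e1⟩ := E5x.pw hM ha.1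
      obtain ⟨c2, e2⟩ := E5x.pw hM ha'.1
      obtain ⟨c3, e3⟩ := E5x.pw hM hs.1
      have e : (n : ℤ) - (σ + 2 ^ (M * a) + 2 ^ (M * a') + 2 ^ (M * s) : ℕ) =
          n0 - σ - 3 * 2 ^ M + W * (-c0 - c1 - c2 - c3) := by
        push_cast
        linear_combination -e0 - e1 - e2 - e3
      rw [e]
      exact hc.add_mul_left_left _
    generalize n - (σ + 2 ^ (M * a) + 2 ^ (M * a') + 2 ^ (M * s)) = m at *
    have sp : ∑ d ∈ QS W Q0, (mf d : ℂ) * cq d m = 1 + g m := by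
      rw [← add_sum_erase _ _ (show 1 ∈ QS W Q0 by simp [QS, hQ]), hCQ.2.2.1]
      simp [mf, hg]
    have nb : |1 + (g m).re| ≤ Q0 := by
      have := (Complex.abs_re_le_norm (1 + g m)).trans (sp ▸ (norm_sum_le _ _).trans
        (sum_le_card_nsmul _ _ 1 fun d hd => (hCQ.2.2.2 d m (mem_Icc.1 (mem_filter.1 hd).1).1).2))
      rw [Complex.add_re, Complex.one_re, nsmul_one] at this
      refine this.trans ?_
      exact_mod_cast (card_filter_le _ _).trans (by simp)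
    rw [bd, sp, Complex.re_ofReal_mul, Complex.add_re, Complex.one_re, Lm, if_pos cop,
      mul_comm (om _ _ _ _), mul_assoc, mul_assoc]
    refine mul_le_mul_of_nonneg_left ?_ (by linarith)
    have u1 := (o1 (Real.log m)).2
    have u2 := o2 _ s2
    have u3 : (rh T - om r P T (Real.log m)) * (1 + (g m).re) ≤
        rh T * (2 * Real.exp (-r ^ 26)) * Q0 :=
      (mul_le_mul_of_nonneg_left (le_of_abs_le nb) (by linarith)).trans
        (mul_le_mul_of_nonneg_right (by linarith) (Nat.cast_nonneg _))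
    nlinarith [mul_le_mul_of_nonneg_left ε1 ρ0]
  have t2 : -√(3 * η * A.card * XX r / W) ≤ (av M L J σ A g).re :=
    (abs_le.1 ((Complex.abs_re_le_norm _).trans (Real.le_sqrt_of_sq_le t1))).1
  have fin : W / W.totient * rh T * (9 / 10 * A.card + (av M L J σ A g).re) ≤
      (av M L J σ A (bd r P T W (QS W Q0))).re := by
    rw [E5x.av_re, E5x.av_re, le_div_iff₀ D0]
    refine le_trans (le_of_eq ?_) (sum_le_sum fun n hn => sum_le_sum fun a ha =>
      sum_le_sum fun a' ha' => sum_le_sum fun s hs => key n hn a ha a' ha' s hs)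
    simp only [← mul_sum, sum_add_distrib, sum_const, Nat.card_Icc, Nat.add_sub_cancel,
      nsmul_eq_mul]
    rw [mul_assoc, add_mul, div_mul_cancel₀ _ D0.ne']
    ring
  refine le_trans ?_ fin
  rw [mul_assoc (_ / _)]
  have t3 : 9 / 10 * A.card - √(3 * η * A.card * XX r / W) ≤
      9 / 10 * A.card + (av M L J σ A g).re := by linarith
  exact (mul_le_mul_of_nonneg_left t3 ρ0).trans
    (le_mul_of_one_le_left (mul_nonneg ρ0 (h0.trans t3)) k1)

end Pool.Agent.P.MP_42fc1a_nt.EK
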