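import Pool.Agent.P.MP_42fc1a_nt.EK.IfaceB

/-! Step EUL. -/

namespace Pool.Agent.P.MP_42fc1a_nt.EK

open Finset Real Filter Topology MeasureTheory
open Pool.Agent.P.MP_e86632_nt (ee nn ee_add norm_ee ee_neg ee_zero)
open Pool.Agent.P.MP_8be758_nt.Avg (gs red ft nsq gs_pos gs_le_one gs_neg gs_anti)
open Pool.Agent.P.MP_e94e4b_nt.PF (sgm)
open Pool.Agent.P.E2
open ArithmeticFunction (vonMangoldt moebius)
open DirichletCharacter (LFunction)
open scoped Classical

namespace EULx

theorem first (T D : Finset ℕ) (f : ℕ → ℝ) (hf : ∀ l, 0 ≤ f l)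
    (hD : ∀ q ∈ D, Squarefree q ∧ q.primeFactors ⊆ T) :
    ∑ q ∈ D, ∏ l ∈ q.primeFactors, f l ≤ Real.exp (∑ l ∈ T, f l) := by
  have inj : Set.InjOn Nat.primeFactors (D : Set ℕ) := fun a ha b hb e => by
    rw [← Nat.prod_primeFactors_of_squarefree (hD a ha).1,
      ← Nat.prod_primeFactors_of_squarefree (hD b hb).1, e]
  calc ∑ q ∈ D, ∏ l ∈ q.primeFactors, f l
      = ∑ S ∈ D.image Nat.primeFactors, ∏ l ∈ S, f l :=
        (Finset.sum_image (f := fun S : Finset ℕ => ∏ l ∈ S, f l) inj).symm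
    _ ≤ ∑ S ∈ T.powerset, ∏ l ∈ S, f l := by
        refine Finset.sum_le_sum_of_subset_of_nonneg (fun S hS => ?_)
          (fun S _ _ => Finset.prod_nonneg fun l _ => hf l)
        obtain ⟨q, hq, rfl⟩ := Finset.mem_image.1 hS
        exact Finset.mem_powerset.2 (hD q hq).2
    _ = ∏ l ∈ T, (1 + f l) := (Finset.prod_one_add T).symm
    _ ≤ ∏ l ∈ T, Real.exp (f l) :=
        Finset.prod_le_prod (fun l _ => by linarith [hf l])
          (fun l _ => by linarith [Real.add_one_le_exp (f l)])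
    _ = Real.exp (∑ l ∈ T, f l) := (Real.exp_sum T f).symm

end EULx

theorem p_EUL :
    S_EUL := by
  intro T D f hf hD
  refine ⟨EULx.first T D f hf hD, fun h1 => ?_⟩
  have h := EULx.first T (insert 1 D) f hf (fun q hq => by
    rcases Finset.mem_insert.1 hq with rfl | hq
    · exact ⟨squarefree_one, by simp⟩
    · exact hD q hq)
  rw [Finset.sum_insert h1, Nat.primeFactors_one, Finset.prod_empty] at h
  linarith

end Pool.Agent.P.MP_42fc1a_nt.EK
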