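import Pool.Agent.P.MP_42fc1a_nt.EK.IfaceA

/-! Step FE. -/

namespace Pool.Agent.P.MP_42fc1a_nt.EK

open Finset Real Filter Topology MeasureTheory
open Pool.Agent.P.MP_e86632_nt (ee nn ee_add norm_ee ee_neg ee_zero)
open Pool.Agent.P.MP_8be758_nt.Avg (gs red ft nsq gs_pos gs_le_one gs_neg gs_anti)
open Pool.Agent.P.MP_e94e4b_nt.PF (sgm)
open Pool.Agent.P.E2
open ArithmeticFunction (vonMangoldt moebius)
open DirichletCharacter (LFunction)
open scoped Classical

theorem p_FE :
    S_FE := by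
  refine ⟨fun N θ hN => ?_, fun P F hP hF => ?_⟩
  · have N0 : (0 : ℝ) < N := by exact_mod_cast hN
    have s0 := norm_nonneg (∑ v ∈ range N, ee (v * θ))
    refine ⟨by unfold fe; positivity, ?_, fun h => ?_⟩
    · have h1 : ‖∑ v ∈ range N, ee (v * θ)‖ ≤ N := (norm_sum_le _ _).trans (by simp)
      rw [fe, div_le_one (by positivity)]
      exact pow_le_pow_left₀ s0 h1 2
    · have h1 : ∀ n : ℕ, (ee θ - 1) * ∑ v ∈ range n, ee (v * θ) = ee (n * θ) - 1 := by
        intro n
        induction n with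
        | zero => simp
        | succ n ih => rw [sum_range_succ, mul_add, ih, Nat.cast_succ, add_mul, one_mul, ee_add]; ring
      have h2 : ‖ee θ - 1‖ * ‖∑ v ∈ range N, ee (v * θ)‖ ≤ 2 := by
        rw [← norm_mul, h1]
        exact (norm_sub_le _ _).trans (by rw [norm_ee, norm_one]; norm_num)
      have h3 := Pool.Agent.P.MP_e86632_nt.four_nn_le θ
      have h4 : 2 * nn θ * ‖∑ v ∈ range N, ee (v * θ)‖ ≤ 1 := by nlinarith
      have h5 := pow_le_pow_left₀ (by positivity) h4 2
      rw [fe, div_le_div_iff₀ (by positivity) (by positivity)]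
      nlinarith [mul_le_mul_of_nonneg_right h5 (sq_nonneg (N : ℝ))]
  · have P0 : (0 : ℝ) < P := by exact_mod_cast hP
    rw [le_div_iff₀ (by positivity), ← sum_product']
    have e : (∑ v ∈ Ioc P (2 * P), F v) * (2 * P) =
        ∑ x ∈ Ioc P (2 * P) ×ˢ range (2 * P), F x.1 := by
      rw [sum_product, sum_mul]
      refine sum_congr rfl fun v _ => ?_
      simp [mul_comm]
    rw [e]
    have hinj : Set.InjOn (fun x : ℕ × ℕ => (x.1 + x.2, x.2))
        (Ioc P (2 * P) ×ˢ range (2 * P) : Finset (ℕ × ℕ)) := by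
      rintro ⟨a, b⟩ - ⟨c, d⟩ - h
      simp only [Prod.mk.injEq] at h ⊢
      omega
    refine le_trans (le_of_eq ?_) (sum_le_sum_of_subset_of_nonneg
      (s := (Ioc P (2 * P) ×ˢ range (2 * P)).image fun x : ℕ × ℕ => (x.1 + x.2, x.2))
      (fun y hy => ?_) fun _ _ _ => hF _)
    · rw [sum_image hinj]
      exact sum_congr rfl fun x _ => by simp
    · obtain ⟨x, hx, rfl⟩ := mem_image.1 hy
      simp only [mem_product, mem_Ioc, mem_range] at hx ⊢
      omega

end Pool.Agent.P.MP_42fc1a_nt.EK
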