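import Pool.Agent.P.MP_42fc1a_nt.EK.IfaceA

/-! Step FIB. -/

namespace Pool.Agent.P.MP_42fc1a_nt.EK

open Finset Real Filter Topology MeasureTheory
open Pool.Agent.P.MP_e86632_nt (ee nn ee_add norm_ee ee_neg ee_zero)
open Pool.Agent.P.MP_8be758_nt.Avg (gs red ft nsq gs_pos gs_le_one gs_neg gs_anti)
open Pool.Agent.P.MP_e94e4b_nt.PF (sgm)
open Pool.Agent.P.E2
open ArithmeticFunction (vonMangoldt moebius)
open DirichletCharacter (LFunction)
open scoped Classical

namespace FIBx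

theorem shift {F : ℝ → ℝ} (hF : ∀ (z : ℝ) (k : ℤ), F (z + k) = F z) {p : ℕ} (hp : 1 ≤ p)
    (x : ℝ) (c : ℕ) : ∑ j ∈ range p, F ((x + c + j) / p) = ∑ j ∈ range p, F ((x + j) / p) := by
  have h0 : (p : ℝ) ≠ 0 := by positivity
  induction c with
  | zero => simp
  | succ c ih =>
    rw [← ih]
    have h1 := sum_range_succ (fun j : ℕ => F ((x + c + j) / p)) p
    rw [sum_range_succ'] at h1
    have h2 : F ((x + c + p) / p) = F ((x + c + (0 : ℕ)) / p) := by
      rw [← hF ((x + c + (0 : ℕ)) / p) 1]; congr 1; field_simp; push_cast; ring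
    rw [h2] at h1
    rw [← add_right_cancel h1]
    exact sum_congr rfl fun j _ => by congr 2; push_cast; ring

end FIBx

theorem p_FIB :
    S_FIB := by
  intro T Jv F P p g m α hp hm hT hJ h0 hF
  have key : ∀ v ∈ T, ∀ v' ∈ T, ∑ j ∈ Jv v, ∑ j' ∈ Jv v',
      F ((v * α + j) / p + g * ((v' * α + j') / p)) ≤
      m * ∑ j ∈ range p, F ((((v : ℝ) + g * v') * α + j) / p) := fun v hv v' hv' => by
    rw [sum_comm]
    refine (sum_le_card_nsmul _ _ (∑ j ∈ range p, F ((((v : ℝ) + g * v') * α + j) / p))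
      fun j' _ => ?_).trans ?_
    · rw [← FIBx.shift hF hp _ (g * j')]
      refine (sum_le_sum_of_subset_of_nonneg (hJ v hv).1 fun _ _ _ => h0 _).trans (le_of_eq ?_)
      exact sum_congr rfl fun j _ => by congr 1; push_cast; ring
    · rw [nsmul_eq_mul]
      exact mul_le_mul_of_nonneg_right (hJ v' hv').2 (sum_nonneg fun _ _ => h0 _)
  have nn : ∀ v v' : ℕ, 0 ≤ m * ∑ j ∈ range p, F ((((v : ℝ) + g * v') * α + j) / p) :=
    fun _ _ => mul_nonneg hm (sum_nonneg fun _ _ => h0 _)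
  rw [mul_sum]
  refine (sum_le_sum fun v hv => ?_).trans
    (sum_le_sum_of_subset_of_nonneg hT fun v _ _ =>
      mul_nonneg hm (sum_nonneg fun _ _ => sum_nonneg fun _ _ => h0 _))
  rw [sum_comm, mul_sum]
  exact (sum_le_sum (key v hv)).trans (sum_le_sum_of_subset_of_nonneg hT fun v' _ _ => nn v v')

end Pool.Agent.P.MP_42fc1a_nt.EK
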