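import Pool.Agent.P.MP_42fc1a_nt.EK.IfaceB

/-! Step FW. -/

namespace Pool.Agent.P.MP_42fc1a_nt.EK

open Finset Real Filter Topology MeasureTheory
open Pool.Agent.P.MP_e86632_nt (ee nn ee_add norm_ee ee_neg ee_zero)
open Pool.Agent.P.MP_8be758_nt.Avg (gs red ft nsq gs_pos gs_le_one gs_neg gs_anti)
open Pool.Agent.P.MP_e94e4b_nt.PF (sgm)
open Pool.Agent.P.E2
open ArithmeticFunction (vonMangoldt moebius)
open DirichletCharacter (LFunction)
open scoped Classical

namespace FWx

theorem orth {M : ℕ} (hM : 0 < M) (n : ℤ) :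
    ∑ k ∈ range M, ee (k * ((n : ℝ) / M)) = if (M : ℤ) ∣ n then (M : ℂ) else 0 := by
  have hM' : (M : ℝ) ≠ 0 := by positivity
  have hp : ∀ k : ℕ, ee (k * ((n : ℝ) / M)) = ee ((n : ℝ) / M) ^ k := by
    intro k
    induction k with
    | zero => simp
    | succ k ih => rw [pow_succ, ← ih, ← ee_add]; congr 1; push_cast; ring
  split_ifs with h
  · obtain ⟨c, rfl⟩ := h
    rw [Finset.sum_congr rfl (g := fun _ => 1)]
    · simp
    · intro k _
      rw [← Pool.Agent.P.MP_e86632_nt.ee_int (k * c)]; congr 1; push_cast; field_simp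
  · have h1 : ee ((n : ℝ) / M) ≠ 1 := by
      intro h1
      obtain ⟨c, hc⟩ := Complex.exp_eq_one_iff.1 h1
      have h2 := congrArg Complex.im hc
      simp only [Complex.mul_im, Complex.I_re, Complex.ofReal_im, Complex.I_im, Complex.ofReal_re,
        Complex.intCast_re, Complex.intCast_im, Complex.mul_re, Complex.re_ofNat, Complex.im_ofNat,
        mul_zero, zero_mul, one_mul, mul_one, add_zero, zero_add, sub_zero] at h2
      have h3 : (n : ℝ) = M * c := by
        have := Real.pi_pos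
        field_simp at h2
        linarith
      exact h ⟨c, by exact_mod_cast h3⟩
    have h2 : ee ((n : ℝ) / M) ^ M = 1 := by
      rw [← hp, ← Pool.Agent.P.MP_e86632_nt.ee_int n]; congr 1; field_simp
    simp only [hp]
    rw [geom_sum_eq h1, h2, sub_self, zero_div]

theorem Lm_le {W : ℕ} (hW : 1 ≤ W) (b : ℕ) : |Lm W b| ≤ W := by
  unfold Lm
  split_ifs
  · have h1 : (1 : ℝ) ≤ W.totient := by exact_mod_cast Nat.totient_pos.2 hW
    rw [abs_of_nonneg (by positivity)]
    exact div_le_self (Nat.cast_nonneg W) h1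
  · simp

theorem Lm_mod (W m : ℕ) : Lm W (m % W) = Lm W m := by
  have : (m % W).Coprime W ↔ m.Coprime W := by
    unfold Nat.Coprime
    rw [← Nat.gcd_rec, Nat.gcd_comm]
  simp only [Lm, this]

end FWx

theorem p_FW :
    S_FW := by
  intro W hW
  have hW0 : (W : ℂ) ≠ 0 := by exact_mod_cast (by omega : W ≠ 0)
  have hWr : (0 : ℝ) < W := by exact_mod_cast hW
  refine ⟨fun a => (∑ b ∈ range W, (Lm W b : ℂ) * ee (-(b * ((a : ℝ) / W)))) / W,
    fun a => ?_, fun m => ?_⟩
  · rw [norm_div, Complex.norm_natCast, div_le_iff₀ hWr]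
    refine (norm_sum_le _ _).trans ((sum_le_card_nsmul _ _ (W : ℝ) fun b _ => ?_).trans ?_)
    · rw [norm_mul, norm_ee, mul_one, Complex.norm_real]
      exact FWx.Lm_le hW b
    · simp
  · have e : ∀ a ∈ range W,
        (∑ b ∈ range W, (Lm W b : ℂ) * ee (-(b * ((a : ℝ) / W)))) / W * ee (m * ((a : ℝ) / W)) =
        ∑ b ∈ range W, (Lm W b : ℂ) / W * ee (a * ((((m : ℤ) - b : ℤ) : ℝ) / W)) := by
      intro a _
      rw [sum_div, sum_mul]
      refine sum_congr rfl fun b _ => ?_
      have : ee (a * ((((m : ℤ) - b : ℤ) : ℝ) / W)) =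
          ee (-(b * ((a : ℝ) / W))) * ee (m * ((a : ℝ) / W)) := by
        rw [← ee_add]; congr 1; push_cast; ring
      rw [this]; ring
    rw [sum_congr rfl e, sum_comm]
    simp only [← mul_sum, FWx.orth hW]
    rw [sum_eq_single (m % W)]
    · rw [if_pos, FWx.Lm_mod, div_mul_cancel₀ _ hW0]
      exact (Nat.mod_modEq m W).dvd
    · intro b hb hne
      rw [if_neg, mul_zero]
      intro hd
      have h1 : b ≡ m [MOD W] := (Nat.modEq_iff_dvd).2 hd
      exact hne (by rw [← Nat.mod_eq_of_lt (mem_range.1 hb)]; exact h1)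
    · intro h
      exact absurd (mem_range.2 (Nat.mod_lt m hW)) h

end Pool.Agent.P.MP_42fc1a_nt.EK
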