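import Pool.Agent.P.MP_42fc1a_nt.EK.IfaceC

/-! Step GL1. -/

namespace Pool.Agent.P.MP_42fc1a_nt.EK

open Finset Real Filter Topology MeasureTheory
open Pool.Agent.P.MP_e86632_nt (ee nn ee_add norm_ee ee_neg ee_zero)
open Pool.Agent.P.MP_8be758_nt.Avg (gs red ft nsq gs_pos gs_le_one gs_neg gs_anti)
open Pool.Agent.P.MP_e94e4b_nt.PF (sgm)
open Pool.Agent.P.E2
open ArithmeticFunction (vonMangoldt moebius)
open DirichletCharacter (LFunction)
open scoped Classical

namespace GL1x

theorem shift (f : ℝ → ℝ) (m x : ℝ) :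
    ∫ u in Set.Iic m, f (u - x) = ∫ u in Set.Iic (m - x), f u := by
  rw [← integral_indicator measurableSet_Iic, ← integral_indicator measurableSet_Iic,
    ← integral_sub_right_eq_self (fun u => (Set.Iic (m - x)).indicator f u) x]
  congr 1
  ext u
  simp only [Set.indicator, Set.mem_Iic, sub_le_sub_iff_right]

theorem one {a x y : ℝ} (ha : 0 < a) (h : x ≤ y) :
    ∫ u : ℝ, |gk a (x - u) - gk a (y - u)| ≤ 2 * (y - x) / a := by
  have ix := gk_integrable' ha x
  have iy := gk_integrable' ha y
  have e : (fun u : ℝ => |gk a (x - u) - gk a (y - u)|) = fun u =>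
      2 * (Set.Iic ((x + y) / 2)).indicator (fun u => gk a (x - u) - gk a (y - u)) u -
        (gk a (x - u) - gk a (y - u)) := by
    ext u
    by_cases hu : u ≤ (x + y) / 2
    · have : gk a (y - u) ≤ gk a (x - u) := gk_anti ha (by
        rw [abs_of_nonneg (by linarith : 0 ≤ y - u), abs_le]; constructor <;> linarith)
      rw [Set.indicator_of_mem (Set.mem_Iic.2 hu), abs_of_nonneg (by linarith)]; ring
    · have hu' := not_le.1 hu
      have : gk a (x - u) ≤ gk a (y - u) := gk_anti ha (by
        rw [abs_of_nonpos (by linarith : x - u ≤ 0), abs_le]; constructor <;> linarith)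
      rw [Set.indicator_of_notMem (by simpa using hu), abs_of_nonpos (by linarith)]; ring
  have ixy : Integrable fun u => gk a (x - u) - gk a (y - u) := ix.sub iy
  rw [e, integral_sub ((ixy.indicator measurableSet_Iic).const_mul 2) ixy,
    integral_const_mul, integral_indicator measurableSet_Iic, integral_sub ix iy,
    gk_integral' ha, gk_integral' ha, integral_sub ix.integrableOn iy.integrableOn]
  have e2 : ∀ z : ℝ, (fun u => gk a (z - u)) = fun u => gk a (u - z) := fun z => by
    ext u; rw [← gk_neg, neg_sub]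
  rw [e2 x, e2 y, shift, shift, intervalIntegral.integral_Iic_sub_Iic
    (gk_integrable ha).integrableOn (gk_integrable ha).integrableOn]
  have h1 : ∫ u in ((x + y) / 2 - y)..((x + y) / 2 - x), gk a u ≤
      ∫ _ in ((x + y) / 2 - y)..((x + y) / 2 - x), 1 / a :=
    intervalIntegral.integral_mono_on (by linarith) (gk_integrable ha).intervalIntegrable
      (by simp) fun u _ => gk_le ha u
  rw [intervalIntegral.integral_const, smul_eq_mul] at h1
  have h2 : ((x + y) / 2 - x - ((x + y) / 2 - y)) * (1 / a) = (y - x) / a := by ring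
  rw [mul_div_assoc]
  linarith

theorem two (t : ℝ) : gs t * |t| ≤ gs (t / 2) / 2 := by
  have h1 := Real.add_one_le_exp (3 / 4 * (π * t ^ 2))
  have h2 : gs (t / 2) = gs t * Real.exp (3 / 4 * (π * t ^ 2)) := by
    rw [gs, gs, ← Real.exp_add]; congr 1; ring
  rw [h2, mul_div_assoc]
  refine mul_le_mul_of_nonneg_left ?_ (gs_pos t).le
  nlinarith [sq_abs t, sq_nonneg (|t| - 1), Real.pi_gt_three, sq_nonneg t]

end GL1x

theorem p_GL1 :
    S_GL1 := by
  refine ⟨fun a x y ha => ?_, fun a ha => ?_⟩
  · rcases le_total x y with h | h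
    · rw [abs_sub_comm x y, abs_of_nonneg (sub_nonneg.2 h)]
      exact GL1x.one ha h
    · rw [abs_of_nonneg (sub_nonneg.2 h)]
      simp only [abs_sub_comm (gk a (x - _))]
      exact GL1x.one ha h
  · have hi := (gs_integrable (a := 2 * a) (by positivity)).div_const 2
    have hb : ∀ x : ℝ, gk a x * |x| ≤ gs (x / (2 * a)) / 2 := fun x => by
      have := GL1x.two (x / a)
      rw [abs_div, abs_of_pos ha, div_div, mul_comm a] at this
      refine le_trans (le_of_eq ?_) this
      rw [gk]; ring
    have h0 : ∀ x : ℝ, 0 ≤ gk a x * |x| := fun x => mul_nonneg (gk_nonneg ha x) (abs_nonneg x)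
    have hI : Integrable fun x : ℝ => gk a x * |x| :=
      hi.mono' ((gk_integrable ha).aestronglyMeasurable.mul continuous_abs.aestronglyMeasurable)
        (Eventually.of_forall fun x => by rw [Real.norm_of_nonneg (h0 x)]; exact hb x)
    refine ⟨hI, (integral_mono hI hi hb).trans_eq ?_⟩
    rw [integral_div, gs_integral (by positivity)]; ring

end Pool.Agent.P.MP_42fc1a_nt.EK
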