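import Pool.Agent.P.MP_42fc1a_nt.EK.IfaceA

/-! Step GOOD. -/

namespace Pool.Agent.P.MP_42fc1a_nt.EK

open Finset Real Filter Topology MeasureTheory
open Pool.Agent.P.MP_e86632_nt (ee nn ee_add norm_ee ee_neg ee_zero)
open Pool.Agent.P.MP_8be758_nt.Avg (gs red ft nsq gs_pos gs_le_one gs_neg gs_anti)
open Pool.Agent.P.MP_e94e4b_nt.PF (sgm)
open Pool.Agent.P.E2
open ArithmeticFunction (vonMangoldt moebius)
open DirichletCharacter (LFunction)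
open scoped Classical

namespace GOODx

lemma card_pc (k u : ℕ) : ((powersetCard k (range u)).card : ℝ) ≤ 2 ^ u := by
  have h : (powersetCard k (range u)).card ≤ (range u).powerset.card := by
    apply card_le_card
    intro x hx
    exact mem_powerset.2 (mem_powersetCard.1 hx).1
  rw [card_powerset, card_range] at h
  exact_mod_cast h

lemma one_R (hPD : S_PD) (P K : ℕ) (e : ℝ) (H : Finset ℤ) (ϱ : ℤ → ℝ) (hP : 2 ≤ P)
    (hS : Sub e H ϱ) (hb : ∀ h ∈ H, |h| ≤ (P : ℤ) ^ K) :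
    ∑ p ∈ Pn P, ∑ h ∈ H.filter (fun h => h ≠ 0 ∧ (p : ℤ) ∣ h), ϱ h ≤ K := by
  have e1 : ∑ p ∈ Pn P, ∑ h ∈ H.filter (fun h => h ≠ 0 ∧ (p : ℤ) ∣ h), ϱ h =
      ∑ h ∈ H, ∑ p ∈ Pn P, if h ≠ 0 ∧ (p : ℤ) ∣ h then ϱ h else 0 := by
    rw [sum_comm]
    refine sum_congr rfl fun p _ => ?_
    rw [sum_filter]
  rw [e1]
  have e2 : ∀ h ∈ H, (∑ p ∈ Pn P, if h ≠ 0 ∧ (p : ℤ) ∣ h then ϱ h else 0) ≤ K * ϱ h := by
    intro h hh
    by_cases h0 : h = 0
    · have : (∑ p ∈ Pn P, if h ≠ 0 ∧ (p : ℤ) ∣ h then ϱ h else 0) = 0 := by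
        refine sum_eq_zero fun p _ => ?_
        rw [if_neg]
        exact fun hc => hc.1 h0
      rw [this]
      exact mul_nonneg (Nat.cast_nonneg K) (hS.pos h)
    · have h1 := hPD P K h hP h0 (hb h hh)
      have h2 : (∑ p ∈ Pn P, if h ≠ 0 ∧ (p : ℤ) ∣ h then ϱ h else 0) =
          ∑ p ∈ (Pn P).filter (fun p : ℕ => (p : ℤ) ∣ h), ϱ h := by
        rw [sum_filter]
        refine sum_congr rfl fun p _ => ?_
        by_cases hd : (p : ℤ) ∣ h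
        · rw [if_pos ⟨h0, hd⟩, if_pos hd]
        · rw [if_neg (fun hc => hd hc.2), if_neg hd]
      rw [h2, sum_const, nsmul_eq_mul]
      have h3 : (((Pn P).filter fun p : ℕ => (p : ℤ) ∣ h).card : ℝ) ≤ K := by exact_mod_cast h1
      exact mul_le_mul_of_nonneg_right h3 (hS.pos h)
  calc _ ≤ ∑ h ∈ H, K * ϱ h := sum_le_sum e2
    _ = K * ∑ h ∈ H, ϱ h := by rw [mul_sum]
    _ ≤ K * 1 := mul_le_mul_of_nonneg_left hS.tot (Nat.cast_nonneg K)
    _ = K := mul_one _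

lemma split0 (p : ℕ) (e : ℝ) (H : Finset ℤ) (ϱ : ℤ → ℝ) (hS : Sub e H ϱ) :
    ∑ h ∈ H.filter (fun h => (p : ℤ) ∣ h), ϱ h ≤
      e + ∑ h ∈ H.filter (fun h => h ≠ 0 ∧ (p : ℤ) ∣ h), ϱ h := by
  have hsub : H.filter (fun h => (p : ℤ) ∣ h) ⊆
      insert 0 (H.filter (fun h => h ≠ 0 ∧ (p : ℤ) ∣ h)) := by
    intro h hh
    rw [mem_filter] at hh
    by_cases h0 : h = 0
    · rw [h0]; exact mem_insert_self _ _
    · exact mem_insert_of_mem (mem_filter.2 ⟨hh.1, h0, hh.2⟩)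
  have h1 := sum_le_sum_of_subset_of_nonneg (f := ϱ) hsub (fun h _ _ => hS.pos h)
  have h2 : (0 : ℤ) ∉ H.filter (fun h => h ≠ 0 ∧ (p : ℤ) ∣ h) := by
    intro hc
    exact (mem_filter.1 hc).2.1 rfl
  rw [sum_insert h2] at h1
  have := hS.atom 0
  linarith

end GOODx

theorem p_GOOD (hPD : S_PD) (hMMX : S_MMX) :
    S_GOOD := by
  intro lam μ B M b0 b1 u n0 n1 G0 G1 P K H ϱ hP hL
  have hl0 := hP.l0
  have hl1 := hP.l1
  have hμ0 : 0 < μ := by rw [hP.hμ]; positivity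
  have hμ2 : 2 * μ ≤ lam := by rw [hP.hμ]; nlinarith
  have hb : 1 ≤ b0 * b1 := Nat.mul_pos hP.hb0 hP.hb1
  have hu : 1 ≤ u := by
    rcases Nat.eq_zero_or_pos u with h | h
    · have hw := hP.win
      rw [h] at hw
      have : (0 : ℝ) ≤ n1 := Nat.cast_nonneg _
      simp at hw
      linarith
    · exact h
  have hP0 : (0 : ℝ) < P := by
    have := hP.p2
    have : 0 < P := by omega
    exact_mod_cast this
  have hbig : ∀ R ∈ powersetCard ⌈μ * u⌉₊ (range u), ∀ h ∈ H R, |h| ≤ (P : ℤ) ^ K := by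
    intro R hR h hh
    obtain ⟨y, hy, hy2⟩ := (hL R hR).sup h hh
    have h1 := hP.big
    have h2 : 2 ^ M * 2 ^ (M * (b0 * b1) * u) ≤ P ^ K := by
      refine le_trans ?_ h1
      have e1 : 2 ^ M * 2 ^ (M * (b0 * b1) * u) ≤ 2 ^ (M * (b0 * b1 * u) + M + 1) := by
        rw [← pow_add]
        apply Nat.pow_le_pow_right (by norm_num)
        rw [mul_assoc M]
        omega
      refine le_trans e1 (Nat.le_mul_of_pos_right _ ?_)
      positivity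
    have h3 : (2 : ℤ) ^ M * 2 ^ (M * (b0 * b1) * u) ≤ (P : ℤ) ^ K := by exact_mod_cast h2
    have h4 : |y| ≤ (2 : ℤ) ^ (M * (b0 * b1) * u) := by
      have := abs_nonneg y
      push_cast at hy2
      linarith
    rw [hy, abs_mul, abs_of_pos (by positivity : (0 : ℤ) < 2 ^ M)]
    exact le_trans (mul_le_mul_of_nonneg_left h4 (by positivity)) h3
  set f : ℕ → ℝ := fun p => ∑ R ∈ powersetCard ⌈μ * u⌉₊ (range u),
    ∑ h ∈ (H R).filter (fun h => h ≠ 0 ∧ (p : ℤ) ∣ h), ϱ R h with hf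
  have hf0 : ∀ p, 0 ≤ f p := fun p =>
    sum_nonneg fun R hR => sum_nonneg fun h _ => (hL R hR).sub.pos h
  have htot : ∑ p ∈ Pn P, f p ≤ 2 ^ u * K := by
    simp only [hf]
    rw [sum_comm]
    calc _ ≤ ∑ R ∈ powersetCard ⌈μ * u⌉₊ (range u), (K : ℝ) :=
          sum_le_sum fun R hR =>
            GOODx.one_R hPD P K _ (H R) (ϱ R) hP.p2 (hL R hR).sub (hbig R hR)
      _ = (powersetCard ⌈μ * u⌉₊ (range u)).card * (K : ℝ) := by rw [sum_const, nsmul_eq_mul]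
      _ ≤ 2 ^ u * K := mul_le_mul_of_nonneg_right (GOODx.card_pc _ _) (Nat.cast_nonneg K)
  refine ⟨(Pn P).filter (fun p => f p ≤ 4 ^ u / P), filter_subset _ _, ?_, ?_⟩
  · have h1 : ((Pn P \ (Pn P).filter (fun p => f p ≤ 4 ^ u / P)).card : ℝ) * (4 ^ u / P) ≤
        ∑ p ∈ Pn P \ (Pn P).filter (fun p => f p ≤ 4 ^ u / P), f p := by
      rw [← nsmul_eq_mul, ← sum_const]
      refine sum_le_sum fun p hp => ?_
      rw [Finset.mem_sdiff, mem_filter] at hp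
      by_contra hc
      exact hp.2 ⟨hp.1, (not_le.1 hc).le⟩
    have h2 : ∑ p ∈ Pn P \ (Pn P).filter (fun p => f p ≤ 4 ^ u / P), f p ≤ ∑ p ∈ Pn P, f p :=
      sum_le_sum_of_subset_of_nonneg Finset.sdiff_subset fun p _ _ => hf0 p
    have h3 := le_trans h1 (le_trans h2 htot)
    have h4 : (4 : ℝ) ^ u = 2 ^ u * 2 ^ u := by rw [← mul_pow]; norm_num
    have h5 : (0 : ℝ) < 2 ^ u := by positivity
    rw [le_div_iff₀ h5]
    rw [← mul_div_assoc, div_le_iff₀ hP0] at h3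
    refine le_of_mul_le_mul_left ?_ h5
    generalize ((Pn P \ (Pn P).filter (fun p => f p ≤ 4 ^ u / P)).card : ℝ) = c at h3 ⊢
    rw [h4] at h3
    nlinarith [h3]
  · intro p hp β
    rw [mem_filter] at hp
    obtain ⟨hp1, hp2⟩ := hp
    have hp3 := mem_Ioc.1 (mem_filter.1 hp1).1
    have hp4 : 1 ≤ p := by omega
    have hp5 : (p : ℝ) ≤ 2 * P := by exact_mod_cast hp3.2
    have h1 := hMMX M (b0 * b1) u p M _ lam μ _ β H ϱ hb hu hp4 hμ0 hμ2 hL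
    refine le_trans h1 ?_
    have he0 : (0 : ℝ) ≤ (1 / (b0 * b1 : ℕ) : ℝ) ^ ⌈μ * u⌉₊ := by positivity
    have h2 : ∑ R ∈ powersetCard ⌈μ * u⌉₊ (range u),
        ∑ h ∈ (H R).filter (fun h => (p : ℤ) ∣ h), ϱ R h ≤
        2 ^ u * (1 / (b0 * b1 : ℕ) : ℝ) ^ ⌈μ * u⌉₊ + 4 ^ u / P := by
      calc _ ≤ ∑ R ∈ powersetCard ⌈μ * u⌉₊ (range u), ((1 / (b0 * b1 : ℕ) : ℝ) ^ ⌈μ * u⌉₊ +
            ∑ h ∈ (H R).filter (fun h => h ≠ 0 ∧ (p : ℤ) ∣ h), ϱ R h) :=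
            sum_le_sum fun R hR => GOODx.split0 p _ (H R) (ϱ R) (hL R hR).sub
        _ = (powersetCard ⌈μ * u⌉₊ (range u)).card * (1 / (b0 * b1 : ℕ) : ℝ) ^ ⌈μ * u⌉₊ + f p := by
            rw [sum_add_distrib, sum_const, nsmul_eq_mul]
        _ ≤ _ := add_le_add (mul_le_mul_of_nonneg_right (GOODx.card_pc _ _) he0) hp2
    have h3 : (0 : ℝ) ≤ ∑ R ∈ powersetCard ⌈μ * u⌉₊ (range u),
        ∑ h ∈ (H R).filter (fun h => (p : ℤ) ∣ h), ϱ R h :=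
      sum_nonneg fun R hR => sum_nonneg fun h _ => (hL R hR).sub.pos h
    have h4 : (0 : ℝ) < μ ^ (2 * ⌈μ * u⌉₊) := by positivity
    exact mul_le_mul (div_le_div_of_nonneg_right hp5 h4.le) h2 h3 (by positivity)

end Pool.Agent.P.MP_42fc1a_nt.EK
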