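import Pool.Agent.P.MP_42fc1a_nt.EK.IfaceB

/-! Step GQ. -/

namespace Pool.Agent.P.MP_42fc1a_nt.EK

open Finset Real Filter Topology MeasureTheory
open Pool.Agent.P.MP_e86632_nt (ee nn ee_add norm_ee ee_neg ee_zero)
open Pool.Agent.P.MP_8be758_nt.Avg (gs red ft nsq gs_pos gs_le_one gs_neg gs_anti)
open Pool.Agent.P.MP_e94e4b_nt.PF (sgm)
open Pool.Agent.P.E2
open ArithmeticFunction (vonMangoldt moebius)
open DirichletCharacter (LFunction)
open scoped Classical

namespace GQx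

theorem ort {q : ℕ} (hq : 1 ≤ q) (n : ℤ) :
    ∑ a ∈ range q, ee ((n : ℝ) * ((a : ℝ) / q)) = if (q : ℤ) ∣ n then (q : ℂ) else 0 := by
  have q0 : (q : ℂ) ≠ 0 := by exact_mod_cast (by omega : q ≠ 0)
  have pw : ∀ a : ℕ, ee ((n : ℝ) * ((a : ℝ) / q)) = ee ((n : ℝ) / q) ^ a := fun a => by
    rw [ee, ee, ← Complex.exp_nat_mul]; congr 1; push_cast; ring
  have one : ee ((n : ℝ) / q) = 1 ↔ (q : ℤ) ∣ n := by
    rw [ee, Complex.exp_eq_one_iff]
    refine exists_congr fun c => ?_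
    rw [← Int.cast_inj (α := ℂ)]
    push_cast
    have := Complex.I_ne_zero
    have : (π : ℂ) ≠ 0 := by exact_mod_cast pi_ne_zero
    constructor <;> intro h
    · field_simp at h; rw [h]
    · rw [h]; field_simp
  simp only [pw]
  split_ifs with h
  · simp [one.2 h]
  · rw [geom_sum_eq (mt one.1 h), ← pw, div_self (by exact_mod_cast (by omega : q ≠ 0)), mul_one,
      Pool.Agent.P.MP_e86632_nt.ee_int, sub_self, zero_div]

end GQx

theorem p_GQ (hORD : S_ORD) :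
    S_GQ := by
  intro M q J hq hc hJ
  have J0 : (0 : ℝ) < J := by exact_mod_cast hJ
  have e : ∀ a : ℕ, ((‖Gw M (fun _ => 1) (Icc 1 J) ((a : ℝ) / q)‖ ^ 2 : ℝ) : ℂ) =
      ∑ t ∈ Icc 1 J, ∑ s ∈ Icc 1 J,
        ee ((((2 ^ (M * s) - 2 ^ (M * t) : ℤ) : ℝ)) * ((a : ℝ) / q)) := fun a => by
    rw [Complex.ofReal_pow, ← Complex.conj_mul', Gw, map_sum, sum_mul_sum]
    refine sum_congr rfl fun t _ => sum_congr rfl fun s _ => ?_
    rw [one_mul, one_mul, ← ee_neg, ← ee_add]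
    congr 1
    push_cast
    ring
  have h : ∑ a ∈ range q, ‖Gw M (fun _ => 1) (Icc 1 J) ((a : ℝ) / q)‖ ^ 2 =
      ∑ t ∈ Icc 1 J, (q : ℝ) * ((Icc 1 J).filter fun s =>
        (2 : ZMod q) ^ (M * s) = 2 ^ (M * t)).card := by
    apply Complex.ofReal_injective
    rw [Complex.ofReal_sum, sum_congr rfl fun a _ => e a, sum_comm, Complex.ofReal_sum]
    refine sum_congr rfl fun t _ => ?_
    rw [sum_comm, sum_congr rfl fun s _ => GQx.ort hq _, ← sum_filter, sum_const, nsmul_eq_mul,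
      mul_comm]
    push_cast
    congr 3
    ext s
    rw [mem_filter, mem_filter, ← ZMod.intCast_zmod_eq_zero_iff_dvd]
    push_cast
    rw [sub_eq_zero]
  simp only [Gn, norm_div, div_pow, Complex.norm_natCast]
  rw [← sum_div, h, ← mul_sum, div_le_iff₀ (by positivity), mul_assoc]
  refine mul_le_mul_of_nonneg_left ((sum_le_card_nsmul _ _ _ fun t _ =>
    (hORD M q J _ hq hc).2).trans_eq ?_) (by positivity)
  rw [nsmul_eq_mul, Nat.card_Icc, Nat.add_sub_cancel]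
  field_simp

end Pool.Agent.P.MP_42fc1a_nt.EK
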