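import Pool.Agent.P.MP_42fc1a_nt.EK.IfaceB

/-! Step H40. -/

namespace Pool.Agent.P.MP_42fc1a_nt.EK

open Finset Real Filter Topology MeasureTheory
open Pool.Agent.P.MP_e86632_nt (ee nn ee_add norm_ee ee_neg ee_zero)
open Pool.Agent.P.MP_8be758_nt.Avg (gs red ft nsq gs_pos gs_le_one gs_neg gs_anti)
open Pool.Agent.P.MP_e94e4b_nt.PF (sgm)
open Pool.Agent.P.E2
open ArithmeticFunction (vonMangoldt moebius)
open DirichletCharacter (LFunction)
open scoped Classical

namespace H40x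

theorem nlt {x y z w : ℕ} (h : 2 ^ x + 2 ^ y = 2 ^ z + 2 ^ w) (hxy : x ≤ y) : ¬ y < w := by
  intro hw
  have a1 : 2 ^ x ≤ 2 ^ y := Nat.pow_le_pow_right (by norm_num) hxy
  have a2 : 2 ^ (y + 1) ≤ 2 ^ w := Nat.pow_le_pow_right (by norm_num) hw
  have a3 : 0 < 2 ^ z := by positivity
  rw [pow_succ] at a2
  omega

theorem ord {x y z w : ℕ} (h : 2 ^ x + 2 ^ y = 2 ^ z + 2 ^ w) (hxy : x ≤ y) (hzw : z ≤ w) :
    z = x ∧ w = y := by
  have a1 := nlt h hxy
  have a2 := nlt h.symm hzw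
  obtain rfl : w = y := by omega
  exact ⟨(Nat.pow_right_injective le_rfl (by simpa using h)).symm, rfl⟩

theorem two {x y z w : ℕ} (h : 2 ^ x + 2 ^ y = 2 ^ z + 2 ^ w) :
    (z = x ∧ w = y) ∨ (z = y ∧ w = x) := by
  rcases le_total x y with h1 | h1 <;> rcases le_total z w with h2 | h2
  · exact Or.inl (ord h h1 h2)
  · exact Or.inr (ord (h.trans (add_comm _ _)) h1 h2).symm
  · exact Or.inr (ord ((add_comm _ _).trans h) h1 h2)
  · exact Or.inl (ord ((add_comm _ _).trans (h.trans (add_comm _ _))) h1 h2).symm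

theorem one (s : Finset ℕ) (a b : ℕ) :
    ∑ c ∈ s, ∑ d ∈ s, (if c = a then (if d = b then (1 : ℝ) else 0) else 0) ≤ 1 := by
  simp only [sum_ite_irrel, sum_const_zero, sum_ite_eq']
  split_ifs <;> norm_num

end H40x

theorem p_H40 :
    S_H40 := by
  intro M L hM
  have key : ∀ a b : ℕ, ∑ c ∈ Icc 1 L, ∑ d ∈ Icc 1 L,
      (if h4 M a b c d = 0 then (1 : ℝ) else 0) ≤ 2 := by
    intro a b
    have h1 := H40x.one (Icc 1 L) a b
    have h2 := H40x.one (Icc 1 L) b a
    refine le_trans ?_ ((add_le_add h1 h2).trans (by norm_num))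
    rw [← sum_add_distrib]
    refine sum_le_sum fun c _ => ?_
    rw [← sum_add_distrib]
    refine sum_le_sum fun d _ => ?_
    by_cases h : h4 M a b c d = 0
    · have e : 2 ^ (M * a) + 2 ^ (M * b) = 2 ^ (M * c) + 2 ^ (M * d) := by
        unfold h4 at h
        have : (2 : ℤ) ^ (M * a) + 2 ^ (M * b) = 2 ^ (M * c) + 2 ^ (M * d) := by linarith
        exact_mod_cast this
      have hM0 : 0 < M := by omega
      rw [if_pos h]
      rcases H40x.two e with ⟨e1, e2⟩ | ⟨e1, e2⟩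
      · rw [if_pos (Nat.eq_of_mul_eq_mul_left hM0 e1), if_pos (Nat.eq_of_mul_eq_mul_left hM0 e2)]
        split_ifs <;> norm_num
      · have c1 := Nat.eq_of_mul_eq_mul_left hM0 e1
        have c2 := Nat.eq_of_mul_eq_mul_left hM0 e2
        rw [if_pos c1, if_pos c2]
        split_ifs <;> norm_num
    · rw [if_neg h]
      split_ifs <;> norm_num
  calc _ ≤ ∑ _a ∈ Icc 1 L, ∑ _b ∈ Icc 1 L, (2 : ℝ) :=
        sum_le_sum fun a _ => sum_le_sum fun b _ => key a b
    _ = 2 * (L : ℝ) ^ 2 := by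
        simp only [sum_const, Nat.card_Icc, nsmul_eq_mul, Nat.add_sub_cancel]
        ring

end Pool.Agent.P.MP_42fc1a_nt.EK
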