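import Pool.Agent.P.MP_42fc1a_nt.EK.LibMu

/-! Step INV. -/

namespace Pool.Agent.P.MP_42fc1a_nt.EK

open Finset Real Filter Topology MeasureTheory
open Pool.Agent.P.MP_e86632_nt (ee nn ee_add norm_ee ee_neg ee_zero)
open Pool.Agent.P.MP_8be758_nt.Avg (gs red ft nsq gs_pos gs_le_one gs_neg gs_anti)
open Pool.Agent.P.E2
open scoped Classical

namespace INVx

theorem ev (c : ℝ) : ∀ᶠ u : ℕ in atTop, c * (u : ℝ) ^ 2 ≤ 8 ^ u := by
  have h := tendsto_pow_const_div_const_pow_of_one_lt 2 (show (1 : ℝ) < 8 by norm_num)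
  have h2 := (h.const_mul c).eventually (gt_mem_nhds (show c * 0 < 1 by simp))
  filter_upwards [h2] with u hu
  rw [← mul_div_assoc, div_lt_one (by positivity)] at hu
  exact hu.le

theorem num {μ P y e c C G L : ℝ} (hμ : 0 < μ) (hP : 0 < P) (hy : 1 ≤ y) (he : 0 ≤ e)
    (h1 : P * e ≤ 1) (hc0 : 0 < c) (hc : 1 / c ≤ y ^ 2 / μ ^ 2) (hG : 0 ≤ G) (hL : 0 ≤ L)
    (h : 256 * |C| / μ ^ 5 * (G * L) ≤ y ^ 3) :
    64 * P ^ 4 / μ * (2 * P / c * (y * e + y ^ 2 / P)) * (G * (y / c) * L * (C / y ^ 20)) ≤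
      (P ^ 2 / y ^ 5) ^ 2 := by
  have y0 : 0 < y := by linarith
  have a1 : 2 * P / c * (y * e + y ^ 2 / P) ≤ 4 * y ^ 2 * (y ^ 2 / μ ^ 2) := by
    have a2 : 2 * P / c * (y * e + y ^ 2 / P) = 2 * (y * (P * e) + y ^ 2) * (1 / c) := by
      field_simp
    have a3 : y * (P * e) ≤ y ^ 2 := by nlinarith
    rw [a2]
    exact mul_le_mul (by linarith) hc (by positivity) (by positivity)
  have a4 : G * (y / c) * L * (C / y ^ 20) ≤ G * (y * (y ^ 2 / μ ^ 2)) * L * (|C| / y ^ 20) := by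
    rw [div_eq_mul_one_div y c]
    calc _ ≤ G * (y * (1 / c)) * L * (|C| / y ^ 20) := by gcongr; exact le_abs_self C
      _ ≤ _ := by gcongr
  calc _ ≤ 64 * P ^ 4 / μ * (2 * P / c * (y * e + y ^ 2 / P)) *
        (G * (y * (y ^ 2 / μ ^ 2)) * L * (|C| / y ^ 20)) := by gcongr
    _ ≤ 64 * P ^ 4 / μ * (4 * y ^ 2 * (y ^ 2 / μ ^ 2)) *
        (G * (y * (y ^ 2 / μ ^ 2)) * L * (|C| / y ^ 20)) := by gcongr
    _ = P ^ 4 / y ^ 13 * (256 * |C| / μ ^ 5 * (G * L)) := by field_simp; ring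
    _ ≤ P ^ 4 / y ^ 13 * y ^ 3 := by gcongr
    _ = _ := by field_simp

end INVx

theorem p_INV (hINVC : S_INVC) (hPAR : S_PAR) :
    S_INV := by
  intro M W lam hM hW l0 l1
  obtain ⟨b0, D0, h⟩ := hPAR M lam hM l0 l1
  refine ⟨10 * M * b0, D0, fun D hD => ?_⟩
  obtain ⟨b1, K, g0, g1, C, h⟩ := h D hD
  have q1 := (h 1 le_rfl).1
  refine ⟨b0 * b1, K, Nat.mul_pos q1.hb0 q1.hb1, ?_⟩
  filter_upwards [eventually_ge_atTop 1,
    INVx.ev (256 * |C| / (lam ^ 2 / 16) ^ 5 * ((g1 + 1) * b1))] with u hu hc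
  obtain ⟨pr, he⟩ := h u hu
  obtain ⟨T, hT, c1, c2⟩ := hINVC _ _ _ _ _ _ _ _ _ _ _ _ _ W pr hW
  refine ⟨T, hT, by simpa using c1, fun α hα => ?_⟩
  have u1 : (1 : ℝ) ≤ u := by exact_mod_cast hu
  have c3 := c2 α (by
    rw [show M * b0 * (10 * u) = 10 * M * b0 * u by ring]
    simpa using hα)
  refine abs_le_of_sq_le_sq' (c3.trans ?_) (by positivity) |>.2
  have f : ∀ k : ℕ, (2 : ℝ) ^ (k * u) = (2 ^ u) ^ k := fun k => by rw [mul_comm, pow_mul]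
  have f4 : (4 : ℝ) ^ u = (2 ^ u) ^ 2 := by rw [← f, pow_mul]; norm_num
  have f8 : (8 : ℝ) ^ u = (2 ^ u) ^ 3 := by rw [← f, pow_mul]; norm_num
  have m4 := mu_ceil' l0 l1 u
  rw [f4] at m4
  rw [f 20, f 5, f4, Nat.cast_pow, Nat.cast_ofNat]
  refine INVx.num (by positivity) (by positivity) (one_le_pow₀ (by norm_num)) (by positivity) he
    (by positivity) m4 (by positivity) (by positivity) (le_trans ?_ (hc.trans_eq f8))
  rw [mul_assoc _ ((g1 + 1 : ℝ) * b1)]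
  refine mul_le_mul_of_nonneg_left ?_ (by positivity)
  push_cast
  have : (0 : ℝ) ≤ b1 * u := by positivity
  nlinarith [mul_le_mul_of_nonneg_left u1 this]

end Pool.Agent.P.MP_42fc1a_nt.EK
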