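import Pool.Agent.P.MP_42fc1a_nt.EK.IfaceA

/-! Step INVC. -/

namespace Pool.Agent.P.MP_42fc1a_nt.EK

open Finset Real Filter Topology MeasureTheory
open Pool.Agent.P.MP_e86632_nt (ee nn ee_add norm_ee ee_neg ee_zero)
open Pool.Agent.P.MP_8be758_nt.Avg (gs red ft nsq gs_pos gs_le_one gs_neg gs_anti)
open Pool.Agent.P.MP_e94e4b_nt.PF (sgm)
open Pool.Agent.P.E2
open ArithmeticFunction (vonMangoldt moebius)
open DirichletCharacter (LFunction)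
open scoped Classical

namespace INVCx

lemma ms_nn {P p g : ℕ} {α : ℝ} {H1 H2 : Finset ℤ} {ϱ1 ϱ2 : ℤ → ℝ} (h1 : ∀ h, 0 ≤ ϱ1 h)
    (h2 : ∀ h, 0 ≤ ϱ2 h) : 0 ≤ ms P p g α H1 ϱ1 H2 ϱ2 :=
  sum_nonneg fun _ _ => mul_nonneg (mul_nonneg (h1 _) (h2 _))
    (mul_nonneg (by unfold fe; positivity) (by unfold fe; positivity))

lemma cardP (k : ℕ) (S : Finset ℕ) : ((powersetCard k S).card : ℝ) ≤ 2 ^ S.card := by
  rw [card_powersetCard]
  exact_mod_cast Nat.choose_le_two_pow _ _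

lemma sum_bd {ι : Type} {S : Finset ι} {f : ι → ℝ} {c N : ℝ} (h : ∀ i ∈ S, f i ≤ c) (hc : 0 ≤ c)
    (hN : (S.card : ℝ) ≤ N) : ∑ i ∈ S, f i ≤ N * c :=
  (sum_le_card_nsmul S f c h).trans (by
    rw [nsmul_eq_mul]
    exact mul_le_mul_of_nonneg_right hN hc)

end INVCx

open INVCx in
theorem p_INVC (hLAW : S_LAW) (hONE : S_ONE) (hGOOD : S_GOOD) (hMASS : S_MASS) :
    S_INVC := by
  intro lam μ B M b0 b1 u n0 n1 G0 G1 P K W par hW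
  have hμ : 0 < μ := by rw [par.hμ]; have := par.l0; positivity
  have hB : 0 ≤ B := le_trans (by positivity) par.bN
  have hA : ∀ R : Finset ℕ, ∃ H ϱ, R ∈ powersetCard ⌈μ * u⌉₊ (range u) →
      Law M (b0 * b1) R M (2 ^ (M * (b0 * b1) * u))
        ((1 / (b0 * b1 : ℕ) : ℝ) ^ ⌈μ * u⌉₊) H ϱ := fun R => by
    by_cases h : R ∈ powersetCard ⌈μ * u⌉₊ (range u)
    · obtain ⟨h1, h2⟩ := mem_powersetCard.1 h
      obtain ⟨H, ϱ, k⟩ := hLAW M (b0 * b1) 0 u R par.m2 (Nat.mul_pos par.hb0 par.hb1)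
        (by rwa [zero_add, ← range_eq_Ico])
      rw [h2, mul_zero, zero_add, mul_one] at k
      exact ⟨H, ϱ, fun _ => k⟩
    · exact ⟨∅, 0, fun k => absurd k h⟩
  choose H ϱ hH using hA
  obtain ⟨T, hT, hc, hm⟩ := hGOOD lam μ B M b0 b1 u n0 n1 G0 G1 P K H ϱ par hH
  refine ⟨T, hT, hc, fun α hα => ?_⟩
  obtain ⟨len, hl, hs⟩ := hMASS lam μ B α M b0 b1 u n0 n1 G0 G1 P K W par hW hα
  have hA0 : ∀ (i : ℕ) (R0 : Finset ℕ), ∃ H0 ϱ0,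
      R0 ∈ powersetCard ⌈μ / 2 * len i⌉₊ (Ico i (i + len i)) →
      Law M b0 R0 (M * (b0 * i + 1)) (2 ^ (M * b0 * len i))
        ((1 / (b0 : ℝ)) ^ ⌈μ / 2 * len i⌉₊) H0 ϱ0 := fun i R0 => by
    by_cases h : R0 ∈ powersetCard ⌈μ / 2 * len i⌉₊ (Ico i (i + len i))
    · obtain ⟨h1, h2⟩ := mem_powersetCard.1 h
      obtain ⟨H, ϱ, k⟩ := hLAW M b0 i (len i) R0 par.m2 par.hb0 h1
      rw [h2] at k
      exact ⟨H, ϱ, fun _ => k⟩
    · exact ⟨∅, 0, fun k => absurd k h⟩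
  choose H0 ϱ0 hH0 using hA0
  generalize hmm : 2 * P / μ ^ (2 * ⌈μ * u⌉₊) *
    (2 ^ u * (1 / (b0 * b1 : ℕ) : ℝ) ^ ⌈μ * u⌉₊ + 4 ^ u / P) = m at hm ⊢
  have m0 : 0 ≤ m := by rw [← hmm]; positivity
  set S : ℕ → ℝ := fun p => ∑ g ∈ Icc G0 G1, ∑ R ∈ powersetCard ⌈μ * u⌉₊ (range u),
      ∑ i ∈ (range (b1 * u)).filter (fun i => i + len i ≤ b1 * u),
        ∑ R0 ∈ powersetCard ⌈μ / 2 * len i⌉₊ (Ico i (i + len i)),
          ms P p (2 ^ (M * g)) α (H R) (ϱ R) (H0 i R0) (ϱ0 i R0) /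
            (μ ^ (2 * ⌈μ * u⌉₊) * μ ^ (2 * ⌈μ / 2 * len i⌉₊)) with hS
  have one : ∀ p ∈ T, (∑ v ∈ T, (nb M (b0 * b1 * u) lam p (v * α) : ℝ)) ^ 2 ≤
      64 * (P : ℝ) ^ 3 / μ * m * S p := fun p hp => by
    have k := hONE lam μ B m α M b0 b1 u n0 n1 G0 G1 P K p T len H ϱ H0 ϱ0 par hT (hT hp) hl
      (fun R hR => ⟨_, _, _, hH R hR⟩) (fun i R0 hR => ⟨_, _, _, hH0 i R0 hR⟩) (hm p hp)
    change _ ≤ m * (128 * (P : ℝ) ^ 3) * S p at k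
    have e : 64 * (P : ℝ) ^ 3 / μ * m * S p = m * (128 * (P : ℝ) ^ 3) * S p / (2 * μ) := by
      field_simp
      ring
    rw [e, le_div_iff₀ (by positivity), mul_comm]
    exact k
  have S0 : ∀ p, 0 ≤ S p := fun p => sum_nonneg fun g _ => sum_nonneg fun R hR =>
    sum_nonneg fun i _ => sum_nonneg fun R0 hR0 =>
      div_nonneg (ms_nn (hH R hR).sub.pos (hH0 i R0 hR0).sub.pos) (by positivity)
  have tot : ∑ p ∈ Pn P, S p ≤
      (G1 + 1) * (2 ^ u * ((b1 * u : ℕ) * (B / μ ^ (2 * ⌈μ * u⌉₊)))) := by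
    simp only [hS]
    rw [sum_comm]
    refine sum_bd (fun g hg => ?_) (by positivity) (by
      rw [Nat.card_Icc]
      exact_mod_cast Nat.sub_le _ _)
    rw [sum_comm]
    refine sum_bd (fun R hR => ?_) (by positivity) (by simpa using cardP ⌈μ * u⌉₊ (range u))
    rw [sum_comm]
    refine sum_bd (fun i hi => ?_) (by positivity) (by
      exact_mod_cast (card_filter_le _ _).trans_eq (card_range _))
    rw [sum_comm]
    refine (sum_bd (c := B / μ ^ (2 * ⌈μ * u⌉₊) / 2 ^ len i) (N := 2 ^ len i) (fun R0 hR0 => ?_)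
      (by positivity) (by simpa using cardP ⌈μ / 2 * len i⌉₊ (Ico i (i + len i)))).trans_eq
      (by field_simp)
    have k := hs g i R R0 _ _ _ _ (mem_Icc.1 hg).1 (mem_Icc.1 hg).2 (mem_filter.1 hi).2 (hH R hR)
      (hH0 i R0 hR0)
    rw [← sum_div]
    generalize ∑ p ∈ Pn P, ms P p (2 ^ (M * g)) α (H R) (ϱ R) (H0 i R0) (ϱ0 i R0) = x at k
    have e : x / (μ ^ (2 * ⌈μ * u⌉₊) * μ ^ (2 * ⌈μ / 2 * len i⌉₊)) =
        2 ^ len i / μ ^ (2 * ⌈μ / 2 * len i⌉₊) * x / μ ^ (2 * ⌈μ * u⌉₊) / 2 ^ len i := by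
      field_simp
    rw [e]
    gcongr
  have cT : (T.card : ℝ) ≤ P := by
    have : T.card ≤ P := (card_le_card hT).trans ((card_filter_le _ _).trans (by
      rw [Nat.card_Ioc]; omega))
    exact_mod_cast this
  rw [sum_comm]
  refine sq_sum_le_card_mul_sum_sq.trans ?_
  have k1 : ∑ p ∈ T, (∑ v ∈ T, (nb M (b0 * b1 * u) lam p (v * α) : ℝ)) ^ 2 ≤
      64 * (P : ℝ) ^ 3 / μ * m * ((G1 + 1) * (2 ^ u * ((b1 * u : ℕ) * (B / μ ^ (2 * ⌈μ * u⌉₊))))) := by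
    refine (sum_le_sum one).trans ?_
    rw [← mul_sum]
    exact mul_le_mul_of_nonneg_left
      ((sum_le_sum_of_subset_of_nonneg hT fun p _ _ => S0 p).trans tot) (by positivity)
  refine (mul_le_mul cT k1 (sum_nonneg fun _ _ => sq_nonneg _) (by positivity)).trans_eq ?_
  ring

end Pool.Agent.P.MP_42fc1a_nt.EK
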