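import Pool.Agent.P.MP_42fc1a_nt.EK.IfaceD

/-! Step L1D. -/

namespace Pool.Agent.P.MP_42fc1a_nt.EK

open Finset Real Filter Topology MeasureTheory
open Pool.Agent.P.MP_e86632_nt (ee nn ee_add norm_ee ee_neg ee_zero)
open Pool.Agent.P.MP_8be758_nt.Avg (gs red ft nsq gs_pos gs_le_one gs_neg gs_anti)
open Pool.Agent.P.MP_e94e4b_nt.PF (sgm)
open Pool.Agent.P.E2
open ArithmeticFunction (vonMangoldt moebius)
open DirichletCharacter (LFunction)
open scoped Classical

namespace L1Dx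

lemma lbd (hLB0 : S_LB0) {A q : ℕ} [NeZero q] {χ : DirichletCharacter ℂ q} {r : ℝ} {s : ℂ}
    (hr : 3 ≤ r) (hq : (q : ℝ) ≤ r ^ A) (hχ : χ ≠ 1) (hs : ‖s - 1‖ ≤ 1 / r) :
    ‖LFunction χ s‖ ≤ (Real.exp (3 * A) * (1 + 3 * A) + 12) * r := by
  have r0 : 0 < r := by linarith
  have r1 : 1 / r ≤ 1 / 3 := one_div_le_one_div_of_le (by norm_num) hr
  have q0 : (0 : ℝ) < q := by exact_mod_cast NeZero.pos q
  have h1 : 1 - 1 / r ≤ s.re := by
    have := (abs_le.1 ((Complex.abs_re_le_norm (s - 1)).trans hs)).1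
    simp only [Complex.sub_re, Complex.one_re] at this
    linarith
  have h2 : ‖s‖ ≤ 2 := by
    have := norm_sub_norm_le s 1
    rw [norm_one] at this
    linarith
  have h3 : Real.log q ≤ A * r := by
    refine (Real.log_le_log q0 hq).trans ?_
    rw [Real.log_pow]
    exact mul_le_mul_of_nonneg_left ((Real.log_le_sub_one_of_pos r0).trans (by linarith))
      (Nat.cast_nonneg A)
  have h4 : (q : ℝ) ^ (3 * (1 / r)) ≤ Real.exp (3 * A) := by
    rw [Real.rpow_def_of_pos q0, Real.exp_le_exp]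
    refine (mul_le_mul_of_nonneg_right h3 (by positivity)).trans_eq ?_
    field_simp
  have h5 : 1 + 3 * Real.log q ≤ (1 + 3 * A) * r := by nlinarith
  have h6 := mul_le_mul h4 h5 (by have := Real.log_natCast_nonneg q; positivity) (by positivity)
  refine ((hLB0 q χ s hχ (by linarith)).2 (1 / r) (by positivity) h1).trans ?_
  nlinarith

end L1Dx

open L1Dx in
theorem p_L1D (hLB0 : S_LB0) (hSIE : S_SIE) :
    S_L1D := by
  intro A
  obtain ⟨c, c0, hc⟩ := hSIE (((A + 1 : ℕ) : ℝ)⁻¹) (by positivity)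
  obtain ⟨C, hC⟩ : ∃ C : ℝ, C = Real.exp (3 * A) * (1 + 3 * A) + 12 := ⟨_, rfl⟩
  filter_upwards [eventually_ge_atTop 3, eventually_gt_atTop (2 * C / c)] with r hr hr2 q _ χ s hq
    hχ h2 hs h0
  have r0 : 0 < r := by linarith
  have r1 : 1 ≤ r := by linarith
  have q0 : (0 : ℝ) < q := by exact_mod_cast NeZero.pos q
  have k1 : (q : ℝ) ^ (((A + 1 : ℕ) : ℝ)⁻¹) ≤ r := by
    refine (Real.rpow_le_rpow q0.le (hq.trans (pow_le_pow_right₀ r1 (Nat.le_succ A)))
      (by positivity)).trans_eq ?_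
    exact Real.pow_rpow_inv_natCast r0.le (Nat.succ_ne_zero A)
  have k2 : c / r ≤ ‖LFunction χ 1‖ :=
    (div_le_div_of_nonneg_left c0.le (by positivity) k1).trans (hc q χ hχ h2)
  have k3 : 1 / r ^ 4 < 1 / r := one_div_lt_one_div_of_lt r0 (by
    have := pow_lt_pow_right₀ (show 1 < r by linarith) (show 1 < 4 by norm_num)
    rwa [pow_one] at this)
  have k4 := Complex.dist_le_div_mul_dist_of_mapsTo_ball (f := LFunction χ) (c := 1) (z := s)
    (R₁ := 1 / r) (R₂ := 2 * C * r)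
    (DirichletCharacter.differentiable_LFunction hχ).differentiableOn (fun z hz => by
      have a1 := lbd hLB0 hr hq hχ (mem_ball_iff_norm.1 hz).le
      have a2 := lbd hLB0 (s := 1) hr hq hχ (by rw [sub_self, norm_zero]; positivity)
      rw [← hC] at a1 a2
      rw [mem_closedBall_iff_norm]
      refine (norm_sub_le _ _).trans ?_
      linarith) (mem_ball_iff_norm.2 (hs.trans_lt k3))
  rw [h0, dist_eq_norm, dist_eq_norm, zero_sub, norm_neg] at k4
  have C0 : 0 < C := by rw [hC]; positivity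
  have k5 := k2.trans (k4.trans (mul_le_mul_of_nonneg_left hs (by positivity)))
  rw [div_lt_iff₀ c0] at hr2
  have e : 2 * C * r / (1 / r) * (1 / r ^ 4) = 2 * C / r / r := by field_simp
  rw [e, div_le_div_iff_of_pos_right r0, le_div_iff₀ r0] at k5
  linarith

end Pool.Agent.P.MP_42fc1a_nt.EK
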