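import Pool.Agent.P.MP_42fc1a_nt.EK.IfaceA

/-! Step LAW. -/

namespace Pool.Agent.P.MP_42fc1a_nt.EK

open Finset Real Filter Topology MeasureTheory
open Pool.Agent.P.MP_e86632_nt (ee nn ee_add norm_ee ee_neg ee_zero)
open Pool.Agent.P.MP_8be758_nt.Avg (gs red ft nsq gs_pos gs_le_one gs_neg gs_anti)
open Pool.Agent.P.MP_e94e4b_nt.PF (sgm)
open Pool.Agent.P.E2
open ArithmeticFunction (vonMangoldt moebius)
open DirichletCharacter (LFunction)
open scoped Classical

namespace LAWx

/-- the new frequency -/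
def vv (M : ℕ) (t : ℤ × ℕ × ℕ) : ℤ := t.1 + 2 ^ (M * t.2.1) - 2 ^ (M * t.2.2)

theorem card_Bl (b k : ℕ) : (Bl b k).card = b := by
  rw [Bl, Nat.card_Ioc, add_mul, one_mul, Nat.add_sub_cancel_left]

theorem sq_Gw (M : ℕ) (ω : ℕ → ℂ) (S : Finset ℕ) (x : ℝ) :
    ((‖Gw M ω S x‖ ^ 2 : ℝ) : ℂ) = ∑ s ∈ S, ∑ s' ∈ S,
      ω s * (starRingEnd ℂ) (ω s') * (ee (2 ^ (M * s) * x) * ee (-(2 ^ (M * s') * x))) := by
  rw [← Complex.normSq_eq_norm_sq, ← Complex.mul_conj, Gw, map_sum, sum_mul_sum]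
  refine sum_congr rfl fun s _ => sum_congr rfl fun s' _ => ?_
  rw [map_mul, ee_neg]; ring

theorem step {M b k i Y Y' : ℕ} {e : ℝ} {R : Finset ℕ} {H : Finset ℤ} {ϱ : ℤ → ℝ}
    (hM : 1 ≤ M) (hb : 1 ≤ b) (hk : k ∉ R) (L : Law M b R i Y e H ϱ) (N : ℤ)
    (hN : ∀ h ∈ H, 2 * |h| < N) (hd : ∀ s ∈ Bl b k, N ∣ 2 ^ (M * s))
    (hs : ∀ t ∈ H ×ˢ (Bl b k ×ˢ Bl b k), ∃ y : ℤ, vv M t = 2 ^ i * y ∧ 2 * |y| < Y') :
    ∃ H' ϱ', Law M b (insert k R) i Y' (1 / (b : ℝ) * e) H' ϱ' := by
  have hb0 : (0 : ℝ) < b := by exact_mod_cast hb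
  set T := H ×ˢ (Bl b k ×ˢ Bl b k) with hT
  refine ⟨T.image (vv M), fun x => ∑ t ∈ T.filter (fun t => vv M t = x), ϱ t.1 / (b : ℝ) ^ 2,
    ⟨fun x => sum_nonneg fun t _ => div_nonneg (L.sub.pos _) (by positivity), fun x => ?_, ?_⟩,
    ?_, ?_⟩
  · have he : 0 ≤ e := (L.sub.pos 0).trans (L.sub.atom 0)
    have hc : (T.filter (fun t => vv M t = x)).card ≤ (Bl b k).card := by
      refine card_le_card_of_injOn (fun t => t.2.1) (fun t ht => ?_) ?_
      · simp only [hT, coe_filter, mem_product, Set.mem_ofPred_eq] at ht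
        exact ht.1.2.1
      · rintro ⟨h, s, u⟩ h1 ⟨h', s', u'⟩ h2 h3
        simp only [hT, coe_filter, mem_product, Set.mem_ofPred_eq, vv] at h1 h2 h3
        subst h3
        have e1 : h - h' = 2 ^ (M * u) - 2 ^ (M * u') := by linarith [h1.2, h2.2]
        have e2 : N ∣ h - h' := e1 ▸ dvd_sub (hd u h1.1.2.2) (hd u' h2.1.2.2)
        have e3 : |h - h'| < N := by
          have := abs_sub h h'
          linarith [hN h h1.1.1, hN h' h2.1.1]
        have e4 : h - h' = 0 := Int.eq_zero_of_abs_lt_dvd e2 e3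
        have e5 : (2 : ℤ) ^ (M * u) = 2 ^ (M * u') := by linarith
        have e6 : M * u = M * u' := pow_right_injective₀ (by norm_num) (by norm_num) e5
        have e7 : u = u' := Nat.eq_of_mul_eq_mul_left hM e6
        rw [e7, sub_eq_zero.1 e4]
    rw [card_Bl] at hc
    have hc' : ((T.filter (fun t => vv M t = x)).card : ℝ) ≤ b := by exact_mod_cast hc
    calc _ ≤ (T.filter (fun t => vv M t = x)).card • (e / (b : ℝ) ^ 2) :=
          sum_le_card_nsmul _ _ _ fun t _ =>
            div_le_div_of_nonneg_right (L.sub.atom _) (by positivity)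
      _ ≤ b * (e / (b : ℝ) ^ 2) := by
          rw [nsmul_eq_mul]; exact mul_le_mul_of_nonneg_right hc' (by positivity)
      _ = _ := by field_simp
  · rw [sum_fiberwise_of_maps_to fun t ht => mem_image_of_mem _ ht, hT, sum_product]
    refine le_trans (le_of_eq (sum_congr rfl fun h _ => ?_)) L.sub.tot
    simp only [sum_const, card_product, card_Bl, nsmul_eq_mul]
    push_cast; field_simp
  · intro x hx
    obtain ⟨t, ht, rfl⟩ := mem_image.1 hx
    exact hs t ht
  · intro ω hω
    obtain ⟨c, hc, hx⟩ := L.exp ω hω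
    refine ⟨fun x => ∑ t ∈ T.filter (fun t => vv M t = x),
      c t.1 * (ω t.2.1 * (starRingEnd ℂ) (ω t.2.2)) / (b : ℂ) ^ 2, fun x => ?_, fun x => ?_⟩
    · refine (norm_sum_le _ _).trans (sum_le_sum fun t _ => ?_)
      rw [norm_div, norm_pow, Complex.norm_natCast, norm_mul, norm_mul, Complex.norm_conj]
      refine div_le_div_of_nonneg_right ?_ (by positivity)
      refine le_trans (mul_le_of_le_one_right (norm_nonneg _) ?_) (hc _)
      exact mul_le_one₀ (hω _) (norm_nonneg _) (hω _)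
    · have e1 : ∑ h ∈ T.image (vv M), (∑ t ∈ T.filter (fun t => vv M t = h),
          c t.1 * (ω t.2.1 * (starRingEnd ℂ) (ω t.2.2)) / (b : ℂ) ^ 2) * ee (h * x) =
          ∑ t ∈ T, c t.1 * (ω t.2.1 * (starRingEnd ℂ) (ω t.2.2)) / (b : ℂ) ^ 2 *
            ee (vv M t * x) := by
        rw [← sum_fiberwise_of_maps_to (s := T) (t := T.image (vv M)) (g := vv M)
          fun t ht => mem_image_of_mem _ ht]
        refine sum_congr rfl fun h _ => ?_
        rw [sum_mul]
        refine sum_congr rfl fun t ht => ?_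
        rw [(mem_filter.1 ht).2]
      rw [e1, FF, prod_insert hk, ← FF, Complex.ofReal_mul, hx, div_pow, Complex.ofReal_div,
        sq_Gw, hT, sum_product, mul_sum]
      refine sum_congr rfl fun h _ => ?_
      rw [sum_product, sum_div, sum_mul]
      refine sum_congr rfl fun s _ => ?_
      rw [sum_div, sum_mul]
      refine sum_congr rfl fun u _ => ?_
      have e2 : ((vv M (h, s, u) : ℤ) : ℝ) * x =
          h * x + (2 ^ (M * s) * x + -(2 ^ (M * u) * x)) := by
        simp only [vv]; push_cast; ring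
      rw [e2, ee_add, ee_add]
      push_cast; ring

end LAWx

theorem p_LAW :
    S_LAW := by
  intro M b lo n R hM hb
  induction n generalizing R with
  | zero =>
    intro hR
    have : R = ∅ := by simpa using hR
    subst this
    refine ⟨{0}, fun _ => 1, ⟨fun _ => zero_le_one, fun _ => by simp, by simp⟩, ?_, ?_⟩
    · intro h hh
      exact ⟨0, by simpa using hh, by simp⟩
    · intro ω _
      exact ⟨fun _ => 1, fun _ => by simp, fun x => by simp [FF]⟩
  | succ n ih =>
    intro hR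
    by_cases hk : lo + n ∈ R
    · obtain ⟨H, ϱ, L⟩ := ih (R.erase (lo + n)) fun x hx => by
        have h1 := mem_Ico.1 (hR (mem_of_mem_erase hx))
        have h2 := ne_of_mem_erase hx
        exact mem_Ico.2 ⟨h1.1, by omega⟩
      have hB : ∀ s ∈ Bl b (lo + n), ∃ a, M * s = M * (b * lo + 1) + (M * b * n + a) ∧
          M * b * n + a + 1 ≤ M * b * (n + 1) := fun s hs => by
        obtain ⟨h1, h2⟩ := mem_Ioc.1 hs
        obtain ⟨a, rfl⟩ := Nat.exists_eq_add_of_lt h1
        refine ⟨M * a, by ring, ?_⟩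
        have h3 : a + 1 ≤ b := by nlinarith
        have h4 := Nat.mul_le_mul_left M h3
        nlinarith
      have := LAWx.step (k := lo + n) (Y' := 2 ^ (M * b * (n + 1))) (by omega) hb
        (notMem_erase _ _) L (2 ^ (M * (b * lo + 1)) * 2 ^ (M * b * n)) ?_ ?_ ?_
      · rw [insert_erase hk, ← pow_succ', card_erase_add_one hk] at this
        exact this
      · intro h hh
        obtain ⟨y, rfl, hy⟩ := L.sup h hh
        rw [abs_mul, abs_of_pos (by positivity : (0 : ℤ) < 2 ^ (M * (b * lo + 1))), mul_left_comm]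
        exact mul_lt_mul_of_pos_left (by exact_mod_cast hy) (by positivity)
      · intro s hs
        obtain ⟨a, ha, -⟩ := hB s hs
        rw [ha, pow_add, pow_add, ← mul_assoc]
        exact dvd_mul_right _ _
      · rintro ⟨h, s, u⟩ ht
        simp only [mem_product] at ht
        obtain ⟨y, rfl, hy⟩ := L.sup h ht.1
        obtain ⟨a, ha, ha'⟩ := hB s ht.2.1
        obtain ⟨c, hc, hc'⟩ := hB u ht.2.2
        refine ⟨y + 2 ^ (M * b * n + a) - 2 ^ (M * b * n + c), ?_, ?_⟩
        · simp only [LAWx.vv]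
          rw [ha, hc, pow_add _ (M * (b * lo + 1)), pow_add _ (M * (b * lo + 1))]; ring
        · have k1 : ∀ a, M * b * n + a + 1 ≤ M * b * (n + 1) →
              (2 : ℤ) ^ (M * b * n) ≤ 2 ^ (M * b * n + a) ∧
                2 * (2 : ℤ) ^ (M * b * n + a) ≤ 2 ^ (M * b * (n + 1)) := fun a h =>
            ⟨pow_le_pow_right₀ (by norm_num) (by omega),
              by rw [← pow_succ']; exact pow_le_pow_right₀ (by norm_num) h⟩
          have k2 := k1 a ha'
          have k3 := k1 c hc'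
          have k4 : (0 : ℤ) < 2 ^ (M * b * n) := by positivity
          push_cast at hy ⊢
          have k5 := le_abs_self y
          have k6 := neg_abs_le y
          rcases abs_cases (y + 2 ^ (M * b * n + a) - 2 ^ (M * b * n + c)) with h | h <;>
            rw [h.1] <;> linarith [k2.1, k2.2, k3.1, k3.2]
    · obtain ⟨H, ϱ, L⟩ := ih R fun x hx => by
        have h1 := mem_Ico.1 (hR hx)
        have h2 : x ≠ lo + n := fun h => hk (h ▸ hx)
        exact mem_Ico.2 ⟨h1.1, by omega⟩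
      refine ⟨H, ϱ, L.sub, fun h hh => ?_, L.exp⟩
      obtain ⟨y, h1, h2⟩ := L.sup h hh
      refine ⟨y, h1, h2.trans_le ?_⟩
      exact_mod_cast Nat.pow_le_pow_right (by norm_num) (Nat.mul_le_mul_left _ (Nat.le_succ n))

end Pool.Agent.P.MP_42fc1a_nt.EK
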