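import Pool.Agent.P.MP_42fc1a_nt.EK.IfaceD

/-! Step LB0. -/

namespace Pool.Agent.P.MP_42fc1a_nt.EK

open Finset Real Filter Topology MeasureTheory
open Pool.Agent.P.MP_e86632_nt (ee nn ee_add norm_ee ee_neg ee_zero)
open Pool.Agent.P.MP_8be758_nt.Avg (gs red ft nsq gs_pos gs_le_one gs_neg gs_anti)
open Pool.Agent.P.MP_e94e4b_nt.PF (sgm)
open Pool.Agent.P.E2
open ArithmeticFunction (vonMangoldt moebius)
open DirichletCharacter (LFunction)
open scoped Classical

namespace LB0x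

theorem term {q : ℕ} (χ : DirichletCharacter ℂ q) (s : ℂ) {n : ℕ} (hn : 1 ≤ n) :
    ‖ch χ n * (n : ℂ) ^ (-s)‖ ≤ (n : ℝ) ^ (-s.re) := by
  rw [norm_mul, Complex.norm_natCast_cpow_of_pos hn, Complex.neg_re]
  exact mul_le_of_le_one_left (by positivity) (norm_ch_le χ n)

theorem harm (N : ℕ) : ∑ n ∈ Icc 1 N, ((n : ℝ))⁻¹ ≤ 1 + Real.log N := by
  have h := harmonic_le_one_add_log N
  rw [harmonic_eq_sum_Icc] at h
  push_cast at h
  exact h

end LB0x

theorem p_LB0 (hAPX0 : S_APX0) :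
    S_LB0 := by
  intro q _ χ s hχ hs
  have hq : 1 ≤ q := Nat.pos_of_ne_zero (NeZero.ne q)
  have hq' : (1 : ℝ) ≤ q := by exact_mod_cast hq
  refine ⟨?_, fun δ hδ hδ' => ?_⟩
  · have h := hAPX0 q χ s 1 hχ hs le_rfl
    have h2 : ‖∑ n ∈ Icc 1 (1 * q), ch χ n * (n : ℂ) ^ (-s)‖ ≤ q := by
      refine (norm_sum_le _ _).trans ((sum_le_card_nsmul _ _ 1 fun n hn => ?_).trans (by simp))
      have h1 := (mem_Icc.1 hn).1
      exact (LB0x.term χ s h1).trans
        (Real.rpow_le_one_of_one_le_of_nonpos (by exact_mod_cast h1) (by linarith))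
    have h3 := norm_le_insert' (LFunction χ s) (∑ n ∈ Icc 1 (1 * q), ch χ n * (n : ℂ) ^ (-s))
    rw [Nat.cast_one, Real.sqrt_one, div_one] at h
    linarith
  · have h := hAPX0 q χ s (q ^ 2) hχ hs (Nat.one_le_pow _ _ hq)
    have h2 : ‖∑ n ∈ Icc 1 (q ^ 2 * q), ch χ n * (n : ℂ) ^ (-s)‖ ≤
        (q : ℝ) ^ (3 * δ) * (1 + 3 * Real.log q) := by
      refine (norm_sum_le _ _).trans ((sum_le_sum (g := fun n : ℕ => (q : ℝ) ^ (3 * δ) *
        (n : ℝ)⁻¹) fun n hn => ?_).trans ?_)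
      · obtain ⟨h1, h4⟩ := mem_Icc.1 hn
        have h5 : (1 : ℝ) ≤ n := by exact_mod_cast h1
        have h6 : (n : ℝ) ≤ (q : ℝ) ^ (3 : ℝ) := by
          rw [show (3 : ℝ) = (3 : ℕ) by norm_num, Real.rpow_natCast, pow_succ]
          exact_mod_cast h4
        refine (LB0x.term χ s h1).trans ((Real.rpow_le_rpow_of_exponent_le h5
          (by linarith : -s.re ≤ δ + -1)).trans ?_)
        rw [Real.rpow_add (by linarith), Real.rpow_neg_one, Real.rpow_mul (by linarith)]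
        gcongr
      · rw [← mul_sum]
        have h7 := LB0x.harm (q ^ 2 * q)
        rw [← pow_succ, Nat.cast_pow, Real.log_pow] at h7
        rw [← pow_succ]
        push_cast at h7
        gcongr
    have h3 := norm_le_insert' (LFunction χ s) (∑ n ∈ Icc 1 (q ^ 2 * q), ch χ n * (n : ℂ) ^ (-s))
    rw [Nat.cast_pow, Real.sqrt_sq (by linarith), mul_assoc, mul_comm (q : ℝ), ← mul_assoc,
      mul_div_assoc, div_self (by linarith), mul_one] at h
    linarith

end Pool.Agent.P.MP_42fc1a_nt.EK
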