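import Pool.Agent.P.MP_42fc1a_nt.EK.IfaceB

/-! Step LIP. -/

namespace Pool.Agent.P.MP_42fc1a_nt.EK

open Finset Real Filter Topology MeasureTheory
open Pool.Agent.P.MP_e86632_nt (ee nn ee_add norm_ee ee_neg ee_zero)
open Pool.Agent.P.MP_8be758_nt.Avg (gs red ft nsq gs_pos gs_le_one gs_neg gs_anti)
open Pool.Agent.P.MP_e94e4b_nt.PF (sgm)
open Pool.Agent.P.E2
open ArithmeticFunction (vonMangoldt moebius)
open DirichletCharacter (LFunction)
open scoped Classical

namespace LIPx

theorem cont (w : ℝ) : Continuous (gk w) := by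
  unfold gk gs
  fun_prop

theorem bd {w : ℝ} (hw : 0 < w) (a b : ℝ) : |∫ v in a..b, gk w v| ≤ |b - a| / w := by
  have := intervalIntegral.norm_integral_le_of_norm_le_const (a := a) (b := b) (f := gk w)
    (C := 1 / w) fun x _ => by
      rw [Real.norm_eq_abs, gk, abs_of_pos (div_pos (gs_pos _) hw)]
      exact div_le_div_of_nonneg_right (gs_le_one _) hw.le
  rwa [Real.norm_eq_abs, one_div, mul_comm, ← div_eq_mul_inv] at this

end LIPx

theorem p_LIP :
    S_LIP := by
  intro w α β x y hw _
  have i := fun a b => (LIPx.cont w).intervalIntegrable (μ := volume) a b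
  have e : win w α β x - win w α β y =
      (∫ v in (y - α)..(x - α), gk w v) - ∫ v in (y - β)..(x - β), gk w v := by
    unfold win
    rw [intervalIntegral.integral_comp_sub_left, intervalIntegral.integral_comp_sub_left]
    have h1 := intervalIntegral.integral_add_adjacent_intervals (i (y - β) (y - α))
      (i (y - α) (x - α))
    have h2 := intervalIntegral.integral_add_adjacent_intervals (i (y - β) (x - β))
      (i (x - β) (x - α))
    linarith
  have h1 := LIPx.bd hw (y - α) (x - α)
  have h2 := LIPx.bd hw (y - β) (x - β)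
  rw [sub_sub_sub_cancel_right] at h1 h2
  rw [e, mul_div_assoc]
  exact (abs_sub _ _).trans (by linarith)

end Pool.Agent.P.MP_42fc1a_nt.EK
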