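import Pool.Agent.P.MP_42fc1a_nt.EK.IfaceD
import Pool.Agent.P.MP_42fc1a_nt.EK.IfaceB

/-! Step LNG. -/

namespace Pool.Agent.P.MP_42fc1a_nt.EK

open Finset Real Filter Topology MeasureTheory
open Pool.Agent.P.MP_e86632_nt (ee nn ee_add norm_ee ee_neg ee_zero)
open Pool.Agent.P.MP_8be758_nt.Avg (gs red ft nsq gs_pos gs_le_one gs_neg gs_anti)
open Pool.Agent.P.MP_e94e4b_nt.PF (sgm)
open Pool.Agent.P.E2
open ArithmeticFunction (vonMangoldt moebius)
open DirichletCharacter (LFunction)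
open scoped Classical

namespace LNGx

theorem ch_le {q : ℕ} (χ : DirichletCharacter ℂ q) (n : ℕ) : ‖ch χ n‖ ≤ 1 :=
  DirichletCharacter.norm_le_one χ _

theorem ch_mul' {q : ℕ} (χ : DirichletCharacter ℂ q) (a b : ℕ) :
    ch χ (a * b) = ch χ a * ch χ b := by
  unfold ch
  rw [Nat.cast_mul, map_mul]

theorem ch_one {q n : ℕ} (h : n.Coprime q) : ch (1 : DirichletCharacter ℂ q) n = 1 := by
  unfold ch
  exact MulChar.one_apply ((ZMod.isUnit_iff_coprime n q).2 h)

theorem cop {q l : ℕ} {P : ℝ} (hq : ∀ l : ℕ, l.Prime → l ∣ q → (l : ℝ) ≤ P) (hl : l.Prime)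
    (h : P < l) : l.Coprime q :=
  (Nat.Prime.coprime_iff_not_dvd hl).2 fun hd => absurd (hq l hl hd) (not_le.2 h)

theorem tri (S Y w E : ℂ) (a b : ℝ) (h1 : ‖S - w * Y‖ ≤ a) (h2 : ‖Y - E‖ ≤ b) (hw : ‖w‖ ≤ 1) :
    ‖S - w * E‖ ≤ a + b := by
  have e : S - w * E = (S - w * Y) + w * (Y - E) := by ring
  rw [e]
  refine (norm_add_le _ _).trans (add_le_add h1 ?_)
  rw [norm_mul]
  calc ‖w‖ * ‖Y - E‖ ≤ 1 * b := mul_le_mul hw h2 (norm_nonneg _) zero_le_one
    _ = b := one_mul _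

end LNGx

open LNGx in
theorem p_LNG (hRNG : S_RNG) (hWIN1 : S_WIN1) (hP0 : S_P0) (hBW : S_BW) (hP0U : S_P0U) (hC1U : S_C1U) :
    S_LNG := by
  intro A
  filter_upwards [hRNG, hP0 1 1, hBW, hP0U A, hC1U, eventually_ge_atTop (20 : ℝ)] with r hR h0 hB
    hU hC hr P v T q _ χ hPr hqA hq hv
  have hr1 : (1 : ℝ) ≤ r := by linarith
  have hP1 : 1 ≤ P := (one_le_pow₀ hr1).trans hPr.p1
  have hP0' : 0 < P := by linarith
  have hRg := hR P hP1 hPr.p2
  obtain ⟨hrh, -, -, hsum, -⟩ := hB P T hPr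
  have hr13 : 20 * r ≤ r ^ 13 := by
    have h1 : r ^ 2 ≤ r ^ 13 := pow_le_pow_right₀ hr1 (by norm_num)
    nlinarith
  have hlP : Real.log P ≤ r := by
    rw [Real.log_le_iff_le_exp hP0']; exact hPr.p2
  have hlP0 : 0 ≤ Real.log P := Real.log_nonneg hP1
  have hT1 : Real.exp (-(8 * r)) ≤ Th r := Real.exp_le_exp.2 (by linarith)
  have hT2 : Th r ≤ Real.exp (-(2 * r)) := Real.exp_le_exp.2 (by linarith)
  have hv' := abs_le.1 hv
  have hwn : ∀ x, ‖(wn r P x : ℂ)‖ ≤ 1 := by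
    intro x
    obtain ⟨a, b, -⟩ := hWIN1 (1 / r ^ 13) (r ^ 13 - Real.log P - 3) (r ^ 13 - Real.log P + 3) x 0
      (by positivity) (by linarith) le_rfl
    rw [Complex.norm_real, Real.norm_eq_abs, abs_le]
    unfold wn
    constructor <;> linarith
  have key : ∀ p ∈ T, ‖∑ n ∈ RN r P, ((th n * ph r P n : ℝ) : ℂ) *
        (ch χ (p * n) * (gk (Th r) (Real.log (p * n : ℕ) - v) : ℂ)) -
      kp χ * ((wn r P (v - Real.log p) / p * Real.exp v : ℝ) : ℂ)‖ ≤
      3 * Real.exp (v - r) * (1 / (p : ℝ)) := by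
    intro p hp
    obtain ⟨hpp, hp1, hp2⟩ := hRg.pp p (hPr.sub hp)
    have hp0 : (0 : ℝ) < p := by linarith
    have hl1 : Real.log P ≤ Real.log p := Real.log_le_log hP0' hp1.le
    have hl2 : Real.log p ≤ Real.log P + 1 := by
      have h1 : Real.log p ≤ Real.log (2 * P) := Real.log_le_log hp0 hp2
      rw [Real.log_mul (by norm_num) hP0'.ne'] at h1
      have h2 : Real.log 2 ≤ 2 - 1 := Real.log_le_sub_one_of_pos (by norm_num)
      linarith
    set u := v - Real.log p with hu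
    have hu1 : |u - (r ^ 13 - Real.log P)| ≤ 6 := by
      rw [abs_le]; constructor <;> linarith
    have hu2 : r ^ 13 / 4 ≤ u := by linarith
    have hu3 : u ≤ 2 * r ^ 13 := by linarith
    have heu : Real.exp u = Real.exp v / p := by
      rw [hu, Real.exp_sub, Real.exp_log hp0]
    have heur : Real.exp (u - r) = Real.exp (v - r) * (1 / (p : ℝ)) := by
      rw [Real.exp_sub u r, Real.exp_sub v r, heu]; ring
    have hlog : ∀ n ∈ RN r P, Real.log (p * n : ℕ) - v = Real.log n - u := by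
      intro n hn
      have hn0 : (0 : ℝ) < n := by linarith [(hRg.rn n hn).2.1]
      rw [Nat.cast_mul, Real.log_mul hp0.ne' hn0.ne', hu]; ring
    by_cases hχ : χ = 1
    · have e1 : ∑ n ∈ RN r P, ((th n * ph r P n : ℝ) : ℂ) *
          (ch χ (p * n) * (gk (Th r) (Real.log (p * n : ℕ) - v) : ℂ)) =
          ∑ n ∈ RN r P, ((th n * ph r P n : ℝ) : ℂ) * ch (1 : DirichletCharacter ℂ 1) n *
            (gk (Th r) (Real.log n - u) : ℂ) := by
        refine sum_congr rfl fun n hn => ?_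
        rw [hlog n hn, ch_one (Nat.coprime_one_right n)]
        by_cases hn' : n.Prime
        · have hc : (p * n).Coprime q :=
            Nat.Coprime.mul_left (cop hq hpp hp1) (cop hq hn' (by linarith [(hRg.rn n hn).2.1]))
          rw [hχ, ch_one hc]; ring
        · simp [th, hn']
      have a1 := hC P u (ch (1 : DirichletCharacter ℂ 1)) hP1 hPr.p2 hu1 (ch_le _)
      have a2 := h0 (Th r) u hT1 hT2 hu2 hu3
      have a3 := tri _ _ _ _ _ _ a1 a2 (hwn u)
      have e2 : kp χ * ((wn r P u / p * Real.exp v : ℝ) : ℂ) =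
          (wn r P u : ℂ) * (kp (1 : DirichletCharacter ℂ 1) * (Real.exp u : ℂ)) := by
        rw [heu]
        simp only [kp, hχ, if_true]
        push_cast
        ring
      rw [e1, e2]
      refine a3.trans (le_of_eq ?_)
      rw [heur]; ring
    · have e1 : ∑ n ∈ RN r P, ((th n * ph r P n : ℝ) : ℂ) *
          (ch χ (p * n) * (gk (Th r) (Real.log (p * n : ℕ) - v) : ℂ)) =
          ch χ p * ∑ n ∈ RN r P, ((th n * ph r P n : ℝ) : ℂ) * ch χ n *
            (gk (Th r) (Real.log n - u) : ℂ) := by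
        rw [mul_sum]
        refine sum_congr rfl fun n hn => ?_
        rw [hlog n hn, ch_mul']; ring
      have a1 := hC P u (ch χ) hP1 hPr.p2 hu1 (ch_le _)
      have a2 := hU q χ (Th r) u hqA hχ hT1 hT2 hu2 hu3
      rw [← sub_zero (∑' n : ℕ, ch χ n * vonMangoldt n * (gk (Th r) (Real.log n - u) : ℂ))] at a2
      have a3 := tri _ _ _ _ _ _ a1 a2 (hwn u)
      rw [mul_zero, sub_zero] at a3
      have e2 : kp χ = 0 := by simp only [kp, hχ, if_false]
      rw [e1, e2, zero_mul, sub_zero, norm_mul]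
      have a4 : Real.exp (u - 9 * r) ≤ Real.exp (u - r) := Real.exp_le_exp.2 (by linarith)
      have a5 : 0 < Real.exp (u - r) := Real.exp_pos _
      calc _ ≤ 1 * (Real.exp (u - r) + Real.exp (u - 9 * r)) :=
            mul_le_mul (ch_le _ _) a3 (norm_nonneg _) zero_le_one
        _ ≤ 3 * Real.exp (u - r) := by linarith
        _ = _ := by rw [heur]; ring
  have eZ : Zx r P T (Th r) (ch χ) v - kp χ * ((om r P T v * Real.exp v : ℝ) : ℂ) =
      ∑ p ∈ T, (∑ n ∈ RN r P, ((th n * ph r P n : ℝ) : ℂ) *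
        (ch χ (p * n) * (gk (Th r) (Real.log (p * n : ℕ) - v) : ℂ)) -
      kp χ * ((wn r P (v - Real.log p) / p * Real.exp v : ℝ) : ℂ)) := by
    rw [sum_sub_distrib, ← hsum (fun m => ch χ m * (gk (Th r) (Real.log m - v) : ℂ)), ← mul_sum,
      ← Complex.ofReal_sum, ← sum_mul]
    unfold Zx om
    simp only [mul_assoc]
  rw [eZ]
  refine (norm_sum_le _ _).trans ((sum_le_sum key).trans ?_)
  rw [← mul_sum]
  have b1 : Real.exp (v - r) ≤ XX r * Real.exp (-(r / 2)) * Real.exp (-5) := by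
    unfold XX
    rw [← Real.exp_add, ← Real.exp_add]
    exact Real.exp_le_exp.2 (by linarith)
  have b2 : 6 * Real.exp (-5) ≤ 1 := by
    have h1 := Real.add_one_le_exp (5 : ℝ)
    rw [Real.exp_neg, ← div_eq_mul_inv, div_le_one (Real.exp_pos _)]
    linarith
  have b3 : 0 < XX r * Real.exp (-(r / 2)) := mul_pos (Real.exp_pos _) (Real.exp_pos _)
  have b4 : 0 < Real.exp (v - r) := Real.exp_pos _
  change 3 * Real.exp (v - r) * rh T ≤ _
  nlinarith

end Pool.Agent.P.MP_42fc1a_nt.EK
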