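import Pool.Agent.P.MP_42fc1a_nt.EK.IfaceD

/-! Statements, part C: the error on the structured arcs. -/

namespace Pool.Agent.P.MP_42fc1a_nt.EK

open Finset Real Filter Topology MeasureTheory
open Pool.Agent.P.MP_e86632_nt (ee nn)
open Pool.Agent.P.MP_8be758_nt.Avg (gs red ft nsq)
open Pool.Agent.P.MP_e94e4b_nt.PF (sgm)
open Pool.Agent.P.E2
open ArithmeticFunction (vonMangoldt moebius)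
open DirichletCharacter (LFunction)
open scoped Classical

/-- additive window minus its multiplicative approximation -/
noncomputable def Kr (r θ a : ℝ) (m : ℕ) (u : ℝ) : ℝ :=
  gk a (m - u) - ∫ v in (r ^ 13 - 5)..(r ^ 13 + 5), gk θ (Real.log m - v) * gk a (Real.exp v - u)

/-- the weight minus its model for the modulus `q` -/
noncomputable def be (r P : ℝ) (T : Finset ℕ) (q m : ℕ) : ℂ :=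
  ((bw r P T m - om r P T (Real.log m) * Lm q m : ℝ) : ℂ)

/-- size conditions on the modulus and the short window -/
structure Sw (r θ : ℝ) (q : ℕ) : Prop where
  q1 : 1 ≤ q
  qe : (q : ℝ) ≤ Real.exp r
  qt : 200 * (q : ℝ) ≤ θ * XX r
  tt : θ ≤ Th r

-- deps:
def S_ARCS : Prop := ∀ (F : ℝ → ℝ) (q : ℕ) (η : ℝ), Continuous F → (∀ x, 0 ≤ F x) →
  (∀ x, F (x + 1) = F x) → 1 ≤ q → 0 ≤ η →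
  ∫ α in Set.Icc (0 : ℝ) 1 ∩ {α : ℝ | nn (q * α) ≤ q * η}, F α ≤
    2 * ∑ A ∈ range q, ∫ β in (-η)..η, F ((A : ℝ) / q + β)

-- deps: GAL
def S_PARS : Prop := ∃ C : ℝ, 0 < C ∧ ∀ (I : Finset ℕ) (b : ℕ → ℂ) (q : ℕ) (a η : ℝ), 1 ≤ q →
  0 < a → 0 ≤ η → a * η ≤ 5 →
  ∑ A ∈ range q, ∫ β in (-η)..η, ‖ft I b ((A : ℝ) / q + β)‖ ^ 2 ≤
    C * q * ∑ c ∈ range q,
      ∫ u : ℝ, ‖∑ m ∈ I.filter (fun m => m ≡ c [MOD q]), b m * (gk a (m - u) : ℂ)‖ ^ 2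

-- deps: RS
def S_CLS : Prop := ∀ (a u : ℝ) (q c : ℕ) (S : Finset ℕ), 1 ≤ q → (q : ℝ) ≤ a →
  (∀ m ∈ S, m ≡ c [MOD q]) → ∑ m ∈ S, gk a (m - u) ≤ 8 / q ∧
  ∀ W : ℝ, 0 ≤ W → W * a + q ≤ u → (∀ m : ℕ, m ≡ c [MOD q] → |m - u| ≤ W * a → m ∈ S) →
    |∑ m ∈ S, gk a (m - u) - 1 / q| ≤ (4 * q / a + 12 * Real.exp (-W ^ 2)) / q

-- deps: CMP CLS
def S_CLM : Prop := ∀ᶠ r : ℝ in atTop, ∀ (θ v : ℝ) (q c : ℕ), Sw r θ q → |v - r ^ 13| ≤ 5 →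
  ∑ m ∈ Ic r q c, gk θ (Real.log m - v) ≤ 10 * Real.exp v / q ∧
  (r ^ 13 - 7 / 2 ≤ v → v ≤ r ^ 13 + 4 →
    |∑ m ∈ Ic r q c, gk θ (Real.log m - v) - Real.exp v / q| ≤
      4 / θ + XX r * Real.exp (-(2 * r)) / q)

-- deps:
def S_GL1 : Prop := (∀ a x y : ℝ, 0 < a → ∫ u : ℝ, |gk a (x - u) - gk a (y - u)| ≤ 2 * |x - y| / a) ∧
  ∀ a : ℝ, 0 < a → Integrable (fun x : ℝ => gk a x * |x|) ∧ ∫ x : ℝ, gk a x * |x| ≤ a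

-- deps: GL1
def S_A2M1 : Prop := ∀ᶠ r : ℝ in atTop, ∀ (θ a : ℝ) (m : ℕ), 0 < θ → θ ≤ Th r → 0 < a → m ∈ II r →
  Continuous (Kr r θ a m) ∧ Integrable (Kr r θ a m) ∧
    ∫ u : ℝ, |Kr r θ a m u| ≤ 300 * (θ * XX r / a) + Real.exp (-r ^ 13)

-- deps: CLS CLM
def S_A2M2 : Prop := ∀ᶠ r : ℝ in atTop, ∀ (θ a u : ℝ) (q c : ℕ), Sw r θ q → (q : ℝ) ≤ a →
  ∑ m ∈ Ic r q c, |Kr r θ a m u| ≤ 18 / q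

-- deps:
def S_A2M3 : Prop := ∀ (Z : ℝ → ℂ) (a v0 v1 : ℝ), Continuous Z → 0 < a → v0 ≤ v1 →
  Integrable (fun u : ℝ => ‖∫ v in v0..v1, Z v * (gk a (Real.exp v - u) : ℂ)‖ ^ 2) ∧
  ∫ u : ℝ, ‖∫ v in v0..v1, Z v * (gk a (Real.exp v - u) : ℂ)‖ ^ 2 ≤
    ∫ v in v0..v1, Real.exp (-v) * ‖Z v‖ ^ 2

-- deps:
def S_SCH : Prop := ∀ (S : Finset ℕ) (β : ℕ → ℂ) (K : ℕ → ℝ → ℝ) (B s l : ℝ), 0 ≤ s →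
  (∀ m ∈ S, ‖β m‖ ≤ B ∧ Continuous (K m) ∧ Integrable (K m) ∧ ∫ u : ℝ, |K m u| ≤ l) →
  (∀ u, ∑ m ∈ S, |K m u| ≤ s) →
  Integrable (fun u : ℝ => ‖∑ m ∈ S, β m * (K m u : ℂ)‖ ^ 2) ∧
    ∫ u : ℝ, ‖∑ m ∈ S, β m * (K m u : ℂ)‖ ^ 2 ≤ B ^ 2 * s * (S.card * l)

-- deps: A2M1 A2M2 A2M3 SCH
def S_A2M : Prop := ∃ C : ℝ, 0 < C ∧ ∀ᶠ r : ℝ in atTop, ∀ (θ a B : ℝ) (q c : ℕ) (β : ℕ → ℂ),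
  Sw r θ q → (q : ℝ) ≤ a → (∀ m, ‖β m‖ ≤ B) →
  ∫ u : ℝ, ‖∑ m ∈ Ic r q c, β m * (gk a (m - u) : ℂ)‖ ^ 2 ≤
    2 * (∫ v in (r ^ 13 - 5)..(r ^ 13 + 5), Real.exp (-v) * ‖Zc r θ β q c v‖ ^ 2) +
      C * B ^ 2 * XX r / (q : ℝ) ^ 2 * (θ * XX r / a + Real.exp (-r ^ 13))

-- deps: BW OM CLM
def S_MOD : Prop := ∀ᶠ r : ℝ in atTop, ∀ (P θ v : ℝ) (T : Finset ℕ) (q c : ℕ), Pr r P T →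
  Sw r θ q → |v - r ^ 13| ≤ 5 →
  |∑ m ∈ Ic r q c, om r P T (Real.log m) * gk θ (Real.log m - v) - om r P T v * Real.exp v / q| ≤
    8 / θ + XX r * Real.exp (-r) / q

-- deps:
def S_PSV : Prop := ∀ (q : ℕ) [NeZero q], Fintype.card (DirichletCharacter ℂ q) = q.totient ∧
  (∀ χ : DirichletCharacter ℂ q, ∑ c ∈ red q, ch χ c = kp χ * q.totient) ∧
  (∀ Y : ℕ → ℂ, ∑ χ : DirichletCharacter ℂ q, ‖∑ c ∈ red q, Y c * ch χ c‖ ^ 2 =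
    q.totient * ∑ c ∈ red q, ‖Y c‖ ^ 2) ∧
  ∀ (I : Finset ℕ) (f : ℕ → ℂ) (χ : DirichletCharacter ℂ q), ∑ m ∈ I, f m * ch χ m =
    ∑ c ∈ red q, (∑ m ∈ I.filter (fun m => m ≡ c [MOD q]), f m) * ch χ c

-- deps: RNG BW MOD PSV
def S_ZCL : Prop := ∀ᶠ r : ℝ in atTop, ∀ (P θ v : ℝ) (T : Finset ℕ) (q : ℕ) [NeZero q], Pr r P T →
  Sw r θ q → (∀ l : ℕ, l.Prime → l ∣ q → (l : ℝ) ≤ P) → |v - r ^ 13| ≤ 5 →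
  ∑ c ∈ range q, ‖Zc r θ (be r P T q) q c v‖ ^ 2 ≤
    2 / q.totient * ∑ χ : DirichletCharacter ℂ q,
      ‖Zx r P T θ (ch χ) v - kp χ * ((om r P T v * Real.exp v : ℝ) : ℂ)‖ ^ 2 +
    2 * (q : ℝ) ^ 2 / q.totient * (8 / θ + XX r * Real.exp (-r) / q) ^ 2

-- deps: RS
def S_SPC : Prop := ∀ (S : Finset ℕ) (x : ℕ → ℝ) (w v δ : ℝ), 0 < w → 0 < δ →
  (∀ i ∈ S, ∀ j ∈ S, i ≠ j → δ ≤ |x i - x j|) → ∑ j ∈ S, gk w (x j - v) ≤ 16 / w + 16 / δ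

-- deps: PL PSV SPC
def S_MVQ : Prop := ∃ C : ℝ, 0 < C ∧ ∀ (Z X : ℝ) (I : Finset ℕ) (a : ℕ → ℂ) (q : ℕ) [NeZero q],
  0 < Z → 0 < X → (∀ n ∈ I, 1 ≤ n ∧ (n : ℝ) ≤ X) →
  ∑ χ : DirichletCharacter ℂ q, ∫ t : ℝ, gs (t / Z) * ‖dq I (fun n => a n * ch χ n) t‖ ^ 2 ≤
    C * (q * Z + X) * nsq I a

-- deps: RNG PH UM PU DPA PSV MVQ
def S_DPQ : Prop := ∃ (α : ℝ) (b : ℕ), 0 < α ∧ α ≤ 1 / 16 ∧ ∀ᶠ r : ℝ in atTop,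
  ∀ (P Z : ℝ) (T : Finset ℕ) (q : ℕ) [NeZero q], r ^ b ≤ P → P ≤ Real.exp r → T ⊆ PP P →
    1 ≤ Z → q * Z ≤ X2 r P → (q : ℝ) ≤ Real.exp (r / 8) →
    ∑ χ : DirichletCharacter ℂ q, ∫ t in {t : ℝ | 2 * Real.exp (4 * r) ≤ |t|}, gs (t / Z) *
      (‖dq T (ch χ) t‖ ^ 2 * ‖dq (RN r P) (fun n => (th n * ph r P n : ℝ) * ch χ n) t‖ ^ 2) ≤
      XX r ^ 2 / (2 * P ^ α)

-- deps: RNG PL BW PSV DPQ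
def S_DLQ : Prop := ∃ (α : ℝ) (b : ℕ), 0 < α ∧ α ≤ 1 / 16 ∧ ∀ᶠ r : ℝ in atTop,
  ∀ (P θ : ℝ) (T : Finset ℕ) (q : ℕ) [NeZero q], Pr r P T → r ^ b ≤ P →
    (q : ℝ) ≤ Real.exp (r / 8) → q * P ≤ θ * XX r → θ ≤ Th r →
    ∑ χ : DirichletCharacter ℂ q, ∫ v in (r ^ 13 - 5)..(r ^ 13 + 5),
      ‖Zx r P T θ (ch χ) v - Zx r P T (Th r) (ch χ) v‖ ^ 2 ≤ XX r ^ 2 / P ^ α

-- deps: BW OM ARCS PARS A2M ZCL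
def S_ONE1 : Prop := ∃ C : ℝ, 0 < C ∧ ∀ᶠ r : ℝ in atTop,
  ∀ (P E : ℝ) (T : Finset ℕ) (q1 i : ℕ) [NeZero (q1 * 2 ^ i)], Pr r P T → (q1 : ℝ) ^ 2 ≤ P →
    ((q1 * 2 ^ i : ℕ) : ℝ) ≤ Real.exp (r / 8) → 0 ≤ E →
    (∑ χ : DirichletCharacter ℂ (q1 * 2 ^ i), ∫ v in (r ^ 13 - 5)..(r ^ 13 + 5),
      ‖Zx r P T (2 ^ i * P ^ 2 / XX r) (ch χ) v - kp χ * ((om r P T v * Real.exp v : ℝ) : ℂ)‖ ^ 2 ≤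
        E * XX r ^ 2) →
    ∫ α in Set.Icc (0 : ℝ) 1 ∩ {α : ℝ | nn (((q1 * 2 ^ i : ℕ) : ℝ) * α) ≤ q1 / P ^ 3},
      ‖ft (II r) (be r P T (q1 * 2 ^ i)) α‖ ^ 2 ≤ C * (q1 : ℝ) ^ 2 * XX r * (E + r ^ 26 / P)

-- deps: PSV LNG DLQ ONE1
def S_ONEQ : Prop := ∃ (α : ℝ) (b : ℕ), 0 < α ∧ ∀ A : ℕ, ∀ᶠ r : ℝ in atTop,
  ∀ (P : ℝ) (T : Finset ℕ) (q1 i : ℕ), Pr r P T → r ^ b ≤ P → P ≤ r ^ A → 1 ≤ q1 →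
    (q1 : ℝ) ^ 2 ≤ P → ((q1 * 2 ^ i : ℕ) : ℝ) ≤ r ^ A →
    ∫ α' in Set.Icc (0 : ℝ) 1 ∩ {α' : ℝ | nn (((q1 * 2 ^ i : ℕ) : ℝ) * α') ≤ q1 / P ^ 3},
      ‖ft (II r) (be r P T (q1 * 2 ^ i)) α'‖ ^ 2 ≤ (q1 : ℝ) ^ 2 * XX r * r ^ 27 / P ^ α

-- deps: RAM TL
def S_TLQ : Prop := ∀ A : ℕ, ∀ᶠ r : ℝ in atTop, ∀ (P α : ℝ) (T : Finset ℕ) (W Q0 q i : ℕ),
  Pr r P T → 1 ≤ W → 2 ∣ W → 1 ≤ q → q ≤ Q0 → (W : ℝ) * Q0 ≤ P → P ≤ r ^ A →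
  (W : ℝ) * Q0 * 2 ^ i ≤ r ^ A → nn (((W * q * 2 ^ i : ℕ) : ℝ) * α) ≤ W * q / P ^ 3 →
  ‖ft (II r) (fun m => (bw r P T m : ℂ)) α - ft (II r) (bd r P T W (QS W Q0)) α -
    ft (II r) (be r P T (W * q * 2 ^ i)) α‖ ≤ Real.exp r

-- deps: ONEQ TLQ
def S_E3 : Prop := ∃ (α : ℝ) (b : ℕ), 0 < α ∧ ∀ A : ℕ, ∀ᶠ r : ℝ in atTop,
  ∀ (P : ℝ) (T : Finset ℕ) (W Q0 w : ℕ), Pr r P T → r ^ b ≤ P → P ≤ r ^ A → 1 ≤ W → 2 ∣ W →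
    ((W : ℝ) * Q0) ^ 4 ≤ P ^ α → ((W : ℝ) * Q0) ^ 2 ≤ P → (W : ℝ) * Q0 * 2 ^ w ≤ r ^ A → 1 ≤ Q0 →
    ∫ x in Set.Icc (0 : ℝ) 1 ∩ Str W Q0 w P,
      ‖ft (II r) (fun m => (bw r P T m : ℂ)) x - ft (II r) (bd r P T W (QS W Q0)) x‖ ^ 2 ≤
      XX r / r ^ 4

end Pool.Agent.P.MP_42fc1a_nt.EK
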