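import Pool.Agent.P.MP_42fc1a_nt.EK.IfaceE
import Pool.Agent.P.MP_42fc1a_nt.EK.IfaceB
import Pool.Agent.P.MP_42fc1a_nt.EK.IfaceC

/-! Step MAINC. -/

namespace Pool.Agent.P.MP_42fc1a_nt.EK

open Finset Real Filter Topology MeasureTheory
open Pool.Agent.P.MP_e86632_nt (ee nn ee_add norm_ee ee_neg ee_zero)
open Pool.Agent.P.MP_8be758_nt.Avg (gs red ft nsq gs_pos gs_le_one gs_neg gs_anti)
open Pool.Agent.P.MP_e94e4b_nt.PF (sgm)
open Pool.Agent.P.E2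
open ArithmeticFunction (vonMangoldt moebius)
open DirichletCharacter (LFunction)
open scoped Classical

namespace MAINCx

end MAINCx

theorem p_MAINC (hRNG : S_RNG) (hBW : S_BW) (hE4 : S_E4) (hTAU : S_TAU) (hE5 : S_E5) (hREP : S_REP) (hSHF : S_SHF) (hE1 : S_E1) (hE3 : S_E3) (hSTR : S_STR) (hE2 : S_E2) (hCIR : S_CIR) (hSEL : S_SEL) (hNUM : S_NUM) :
    S_MAINC := by
  intro ε hε
  obtain ⟨M, hM, hT⟩ := hTAU (ε / 100) (by positivity)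
  have hW : 1 ≤ WW M := by
    have : 2 ^ 2 ≤ 2 ^ M := Nat.pow_le_pow_right (by norm_num) hM
    unfold WW; omega
  have hW' : (1 : ℝ) ≤ WW M := by exact_mod_cast hW
  obtain ⟨C, hC, h1⟩ := hE1 M hM
  obtain ⟨lam, l0, l1, hN⟩ := hNUM ε C (WW M) hε hC hW'
  obtain ⟨α, b, hα, h3⟩ := hE3
  obtain ⟨A, hS⟩ := hSEL M (WW M) b lam α hM hW l0 l1 hα
  refine ⟨M, hM, A, fun σ => ?_⟩
  filter_upwards [hBW, hE4 A, hE5 M σ (ε / 100) hM (by positivity) hT, hSHF M σ hM, h1, h3 A, hE2,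
    hS, hN, eventually_ge_atTop 1] with r gB g4 g5 gS g1 g3 g2 gs gN hr n0 S hco hSS
  obtain ⟨P, T, J, Q0, w, hP, pb, pA, q4, q2, qw, hQ, hJ, hJL, hnb⟩ := gs
  by_contra hlt
  rw [not_le] at hlt
  obtain ⟨n1, n2⟩ := gN S.card (rh T) hlt hP.rho
  have hQ' : (1 : ℝ) ≤ Q0 := by exact_mod_cast hQ
  have wq1 : (1 : ℝ) ≤ (WW M : ℝ) * Q0 := one_le_mul_of_one_le_of_one_le hW' hQ'
  have wqP : (WW M : ℝ) * Q0 ≤ P := by nlinarith
  have qe : (Q0 : ℝ) ≤ Real.exp r := by nlinarith [hP.p2]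
  have P0 : 0 ≤ P := by linarith
  have sh : ∀ n ∈ S, ∀ a ∈ Icc 1 (LL r M), ∀ a' ∈ Icc 1 (LL r M), ∀ s ∈ Icc 1 J,
      σ + 2 ^ (M * a) + 2 ^ (M * a') + 2 ^ (M * s) ≤ n ∧
        n - (σ + 2 ^ (M * a) + 2 ^ (M * a') + 2 ^ (M * s)) ∈ II r := fun n hn a ha a' ha' s hs =>
    have := gS.2 n a a' s (hSS n hn).1 (hSS n hn).2.1 (mem_Icc.1 ha).2 (mem_Icc.1 ha').2
      ((mem_Icc.1 hs).2.trans hJL)
    ⟨this.2.1, this.2.2.1⟩
  have r1 := hREP M (LL r M) J σ S (II r) (fun m => (bw r P T m : ℂ)) sh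
  have r2 := hREP M (LL r M) J σ S (II r) (bd r P T (WW M) (QS (WW M) Q0)) sh
  have z : av M (LL r M) J σ S (fun m => (bw r P T m : ℂ)) = 0 := by
    unfold av
    rw [sum_eq_zero, zero_div]
    refine fun n hn => sum_eq_zero fun a ha => sum_eq_zero fun a' ha' => sum_eq_zero fun s hs => ?_
    rw [Complex.ofReal_eq_zero]
    by_contra hne
    obtain ⟨p, hp, q, -, hq, e⟩ := (gB P T hP).2.2.1 _ hne
    have hp' := mem_filter.1 (hP.sub hp)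
    have p2 : (p : ℝ) ≤ 2 * r ^ A := by
      have : (p : ℝ) ≤ ⌊2 * P⌋₊ := by exact_mod_cast (mem_Ioc.1 hp'.1).2
      linarith [Nat.floor_le (show 0 ≤ 2 * P by linarith)]
    refine (hSS n hn).2.2.2 p q (M * a) (M * a') (M * s) hp'.2 hq p2 ?_
    have := (sh n hn a ha a' ha' s hs).1
    omega
  obtain ⟨s1, s2, s3⟩ := hSTR
  obtain ⟨c1, c2, -, c4, -⟩ := s3 M (LL r M) J σ S
  have cir := hCIR (ps M (LL r M) J σ S) (ft (II r) fun m => (bw r P T m : ℂ))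
    (ft (II r) (bd r P T (WW M) (QS (WW M) Q0))) (fun x => ‖ft S (fun _ => 1) x‖)
    (fun x => ‖Gn M (LL r M) x‖ ^ 2) (fun x => ‖Gn M J x‖) (Str (WW M) Q0 w P) lam S.card
    (C * rh T ^ 2 * XX r) (XX r / r ^ 4) (Real.exp r) c1 (cont_ft _ _) (cont_ft _ _)
    (cont_ft _ _).norm ((s2 M _).1.norm.pow 2) (s2 M J).1.norm (s1 _ _ _ _).1
    (fun x => ⟨norm_nonneg _, by positivity, pow_le_one₀ (norm_nonneg _) ((s2 M _).2.1 x),
      norm_nonneg _, (s2 M J).2.1 x, (c2 x).le⟩) l0.le (Real.exp_pos r).le c4.le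
    (by simpa only [← pow_mul] using g1 P T hP)
    (g3 P T (WW M) Q0 w hP pb pA hW ⟨_, rfl⟩ q4 q2 qw hQ)
    (fun x hx => g4 P T (WW M) Q0 w x hP pA hW wqP hx)
  have e2 := Real.le_sqrt_of_sq_le (g2 P lam T S M (LL r M) J σ (WW M) Q0 w hP hnb)
  have e5 := g5 P T Q0 J n0 S hP hQ qe hJ hJL hco
    (fun n hn => ⟨(hSS n hn).1, (hSS n hn).2.1, (hSS n hn).2.2.1⟩) n1
  rw [r1, r2, z, norm_zero] at cir
  have := Complex.re_le_norm (av M (LL r M) J σ S (bd r P T (WW M) (QS (WW M) Q0)))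
  linarith

end Pool.Agent.P.MP_42fc1a_nt.EK
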