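import Pool.Agent.P.MP_42fc1a_nt.EK.IfaceA

/-! Step MASS. -/

namespace Pool.Agent.P.MP_42fc1a_nt.EK

open Finset Real Filter Topology MeasureTheory
open Pool.Agent.P.MP_e86632_nt (ee nn ee_add norm_ee ee_neg ee_zero)
open Pool.Agent.P.MP_8be758_nt.Avg (gs red ft nsq gs_pos gs_le_one gs_neg gs_anti)
open Pool.Agent.P.MP_e94e4b_nt.PF (sgm)
open Pool.Agent.P.E2
open ArithmeticFunction (vonMangoldt moebius)
open DirichletCharacter (LFunction)
open scoped Classical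

namespace MASSx

lemma sz {h y : ℤ} {a b c : ℕ} (e : h = 2 ^ a * y) (hy : 2 * |y| < (2 ^ b : ℕ)) (hc : a + b ≤ c) :
    2 * |h| < 2 ^ c := by
  have h1 : (2 : ℤ) ^ (a + b) ≤ 2 ^ c := pow_le_pow_right₀ one_le_two hc
  have h2 : (0 : ℤ) < 2 ^ a := by positivity
  push_cast at hy
  rw [e, abs_mul, abs_of_pos h2]
  rw [pow_add] at h1
  nlinarith

end MASSx

theorem p_MASS (hMS0 : S_MS0) (hMSN : S_MSN) (hMSI : S_MSI) :
    S_MASS := by
  intro lam μ B α M b0 b1 u n0 n1 G0 G1 P K W hp hW hα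
  let isl : ℕ → Prop := fun i => ∃ q : ℕ, 1 ≤ q ∧ q ≤ 2 ^ (M * b0 * n0) ∧
    nn (q * (2 ^ (M * (b0 * i + 1)) * α)) ≤ 1 / 2 ^ (M * b0 * n1)
  have n01 := hp.hn1
  have n00 := hp.hn0
  refine ⟨fun i => if isl i then n1 else n0, fun i => by dsimp only; split_ifs <;> omega, ?_⟩
  intro g i R R0 H H0 ϱ ϱ0 g0 g1
  obtain ⟨c, hc⟩ : ∃ c, c = M * (b0 * b1 * u) + M := ⟨_, rfl⟩
  have big := hp.big
  rw [← hc, pow_succ] at big
  have key : ∀ n e e0, 1 ≤ n → i + n ≤ b1 * u →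
      Law M (b0 * b1) R M (2 ^ (M * (b0 * b1) * u)) e H ϱ →
      Law M b0 R0 (M * (b0 * i + 1)) (2 ^ (M * b0 * n)) e0 H0 ϱ0 →
      M * (b0 * i + 1) ≤ M * (b0 * b1 * u) ∧ (∀ h ∈ H, 2 * |h| < 2 ^ c) ∧
        ∀ h ∈ H, ∀ y ∈ H0, |h + y| ≤ (P : ℤ) ^ K := by
    intro n e e0 hn hi l1 l2
    have a1 : b0 * (i + n) ≤ b0 * (b1 * u) := Nat.mul_le_mul_left _ hi
    have a2 : 1 * 1 ≤ b0 * n := Nat.mul_le_mul hp.hb0 hn
    have a3 : ∀ h ∈ H, 2 * |h| < 2 ^ c := fun h hh => by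
      obtain ⟨y, e1, e2⟩ := l1.sup h hh
      exact MASSx.sz e1 e2 (le_of_eq (by rw [hc]; ring))
    refine ⟨Nat.mul_le_mul_left _ (by rw [mul_assoc]; rw [mul_add] at a1; omega), a3,
      fun h hh y hy => ?_⟩
    obtain ⟨y', e1, e2⟩ := l2.sup y hy
    have a4 : 2 * |y| < 2 ^ c := MASSx.sz e1 e2 (by
      have := Nat.mul_le_mul_left M a1
      rw [hc]; nlinarith)
    have a5 : 2 ^ c ≤ P ^ K := le_trans ((Nat.le_mul_of_pos_right _ two_pos).trans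
      (Nat.le_mul_of_pos_right _ (by positivity))) big
    have a6 : (2 : ℤ) ^ c ≤ (P : ℤ) ^ K := by exact_mod_cast a5
    have := a3 h hh
    have := abs_add_le h y
    omega
  by_cases hI : isl i
  · simp only [if_pos hI]
    intro hi l1 l2
    obtain ⟨k1, k2, k3⟩ := key n1 _ _ (by omega) hi l1 l2
    obtain ⟨q, q1, q2, q3⟩ := hI
    have d1 : (1 : ℝ) ≤ 4 ^ n1 := one_le_pow₀ (by norm_num)
    have s0 := hMS0 P K (2 ^ (M * g)) (4 ^ n1) α _ _ H H0 ϱ ϱ0 hp.p2 d1 l1.sub l2.sub k3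
    have s1 := hMSI P K (2 ^ (M * g)) (M * (b0 * i + 1)) (2 ^ (M * b0 * n1)) q (2 ^ (M * b0 * n0))
      _ (4 ^ n1) _ α _ _ H H0 ϱ ϱ0 hp.p2 d1 (by exact_mod_cast hp.dP) l1.sub l2.sub k3
      (fun h hh => by
        have b1 : ((2 * |h| : ℤ) : ℝ) < ((2 ^ c : ℤ) : ℝ) := by exact_mod_cast k2 h hh
        have b2 : ((2 ^ c * 2 * (1 + 2 * 2 ^ (M * b0 * n0) * 4 ^ n1) : ℕ) : ℝ) ≤ (P ^ K : ℕ) := by
          exact_mod_cast big
        have b3 : (2 : ℝ) ^ (M * (b0 * i + 1)) ≤ 2 ^ c := pow_le_pow_right₀ one_le_two (by omega)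
        have b4 : (0 : ℝ) ≤ 2 * 2 ^ (M * b0 * n0) * 4 ^ n1 := by positivity
        have b5 : (0 : ℝ) < 2 ^ c := by positivity
        push_cast at b1 b2 ⊢
        nlinarith)
      l2.sup Nat.one_le_two_pow hp.yP q1 q2 q3 (by push_cast; rw [mul_one_div_cancel]; positivity)
      fun i1 h1 A => by
        by_contra h2
        refine hα ⟨i1, h1.trans k1, q, q1, q2,
          (Pool.Agent.P.MP_e86632_nt.nn_le _ (W * A)).trans ?_⟩
        have q0 : (0 : ℝ) < q := by exact_mod_cast q1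
        have e : ((W * q * 2 ^ i1 : ℕ) : ℝ) * α - ((W * A : ℤ) : ℝ) =
            W * q * (2 ^ i1 * α - A / q) := by
          push_cast; field_simp
        rw [e, abs_mul, abs_of_nonneg (by positivity : (0 : ℝ) ≤ W * q),
          div_eq_mul_one_div (W * q : ℝ)]
        exact mul_le_mul_of_nonneg_left (not_lt.1 h2) (by positivity)
    refine le_trans (mul_le_mul_of_nonneg_left ?_ (div_nonneg (by positivity)
      (by rw [pow_mul]; positivity))) hp.bI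
    push_cast at s1 ⊢
    push_cast at s0
    linarith
  · simp only [if_neg hI]
    intro hi l1 l2
    obtain ⟨-, -, k3⟩ := key n0 _ _ n00 hi l1 l2
    have d1 : (1 : ℝ) ≤ 4 ^ n0 := one_le_pow₀ (by norm_num)
    have s0 := hMS0 P K (2 ^ (M * g)) (4 ^ n0) α _ _ H H0 ϱ ϱ0 hp.p2 d1 l1.sub l2.sub k3
    have s1 := hMSN P K (2 ^ (M * g)) (M * (b0 * i + 1)) (2 ^ (M * b0 * n0)) (4 ^ n0)
      (1 / 2 ^ (M * b0 * n1)) α _ _ H H0 ϱ ϱ0 hp.p2 Nat.one_le_two_pow d1 l1.sub l2.sub k3 l2.sup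
      (fun q q1 q2 => not_le.1 fun h => hI ⟨q, q1, q2, h⟩)
      (by
        have b1 : 2 ^ (M * g) ≤ 2 ^ (M * G1) :=
          Nat.pow_le_pow_right two_pos (Nat.mul_le_mul_left _ g1)
        have b2 : 2 * 2 ^ (M * g) * 4 ^ n0 < P :=
          lt_of_le_of_lt (Nat.mul_le_mul_right _ (Nat.mul_le_mul_left _ b1)) hp.wrap
        exact_mod_cast b2)
      (by
        have b1 : 4 * 4 ^ n0 * 2 ^ (M * b0 * n1) ≤ 2 ^ (M * g) :=
          hp.prec.trans (Nat.pow_le_pow_right two_pos (Nat.mul_le_mul_left _ g0))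
        rw [one_div_mul_eq_div, le_div_iff₀ (by positivity)]
        exact_mod_cast b1)
    refine le_trans (mul_le_mul_of_nonneg_left ?_ (div_nonneg (by positivity)
      (by rw [pow_mul]; positivity))) hp.bN
    linarith

end Pool.Agent.P.MP_42fc1a_nt.EK
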