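import Pool.Agent.P.MP_42fc1a_nt.EK.IfaceA

/-! Step MMX. -/

namespace Pool.Agent.P.MP_42fc1a_nt.EK

open Finset Real Filter Topology MeasureTheory
open Pool.Agent.P.MP_e86632_nt (ee nn ee_add norm_ee ee_neg ee_zero)
open Pool.Agent.P.MP_8be758_nt.Avg (gs red ft nsq gs_pos gs_le_one gs_neg gs_anti)
open Pool.Agent.P.MP_e94e4b_nt.PF (sgm)
open Pool.Agent.P.E2
open ArithmeticFunction (vonMangoldt moebius)
open DirichletCharacter (LFunction)
open scoped Classical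

namespace MMXx

theorem FF_nonneg (M b : ℕ) (ω : ℕ → ℂ) (R : Finset ℕ) (x : ℝ) : 0 ≤ FF M b ω R x :=
  prod_nonneg fun _ _ => sq_nonneg _

theorem uni_one : Uni fun _ => 1 := fun _ => by simp

theorem sumB {M b p i Y : ℕ} {e : ℝ} {R : Finset ℕ} {H : Finset ℤ} {ϱ : ℤ → ℝ} (hp : 1 ≤ p)
    (hL : Law M b R i Y e H ϱ) (β : ℝ) :
    ∑ j ∈ range p, FF M b (fun _ => 1) R ((β + j) / p) ≤
      p * ∑ h ∈ H.filter (fun h => (p : ℤ) ∣ h), ϱ h := by
  obtain ⟨c, hc, hF⟩ := hL.exp _ uni_one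
  have h1 : ((∑ j ∈ range p, FF M b (fun _ => 1) R ((β + j) / p) : ℝ) : ℂ) =
      ∑ h ∈ H.filter (fun h => (p : ℤ) ∣ h), c h * ee (h * (β / p)) * p := by
    push_cast
    simp only [hF]
    rw [sum_comm, sum_filter]
    refine sum_congr rfl fun h _ => ?_
    have h2 : ∀ j ∈ range p, c h * ee (h * ((β + j) / p)) =
        c h * ee (h * (β / p)) * ee ((j : ℝ) / p * h) := fun j _ => by
      rw [mul_assoc, ← ee_add]; congr 2; ring
    rw [sum_congr rfl h2, ← mul_sum, Pool.Agent.P.MP_8be758_nt.Avg.far_two p h hp]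
    split_ifs <;> simp
  have h3 := congrArg norm h1
  rw [Complex.norm_real, Real.norm_eq_abs] at h3
  refine (le_abs_self _).trans (h3.le.trans ((norm_sum_le _ _).trans ?_))
  rw [mul_sum]
  refine sum_le_sum fun h _ => ?_
  rw [norm_mul, norm_mul, norm_ee, mul_one, Complex.norm_natCast, mul_comm]
  exact mul_le_mul_of_nonneg_left (hc h) (Nat.cast_nonneg _)

theorem stepA (hBLK : S_BLK) {M b u : ℕ} {lam μ z : ℝ} (hb : 1 ≤ b) (hu : 1 ≤ u) (hμ : 0 < μ)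
    (hl : 2 * μ ≤ lam) (hz : lam ≤ ‖Gn M (b * u) z‖) :
    ∃ R ∈ powersetCard ⌈μ * u⌉₊ (range u), μ ^ (2 * ⌈μ * u⌉₊) ≤ FF M b (fun _ => 1) R z := by
  have b0 : (0 : ℝ) < b := by exact_mod_cast hb
  have h0 : (0 : ℝ) < (b * u : ℕ) := by exact_mod_cast Nat.mul_pos hb hu
  rw [Gn, norm_div, Complex.norm_natCast, le_div_iff₀ h0] at hz
  have h1 := hBLK M b u _ z μ uni_one hb hμ.le
    ((mul_le_mul_of_nonneg_right hl h0.le).trans hz)
  obtain ⟨R, hR, hc⟩ := exists_subset_card_eq (Nat.ceil_le.2 h1)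
  refine ⟨R, mem_powersetCard.2 ⟨hR.trans (filter_subset _ _), hc⟩, ?_⟩
  rw [pow_mul, ← hc, ← prod_const, FF]
  refine prod_le_prod (fun _ _ => sq_nonneg _) fun k hk => ?_
  exact pow_le_pow_left₀ hμ.le ((le_div_iff₀ b0).2 (mem_filter.1 (hR hk)).2) 2

end MMXx

theorem p_MMX (hBLK : S_BLK) :
    S_MMX := by
  intro M b u p i Y lam μ e β H ϱ hb hu hp hμ hl hL
  have m0 : 0 < μ ^ (2 * ⌈μ * u⌉₊) := pow_pos hμ _
  rw [div_mul_eq_mul_div, le_div_iff₀ m0, mul_sum]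
  refine le_trans ?_ (sum_le_sum fun R hR => MMXx.sumB hp (hL R hR) β)
  rw [sum_comm, nb, ← nsmul_eq_mul, ← sum_const]
  refine le_trans (sum_le_sum fun j hj => ?_) (sum_le_sum_of_subset_of_nonneg
    (filter_subset _ _) fun j _ _ => sum_nonneg fun R _ => MMXx.FF_nonneg _ _ _ _ _)
  obtain ⟨R, hR, h⟩ := MMXx.stepA hBLK hb hu hμ hl (mem_filter.1 hj).2
  exact h.trans (single_le_sum (f := fun R => FF M b (fun _ => 1) R ((β + j) / p))
    (fun R _ => MMXx.FF_nonneg _ _ _ _ _) hR)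

end Pool.Agent.P.MP_42fc1a_nt.EK
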