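import Pool.Agent.P.MP_42fc1a_nt.EK.IfaceC
import Pool.Agent.P.MP_42fc1a_nt.EK.IfaceB

/-! Step MOD. -/

namespace Pool.Agent.P.MP_42fc1a_nt.EK

open Finset Real Filter Topology MeasureTheory
open Pool.Agent.P.MP_e86632_nt (ee nn ee_add norm_ee ee_neg ee_zero)
open Pool.Agent.P.MP_8be758_nt.Avg (gs red ft nsq gs_pos gs_le_one gs_neg gs_anti)
open Pool.Agent.P.MP_e94e4b_nt.PF (sgm)
open Pool.Agent.P.E2
open ArithmeticFunction (vonMangoldt moebius)
open DirichletCharacter (LFunction)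
open scoped Classical

namespace MODx

theorem card_Ic (r : ℝ) (q c : ℕ) : ((Ic r q c).card : ℝ) ≤ 110 * XX r := by
  have h1 : (Ic r q c).card ≤ ⌊110 * XX r⌋₊ :=
    (card_filter_le _ _).trans (by rw [II, Nat.card_Ioc]; omega)
  exact (Nat.cast_le.2 h1).trans (Nat.floor_le (by have := XX_pos r; positivity))

theorem exp_five : Real.exp 5 ≤ 243 := by
  have h : Real.exp 1 ≤ 3 := Real.exp_one_lt_three.le
  calc Real.exp 5 = Real.exp 1 ^ 5 := by rw [← Real.exp_nat_mul]; norm_num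
    _ ≤ 3 ^ 5 := by gcongr
    _ = 243 := by norm_num

end MODx

theorem p_MOD (hBW : S_BW) (hOM : S_OM) (hCLM : S_CLM) :
    S_MOD := by
  filter_upwards [hBW, hOM, hCLM, ev_pe1 10000 20, eventually_ge_atTop 3] with r hBW hOM hCLM h1 h3
  intro P θ v T q c hP hS hv
  obtain ⟨o1, o2, -, o4⟩ := hOM P T hP
  obtain ⟨c1, c2⟩ := hCLM θ v q c hS hv
  have hrh := (hBW P T hP).1
  have hX := XX_pos r
  have hq : (1 : ℝ) ≤ q := by exact_mod_cast hS.q1
  have hq0 : (0 : ℝ) < q := by linarith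
  have hθ : 0 < θ := by
    have := hS.qt
    by_contra h
    nlinarith
  have hr1 : 1 ≤ r := by linarith
  have hev : Real.exp v ≤ 243 * XX r := by
    calc Real.exp v ≤ Real.exp (5 + r ^ 13) := Real.exp_le_exp.2 (by linarith [(abs_le.1 hv).2])
      _ = Real.exp 5 * XX r := Real.exp_add _ _
      _ ≤ _ := by gcongr; exact MODx.exp_five
  set u := Real.exp (-r) with hu
  have hu0 : 0 < u := Real.exp_pos _
  have hr20 : 1 ≤ r ^ 20 := one_le_pow₀ hr1
  have hu1 : 10000 * r ^ 20 * u ≤ 1 := by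
    calc _ ≤ Real.exp r * u := by gcongr
      _ = 1 := by rw [hu, ← Real.exp_add]; simp
  have hu2 : 10000 * u ≤ 1 := by nlinarith
  have e2 : Real.exp (-(2 * r)) = u ^ 2 := by rw [hu, ← Real.exp_nat_mul]; congr 1; push_cast; ring
  have e7 : Th r = u ^ 7 := by rw [hu, Th, ← Real.exp_nat_mul]; congr 1; push_cast; ring
  have p12 : r ≤ r ^ 13 := le_self_pow₀ hr1 (by norm_num)
  have e14 : Real.exp (-(r ^ 7) ^ 2) * XX r ≤ u ^ 2 := by
    rw [← e2, XX, ← Real.exp_add]
    refine Real.exp_le_exp.2 ?_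
    have : (r ^ 7) ^ 2 = r * r ^ 13 := by ring
    nlinarith
  have e20 : Real.exp (-r ^ 20) ≤ u ^ 2 := by
    rw [← e2]
    refine Real.exp_le_exp.2 ?_
    have h19 : r ≤ r ^ 19 := le_self_pow₀ hr1 (by norm_num)
    have : r ^ 20 = r * r ^ 19 := by ring
    nlinarith
  set Y := XX r / q with hY
  have hY0 : 0 < Y := by positivity
  have hA : Real.exp v / q ≤ 243 * Y := by rw [hY, ← mul_div_assoc]; gcongr
  have hA0 : 0 < Real.exp v / q := by positivity
  rw [mul_div_assoc] at c1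
  have hS0 : 0 ≤ ∑ m ∈ Ic r q c, gk θ (Real.log m - v) := sum_nonneg fun _ _ => gk_nonneg hθ _
  have hθ1 : 1 / θ ≤ Y / 200 := by
    rw [hY, div_div, div_le_div_iff₀ hθ (by positivity)]
    linarith [hS.qt]
  have t1 : |om r P T v * (∑ m ∈ Ic r q c, gk θ (Real.log m - v) - Real.exp v / q)| ≤
      8 / θ + 9720 * (u ^ 2 * Y) := by
    rw [abs_mul, abs_of_nonneg (o1 v).1]
    by_cases hc : r ^ 13 - 7 / 2 ≤ v ∧ v ≤ r ^ 13 + 4
    · have := c2 hc.1 hc.2
      rw [e2, show XX r * u ^ 2 / q = u ^ 2 * Y by rw [hY]; ring] at this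
      calc _ ≤ 2 * (4 / θ + u ^ 2 * Y) :=
            mul_le_mul ((o1 v).2.trans hrh) this (abs_nonneg _) (by norm_num)
        _ = 8 / θ + 2 * (u ^ 2 * Y) := by ring
        _ ≤ _ := by gcongr; norm_num
    · have h4 := o4 v (by
        by_contra h
        push Not at h
        exact hc ⟨by linarith [h.1], by linarith [h.2]⟩)
      have h5 : |∑ m ∈ Ic r q c, gk θ (Real.log m - v) - Real.exp v / q| ≤ 2430 * Y :=
        abs_le.2 ⟨by linarith, by linarith⟩
      calc _ ≤ (4 * u ^ 2) * (2430 * Y) :=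
            mul_le_mul (by linarith) h5 (abs_nonneg _) (by positivity)
        _ = 9720 * (u ^ 2 * Y) := by ring
        _ ≤ _ := le_add_of_nonneg_left (by positivity)
  have t2 : |∑ m ∈ Ic r q c, (om r P T (Real.log m) - om r P T v) * gk θ (Real.log m - v)| ≤
      3 * (u ^ 2 * Y) := by
    have a1 : ∀ m ∈ Ic r q c, |(om r P T (Real.log m) - om r P T v) * gk θ (Real.log m - v)| ≤
        4 * r ^ 20 * θ * gk θ (Real.log m - v) + 2 * (Real.exp (-(r ^ 7) ^ 2) / θ) := by
      intro m _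
      have g0 := gk_nonneg hθ (Real.log m - v)
      rw [abs_mul, abs_of_nonneg g0]
      rcases le_total (r ^ 7 * θ) |Real.log m - v| with h | h
      · have b1 : |om r P T (Real.log m) - om r P T v| ≤ 2 :=
          abs_le.2 ⟨by linarith [(o1 v).2, (o1 (Real.log m)).1],
            by linarith [(o1 v).1, (o1 (Real.log m)).2]⟩
        exact (mul_le_mul b1 (gk_le_exp hθ (by positivity) h) g0 (by norm_num)).trans
          (le_add_of_nonneg_left (by positivity))
      · refine le_trans ?_ (le_add_of_nonneg_right (by positivity))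
        refine mul_le_mul_of_nonneg_right ((o2 _ _).trans ?_) g0
        calc _ ≤ 4 * r ^ 13 * (r ^ 7 * θ) := by gcongr
          _ = _ := by ring
    refine (abs_sum_le_sum_abs _ _).trans ((sum_le_sum a1).trans ?_)
    rw [sum_add_distrib, ← mul_sum, sum_const, nsmul_eq_mul]
    have b1 : 4 * r ^ 20 * θ * ∑ m ∈ Ic r q c, gk θ (Real.log m - v) ≤ u ^ 2 * Y := by
      have hθ7 : θ ≤ u ^ 7 := e7 ▸ hS.tt
      have hu4 : u ^ 4 ≤ 1 := pow_le_one₀ hu0.le (by linarith)
      calc _ ≤ 4 * r ^ 20 * u ^ 7 * (2430 * Y) := by gcongr; linarith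
        _ = (9720 * r ^ 20 * u) * u ^ 4 * (u ^ 2 * Y) := by ring
        _ ≤ 1 * 1 * (u ^ 2 * Y) := by gcongr; nlinarith
        _ = _ := by ring
    have b2 : ((Ic r q c).card : ℝ) * (2 * (Real.exp (-(r ^ 7) ^ 2) / θ)) ≤ 2 * (u ^ 2 * Y) := by
      calc _ ≤ 110 * XX r * (2 * (Real.exp (-(r ^ 7) ^ 2) * (1 / θ))) := by
            rw [mul_one_div]; gcongr; exact MODx.card_Ic r q c
        _ = 220 * (Real.exp (-(r ^ 7) ^ 2) * XX r) * (1 / θ) := by ring
        _ ≤ 220 * u ^ 2 * (Y / 200) := by gcongr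
        _ ≤ _ := by nlinarith [mul_pos (pow_pos hu0 2) hY0]
    linarith
  have e : ∑ m ∈ Ic r q c, om r P T (Real.log m) * gk θ (Real.log m - v) -
      om r P T v * Real.exp v / q =
      om r P T v * (∑ m ∈ Ic r q c, gk θ (Real.log m - v) - Real.exp v / q) +
      ∑ m ∈ Ic r q c, (om r P T (Real.log m) - om r P T v) * gk θ (Real.log m - v) := by
    simp only [sub_mul, sum_sub_distrib, ← mul_sum]
    ring
  rw [e, show XX r * u / q = u * Y by rw [hY]; ring]
  refine (abs_add_le _ _).trans ?_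
  have : 10000 * u * (u * Y) ≤ 1 * (u * Y) := by gcongr
  nlinarith [mul_pos (pow_pos hu0 2) hY0]

end Pool.Agent.P.MP_42fc1a_nt.EK
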