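import Pool.Agent.P.MP_42fc1a_nt.EK.IfaceA

/-! Step MOM. -/

namespace Pool.Agent.P.MP_42fc1a_nt.EK

open Finset Real Filter Topology MeasureTheory
open Pool.Agent.P.MP_e86632_nt (ee nn ee_add norm_ee ee_neg ee_zero)
open Pool.Agent.P.MP_8be758_nt.Avg (gs red ft nsq gs_pos gs_le_one gs_neg gs_anti)
open Pool.Agent.P.MP_e94e4b_nt.PF (sgm)
open Pool.Agent.P.E2
open ArithmeticFunction (vonMangoldt moebius)
open DirichletCharacter (LFunction)
open scoped Classical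

namespace MOMx

lemma ee_nat (j : ℕ) (x : ℝ) : ee (j * x) = ee x ^ j := by
  induction j with
  | zero => simp
  | succ j ih => rw [Nat.cast_succ, add_mul, one_mul, ee_add, ih, pow_succ]

lemma ee_ne (H : ℤ) (p : ℕ) (hp : 1 ≤ p) (h : ¬ (p : ℤ) ∣ H) : ee ((H : ℝ) / p) ≠ 1 := by
  intro h1
  unfold ee at h1
  obtain ⟨n, hn⟩ := Complex.exp_eq_one_iff.1 h1
  have hp0 : (p : ℝ) ≠ 0 := by positivity
  have h2 := congrArg Complex.im hn
  simp only [Complex.mul_im, Complex.I_re, Complex.ofReal_im, mul_zero, Complex.I_im,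
    Complex.ofReal_re, one_mul, zero_add, Complex.intCast_re, Complex.intCast_im,
    Complex.mul_re, Complex.re_ofNat, Complex.im_ofNat, zero_mul, sub_zero, mul_one,
    add_zero] at h2
  have h3 : (H : ℝ) = p * n := by
    have := Real.pi_pos
    field_simp at h2
    linarith
  exact h ⟨n, by exact_mod_cast h3⟩

lemma orth (H : ℤ) (p : ℕ) (hp : 1 ≤ p) :
    ∑ j ∈ range p, ee (j * ((H : ℝ) / p)) = if (p : ℤ) ∣ H then (p : ℂ) else 0 := by
  have hp0 : (p : ℝ) ≠ 0 := by positivity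
  simp only [ee_nat]
  split_ifs with h
  · obtain ⟨t, rfl⟩ := h
    have : (((p : ℤ) * t : ℤ) : ℝ) / p = t := by push_cast; field_simp
    rw [this, Pool.Agent.P.MP_e86632_nt.ee_int]
    simp
  · rw [geom_sum_eq (ee_ne H p hp h), ← ee_nat]
    have : (p : ℝ) * ((H : ℝ) / p) = H := by field_simp
    rw [this, Pool.Agent.P.MP_e86632_nt.ee_int]
    simp

lemma dbl (N : ℕ) (hN : 1 ≤ N) (θ : ℝ) :
    ∑ a ∈ range N, ∑ b ∈ range N, ee ((((a : ℤ) - b : ℤ) : ℝ) * θ) =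
      (((N : ℝ) ^ 2 * fe N θ : ℝ) : ℂ) := by
  have hN0 : (N : ℝ) ≠ 0 := by positivity
  have e : (N : ℝ) ^ 2 * fe N θ = ‖∑ v ∈ range N, ee (v * θ)‖ ^ 2 := by
    unfold fe; rw [mul_div_cancel₀ _ (pow_ne_zero 2 hN0)]
  rw [e, ← Complex.normSq_eq_norm_sq, ← Complex.mul_conj, map_sum, sum_mul_sum]
  refine sum_congr rfl fun a _ => sum_congr rfl fun b _ => ?_
  rw [← ee_neg, ← ee_add]
  congr 1
  push_cast
  ring

end MOMx

open MOMx in
theorem p_MOM (hFE : S_FE) :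
    S_MOM := by
  intro ι K Hh c wt F P p g α hP hp hF hc hexp
  have hP0 : (0 : ℝ) < P := by exact_mod_cast hP
  have hp0 : (p : ℝ) ≠ 0 := by positivity
  set G : ℤ → ℤ → ℝ := fun v v' => ∑ j ∈ range p, F ((((v : ℝ) + g * v') * α + j) / p) with hG
  have hG0 : ∀ v v', 0 ≤ G v v' := fun v v' => sum_nonneg fun j _ => hF _
  set S : ℝ := ∑ a ∈ range (4 * P), ∑ b ∈ range (4 * P), ∑ a' ∈ range (4 * P),
    ∑ b' ∈ range (4 * P), G ((a : ℤ) - b) ((a' : ℤ) - b') with hS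
  have h1 : ∑ v ∈ Ioc P (2 * P), ∑ v' ∈ Ioc P (2 * P), G v v' ≤ S / (2 * P) ^ 2 := by
    refine (hFE.2 P (fun v => ∑ v' ∈ Ioc P (2 * P), G v v') hP
      fun v => sum_nonneg fun _ _ => hG0 _ _).trans ?_
    rw [pow_two, ← div_div S]
    have h2P : (0 : ℝ) ≤ 2 * P := by positivity
    refine div_le_div_of_nonneg_right ?_ h2P
    rw [hS, sum_div]
    refine sum_le_sum fun a _ => ?_
    rw [sum_div]
    exact sum_le_sum fun b _ => hFE.2 P (G ((a : ℤ) - b)) hP (hG0 _)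
  have h2 : ∀ v v' : ℤ, (G v v' : ℂ) = ∑ κ ∈ K.filter (fun κ => (p : ℤ) ∣ Hh κ), c κ * p *
      (ee (v * (((Hh κ / p : ℤ) : ℝ) * α)) * ee (v' * (g * (((Hh κ / p : ℤ) : ℝ) * α)))) := by
    intro v v'
    rw [hG]
    simp only [Complex.ofReal_sum, hexp]
    rw [sum_comm, sum_filter]
    refine sum_congr rfl fun κ _ => ?_
    have e : ∀ j : ℕ, c κ * ee (Hh κ * ((((v : ℝ) + g * v') * α + j) / p)) =
        c κ * ee (((v : ℝ) + g * v') * α * ((Hh κ : ℝ) / p)) * ee (j * ((Hh κ : ℝ) / p)) := by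
      intro j
      rw [mul_assoc, ← ee_add]
      congr 2
      ring
    simp only [e]
    rw [← mul_sum, orth _ _ hp]
    split_ifs with h
    · obtain ⟨t, ht⟩ := h
      have e1 : Hh κ / p = t := by
        rw [ht]; exact Int.mul_ediv_cancel_left _ (by positivity)
      have e2 : (Hh κ : ℝ) / p = t := by rw [ht]; push_cast; field_simp
      rw [e1, e2, ← ee_add, mul_right_comm]
      congr 2
      ring
    · simp
  have h3 : (S : ℂ) = ∑ κ ∈ K.filter (fun κ => (p : ℤ) ∣ Hh κ), c κ * p *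
      ((((((4 * P : ℕ) : ℝ) ^ 2 * fe (4 * P) (((Hh κ / p : ℤ) : ℝ) * α) : ℝ)) : ℂ) *
        (((((4 * P : ℕ) : ℝ) ^ 2 * fe (4 * P) (g * (((Hh κ / p : ℤ) : ℝ) * α)) : ℝ)) : ℂ)) := by
    rw [hS]
    simp only [Complex.ofReal_sum, h2]
    simp only [← dbl (4 * P) (by omega)]
    simp only [sum_comm (s := range (4 * P)) (t := K.filter fun κ => (p : ℤ) ∣ Hh κ)]
    refine sum_congr rfl fun κ _ => ?_
    simp only [← mul_sum, ← sum_mul]
  have h4 : S ≤ ∑ κ ∈ K.filter (fun κ => (p : ℤ) ∣ Hh κ), wt κ * p * ((4 * P : ℝ) ^ 4 *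
      (fe (4 * P) (((Hh κ / p : ℤ) : ℝ) * α) * fe (4 * P) (g * (((Hh κ / p : ℤ) : ℝ) * α)))) := by
    have : S ≤ ‖(S : ℂ)‖ := by rw [Complex.norm_real]; exact le_abs_self _
    rw [h3] at this
    refine this.trans ((norm_sum_le _ _).trans (sum_le_sum fun κ hκ => ?_))
    have f1 := (hFE.1 (4 * P) (((Hh κ / p : ℤ) : ℝ) * α) (by omega)).1
    have f2 := (hFE.1 (4 * P) (g * (((Hh κ / p : ℤ) : ℝ) * α)) (by omega)).1
    rw [norm_mul, norm_mul, ← Complex.ofReal_mul, Complex.norm_real, Complex.norm_natCast,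
      Real.norm_of_nonneg (by positivity)]
    have f3 := hc κ (mem_filter.1 hκ).1
    refine le_of_le_of_eq (mul_le_mul_of_nonneg_right
      (mul_le_mul_of_nonneg_right f3 (by positivity)) (by positivity)) ?_
    push_cast
    ring
  have h5 : ∑ v ∈ Ioc P (2 * P), ∑ v' ∈ Ioc P (2 * P), ∑ j ∈ range p,
      F ((((v : ℝ) + g * v') * α + j) / p) =
      ∑ v ∈ Ioc P (2 * P), ∑ v' ∈ Ioc P (2 * P), G v v' := by
    simp only [hG, Int.cast_natCast]
  rw [h5]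
  refine h1.trans ((div_le_div_of_nonneg_right h4 (by positivity)).trans_eq ?_)
  rw [sum_div, mul_sum]
  refine sum_congr rfl fun κ _ => ?_
  field_simp
  ring

end Pool.Agent.P.MP_42fc1a_nt.EK
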