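import Pool.Agent.P.MP_42fc1a_nt.EK.IfaceA

/-! Step MS0. -/

namespace Pool.Agent.P.MP_42fc1a_nt.EK

open Finset Real Filter Topology MeasureTheory
open Pool.Agent.P.MP_e86632_nt (ee nn ee_add norm_ee ee_neg ee_zero)
open Pool.Agent.P.MP_8be758_nt.Avg (gs red ft nsq gs_pos gs_le_one gs_neg gs_anti)
open Pool.Agent.P.MP_e94e4b_nt.PF (sgm)
open Pool.Agent.P.E2
open ArithmeticFunction (vonMangoldt moebius)
open DirichletCharacter (LFunction)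
open scoped Classical

namespace MS0x

lemma small (hFE : S_FE) {P : ℕ} (hP : 2 ≤ P) {Δ θ : ℝ} (hΔ : 1 ≤ Δ) (h : Δ / P < nn θ) :
    fe (4 * P) θ ≤ 1 / Δ ^ 2 := by
  have p0 : (0 : ℝ) < P := by exact_mod_cast (by omega : 0 < P)
  have n0 : 0 < nn θ := lt_of_le_of_lt (by positivity) h
  refine ((hFE.1 (4 * P) θ (by omega)).2.2 n0).trans ?_
  refine one_div_le_one_div_of_le (by positivity) (pow_le_pow_left₀ (by positivity) ?_ 2)
  rw [div_lt_iff₀ p0] at h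
  push_cast
  nlinarith

lemma point (hFE : S_FE) {P p g : ℕ} (hP : 2 ≤ P) {Δ α : ℝ} (hΔ : 1 ≤ Δ) (H : ℤ) :
    (if (p : ℤ) ∣ H then fe (4 * P) (((H / p : ℤ) : ℝ) * α) *
        fe (4 * P) (g * (((H / p : ℤ) : ℝ) * α)) else 0) ≤
      (if H = 0 then 1 else 0) + (if H ≠ 0 ∧ (p : ℤ) ∣ H then 1 else 0) * (1 / Δ ^ 2) +
        if Ev P p g Δ α H then 1 else 0 := by
  obtain ⟨a0, a1, -⟩ := hFE.1 (4 * P) (((H / p : ℤ) : ℝ) * α) (by omega)
  obtain ⟨b0, b1, -⟩ := hFE.1 (4 * P) (g * (((H / p : ℤ) : ℝ) * α)) (by omega)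
  have c := mul_le_one₀ a1 b0 b1
  have d : (0 : ℝ) ≤ 1 / Δ ^ 2 := by positivity
  by_cases h1 : (p : ℤ) ∣ H
  · rw [if_pos h1]
    by_cases h2 : H = 0
    · rw [if_pos h2, if_neg (fun k => k.1 h2)]
      split_ifs <;> linarith
    · rw [if_neg h2, if_pos ⟨h2, h1⟩]
      by_cases h3 : Ev P p g Δ α H
      · rw [if_pos h3]; linarith
      · rw [if_neg h3]
        by_cases h4 : nn (((H / p : ℤ) : ℝ) * α) ≤ Δ / P
        · have h5 : Δ / P < nn (g * (((H / p : ℤ) : ℝ) * α)) :=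
            lt_of_not_ge fun k => h3 ⟨h1, h2, h4, k⟩
          have := small hFE hP hΔ h5
          nlinarith
        · have := small hFE hP hΔ (lt_of_not_ge h4)
          nlinarith
  · rw [if_neg h1]
    split_ifs <;> linarith

end MS0x

open MS0x in
theorem p_MS0 (hFE : S_FE) (hPD : S_PD) :
    S_MS0 := by
  intro P K g Δ α e1 e2 H1 H2 ϱ1 ϱ2 hP hΔ s1 s2 hb
  have w0 : ∀ x : ℤ × ℤ, 0 ≤ ϱ1 x.1 * ϱ2 x.2 := fun x => mul_nonneg (s1.pos _) (s2.pos _)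
  have e0 : 0 ≤ e1 := (s1.pos 0).trans (s1.atom 0)
  have d : (0 : ℝ) ≤ 1 / Δ ^ 2 := by positivity
  have st : ∀ p ∈ Pn P, ms P p g α H1 ϱ1 H2 ϱ2 ≤
      ∑ x ∈ H1 ×ˢ H2, ϱ1 x.1 * ϱ2 x.2 * (if x.1 + x.2 = 0 then 1 else 0) +
      ∑ x ∈ H1 ×ˢ H2, ϱ1 x.1 * ϱ2 x.2 *
        ((if x.1 + x.2 ≠ 0 ∧ (p : ℤ) ∣ x.1 + x.2 then 1 else 0) * (1 / Δ ^ 2)) +
      ∑ x ∈ (H1 ×ˢ H2).filter (fun x => Ev P p g Δ α (x.1 + x.2)), ϱ1 x.1 * ϱ2 x.2 := by
    intro p _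
    unfold ms
    rw [sum_filter, sum_filter, ← sum_add_distrib, ← sum_add_distrib]
    refine sum_le_sum fun x _ => ?_
    have := mul_le_mul_of_nonneg_left (point (p := p) (g := g) (α := α) hFE hP hΔ (x.1 + x.2)) (w0 x)
    rw [mul_add, mul_add, mul_ite, mul_zero, mul_ite (Ev P p g Δ α (x.1 + x.2)), mul_one,
      mul_zero] at this
    exact this
  have A : ∑ x ∈ H1 ×ˢ H2, ϱ1 x.1 * ϱ2 x.2 * (if x.1 + x.2 = 0 then 1 else 0) ≤ e1 := by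
    rw [sum_product_right]
    calc _ ≤ ∑ y ∈ H2, e1 * ϱ2 y := sum_le_sum fun y _ => ?_
      _ ≤ e1 := by rw [← mul_sum]; exact mul_le_of_le_one_right e0 s2.tot
    have : ∀ h ∈ H1, ϱ1 (h, y).1 * ϱ2 (h, y).2 * (if (h, y).1 + (h, y).2 = 0 then 1 else 0) =
        if h = -y then ϱ1 h * ϱ2 y else 0 := by
      intro h _
      simp only [add_eq_zero_iff_eq_neg, mul_ite, mul_one, mul_zero]
    rw [sum_congr rfl this, sum_ite_eq']
    split_ifs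
    · exact mul_le_mul_of_nonneg_right (s1.atom _) (s2.pos _)
    · exact mul_nonneg e0 (s2.pos _)
  have cP : ((Pn P).card : ℝ) ≤ 2 * P := by
    have : (Pn P).card ≤ 2 * P := (card_filter_le _ _).trans (by rw [Nat.card_Ioc]; omega)
    exact_mod_cast this
  have tot : ∑ x ∈ H1 ×ˢ H2, ϱ1 x.1 * ϱ2 x.2 ≤ 1 := by
    rw [sum_product' (f := fun a b => ϱ1 a * ϱ2 b), ← sum_mul_sum]
    exact mul_le_one₀ s1.tot (sum_nonneg fun y _ => s2.pos y) s2.tot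
  have B : ∑ p ∈ Pn P, ∑ x ∈ H1 ×ˢ H2, ϱ1 x.1 * ϱ2 x.2 *
      ((if x.1 + x.2 ≠ 0 ∧ (p : ℤ) ∣ x.1 + x.2 then 1 else 0) * (1 / Δ ^ 2)) ≤ K / Δ ^ 2 := by
    rw [sum_comm]
    calc _ ≤ ∑ x ∈ H1 ×ˢ H2, ϱ1 x.1 * ϱ2 x.2 * (K * (1 / Δ ^ 2)) := sum_le_sum fun x hx => ?_
      _ ≤ K / Δ ^ 2 := by
        rw [← sum_mul, mul_one_div]
        exact mul_le_of_le_one_left (by positivity) tot
    rw [← mul_sum, ← sum_mul]
    refine mul_le_mul_of_nonneg_left (mul_le_mul_of_nonneg_right ?_ d) (w0 x)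
    rw [sum_boole]
    by_cases h0 : x.1 + x.2 = 0
    · simp [h0]
    · have := hPD P K _ hP h0 (hb _ (mem_product.1 hx).1 _ (mem_product.1 hx).2)
      have e : ((Pn P).filter fun p : ℕ => x.1 + x.2 ≠ 0 ∧ (p : ℤ) ∣ x.1 + x.2).card ≤ K :=
        (card_le_card fun p hp => mem_filter.2 ⟨(mem_filter.1 hp).1, (mem_filter.1 hp).2.2⟩).trans
          this
      exact_mod_cast e
  refine (sum_le_sum st).trans ?_
  rw [sum_add_distrib, sum_add_distrib, sum_const, nsmul_eq_mul]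
  unfold core
  have := mul_le_mul cP A (sum_nonneg fun x _ => mul_nonneg (w0 x) (by split_ifs <;> norm_num))
    (by positivity)
  linarith

end Pool.Agent.P.MP_42fc1a_nt.EK
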