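import Pool.Agent.P.MP_42fc1a_nt.EK.IfaceA

/-! Step MSI. -/

namespace Pool.Agent.P.MP_42fc1a_nt.EK

open Finset Real Filter Topology MeasureTheory
open Pool.Agent.P.MP_e86632_nt (ee nn ee_add norm_ee ee_neg ee_zero)
open Pool.Agent.P.MP_8be758_nt.Avg (gs red ft nsq gs_pos gs_le_one gs_neg gs_anti)
open Pool.Agent.P.MP_e94e4b_nt.PF (sgm)
open Pool.Agent.P.E2
open ArithmeticFunction (vonMangoldt moebius)
open DirichletCharacter (LFunction)
open scoped Classical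

namespace MSIx

/-- the terms in which the prime lies in a small set that depends on the first frequency -/
lemma s1 {S : Finset ℕ} {e1 e2 c : ℝ} {H1 H2 : Finset ℤ} {ϱ1 ϱ2 : ℤ → ℝ} (h1 : Sub e1 H1 ϱ1)
    (h2 : Sub e2 H2 ϱ2) (T : ℤ → Finset ℕ) (hc : 0 ≤ c) (hT : ∀ h ∈ H1, ((T h).card : ℝ) ≤ c)
    (hu : ∀ p ∈ S, ∀ h : ℤ, ∀ y ∈ H2, ∀ y' ∈ H2, (p : ℤ) ∣ h + y → (p : ℤ) ∣ h + y' → y = y') :
    ∑ p ∈ S, ∑ x ∈ H1 ×ˢ H2, (if (p : ℤ) ∣ x.1 + x.2 ∧ p ∈ T x.1 then ϱ1 x.1 * ϱ2 x.2 else 0) ≤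
      c * e2 := by
  have e0 : 0 ≤ e2 := (h2.pos 0).trans (h2.atom 0)
  rw [sum_comm, sum_product]
  calc _ ≤ ∑ h ∈ H1, ϱ1 h * (c * e2) := sum_le_sum fun h hh => ?_
    _ ≤ 1 * (c * e2) := by rw [← sum_mul]; gcongr; exact h1.tot
    _ = _ := one_mul _
  have r0 := h1.pos h
  rw [sum_comm]
  calc _ ≤ ∑ p ∈ S, (if p ∈ T h then ϱ1 h * e2 else 0) := sum_le_sum fun p hp => ?_
    _ = ((S.filter (· ∈ T h)).card : ℝ) * (ϱ1 h * e2) := by rw [← sum_filter]; simp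
    _ ≤ c * (ϱ1 h * e2) := by
        gcongr
        exact le_trans (by exact_mod_cast card_le_card fun p hp => (mem_filter.1 hp).2) (hT h hh)
    _ = _ := by ring
  split_ifs with hp'
  · rw [← sum_filter]
    refine (sum_le_card_nsmul _ _ (ϱ1 h * e2) fun y _ =>
      mul_le_mul_of_nonneg_left (h2.atom y) r0).trans ?_
    rw [nsmul_eq_mul]
    refine mul_le_of_le_one_left (by positivity) (Nat.cast_le_one.2 (card_le_one.2 ?_))
    intro y hy y' hy'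
    rw [mem_filter] at hy hy'
    exact hu p hp h y hy.1 y' hy'.1 hy.2.1 hy'.2.1
  · simp [hp']

/-- the terms in which the total frequency lies in a small set -/
lemma s2 {S : Finset ℕ} {K : ℕ} {e1 e2 : ℝ} {H1 H2 : Finset ℤ} {ϱ1 ϱ2 : ℤ → ℝ}
    (h1 : Sub e1 H1 ϱ1) (h2 : Sub e2 H2 ϱ2) (Z : Finset ℤ)
    (hK : ∀ h ∈ H1, ∀ y ∈ H2, h + y ≠ 0 → (S.filter fun p : ℕ => (p : ℤ) ∣ h + y).card ≤ K) :
    ∑ p ∈ S, ∑ x ∈ H1 ×ˢ H2, (if (p : ℤ) ∣ x.1 + x.2 ∧ x.1 + x.2 ≠ 0 ∧ x.1 + x.2 ∈ Z then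
      ϱ1 x.1 * ϱ2 x.2 else 0) ≤ K * Z.card * e1 := by
  have e0 : 0 ≤ e1 := (h1.pos 0).trans (h1.atom 0)
  rw [sum_comm, sum_product_right]
  calc _ ≤ ∑ y ∈ H2, ϱ2 y * (K * Z.card * e1) := sum_le_sum fun y hy => ?_
    _ ≤ 1 * (K * Z.card * e1) := by rw [← sum_mul]; gcongr; exact h2.tot
    _ = _ := one_mul _
  have r0 := h2.pos y
  calc _ ≤ ∑ h ∈ H1, (if h + y ∈ Z then K * (e1 * ϱ2 y) else 0) := sum_le_sum fun h hh => ?_
    _ = ((H1.filter (· + y ∈ Z)).card : ℝ) * (K * (e1 * ϱ2 y)) := by rw [← sum_filter]; simp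
    _ ≤ Z.card * (K * (e1 * ϱ2 y)) := by
        refine mul_le_mul_of_nonneg_right (Nat.cast_le.2 ?_) (by positivity)
        exact card_le_card_of_injOn (· + y) (fun h hh => (mem_filter.1 hh).2)
          (add_left_injective y).injOn
    _ = _ := by ring
  rw [← sum_filter]
  refine (sum_le_card_nsmul _ _ (e1 * ϱ2 y) fun p _ =>
    mul_le_mul_of_nonneg_right (h1.atom h) r0).trans ?_
  rw [nsmul_eq_mul]
  by_cases h0 : h + y = 0
  · simp only [h0, ne_eq, not_true, false_and, and_false, filter_false, card_empty, Nat.cast_zero,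
      zero_mul]
    positivity
  split_ifs with hz
  · gcongr
    exact le_trans (card_le_card fun p hp => mem_filter.2 ⟨(mem_filter.1 hp).1,
      (mem_filter.1 hp).2.1⟩) (hK h hh y hy h0)
  · simp [hz]

/-- the power of two in an integer, cut at `i` -/
lemma two (A : ℤ) (i : ℕ) : ∃ (k i1 : ℕ) (A1 : ℤ), i = k + i1 ∧ A = 2 ^ k * A1 ∧
    (i1 = 0 ∨ Odd A1) := by
  induction i with
  | zero => exact ⟨0, 0, A, rfl, by simp, .inl rfl⟩
  | succ i ih =>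
    obtain ⟨k, i1, A1, e, hA, h⟩ := ih
    rcases Int.even_or_odd A1 with ⟨B, hB⟩ | ho
    · rcases h with h | h
      · exact ⟨k + 1, i1, B, by omega, by rw [hA, hB]; ring, .inl h⟩
      · exact absurd ⟨B, hB⟩ (Int.not_even_iff_odd.2 h)
    · exact ⟨k, i1 + 1, A1, by omega, hA, .inr ho⟩

/-- the degenerate case -/
lemma deg {P q k i1 : ℕ} {A1 t m : ℤ} {α : ℝ} (hP : 2 ≤ P) (hq : 1 ≤ q) (ho : i1 = 0 ∨ Odd A1)
    (hs : 1 / (P : ℝ) ^ 3 < |2 ^ i1 * α - A1 / q|) (ht : |t * α - m| ≤ 1)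
    (hw : q * 2 ^ (k + i1) * m = 2 ^ k * A1 * t) :
    ∃ t1 : ℤ, t = 2 ^ i1 * t1 ∧ |t1| ≤ (P : ℤ) ^ 3 := by
  have w1 : 2 ^ i1 * (q * m) = A1 * t :=
    mul_left_cancel₀ (pow_ne_zero k (two_ne_zero (α := ℤ))) (by rw [pow_add] at hw; linarith)
  obtain ⟨t1, rfl⟩ : (2 : ℤ) ^ i1 ∣ t := by
    rcases ho with rfl | ho
    · simp
    · exact (Int.isCoprime_two_left.2 ho).pow_left.dvd_of_dvd_mul_left ⟨_, w1.symm⟩
  refine ⟨t1, rfl, ?_⟩
  have w2 : q * m = A1 * t1 :=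
    mul_left_cancel₀ (pow_ne_zero i1 (two_ne_zero (α := ℤ))) (by linarith)
  have w3 : (q : ℝ) * m = A1 * t1 := by exact_mod_cast w2
  have q0 : (0 : ℝ) < q := by exact_mod_cast hq
  have p0 : (0 : ℝ) < (P : ℝ) ^ 3 := by positivity
  have e : ((2 ^ i1 * t1 : ℤ) : ℝ) * α - m = t1 * (2 ^ i1 * α - A1 / q) := by
    push_cast
    field_simp
    linarith
  rw [e, abs_mul] at ht
  have : |(t1 : ℝ)| * (1 / (P : ℝ) ^ 3) ≤ 1 := le_trans (by gcongr) ht
  rw [mul_one_div, div_le_one p0] at this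
  exact_mod_cast this

end MSIx

open MSIx in
theorem p_MSI (hPD : S_PD) :
    S_MSI := by
  intro P K g i Y q Q0 A Δ δ α e1 e2 H1 H2 ϱ1 ϱ2 hP d1 dP h1 h2 hK hV hy Y1 YP q1 qQ hA hδ hs
  obtain ⟨k, i1, A1, ei, eA, ho⟩ := two A i
  have P0 : (0 : ℝ) < P := by exact_mod_cast (by omega : 0 < P)
  have δ0 : 0 ≤ δ := (abs_nonneg _).trans hA
  have Y1' : (1 : ℝ) ≤ Y := by exact_mod_cast Y1
  have δ1 : δ ≤ 1 := by nlinarith
  obtain ⟨R, hR⟩ : ∃ R : ℝ, R = 1 + 2 * Q0 * Δ := ⟨_, rfl⟩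
  have R0 : 0 ≤ R := by rw [hR]; positivity
  let N : ℤ → Finset ℤ := fun h =>
    (Icc ⌈h * q * α - R⌉ ⌊h * q * α + R⌋).filter fun ν => -A * h + 2 ^ i * ν ≠ 0
  let T : ℤ → Finset ℕ := fun h =>
    (N h).biUnion fun ν => (Pn P).filter fun p : ℕ => (p : ℤ) ∣ -A * h + 2 ^ i * ν
  let Z : Finset ℤ := (Icc (-(2 * (P : ℤ) ^ 4)) (2 * (P : ℤ) ^ 4)).image (2 ^ i1 * ·)
  have hN : ∀ h ν : ℤ, ν ∈ N h ↔ |ν - h * q * α| ≤ R ∧ -A * h + 2 ^ i * ν ≠ 0 := fun h ν => by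
    rw [mem_filter, mem_Icc, Int.ceil_le, Int.le_floor, abs_le]
    exact and_congr_left' ⟨fun a => ⟨by linarith [a.1], by linarith [a.2]⟩,
      fun a => ⟨by linarith [a.1], by linarith [a.2]⟩⟩
  have hT : ∀ h ∈ H1, ((T h).card : ℝ) ≤ (4 * Q0 * Δ + 3) * K := fun h hh => by
    have c1 : (T h).card ≤ (N h).card * K := card_biUnion_le_card_mul _ _ _ fun ν hν => by
      obtain ⟨a, b⟩ := (hN h ν).1 hν
      refine hPD P K _ hP b ?_
      have : |((-A * h + 2 ^ i * ν : ℤ) : ℝ)| ≤ (P : ℝ) ^ K :=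
        calc _ = |h * (q * (2 ^ i * α) - A) + 2 ^ i * (ν - h * q * α)| := by
              push_cast; congr 1; ring
          _ ≤ |(h : ℝ)| * 1 + 2 ^ i * R := by
              refine (abs_add_le _ _).trans ?_
              rw [abs_mul, abs_mul, abs_of_pos (by positivity : (0 : ℝ) < 2 ^ i)]
              gcongr
              exact hA.trans δ1
          _ ≤ _ := by rw [mul_one, hR, ← Int.cast_abs]; exact hV h hh
      exact_mod_cast this
    have c2 : ((N h).card : ℝ) ≤ 4 * Q0 * Δ + 3 := by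
      refine le_trans (Nat.cast_le.2 (card_filter_le _ _)) ?_
      rw [Int.card_Icc]
      have a1 := Int.le_ceil (h * q * α - R)
      have a2 := Int.floor_le (h * q * α + R)
      rcases le_total (⌊h * q * α + R⌋ + 1 - ⌈h * q * α - R⌉) 0 with a | a
      · rw [Int.toNat_of_nonpos a, Nat.cast_zero]; positivity
      · rw [← Int.cast_natCast, Int.toNat_of_nonneg a]; push_cast; linarith
    exact le_trans (by exact_mod_cast c1) (mul_le_mul_of_nonneg_right c2 (Nat.cast_nonneg K))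
  have hZ : (Z.card : ℝ) ≤ 4 * (P : ℝ) ^ 4 + 1 := by
    refine le_trans (Nat.cast_le.2 card_image_le) ?_
    have : (0 : ℤ) ≤ (P : ℤ) ^ 4 := by positivity
    rw [Int.card_Icc, ← Int.cast_natCast, Int.toNat_of_nonneg (by linarith)]
    push_cast
    linarith
  have a1 := s1 (S := Pn P) h1 h2 T (by positivity) hT fun p hp h y hy1 y' hy2 b1 b2 => by
    obtain ⟨z, rfl, z1⟩ := hy y hy1
    obtain ⟨z', rfl, z2⟩ := hy y' hy2
    rw [Pn, mem_filter, mem_Ioc] at hp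
    have c : (p : ℤ) ∣ 2 ^ i * (z - z') := by
      have := dvd_sub b1 b2
      rwa [add_sub_add_left_eq_sub, ← mul_sub] at this
    have o : Odd (p : ℤ) := by exact_mod_cast hp.2.odd_of_ne_two (by omega)
    have := Int.eq_zero_of_abs_lt_dvd
      ((Int.isCoprime_two_right.2 o).pow_right.dvd_of_dvd_mul_left c)
      (by have := abs_sub z z'; omega)
    rw [sub_eq_zero.1 this]
  have a2 := s2 (S := Pn P) h1 h2 Z fun h hh y hy1 h0 => hPD P K _ hP h0 (hK h hh y hy1)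
  have e0 : 0 ≤ e1 := (h1.pos 0).trans (h1.atom 0)
  refine le_trans ?_ (add_le_add a1 (a2.trans (by gcongr)))
  rw [core, ← sum_add_distrib]
  refine sum_le_sum fun p hp => ?_
  rw [sum_filter, ← sum_add_distrib]
  refine sum_le_sum fun x hx => ?_
  obtain ⟨h, y⟩ := x
  have w0 := mul_nonneg (h1.pos h) (h2.pos y)
  by_cases hE : Ev P p g Δ α (h + y)
  swap
  · rw [if_neg hE]; positivity
  rw [if_pos hE]
  obtain ⟨⟨t, ht⟩, H0, b, -⟩ := hE
  obtain ⟨z, rfl, z1⟩ := hy y (mem_product.1 hx).2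
  have hp' := hp
  rw [Pn, mem_filter, mem_Ioc] at hp'
  rw [ht, Int.mul_ediv_cancel_left _ (by omega), nn] at b
  generalize round ((t : ℝ) * α) = m at b
  by_cases hw : q * 2 ^ i * m = A * t
  · obtain ⟨t1, e, l⟩ := deg hP q1 ho (hs i1 (by omega) A1) (b.trans ((div_le_one P0).2 dP))
      (by rw [← ei, ← eA]; exact hw)
    rw [if_pos (c := _ ∧ _ ∧ _) ⟨⟨t, ht⟩, H0, mem_image.2 ⟨p * t1, ?_, by rw [ht, e]; ring⟩⟩]
    · exact le_add_of_nonneg_left (by positivity)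
    · rw [mem_Icc, ← abs_le, abs_mul, abs_of_nonneg (Int.natCast_nonneg p)]
      calc _ ≤ (2 * P : ℤ) * (P : ℤ) ^ 3 := by gcongr; omega
        _ = _ := by ring
  · have e : -A * h + 2 ^ i * (q * p * m - A * z) = p * (q * 2 ^ i * m - A * t) := by
      linear_combination (-A) * ht
    rw [if_pos (c := _ ∧ _ ∈ _) ⟨⟨t, ht⟩, mem_biUnion.2 ⟨q * p * m - A * z, (hN _ _).2 ⟨?_, ?_⟩,
      mem_filter.2 ⟨hp, _, e⟩⟩⟩]
    · exact le_add_of_nonneg_right (by positivity)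
    · have ht' : (h : ℝ) + 2 ^ i * z = p * t := by exact_mod_cast ht
      have z2 : |(z : ℝ)| ≤ Y := by
        have : |z| ≤ Y := by have := abs_nonneg z; omega
        exact_mod_cast this
      have p2 : (p : ℝ) ≤ 2 * P := by exact_mod_cast hp'.1.2
      calc _ = |z * (q * (2 ^ i * α) - A) - q * p * (t * α - m)| := by
            push_cast; congr 1; linear_combination (-q * α) * ht'
        _ ≤ Y * δ + Q0 * (2 * P) * (Δ / P) := by
            refine (abs_sub _ _).trans ?_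
            rw [abs_mul, abs_mul, abs_of_nonneg (by positivity : (0 : ℝ) ≤ q * p)]
            gcongr
        _ ≤ R := by rw [hR]; field_simp; nlinarith
    · rw [e]
      exact mul_ne_zero (by omega) (sub_ne_zero.2 hw)

end Pool.Agent.P.MP_42fc1a_nt.EK
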