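import Pool.Agent.P.MP_42fc1a_nt.EK.IfaceB

/-! Step MSUM. -/

namespace Pool.Agent.P.MP_42fc1a_nt.EK

open Finset Real Filter Topology MeasureTheory
open Pool.Agent.P.MP_e86632_nt (ee nn ee_add norm_ee ee_neg ee_zero)
open Pool.Agent.P.MP_8be758_nt.Avg (gs red ft nsq gs_pos gs_le_one gs_neg gs_anti)
open Pool.Agent.P.MP_e94e4b_nt.PF (sgm)
open Pool.Agent.P.E2
open ArithmeticFunction (vonMangoldt moebius)
open DirichletCharacter (LFunction)
open scoped Classical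

namespace MSUMx

lemma sqf {q : ℕ} (h : Squarefree q) :
    mf q ^ 2 * q = ∏ l ∈ q.primeFactors, (l : ℝ) / ((l : ℝ) - 1) ^ 2 := by
  have h1 := Nat.prod_primeFactors_of_squarefree h
  have h2 := Nat.totient_mul_prod_primeFactors q
  rw [h1, mul_comm] at h2
  have h3 : q.totient = ∏ p ∈ q.primeFactors, (p - 1) :=
    Nat.eq_of_mul_eq_mul_left (Nat.pos_of_ne_zero h.ne_zero) h2
  have h4 : (q.totient : ℝ) = ∏ p ∈ q.primeFactors, ((p : ℝ) - 1) := by
    rw [h3, Nat.cast_prod]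
    exact prod_congr rfl fun p hp => by
      rw [Nat.cast_sub (Nat.prime_of_mem_primeFactors hp).one_le, Nat.cast_one]
  have h5 : ((moebius q : ℤ) : ℝ) ^ 2 = 1 := by
    exact_mod_cast ArithmeticFunction.moebius_sq_eq_one_of_squarefree h
  rw [mf, div_pow, h5, prod_div_distrib, prod_pow, ← h4, ← Nat.cast_prod, h1]
  ring

lemma tm {x : ℝ} (h : 2 ≤ x) : x / (x - 1) ^ 2 ≤ 1 / x + 8 * (1 / x ^ 2) := by
  have h1 : 0 < x - 1 := by linarith
  have h2 : 0 < x := by linarith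
  rw [mul_one_div, div_add_div _ _ h2.ne' (by positivity), div_le_div_iff₀ (by positivity)
    (by positivity)]
  obtain ⟨y, rfl⟩ : ∃ y, x = y + 2 := ⟨x - 2, by ring⟩
  have : 0 ≤ y := by linarith
  ring_nf
  nlinarith [pow_nonneg this 2, pow_nonneg this 3]

end MSUMx

open MSUMx in
theorem p_MSUM (hEUL : S_EUL) (hMER : S_MER) :
    S_MSUM := by
  have sm : Summable fun n : ℕ => 1 / (n : ℝ) ^ 2 := Real.summable_one_div_nat_pow.2 one_lt_two
  refine ⟨300 * Real.exp (8 * ∑' n : ℕ, 1 / (n : ℝ) ^ 2), by positivity, fun t D ht hD => ?_⟩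
  have hT : ∀ l ∈ D.biUnion Nat.primeFactors, l.Prime ∧ (l : ℝ) ≤ Real.exp t := fun l hl => by
    obtain ⟨q, hq, k⟩ := mem_biUnion.1 hl
    refine ⟨Nat.prime_of_mem_primeFactors k, le_trans ?_ (hD q hq).2⟩
    exact_mod_cast Nat.le_of_mem_primeFactors k
  have k1 := (hEUL (D.biUnion Nat.primeFactors) (D.filter Squarefree)
    (fun l => (l : ℝ) / ((l : ℝ) - 1) ^ 2) (fun l => by positivity) fun q hq =>
      ⟨(mem_filter.1 hq).2, subset_biUnion_of_mem _ (mem_filter.1 hq).1⟩).1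
  have k2 := hMER t _ ht hT
  have k3 : ∑ q ∈ D, mf q ^ 2 * q =
      ∑ q ∈ D.filter Squarefree, ∏ l ∈ q.primeFactors, (l : ℝ) / ((l : ℝ) - 1) ^ 2 := by
    rw [sum_filter]
    refine sum_congr rfl fun q _ => ?_
    split_ifs with h
    · exact sqf h
    · simp [mf, ArithmeticFunction.moebius_eq_zero_of_not_squarefree h]
  have k4 : ∑ l ∈ D.biUnion Nat.primeFactors, (l : ℝ) / ((l : ℝ) - 1) ^ 2 ≤
      ∑ l ∈ D.biUnion Nat.primeFactors, 1 / (l : ℝ) + 8 * ∑' n : ℕ, 1 / (n : ℝ) ^ 2 := by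
    refine (sum_le_sum fun l hl => tm (by exact_mod_cast (hT l hl).1.two_le)).trans ?_
    rw [sum_add_distrib, ← mul_sum]
    gcongr
    exact sm.sum_le_tsum _ fun _ _ => by positivity
  rw [k3]
  refine k1.trans ((Real.exp_le_exp.2 k4).trans ?_)
  rw [Real.exp_add, mul_right_comm]
  gcongr

end Pool.Agent.P.MP_42fc1a_nt.EK
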