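import Pool.Agent.P.MP_42fc1a_nt.EK.IfaceC

/-! Step MVQ. -/

namespace Pool.Agent.P.MP_42fc1a_nt.EK

open Finset Real Filter Topology MeasureTheory
open Pool.Agent.P.MP_e86632_nt (ee nn ee_add norm_ee ee_neg ee_zero)
open Pool.Agent.P.MP_8be758_nt.Avg (gs red ft nsq gs_pos gs_le_one gs_neg gs_anti)
open Pool.Agent.P.MP_e94e4b_nt.PF (sgm)
open Pool.Agent.P.E2
open ArithmeticFunction (vonMangoldt moebius)
open DirichletCharacter (LFunction)
open scoped Classical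

namespace MVQx

theorem gap {q i j : ℕ} {X : ℝ} (hj : 1 ≤ j) (hi : (i : ℝ) ≤ X) (h : j + q ≤ i) :
    (q : ℝ) / X ≤ Real.log i - Real.log j := by
  have j0 : (0 : ℝ) < j := by exact_mod_cast hj
  have i0 : (0 : ℝ) < i := by exact_mod_cast (by omega : 0 < i)
  have h1 : (j : ℝ) + q ≤ i := by exact_mod_cast h
  have h2 := Real.log_le_sub_one_of_pos (div_pos j0 i0)
  rw [Real.log_div j0.ne' i0.ne'] at h2
  have h3 : (q : ℝ) / X ≤ q / i := div_le_div_of_nonneg_left (Nat.cast_nonneg q) i0 hi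
  have h4 : (q : ℝ) / i ≤ 1 - j / i := by
    rw [le_sub_iff_add_le, ← add_div, div_le_one i0]
    linarith
  linarith

theorem spc {q c i j : ℕ} {X : ℝ} (hi : 1 ≤ i ∧ (i : ℝ) ≤ X) (hj : 1 ≤ j ∧ (j : ℝ) ≤ X)
    (ci : i ≡ c [MOD q]) (cj : j ≡ c [MOD q]) (h : i ≠ j) :
    (q : ℝ) / X ≤ |Real.log i - Real.log j| := by
  rcases lt_or_gt_of_ne h with h1 | h1
  · have h2 := Nat.le_of_dvd (by omega) ((Nat.modEq_iff_dvd' h1.le).1 (ci.trans cj.symm))
    rw [abs_sub_comm]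
    exact (gap hi.1 hj.2 (by omega)).trans (le_abs_self _)
  · have h2 := Nat.le_of_dvd (by omega) ((Nat.modEq_iff_dvd' h1.le).1 (cj.trans ci.symm))
    exact (gap hj.1 hi.2 (by omega)).trans (le_abs_self _)

theorem cs (S : Finset ℕ) (a : ℕ → ℂ) {g : ℕ → ℝ} (hg : ∀ m, 0 ≤ g m) :
    ‖∑ m ∈ S, a m * (g m : ℂ)‖ ^ 2 ≤ (∑ m ∈ S, g m) * ∑ m ∈ S, ‖a m‖ ^ 2 * g m := by
  have h1 : ‖∑ m ∈ S, a m * (g m : ℂ)‖ ≤ ∑ m ∈ S, ‖a m‖ * g m :=
    norm_sum_le_of_le _ fun m _ => by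
      rw [norm_mul, Complex.norm_real, Real.norm_eq_abs, abs_of_nonneg (hg m)]
  refine (pow_le_pow_left₀ (norm_nonneg _) h1 2).trans ?_
  exact sum_sq_le_sum_mul_sum_of_sq_le_mul S (fun m _ => hg m)
    (fun m _ => mul_nonneg (by positivity) (hg m)) fun m _ => le_of_eq (by ring)

theorem fib (I : Finset ℕ) {q : ℕ} (hq : 0 < q) {g : ℕ → ℝ} (hg : ∀ m, 0 ≤ g m) :
    ∑ c ∈ red q, ∑ m ∈ I.filter (fun m => m ≡ c [MOD q]), g m ≤ ∑ m ∈ I, g m := by
  rw [← sum_fiberwise_of_maps_to (s := I) (t := range q) (g := fun m => m % q)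
    fun m _ => mem_range.2 (Nat.mod_lt m hq)]
  refine le_trans (sum_le_sum_of_subset_of_nonneg (filter_subset _ _)
    fun c _ _ => sum_nonneg fun m _ => hg m) (sum_le_sum fun c hc => le_of_eq ?_)
  refine sum_congr (filter_congr fun m _ => ?_) fun _ _ => rfl
  rw [Nat.ModEq, Nat.mod_eq_of_lt (mem_range.1 hc)]

end MVQx

theorem p_MVQ (hPL : S_PL) (hPSV : S_PSV) (hSPC : S_SPC) :
    S_MVQ := by
  refine ⟨24, by norm_num, fun Z X I a q _ hZ hX hI => ?_⟩
  have q0 : 0 < q := Nat.pos_of_ne_zero (NeZero.ne q)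
  have q1 : (0 : ℝ) < q := by exact_mod_cast q0
  have s0 : (0 : ℝ) < √2 := by positivity
  have s1 : (√2 : ℝ) ^ 2 = 2 := Real.sq_sqrt (by norm_num)
  have s2 : (√2 : ℝ) ≤ 3 / 2 := by nlinarith
  set w : ℝ := 1 / (√2 * Z) with hw
  have w0 : 0 < w := by positivity
  have h1 : ∀ t, gs (w * t) ^ 2 = gs (t / Z) := by
    intro t
    rw [gs, gs, ← Real.exp_nat_mul, hw]
    congr 1
    field_simp
    rw [s1]
    norm_num
  have h2 : ∀ χ : DirichletCharacter ℂ q,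
      ∫ t : ℝ, gs (t / Z) * ‖dq I (fun n => a n * ch χ n) t‖ ^ 2 =
      ∫ v : ℝ, ‖∑ j ∈ I, a j * ch χ j * (gk w (Real.log j - v) : ℂ)‖ ^ 2 := by
    intro χ
    have h := hPL I (fun n => a n * ch χ n) (fun n => Real.log n) w w 0 w0 w0
    simp only [zero_mul, sub_zero, h1] at h
    rw [h]
    exact integral_congr_ae (ae_of_all _ fun t => mul_comm _ _)
  obtain ⟨-, -, p3, p4⟩ := hPSV q
  have K0 : 0 ≤ 16 / w + 16 / (q / X) := by positivity
  have h3 : ∀ v : ℝ, ∑ χ : DirichletCharacter ℂ q,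
      ‖∑ j ∈ I, a j * ch χ j * (gk w (Real.log j - v) : ℂ)‖ ^ 2 ≤
      24 * (q * Z + X) * ∑ j ∈ I, ‖a j‖ ^ 2 * gk w (Real.log j - v) := by
    intro v
    have e1 : ∀ χ : DirichletCharacter ℂ q,
        ∑ j ∈ I, a j * ch χ j * (gk w (Real.log j - v) : ℂ) = ∑ c ∈ red q,
          (∑ m ∈ I.filter (fun m => m ≡ c [MOD q]), a m * (gk w (Real.log m - v) : ℂ)) *
            ch χ c := by
      intro χ
      rw [← p4 I (fun m => a m * (gk w (Real.log m - v) : ℂ)) χ]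
      exact sum_congr rfl fun j _ => mul_right_comm _ _ _
    simp only [e1]
    rw [p3]
    have e2 : ∑ c ∈ red q, ‖∑ m ∈ I.filter (fun m => m ≡ c [MOD q]),
        a m * (gk w (Real.log m - v) : ℂ)‖ ^ 2 ≤
        (16 / w + 16 / (q / X)) * ∑ j ∈ I, ‖a j‖ ^ 2 * gk w (Real.log j - v) := by
      refine le_trans ?_ (mul_le_mul_of_nonneg_left (MVQx.fib I q0
        (g := fun j => ‖a j‖ ^ 2 * gk w (Real.log j - v))
        fun m => mul_nonneg (by positivity) (gk_nonneg w0 _)) K0)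
      rw [mul_sum]
      refine sum_le_sum fun c _ => (MVQx.cs _ a fun m => gk_nonneg w0 _).trans ?_
      refine mul_le_mul_of_nonneg_right ?_
        (sum_nonneg fun m _ => mul_nonneg (by positivity) (gk_nonneg w0 _))
      exact hSPC _ (fun n => Real.log n) w v (q / X) w0 (by positivity) fun i hi j hj hij =>
        MVQx.spc (hI i (mem_filter.1 hi).1) (hI j (mem_filter.1 hj).1) (mem_filter.1 hi).2
          (mem_filter.1 hj).2 hij
    have e3 : (q.totient : ℝ) ≤ q := by exact_mod_cast Nat.totient_le q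
    have e4 : (q : ℝ) * (16 / w + 16 / (q / X)) ≤ 24 * (q * Z + X) := by
      have b1 : (q : ℝ) * (16 / w + 16 / (q / X)) = 16 * √2 * (q * Z) + 16 * X := by
        rw [hw]
        field_simp
      have b2 : 0 < (q : ℝ) * Z := by positivity
      rw [b1]
      nlinarith
    have e5 : 0 ≤ ∑ j ∈ I, ‖a j‖ ^ 2 * gk w (Real.log j - v) :=
      sum_nonneg fun m _ => mul_nonneg (by positivity) (gk_nonneg w0 _)
    calc _ ≤ (q : ℝ) * ((16 / w + 16 / (q / X)) *
          ∑ j ∈ I, ‖a j‖ ^ 2 * gk w (Real.log j - v)) :=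
          mul_le_mul e3 e2 (sum_nonneg fun _ _ => by positivity) q1.le
      _ ≤ _ := by rw [← mul_assoc]; exact mul_le_mul_of_nonneg_right e4 e5
  have i1 : ∀ j ∈ I, Integrable fun v : ℝ => ‖a j‖ ^ 2 * gk w (Real.log j - v) :=
    fun j _ => (gk_integrable' w0 _).const_mul _
  have i2 : ∀ χ ∈ (univ : Finset (DirichletCharacter ℂ q)), Integrable fun v : ℝ =>
      ‖∑ j ∈ I, a j * ch χ j * (gk w (Real.log j - v) : ℂ)‖ ^ 2 :=
    fun χ _ => int_gk_sq I (fun n => a n * ch χ n) (fun n => Real.log n) w0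
  simp only [h2]
  rw [← integral_finsetSum _ i2]
  refine (integral_mono (integrable_finsetSum _ i2) ((integrable_finsetSum _ i1).const_mul _)
    h3).trans (le_of_eq ?_)
  rw [integral_const_mul, integral_finsetSum _ i1, nsq]
  congr 1
  refine sum_congr rfl fun j _ => ?_
  rw [integral_const_mul, gk_integral' w0, mul_one]

end Pool.Agent.P.MP_42fc1a_nt.EK
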