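import Pool.Agent.P.MP_42fc1a_nt.EK.IfaceE

/-! Step NUM. -/

namespace Pool.Agent.P.MP_42fc1a_nt.EK

open Finset Real Filter Topology MeasureTheory
open Pool.Agent.P.MP_e86632_nt (ee nn ee_add norm_ee ee_neg ee_zero)
open Pool.Agent.P.MP_8be758_nt.Avg (gs red ft nsq gs_pos gs_le_one gs_neg gs_anti)
open Pool.Agent.P.MP_e94e4b_nt.PF (sgm)
open Pool.Agent.P.E2
open ArithmeticFunction (vonMangoldt moebius)
open DirichletCharacter (LFunction)
open scoped Classical

namespace NUMx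

theorem ex {r : ℝ} (hr : 2 ≤ r) : Real.exp r ≤ √(XX r) / r ^ 2 := by
  have h1 : r ≤ Real.exp r := by linarith [add_one_le_exp r]
  have h2 : (6 : ℝ) ≤ r ^ 12 := le_trans (by norm_num) (pow_le_pow_left₀ (by norm_num) hr 12)
  rw [le_div_iff₀ (by positivity)]
  refine le_sqrt_of_sq_le ?_
  calc (Real.exp r * r ^ 2) ^ 2 ≤ (Real.exp r * Real.exp r ^ 2) ^ 2 := by gcongr
    _ = Real.exp ((6 : ℕ) * r) := by rw [exp_nat_mul]; ring
    _ ≤ XX r := by
      refine exp_le_exp.2 ?_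
      rw [pow_succ]
      push_cast
      gcongr

end NUMx

theorem p_NUM :
    S_NUM := by
  intro ε C W hε hC hW
  have ha : 0 < √(ε / W) := by positivity
  have hc : 0 < √C := by positivity
  refine ⟨min 1 (√(ε / W) / (10 * √C)), by positivity, min_le_left _ _, ?_⟩
  filter_upwards [eventually_ge_atTop 2, eventually_ge_atTop (48 / √(ε / W))] with r hr hr' N ρ hN hρ
  have hX : 0 < XX r := Real.exp_pos _
  have hN0 : 0 < N := lt_trans (by positivity) hN
  have hρ0 : 0 < ρ := lt_of_lt_of_le (by positivity) hρ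
  have hl : min 1 (√(ε / W) / (10 * √C)) * √C ≤ √(ε / W) / 10 :=
    (mul_le_mul_of_nonneg_right (min_le_right _ _) hc.le).trans_eq (by field_simp)
  have e1 : √(XX r / r ^ 4) = √(XX r) / r ^ 2 := by
    rw [sqrt_div hX.le, show r ^ 4 = (r ^ 2) ^ 2 by ring, sqrt_sq (by positivity)]
  have e2 : √(C * ρ ^ 2 * XX r) = √C * ρ * √(XX r) := by
    rw [sqrt_mul (by positivity), sqrt_mul hC.le, sqrt_sq hρ0.le]
  have h1 : √(ε / W) * √(XX r) < √N := by
    rw [← sqrt_mul (by positivity)]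
    exact sqrt_lt_sqrt (by positivity) (by rwa [div_mul_eq_mul_div])
  have h2 : √(3 * (ε / 100) * N * XX r / W) ≤ N / 5 := by
    refine sqrt_le_iff.2 ⟨by positivity, ?_⟩
    have : 3 * (ε / 100) * N * XX r / W = 3 / 100 * N * (ε * XX r / W) := by ring
    rw [this]
    nlinarith
  have h3 := NUMx.ex hr
  have hs : 0 < √(XX r) := by positivity
  have hn : 0 < √N := by positivity
  have h4 : 3 * (√(XX r) / r ^ 2) ≤ ρ * (√(ε / W) * √(XX r)) / 2 := by
    rw [div_le_iff₀ ha] at hr'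
    rw [div_le_iff₀ (by positivity)] at hρ
    rw [← mul_div_assoc, div_le_iff₀ (by positivity)]
    calc 3 * √(XX r) = 1 * 48 * √(XX r) / 16 := by ring
      _ ≤ ρ * (8 * r) * (r * √(ε / W)) * √(XX r) / 16 := by gcongr
      _ = _ := by ring
  have h5 : min 1 (√(ε / W) / (10 * √C)) * (√C * ρ * √(XX r)) ≤
      ρ * (√(ε / W) * √(XX r)) / 10 :=
    calc _ = min 1 (√(ε / W) / (10 * √C)) * √C * (ρ * √(XX r)) := by ring
      _ ≤ √(ε / W) / 10 * (ρ * √(XX r)) := by gcongr
      _ = _ := by ring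
  have h6 := mul_lt_mul_of_pos_left h1 hρ0
  refine ⟨by linarith, ?_⟩
  rw [sqrt_mul hN0.le (XX r / r ^ 4), e1, e2, ← mul_add]
  calc _ < √N * (ρ * √N * (7 / 10)) := by
        refine mul_lt_mul_of_pos_left ?_ hn
        linarith [mul_pos hρ0 hn]
    _ = ρ * (7 / 10 * (√N * √N)) := by ring
    _ ≤ _ := by
        rw [mul_self_sqrt hN0.le]
        exact mul_le_mul_of_nonneg_left (by linarith) hρ0.le

end Pool.Agent.P.MP_42fc1a_nt.EK
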