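import Pool.Agent.P.MP_42fc1a_nt.EK.IfaceB

/-! Step OFF. -/

namespace Pool.Agent.P.MP_42fc1a_nt.EK

open Finset Real Filter Topology MeasureTheory
open Pool.Agent.P.MP_e86632_nt (ee nn ee_add norm_ee ee_neg ee_zero)
open Pool.Agent.P.MP_8be758_nt.Avg (gs red ft nsq gs_pos gs_le_one gs_neg gs_anti)
open Pool.Agent.P.MP_e94e4b_nt.PF (sgm)
open Pool.Agent.P.E2
open ArithmeticFunction (vonMangoldt moebius)
open DirichletCharacter (LFunction)
open scoped Classical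

namespace OFFx

theorem expand {ι : Type} (A : Finset ℕ) (I : Finset ι) (θ : ι → ℝ) (c : ι → ℂ) (N B : ℝ)
    (hN : (A.card : ℝ) ≤ N) (hB0 : 0 ≤ B)
    (hB : ∀ i ∈ I, ∀ j ∈ I, i ≠ j → ‖∑ n ∈ A, ee (n * (θ i - θ j))‖ ≤ B) :
    ∑ n ∈ A, ‖∑ i ∈ I, c i * ee (n * θ i)‖ ^ 2 ≤
      N * ∑ i ∈ I, ‖c i‖ ^ 2 + B * (∑ i ∈ I, ‖c i‖) ^ 2 := by
  have h1 : ((∑ n ∈ A, ‖∑ i ∈ I, c i * ee (n * θ i)‖ ^ 2 : ℝ) : ℂ) =
      ∑ i ∈ I, ∑ j ∈ I, c i * (starRingEnd ℂ) (c j) * ∑ n ∈ A, ee (n * (θ i - θ j)) := by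
    simp only [mul_sum]
    rw [Complex.ofReal_sum]
    conv_rhs => enter [2, i]; rw [sum_comm]
    rw [sum_comm]
    refine sum_congr rfl fun n _ => ?_
    rw [Complex.ofReal_pow, ← Complex.mul_conj', map_sum, sum_mul_sum]
    refine sum_congr rfl fun i _ => sum_congr rfl fun j _ => ?_
    rw [map_mul, ← ee_neg, mul_sub, sub_eq_add_neg, ee_add]
    ring
  have h0 : 0 ≤ ∑ n ∈ A, ‖∑ i ∈ I, c i * ee (n * θ i)‖ ^ 2 := by positivity
  have h2 := congrArg norm h1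
  rw [Complex.norm_real, Real.norm_eq_abs, abs_of_nonneg h0] at h2
  rw [h2, pow_two (∑ i ∈ I, ‖c i‖), sum_mul_sum, mul_sum, mul_sum, ← sum_add_distrib]
  refine (norm_sum_le _ _).trans (sum_le_sum fun i hi => ?_)
  refine (norm_sum_le _ _).trans ?_
  have h3 : N * ‖c i‖ ^ 2 = ∑ j ∈ I, if i = j then N * (‖c i‖ * ‖c j‖) else 0 := by
    rw [sum_ite_eq, if_pos hi, pow_two]
  rw [h3, mul_sum, ← sum_add_distrib]
  refine sum_le_sum fun j hj => ?_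
  rw [norm_mul, norm_mul, Complex.norm_conj]
  have h4 : 0 ≤ ‖c i‖ * ‖c j‖ := by positivity
  split_ifs with h
  · have h5 : ‖∑ n ∈ A, ee (n * (θ i - θ j))‖ ≤ N := by
      refine (norm_sum_le _ _).trans ?_
      simp only [norm_ee, sum_const, nsmul_eq_mul, mul_one]
      exact hN
    nlinarith [mul_le_mul_of_nonneg_left h5 h4, mul_nonneg hB0 h4]
  · nlinarith [mul_le_mul_of_nonneg_left (hB i hi j hj h) h4]

theorem param {E : Type} [AddCommMonoid E] (W n0 x Y : ℕ) (hW : 1 ≤ W) (f : ℕ → E) :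
    ∑ n ∈ (Ioc x (x + Y)).filter (fun n => n ≡ n0 [MOD W]), f n =
      ∑ m ∈ Ioc ((x + W - n0 % W) / W) ((x + Y + W - n0 % W) / W), f (n0 % W + W * (m - 1)) := by
  have hr : n0 % W < W := Nat.mod_lt _ hW
  refine sum_nbij' (fun n => n / W + 1) (fun m => n0 % W + W * (m - 1)) ?_ ?_ ?_ ?_ ?_
  · intro n hn
    obtain ⟨h1, h2⟩ := mem_filter.1 hn
    obtain ⟨h3, h4⟩ := mem_Ioc.1 h1
    have h5 : n % W = n0 % W := h2
    have h6 := Nat.div_add_mod n W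
    rw [mem_Ioc, Nat.div_lt_iff_lt_mul hW, Nat.le_div_iff_mul_le hW, Nat.add_one_mul,
      mul_comm (n / W) W]
    omega
  · intro m hm
    rw [mem_Ioc, Nat.div_lt_iff_lt_mul hW, Nat.le_div_iff_mul_le hW] at hm
    obtain ⟨m, rfl⟩ : ∃ k, m = k + 1 := by
      refine ⟨m - 1, ?_⟩
      rcases m with _ | m
      · omega
      · rfl
    rw [Nat.add_one_mul, mul_comm m W] at hm
    rw [mem_filter, mem_Ioc, Nat.add_sub_cancel]
    refine ⟨by omega, ?_⟩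
    unfold Nat.ModEq
    rw [Nat.add_mul_mod_self_left, Nat.mod_mod]
  · intro n hn
    have h5 : n % W = n0 % W := (mem_filter.1 hn).2
    have h6 := Nat.div_add_mod n W
    simp only [Nat.add_sub_cancel]
    omega
  · intro m hm
    rw [mem_Ioc, Nat.div_lt_iff_lt_mul hW] at hm
    have h1 : 1 ≤ m := by
      rcases m with _ | m
      · omega
      · omega
    rw [Nat.add_mul_div_left _ _ hW, Nat.div_eq_of_lt hr]
    omega
  · intro n hn
    have h5 : n % W = n0 % W := (mem_filter.1 hn).2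
    have h6 := Nat.div_add_mod n W
    simp only [Nat.add_sub_cancel]
    congr 1
    omega

theorem card_le (W n0 x Y : ℕ) (hW : 1 ≤ W) :
    (((Ioc x (x + Y)).filter (fun n => n ≡ n0 [MOD W])).card : ℝ) ≤ (Y : ℝ) / W + 1 := by
  have h1 := param W n0 x Y hW (fun _ => (1 : ℕ))
  rw [sum_const, sum_const, smul_eq_mul, smul_eq_mul, mul_one, mul_one, Nat.card_Ioc] at h1
  rw [h1]
  have hr : n0 % W < W := Nat.mod_lt _ hW
  have e : x + Y + W - n0 % W = (x + W - n0 % W) + Y := by omega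
  have h3 : (x + Y + W - n0 % W) / W - (x + W - n0 % W) / W ≤ Y / W + 1 := by
    rw [e, Nat.add_div hW, Nat.sub_le_iff_le_add', add_assoc]
    refine Nat.add_le_add_left (Nat.add_le_add_left ?_ _) _
    split_ifs
    · exact le_rfl
    · exact Nat.zero_le _
  calc (((x + Y + W - n0 % W) / W - (x + W - n0 % W) / W : ℕ) : ℝ) ≤ ((Y / W + 1 : ℕ) : ℝ) := by
        exact_mod_cast h3
    _ ≤ _ := by
        push_cast
        linarith [Nat.cast_div_le (α := ℝ) (m := Y) (n := W)]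

theorem geo (W n0 x Y : ℕ) (hW : 1 ≤ W) (θ : ℝ) (h : 0 < nn (W * θ)) :
    ‖∑ n ∈ (Ioc x (x + Y)).filter (fun n => n ≡ n0 [MOD W]), ee (n * θ)‖ ≤
      1 / (2 * nn (W * θ)) := by
  rw [param W n0 x Y hW]
  have h1 : ∀ m ∈ Ioc ((x + W - n0 % W) / W) ((x + Y + W - n0 % W) / W),
      ee (((n0 % W + W * (m - 1) : ℕ) : ℝ) * θ) =
        ee ((((n0 % W : ℕ) : ℝ) - W) * θ) * ee (m * (W * θ)) := by
    intro m hm
    have h2 : 1 ≤ m := lt_of_le_of_lt (Nat.zero_le _) (mem_Ioc.1 hm).1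
    rw [← ee_add]
    congr 1
    rw [Nat.cast_add, Nat.cast_mul, Nat.cast_sub h2]
    push_cast
    ring
  rw [sum_congr rfl h1, ← mul_sum, norm_mul, norm_ee, one_mul]
  exact Pool.Agent.P.MP_e86632_nt.geom_bound h _ _

theorem nn_ge {u : ℤ} {q : ℕ} (hq : 0 < q) (h : ¬ (q : ℤ) ∣ u) :
    1 / (q : ℝ) ≤ nn ((u : ℝ) / q) := by
  have hq' : (0 : ℝ) < q := by exact_mod_cast hq
  unfold nn
  set k := round ((u : ℝ) / q)
  have h1 : u - k * q ≠ 0 := fun h0 => h ⟨k, by linarith⟩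
  have h2 : (1 : ℝ) ≤ |((u - k * q : ℤ) : ℝ)| := by
    rw [← Int.cast_abs]; exact_mod_cast Int.one_le_abs h1
  have h3 : (u : ℝ) / q - k = ((u - k * q : ℤ) : ℝ) / q := by
    push_cast; field_simp
  rw [h3, abs_div, abs_of_pos hq']
  exact div_le_div_of_nonneg_right h2 hq'.le

theorem sep {W q a s b : ℕ} (hq : q.Coprime W) (hs : s.Coprime W) (ha : a ∈ red q)
    (hb : b ∈ red s) (h : ((q * s : ℕ) : ℤ) ∣ W * (a * s - b * q)) : q = s ∧ a = b := by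
  obtain ⟨ha1, ha2⟩ := mem_filter.1 ha
  obtain ⟨hb1, hb2⟩ := mem_filter.1 hb
  rw [mem_range] at ha1 hb1
  have h1 : ((q * s : ℕ) : ℤ) ∣ (a * s - b * q : ℤ) :=
    (Nat.isCoprime_iff_coprime.2 (Nat.Coprime.mul_left hq hs)).dvd_of_dvd_mul_left h
  push_cast at h1
  have h2 : (q : ℤ) ∣ a * s := by
    have := (Dvd.intro _ rfl : (q : ℤ) ∣ q * s).trans h1
    simpa using this.add (Dvd.intro_left (b : ℤ) rfl)
  have h3 : (s : ℤ) ∣ b * q := by
    have := (Dvd.intro_left _ rfl : (s : ℤ) ∣ q * s).trans h1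
    simpa using (Dvd.intro_left (a : ℤ) rfl : (s : ℤ) ∣ a * s).sub this
  have h4 : q ∣ s := ha2.symm.dvd_of_dvd_mul_left (by exact_mod_cast h2)
  have h5 : s ∣ q := hb2.symm.dvd_of_dvd_mul_left (by exact_mod_cast h3)
  have h6 : q = s := Nat.dvd_antisymm h4 h5
  subst h6
  refine ⟨rfl, ?_⟩
  have hq0 : (q : ℤ) ≠ 0 := by omega
  rw [← sub_mul] at h1
  have h7 : (q : ℤ) ∣ (a : ℤ) - b := (mul_dvd_mul_iff_right hq0).1 h1
  have h8 := Int.eq_zero_of_abs_lt_dvd h7 (by rw [abs_lt]; omega)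
  omega

end OFFx

theorem p_OFF :
    S_OFF := by
  intro W Q0 n0 x Y D c hW hD
  have H := OFFx.expand ((Ioc x (x + Y)).filter (fun n => n ≡ n0 [MOD W])) (D.sigma fun q => red q)
    (fun i => (i.2 : ℝ) / i.1) (fun i => c i.1 i.2) ((Y : ℝ) / W + 1) ((Q0 : ℝ) ^ 2)
    (OFFx.card_le W n0 x Y hW) (by positivity) ?_
  · simpa only [sum_sigma] using H
  rintro ⟨q, a⟩ hi ⟨s, b⟩ hj hne
  obtain ⟨hq, ha⟩ := mem_sigma.1 hi
  obtain ⟨hs, hb⟩ := mem_sigma.1 hj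
  obtain ⟨hq1, hq2⟩ := mem_filter.1 (hD hq)
  obtain ⟨hs1, hs2⟩ := mem_filter.1 (hD hs)
  rw [mem_Icc] at hq1 hs1
  dsimp only at *
  have h1 : ¬ ((q * s : ℕ) : ℤ) ∣ W * (a * s - b * q) := fun h => by
    obtain ⟨rfl, rfl⟩ := OFFx.sep hq2 hs2 ha hb h
    exact hne rfl
  have hqs : 0 < q * s := Nat.mul_pos hq1.1 hs1.1
  have h2 := OFFx.nn_ge hqs h1
  have hq0 : (0 : ℝ) < q := by exact_mod_cast hq1.1
  have hs0 : (0 : ℝ) < s := by exact_mod_cast hs1.1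
  have e : (((W * (a * s - b * q) : ℤ) : ℝ)) / ((q * s : ℕ) : ℝ) =
      W * ((a : ℝ) / q - (b : ℝ) / s) := by
    push_cast; field_simp
  rw [e, Nat.cast_mul] at h2
  have h3 : (0 : ℝ) < 1 / ((q : ℝ) * s) := by positivity
  have h4 := lt_of_lt_of_le h3 h2
  refine (OFFx.geo W n0 x Y hW _ h4).trans ?_
  have h5 : (q : ℝ) ≤ Q0 := by exact_mod_cast hq1.2
  have h6 : (s : ℝ) ≤ Q0 := by exact_mod_cast hs1.2
  have h7 : (q : ℝ) * s ≤ (Q0 : ℝ) ^ 2 := by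
    rw [pow_two]; exact mul_le_mul h5 h6 hs0.le (hq0.le.trans h5)
  rw [div_le_iff₀ (by positivity)] at h2 ⊢
  nlinarith [mul_le_mul_of_nonneg_left h7 h4.le]

end Pool.Agent.P.MP_42fc1a_nt.EK
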