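import Pool.Agent.P.MP_42fc1a_nt.EK.IfaceB

/-! Step OM. -/

namespace Pool.Agent.P.MP_42fc1a_nt.EK

open Finset Real Filter Topology MeasureTheory
open Pool.Agent.P.MP_e86632_nt (ee nn ee_add norm_ee ee_neg ee_zero)
open Pool.Agent.P.MP_8be758_nt.Avg (gs red ft nsq gs_pos gs_le_one gs_neg gs_anti)
open Pool.Agent.P.MP_e94e4b_nt.PF (sgm)
open Pool.Agent.P.E2
open ArithmeticFunction (vonMangoldt moebius)
open DirichletCharacter (LFunction)
open scoped Classical

namespace OMx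

theorem le_rh {T : Finset ℕ} {f g : ℕ → ℝ} (h : ∀ p ∈ T, f p ≤ g p) :
    ∑ p ∈ T, f p / p ≤ ∑ p ∈ T, g p / p :=
  sum_le_sum fun p hp => div_le_div_of_nonneg_right (h p hp) (Nat.cast_nonneg p)

theorem rh_mul (T : Finset ℕ) (b : ℝ) : rh T * b = ∑ p ∈ T, b / p := by
  rw [rh, sum_mul]; exact sum_congr rfl fun p _ => by ring

theorem lg {P : ℝ} {p : ℕ} (hP : 1 ≤ P) (h : p ∈ PP P) :
    Real.log P ≤ Real.log p ∧ Real.log p ≤ Real.log P + 7 / 10 := by
  obtain ⟨h1, h2⟩ := mem_Ioc.1 (mem_filter.1 h).1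
  have a1 : P < p := (Nat.floor_lt (by linarith)).1 h1
  have a2 : (p : ℝ) ≤ 2 * P := (Nat.le_floor_iff (by linarith)).1 h2
  have a3 := Real.log_le_log (by linarith) a2
  rw [Real.log_mul two_ne_zero (by linarith)] at a3
  exact ⟨Real.log_le_log (by linarith) a1.le, by linarith [Real.log_two_lt_d9]⟩

end OMx

open OMx in
theorem p_OM (hRNG : S_RNG) (hWIN1 : S_WIN1) (hLIP : S_LIP) (hBW : S_BW) :
    S_OM := by
  filter_upwards [hBW, eventually_ge_atTop 3] with r h r3 P T hp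
  have h2 := (h P T hp).1
  have r0 : 0 < r := by linarith
  have w0 : 0 < 1 / r ^ 13 := by positivity
  have P1 : 1 ≤ P := (one_le_pow₀ (by linarith)).trans hp.p1
  have W := fun x W hW => hWIN1 (1 / r ^ 13) (r ^ 13 - Real.log P - 3) (r ^ 13 - Real.log P + 3) x W
    w0 (by linarith) hW
  refine ⟨fun v => ⟨sum_nonneg fun p _ => div_nonneg (W _ 0 le_rfl).1 (Nat.cast_nonneg p),
    le_rh fun p _ => (W _ 0 le_rfl).2.1⟩, fun v v' => ?_, fun v hv => ?_, fun v hv => ?_⟩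
  · rw [om, om, ← sum_sub_distrib]
    refine (abs_sum_le_sum_abs _ _).trans ?_
    simp only [← sub_div, abs_div, Nat.abs_cast]
    refine (le_rh (g := fun _ => 2 * r ^ 13 * |v - v'|) fun p _ => ?_).trans ?_
    · refine (hLIP _ _ _ _ _ w0 (by linarith)).trans (le_of_eq ?_)
      rw [sub_sub_sub_cancel_right]; field_simp
    · rw [← rh_mul]
      nlinarith [mul_nonneg (pow_pos r0 13).le (abs_nonneg (v - v'))]
  · rw [rh_mul, show r ^ 26 = (r ^ 13) ^ 2 by ring]
    obtain ⟨v1, v2⟩ := abs_le.1 hv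
    refine le_rh fun p m => ?_
    obtain ⟨l1, l2⟩ := lg P1 (hp.sub m)
    have e : r ^ 13 * (1 / r ^ 13) = 1 := by field_simp
    exact (W _ _ (pow_pos r0 13).le).2.2.1 (by linarith) (by linarith)
  · refine (le_rh (g := fun _ => 2 * Real.exp (-(r ^ 10) ^ 2)) fun p m => ?_).trans ?_
    · obtain ⟨l1, l2⟩ := lg P1 (hp.sub m)
      have e : r ^ 10 * (1 / r ^ 13) ≤ 1 / 10 := by
        rw [show r ^ 10 * (1 / r ^ 13) = 1 / r ^ 3 by field_simp]
        exact one_div_le_one_div_of_le (by norm_num)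
          (le_trans (by norm_num) (pow_le_pow_left₀ (by norm_num) r3 3))
      exact (W _ _ (pow_pos r0 10).le).2.2.2.1 (hv.imp (fun _ => by linarith) fun _ => by linarith)
    · rw [← rh_mul, show (r ^ 10) ^ 2 = r ^ 20 by ring]
      nlinarith [Real.exp_pos (-r ^ 20)]

end Pool.Agent.P.MP_42fc1a_nt.EK
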