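import Pool.Agent.P.MP_42fc1a_nt.EK.IfaceA

/-! Step ONE. -/

namespace Pool.Agent.P.MP_42fc1a_nt.EK

open Finset Real Filter Topology MeasureTheory
open Pool.Agent.P.MP_e86632_nt (ee nn ee_add norm_ee ee_neg ee_zero)
open Pool.Agent.P.MP_8be758_nt.Avg (gs red ft nsq gs_pos gs_le_one gs_neg gs_anti)
open Pool.Agent.P.MP_e94e4b_nt.PF (sgm)
open Pool.Agent.P.E2
open ArithmeticFunction (vonMangoldt moebius)
open DirichletCharacter (LFunction)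
open scoped Classical

namespace ONEx

lemma FF_nonneg (M b : ℕ) (ω : ℕ → ℂ) (R : Finset ℕ) (x : ℝ) : 0 ≤ FF M b ω R x :=
  prod_nonneg fun _ _ => sq_nonneg _

lemma FF_per (M b : ℕ) (ω : ℕ → ℂ) (R : Finset ℕ) (x : ℝ) (k : ℤ) :
    FF M b ω R (x + k) = FF M b ω R x := by
  unfold FF Gw
  refine prod_congr rfl fun j _ => ?_
  congr 3
  refine sum_congr rfl fun s _ => ?_
  have e : (2 : ℝ) ^ (M * s) * (x + k) = 2 ^ (M * s) * x + ((2 ^ (M * s) * k : ℤ) : ℝ) := by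
    push_cast; ring
  rw [e, Pool.Agent.P.MP_e86632_nt.ee_add_int]

lemma fe_nonneg (N : ℕ) (θ : ℝ) : 0 ≤ fe N θ := by unfold fe; positivity

lemma ms_nonneg (P p g : ℕ) (α : ℝ) (H1 : Finset ℤ) (ϱ1 : ℤ → ℝ) (H2 : Finset ℤ) (ϱ2 : ℤ → ℝ)
    (h1 : ∀ h, 0 ≤ ϱ1 h) (h2 : ∀ h, 0 ≤ ϱ2 h) : 0 ≤ ms P p g α H1 ϱ1 H2 ϱ2 :=
  sum_nonneg fun _ _ => mul_nonneg (mul_nonneg (h1 _) (h2 _))
    (mul_nonneg (fe_nonneg _ _) (fe_nonneg _ _))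

lemma pair (hMOM : S_MOM) (hFIB : S_FIB) (M b b' P p g : ℕ) (m α : ℝ) (ω : ℕ → ℂ) (hω : Uni ω)
    (T : Finset ℕ) (Jv : ℕ → Finset ℕ) (R R0 : Finset ℕ) (H H0 : Finset ℤ) (ϱ ϱ0 : ℤ → ℝ)
    (i Y i' Y' : ℕ) (e e' : ℝ) (hL : Law M b R i Y e H ϱ) (hL0 : Law M b' R0 i' Y' e' H0 ϱ0)
    (hP : 1 ≤ P) (hp : 1 ≤ p) (hp2 : p ≤ 2 * P) (hm : 0 ≤ m) (hT : T ⊆ Ioc P (2 * P))
    (hJ : ∀ v ∈ T, Jv v ⊆ range p ∧ ((Jv v).card : ℝ) ≤ m) :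
    ∑ v ∈ T, ∑ j ∈ Jv v, ∑ v' ∈ T, ∑ j' ∈ Jv v',
      FF M b ω R ((v * α + j) / p + g * ((v' * α + j') / p)) *
        FF M b' ω R0 ((v * α + j) / p + g * ((v' * α + j') / p)) ≤
      m * (128 * (P : ℝ) ^ 3) * ms P p g α H ϱ H0 ϱ0 := by
  obtain ⟨c, hc, ec⟩ := hL.exp ω hω
  obtain ⟨c0, hc0, ec0⟩ := hL0.exp ω hω
  have hF : ∀ z, 0 ≤ FF M b ω R z * FF M b' ω R0 z := fun z =>
    mul_nonneg (FF_nonneg _ _ _ _ _) (FF_nonneg _ _ _ _ _)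
  have h1 := hFIB T Jv (fun z => FF M b ω R z * FF M b' ω R0 z) P p g m α hp hm hT hJ hF
    (fun z k => by simp only [FF_per])
  have h2 := hMOM (ℤ × ℤ) (H ×ˢ H0) (fun κ => κ.1 + κ.2) (fun κ => c κ.1 * c0 κ.2)
    (fun κ => ϱ κ.1 * ϱ0 κ.2) (fun z => FF M b ω R z * FF M b' ω R0 z) P p g α hP hp hF
    (fun κ _ => by
      rw [norm_mul]
      exact mul_le_mul (hc _) (hc0 _) (norm_nonneg _) (hL.sub.pos _))
    (fun z => by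
      rw [Complex.ofReal_mul, ec, ec0, sum_mul_sum, sum_product]
      refine sum_congr rfl fun x _ => sum_congr rfl fun y _ => ?_
      have e1 : ((x + y : ℤ) : ℝ) * z = x * z + y * z := by push_cast; ring
      simp only [e1, ee_add]
      ring)
  have h3 : 0 ≤ ms P p g α H ϱ H0 ϱ0 := ms_nonneg _ _ _ _ _ _ _ _ hL.sub.pos hL0.sub.pos
  have h4 : (p : ℝ) ≤ 2 * P := by exact_mod_cast hp2
  have h5 : 64 * (P : ℝ) ^ 2 * p * ms P p g α H ϱ H0 ϱ0 ≤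
      128 * (P : ℝ) ^ 3 * ms P p g α H ϱ H0 ϱ0 := by
    refine mul_le_mul_of_nonneg_right ?_ h3
    calc 64 * (P : ℝ) ^ 2 * p ≤ 64 * (P : ℝ) ^ 2 * (2 * P) := by gcongr
      _ = _ := by ring
  refine h1.trans ?_
  rw [mul_assoc]
  exact mul_le_mul_of_nonneg_left (h2.trans h5) hm

end ONEx

theorem p_ONE (hMOM : S_MOM) (hBST : S_BST) (hPICK : S_PICK) (hFIB : S_FIB) :
    S_ONE := by
  intro lam μ B m α M b0 b1 u n0 n1 G0 G1 P K p T len H ϱ H0 ϱ0 hPar hT hp hlen hL hL0 hm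
  have hm0 : 0 ≤ m := (Nat.cast_nonneg _).trans (hm 0)
  have hμ : 0 < μ := by rw [hPar.hμ]; have := hPar.l0; positivity
  have e8 : lam ^ 2 / 8 = 2 * μ := by rw [hPar.hμ]; ring
  have hP : 1 ≤ P := le_trans one_le_two hPar.p2
  have hpI := mem_Ioc.1 (mem_filter.1 hp).1
  have hp1 : 1 ≤ p := by omega
  have hT' : T ⊆ Ioc P (2 * P) := hT.trans (filter_subset _ _)
  set Jv : ℕ → Finset ℕ := fun v => (range p).filter fun j : ℕ =>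
    lam ≤ ‖Gn M (b0 * b1 * u) (((v : ℝ) * α + j) / p)‖ with hJv
  have hJ : ∀ v ∈ T, Jv v ⊆ range p ∧ ((Jv v).card : ℝ) ≤ m := fun v _ =>
    ⟨filter_subset _ _, hm _⟩
  obtain ⟨g, ω, g0, g1, hω, hb⟩ := hBST (Σ _ : ℕ, ℕ) (T.sigma Jv)
    (fun κ => ((κ.1 : ℝ) * α + κ.2) / p) M (b0 * b1 * u) G0 G1 lam hPar.l0 hPar.l1 hPar.g1
    hPar.g01 hPar.gJ (fun κ hκ => (mem_filter.1 (mem_sigma.1 hκ).2).2)
  have hcard : ((T.sigma Jv).card : ℝ) = ∑ v ∈ T, (nb M (b0 * b1 * u) lam p (v * α) : ℝ) := by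
    rw [card_sigma, Nat.cast_sum]; rfl
  rw [e8, hcard] at hb
  refine hb.trans ?_
  set W : ℝ → ℝ := fun z => ∑ R ∈ powersetCard ⌈μ * u⌉₊ (range u),
    ∑ i ∈ (range (b1 * u)).filter (fun i => i + len i ≤ b1 * u),
      ∑ R0 ∈ powersetCard ⌈μ / 2 * len i⌉₊ (Ico i (i + len i)),
        FF M (b0 * b1) ω R z * FF M b0 ω R0 z /
          (μ ^ (2 * ⌈μ * u⌉₊) * μ ^ (2 * ⌈μ / 2 * len i⌉₊)) with hW
  have hterm : ∀ (z : ℝ) (R R0 : Finset ℕ) (i : ℕ), 0 ≤ FF M (b0 * b1) ω R z * FF M b0 ω R0 z /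
      (μ ^ (2 * ⌈μ * u⌉₊) * μ ^ (2 * ⌈μ / 2 * len i⌉₊)) := fun z R R0 i =>
    div_nonneg (mul_nonneg (ONEx.FF_nonneg _ _ _ _ _) (ONEx.FF_nonneg _ _ _ _ _)) (by positivity)
  have hW0 : ∀ z, 0 ≤ W z := fun z =>
    sum_nonneg fun R _ => sum_nonneg fun i _ => sum_nonneg fun R0 _ => hterm z R R0 i
  have hW1 : ∀ z, 2 * μ * (b0 * b1 * u : ℕ) ≤ ‖Gw M ω (Icc 1 (b0 * b1 * u)) z‖ → 1 ≤ W z := by
    intro z hz
    obtain ⟨R, hR, i, hi, R0, hR0, h⟩ := hPICK M b0 b1 u n1 len ω z μ hω hPar.hb0 hPar.hb1 hμ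
      hlen hPar.win hz
    have hi' : i ∈ (range (b1 * u)).filter (fun i => i + len i ≤ b1 * u) :=
      mem_filter.2 ⟨mem_range.2 (by have := (hlen i).1; omega), hi⟩
    refine le_trans ?_ (single_le_sum (f := fun R => ∑ i ∈ (range (b1 * u)).filter
      (fun i => i + len i ≤ b1 * u), ∑ R0 ∈ powersetCard ⌈μ / 2 * len i⌉₊ (Ico i (i + len i)),
        FF M (b0 * b1) ω R z * FF M b0 ω R0 z /
          (μ ^ (2 * ⌈μ * u⌉₊) * μ ^ (2 * ⌈μ / 2 * len i⌉₊)))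
      (fun R _ => sum_nonneg fun i _ => sum_nonneg fun R0 _ => hterm z R R0 i) hR)
    refine le_trans ?_ (single_le_sum (f := fun i =>
      ∑ R0 ∈ powersetCard ⌈μ / 2 * len i⌉₊ (Ico i (i + len i)),
        FF M (b0 * b1) ω R z * FF M b0 ω R0 z /
          (μ ^ (2 * ⌈μ * u⌉₊) * μ ^ (2 * ⌈μ / 2 * len i⌉₊)))
      (fun i _ => sum_nonneg fun R0 _ => hterm z R R0 i) hi')
    refine le_trans ?_ (single_le_sum (f := fun R0 => FF M (b0 * b1) ω R z * FF M b0 ω R0 z /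
          (μ ^ (2 * ⌈μ * u⌉₊) * μ ^ (2 * ⌈μ / 2 * len i⌉₊)))
      (fun R0 _ => hterm z R R0 i) hR0)
    exact (one_le_div (by positivity)).2 h
  have hstep : ∀ (S : Finset ((Σ _ : ℕ, ℕ) × (Σ _ : ℕ, ℕ))) (z : (Σ _ : ℕ, ℕ) × (Σ _ : ℕ, ℕ) → ℝ),
      ((S.filter fun y => 2 * μ * (b0 * b1 * u : ℕ) ≤
        ‖Gw M ω (Icc 1 (b0 * b1 * u)) (z y)‖).card : ℝ) ≤ ∑ y ∈ S, W (z y) := by
    intro S z
    rw [card_eq_sum_ones, Nat.cast_sum]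
    refine le_trans (sum_le_sum fun y hy => ?_)
      (sum_le_sum_of_subset_of_nonneg (filter_subset _ _) fun y _ _ => hW0 _)
    rw [Nat.cast_one]
    exact hW1 _ (mem_filter.1 hy).2
  refine (hstep _ fun y => (((y.1.1 : ℝ) * α + y.1.2) / p + 2 ^ (M * g) *
    (((y.2.1 : ℝ) * α + y.2.2) / p))).trans ?_
  have hnn : ∀ g' : ℕ, 0 ≤ ∑ R ∈ powersetCard ⌈μ * u⌉₊ (range u),
      ∑ i ∈ (range (b1 * u)).filter (fun i => i + len i ≤ b1 * u),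
        ∑ R0 ∈ powersetCard ⌈μ / 2 * len i⌉₊ (Ico i (i + len i)),
          ms P p (2 ^ (M * g')) α (H R) (ϱ R) (H0 i R0) (ϱ0 i R0) /
            (μ ^ (2 * ⌈μ * u⌉₊) * μ ^ (2 * ⌈μ / 2 * len i⌉₊)) := fun g' =>
    sum_nonneg fun R hR => sum_nonneg fun i _ => sum_nonneg fun R0 hR0 => by
      obtain ⟨_, _, _, h1⟩ := hL R hR
      obtain ⟨_, _, _, h2⟩ := hL0 i R0 hR0
      exact div_nonneg (ONEx.ms_nonneg _ _ _ _ _ _ _ _ h1.sub.pos h2.sub.pos) (by positivity)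
  refine le_trans ?_ (mul_le_mul_of_nonneg_left
    (single_le_sum (fun g' _ => hnn g') (mem_Icc.2 ⟨g0, g1⟩)) (by positivity))
  simp only [hW]
  rw [sum_comm, mul_sum]
  refine sum_le_sum fun R hR => ?_
  rw [sum_comm, mul_sum]
  refine sum_le_sum fun i _ => ?_
  rw [sum_comm, mul_sum]
  refine sum_le_sum fun R0 hR0 => ?_
  obtain ⟨i1, Y1, e1, h1⟩ := hL R hR
  obtain ⟨i2, Y2, e2, h2⟩ := hL0 i R0 hR0
  rw [← sum_div, ← mul_div_assoc]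
  refine div_le_div_of_nonneg_right ?_ (by positivity)
  have h3 := ONEx.pair hMOM hFIB M (b0 * b1) b0 P p (2 ^ (M * g)) m α ω hω T Jv R R0 _ _ _ _
    _ _ _ _ _ _ h1 h2 hP hp1 hpI.2 hm0 hT' hJ
  refine le_trans (le_of_eq ?_) h3
  rw [sum_product, sum_sigma]
  refine sum_congr rfl fun v _ => sum_congr rfl fun j _ => ?_
  rw [sum_sigma]
  simp only [Nat.cast_pow, Nat.cast_ofNat]

end Pool.Agent.P.MP_42fc1a_nt.EK
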