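import Pool.Agent.P.MP_42fc1a_nt.EK.IfaceC
import Pool.Agent.P.MP_42fc1a_nt.EK.IfaceB

/-! Step ONE1. -/

namespace Pool.Agent.P.MP_42fc1a_nt.EK

open Finset Real Filter Topology MeasureTheory
open Pool.Agent.P.MP_e86632_nt (ee nn ee_add norm_ee ee_neg ee_zero)
open Pool.Agent.P.MP_8be758_nt.Avg (gs red ft nsq gs_pos gs_le_one gs_neg gs_anti)
open Pool.Agent.P.MP_e94e4b_nt.PF (sgm)
open Pool.Agent.P.E2
open ArithmeticFunction (vonMangoldt moebius)
open DirichletCharacter (LFunction)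
open scoped Classical

namespace ONE1x

theorem tot (q1 i : ℕ) (h : 1 ≤ q1) : ((q1 * 2 ^ i : ℕ) : ℝ) / (q1 * 2 ^ i).totient ≤ 2 * q1 := by
  have h1 := Nat.totient_super_multiplicative q1 (2 ^ i)
  have h2 : 1 ≤ q1.totient := Nat.totient_pos.2 h
  have h3 : 2 ^ i ≤ 2 * (2 ^ i).totient := by
    rcases i with _ | i
    · simp
    · rw [Nat.totient_prime_pow Nat.prime_two i.succ_pos, pow_succ]
      simp [mul_comm]
  have h4 : q1 * 2 ^ i ≤ 2 * q1 * (q1 * 2 ^ i).totient := by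
    calc q1 * 2 ^ i ≤ q1 * (2 * (q1.totient * (2 ^ i).totient)) := by
          refine Nat.mul_le_mul_left _ (h3.trans (Nat.mul_le_mul_left _ ?_))
          exact Nat.le_mul_of_pos_left _ h2
      _ ≤ q1 * (2 * (q1 * 2 ^ i).totient) := by gcongr
      _ = _ := by ring
  have h5 : 0 < (q1 * 2 ^ i).totient := Nat.totient_pos.2 (by positivity)
  rw [div_le_iff₀ (by exact_mod_cast h5)]
  exact_mod_cast h4

theorem exp5 : Real.exp 5 ≤ 150 := by
  have h := Real.exp_one_lt_d9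
  have h1 : Real.exp 5 = Real.exp 1 ^ 5 := by rw [← Real.exp_nat_mul]; norm_num
  rw [h1]
  calc Real.exp 1 ^ 5 ≤ 2.7182818286 ^ 5 := by gcongr
    _ ≤ 150 := by norm_num

theorem fin {C1 C2 q φ q1 X E P R B K S1 S2 I : ℝ} (c1 : 0 < C1) (c2 : 0 < C2) (q0 : 0 < q)
    (φ0 : 0 < φ) (h1 : 1 ≤ q1) (X0 : 0 < X) (E0 : 0 ≤ E) (P1 : 1 ≤ P) (R1 : 1 ≤ R)
    (hφ : q / φ ≤ 2 * q1) (hB : B = 2 * R + 4 * q1) (K0 : 0 ≤ K) (hK : q * K ≤ 9 * X / P)
    (hI : I ≤ 2 * (C1 * q * (2 * S1 + q * (C2 * B ^ 2 * X / q ^ 2 * S2)))) (s2 : S2 ≤ 2 / P)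
    (s1 : S1 ≤ 150 / X * (2 / φ * (E * X ^ 2) + 10 * (2 * q ^ 2 / φ * K ^ 2))) :
    I ≤ (1944000 * C1 + 144 * C1 * C2) * q1 ^ 2 * X * (E + R ^ 2 / P) := by
  have P0 : 0 < P := by linarith
  have a1 : q * S1 ≤ 150 * (q / φ) * (2 * E * X + 20 * (q * K) ^ 2 / X) := by
    refine (mul_le_mul_of_nonneg_left s1 q0.le).trans_eq ?_
    field_simp
    ring
  have a2 : (q * K) ^ 2 / X ≤ 81 * X * (R ^ 2 / P) := by
    have b1 : (q * K) ^ 2 ≤ (9 * X / P) ^ 2 := by gcongr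
    have b2 : 1 / P ≤ R ^ 2 := (div_le_one P0 |>.2 P1).trans (one_le_pow₀ R1)
    calc (q * K) ^ 2 / X ≤ (9 * X / P) ^ 2 / X := by gcongr
      _ = 81 * X * (1 / P / P) := by field_simp; ring
      _ ≤ _ := by gcongr
  have a3 : q / φ ≤ 2 * q1 ^ 2 := hφ.trans (by nlinarith)
  have a4 : q * S1 ≤ 150 * (2 * q1 ^ 2) * (1620 * X * (E + R ^ 2 / P)) := by
    refine a1.trans ?_
    have : 2 * E * X + 20 * (q * K) ^ 2 / X ≤ 1620 * X * (E + R ^ 2 / P) := by
      rw [mul_div_assoc]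
      nlinarith [mul_nonneg E0 X0.le]
    gcongr
  have a5 : B ^ 2 ≤ (6 * q1 * R) ^ 2 := by
    have : B ≤ 6 * q1 * R := by nlinarith
    have : 0 ≤ B := by nlinarith
    gcongr
  have a6 : q * (q * (C2 * B ^ 2 * X / q ^ 2 * S2)) ≤ 72 * C2 * q1 ^ 2 * X * (E + R ^ 2 / P) := by
    calc q * (q * (C2 * B ^ 2 * X / q ^ 2 * S2)) = C2 * B ^ 2 * X * S2 := by field_simp
      _ ≤ C2 * B ^ 2 * X * (2 / P) := by gcongr
      _ ≤ C2 * (6 * q1 * R) ^ 2 * X * (2 / P) := by gcongr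
      _ = 72 * C2 * q1 ^ 2 * X * (R ^ 2 / P) := by ring
      _ ≤ _ := by gcongr; linarith
  have a7 := mul_le_mul_of_nonneg_left a4 c1.le
  have a8 := mul_le_mul_of_nonneg_left a6 c1.le
  nlinarith

end ONE1x

open ONE1x in
theorem p_ONE1 (hBW : S_BW) (hOM : S_OM) (hARCS : S_ARCS) (hPARS : S_PARS) (hA2M : S_A2M) (hZCL : S_ZCL) :
    S_ONE1 := by
  obtain ⟨C1, c1, hP⟩ := hPARS
  obtain ⟨C2, c2, hA⟩ := hA2M
  refine ⟨1944000 * C1 + 144 * C1 * C2, by positivity, ?_⟩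
  filter_upwards [hBW, hOM, hA, hZCL, eventually_ge_atTop (2 : ℝ)] with r h1 h2 h3 h4 r2
  intro P E T q1 i _ hp hq hqe E0 hE
  have q11 : 1 ≤ q1 := Nat.pos_of_ne_zero (left_ne_zero_of_mul (NeZero.ne (q1 * 2 ^ i)))
  have q1r : (1 : ℝ) ≤ q1 := by exact_mod_cast q11
  have hq1 : 1 ≤ q1 * 2 ^ i := Nat.pos_of_ne_zero (NeZero.ne _)
  have r1 : (1 : ℝ) ≤ r := by linarith
  have P200 : 200 ≤ P := by
    refine le_trans ?_ hp.p1
    calc (200 : ℝ) ≤ 2 ^ 8 := by norm_num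
      _ ≤ r ^ 8 := by gcongr
      _ ≤ r ^ 300 := pow_le_pow_right₀ r1 (by norm_num)
  have P0 : 0 < P := by linarith
  have q1P : (q1 : ℝ) ≤ P := le_trans (by nlinarith) hq
  have r13 : 10 * r ≤ r ^ 13 := by
    calc 10 * r ≤ 2 ^ 12 * r := by gcongr; norm_num
      _ ≤ r ^ 12 * r := by gcongr
      _ = r ^ 13 := by ring
  have X0 : 0 < XX r := Real.exp_pos _
  have s0 : (0 : ℝ) < 2 ^ i := by positivity
  have qc : ((q1 * 2 ^ i : ℕ) : ℝ) = q1 * 2 ^ i := by push_cast; ring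
  have hφ := tot q1 i q11
  have φ0 : (0 : ℝ) < (q1 * 2 ^ i).totient := by exact_mod_cast Nat.totient_pos.2 hq1
  have ePr : Real.exp (-r) ≤ 1 / P := by
    rw [Real.exp_neg, one_div]
    exact inv_anti₀ P0 hp.p2
  have hS : Sw r (2 ^ i * P ^ 2 / XX r) (q1 * 2 ^ i) := by
    refine ⟨hq1, hqe.trans (Real.exp_le_exp.2 (by linarith)), ?_, ?_⟩
    · rw [div_mul_cancel₀ _ X0.ne', qc]
      nlinarith [mul_le_mul P200 q1P (by positivity) P0.le]
    · have b1 : (2 : ℝ) ^ i ≤ Real.exp (r / 8) := le_trans (by rw [qc]; nlinarith) hqe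
      rw [div_le_iff₀ X0, Th, XX, ← Real.exp_add]
      calc 2 ^ i * P ^ 2 ≤ Real.exp (r / 8) * Real.exp r ^ 2 := by gcongr; exact hp.p2
        _ = Real.exp (r / 8 + 2 * r) := by rw [← Real.exp_nat_mul, ← Real.exp_add]; norm_num
        _ ≤ _ := Real.exp_le_exp.2 (by linarith)
  have hl : ∀ l : ℕ, l.Prime → l ∣ q1 * 2 ^ i → (l : ℝ) ≤ P := fun l hl h => by
    rcases (Nat.Prime.dvd_mul hl).1 h with h | h
    · exact le_trans (by exact_mod_cast Nat.le_of_dvd q11 h) q1P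
    · have : (l : ℝ) ≤ 2 := by exact_mod_cast Nat.le_of_dvd two_pos (hl.dvd_of_dvd_pow h)
      linarith
  have hb : ∀ m, ‖be r P T (q1 * 2 ^ i) m‖ ≤ 2 * r ^ 13 + 4 * q1 := fun m => by
    obtain ⟨b1, b2⟩ := (h1 P T hp).2.1 m
    obtain ⟨b3, b4⟩ := (h2 P T hp).1 (Real.log m)
    have b5 := (h1 P T hp).1
    have b6 : 0 ≤ Lm (q1 * 2 ^ i) m ∧ Lm (q1 * 2 ^ i) m ≤ 2 * q1 := by
      unfold Lm
      split_ifs
      · exact ⟨by positivity, hφ⟩
      · exact ⟨le_rfl, by positivity⟩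
    have b7 := mul_le_mul (b4.trans b5) b6.2 b6.1 zero_le_two
    have b8 := mul_nonneg b3 b6.1
    rw [be, Complex.norm_real, Real.norm_eq_abs, abs_le]
    constructor <;> nlinarith
  have om_c : Continuous (om r P T) := by
    refine (LipschitzWith.of_dist_le_mul (K := ⟨4 * r ^ 13, by positivity⟩) fun v v' => ?_).continuous
    exact (h2 P T hp).2.1 v v'
  generalize hβ : be r P T (q1 * 2 ^ i) = β at hb
  have e1 : (q1 : ℝ) / P ^ 3 = ((q1 * 2 ^ i : ℕ) : ℝ) * (1 / (2 ^ i * P ^ 3)) := by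
    rw [qc]; field_simp
  have A1 := hARCS (fun α => ‖ft (II r) β α‖ ^ 2) (q1 * 2 ^ i) (1 / (2 ^ i * P ^ 3))
    (by fun_prop) (fun _ => by positivity) (fun x => by
      have : ft (II r) β (x + 1) = ft (II r) β x := sum_congr rfl fun a _ => by
        rw [mul_add, mul_one, ← Int.cast_natCast, Pool.Agent.P.MP_e86632_nt.ee_add_int]
      simp only [this]) hq1 (by positivity)
  have A2 := hP (II r) β (q1 * 2 ^ i) (2 ^ i * P ^ 3) (1 / (2 ^ i * P ^ 3)) hq1 (by positivity)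
    (by positivity) (by rw [mul_one_div_cancel (by positivity)]; norm_num)
  have A3 := sum_le_sum fun c (_ : c ∈ range (q1 * 2 ^ i)) => h3 _ (2 ^ i * P ^ 3) _ _ c β hS (by
    rw [qc, mul_comm]
    gcongr
    exact q1P.trans (le_self_pow₀ (by linarith) (by norm_num))) hb
  rw [sum_add_distrib, ← mul_sum, sum_const, card_range, nsmul_eq_mul] at A3
  rw [e1, show r ^ 26 = (r ^ 13) ^ 2 by ring]
  refine fin (q := ((q1 * 2 ^ i : ℕ) : ℝ)) (K := 8 / (2 ^ i * P ^ 2 / XX r) +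
    XX r * Real.exp (-r) / ((q1 * 2 ^ i : ℕ) : ℝ)) c1 c2 (by positivity) φ0 q1r X0 E0 (by linarith)
    (one_le_pow₀ r1) hφ rfl (by positivity) ?_ (A1.trans (mul_le_mul_of_nonneg_left
      (A2.trans (mul_le_mul_of_nonneg_left A3 (by positivity))) zero_le_two)) ?_ ?_
  · have b1 : (q1 : ℝ) / P ≤ 1 := (div_le_one P0).2 q1P
    calc _ = XX r * (8 * (q1 / P) / P + Real.exp (-r)) := by rw [qc]; field_simp
      _ ≤ XX r * (8 * 1 / P + 1 / P) := by gcongr
      _ = _ := by ring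
  · have b1 : Real.exp (-r ^ 13) ≤ 1 / P := le_trans (Real.exp_le_exp.2 (by linarith)) ePr
    have b2 : 2 ^ i * P ^ 2 / XX r * XX r / (2 ^ i * P ^ 3) = 1 / P := by field_simp
    rw [b2]
    linarith [show 2 / P = 1 / P + 1 / P by ring]
  · have zc : ∀ c, Continuous (Zc r (2 ^ i * P ^ 2 / XX r) β (q1 * 2 ^ i) c) := fun c => by
      unfold Zc
      fun_prop
    have zx : ∀ χ : DirichletCharacter ℂ (q1 * 2 ^ i), Continuous fun v =>
        ‖Zx r P T (2 ^ i * P ^ 2 / XX r) (ch χ) v -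
          kp χ * ((om r P T v * Real.exp v : ℝ) : ℂ)‖ ^ 2 := fun χ => by
      unfold Zx
      fun_prop
    rw [← intervalIntegral.integral_finsetSum fun c _ =>
      Continuous.intervalIntegrable (by have := zc c; fun_prop) _ _]
    rw [← intervalIntegral.integral_finsetSum fun χ _ => (zx χ).intervalIntegrable _ _] at hE
    have zs := continuous_finsetSum univ fun χ _ => zx χ
    refine (intervalIntegral.integral_mono_on (by linarith)
      (Continuous.intervalIntegrable (continuous_finsetSum _ fun c _ => by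
        have := zc c; fun_prop) _ _)
      (g := fun v => 150 / XX r * (2 / ((q1 * 2 ^ i).totient : ℝ) *
        ∑ χ : DirichletCharacter ℂ (q1 * 2 ^ i), ‖Zx r P T (2 ^ i * P ^ 2 / XX r) (ch χ) v -
          kp χ * ((om r P T v * Real.exp v : ℝ) : ℂ)‖ ^ 2 +
        2 * ((q1 * 2 ^ i : ℕ) : ℝ) ^ 2 / (q1 * 2 ^ i).totient * (8 / (2 ^ i * P ^ 2 / XX r) +
          XX r * Real.exp (-r) / ((q1 * 2 ^ i : ℕ) : ℝ)) ^ 2))
      (Continuous.intervalIntegrable (by fun_prop) _ _) fun v hv => ?_).trans ?_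
    · rw [← mul_sum]
      have b1 := h4 P _ v T _ hp hS hl (abs_le.2 ⟨by linarith [hv.1], by linarith [hv.2]⟩)
      rw [hβ] at b1
      refine mul_le_mul ?_ b1 (by positivity) (by positivity)
      rw [le_div_iff₀ X0, XX, ← Real.exp_add]
      exact le_trans (Real.exp_le_exp.2 (by linarith [hv.1])) exp5
    · rw [intervalIntegral.integral_const_mul, intervalIntegral.integral_add
        (Continuous.intervalIntegrable (by fun_prop) _ _) intervalIntegrable_const,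
        intervalIntegral.integral_const_mul, intervalIntegral.integral_const, smul_eq_mul,
        show r ^ 13 + 5 - (r ^ 13 - 5) = 10 by ring]
      gcongr

end Pool.Agent.P.MP_42fc1a_nt.EK
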