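import Pool.Agent.P.MP_42fc1a_nt.EK.IfaceB

/-! Statements, part D: L-functions near one, the theorem of Siegel, primes in long windows. -/

namespace Pool.Agent.P.MP_42fc1a_nt.EK

open Finset Real Filter Topology MeasureTheory
open Pool.Agent.P.MP_e86632_nt (ee nn)
open Pool.Agent.P.MP_8be758_nt.Avg (gs red ft nsq)
open Pool.Agent.P.MP_e94e4b_nt.PF (sgm)
open Pool.Agent.P.E2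
open ArithmeticFunction (vonMangoldt moebius)
open DirichletCharacter (LFunction)
open scoped Classical

-- deps: AP1 AP2
def S_APX0 : Prop := ∀ (q : ℕ) [NeZero q] (χ : DirichletCharacter ℂ q) (s : ℂ) (k0 : ℕ), χ ≠ 1 →
  1 / 2 < s.re → 1 ≤ k0 →
  ‖LFunction χ s - ∑ n ∈ Icc 1 (k0 * q), ch χ n * (n : ℂ) ^ (-s)‖ ≤ 6 * q * ‖s‖ / √(k0 : ℝ)

-- deps: APX0
def S_LB0 : Prop := ∀ (q : ℕ) [NeZero q] (χ : DirichletCharacter ℂ q) (s : ℂ), χ ≠ 1 →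
  1 / 2 < s.re → ‖LFunction χ s‖ ≤ q * (1 + 6 * ‖s‖) ∧ ∀ δ : ℝ, 0 ≤ δ → 1 - δ ≤ s.re →
    ‖LFunction χ s‖ ≤ (q : ℝ) ^ (3 * δ) * (1 + 3 * Real.log q) + 6 * ‖s‖

-- deps: APX0
def S_REAL : Prop := ∀ (q : ℕ) [NeZero q] (χ : DirichletCharacter ℂ q), χ ≠ 1 → χ ^ 2 = 1 →
  (∀ σ : ℝ, 1 / 2 < σ → (LFunction χ σ).im = 0) ∧ 0 < (LFunction χ 2).re ∧
  ∀ β : ℝ, 1 / 2 < β → β ≤ 1 → (∀ σ : ℝ, β ≤ σ → σ < 1 → LFunction χ σ ≠ 0) →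
    0 < (LFunction χ β).re

-- deps:
def S_ZNG : Prop := ∃ δ : ℝ, 0 < δ ∧ ∀ β : ℝ, 1 - δ ≤ β → β < 1 →
  (riemannZeta β).im = 0 ∧ (riemannZeta β).re ≤ 0

-- deps:
def S_SG0 : Prop := ∀ (a : ℕ → ℝ) (lam Mx β y : ℝ), 1 ≤ Mx → (∀ m, |a m| ≤ Mx * (3 / 4) ^ m) →
  (∀ m, 0 ≤ a m + lam) → 1 / 16 ≤ a 0 + lam → 5 / 6 ≤ β → β < 1 →
  HasSum (fun m => a m * (2 - β) ^ m) y → y ≤ lam / (1 - β) →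
  (1 - β) / (64 * (256 * Mx) ^ (8 * (1 - β))) ≤ lam

-- deps: SG0
def S_SG1 : Prop := ∃ c : ℝ, 0 < c ∧ ∀ (G : ℂ → ℂ) (Mx β : ℝ), Differentiable ℂ G → 1 ≤ Mx →
  (∀ s ∈ Metric.closedBall (2 : ℂ) (4 / 3), ‖G s‖ ≤ Mx) →
  (∀ m : ℕ, 0 ≤ ((-1) ^ m * iteratedDeriv m (fun s => riemannZeta s * G s) 2).re) →
  1 / 16 ≤ (riemannZeta 2 * G 2).re → 5 / 6 ≤ β → β < 1 → (riemannZeta β * G β).re ≤ 0 →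
  c * (1 - β) / Mx ^ (8 * (1 - β)) ≤ ‖G 1‖

-- deps:
def S_SG3 : Prop := ∀ (F D : ℂ → ℂ) (U : Set ℂ) (z : ℂ), IsOpen U → z ∈ U →
  DifferentiableOn ℂ F U → DifferentiableOn ℂ D U → (∀ s ∈ U, deriv F s = -(D s * F s)) →
  ((F z).im = 0 ∧ 0 ≤ (F z).re) →
  (∀ m : ℕ, ((-1) ^ m * iteratedDeriv m D z).im = 0 ∧ 0 ≤ ((-1) ^ m * iteratedDeriv m D z).re) →
  ∀ m : ℕ, ((-1) ^ m * iteratedDeriv m F z).im = 0 ∧ 0 ≤ ((-1) ^ m * iteratedDeriv m F z).re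

-- deps: ZL2 REAL SG3
def S_SG4 : Prop := ∀ (q1 q : ℕ) [NeZero q1] [NeZero q] (χ1 : DirichletCharacter ℂ q1)
  (χ : DirichletCharacter ℂ q) (ψ : DirichletCharacter ℂ (q1 * q)), χ1 ≠ 1 → χ1 ^ 2 = 1 → χ ≠ 1 →
  χ ^ 2 = 1 → ψ ≠ 1 → ψ ^ 2 = 1 → (∀ n, ch ψ n = ch χ1 n * ch χ n) →
  (∀ m : ℕ, 0 ≤ ((-1) ^ m * iteratedDeriv m (fun s => riemannZeta s * L3 χ1 χ ψ s) 2).re) ∧
    1 / 16 ≤ (riemannZeta 2 * L3 χ1 χ ψ 2).re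

-- deps:
def S_SG5 : Prop := ∀ (ε : ℝ) (q1 : ℕ) [NeZero q1] (χ1 : DirichletCharacter ℂ q1), 0 < ε →
  χ1 ≠ 1 → ∃ c : ℝ, 0 < c ∧ ∀ (q : ℕ) [NeZero q] (χ : DirichletCharacter ℂ q), χ ≠ 1 →
    (∀ n : ℕ, n.Coprime (q1 * q) → ch χ n = ch χ1 n) → c / (q : ℝ) ^ ε ≤ ‖LFunction χ 1‖

-- deps: LB0 SG1 SG4
def S_SG6 : Prop := ∀ (ε β : ℝ) (q1 : ℕ) [NeZero q1] (χ1 : DirichletCharacter ℂ q1), χ1 ≠ 1 →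
  χ1 ^ 2 = 1 → 5 / 6 ≤ β → β < 1 → 32 * (1 - β) ≤ ε → ∃ c : ℝ, 0 < c ∧
    ∀ (q : ℕ) [NeZero q] (χ : DirichletCharacter ℂ q) (ψ : DirichletCharacter ℂ (q1 * q)),
      χ ≠ 1 → χ ^ 2 = 1 → ψ ≠ 1 → ψ ^ 2 = 1 → (∀ n, ch ψ n = ch χ1 n * ch χ n) →
      (riemannZeta β * L3 χ1 χ ψ β).re ≤ 0 → c / (q : ℝ) ^ ε ≤ ‖LFunction χ 1‖

-- deps: REAL ZNG SG5 SG6
def S_SIE : Prop := ∀ ε : ℝ, 0 < ε → ∃ c : ℝ, 0 < c ∧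
  ∀ (q : ℕ) [NeZero q] (χ : DirichletCharacter ℂ q), χ ≠ 1 → χ ^ 2 = 1 →
    c / (q : ℝ) ^ ε ≤ ‖LFunction χ 1‖

-- deps: LB0 SIE
def S_L1D : Prop := ∀ A : ℕ, ∀ᶠ r : ℝ in atTop,
  ∀ (q : ℕ) [NeZero q] (χ : DirichletCharacter ℂ q) (s : ℂ), (q : ℝ) ≤ r ^ A → χ ≠ 1 →
    χ ^ 2 = 1 → ‖s - 1‖ ≤ 1 / r ^ 4 → LFunction χ s ≠ 0

-- deps:
def S_PR0 : Prop := ∀ A : ℕ, ∀ᶠ r : ℝ in atTop, ∀ (q : ℕ) [NeZero q] (s : ℂ), (q : ℝ) ≤ r ^ A →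
  1 < s.re → s.re ≤ 2 → 1 / r ^ 4 ≤ |s.im| → |s.im| ≤ 8 →
  ‖ld (1 : DirichletCharacter ℂ q) s‖ ≤ r ^ 5

-- deps: LAN ZL1 ZL2 T341 LB0 L1D PR0
def S_ZFL : Prop := ∀ A : ℕ, ∀ᶠ r : ℝ in atTop,
  ∀ (q : ℕ) [NeZero q] (χ : DirichletCharacter ℂ q) (s : ℂ), (q : ℝ) ≤ r ^ A → χ ≠ 1 →
    1 - 8 / r ^ 11 ≤ s.re → |s.im| ≤ 4 → LFunction χ s ≠ 0

-- deps: BC ZL1 ZL2 LB0 ZFL
def S_LDL : Prop := ∀ A : ℕ, ∀ᶠ r : ℝ in atTop,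
  ∀ (q : ℕ) [NeZero q] (χ : DirichletCharacter ℂ q) (s : ℂ), (q : ℝ) ≤ r ^ A → χ ≠ 1 →
    1 - 1 / r ^ 11 ≤ s.re → s.re ≤ 2 → |s.im| ≤ 3 →
    DifferentiableAt ℂ (ld χ) s ∧ ‖ld χ s‖ ≤ Real.exp r

-- deps: ZL1 ZL2 LD MEL CSN LDL
def S_P0U : Prop := ∀ A : ℕ, ∀ᶠ r : ℝ in atTop,
  ∀ (q : ℕ) [NeZero q] (χ : DirichletCharacter ℂ q) (w v : ℝ), (q : ℝ) ≤ r ^ A → χ ≠ 1 →
    Real.exp (-(8 * r)) ≤ w → w ≤ Real.exp (-(2 * r)) → r ^ 13 / 4 ≤ v → v ≤ 2 * r ^ 13 →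
    ‖∑' n : ℕ, ch χ n * vonMangoldt n * (gk w (Real.log n - v) : ℂ)‖ ≤ Real.exp (v - 9 * r)

-- deps: TAIL RNG PH PW MS LIP WIN1
def S_C1U : Prop := ∀ᶠ r : ℝ in atTop, ∀ (P v : ℝ) (F : ℕ → ℂ), 1 ≤ P → P ≤ Real.exp r →
  |v - (r ^ 13 - Real.log P)| ≤ 6 → (∀ n, ‖F n‖ ≤ 1) →
  ‖∑ n ∈ RN r P, ((th n * ph r P n : ℝ) : ℂ) * F n * (gk (Th r) (Real.log n - v) : ℂ) -
      (wn r P v : ℂ) * ∑' n : ℕ, F n * vonMangoldt n * (gk (Th r) (Real.log n - v) : ℂ)‖ ≤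
    Real.exp (v - r)

-- deps: RNG WIN1 P0 BW P0U C1U
def S_LNG : Prop := ∀ A : ℕ, ∀ᶠ r : ℝ in atTop, ∀ (P v : ℝ) (T : Finset ℕ) (q : ℕ) [NeZero q]
  (χ : DirichletCharacter ℂ q), Pr r P T → (q : ℝ) ≤ r ^ A →
  (∀ l : ℕ, l.Prime → l ∣ q → (l : ℝ) ≤ P) → |v - r ^ 13| ≤ 5 →
  ‖Zx r P T (Th r) (ch χ) v - kp χ * ((om r P T v * Real.exp v : ℝ) : ℂ)‖ ≤
    XX r * Real.exp (-(r / 2))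

end Pool.Agent.P.MP_42fc1a_nt.EK
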