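import Pool.Agent.P.MP_42fc1a_nt.EK.IfaceC
import Pool.Agent.P.MP_42fc1a_nt.EK.IfaceD

/-! Step ONEQ. -/

namespace Pool.Agent.P.MP_42fc1a_nt.EK

open Finset Real Filter Topology MeasureTheory
open Pool.Agent.P.MP_e86632_nt (ee nn ee_add norm_ee ee_neg ee_zero)
open Pool.Agent.P.MP_8be758_nt.Avg (gs red ft nsq gs_pos gs_le_one gs_neg gs_anti)
open Pool.Agent.P.MP_e94e4b_nt.PF (sgm)
open Pool.Agent.P.E2
open ArithmeticFunction (vonMangoldt moebius)
open DirichletCharacter (LFunction)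
open scoped Classical

namespace ONEQx

theorem int_le {f g y : ℝ → ℂ} {c B : ℝ} (hf : Continuous f) (hg : Continuous g)
    (h : ∀ v, |v - c| ≤ 5 → ‖g v - y v‖ ^ 2 ≤ B) :
    ∫ v in (c - 5)..(c + 5), ‖f v - y v‖ ^ 2 ≤
      2 * (∫ v in (c - 5)..(c + 5), ‖f v - g v‖ ^ 2) + 20 * B := by
  have hle : c - 5 ≤ c + 5 := by linarith
  have hc : Continuous fun v => ‖f v - g v‖ ^ 2 := by fun_prop
  have hB : 0 ≤ B := le_trans (by positivity) (h c (by simp))
  by_cases hi : IntervalIntegrable (fun v => ‖f v - y v‖ ^ 2) volume (c - 5) (c + 5)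
  · refine (intervalIntegral.integral_mono_on (g := fun v => 2 * ‖f v - g v‖ ^ 2 + 2 * B) hle hi
      (Continuous.intervalIntegrable (by fun_prop) _ _) fun v hv => ?_).trans_eq ?_
    · have h1 := norm_add_sq_le (f v - g v) (g v - y v)
      rw [sub_add_sub_cancel] at h1
      linarith [h v (abs_le.2 ⟨by linarith [hv.1], by linarith [hv.2]⟩)]
    · rw [intervalIntegral.integral_add (Continuous.intervalIntegrable (by fun_prop) _ _)
        (Continuous.intervalIntegrable (by fun_prop) _ _), intervalIntegral.integral_const_mul,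
        intervalIntegral.integral_const, smul_eq_mul]
      ring
  · rw [intervalIntegral.integral_undef hi]
    have := intervalIntegral.integral_nonneg (μ := volume) (f := fun v => ‖f v - g v‖ ^ 2) hle
      fun _ _ => by positivity
    positivity

theorem cont_Zx (r P : ℝ) (T : Finset ℕ) (θ : ℝ) (F : ℕ → ℂ) : Continuous (Zx r P T θ F) := by
  unfold Zx; fun_prop

end ONEQx

open ONEQx in
theorem p_ONEQ (hPSV : S_PSV) (hLNG : S_LNG) (hDLQ : S_DLQ) (hONE1 : S_ONE1) :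
    S_ONEQ := by
  obtain ⟨α, b, a0, a1, hD⟩ := hDLQ
  obtain ⟨C, C0, hO⟩ := hONE1
  refine ⟨α, b, a0, fun A => ?_⟩
  filter_upwards [hD, hO, hLNG A, ev_pe 1 A (c := 1 / 8) (by norm_num), ev_pe1 20 (A + A),
    eventually_ge_atTop 2, eventually_ge_atTop (4 * C), ev_lin 8 0 one_pos (k := 13) (by norm_num)]
    with r hD hO hL e1 e2 r2 rC e3 P T q1 i hP hb hA q0 hq hqA
  have r1 : 1 ≤ r := by linarith
  have P2 : 2 ≤ P := (r2.trans (le_self_pow₀ r1 (by norm_num))).trans hP.p1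
  have P0 : 0 < P := by linarith
  have X0 := XX_pos r
  have q0' : (1 : ℝ) ≤ q1 := by exact_mod_cast q0
  have qP : (q1 : ℝ) ≤ P := by nlinarith
  have : NeZero (q1 * 2 ^ i) := ⟨by positivity⟩
  rw [one_mul, show 1 / 8 * r = r / 8 by ring] at e1
  have hα : P ^ α ≤ P := by
    simpa using Real.rpow_le_rpow_of_exponent_le (by linarith : 1 ≤ P) (by linarith : α ≤ 1)
  have α0 : 0 < P ^ α := Real.rpow_pos_of_pos P0 _
  have i0 : (0 : ℝ) < 2 ^ i := by positivity
  have hi : (2 : ℝ) ^ i ≤ Real.exp (r / 8) := by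
    push_cast at hqA
    nlinarith
  have d1 := hD P (2 ^ i * P ^ 2 / XX r) T (q1 * 2 ^ i) hP hb (hqA.trans e1)
    (by
      rw [div_mul_cancel₀ _ X0.ne']
      push_cast
      nlinarith [mul_le_mul_of_nonneg_right qP (mul_pos i0 P0).le])
    (by
      rw [div_le_iff₀ X0, Th, XX, ← Real.exp_add]
      calc _ ≤ Real.exp (r / 8) * Real.exp (r / 8) ^ 2 := by gcongr; exact hA.trans e1
        _ = Real.exp (r / 8 + (r / 8 + r / 8)) := by rw [pow_two, Real.exp_add, Real.exp_add]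
        _ ≤ _ := Real.exp_le_exp.2 (by linarith))
  have hl : ∀ l : ℕ, l.Prime → l ∣ q1 * 2 ^ i → (l : ℝ) ≤ P := fun l hl h => by
    rcases (Nat.Prime.dvd_mul hl).1 h with h | h
    · exact le_trans (by exact_mod_cast Nat.le_of_dvd q0 h) qP
    · exact le_trans (by exact_mod_cast Nat.le_of_dvd two_pos (hl.dvd_of_dvd_pow h)) P2
  have hc : (Fintype.card (DirichletCharacter ℂ (q1 * 2 ^ i)) : ℝ) ≤ r ^ A := by
    rw [(hPSV _).1]
    exact le_trans (by exact_mod_cast Nat.totient_le _) hqA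
  have e4 : r ^ A * (20 * (XX r * Real.exp (-(r / 2))) ^ 2) ≤ XX r ^ 2 / P ^ α := by
    have e : Real.exp (-(r / 2)) ^ 2 * Real.exp r = 1 := by
      rw [pow_two, ← Real.exp_add, ← Real.exp_add, ← Real.exp_zero]; congr 1; ring
    rw [le_div_iff₀ α0]
    calc _ ≤ r ^ A * (20 * (XX r * Real.exp (-(r / 2))) ^ 2) * r ^ A := by
          gcongr; exact hα.trans hA
      _ = XX r ^ 2 * Real.exp (-(r / 2)) ^ 2 * (20 * r ^ (A + A)) := by ring
      _ ≤ XX r ^ 2 * Real.exp (-(r / 2)) ^ 2 * Real.exp r := by gcongr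
      _ = _ := by rw [mul_assoc, e, mul_one]
  refine (hO P (3 / P ^ α) T q1 i hP hq (hqA.trans e1) (by positivity) ?_).trans ?_
  · refine (sum_le_sum fun χ _ => int_le (B := (XX r * Real.exp (-(r / 2))) ^ 2)
      (cont_Zx r P T _ _) (cont_Zx r P T (Th r) (ch χ)) fun v hv =>
        pow_le_pow_left₀ (norm_nonneg _) (hL P v T _ χ hP hqA hl hv) 2).trans ?_
    rw [sum_add_distrib, ← mul_sum, sum_const, card_univ, nsmul_eq_mul]
    have := mul_le_mul_of_nonneg_right hc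
      (by positivity : 0 ≤ 20 * (XX r * Real.exp (-(r / 2))) ^ 2)
    have e : 3 / P ^ α * XX r ^ 2 = 3 * (XX r ^ 2 / P ^ α) := by ring
    linarith
  · have h1 : r ^ 26 / P ≤ r ^ 26 / P ^ α := by gcongr
    have h2 : 1 ≤ r ^ 26 := one_le_pow₀ r1
    have h3 : C * (3 + r ^ 26) ≤ r ^ 27 := by
      calc _ ≤ C * (4 * r ^ 26) := by gcongr; linarith
        _ = 4 * C * r ^ 26 := by ring
        _ ≤ r * r ^ 26 := by gcongr
        _ = _ := by ring
    calc _ ≤ C * (q1 : ℝ) ^ 2 * XX r * (3 / P ^ α + r ^ 26 / P ^ α) := by gcongr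
      _ = (q1 : ℝ) ^ 2 * XX r * (C * (3 + r ^ 26)) / P ^ α := by ring
      _ ≤ _ := by gcongr

end Pool.Agent.P.MP_42fc1a_nt.EK
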