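import Pool.Agent.P.MP_42fc1a_nt.EK.IfaceB

/-! Step ORD. -/

namespace Pool.Agent.P.MP_42fc1a_nt.EK

open Finset Real Filter Topology MeasureTheory
open Pool.Agent.P.MP_e86632_nt (ee nn ee_add norm_ee ee_neg ee_zero)
open Pool.Agent.P.MP_8be758_nt.Avg (gs red ft nsq gs_pos gs_le_one gs_neg gs_anti)
open Pool.Agent.P.MP_e94e4b_nt.PF (sgm)
open Pool.Agent.P.E2
open ArithmeticFunction (vonMangoldt moebius)
open DirichletCharacter (LFunction)
open scoped Classical

namespace ORDx

end ORDx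

theorem p_ORD :
    S_ORD := by
  intro M q J c hq hc
  have : NeZero q := ⟨by omega⟩
  have hu : IsUnit (2 : ZMod q) := by
    simpa using (ZMod.isUnit_iff_coprime 2 q).2 hc.symm
  have hf : IsOfFinOrder ((2 : ZMod q) ^ M) := (hu.pow M).isOfFinOrder
  refine ⟨hf.orderOf_pos, ?_⟩
  have h1 : ((Icc 1 J).filter fun a => (2 : ZMod q) ^ (M * a) = c).card ≤
      (range (J / oo M q + 1)).card := by
    refine card_le_card_of_injOn (fun a => a / oo M q) (fun a ha => ?_) fun a ha b hb e => ?_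
    · have := (mem_Icc.1 (mem_filter.1 (mem_coe.1 ha)).1).2
      exact mem_coe.2 (mem_range.2 (Nat.lt_succ_of_le (Nat.div_le_div_right this)))
    · have h2 := ((mem_filter.1 (mem_coe.1 ha)).2).trans ((mem_filter.1 (mem_coe.1 hb)).2).symm
      rw [pow_mul, pow_mul, hf.pow_inj_mod] at h2
      exact Nat.ext_div_mod e h2
  rw [card_range] at h1
  have h2 : ((J / oo M q : ℕ) : ℝ) ≤ J / oo M q := Nat.cast_div_le
  have h3 : (((Icc 1 J).filter fun a => (2 : ZMod q) ^ (M * a) = c).card : ℝ) ≤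
      ((J / oo M q : ℕ) : ℝ) + 1 := by exact_mod_cast h1
  linarith

end Pool.Agent.P.MP_42fc1a_nt.EK
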