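import Pool.Agent.P.MP_42fc1a_nt.EK.IfaceD

/-! Step P0U. -/

namespace Pool.Agent.P.MP_42fc1a_nt.EK

open Finset Real Filter Topology MeasureTheory
open Pool.Agent.P.MP_e86632_nt (ee nn ee_add norm_ee ee_neg ee_zero)
open Pool.Agent.P.MP_8be758_nt.Avg (gs red ft nsq gs_pos gs_le_one gs_neg gs_anti)
open Pool.Agent.P.MP_e94e4b_nt.PF (sgm)
open Pool.Agent.P.E2
open ArithmeticFunction (vonMangoldt moebius)
open DirichletCharacter (LFunction)
open scoped Classical

namespace P0Ux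

end P0Ux

theorem p_P0U (hZL1 : S_ZL1) (hZL2 : S_ZL2) (hLD : S_LD) (hMEL : S_MEL) (hCSN : S_CSN) (hLDL : S_LDL) :
    S_P0U := by
  intro A
  obtain ⟨C, -, hC⟩ := hZL1
  filter_upwards [hLD, hCSN, hLDL A, ev_pe1 1 A, ev_pe1 128 7, ev_pe1 3 11, ev_pe1 C 0,
    eventually_ge_atTop 1, ev_pp 9 (show (0 : ℝ) < 4 by norm_num) (show 1 < 13 by norm_num)]
    with r hLD hCSN hL hA h7 h11 hCr hr1 h9 q _ χ w v hq hχ hw1 hw2 hv1 hv2
  simp only [pow_zero, pow_one, mul_one, one_mul] at hA hCr h9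
  have hw0 : 0 < w := (Real.exp_pos _).trans_le hw1
  have hr11 : 1 ≤ r ^ 11 := one_le_pow₀ hr1
  have hi0 : 0 < 1 / r ^ 11 := by positivity
  have hi1 : 1 / r ^ 11 ≤ 1 := (div_le_one (by positivity)).2 hr11
  have he : Real.exp r + Real.exp r ≤ Real.exp (2 * r) := by
    rw [two_mul, Real.exp_add]; nlinarith [Real.add_one_le_exp r]
  have hp := Real.exp_pos r
  have hV : 4 * π * r ^ 7 / w ≤ Real.exp (4 * r ^ 13) / 8 := by
    rw [div_le_div_iff₀ hw0 (by norm_num)]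
    have h1 : Real.exp r ≤ Real.exp (4 * r ^ 13) * Real.exp (-(8 * r)) := by
      rw [← Real.exp_add]; exact Real.exp_le_exp.2 (by linarith)
    have h2 := mul_le_mul_of_nonneg_left hw1 (Real.exp_pos (4 * r ^ 13)).le
    have h3 := mul_le_mul_of_nonneg_right Real.pi_le_four (show 0 ≤ r ^ 7 by positivity)
    linarith
  have hI := hCSN (ld χ) w v hw1 hw2 hv1 hv2 ?_ ?_
  · have hs := fun (s : ℂ) (h : s.re = 1 + 1 / r ^ 11) =>
      hZL2.2 q χ s (by linarith) (by linarith)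
    have m2 := (hMEL (fun n => ch χ n * vonMangoldt n) w v (1 + 1 / r ^ 11) 0
      hw0 (by simp) (hs _ (Complex.ofReal_re _)).1).2
    simp only [nit_zero, mul_one, add_zero] at m2
    have m3 : ∀ u : ℝ, LSeries (fun n => ch χ n * vonMangoldt n) (pt (1 + 1 / r ^ 11) u) =
        ld χ (pt (1 + 1 / r ^ 11) u) := fun u => (hs _ (pt_re _ u)).2.1.symm
    simp only [m3] at m2
    rwa [← m2] at hI
  · intro s h1 h2 h3
    rcases le_total |s.im| 3 with h4 | h4
    · obtain ⟨h5, h6⟩ := hL q χ s hq hχ h1 (by linarith) h4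
      exact ⟨h5, by linarith⟩
    · obtain ⟨h5, h6⟩ := hLD q χ s (hq.trans hA) h1 (by linarith) h4 (h3.trans hV)
      exact ⟨h5, by linarith⟩
  · intro s h1
    obtain ⟨-, -, h2, h3, -⟩ := hZL2.2 q χ s (by linarith) (by linarith)
    have h5 := hC s.re (by linarith) (by linarith)
    have h6 : s.re - 1 = 1 / r ^ 11 := by linarith
    rw [h6, div_div_eq_mul_div, div_one] at h5
    exact ⟨h3.continuousAt, by linarith⟩

end Pool.Agent.P.MP_42fc1a_nt.EK
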