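import Pool.Agent.P.MP_42fc1a_nt.EK.LibMu

/-! Step PAR. -/

namespace Pool.Agent.P.MP_42fc1a_nt.EK

open Finset Real Filter Topology MeasureTheory
open Pool.Agent.P.MP_e86632_nt (ee nn ee_add norm_ee ee_neg ee_zero)
open Pool.Agent.P.MP_8be758_nt.Avg (gs red ft nsq gs_pos gs_le_one gs_neg gs_anti)
open Pool.Agent.P.E2
open scoped Classical

namespace PARx

theorem two_le {a b : ℕ} (h : a ≤ b) : 2 ^ a ≤ 2 ^ b := Nat.pow_le_pow_right (by norm_num) h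

theorem four_eq (n : ℕ) : 4 ^ n = 2 ^ (2 * n) := by rw [pow_mul]; norm_num

theorem bN {m K P y e1 e2 c : ℝ} (hm : 0 < m) (hK : 0 ≤ K) (hy : 1 ≤ y) (hP : y ^ 2 ≤ P)
    (he1 : 0 ≤ e1) (h1 : e1 ≤ 1 / P ^ 6) (he2 : 0 ≤ e2) (h2 : e2 ≤ 1 / y ^ 10) (hc : c ≤ y / m) :
    y * c * (2 * P * e1 + K / (y ^ 2) ^ 2 + K * e2) ≤ (13 * K + 2) / m / y ^ 2 := by
  have y0 : 0 < y := by linarith
  have y2 : 1 ≤ y ^ 2 := one_le_pow₀ hy
  have P1 : 1 ≤ P := y2.trans hP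
  have a1 : P * e1 ≤ 1 / y ^ 4 := by
    calc P * e1 ≤ P * (1 / P ^ 6) := by gcongr
      _ = 1 / P ^ 5 := by field_simp
      _ ≤ 1 / P ^ 2 := by gcongr; norm_num
      _ ≤ 1 / (y ^ 2) ^ 2 := by gcongr
      _ = _ := by ring
  have a2 : e2 ≤ 1 / y ^ 4 := h2.trans (by gcongr; norm_num)
  calc _ ≤ y * (y / m) * (2 * (1 / y ^ 4) + K / (y ^ 2) ^ 2 + K * (1 / y ^ 4)) := by
        rw [mul_assoc 2 P]; gcongr
    _ = (2 * K + 2) / m / y ^ 2 := by field_simp; ring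
    _ ≤ _ := by gcongr; linarith

theorem bI {m K P y z e1 e2 c : ℝ} (hm : 0 < m) (hK : 0 ≤ K) (hz : 1 ≤ z) (hy : z ≤ y)
    (hP : y ^ 2 ≤ P) (he1 : 0 ≤ e1) (h1 : e1 ≤ 1 / P ^ 6) (he2 : 0 ≤ e2) (h2 : e2 ≤ 1 / y ^ 10)
    (hc : c ≤ y / m) :
    y * c * (2 * P * e1 + K / (y ^ 2) ^ 2 +
      ((4 * y * y ^ 2 + 3) * K * e2 + K * (4 * P ^ 4 + 1) * e1)) ≤ (13 * K + 2) / m / z ^ 2 := by
  have y1 : 1 ≤ y := hz.trans hy
  have y0 : 0 < y := by linarith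
  have y2 : 1 ≤ y ^ 2 := one_le_pow₀ y1
  have P1 : 1 ≤ P := y2.trans hP
  have P4 : 1 ≤ P ^ 4 := one_le_pow₀ P1
  have y3 : 1 ≤ y * y ^ 2 := by nlinarith
  have a0 : P ^ 4 * e1 ≤ 1 / y ^ 4 := by
    calc P ^ 4 * e1 ≤ P ^ 4 * (1 / P ^ 6) := by gcongr
      _ = 1 / P ^ 2 := by field_simp
      _ ≤ 1 / (y ^ 2) ^ 2 := by gcongr
      _ = _ := by ring
  have a1 : P * e1 ≤ 1 / y ^ 4 :=
    le_trans (by gcongr; exact le_self_pow₀ P1 (by norm_num)) a0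
  have a2 : (4 * P ^ 4 + 1) * e1 ≤ 5 * (1 / y ^ 4) := by nlinarith
  have a3 : (4 * y * y ^ 2 + 3) * e2 ≤ 7 * (1 / y ^ 4) := by
    calc _ ≤ (7 * (y * y ^ 2)) * (1 / y ^ 10) := by gcongr; linarith
      _ = 7 * (1 / y ^ 7) := by field_simp
      _ ≤ _ := by gcongr; norm_num
  have a4 : (4 * y * y ^ 2 + 3) * K * e2 + K * (4 * P ^ 4 + 1) * e1 ≤ K * (12 * (1 / y ^ 4)) := by
    nlinarith
  calc _ ≤ y * (y / m) * (2 * (1 / y ^ 4) + K / (y ^ 2) ^ 2 + K * (12 * (1 / y ^ 4))) := by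
        rw [mul_assoc 2 P]; gcongr
    _ = (13 * K + 2) / m / y ^ 2 := by field_simp; ring
    _ ≤ _ := by gcongr

end PARx

open PARx in
theorem p_PAR :
    S_PAR := by
  intro M lam hM l0 l1
  obtain ⟨μ, hμ⟩ : ∃ μ, μ = lam ^ 2 / 16 := ⟨_, rfl⟩
  have mc := mu_ceil l0 l1
  rw [← hμ] at mc ⊢
  have hl : lam ^ 2 = 16 * μ := by rw [hμ]; ring
  have m0 : 0 < μ := by rw [hμ]; positivity
  obtain ⟨t0, ht0⟩ := exists_nat_ge (20 / μ)
  rw [div_le_iff₀ m0] at ht0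
  obtain ⟨b0, hb0⟩ : ∃ b0 : ℕ, b0 = 2 ^ t0 := ⟨_, rfl⟩
  have b01 : 1 ≤ b0 := hb0 ▸ Nat.one_le_two_pow
  obtain ⟨g0, hg0⟩ : ∃ g0 : ℕ, g0 = 10 * M * b0 * b0 + 11 := ⟨_, rfl⟩
  obtain ⟨g1, hg1⟩ := exists_nat_ge (g0 / μ)
  rw [div_le_iff₀ m0] at hg1
  have g11 : 1 ≤ g1 := by
    rcases Nat.eq_zero_or_pos g1 with rfl | h
    · have : (0 : ℝ) < g0 := by rw [hg0]; positivity
      rw [Nat.cast_zero, zero_mul] at hg1; linarith
    · exact h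
  refine ⟨b0, M * g1 + 22 + M * b0 * (10 * M * b0) + 20 * M * b0, fun D hD => ?_⟩
  obtain ⟨t1, ht1⟩ := exists_nat_ge (6 * D / μ)
  rw [div_le_iff₀ m0] at ht1
  obtain ⟨c1, hc1⟩ := exists_nat_ge ((g1 + 20 * M * b0 + 1) / μ)
  rw [div_le_iff₀ m0] at hc1
  obtain ⟨b1, hb1⟩ : ∃ b1 : ℕ, b1 = 2 ^ t1 + c1 := ⟨_, rfl⟩
  have b12 : 2 ^ t1 ≤ b1 := hb1 ▸ Nat.le_add_right _ _
  have b11 : 1 ≤ b1 := Nat.one_le_two_pow.trans b12
  have bb : b1 ≤ b0 * b1 := Nat.le_mul_of_pos_left _ b01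
  have bc : (c1 : ℝ) ≤ b1 := by exact_mod_cast hb1 ▸ Nat.le_add_left _ _
  have bc' : (g1 : ℝ) + 20 * M * b0 + 1 ≤ b1 * μ := hc1.trans (by gcongr)
  obtain ⟨K, hK⟩ : ∃ K : ℕ, K = M * (b0 * b1) + M + 3 + 30 * M * b0 := ⟨_, rfl⟩
  refine ⟨b1, K, g0, g1, (13 * K + 2) / μ ^ 2, fun u hu => ?_⟩
  have u0 : (0 : ℝ) < u := by exact_mod_cast hu
  have D1 : 1 ≤ D := by omega
  have hDu := Nat.mul_le_mul_right u hD
  have e1 : (1 / (b0 * b1 : ℕ) : ℝ) ^ ⌈μ * u⌉₊ ≤ 1 / ((2 ^ (D * u) : ℕ) : ℝ) ^ 6 := by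
    refine (atom_le (t := t1) (E := D * u * 6) (b12.trans bb) ?_).trans_eq ?_
    · have := mul_le_mul_of_nonneg_right ht1 u0.le
      push_cast; linarith
    · push_cast; rw [← pow_mul]
  have e2 : ∀ n : ℕ, (1 / (b0 : ℝ)) ^ ⌈μ / 2 * n⌉₊ ≤ 1 / ((2 : ℝ) ^ n) ^ 10 := fun n => by
    refine (atom_le (t := t0) (E := n * 10) hb0.ge ?_).trans_eq ?_
    · have := mul_le_mul_of_nonneg_right ht0 (Nat.cast_nonneg (α := ℝ) n)
      push_cast; linarith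
    · rw [← pow_mul]
  have Mb : 1 ≤ M * b0 := Nat.mul_pos (by omega) b01
  have Mbu := Nat.mul_le_mul_right u Mb
  have Mu := Nat.mul_le_mul_right u hM
  have Mu' := Nat.mul_le_mul_left M hu
  have w1 := Nat.zero_le (M * g1 * u)
  have w2 := Nat.zero_le (M * b0 * (10 * M * b0) * u)
  have w3 := Nat.zero_le (M * b0 * u)
  have n01 : 10 * u ≤ 10 * M * b0 * u := by linarith
  have dP : 4 ^ (10 * M * b0 * u) ≤ 2 ^ (D * u) := by
    rw [four_eq]; exact two_le (by linarith)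
  have dP' : ((2 : ℝ) ^ (10 * M * b0 * u)) ^ 2 ≤ ((2 ^ (D * u) : ℕ) : ℝ) := by
    rw [four_eq, mul_comm 2, pow_mul] at dP; exact_mod_cast dP
  have f4 : ∀ n : ℕ, (4 : ℝ) ^ n = (2 ^ n) ^ 2 := fun n => by
    rw [← pow_mul, mul_comm, pow_mul]; norm_num
  have f20 : (2 : ℝ) ^ (20 * u) = (2 ^ (10 * u)) ^ 2 := by rw [← pow_mul]; congr 1; ring
  have z1 : (1 : ℝ) ≤ 2 ^ (10 * u) := one_le_pow₀ (by norm_num)
  have z2 : (2 : ℝ) ^ (10 * u) ≤ 2 ^ (10 * M * b0 * u) := pow_le_pow_right₀ (by norm_num) n01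
  refine ⟨⟨l0, l1, hμ, hM, b01, b11, by omega, n01, ?_, Nat.mul_pos g11 hu, ?_, ?_, ?_, ?_, ?_, ?_,
    dP, ?_, ?_, ?_⟩, ?_⟩
  · exact two_le (a := 1) (Nat.mul_pos D1 hu)
  · have := mul_le_mul_of_nonneg_right hg1 u0.le
    rw [hl]; push_cast; linarith
  · have h1 : (b1 : ℝ) ≤ b0 * b1 := by exact_mod_cast bb
    have h2 : (g1 : ℝ) ≤ b0 * b1 * μ := by
      have : (0 : ℝ) ≤ 20 * M * b0 := by positivity
      have := mul_le_mul_of_nonneg_right h1 m0.le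
      linarith
    have := mul_le_mul_of_nonneg_right h2 u0.le
    rw [hl]; push_cast; linarith
  · have h1 : (0 : ℝ) ≤ g1 := by positivity
    have h2 : (20 : ℝ) * M * b0 < b1 * μ := by linarith
    have := mul_lt_mul_of_pos_right h2 u0
    push_cast; linarith
  · rw [four_eq, ← pow_succ', ← pow_add]
    exact Nat.pow_lt_pow_right (by norm_num) (by linarith)
  · rw [← pow_succ', four_eq, ← pow_add]
    exact two_le (by rw [hg0]; linarith)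
  · exact two_le (by linarith)
  · have h1 : 1 + 2 * 2 ^ (M * b0 * (10 * u)) * 4 ^ (10 * M * b0 * u) ≤ 2 ^ (30 * M * b0 * u + 2) := by
      rw [four_eq, mul_assoc 2, ← pow_add, show M * b0 * (10 * u) + 2 * (10 * M * b0 * u) =
        30 * M * b0 * u by ring, pow_add]
      have : 1 ≤ 2 ^ (30 * M * b0 * u) := Nat.one_le_two_pow
      omega
    refine (Nat.mul_le_mul_left _ h1).trans ?_
    rw [← pow_add, ← pow_mul]
    refine two_le (le_trans ?_ (Nat.mul_le_mul_right K (Nat.le_mul_of_pos_left u D1)))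
    rw [hK]; linarith
  · rw [div_eq_mul_one_div, f4, f20]
    exact bN (by positivity) (by positivity) z1 (le_trans (by gcongr) dP') (by positivity) e1
      (by positivity) (e2 _) (mc _)
  · rw [div_eq_mul_one_div, f4, f20, show M * b0 * (10 * u) = 10 * M * b0 * u by ring]
    exact bI (by positivity) (by positivity) z1 z2 dP' (by positivity) e1
      (by positivity) (e2 _) (mc _)
  · have h1 : (1 : ℝ) ≤ 2 ^ (D * u) := one_le_pow₀ (by norm_num)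
    push_cast at e1 ⊢
    calc _ ≤ (2 : ℝ) ^ (D * u) * (1 / (2 ^ (D * u)) ^ 6) := by gcongr
      _ ≤ 1 := by
        rw [mul_one_div, div_le_one (by positivity)]
        exact le_self_pow₀ h1 (by norm_num)

end Pool.Agent.P.MP_42fc1a_nt.EK
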