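import Pool.Agent.P.MP_42fc1a_nt.EK.IfaceC

/-! Step PARS. -/

namespace Pool.Agent.P.MP_42fc1a_nt.EK

open Finset Real Filter Topology MeasureTheory
open Pool.Agent.P.MP_e86632_nt (ee nn ee_add norm_ee ee_neg ee_zero)
open Pool.Agent.P.MP_8be758_nt.Avg (gs red ft nsq gs_pos gs_le_one gs_neg gs_anti)
open Pool.Agent.P.MP_e94e4b_nt.PF (sgm)
open Pool.Agent.P.E2
open ArithmeticFunction (vonMangoldt moebius)
open DirichletCharacter (LFunction)
open scoped Classical

namespace PARSx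

theorem pars {q : ℕ} (hq : 1 ≤ q) (Y : ℕ → ℂ) :
    ∑ A ∈ range q, ‖∑ c ∈ range q, ee ((A : ℝ) / q * c) * Y c‖ ^ 2 =
      q * ∑ c ∈ range q, ‖Y c‖ ^ 2 := by
  have h1 : ∀ A : ℕ, ((‖∑ c ∈ range q, ee ((A : ℝ) / q * c) * Y c‖ ^ 2 : ℝ) : ℂ) =
      ∑ c ∈ range q, ∑ d ∈ range q, Y c * (starRingEnd ℂ) (Y d) *
        ee ((A : ℝ) / q * (((c : ℤ) - d : ℤ) : ℝ)) := fun A => by
    rw [Complex.ofReal_pow, ← Complex.mul_conj', map_sum, sum_mul_sum]
    refine sum_congr rfl fun c _ => sum_congr rfl fun d _ => ?_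
    have : (A : ℝ) / q * (((c : ℤ) - d : ℤ) : ℝ) = (A : ℝ) / q * c + -((A : ℝ) / q * d) := by
      push_cast; ring
    rw [this, ee_add, ee_neg, map_mul]; ring
  apply Complex.ofReal_injective
  rw [Complex.ofReal_sum]
  simp only [h1]
  rw [sum_comm]
  push_cast
  rw [mul_sum]
  refine sum_congr rfl fun c hc => ?_
  rw [sum_comm, sum_eq_single c]
  · rw [← mul_sum, Complex.mul_conj']
    simp [mul_comm]
  · intro d hd hdc
    have h2 := MP_8be758_nt.Avg.t_FAR.2.1 q ((c : ℤ) - d) hq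
    have h3 : ¬ (q : ℤ) ∣ (c : ℤ) - d := fun h => by
      have h4 := mem_range.1 hc
      have h5 := mem_range.1 hd
      have := Int.eq_zero_of_abs_lt_dvd h (abs_lt.2 ⟨by omega, by omega⟩)
      omega
    rw [if_neg h3] at h2
    push_cast at h2
    rw [← mul_sum, h2, mul_zero]
  · intro h; exact absurd hc h

theorem split {q : ℕ} (hq : 1 ≤ q) (I : Finset ℕ) (b : ℕ → ℂ) (A : ℕ) (β : ℝ) :
    ft I b ((A : ℝ) / q + β) = ∑ c ∈ range q, ee ((A : ℝ) / q * c) *
      ft (I.filter fun m => m ≡ c [MOD q]) b β := by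
  have hq0 : (q : ℝ) ≠ 0 := by exact_mod_cast (by omega : q ≠ 0)
  unfold ft
  rw [← sum_fiberwise_of_maps_to (s := I) (t := range q) (g := fun m => m % q)
    fun m _ => mem_range.2 (Nat.mod_lt _ hq)]
  refine sum_congr rfl fun c hc => ?_
  have hc' : c % q = c := Nat.mod_eq_of_lt (mem_range.1 hc)
  rw [mul_sum]
  refine sum_congr (filter_congr fun m _ => by rw [Nat.ModEq, hc']) fun m hm => ?_
  have h1 : m % q = c := by
    have := (mem_filter.1 hm).2
    rwa [Nat.ModEq, hc'] at this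
  have h2 : (m : ℝ) = q * (m / q : ℕ) + c := by
    rw [← h1]; exact_mod_cast (Nat.div_add_mod m q).symm
  have h3 : (m : ℝ) * ((A : ℝ) / q + β) =
      ((A : ℝ) / q * c + m * β) + ((A * (m / q : ℕ) : ℤ) : ℝ) := by
    have h4 : (m : ℝ) * ((A : ℝ) / q) = (A : ℝ) / q * c + A * (m / q : ℕ) := by
      conv_lhs => rw [h2]
      field_simp
      ring
    rw [mul_add, h4, Int.cast_mul, Int.cast_natCast, Int.cast_natCast]; ring
  rw [h3, MP_e86632_nt.ee_add_int, ee_add]; ring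

end PARSx

theorem p_PARS (hGAL : S_GAL) :
    S_PARS := by
  obtain ⟨C, hC, h⟩ := hGAL
  refine ⟨C, hC, fun I b q a η hq ha hη haη => ?_⟩
  have h1 : ∑ A ∈ range q, ∫ β in (-η)..η, ‖ft I b ((A : ℝ) / q + β)‖ ^ 2 =
      q * ∑ c ∈ range q, ∫ β in (-η)..η, ‖ft (I.filter fun m => m ≡ c [MOD q]) b β‖ ^ 2 := by
    rw [← intervalIntegral.integral_finsetSum fun A _ =>
        Continuous.intervalIntegrable (by fun_prop) _ _,
      ← intervalIntegral.integral_finsetSum fun c _ =>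
        Continuous.intervalIntegrable (by fun_prop) _ _, ← intervalIntegral.integral_const_mul]
    refine intervalIntegral.integral_congr fun β _ => ?_
    simp only [PARSx.split hq]
    exact PARSx.pars hq _
  rw [h1, mul_comm C, mul_assoc, mul_sum _ _ C]
  exact mul_le_mul_of_nonneg_left (sum_le_sum fun c _ => h _ b a η ha hη haη) (Nat.cast_nonneg q)

end Pool.Agent.P.MP_42fc1a_nt.EK
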