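import Pool.Agent.P.MP_42fc1a_nt.EK.IfaceA

/-! Step PD. -/

namespace Pool.Agent.P.MP_42fc1a_nt.EK

open Finset Real Filter Topology MeasureTheory
open Pool.Agent.P.MP_e86632_nt (ee nn ee_add norm_ee ee_neg ee_zero)
open Pool.Agent.P.MP_8be758_nt.Avg (gs red ft nsq gs_pos gs_le_one gs_neg gs_anti)
open Pool.Agent.P.MP_e94e4b_nt.PF (sgm)
open Pool.Agent.P.E2
open ArithmeticFunction (vonMangoldt moebius)
open DirichletCharacter (LFunction)
open scoped Classical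

theorem p_PD :
    S_PD := by
  intro P K V hP hV h
  set S := (Pn P).filter fun p : ℕ => (p : ℤ) ∣ V
  have m : ∀ p ∈ S, P < p ∧ p.Prime ∧ p ∣ V.natAbs := fun p hp => by
    obtain ⟨a, b⟩ := mem_filter.1 hp
    obtain ⟨c, d⟩ := mem_filter.1 a
    exact ⟨(mem_Ioc.1 c).1, d, Int.natCast_dvd.1 b⟩
  have h1 : ∏ p ∈ S, p ≤ V.natAbs := Nat.le_of_dvd (Int.natAbs_pos.2 hV)
    (prod_primes_dvd _ (fun p hp => (m p hp).2.1.prime) fun p hp => (m p hp).2.2)
  have h2 : P ^ S.card ≤ ∏ p ∈ S, p := pow_card_le_prod S _ P fun p hp => (m p hp).1.le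
  have h3 : V.natAbs ≤ P ^ K := by
    rw [← Int.natCast_natAbs] at h
    exact_mod_cast h
  exact (Nat.pow_le_pow_iff_right hP).1 (h2.trans (h1.trans h3))

end Pool.Agent.P.MP_42fc1a_nt.EK
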