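import Pool.Agent.P.MP_42fc1a_nt.EK.IfaceA

/-! Step PICK. -/

namespace Pool.Agent.P.MP_42fc1a_nt.EK

open Finset Real Filter Topology MeasureTheory
open Pool.Agent.P.MP_e86632_nt (ee nn ee_add norm_ee ee_neg ee_zero)
open Pool.Agent.P.MP_8be758_nt.Avg (gs red ft nsq gs_pos gs_le_one gs_neg gs_anti)
open Pool.Agent.P.MP_e94e4b_nt.PF (sgm)
open Pool.Agent.P.E2
open ArithmeticFunction (vonMangoldt moebius)
open DirichletCharacter (LFunction)
open scoped Classical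

namespace PICKx

theorem low {M b : ℕ} {ω : ℕ → ℂ} {z μ : ℝ} (hb : 1 ≤ b) (hμ : 0 ≤ μ) {R : Finset ℕ}
    (h : ∀ k ∈ R, μ * b ≤ ‖Gw M ω (Bl b k) z‖) : μ ^ (2 * R.card) ≤ FF M b ω R z := by
  have hb' : (0 : ℝ) < b := by exact_mod_cast hb
  rw [pow_mul, ← prod_const, FF]
  exact prod_le_prod (fun _ _ => by positivity) fun k hk =>
    pow_le_pow_left₀ hμ ((le_div_iff₀ hb').2 (h k hk)) 2

end PICKx

theorem p_PICK (hBLK : S_BLK) (hWIN : S_WIN) :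
    S_PICK := by
  intro M b0 b1 u Lx len ω z μ hω h0 h1 hμ hl hL h
  have h01 : 1 ≤ b0 * b1 := Nat.mul_pos h0 h1
  obtain ⟨R, r1, r2⟩ := exists_subset_card_eq (Nat.ceil_le.2 (hBLK M (b0 * b1) u ω z μ hω h01 hμ.le h))
  have a := hBLK M b0 (b1 * u) ω z μ hω h0 hμ.le (by rwa [← mul_assoc])
  obtain ⟨i, i1, i2⟩ := hWIN _ len (b1 * u) Lx (μ / 2) (filter_subset _ _) hl (by positivity)
    (lt_of_lt_of_le (by linarith) a)
  obtain ⟨R0, s1, s2⟩ := exists_subset_card_eq (Nat.ceil_le.2 i2)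
  refine ⟨R, mem_powersetCard.2 ⟨r1.trans (filter_subset _ _), r2⟩, i, i1, R0,
    mem_powersetCard.2 ⟨s1.trans inter_subset_right, s2⟩, ?_⟩
  have c1 := PICKx.low h01 hμ.le fun k hk => (mem_filter.1 (r1 hk)).2
  have c2 := PICKx.low h0 hμ.le fun k hk => (mem_filter.1 (mem_inter.1 (s1 hk)).1).2
  rw [r2] at c1
  rw [s2] at c2
  exact mul_le_mul c1 c2 (by positivity) (le_trans (by positivity) c1)

end Pool.Agent.P.MP_42fc1a_nt.EK
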