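import Pool.Agent.P.MP_42fc1a_nt.EK.IfaceD

/-! Step PR0. -/

namespace Pool.Agent.P.MP_42fc1a_nt.EK

open Finset Real Filter Topology MeasureTheory
open Pool.Agent.P.MP_e86632_nt (ee nn ee_add norm_ee ee_neg ee_zero)
open Pool.Agent.P.MP_8be758_nt.Avg (gs red ft nsq gs_pos gs_le_one gs_neg gs_anti)
open Pool.Agent.P.MP_e94e4b_nt.PF (sgm)
open Pool.Agent.P.E2
open ArithmeticFunction (vonMangoldt moebius)
open DirichletCharacter (LFunction)
open scoped Classical

namespace PR0x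

open DirichletCharacter

theorem zeta_bd : ∃ C : ℝ, ∀ s : ℂ, 1 < s.re → s.re ≤ 2 → |s.im| ≤ 8 →
    ‖logDeriv riemannZeta s‖ ≤ C + ‖(s - 1)⁻¹‖ := by
  have hz : LFunctionTrivChar 1 = riemannZeta := LFunction_modOne_eq
  have hK : IsCompact (Set.Icc (1 : ℝ) 2 ×ℂ Set.Icc (-8 : ℝ) 8) :=
    isCompact_Icc.reProdIm isCompact_Icc
  obtain ⟨C, hC⟩ := hK.exists_bound_of_continuousOn
    ((continuousOn_neg_logDeriv_LFunctionTrivChar₁ 1).mono fun s hs => Or.inr (by
      rw [hz]; exact riemannZeta_ne_zero_of_one_le_re hs.1.1))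
  refine ⟨C, fun s h1 h2 h3 => ?_⟩
  have hs : s ≠ 1 := fun e => by simp [e] at h1
  have h4 := hC s ⟨⟨h1.le, h2⟩, abs_le.1 h3⟩
  have h5 := riemannZeta_ne_zero_of_one_le_re h1.le
  have h6 : s - 1 ≠ 0 := sub_ne_zero.2 hs
  rw [deriv_LFunctionTrivChar₁_apply_of_ne_one 1 hs, LFunctionTrivChar₁,
    Function.update_of_ne hs, hz] at h4
  have e : logDeriv riemannZeta s =
      -(-((s - 1) * deriv riemannZeta s + riemannZeta s) / ((s - 1) * riemannZeta s)) -
        (s - 1)⁻¹ := by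
    rw [logDeriv_apply]; field_simp; ring
  rw [e]
  refine (norm_sub_le _ _).trans ?_
  rw [norm_neg]
  linarith

theorem fac_der {p : ℕ} (hp : p.Prime) (s : ℂ) :
    HasDerivAt (fun s : ℂ => 1 - (p : ℂ) ^ (-s)) ((p : ℂ) ^ (-s) * Complex.log p) s := by
  have h0 : (p : ℂ) ≠ 0 := by exact_mod_cast hp.ne_zero
  have := ((hasDerivAt_neg s).const_cpow (c := (p : ℂ)) (Or.inl h0)).const_sub 1
  exact this.congr_deriv (by ring)

theorem fac_half {p : ℕ} (hp : p.Prime) {s : ℂ} (hs : 1 < s.re) : ‖(p : ℂ) ^ (-s)‖ ≤ 1 / 2 := by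
  have h2 : (2 : ℝ) ≤ p := by exact_mod_cast hp.two_le
  rw [Complex.norm_natCast_cpow_of_pos hp.pos, Complex.neg_re]
  refine (Real.rpow_le_rpow_of_exponent_le (by linarith) (by linarith : -s.re ≤ -1)).trans ?_
  rw [Real.rpow_neg_one, ← one_div]
  exact one_div_le_one_div_of_le (by norm_num) h2

theorem fac_low {p : ℕ} (hp : p.Prime) {s : ℂ} (hs : 1 < s.re) :
    1 / 2 ≤ ‖1 - (p : ℂ) ^ (-s)‖ := by
  have h1 := fac_half hp hs
  have h2 := norm_sub_norm_le (1 : ℂ) ((p : ℂ) ^ (-s))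
  rw [norm_one] at h2
  linarith

theorem fac_bd {p : ℕ} (hp : p.Prime) {s : ℂ} (hs : 1 < s.re) :
    ‖logDeriv (fun s : ℂ => 1 - (p : ℂ) ^ (-s)) s‖ ≤ Real.log p := by
  have h1 := fac_half hp hs
  have h2 := fac_low hp hs
  have h3 : 0 ≤ Real.log p := Real.log_natCast_nonneg p
  rw [logDeriv_apply, (fac_der hp s).deriv, norm_div, norm_mul, ← Complex.natCast_log,
    Complex.norm_real, Real.norm_of_nonneg h3, div_le_iff₀ (by linarith)]
  nlinarith

theorem ld_bd (q : ℕ) [NeZero q] {s : ℂ} (hs : 1 < s.re) :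
    ‖ld (1 : DirichletCharacter ℂ q) s‖ ≤ Real.log q + ‖logDeriv riemannZeta s‖ := by
  have h1 : s ≠ 1 := fun e => by simp [e] at hs
  have hne : ∀ p ∈ q.primeFactors, 1 - (p : ℂ) ^ (-s) ≠ 0 := fun p hp e => by
    have := fac_low (Nat.prime_of_mem_primeFactors hp) hs
    rw [e, norm_zero] at this
    norm_num at this
  have hd : ∀ p ∈ q.primeFactors, DifferentiableAt ℂ (fun s : ℂ => 1 - (p : ℂ) ^ (-s)) s :=
    fun p hp => (fac_der (Nat.prime_of_mem_primeFactors hp) s).differentiableAt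
  have e1 : LFunction (1 : DirichletCharacter ℂ q) =ᶠ[𝓝 s]
      fun w => (∏ p ∈ q.primeFactors, (1 - (p : ℂ) ^ (-w))) * riemannZeta w := by
    filter_upwards [isOpen_ne.mem_nhds h1] with w hw
    exact LFunctionTrivChar_eq_mul_riemannZeta hw
  have e2 : ld (1 : DirichletCharacter ℂ q) s = -logDeriv
      (fun w => (∏ p ∈ q.primeFactors, (1 - (p : ℂ) ^ (-w))) * riemannZeta w) s := by
    rw [ld, logDeriv_apply, e1.deriv_eq, e1.eq_of_nhds]
  rw [e2, norm_neg, logDeriv_mul (f := fun w => ∏ p ∈ q.primeFactors, (1 - (p : ℂ) ^ (-w))) s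
    (prod_ne_zero_iff.2 hne) (riemannZeta_ne_zero_of_one_le_re hs.le)
    (DifferentiableAt.fun_finsetProd hd) (differentiableAt_riemannZeta h1),
    logDeriv_prod (f := fun (p : ℕ) (w : ℂ) => 1 - (p : ℂ) ^ (-w)) hne hd]
  refine (norm_add_le _ _).trans (add_le_add ((norm_sum_le _ _).trans ?_) le_rfl)
  refine (sum_le_sum fun p hp => fac_bd (Nat.prime_of_mem_primeFactors hp) hs).trans ?_
  rw [← Real.log_prod (fun p hp => by
    exact_mod_cast (Nat.prime_of_mem_primeFactors hp).ne_zero), ← Nat.cast_prod]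
  refine Real.log_le_log ?_ ?_
  · exact_mod_cast prod_pos fun p hp => (Nat.prime_of_mem_primeFactors hp).pos
  · exact_mod_cast Nat.le_of_dvd (NeZero.pos q) (Nat.prod_primeFactors_dvd q)

end PR0x

theorem p_PR0 :
    S_PR0 := by
  intro A
  obtain ⟨C, hC⟩ := PR0x.zeta_bd
  filter_upwards [eventually_ge_atTop (3 : ℝ), eventually_ge_atTop C,
    eventually_ge_atTop (A : ℝ)] with r r3 rC rA q _ s hq h1 h2 h3 h4
  have r0 : 0 < r := by linarith
  have q0 : (0 : ℝ) < q := by exact_mod_cast NeZero.pos q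
  have a1 := PR0x.ld_bd q h1
  have a2 := hC s h1 h2 h4
  have a3 : ‖(s - 1)⁻¹‖ ≤ r ^ 4 := by
    have b1 : 1 / r ^ 4 ≤ ‖s - 1‖ := h3.trans (by simpa using Complex.abs_im_le_norm (s - 1))
    rw [norm_inv, ← one_div]
    exact (one_div_le (lt_of_lt_of_le (by positivity) b1) (by positivity)).2 b1
  have a4 : Real.log q ≤ r * r := by
    refine (Real.log_le_log q0 hq).trans ?_
    rw [Real.log_pow]
    exact mul_le_mul rA ((Real.log_le_sub_one_of_pos r0).trans (by linarith))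
      (Real.log_nonneg (by linarith)) r0.le
  have a5 : r ≤ r ^ 4 := le_self_pow₀ (by linarith) (by norm_num)
  have a6 : r * r ≤ r ^ 4 := by
    rw [← pow_two]; exact pow_le_pow_right₀ (by linarith) (by norm_num)
  have a7 : 3 * r ^ 4 ≤ r ^ 5 := by
    rw [pow_succ' r 4]; exact mul_le_mul_of_nonneg_right r3 (by positivity)
  linarith

end Pool.Agent.P.MP_42fc1a_nt.EK
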