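import Pool.Agent.P.MP_42fc1a_nt.EK.IfaceB

/-! Step PRS. -/

namespace Pool.Agent.P.MP_42fc1a_nt.EK

open Finset Real Filter Topology MeasureTheory
open Pool.Agent.P.MP_e86632_nt (ee nn ee_add norm_ee ee_neg ee_zero)
open Pool.Agent.P.MP_8be758_nt.Avg (gs red ft nsq gs_pos gs_le_one gs_neg gs_anti)
open Pool.Agent.P.MP_e94e4b_nt.PF (sgm)
open Pool.Agent.P.E2
open ArithmeticFunction (vonMangoldt moebius)
open DirichletCharacter (LFunction)
open scoped Classical

theorem p_PRS (hMER : S_MER) :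
    S_PRS := by
  refine ⟨Real.log 300 + 1, fun n T hn hT hc => ?_⟩
  have n0 : 0 < n := by linarith
  have h1 : 1 ≤ Real.log n := by
    rw [Real.le_log_iff_exp_le n0]
    linarith [Real.exp_one_lt_d9]
  have h2 := hMER (Real.log n) (T.filter fun l : ℕ => (l : ℝ) ≤ n) h1 fun l hl =>
    ⟨hT l (mem_filter.1 hl).1, by rw [Real.exp_log n0]; exact (mem_filter.1 hl).2⟩
  rw [← Real.le_log_iff_exp_le (by linarith), Real.log_mul (by norm_num) (by linarith)] at h2
  have h3 : ∑ l ∈ T.filter fun l : ℕ => ¬ (l : ℝ) ≤ n, 1 / (l : ℝ) ≤ 1 := by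
    refine (sum_le_card_nsmul _ _ (1 / n) fun l hl =>
      one_div_le_one_div_of_le n0 (not_le.1 (mem_filter.1 hl).2).le).trans ?_
    rw [nsmul_eq_mul, mul_one_div, div_le_one n0]
    exact le_trans (by exact_mod_cast card_filter_le _ _) hc
  rw [← sum_filter_add_sum_filter_not T fun l : ℕ => (l : ℝ) ≤ n]
  linarith

end Pool.Agent.P.MP_42fc1a_nt.EK
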