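import Pool.Agent.P.MP_42fc1a_nt.EK.IfaceC

/-! Step PSV. -/

namespace Pool.Agent.P.MP_42fc1a_nt.EK

open Finset Real Filter Topology MeasureTheory
open Pool.Agent.P.MP_e86632_nt (ee nn ee_add norm_ee ee_neg ee_zero)
open Pool.Agent.P.MP_8be758_nt.Avg (gs red ft nsq gs_pos gs_le_one gs_neg gs_anti)
open Pool.Agent.P.MP_e94e4b_nt.PF (sgm)
open Pool.Agent.P.E2
open ArithmeticFunction (vonMangoldt moebius)
open DirichletCharacter (LFunction)
open scoped Classical

namespace PSVx

theorem card_red (q : ℕ) : (red q).card = q.totient := by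
  rw [Nat.totient_eq_card_coprime, red]
  congr 1
  ext b
  simp [Nat.coprime_comm]

theorem unit_red {q b : ℕ} (h : b ∈ red q) : IsUnit (b : ZMod q) :=
  (ZMod.isUnit_iff_coprime b q).2 (mem_filter.1 h).2

theorem off {q m : ℕ} (χ : DirichletCharacter ℂ q) (h : ¬ m.Coprime q) : ch χ m = 0 :=
  χ.map_nonunit fun e => h ((ZMod.isUnit_iff_coprime m q).1 e)

theorem conj_ch {q : ℕ} (χ : DirichletCharacter ℂ q) {x : ZMod q} (h : IsUnit x) :
    (starRingEnd ℂ) (χ x) = χ x⁻¹ := by
  have h1 : ‖χ x‖ = 1 := by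
    obtain ⟨u, rfl⟩ := h
    exact χ.unit_norm_eq_one u
  have h2 : χ x⁻¹ * χ x = 1 := by rw [← map_mul, ZMod.inv_mul_of_unit x h, map_one]
  have h3 : (starRingEnd ℂ) (χ x) * χ x = 1 := by
    rw [Complex.conj_mul', h1]; simp
  rw [eq_inv_of_mul_eq_one_left h2, eq_inv_of_mul_eq_one_left h3]

end PSVx

theorem p_PSV :
    S_PSV := by
  intro q _
  have hq : 0 < q := NeZero.pos q
  refine ⟨?_, fun χ => ?_, fun Y => ?_, fun I f χ => ?_⟩
  · rw [← Nat.card_eq_fintype_card,
      DirichletCharacter.card_eq_totient_of_hasEnoughRootsOfUnity ℂ q]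
  · unfold kp
    split_ifs with h
    · subst h
      have e : ∀ c ∈ red q, ch (1 : DirichletCharacter ℂ q) c = 1 := fun c hc =>
        MulChar.one_apply (PSVx.unit_red hc)
      rw [sum_congr rfl e]
      simp [PSVx.card_red]
    · rw [zero_mul, ← MulChar.sum_eq_zero_of_ne_one h, red,
        sum_filter_of_ne fun c _ hc => by_contra fun e => hc (PSVx.off χ e)]
      refine sum_nbij' (fun c => (c : ZMod q)) (fun x => x.val) (fun _ _ => mem_univ _)
        (fun x _ => mem_range.2 (ZMod.val_lt x)) (fun c hc => ZMod.val_cast_of_lt (mem_range.1 hc))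
        (fun x _ => ZMod.natCast_zmod_val x) fun _ _ => rfl
  · apply Complex.ofReal_injective
    push_cast
    simp only [← Complex.conj_mul', map_sum, map_mul]
    have e : ∀ χ : DirichletCharacter ℂ q,
        (∑ c ∈ red q, (starRingEnd ℂ) (Y c) * (starRingEnd ℂ) (ch χ c)) *
          ∑ c ∈ red q, Y c * ch χ c = ∑ c ∈ red q, ∑ d ∈ red q,
            (starRingEnd ℂ) (Y c) * Y d * (χ (c : ZMod q)⁻¹ * χ (d : ZMod q)) := fun χ => by
      rw [sum_mul_sum]
      refine sum_congr rfl fun c hc => sum_congr rfl fun d _ => ?_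
      rw [ch, ch, PSVx.conj_ch χ (PSVx.unit_red hc)]
      ring
    simp only [e]
    rw [sum_comm, mul_sum]
    refine sum_congr rfl fun c hc => ?_
    rw [sum_comm, sum_eq_single_of_mem c hc]
    · rw [← mul_sum, DirichletCharacter.sum_char_inv_mul_char_eq ℂ (PSVx.unit_red hc), if_pos rfl,
        mul_comm]
    · intro d hd hne
      rw [← mul_sum, DirichletCharacter.sum_char_inv_mul_char_eq ℂ (PSVx.unit_red hc), if_neg,
        mul_zero]
      intro h
      rw [ZMod.natCast_eq_natCast_iff', Nat.mod_eq_of_lt (mem_range.1 (mem_filter.1 hc).1),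
        Nat.mod_eq_of_lt (mem_range.1 (mem_filter.1 hd).1)] at h
      exact hne h.symm
  · rw [← sum_fiberwise_of_maps_to (t := range q) (g := fun m => m % q)
      fun m _ => mem_range.2 (Nat.mod_lt _ hq), red,
      sum_filter_of_ne fun c _ hc => by_contra fun e => hc (by rw [PSVx.off χ e, mul_zero])]
    refine sum_congr rfl fun c hc => ?_
    rw [sum_mul]
    refine sum_congr (filter_congr fun m _ => ?_) fun m hm => ?_
    · rw [Nat.ModEq, Nat.mod_eq_of_lt (mem_range.1 hc)]
    · rw [ch, ch, (ZMod.natCast_eq_natCast_iff _ _ _).2 (mem_filter.1 hm).2]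

end Pool.Agent.P.MP_42fc1a_nt.EK
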