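import Pool.Agent.P.MP_42fc1a_nt.EK.IfaceB

/-! Step RAM. -/

namespace Pool.Agent.P.MP_42fc1a_nt.EK

open Finset Real Filter Topology MeasureTheory
open Pool.Agent.P.MP_e86632_nt (ee nn ee_add norm_ee ee_neg ee_zero)
open Pool.Agent.P.MP_8be758_nt.Avg (gs red ft nsq gs_pos gs_le_one gs_neg gs_anti)
open Pool.Agent.P.MP_e94e4b_nt.PF (sgm)
open Pool.Agent.P.E2
open ArithmeticFunction (vonMangoldt moebius)
open DirichletCharacter (LFunction)
open scoped Classical

namespace RAMx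

lemma lm_eq {n : ℕ} (hn : n ≠ 0) (m : ℕ) :
    (Lm n m : ℂ) = ∏ p ∈ n.primeFactors, if p ∣ m then 0 else (p : ℂ) / (p - 1) := by
  unfold Lm
  split_ifs with h
  · have h1 : (n.totient : ℂ) = n * ∏ p ∈ n.primeFactors, (1 - (p : ℂ)⁻¹) := by
      have := congrArg (fun x : ℚ => (x : ℂ)) (Nat.totient_eq_mul_prod_factors n)
      simpa using this
    push_cast
    rw [h1, div_mul_cancel_left₀ (Nat.cast_ne_zero.2 hn), ← prod_inv_distrib]
    refine prod_congr rfl fun p hp => ?_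
    have pp := Nat.prime_of_mem_primeFactors hp
    have p0 : (p : ℂ) ≠ 0 := Nat.cast_ne_zero.2 pp.ne_zero
    rw [if_neg fun e => pp.one_lt.ne' ((Nat.coprime_self _).1
      ((h.coprime_dvd_left e).coprime_dvd_right (Nat.dvd_of_mem_primeFactors hp))), ← inv_div,
      sub_div, div_self p0, one_div]
  · obtain ⟨p, pp, h1, h2⟩ := Nat.Prime.not_coprime_iff_dvd.1 h
    refine (prod_eq_zero (Nat.mem_primeFactors.2 ⟨pp, h2, hn⟩) ?_).symm
    exact if_pos h1

noncomputable def g (W m : ℕ) : ArithmeticFunction ℂ :=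
  ⟨fun d => if d.Coprime W then (mf d : ℂ) * cq d m else 0, by simp [mf]⟩

lemma g_mul (hCQ : S_CQ) (W m : ℕ) : (g W m).IsMultiplicative := by
  refine ArithmeticFunction.IsMultiplicative.iff_ne_zero.2 ⟨by simp [g, mf, hCQ.2.2.1], ?_⟩
  intro a b ha hb h
  simp only [g, ArithmeticFunction.coe_mk, Nat.coprime_mul_iff_left, mf,
    hCQ.1 a b m (by omega) (by omega) h, Nat.totient_mul h,
    ArithmeticFunction.isMultiplicative_moebius.map_mul_of_coprime h]
  rw [ite_zero_mul_ite_zero]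
  push_cast
  ring_nf

lemma g_pow (hCQ : S_CQ) (W m : ℕ) {p k : ℕ} (pp : p.Prime) (hk : k ≠ 0) :
    ∑ d ∈ (p ^ k).divisors, g W m d =
      if p ∣ W then 1 else if p ∣ m then 0 else (p : ℂ) / (p - 1) := by
  obtain ⟨k, rfl⟩ := Nat.exists_eq_succ_of_ne_zero hk
  have p1 : (p : ℂ) - 1 ≠ 0 := sub_ne_zero.2 (by exact_mod_cast pp.one_lt.ne')
  rw [Nat.sum_divisors_prime_pow pp, sum_range_succ', sum_range_succ', sum_eq_zero fun j _ => by
    simp [g, mf, ArithmeticFunction.moebius_apply_prime_pow pp]]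
  simp only [pow_zero, (g_mul hCQ W m).1, zero_add, pow_one]
  simp only [g, ArithmeticFunction.coe_mk, pp.coprime_iff_not_dvd, mf, hCQ.2.1 p m pp,
    ArithmeticFunction.moebius_apply_prime pp, Nat.totient_prime pp, Nat.cast_sub pp.one_lt.le]
  split_ifs <;> push_cast <;> field_simp <;> ring

end RAMx

theorem p_RAM (hCQ : S_CQ) :
    S_RAM := by
  intro W q i m hW h2 hq
  have hz := (RAMx.g_mul hCQ W m).mul ArithmeticFunction.isMultiplicative_zeta.natCast
  have e : ∑ d ∈ q.divisors.filter (fun d => d.Coprime W), (mf d : ℂ) * cq d m =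
      ∏ p ∈ q.primeFactors, if p ∣ W then 1 else if p ∣ m then 0 else (p : ℂ) / (p - 1) := by
    rw [sum_filter]
    refine (ArithmeticFunction.coe_mul_zeta_apply (f := RAMx.g W m)).symm.trans ?_
    rw [hz.multiplicative_factorization _ (by omega), Finsupp.prod, Nat.support_factorization]
    refine prod_congr rfl fun p hp => ?_
    rw [ArithmeticFunction.coe_mul_zeta_apply, RAMx.g_pow hCQ W m (Nat.prime_of_mem_primeFactors hp)
      (Finsupp.mem_support_iff.1 hp)]
  rw [e, RAMx.lm_eq (by positivity), RAMx.lm_eq (by omega), prod_ite (p := fun p => p ∣ W),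
    prod_const_one, one_mul, ← prod_union (disjoint_left.2 fun p h1 h2 =>
      absurd (Nat.dvd_of_mem_primeFactors h1) (mem_filter.1 h2).2)]
  refine prod_congr ?_ fun _ _ => rfl
  ext p
  have h0 : W * q * 2 ^ i ≠ 0 := by positivity
  simp only [mem_union, mem_filter, Nat.mem_primeFactors]
  refine ⟨fun ⟨pp, h, _⟩ => ?_, ?_⟩
  · by_cases hw : p ∣ W
    · exact Or.inl ⟨pp, hw, by omega⟩
    · rcases (pp.dvd_mul).1 h with h | h
      · exact Or.inr ⟨⟨pp, ((pp.dvd_mul).1 h).resolve_left hw, by omega⟩, hw⟩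
      · exact absurd ((pp.dvd_of_dvd_pow h).trans h2) hw
  · rintro (⟨pp, h, _⟩ | ⟨⟨pp, h, _⟩, _⟩)
    exacts [⟨pp, (h.mul_right _).mul_right _, h0⟩, ⟨pp, (h.mul_left _).mul_right _, h0⟩]

end Pool.Agent.P.MP_42fc1a_nt.EK
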