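import Pool.Agent.P.MP_42fc1a_nt.EK.IfaceD

/-! Step REAL. -/

namespace Pool.Agent.P.MP_42fc1a_nt.EK

open Finset Real Filter Topology MeasureTheory
open Pool.Agent.P.MP_e86632_nt (ee nn ee_add norm_ee ee_neg ee_zero)
open Pool.Agent.P.MP_8be758_nt.Avg (gs red ft nsq gs_pos gs_le_one gs_neg gs_anti)
open Pool.Agent.P.MP_e94e4b_nt.PF (sgm)
open Pool.Agent.P.E2
open ArithmeticFunction (vonMangoldt moebius)
open DirichletCharacter (LFunction)
open scoped Classical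

namespace REALx

theorem lim {q : ℕ} [NeZero q] {χ : DirichletCharacter ℂ q} (h : S_APX0) (h1 : χ ≠ 1) {s : ℂ}
    (hs : 1 / 2 < s.re) :
    Tendsto (fun k : ℕ => ∑ n ∈ Icc 1 ((k + 1) * q), ch χ n * (n : ℂ) ^ (-s)) atTop
      (𝓝 (LFunction χ s)) := by
  rw [tendsto_iff_norm_sub_tendsto_zero]
  have h2 : Tendsto (fun k : ℕ => 6 * (q : ℝ) * ‖s‖ / √((k + 1 : ℕ) : ℝ)) atTop (𝓝 0) :=
    tendsto_const_nhds.div_atTop (Real.tendsto_sqrt_atTop.comp
      (tendsto_natCast_atTop_atTop.comp (tendsto_add_atTop_nat 1)))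
  refine squeeze_zero (fun _ => norm_nonneg _) (fun k => ?_) h2
  rw [norm_sub_rev]
  exact h q χ s (k + 1) h1 hs (by omega)

theorem term {q : ℕ} {χ : DirichletCharacter ℂ q} (h2 : χ ^ 2 = 1) (n : ℕ) (σ : ℝ) :
    ∃ c : ℝ, |c| ≤ 1 ∧ ch χ n * (n : ℂ) ^ (-(σ : ℂ)) = ((c * (n : ℝ) ^ (-σ) : ℝ) : ℂ) := by
  have e : (n : ℂ) ^ (-(σ : ℂ)) = (((n : ℝ) ^ (-σ) : ℝ) : ℂ) := by
    rw [Complex.ofReal_cpow (Nat.cast_nonneg n)]
    simp
  rw [e]
  rcases MulChar.isQuadratic_iff_sq_eq_one.2 h2 (n : ZMod q) with a | a | a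
  · exact ⟨0, by simp, by simp [ch, a]⟩
  · exact ⟨1, by simp, by simp [ch, a]⟩
  · exact ⟨-1, by simp, by simp [ch, a]⟩

theorem im0 {q : ℕ} [NeZero q] {χ : DirichletCharacter ℂ q} (h : S_APX0) (h1 : χ ≠ 1)
    (h2 : χ ^ 2 = 1) {σ : ℝ} (hs : 1 / 2 < σ) : (LFunction χ σ).im = 0 := by
  have a := (Complex.continuous_im.tendsto _).comp (lim h h1 (s := σ) (by simpa using hs))
  refine tendsto_nhds_unique a (tendsto_const_nhds.congr fun k => ?_)
  simp only [Function.comp, Complex.im_sum]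
  refine (sum_eq_zero fun n _ => ?_).symm
  obtain ⟨c, -, e⟩ := term h2 n σ
  rw [e, Complex.ofReal_im]

theorem two {q : ℕ} [NeZero q] {χ : DirichletCharacter ℂ q} (h : S_APX0) (h1 : χ ≠ 1)
    (h2 : χ ^ 2 = 1) : 0 < (LFunction χ 2).re := by
  have a := (Complex.continuous_re.tendsto _).comp (lim h h1 (s := ((2 : ℝ) : ℂ)) (by norm_num))
  have q1 : 1 ≤ q := Nat.pos_of_ne_zero (NeZero.ne q)
  have b : (1 / 4 : ℝ) ≤ (LFunction χ ((2 : ℝ) : ℂ)).re := by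
    refine ge_of_tendsto a ((eventually_ge_atTop 1).mono fun k hk => ?_)
    have hN : 2 ≤ (k + 1) * q := by nlinarith
    simp only [Function.comp, Complex.re_sum]
    generalize (k + 1) * q = N at hN ⊢
    have e1 : Icc 1 N = insert 1 (insert 2 (Ioc 2 N)) := by
      ext n
      simp only [mem_Icc, mem_insert, mem_Ioc]
      omega
    have t : ∀ n : ℕ, -((n : ℝ) ^ 2)⁻¹ ≤ (ch χ n * (n : ℂ) ^ (-((2 : ℝ) : ℂ))).re := fun n => by
      obtain ⟨c, hc, e⟩ := term h2 n 2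
      rw [e, Complex.ofReal_re, Real.rpow_neg (Nat.cast_nonneg n), Real.rpow_two]
      have p : 0 ≤ ((n : ℝ) ^ 2)⁻¹ := by positivity
      nlinarith [(abs_le.1 hc).1]
    have s3 : -(1 / 2 : ℝ) ≤ ∑ n ∈ Ioc 2 N, (ch χ n * (n : ℂ) ^ (-((2 : ℝ) : ℂ))).re := by
      refine le_trans ?_ (sum_le_sum fun n _ => t n)
      rw [sum_neg_distrib]
      have := sum_Ioc_inv_sq_le_sub (α := ℝ) (k := 2) (by norm_num) hN
      have p : (0 : ℝ) ≤ (N : ℝ)⁻¹ := by positivity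
      push_cast at this
      linarith
    have t2 := t 2
    rw [e1, sum_insert (by simp), sum_insert (by simp)]
    have t1 : (ch χ 1 * ((1 : ℕ) : ℂ) ^ (-((2 : ℝ) : ℂ))).re = 1 := by simp [ch]
    rw [t1]
    norm_num at t2 s3 ⊢
    linarith
  have : ((2 : ℝ) : ℂ) = 2 := by norm_num
  rw [this] at b
  linarith

end REALx

theorem p_REAL (hAPX0 : S_APX0) :
    S_REAL := by
  intro q _ χ h1 h2
  have a2 := REALx.two hAPX0 h1 h2
  refine ⟨fun σ hs => REALx.im0 hAPX0 h1 h2 hs, a2, fun β b1 b2 hz => ?_⟩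
  by_contra hc
  have cont : Continuous fun σ : ℝ => (LFunction χ σ).re :=
    Complex.continuous_re.comp ((DirichletCharacter.differentiable_LFunction h1).continuous.comp
      Complex.continuous_ofReal)
  have e : (LFunction χ ((2 : ℝ) : ℂ)).re = (LFunction χ 2).re := by norm_num
  obtain ⟨σ, hσ, h0⟩ := intermediate_value_Icc (show β ≤ 2 by linarith) cont.continuousOn
    (show (0 : ℝ) ∈ Set.Icc _ _ from ⟨not_lt.1 hc, by rw [e]; exact a2.le⟩)
  have z : LFunction χ σ = 0 :=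
    Complex.ext h0 (REALx.im0 hAPX0 h1 h2 (lt_of_lt_of_le b1 hσ.1))
  rcases lt_or_ge σ 1 with l | l
  · exact hz σ hσ.1 l z
  · exact DirichletCharacter.LFunction_ne_zero_of_one_le_re χ (Or.inl h1) (by simpa using l) z

end Pool.Agent.P.MP_42fc1a_nt.EK
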