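import Pool.Agent.P.MP_42fc1a_nt.EK.IfaceB
import Pool.Agent.P.MP_e94e4b_nt.E2.TCI1

/-! Step REP. -/

namespace Pool.Agent.P.MP_42fc1a_nt.EK

open Finset Real Filter Topology MeasureTheory
open Pool.Agent.P.MP_e86632_nt (ee nn ee_add norm_ee ee_neg ee_zero)
open Pool.Agent.P.MP_8be758_nt.Avg (gs red ft nsq gs_pos gs_le_one gs_neg gs_anti)
open Pool.Agent.P.MP_e94e4b_nt.PF (sgm)
open Pool.Agent.P.E2
open ArithmeticFunction (vonMangoldt moebius)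
open DirichletCharacter (LFunction)
open scoped Classical

namespace REPx

theorem expand (M L J σ : ℕ) (A I : Finset ℕ) (f : ℕ → ℂ) (α : ℝ) :
    ps M L J σ A α * ft I f α =
      (∑ x ∈ A ×ˢ Icc 1 L ×ˢ Icc 1 L ×ˢ Icc 1 J ×ˢ I, f x.2.2.2.2 *
        ee (((((σ + 2 ^ (M * x.2.1) + 2 ^ (M * x.2.2.1) + 2 ^ (M * x.2.2.2.1) : ℕ) : ℤ) +
          x.2.2.2.2 - x.1 : ℤ) : ℝ) * α)) / ((L : ℂ) ^ 2 * J) := by
  have e : ps M L J σ A α * ft I f α = (starRingEnd ℂ) (ft A (fun _ => 1) α) *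
      (Gw M (fun _ => 1) (Icc 1 L) α * (Gw M (fun _ => 1) (Icc 1 L) α *
        (Gw M (fun _ => 1) (Icc 1 J) α * (ft I f α * ee (σ * α))))) / ((L : ℂ) ^ 2 * J) := by
    rw [ps, Gn, Gn]
    ring
  rw [e]
  congr 1
  simp only [ft, Gw, map_sum, one_mul, sum_product, ← ee_neg]
  rw [sum_mul]
  refine sum_congr rfl fun n _ => ?_
  rw [sum_mul, mul_sum]
  refine sum_congr rfl fun a _ => ?_
  rw [sum_mul, mul_sum, mul_sum]
  refine sum_congr rfl fun b _ => ?_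
  rw [sum_mul, mul_sum, mul_sum, mul_sum]
  refine sum_congr rfl fun s _ => ?_
  rw [sum_mul, mul_sum, mul_sum, mul_sum, mul_sum]
  refine sum_congr rfl fun m _ => ?_
  rw [show ((((σ + 2 ^ (M * a) + 2 ^ (M * b) + 2 ^ (M * s) : ℕ) : ℤ) + m - n : ℤ) : ℝ) * α =
    -(n * α) + (2 ^ (M * a) * α + (2 ^ (M * b) * α + (2 ^ (M * s) * α + (m * α + σ * α)))) by
      push_cast; ring]
  simp only [ee_add]
  ring

end REPx

theorem p_REP :
    S_REP := by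
  intro M L J σ A I f h
  simp only [REPx.expand]
  rw [intervalIntegral.integral_div, av]
  congr 1
  have e := CI1a.orth_sum (A ×ˢ Icc 1 L ×ˢ Icc 1 L ×ˢ Icc 1 J ×ˢ I) (fun x => f x.2.2.2.2)
    (fun x => ((σ + 2 ^ (M * x.2.1) + 2 ^ (M * x.2.2.1) + 2 ^ (M * x.2.2.2.1) : ℕ) : ℤ) +
      x.2.2.2.2 - x.1) 0
  rw [zero_add] at e
  rw [e]
  simp only [sum_product]
  refine sum_congr rfl fun n hn => sum_congr rfl fun a ha => sum_congr rfl fun b hb =>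
    sum_congr rfl fun s hs => ?_
  obtain ⟨h1, h2⟩ := h n hn a ha b hb s hs
  generalize σ + 2 ^ (M * a) + 2 ^ (M * b) + 2 ^ (M * s) = t at h1 h2
  rw [sum_eq_single_of_mem _ h2 fun m _ hm => if_neg (by omega), if_pos (by omega)]

end Pool.Agent.P.MP_42fc1a_nt.EK
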