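import Pool.Agent.P.MP_42fc1a_nt.EK.IfaceB

/-! Step ROM. -/

namespace Pool.Agent.P.MP_42fc1a_nt.EK

open Finset Real Filter Topology MeasureTheory
open Pool.Agent.P.MP_e86632_nt (ee nn ee_add norm_ee ee_neg ee_zero)
open Pool.Agent.P.MP_8be758_nt.Avg (gs red ft nsq gs_pos gs_le_one gs_neg gs_anti)
open Pool.Agent.P.MP_e94e4b_nt.PF (sgm)
open Pool.Agent.P.E2
open ArithmeticFunction (vonMangoldt moebius)
open DirichletCharacter (LFunction)
open scoped Classical

namespace ROMx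

lemma cop {t : Finset ℕ} (ht : ∀ l ∈ t, l.Prime ∧ 5 ≤ l) : (∏ l ∈ t, l).Coprime 6 :=
  Nat.Coprime.prod_left fun l hl => by
    have := ht l hl
    exact Nat.Coprime.mul_right (m := 2) (n := 3)
      ((Nat.coprime_primes this.1 Nat.prime_two).2 (by omega))
      ((Nat.coprime_primes this.1 Nat.prime_three).2 (by omega))

lemma cnt (hORD : S_ORD) {M q : ℕ} (hM : 2 ≤ M) (h1 : 1 ≤ q) (h2 : q.Coprime 2) (L b c d : ℕ) :
    ∑ a ∈ Icc 1 L, (if (q : ℤ) ∣ h4 M a b c d then (1 : ℝ) else 0) ≤ L * (M / oo 1 q) + 1 := by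
  obtain ⟨a1, a2⟩ := hORD M q L (2 ^ (M * c) + 2 ^ (M * d) - 2 ^ (M * b)) h1 h2
  have a3 := (hORD 1 q L 0 h1 h2).1
  have a4 : oo 1 q ≤ M * oo M q := by
    refine Nat.le_of_dvd (Nat.mul_pos (by omega) a1) (orderOf_dvd_of_pow_eq_one ?_)
    rw [pow_one, pow_mul]
    exact pow_orderOf_eq_one _
  have a5 : (L : ℝ) / oo M q ≤ L * (M / oo 1 q) := by
    rw [div_eq_mul_one_div]
    refine mul_le_mul_of_nonneg_left ?_ L.cast_nonneg
    rw [div_le_div_iff₀ (by exact_mod_cast a1) (by exact_mod_cast a3), one_mul]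
    exact_mod_cast a4
  rw [sum_boole]
  refine le_trans (Nat.cast_le.2 (card_le_card fun a ha => ?_)) (a2.trans (by linarith))
  obtain ⟨b1, b2⟩ := mem_filter.1 ha
  refine mem_filter.2 ⟨b1, ?_⟩
  have := (ZMod.intCast_zmod_eq_zero_iff_dvd _ q).2 b2
  simp only [h4] at this
  push_cast at this
  linear_combination this

lemma habs {M L a b c d : ℕ} (ha : a ≤ L) (hb : b ≤ L) (hc : c ≤ L) (hd : d ≤ L) :
    (h4 M a b c d).natAbs ≤ 2 ^ (M * L + 5) := by
  have key : ∀ x ≤ L, (0 : ℤ) < 2 ^ (M * x) ∧ (2 : ℤ) ^ (M * x) ≤ 2 ^ (M * L) := fun x hx =>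
    ⟨by positivity, pow_le_pow_right₀ one_le_two (Nat.mul_le_mul_left _ hx)⟩
  have := key a ha
  have := key b hb
  have := key c hc
  have := key d hd
  have : ((h4 M a b c d).natAbs : ℤ) ≤ 2 ^ (M * L + 5) := by
    rw [Int.natCast_natAbs, h4, pow_add, abs_le]
    constructor <;> linarith
  exact_mod_cast this

lemma ev (M : ℕ) (hM : 2 ≤ M) :
    ∀ᶠ L : ℕ in atTop, (300 * Real.log ((M * L + 5 : ℕ) : ℝ)) ^ 4 ≤ L := by
  have h1 : Tendsto (fun L : ℕ => ((M * L + 5 : ℕ) : ℝ)) atTop atTop :=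
    tendsto_natCast_atTop_atTop.comp (tendsto_atTop_mono (fun L => by
      have := Nat.le_mul_of_pos_left L (show 0 < M by omega)
      exact this.trans (Nat.le_add_right _ _)) tendsto_id)
  have h2 := h1.eventually ((Real.isLittleO_pow_log_id_atTop (n := 4)).bound
    (c := 1 / (300 ^ 4 * (M + 5))) (by positivity))
  filter_upwards [h2, eventually_ge_atTop 1] with L h3 h4
  have h5 : (1 : ℝ) ≤ L := by exact_mod_cast h4
  rw [Real.norm_of_nonneg (by positivity), id, Real.norm_of_nonneg (by positivity), one_div,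
    ← div_eq_inv_mul, le_div_iff₀ (by positivity)] at h3
  have h6 : ((M * L + 5 : ℕ) : ℝ) ≤ L * (M + 5) := by push_cast; nlinarith
  refine le_of_mul_le_mul_right ?_ (show (0 : ℝ) < M + 5 by positivity)
  rw [mul_pow]
  linarith

end ROMx

open ROMx

theorem p_ROM (hMER : S_MER) (hORD : S_ORD) (hROM0 : S_ROM0) (hSGM : S_SGM) :
    S_ROM := by
  intro M hM
  obtain ⟨C, hC⟩ := hROM0
  have C0 : 0 ≤ C := by simpa using hC ∅ (by simp)
  refine ⟨100 * (M * C + 1), by positivity, ?_⟩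
  filter_upwards [ev M hM] with L hL
  set Z := M * L + 5 with hZ
  set T := (range (Z + 1)).filter fun l => l.Prime ∧ 5 ≤ l with hT
  set w : Finset ℕ → ℝ := fun t => ∏ l ∈ t, 2 / ((l : ℝ) - 2) with hw
  have hp : ∀ t ∈ T.powerset, ∀ l ∈ t, l.Prime ∧ 5 ≤ l := fun t ht l hl =>
    (mem_filter.1 (mem_powerset.1 ht hl)).2
  have h5 : ∀ l : ℕ, 5 ≤ l → (5 : ℝ) ≤ l := fun l h => by exact_mod_cast h
  have w0 : ∀ t ∈ T.powerset, 0 ≤ w t := fun t ht => prod_nonneg fun l hl =>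
    div_nonneg zero_le_two (by linarith [h5 l (hp t ht l hl).2])
  have s1 : ∑ t ∈ T.powerset, w t / oo 1 (∏ l ∈ t, l) ≤ C := by
    have e : ∀ t ∈ T.powerset, (∏ l ∈ t, l).primeFactors = t := fun t ht =>
      Nat.primeFactors_prod fun l hl => (hp t ht l hl).1
    refine le_of_eq_of_le ?_ (hC (T.powerset.image fun t => ∏ l ∈ t, l) fun d hd => ?_)
    · rw [sum_image fun t ht t' ht' h => by
        rw [← e t ht, ← e t' ht']; exact congrArg Nat.primeFactors h]
      exact sum_congr rfl fun t ht => by rw [e t ht]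
    · obtain ⟨t, ht, rfl⟩ := mem_image.1 hd
      exact ⟨Finset.squarefree_prod_of_pairwise_isCoprime (fun l hl l' hl' h => by
        exact Nat.coprime_iff_isRelPrime.1
          ((Nat.coprime_primes (hp t ht l hl).1 (hp t ht l' hl').1).2 h))
        fun l hl => (hp t ht l hl).1.prime.squarefree, cop (hp t ht)⟩
  have s2 : ∑ t ∈ T.powerset, w t ≤ L := by
    have z5 : (5 : ℝ) ≤ Z := h5 Z (by omega)
    have a1 := hMER (Real.log Z) T (by
      rw [Real.le_log_iff_exp_le (by linarith)]; linarith [Real.exp_one_lt_d9]) fun l hl => by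
      rw [Real.exp_log (by linarith)]
      exact ⟨(mem_filter.1 hl).2.1, by
        exact_mod_cast Nat.lt_succ_iff.1 (mem_range.1 (mem_filter.1 hl).1)⟩
    refine le_trans ?_ ((pow_le_pow_left₀ (Real.exp_pos _).le a1 4).trans hL)
    rw [hw, ← prod_one_add, ← Real.exp_nat_mul, mul_sum, Real.exp_sum]
    refine prod_le_prod (fun l hl => ?_) fun l hl => ?_
    · have := h5 l (mem_filter.1 hl).2.2
      have : 0 ≤ 2 / ((l : ℝ) - 2) := div_nonneg zero_le_two (by linarith)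
      linarith
    · have := h5 l (mem_filter.1 hl).2.2
      refine le_trans ?_ (Real.add_one_le_exp _)
      have : 2 / ((l : ℝ) - 2) ≤ (4 : ℕ) * (1 / l) := by
        rw [mul_one_div, div_le_div_iff₀ (by linarith) (by linarith)]
        push_cast
        linarith
      linarith
  have s3 : ∀ b ∈ Icc 1 L, ∀ c ∈ Icc 1 L, ∀ d ∈ Icc 1 L, ∑ a ∈ Icc 1 L,
      (if h4 M a b c d = 0 then 0 else sgm (h4 M a b c d).natAbs) ≤ 100 * (M * C + 1) * L := by
    intro b hb c hc d hd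
    have a1 : ∀ a ∈ Icc 1 L, (if h4 M a b c d = 0 then 0 else sgm (h4 M a b c d).natAbs) ≤
        100 * ∑ t ∈ T.powerset,
          w t * if ((∏ l ∈ t, l : ℕ) : ℤ) ∣ h4 M a b c d then (1 : ℝ) else 0 := by
      intro a ha
      split_ifs with h
      · exact mul_nonneg (by norm_num) (sum_nonneg fun t ht =>
          mul_nonneg (w0 t ht) (by split_ifs <;> norm_num))
      · refine (hSGM _ Z (by omega) (Int.natAbs_ne_zero.2 h) (habs (mem_Icc.1 ha).2
          (mem_Icc.1 hb).2 (mem_Icc.1 hc).2 (mem_Icc.1 hd).2)).trans_eq ?_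
        congr 1
        exact sum_congr rfl fun t _ => by simp only [Int.natCast_dvd, mul_ite, mul_one, mul_zero, hw]
    refine (sum_le_sum a1).trans ?_
    rw [← mul_sum, sum_comm, mul_assoc]
    refine mul_le_mul_of_nonneg_left ?_ (by norm_num)
    have a2 : ∀ t ∈ T.powerset, ∑ a ∈ Icc 1 L,
        (w t * if ((∏ l ∈ t, l : ℕ) : ℤ) ∣ h4 M a b c d then (1 : ℝ) else 0) ≤
        L * M * (w t / oo 1 (∏ l ∈ t, l)) + w t := fun t ht => by
      rw [← mul_sum]
      refine (mul_le_mul_of_nonneg_left (cnt hORD hM (prod_pos fun l hl => (hp t ht l hl).1.pos)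
        ((cop (hp t ht)).coprime_dvd_right (by norm_num)) L b c d) (w0 t ht)).trans_eq ?_
      ring
    refine (sum_le_sum a2).trans ?_
    rw [sum_add_distrib, ← mul_sum]
    have := mul_le_mul_of_nonneg_left s1 (by positivity : (0 : ℝ) ≤ L * M)
    linarith
  rw [sum_comm]
  refine (sum_le_card_nsmul _ _ (100 * (M * C + 1) * (L : ℝ) ^ 3) fun b hb => ?_).trans_eq
    (by simp; ring)
  rw [sum_comm]
  refine (sum_le_card_nsmul _ _ (100 * (M * C + 1) * (L : ℝ) ^ 2) fun c hc => ?_).trans_eq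
    (by simp; ring)
  rw [sum_comm]
  exact (sum_le_card_nsmul _ _ _ fun d hd => s3 b hb c hc d hd).trans_eq (by simp; ring)

end Pool.Agent.P.MP_42fc1a_nt.EK
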