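import Pool.Agent.P.MP_42fc1a_nt.EK.IfaceB

/-! Step ROM0. -/

namespace Pool.Agent.P.MP_42fc1a_nt.EK

open Finset Real Filter Topology MeasureTheory
open Pool.Agent.P.MP_e86632_nt (ee nn ee_add norm_ee ee_neg ee_zero)
open Pool.Agent.P.MP_8be758_nt.Avg (gs red ft nsq gs_pos gs_le_one gs_neg gs_anti)
open Pool.Agent.P.MP_e94e4b_nt.PF (sgm)
open Pool.Agent.P.E2
open ArithmeticFunction (vonMangoldt moebius)
open DirichletCharacter (LFunction)
open scoped Classical

namespace ROM0x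

theorem oo_pos {d : ℕ} (h0 : d ≠ 0) (h : d.Coprime 6) : 1 ≤ oo 1 d := by
  have : NeZero d := ⟨h0⟩
  have h2 : Nat.Coprime 2 d := (Nat.Coprime.coprime_dvd_right (by norm_num) h).symm
  have hu : IsUnit ((2 : ℕ) : ZMod d) := (ZMod.isUnit_iff_coprime 2 d).2 h2
  rw [oo, pow_one]
  exact hu.isOfFinOrder.orderOf_pos

theorem ord_dvd {d l : ℕ} (h : l ∣ d) : orderOf (2 : ZMod l) ∣ oo 1 d := by
  have := orderOf_map_dvd (ZMod.castHom h (ZMod l)).toMonoidHom (2 : ZMod d)
  rw [oo, pow_one]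
  simpa only [RingHom.toMonoidHom_eq_coe, MonoidHom.coe_coe, map_ofNat] using this

theorem five_le {d l : ℕ} (h : d.Coprime 6) (hl : l ∈ d.primeFactors) : 5 ≤ l := by
  have hp := Nat.prime_of_mem_primeFactors hl
  have h6 : l.Coprime 6 := Nat.Coprime.coprime_dvd_left (Nat.dvd_of_mem_primeFactors hl) h
  have := hp.two_le
  by_contra h5
  have : l ≤ 4 := by omega
  interval_cases l <;> revert h6 <;> decide

end ROM0x

theorem p_ROM0 (hODS : S_ODS) (hEUL : S_EUL) (hPRS : S_PRS) (hDYS : S_DYS) :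
    S_ROM0 := by
  obtain ⟨C, hC⟩ := hPRS
  have hs : Summable fun t : ℕ => 16 * Real.exp (4 * C) * ((t : ℝ) + 1) ^ 4 / 2 ^ t := by
    have h1 := (summable_nat_add_iff 1).2
      (summable_pow_mul_geometric_of_norm_lt_one 4 (r := (1 / 2 : ℝ)) (by norm_num))
    refine (h1.mul_left (32 * Real.exp (4 * C))).congr fun t => ?_
    push_cast
    rw [one_div_pow, pow_succ (2 : ℝ)]
    field_simp
    ring
  refine ⟨∑' t : ℕ, 16 * Real.exp (4 * C) * ((t : ℝ) + 1) ^ 4 / 2 ^ t, fun D hD => ?_⟩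
  refine hDYS D _ (oo 1) (fun t => 16 * Real.exp (4 * C) * ((t : ℝ) + 1) ^ 4) _
    (fun q hq => ⟨prod_nonneg fun l hl => ?_, ROM0x.oo_pos (hD q hq).1.ne_zero (hD q hq).2⟩)
    (fun t => ?_) (fun n => hs.sum_le_tsum _ fun t _ => by positivity)
  · have : (5 : ℝ) ≤ l := by exact_mod_cast ROM0x.five_le (hD q hq).2 hl
    exact div_nonneg (by norm_num) (by linarith)
  set D' := D.filter (fun q => oo 1 q < 2 ^ (t + 1)) with hD'
  set T := D'.biUnion Nat.primeFactors with hT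
  have hm : ∀ l ∈ T, l.Prime ∧ l ≠ 2 ∧ orderOf (2 : ZMod l) < 2 ^ (t + 1) := fun l hl => by
    obtain ⟨q, hq, hl⟩ := mem_biUnion.1 hl
    obtain ⟨hq, hq'⟩ := mem_filter.1 hq
    have := ROM0x.five_le (hD q hq).2 hl
    exact ⟨Nat.prime_of_mem_primeFactors hl, by omega,
      (Nat.le_of_dvd (ROM0x.oo_pos (hD q hq).1.ne_zero (hD q hq).2)
        (ROM0x.ord_dvd (Nat.dvd_of_mem_primeFactors hl))).trans_lt hq'⟩
  have hc : T.card ≤ 2 ^ (t + 1) * (range (2 ^ (t + 1))).card :=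
    card_le_mul_card_image_of_maps_to (f := fun l => orderOf (2 : ZMod l))
      (fun l hl => mem_range.2 (hm l hl).2.2) _ fun b hb =>
        (hODS b _ fun l hl => ⟨(hm l (mem_filter.1 hl).1).1, (hm l (mem_filter.1 hl).1).2.1,
          (mem_filter.1 hl).2⟩).1.trans (mem_range.1 hb).le
  rw [card_range, ← mul_pow] at hc
  have h4 : (4 : ℝ) ≤ 4 ^ (t + 1) := le_self_pow₀ (by norm_num) (by omega)
  have h5 := hC (4 ^ (t + 1)) T (by linarith) (fun l hl => (hm l hl).1) (by exact_mod_cast hc)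
  have h6 := (hEUL T D' (fun l => 4 * (1 / (l : ℝ))) (fun l => by positivity) fun q hq =>
    ⟨(hD q (mem_filter.1 hq).1).1, subset_biUnion_of_mem _ hq⟩).1
  have hl0 : 0 < Real.log (4 ^ (t + 1)) := Real.log_pos (by linarith)
  have hl1 : Real.log (4 ^ (t + 1)) ≤ 2 * ((t : ℝ) + 1) := by
    have : Real.log 4 ≤ 2 := by
      rw [show (4 : ℝ) = 2 ^ 2 by norm_num, Real.log_pow]
      have := Real.log_two_lt_d9
      push_cast; linarith
    rw [Real.log_pow]; push_cast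
    nlinarith [(Nat.cast_nonneg t : (0 : ℝ) ≤ t)]
  calc _ ≤ ∑ q ∈ D', ∏ l ∈ q.primeFactors, 4 * (1 / (l : ℝ)) := by
        refine sum_le_sum fun q hq => prod_le_prod (fun l hl => ?_) fun l hl => ?_ <;>
          have : (5 : ℝ) ≤ l := by
            exact_mod_cast ROM0x.five_le (hD q (mem_filter.1 hq).1).2 hl
        · exact div_nonneg (by norm_num) (by linarith)
        · rw [mul_one_div, div_le_div_iff₀ (by linarith) (by linarith)]; linarith
    _ ≤ Real.exp (4 * (Real.log (Real.log (4 ^ (t + 1))) + C)) := by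
        refine h6.trans (Real.exp_le_exp.2 ?_)
        rw [← mul_sum]; linarith
    _ = Real.exp (4 * C) * Real.log (4 ^ (t + 1)) ^ 4 := by
        rw [mul_add, Real.exp_add, mul_comm, show (4 : ℝ) * Real.log (Real.log (4 ^ (t + 1))) =
          (4 : ℕ) * Real.log (Real.log (4 ^ (t + 1))) by norm_num, Real.exp_nat_mul,
          Real.exp_log hl0]
    _ ≤ Real.exp (4 * C) * (2 * ((t : ℝ) + 1)) ^ 4 := by gcongr
    _ = _ := by ring

end Pool.Agent.P.MP_42fc1a_nt.EK
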