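import Pool.Agent.P.MP_42fc1a_nt.EK.IfaceC

/-! Step SCH. -/

namespace Pool.Agent.P.MP_42fc1a_nt.EK

open Finset Real Filter Topology MeasureTheory
open Pool.Agent.P.MP_e86632_nt (ee nn ee_add norm_ee ee_neg ee_zero)
open Pool.Agent.P.MP_8be758_nt.Avg (gs red ft nsq gs_pos gs_le_one gs_neg gs_anti)
open Pool.Agent.P.MP_e94e4b_nt.PF (sgm)
open Pool.Agent.P.E2
open ArithmeticFunction (vonMangoldt moebius)
open DirichletCharacter (LFunction)
open scoped Classical

theorem p_SCH :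
    S_SCH := by
  intro S β K B s l hs h1 h2
  have hp : ∀ u, ‖∑ m ∈ S, β m * (K m u : ℂ)‖ ^ 2 ≤ B ^ 2 * s * ∑ m ∈ S, |K m u| := fun u => by
    have a1 : ‖∑ m ∈ S, β m * (K m u : ℂ)‖ ≤ |B| * ∑ m ∈ S, |K m u| := by
      rw [mul_sum]
      refine norm_sum_le_of_le _ fun m hm => ?_
      rw [norm_mul, Complex.norm_real, Real.norm_eq_abs]
      exact mul_le_mul_of_nonneg_right ((h1 m hm).1.trans (le_abs_self B)) (abs_nonneg _)
    have a2 : 0 ≤ ∑ m ∈ S, |K m u| := sum_nonneg fun m _ => abs_nonneg _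
    refine (pow_le_pow_left₀ (norm_nonneg _) a1 2).trans ?_
    rw [mul_pow, sq_abs, mul_assoc, sq (∑ m ∈ S, |K m u|)]
    exact mul_le_mul_of_nonneg_left (mul_le_mul_of_nonneg_right (h2 u) a2) (sq_nonneg B)
  have hi : Integrable fun u : ℝ => B ^ 2 * s * ∑ m ∈ S, |K m u| :=
    (integrable_finsetSum S fun m hm => (h1 m hm).2.2.1.abs).const_mul _
  have hc : Continuous fun u : ℝ => ‖∑ m ∈ S, β m * (K m u : ℂ)‖ ^ 2 :=
    (continuous_finsetSum S fun m hm =>
      continuous_const.mul (Complex.continuous_ofReal.comp (h1 m hm).2.1)).norm.pow 2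
  have hj := hi.mono' hc.aestronglyMeasurable (Eventually.of_forall fun u => by
    rw [Real.norm_of_nonneg (sq_nonneg _)]
    exact hp u)
  refine ⟨hj, (integral_mono hj hi hp).trans ?_⟩
  rw [integral_const_mul, integral_finsetSum S fun m hm => (h1 m hm).2.2.1.abs]
  refine mul_le_mul_of_nonneg_left ?_ (mul_nonneg (sq_nonneg B) hs)
  simpa using sum_le_card_nsmul S _ l fun m hm => (h1 m hm).2.2.2

end Pool.Agent.P.MP_42fc1a_nt.EK
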