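import Pool.Agent.P.MP_42fc1a_nt.EK.IfaceE

/-! Step SEL. -/

namespace Pool.Agent.P.MP_42fc1a_nt.EK

open Finset Real Filter Topology MeasureTheory
open Pool.Agent.P.MP_e86632_nt (ee nn ee_add norm_ee ee_neg ee_zero)
open Pool.Agent.P.MP_8be758_nt.Avg (gs red ft nsq gs_pos gs_le_one gs_neg gs_anti)
open Pool.Agent.P.MP_e94e4b_nt.PF (sgm)
open Pool.Agent.P.E2
open ArithmeticFunction (vonMangoldt moebius)
open DirichletCharacter (LFunction)
open scoped Classical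

namespace SELx

theorem pp (N : ℕ) : PP (N : ℝ) = Pn N := by
  rw [PP, Pn, Nat.floor_natCast, show (2 : ℝ) * N = ((2 * N : ℕ) : ℝ) by push_cast; ring,
    Nat.floor_natCast]

theorem rh_ge {N : ℕ} (hN : 1 ≤ N) {T : Finset ℕ} (hT : T ⊆ Pn N) :
    rho N - ((Pn N \ T).card : ℝ) / N ≤ rh T := by
  have h0 : (0 : ℝ) < N := by exact_mod_cast hN
  have h1 : ∑ p ∈ Pn N \ T, 1 / (p : ℝ) ≤ (Pn N \ T).card • (1 / (N : ℝ)) :=
    sum_le_card_nsmul _ _ _ fun p hp => one_div_le_one_div_of_le h0 (by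
      exact_mod_cast (mem_Ioc.1 (mem_filter.1 (mem_sdiff.1 hp).1).1).1.le)
  rw [nsmul_eq_mul, mul_one_div] at h1
  rw [rho, pp, rh, ← sum_sdiff hT]
  linarith

end SELx

theorem p_SEL (hRHO : S_RHO) (hSHF : S_SHF) (hINV : S_INV) :
    S_SEL := by
  intro M W b lam α hM hW l0 l1 hα
  obtain ⟨cQ, D0, h⟩ := hINV M W lam hM hW l0 l1
  obtain ⟨d, hd⟩ := exists_nat_ge (4 * (cQ + 1) / α)
  rw [div_le_iff₀ hα] at hd
  obtain ⟨D, hD⟩ : ∃ D, D = D0 + d + 2 * (cQ + 1) := ⟨_, rfl⟩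
  obtain ⟨b', K, hb', h⟩ := h D (by omega)
  obtain ⟨u0, h⟩ := eventually_atTop.1 h
  refine ⟨(b + 300 + 1) * (D + (1 + cQ + M * b')), ?_⟩
  have M0 : (0 : ℝ) < M := by exact_mod_cast (by omega : 0 < M)
  filter_upwards [hRHO, hSHF M 0 hM, eventually_ge_atTop 2, eventually_ge_atTop ((2 : ℝ) ^ u0),
    eventually_ge_atTop (W : ℝ), ev_pe1 1 ((b + 300 + 1) * (D + (1 + cQ + M * b'))),
    ev_pp (8 * K) one_pos (show 1 < 300 by norm_num),
    ev_pp (b' * (2 * (b + 301)) * (4 * M)) one_pos (show 1 < 13 by norm_num)]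
    with r a1 a2 a3 a4 a5 a6 a7 a8
  have r1 : (1 : ℝ) ≤ r := by linarith
  have r0 : (0 : ℝ) < r := by linarith
  obtain ⟨n, n1, n2⟩ := exists_nat_pow_near (one_le_pow₀ r1 : 1 ≤ r ^ (b + 300))
    (show (1 : ℝ) < 2 by norm_num)
  obtain ⟨u, hu⟩ : ∃ u, u = n + 1 := ⟨_, rfl⟩
  rw [← hu] at n2
  have y1 : (1 : ℝ) ≤ 2 ^ u := one_le_pow₀ (by norm_num)
  have y2 : (2 : ℝ) ^ u ≤ r ^ (b + 300 + 1) := by
    rw [hu, pow_succ, pow_succ]; gcongr
  have y3 : ∀ k ≤ b + 300, r ^ k ≤ 2 ^ u := fun k hk => (pow_le_pow_right₀ r1 hk).trans n2.le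
  have y4 : r ≤ 2 ^ u := by simpa using y3 1 (by omega)
  have uu : u0 ≤ u := (pow_le_pow_iff_right₀ (show (1 : ℝ) < 2 by norm_num)).1 (a4.trans y4)
  have f : ∀ k : ℕ, (2 : ℝ) ^ (k * u) = (2 ^ u) ^ k := fun k => by rw [mul_comm, pow_mul]
  have yP : (2 : ℝ) ^ u ≤ 2 ^ (D * u) := by rw [f]; exact le_self_pow₀ y1 (by omega)
  have up : ∀ k ≤ D + (1 + cQ + M * b'), ((2 : ℝ) ^ u) ^ k ≤
      r ^ ((b + 300 + 1) * (D + (1 + cQ + M * b'))) := fun k hk => by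
    rw [pow_mul]
    exact (pow_le_pow_right₀ y1 hk).trans (by gcongr)
  have wq : (W : ℝ) * (2 ^ (cQ * u) : ℕ) ≤ (2 ^ u) ^ (cQ + 1) := by
    rw [Nat.cast_pow, Nat.cast_ofNat, f, pow_succ, mul_comm]
    gcongr
    exact a5.trans y4
  obtain ⟨T, t1, t2, t3⟩ := h u uu
  have cP : ((2 ^ (D * u) : ℕ) : ℝ) = 2 ^ (D * u) := by push_cast; rfl
  have p1 : r ^ 300 ≤ 2 ^ (D * u) := (y3 300 (by omega)).trans yP
  have p2 : (2 : ℝ) ^ (D * u) ≤ r ^ ((b + 300 + 1) * (D + (1 + cQ + M * b'))) := by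
    rw [f]; exact up D (by omega)
  have p3 : (2 : ℝ) ^ (D * u) ≤ Real.exp r := p2.trans (by linarith)
  refine ⟨2 ^ (D * u), T, b' * u, 2 ^ (cQ * u), M * (b' * u), ⟨p1, p3, ?_, ?_⟩,
    (y3 b (by omega)).trans yP, p2, ?_, ?_, ?_, Nat.one_le_two_pow,
    Nat.mul_pos hb' (by omega), ?_, fun x hx => (t3 x hx).trans ?_⟩
  · rw [← cP, SELx.pp]; exact t1
  · have b1 := SELx.rh_ge Nat.one_le_two_pow t1
    have b2 := (a1 _ p1 p3).1
    rw [cP] at b1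
    have b3 : ((Pn (2 ^ (D * u)) \ T).card : ℝ) / 2 ^ (D * u) ≤ 1 / (8 * r) := by
      rw [div_le_iff₀ (by positivity)]
      refine t2.trans ?_
      rw [mul_div_right_comm]
      refine mul_le_mul_of_nonneg_right ?_ (by positivity)
      rw [div_le_div_iff₀ (by positivity) (by positivity)]
      linarith [y3 300 (by omega)]
    have b4 : 1 / (4 * r) = 2 * (1 / (8 * r)) := by field_simp; norm_num
    linarith
  · calc _ ≤ (((2 : ℝ) ^ u) ^ (cQ + 1)) ^ 4 := by gcongr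
      _ = ((2 : ℝ) ^ u) ^ ((((cQ + 1) * 4 : ℕ)) : ℝ) := by rw [Real.rpow_natCast, pow_mul]
      _ ≤ ((2 : ℝ) ^ u) ^ ((D : ℝ) * α) := by
        refine Real.rpow_le_rpow_of_exponent_le y1 ?_
        have : (d : ℝ) ≤ D := by exact_mod_cast (by omega : d ≤ D)
        push_cast
        nlinarith
      _ = _ := by rw [Real.rpow_mul (by positivity), Real.rpow_natCast, f]
  · calc _ ≤ (((2 : ℝ) ^ u) ^ (cQ + 1)) ^ 2 := by gcongr
      _ ≤ _ := by rw [← pow_mul, f]; exact pow_le_pow_right₀ y1 (by omega)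
  · calc _ ≤ ((2 : ℝ) ^ u) ^ (cQ + 1) * 2 ^ (M * (b' * u)) := by gcongr
      _ = ((2 : ℝ) ^ u) ^ (cQ + 1 + M * b') := by rw [← mul_assoc, f, ← pow_add]
      _ ≤ _ := up _ (by omega)
  · have b1 : (u : ℝ) * Real.log 2 ≤ (b + 301) * r := by
      have b2 := Real.log_le_log (by positivity) y2
      rw [Real.log_pow, Real.log_pow] at b2
      have b3 := Real.log_le_self r0.le
      push_cast at b2
      have : (0 : ℝ) ≤ b := by positivity
      nlinarith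
    have b2 : (u : ℝ) ≤ 2 * (b + 301) * r := by
      have : (0 : ℝ) ≤ u := by positivity
      nlinarith [Real.log_two_gt_d9]
    have b3 : ((b' * u : ℕ) : ℝ) ≤ LL r M := by
      refine le_trans ?_ a2.1
      rw [le_div_iff₀ (by positivity)]
      push_cast
      calc _ ≤ b' * (2 * (b + 301) * r) * (4 * M) := by gcongr
        _ ≤ _ := by linarith
    exact_mod_cast b3
  · gcongr
    rw [f]
    calc r ^ 35 = (r ^ 7) ^ 5 := by ring
      _ ≤ _ := by gcongr; exact y3 7 (by omega)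

end Pool.Agent.P.MP_42fc1a_nt.EK
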