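import Pool.Agent.P.MP_42fc1a_nt.EK.IfaceD

/-! Step SG0. -/

namespace Pool.Agent.P.MP_42fc1a_nt.EK

open Finset Real Filter Topology MeasureTheory
open Pool.Agent.P.MP_e86632_nt (ee nn ee_add norm_ee ee_neg ee_zero)
open Pool.Agent.P.MP_8be758_nt.Avg (gs red ft nsq gs_pos gs_le_one gs_neg gs_anti)
open Pool.Agent.P.MP_e94e4b_nt.PF (sgm)
open Pool.Agent.P.E2
open ArithmeticFunction (vonMangoldt moebius)
open DirichletCharacter (LFunction)
open scoped Classical

namespace SG0x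

end SG0x

theorem p_SG0 :
    S_SG0 := by
  intro a lam Mx β y hM ha hl h0 hb hb1 hy hyl
  have hδ : 0 < 1 - β := by linarith
  have hx : 0 ≤ 2 - β := by linarith
  have hR : 0 < 256 * Mx := by linarith
  have hL : 0 < Real.log (256 * Mx) := Real.log_pos (by linarith)
  obtain ⟨N, hN0, hN1, hN2⟩ : ∃ N : ℕ, 0 < N ∧ 8 * Real.log (256 * Mx) ≤ N ∧
      (N : ℝ) ≤ 8 * Real.log (256 * Mx) + 1 :=
    ⟨_, Nat.ceil_pos.2 (by linarith), Nat.le_ceil _, (Nat.ceil_lt_add_one (by linarith)).le⟩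
  have t1 : -(Mx * (7 / 8) ^ N) * (1 - 7 / 8)⁻¹ ≤ y - ∑ m ∈ range N, a m * (2 - β) ^ m := by
    refine hasSum_le (fun m => ?_)
      ((hasSum_geometric_of_lt_one (r := 7 / 8) (by norm_num) (by norm_num)).mul_left _)
      ((hasSum_nat_add_iff' N).2 hy)
    have h1 := mul_le_mul_of_nonneg_right (abs_le.1 (ha (m + N))).1 (pow_nonneg hx (m + N))
    have h2 : (3 / 4 * (2 - β)) ^ (m + N) ≤ (7 / 8) ^ (m + N) :=
      pow_le_pow_left₀ (by linarith) (by linarith) _
    have h3 := mul_le_mul_of_nonneg_left h2 (by linarith : 0 ≤ Mx)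
    rw [mul_pow, pow_add (7 / 8 : ℝ)] at h3
    linarith
  have t2 : Mx * (7 / 8) ^ N ≤ 1 / 256 := by
    have h1 : (7 / 8 : ℝ) ^ N ≤ Real.exp (-(1 / 8)) ^ N :=
      pow_le_pow_left₀ (by norm_num) (by linarith [Real.add_one_le_exp (-(1 / 8))]) _
    rw [← Real.exp_nat_mul] at h1
    have h2 : Real.exp (N * -(1 / 8)) ≤ Real.exp (-Real.log (256 * Mx)) :=
      Real.exp_le_exp.2 (by linarith)
    rw [Real.exp_neg, Real.exp_log hR] at h2
    have h3 := mul_le_mul_of_nonneg_left (h1.trans h2) hR.le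
    rw [mul_inv_cancel₀ hR.ne'] at h3
    linarith
  have t3 : a 0 + lam ≤ ∑ m ∈ range N, (a m + lam) * (2 - β) ^ m := by
    have := single_le_sum (f := fun m => (a m + lam) * (2 - β) ^ m)
      (fun m _ => mul_nonneg (hl m) (pow_nonneg hx m)) (mem_range.2 hN0)
    simpa using this
  simp only [add_mul, sum_add_distrib, ← mul_sum] at t3
  have t4 : (∑ m ∈ range N, (2 - β) ^ m) * (1 - β) = (2 - β) ^ N - 1 := by
    rw [← geom_sum_mul]; ring
  rw [le_div_iff₀ hδ] at hyl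
  have t5 : (1 - β) / 32 ≤ lam * (2 - β) ^ N := by
    have h1 : 1 / 32 ≤ y + lam * ∑ m ∈ range N, (2 - β) ^ m := by linarith
    have h2 := mul_le_mul_of_nonneg_right h1 hδ.le
    rw [add_mul, mul_assoc, t4] at h2
    linarith
  have t6 : 0 < lam := pos_of_mul_pos_left (lt_of_lt_of_le (by positivity) t5)
    (pow_nonneg hx N)
  have t7 : (2 - β) ^ N ≤ 2 * (256 * Mx) ^ (8 * (1 - β)) := by
    have h1 : (2 - β) ^ N ≤ Real.exp (1 - β) ^ N :=
      pow_le_pow_left₀ hx (by linarith [Real.add_one_le_exp (1 - β)]) _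
    rw [← Real.exp_nat_mul] at h1
    have h2 : 2 * (256 * Mx) ^ (8 * (1 - β)) =
        Real.exp (Real.log 2 + Real.log (256 * Mx) * (8 * (1 - β))) := by
      rw [Real.rpow_def_of_pos hR, Real.exp_add, Real.exp_log two_pos]
    rw [h2]
    refine h1.trans (Real.exp_le_exp.2 ?_)
    have := mul_le_mul_of_nonneg_right hN2 hδ.le
    linarith [Real.log_two_gt_d9]
  rw [div_le_iff₀ (by positivity)]
  have := mul_le_mul_of_nonneg_left t7 t6.le
  linarith

end Pool.Agent.P.MP_42fc1a_nt.EK
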