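import Pool.Agent.P.MP_42fc1a_nt.EK.IfaceD

/-! Step SG1. -/

namespace Pool.Agent.P.MP_42fc1a_nt.EK

open Finset Real Filter Topology MeasureTheory
open Pool.Agent.P.MP_e86632_nt (ee nn ee_add norm_ee ee_neg ee_zero)
open Pool.Agent.P.MP_8be758_nt.Avg (gs red ft nsq gs_pos gs_le_one gs_neg gs_anti)
open Pool.Agent.P.MP_e94e4b_nt.PF (sgm)
open Pool.Agent.P.E2
open ArithmeticFunction (vonMangoldt moebius)
open DirichletCharacter (LFunction)
open scoped Classical

namespace SG1x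

theorem exZ : ∃ Z : ℂ → ℂ, Differentiable ℂ Z ∧ Z 1 = 1 ∧
    ∀ s : ℂ, s ≠ 1 → Z s = (s - 1) * riemannZeta s := by
  refine ⟨DirichletCharacter.LFunctionTrivChar₁ 1,
    DirichletCharacter.differentiable_LFunctionTrivChar₁ 1, ?_, ?_⟩
  · simp [DirichletCharacter.LFunctionTrivChar₁]
  · intro s hs
    rw [DirichletCharacter.LFunctionTrivChar₁, Function.update_of_ne hs,
      DirichletCharacter.LFunctionTrivChar, DirichletCharacter.LFunction_modOne_eq]

theorem idinv (m : ℕ) :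
    iteratedDeriv m (fun s : ℂ => (s - 1)⁻¹) 2 = (-1) ^ m * (m.factorial : ℂ) := by
  have h := congrFun (iter_deriv_inv_linear_sub m (1 : ℂ) 1) 2
  simp only [one_mul, one_pow, mul_one] at h
  rw [iteratedDeriv_eq_iterate, h]
  have : (2 : ℂ) - 1 = 1 := by norm_num
  rw [this, one_zpow, mul_one]

theorem split (F H : ℂ → ℂ) (g : ℂ) (hH : Differentiable ℂ H)
    (h : ∀ s : ℂ, s ≠ 1 → F s = H s + g * (s - 1)⁻¹) (m : ℕ) :
    (-1) ^ m * iteratedDeriv m F 2 = (-1) ^ m * iteratedDeriv m H 2 + g * (m.factorial : ℂ) := by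
  have h2 : (2 : ℂ) ≠ 1 := by norm_num
  have he : F =ᶠ[𝓝 2] fun s => H s + g * (s - 1)⁻¹ := by
    filter_upwards [isOpen_ne.mem_nhds h2] with s hs using h s hs
  have hc : ContDiffAt ℂ m (fun s : ℂ => g * (s - 1)⁻¹) 2 := by
    refine contDiffAt_const.mul (ContDiffAt.inv (by fun_prop) ?_)
    norm_num
  rw [he.iteratedDeriv_eq, iteratedDeriv_fun_add hH.contDiff.contDiffAt hc,
    iteratedDeriv_const_mul_field, idinv, mul_add]
  have h1 : ((-1 : ℂ)) ^ m * (-1) ^ m = 1 := by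
    rw [← mul_pow]; norm_num
  linear_combination g * (m.factorial : ℂ) * h1

theorem re_div (m : ℕ) (w : ℂ) :
    (((m.factorial : ℂ))⁻¹ * w).re = w.re / (m.factorial : ℝ) := by
  have : ((m.factorial : ℂ))⁻¹ = (((m.factorial : ℝ)⁻¹ : ℝ) : ℂ) := by push_cast; rfl
  rw [this, Complex.re_ofReal_mul, div_eq_inv_mul]

end SG1x

open SG1x in
theorem p_SG1 (hSG0 : S_SG0) :
    S_SG1 := by
  obtain ⟨Z, hZd, hZ1, hZ⟩ := exZ
  obtain ⟨C0, hC0⟩ := (isCompact_closedBall (2 : ℂ) (4 / 3)).exists_bound_of_continuousOn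
    hZd.continuous.continuousOn
  have h1b : (1 : ℂ) ∈ Metric.closedBall (2 : ℂ) (4 / 3) := by
    rw [Metric.mem_closedBall, dist_eq_norm]
    have : (1 : ℂ) - 2 = -1 := by norm_num
    rw [this]; norm_num
  have hC0p : 0 ≤ C0 := (norm_nonneg _).trans (hC0 1 h1b)
  set C1 : ℝ := 3 * (C0 + 1) with hC1
  have hC1p : 1 ≤ C1 := by rw [hC1]; linarith
  refine ⟨1 / (64 * (256 * C1) ^ (8 : ℝ)), by positivity, ?_⟩
  intro G Mx β hG hMx hGb hpos h0 hβ1 hβ2 hneg
  set H : ℂ → ℂ := dslope (fun s => Z s * G s) 1 with hH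
  have hHd : Differentiable ℂ H := by
    rw [← differentiableOn_univ, hH, Complex.differentiableOn_dslope Filter.univ_mem]
    exact (hZd.mul hG).differentiableOn
  have hHs : ∀ s : ℂ, s ≠ 1 → H s = (s - 1)⁻¹ * (Z s * G s - G 1) := by
    intro s hs
    rw [hH, dslope_of_ne _ hs, slope_def_module, hZ1, one_mul, smul_eq_mul]
  have hF : ∀ s : ℂ, s ≠ 1 → riemannZeta s * G s = H s + G 1 * (s - 1)⁻¹ := by
    intro s hs
    have h : s - 1 ≠ 0 := sub_ne_zero.2 hs
    rw [hHs s hs, hZ s hs]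
    field_simp
    ring
  have hHb : ∀ s ∈ Metric.sphere (2 : ℂ) (4 / 3), ‖H s‖ ≤ C1 * Mx := by
    intro s hs
    have hs' : ‖s - 2‖ = 4 / 3 := mem_sphere_iff_norm.1 hs
    have hl : 1 / 3 ≤ ‖s - 1‖ := by
      have h := norm_sub_le (s - 1) 1
      have e : s - 1 - 1 = s - 2 := by ring
      rw [e, hs', norm_one] at h
      linarith
    have hs1 : s ≠ 1 := by
      rintro rfl
      rw [sub_self, norm_zero] at hl
      linarith
    have hsb := Metric.sphere_subset_closedBall hs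
    have hi : ‖(s - 1)⁻¹‖ ≤ 3 := by
      rw [norm_inv]
      calc ‖s - 1‖⁻¹ ≤ (1 / 3)⁻¹ := inv_anti₀ (by norm_num) hl
        _ = 3 := by norm_num
    have hn : ‖Z s * G s - G 1‖ ≤ (C0 + 1) * Mx := by
      calc ‖Z s * G s - G 1‖ ≤ ‖Z s * G s‖ + ‖G 1‖ := norm_sub_le _ _
        _ ≤ C0 * Mx + Mx := by
          rw [norm_mul]
          exact add_le_add (mul_le_mul (hC0 s hsb) (hGb s hsb) (norm_nonneg _) hC0p)
            (hGb 1 h1b)
        _ = (C0 + 1) * Mx := by ring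
    rw [hHs s hs1, norm_mul]
    calc ‖(s - 1)⁻¹‖ * ‖Z s * G s - G 1‖ ≤ 3 * ((C0 + 1) * Mx) :=
          mul_le_mul hi hn (norm_nonneg _) (by norm_num)
      _ = C1 * Mx := by rw [hC1]; ring
  set a : ℕ → ℝ := fun m => ((-1) ^ m * iteratedDeriv m H 2).re / (m.factorial : ℝ) with ha
  have hfac : ∀ m : ℕ, (0 : ℝ) < (m.factorial : ℝ) := fun m => by
    exact_mod_cast m.factorial_pos
  have hsum : ∀ m : ℕ, a m + (G 1).re =
      ((-1) ^ m * iteratedDeriv m (fun s => riemannZeta s * G s) 2).re / (m.factorial : ℝ) := by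
    intro m
    rw [split _ H (G 1) hHd hF m, Complex.add_re]
    have : (G 1 * (m.factorial : ℂ)).re = (G 1).re * (m.factorial : ℝ) := by
      rw [← Complex.ofReal_natCast, Complex.re_mul_ofReal]
    rw [this, add_div, mul_div_assoc, div_self (hfac m).ne', mul_one]
  have hM1 : 1 ≤ C1 * Mx := one_le_mul_of_one_le_of_one_le hC1p hMx
  have hβne : (β : ℂ) ≠ 1 := by
    intro h
    have : β = 1 := by exact_mod_cast h
    linarith
  have key := hSG0 a (G 1).re (C1 * Mx) β (H β).re hM1 ?_ ?_ ?_ hβ1 hβ2 ?_ ?_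
  · refine le_trans ?_ (key.trans (Complex.re_le_norm _))
    have hb : 0 < 1 - β := by linarith
    have hMp : 0 < Mx := by linarith
    have e1 : (256 * (C1 * Mx)) ^ (8 * (1 - β)) =
        (256 * C1) ^ (8 * (1 - β)) * Mx ^ (8 * (1 - β)) := by
      rw [← mul_assoc, Real.mul_rpow (by positivity) hMp.le]
    have e2 : (256 * C1) ^ (8 * (1 - β)) ≤ (256 * C1) ^ (8 : ℝ) :=
      Real.rpow_le_rpow_of_exponent_le (by linarith) (by linarith)
    have e3 : 0 < Mx ^ (8 * (1 - β)) := Real.rpow_pos_of_pos hMp _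
    have e4 : 0 < (256 * C1) ^ (8 * (1 - β)) := Real.rpow_pos_of_pos (by linarith) _
    rw [e1, one_div, inv_mul_eq_div, div_div]
    apply div_le_div_of_nonneg_left hb.le (by positivity)
    nlinarith [mul_le_mul_of_nonneg_right e2 e3.le]
  · intro m
    have h := Complex.norm_iteratedDeriv_le_of_forall_mem_sphere_norm_le (c := 2) (R := 4 / 3)
      m (by norm_num) hHd.diffContOnCl hHb
    have h2 : |((-1) ^ m * iteratedDeriv m H 2).re| ≤ ‖iteratedDeriv m H 2‖ := by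
      refine (Complex.abs_re_le_norm _).trans (le_of_eq ?_)
      rw [norm_mul, norm_pow, norm_neg, norm_one, one_pow, one_mul]
    rw [ha]
    simp only
    rw [abs_div, abs_of_pos (hfac m), div_le_iff₀ (hfac m)]
    refine h2.trans (h.trans (le_of_eq ?_))
    have : (3 / 4 : ℝ) ^ m = ((4 / 3 : ℝ) ^ m)⁻¹ := by
      rw [← inv_pow]; norm_num
    rw [this]
    ring
  · intro m
    rw [hsum m]
    exact div_nonneg (hpos m) (hfac m).le
  · rw [hsum 0]
    simpa using h0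
  · have h := Complex.hasSum_re (Complex.hasSum_taylorSeries_of_entire hHd 2 (β : ℂ))
    convert h using 2 with m
    have e : ((β : ℂ) - 2) ^ m = (((2 - β) ^ m : ℝ) : ℂ) * (-1) ^ m := by
      push_cast
      rw [← mul_pow]
      congr 1
      ring
    rw [smul_eq_mul, smul_eq_mul, re_div, e, mul_assoc, Complex.re_ofReal_mul, ha]
    simp only
    ring
  · have h := hF β hβne
    have e : (G 1 * ((β : ℂ) - 1)⁻¹).re = -((G 1).re / (1 - β)) := by
      have : ((β : ℂ) - 1)⁻¹ = (((β - 1)⁻¹ : ℝ) : ℂ) := by push_cast; rfl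
      rw [this, Complex.re_mul_ofReal, ← neg_sub 1 β, inv_neg, mul_neg, div_eq_mul_inv]
    rw [h, Complex.add_re, e] at hneg
    linarith

end Pool.Agent.P.MP_42fc1a_nt.EK
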