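import Pool.Agent.P.MP_42fc1a_nt.EK.IfaceD

/-! Step SG3. -/

namespace Pool.Agent.P.MP_42fc1a_nt.EK

open Finset Real Filter Topology MeasureTheory
open Pool.Agent.P.MP_e86632_nt (ee nn ee_add norm_ee ee_neg ee_zero)
open Pool.Agent.P.MP_8be758_nt.Avg (gs red ft nsq gs_pos gs_le_one gs_neg gs_anti)
open Pool.Agent.P.MP_e94e4b_nt.PF (sgm)
open Pool.Agent.P.E2
open ArithmeticFunction (vonMangoldt moebius)
open DirichletCharacter (LFunction)
open scoped Classical

namespace SG3x

def Pos (w : ℂ) : Prop := w.im = 0 ∧ 0 ≤ w.re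

lemma Pos.mul {a b : ℂ} (h : Pos a) (h' : Pos b) : Pos (a * b) := by
  refine ⟨?_, ?_⟩
  · rw [Complex.mul_im, h.1, h'.1]; ring
  · rw [Complex.mul_re, h.1, h'.1, mul_zero, sub_zero]; exact mul_nonneg h.2 h'.2

lemma Pos.add {a b : ℂ} (h : Pos a) (h' : Pos b) : Pos (a + b) := by
  refine ⟨?_, ?_⟩
  · rw [Complex.add_im, h.1, h'.1, add_zero]
  · rw [Complex.add_re]; exact add_nonneg h.2 h'.2

lemma pos_nat (n : ℕ) : Pos (n : ℂ) := ⟨by simp, by simp⟩

lemma pos_sum (s : Finset ℕ) (f : ℕ → ℂ) (h : ∀ i ∈ s, Pos (f i)) : Pos (∑ i ∈ s, f i) :=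
  Finset.sum_induction f Pos (fun _ _ => Pos.add) ⟨by simp, by simp⟩ h

end SG3x

theorem p_SG3 :
    S_SG3 := by
  intro F D U z hU hz hF hD hd h0 hDp m
  change SG3x.Pos _
  induction m using Nat.strong_induction_on with
  | _ m ih =>
    rcases m with _ | m
    · simpa [SG3x.Pos] using h0
    · have hUz : U ∈ 𝓝 z := hU.mem_nhds hz
      have e1 : deriv F =ᶠ[𝓝 z] fun s => -(D s * F s) := by
        filter_upwards [hUz] with s hs using hd s hs
      have cF : ContDiffAt ℂ m F z := (hF.analyticAt hUz).contDiffAt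
      have cD : ContDiffAt ℂ m D z := (hD.analyticAt hUz).contDiffAt
      rw [iteratedDeriv_succ', e1.iteratedDeriv_eq m, iteratedDeriv_fun_neg,
        iteratedDeriv_fun_mul cD cF]
      have e2 : (-1 : ℂ) ^ (m + 1) * -∑ i ∈ range (m + 1),
          (m.choose i : ℂ) * iteratedDeriv i D z * iteratedDeriv (m - i) F z =
          ∑ i ∈ range (m + 1), (m.choose i : ℂ) * (((-1) ^ i * iteratedDeriv i D z) *
            ((-1) ^ (m - i) * iteratedDeriv (m - i) F z)) := by
        rw [pow_succ, mul_neg, mul_neg, neg_mul, neg_neg, mul_one, mul_sum]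
        refine sum_congr rfl fun i hi => ?_
        have h1 : (-1 : ℂ) ^ m = (-1) ^ i * (-1) ^ (m - i) := by
          rw [← pow_add]
          congr 1
          have := mem_range.1 hi
          omega
        rw [h1]; ring
      rw [e2]
      exact SG3x.pos_sum _ _ fun i _ =>
        (SG3x.pos_nat _).mul (SG3x.Pos.mul (hDp i) (ih (m - i) (by omega)))

end Pool.Agent.P.MP_42fc1a_nt.EK
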