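import Pool.Agent.P.MP_42fc1a_nt.EK.IfaceD

/-! Step SG5. -/

namespace Pool.Agent.P.MP_42fc1a_nt.EK

open Finset Real Filter Topology MeasureTheory
open Pool.Agent.P.MP_e86632_nt (ee nn ee_add norm_ee ee_neg ee_zero)
open Pool.Agent.P.MP_8be758_nt.Avg (gs red ft nsq gs_pos gs_le_one gs_neg gs_anti)
open Pool.Agent.P.MP_e94e4b_nt.PF (sgm)
open Pool.Agent.P.E2
open ArithmeticFunction (vonMangoldt moebius)
open DirichletCharacter (LFunction)
open scoped Classical

namespace SG5x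

lemma two_pow (ε : ℝ) (hε : 0 < ε) : ∃ C : ℝ, 0 < C ∧ ∀ q : ℕ, q ≠ 0 →
    (2 : ℝ) ^ q.primeFactors.card ≤ C * (q : ℝ) ^ ε := by
  obtain ⟨N, hN⟩ := exists_nat_ge ((2 : ℝ) ^ (1 / ε))
  refine ⟨2 ^ N, by positivity, fun q hq => ?_⟩
  have h1 : ∀ p ∈ q.primeFactors, (2 : ℝ) ≤ (if p < N then 2 else 1) * (p : ℝ) ^ ε := by
    intro p hp
    have p1 : (1 : ℝ) ≤ p := by exact_mod_cast (Nat.prime_of_mem_primeFactors hp).one_le
    split_ifs with h
    · have := Real.one_le_rpow p1 hε.le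
      linarith
    · rw [one_mul]
      have h2 : (2 : ℝ) ^ (1 / ε) ≤ p := hN.trans (by exact_mod_cast not_lt.1 h)
      have h3 := Real.rpow_le_rpow (by positivity) h2 hε.le
      rwa [← Real.rpow_mul zero_le_two, one_div_mul_cancel hε.ne', Real.rpow_one] at h3
  have h2 : ∏ p ∈ q.primeFactors, (if p < N then (2 : ℝ) else 1) ≤ 2 ^ N := by
    rw [← prod_filter, prod_const]
    refine pow_le_pow_right₀ one_le_two ?_
    exact (card_le_card (fun p hp => mem_range.2 (mem_filter.1 hp).2)).trans (card_range N).le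
  have h3 : ∏ p ∈ q.primeFactors, (p : ℝ) ^ ε ≤ (q : ℝ) ^ ε := by
    rw [Real.finsetProd_rpow _ _ (fun p _ => Nat.cast_nonneg p), ← Nat.cast_prod]
    refine Real.rpow_le_rpow (Nat.cast_nonneg _) ?_ hε.le
    exact_mod_cast Nat.le_of_dvd (Nat.pos_of_ne_zero hq) (Nat.prod_primeFactors_dvd q)
  calc (2 : ℝ) ^ q.primeFactors.card = ∏ p ∈ q.primeFactors, (2 : ℝ) := (prod_const _).symm
    _ ≤ ∏ p ∈ q.primeFactors, (if p < N then (2 : ℝ) else 1) * (p : ℝ) ^ ε :=
        prod_le_prod (fun _ _ => zero_le_two) h1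
    _ ≤ _ := by
        rw [prod_mul_distrib]
        exact mul_le_mul h2 h3 (prod_nonneg fun _ _ => by positivity) (by positivity)

lemma small {q : ℕ} (χ : DirichletCharacter ℂ q) {p : ℕ} (hp : p.Prime) :
    ‖χ p * (p : ℂ) ^ (-1 : ℂ)‖ ≤ 1 / 2 := by
  rw [Complex.cpow_neg_one, norm_mul, norm_inv, Complex.norm_natCast]
  have h1 := χ.norm_le_one p
  have h2 : (2 : ℝ) ≤ p := by exact_mod_cast hp.two_le
  have h3 : (p : ℝ)⁻¹ ≤ 1 / 2 := by rw [one_div]; exact inv_anti₀ two_pos h2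
  calc _ ≤ 1 * (1 / 2 : ℝ) := mul_le_mul h1 h3 (by positivity) zero_le_one
    _ = _ := one_mul _

lemma upper (q1 q : ℕ) (h1 : q1 ≠ 0) (hq : q ≠ 0) (χ : DirichletCharacter ℂ q) :
    ‖∏ p ∈ (q1 * q).primeFactors, (1 - χ p * (p : ℂ) ^ (-1 : ℂ))‖ ≤ 2 ^ q1.primeFactors.card := by
  rw [norm_prod]
  have h2 : ∀ p ∈ (q1 * q).primeFactors, ‖1 - χ p * (p : ℂ) ^ (-1 : ℂ)‖ ≤
      if p ∈ q1.primeFactors then 2 else 1 := by
    intro p hp
    have pp := Nat.prime_of_mem_primeFactors hp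
    split_ifs with h
    · have := (norm_sub_le 1 _).trans (add_le_add le_rfl (small χ pp))
      rw [norm_one] at this
      linarith
    · have hd : p ∣ q := by
        rw [Nat.primeFactors_mul h1 hq, mem_union] at hp
        exact Nat.dvd_of_mem_primeFactors (hp.resolve_left h)
      have h0 : χ p = 0 := χ.map_nonunit fun hu =>
        pp.one_lt.ne' (Nat.Coprime.eq_one_of_dvd ((ZMod.isUnit_iff_coprime p q).1 hu) hd)
      rw [h0, zero_mul, sub_zero, norm_one]
  refine (prod_le_prod (fun _ _ => norm_nonneg _) h2).trans ?_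
  rw [← prod_filter, prod_const]
  exact pow_le_pow_right₀ one_le_two (card_le_card fun p hp => (mem_filter.1 hp).2)

lemma lower (q1 N : ℕ) (χ : DirichletCharacter ℂ q1) :
    (1 / 2 : ℝ) ^ N.primeFactors.card ≤
      ‖∏ p ∈ N.primeFactors, (1 - χ p * (p : ℂ) ^ (-1 : ℂ))‖ := by
  rw [norm_prod, ← prod_const]
  refine prod_le_prod (fun _ _ => by positivity) fun p hp => ?_
  have h1 := small χ (Nat.prime_of_mem_primeFactors hp)
  have h2 := norm_sub_norm_le (1 : ℂ) (χ p * (p : ℂ) ^ (-1 : ℂ))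
  rw [norm_one] at h2
  linarith

end SG5x

theorem p_SG5 :
    S_SG5 := by
  intro ε q1 _ χ1 hε hχ1
  obtain ⟨C, hC, hb⟩ := SG5x.two_pow ε hε
  have hL : 0 < ‖LFunction χ1 1‖ :=
    norm_pos_iff.2 (DirichletCharacter.LFunction_apply_one_ne_zero hχ1)
  refine ⟨‖LFunction χ1 1‖ / (2 ^ q1.primeFactors.card * 2 ^ q1.primeFactors.card * C),
    by positivity, fun q _ χ hχ h => ?_⟩
  have h1 : q1 ≠ 0 := NeZero.ne q1
  have hq : q ≠ 0 := NeZero.ne q
  have : NeZero (q1 * q) := ⟨mul_ne_zero h1 hq⟩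
  have e : DirichletCharacter.changeLevel (Dvd.intro_left q1 rfl : q ∣ q1 * q) χ =
      DirichletCharacter.changeLevel (Dvd.intro q rfl : q1 ∣ q1 * q) χ1 := by
    refine MulChar.ext fun u => ?_
    rw [DirichletCharacter.changeLevel_eq_cast_of_dvd,
      DirichletCharacter.changeLevel_eq_cast_of_dvd, ZMod.cast_eq_val, ZMod.cast_eq_val]
    exact h _ (ZMod.val_coe_unit_coprime u)
  have e1 := DirichletCharacter.LFunction_changeLevel (Dvd.intro_left q1 rfl : q ∣ q1 * q) χ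
    (s := 1) (Or.inl hχ)
  have e2 := DirichletCharacter.LFunction_changeLevel (Dvd.intro q rfl : q1 ∣ q1 * q) χ1
    (s := 1) (Or.inl hχ1)
  rw [e, e2] at e1
  have e3 := congrArg norm e1
  rw [norm_mul, norm_mul] at e3
  have u1 := SG5x.upper q1 q h1 hq χ
  have l1 := SG5x.lower q1 (q1 * q) χ1
  have hc : (q1 * q).primeFactors.card ≤ q1.primeFactors.card + q.primeFactors.card := by
    rw [Nat.primeFactors_mul h1 hq]; exact card_union_le _ _
  have q0 : (0 : ℝ) < (q : ℝ) ^ ε := Real.rpow_pos_of_pos (by exact_mod_cast Nat.pos_of_ne_zero hq) _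
  have l2 : 1 / (2 ^ q1.primeFactors.card * (C * (q : ℝ) ^ ε)) ≤
      (1 / 2 : ℝ) ^ (q1 * q).primeFactors.card := by
    rw [one_div_pow]
    refine one_div_le_one_div_of_le (by positivity) ?_
    refine (pow_le_pow_right₀ one_le_two hc).trans ?_
    rw [pow_add]
    exact mul_le_mul_of_nonneg_left (hb q hq) (by positivity)
  have k1 : ‖LFunction χ1 1‖ * (1 / (2 ^ q1.primeFactors.card * (C * (q : ℝ) ^ ε))) ≤
      ‖LFunction χ 1‖ * 2 ^ q1.primeFactors.card :=
    ((mul_le_mul_of_nonneg_left (l2.trans l1) hL.le).trans e3.le).trans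
      (mul_le_mul_of_nonneg_left u1 (norm_nonneg _))
  rw [← div_le_iff₀ (by positivity)] at k1
  refine le_trans (le_of_eq ?_) k1
  field_simp

end Pool.Agent.P.MP_42fc1a_nt.EK
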