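import Pool.Agent.P.MP_42fc1a_nt.EK.IfaceD

/-! Step SG6. -/

namespace Pool.Agent.P.MP_42fc1a_nt.EK

open Finset Real Filter Topology MeasureTheory
open Pool.Agent.P.MP_e86632_nt (ee nn ee_add norm_ee ee_neg ee_zero)
open Pool.Agent.P.MP_8be758_nt.Avg (gs red ft nsq gs_pos gs_le_one gs_neg gs_anti)
open Pool.Agent.P.MP_e94e4b_nt.PF (sgm)
open Pool.Agent.P.E2
open ArithmeticFunction (vonMangoldt moebius)
open DirichletCharacter (LFunction)
open scoped Classical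

namespace SG6x

theorem ball (hLB0 : S_LB0) (q : ℕ) [NeZero q] (χ : DirichletCharacter ℂ q) (hχ : χ ≠ 1) {s : ℂ}
    (hs : s ∈ Metric.closedBall (2 : ℂ) (4 / 3)) : ‖LFunction χ s‖ ≤ 21 * q := by
  rw [mem_closedBall_iff_norm] at hs
  have h1 := (abs_le.1 ((Complex.abs_re_le_norm _).trans hs)).1
  have h2 : ‖s‖ ≤ ‖s - 2‖ + ‖(2 : ℂ)‖ := norm_le_norm_sub_add _ _
  simp only [Complex.sub_re, Complex.re_ofNat, Complex.norm_ofNat] at h1 h2
  refine ((hLB0 q χ s hχ (by linarith)).1).trans ?_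
  rw [mul_comm]
  exact mul_le_mul_of_nonneg_right (by linarith) (Nat.cast_nonneg _)

end SG6x

theorem p_SG6 (hLB0 : S_LB0) (hSG1 : S_SG1) (hSG4 : S_SG4) :
    S_SG6 := by
  intro ε β q1 _ χ1 h1 h1' b1 b2 hε
  obtain ⟨c, c0, H⟩ := hSG1
  have e0 : 0 < ε / 2 := by linarith
  have A1 : (1 : ℝ) ≤ q1 := by exact_mod_cast NeZero.one_le
  have K1 : (0 : ℝ) < (21 ^ 3 * (q1 : ℝ) ^ 2) ^ (8 * (1 - β)) := by positivity
  have K2 : (0 : ℝ) < 7 + 3 * ((q1 : ℝ) ^ (ε / 2) / (ε / 2)) := by positivity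
  have d0 : 0 < c * (1 - β) := mul_pos c0 (by linarith)
  refine ⟨c * (1 - β) / ((21 ^ 3 * (q1 : ℝ) ^ 2) ^ (8 * (1 - β)) * (7 * q1) *
    (7 + 3 * ((q1 : ℝ) ^ (ε / 2) / (ε / 2)))), by positivity, ?_⟩
  intro q _ χ ψ h2 h2' h3 h3' hc hz
  have Q1 : (1 : ℝ) ≤ q := by exact_mod_cast NeZero.one_le
  obtain ⟨s1, s2⟩ := hSG4 q1 q χ1 χ ψ h1 h1' h2 h2' h3 h3' hc
  have hG := H (L3 χ1 χ ψ) (21 ^ 3 * (q1 : ℝ) ^ 2 * (q : ℝ) ^ 2) β
    (((DirichletCharacter.differentiable_LFunction h1).mul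
      (DirichletCharacter.differentiable_LFunction h2)).mul
      (DirichletCharacter.differentiable_LFunction h3))
    (one_le_mul_of_one_le_of_one_le (one_le_mul_of_one_le_of_one_le (by norm_num)
      (one_le_pow₀ A1)) (one_le_pow₀ Q1))
    (fun s hs => by
      have a := SG6x.ball hLB0 q1 χ1 h1 hs
      have b := SG6x.ball hLB0 q χ h2 hs
      have d := SG6x.ball hLB0 (q1 * q) ψ h3 hs
      rw [L3, norm_mul, norm_mul]
      refine (mul_le_mul (mul_le_mul a b (norm_nonneg _) (by positivity)) d (norm_nonneg _)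
        (by positivity)).trans_eq ?_
      push_cast
      ring) s1 s2 b1 b2 hz
  have R1 : (1 : ℝ) ≤ (q : ℝ) ^ (ε / 2) := Real.one_le_rpow Q1 e0.le
  have m1 : ((q : ℝ) ^ 2) ^ (8 * (1 - β)) ≤ (q : ℝ) ^ (ε / 2) := by
    rw [← Real.rpow_natCast, ← Real.rpow_mul (by positivity)]
    exact Real.rpow_le_rpow_of_exponent_le Q1 (by push_cast; linarith)
  have m2 : ‖LFunction χ1 1‖ ≤ 7 * q1 := by
    have := (hLB0 q1 χ1 1 h1 (by norm_num)).1
    rw [norm_one] at this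
    linarith
  have m3 : ‖LFunction ψ 1‖ ≤ (7 + 3 * ((q1 : ℝ) ^ (ε / 2) / (ε / 2))) * (q : ℝ) ^ (ε / 2) := by
    have a := (hLB0 (q1 * q) ψ 1 h3 (by norm_num)).2 0 le_rfl (by norm_num)
    rw [norm_one, mul_zero, Real.rpow_zero, one_mul, Nat.cast_mul] at a
    have b := Real.log_le_rpow_div (x := (q1 : ℝ) * q) (by positivity) e0
    rw [Real.mul_rpow (by positivity) (by positivity), mul_div_right_comm] at b
    linarith
  rw [L3, norm_mul, norm_mul, Real.mul_rpow (by positivity) (by positivity),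
    div_le_iff₀ (by positivity)] at hG
  rw [div_div, div_le_iff₀ (by positivity)]
  refine hG.trans ((mul_le_mul (mul_le_mul (mul_le_mul_of_nonneg_right m2 (norm_nonneg _)) m3
    (norm_nonneg _) (by positivity)) (mul_le_mul_of_nonneg_left m1 K1.le) (by positivity)
    (by positivity)).trans_eq ?_)
  rw [show (q : ℝ) ^ ε = (q : ℝ) ^ (ε / 2) * (q : ℝ) ^ (ε / 2) by
    rw [← Real.rpow_add (by positivity), add_halves]]
  ring

end Pool.Agent.P.MP_42fc1a_nt.EK
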