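import Pool.Agent.P.MP_42fc1a_nt.EK.IfaceB

/-! Step SGM. -/

namespace Pool.Agent.P.MP_42fc1a_nt.EK

open Finset Real Filter Topology MeasureTheory
open Pool.Agent.P.MP_e86632_nt (ee nn ee_add norm_ee ee_neg ee_zero)
open Pool.Agent.P.MP_8be758_nt.Avg (gs red ft nsq gs_pos gs_le_one gs_neg gs_anti)
open Pool.Agent.P.MP_e94e4b_nt.PF (sgm)
open Pool.Agent.P.E2
open ArithmeticFunction (vonMangoldt moebius)
open DirichletCharacter (LFunction)
open scoped Classical

namespace SGMx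

theorem dvd_of {h : ℕ} {t : Finset ℕ} (ht : t ⊆ h.primeFactors) : (∏ l ∈ t, l) ∣ h :=
  Finset.prod_primes_dvd h (fun _ hp => (Nat.prime_of_mem_primeFactors (ht hp)).prime)
    fun _ hp => Nat.dvd_of_mem_primeFactors (ht hp)

theorem big {h Z : ℕ} (hZ : 5 ≤ Z) (h0 : h ≠ 0) (hh : h ≤ 2 ^ Z) {B : Finset ℕ}
    (hB : B ⊆ h.primeFactors) (hb : ∀ p ∈ B, Z < p) :
    ∏ p ∈ B, (1 + 2 / ((p : ℝ) - 2)) ≤ 100 := by
  have h1 : 2 ^ B.card ≤ 2 ^ Z :=
    ((pow_card_le_prod B (fun p => p) 2 fun p hp => by have := hb p hp; omega).trans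
      (Nat.le_of_dvd (Nat.pos_of_ne_zero h0) (dvd_of hB))).trans hh
  have h2 : (B.card : ℝ) ≤ Z := by
    exact_mod_cast (Nat.pow_le_pow_iff_right (by norm_num)).1 h1
  have hZ' : (5 : ℝ) ≤ Z := by exact_mod_cast hZ
  have h3 : ∀ p ∈ B, (Z : ℝ) - 1 ≤ (p : ℝ) - 2 := fun p hp => by
    have : (Z : ℝ) + 1 ≤ p := by exact_mod_cast hb p hp
    linarith
  calc ∏ p ∈ B, (1 + 2 / ((p : ℝ) - 2)) ≤ ∏ _p ∈ B, rexp (2 / ((Z : ℝ) - 1)) := by
        refine prod_le_prod (fun p hp => ?_) fun p hp => ?_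
        · have := h3 p hp
          have : (0 : ℝ) ≤ 2 / ((p : ℝ) - 2) := div_nonneg (by norm_num) (by linarith)
          linarith
        · have h4 : 2 / ((p : ℝ) - 2) ≤ 2 / ((Z : ℝ) - 1) :=
            div_le_div_of_nonneg_left (by norm_num) (by linarith) (h3 p hp)
          linarith [add_one_le_exp (2 / ((Z : ℝ) - 1))]
    _ = rexp (B.card * (2 / ((Z : ℝ) - 1))) := by rw [prod_const, exp_nat_mul]
    _ ≤ rexp ((3 : ℕ) * 1) := by
        refine exp_le_exp.2 ?_
        rw [← mul_div_assoc, div_le_iff₀ (by linarith)]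
        push_cast
        linarith
    _ ≤ 100 := by
        rw [exp_nat_mul]
        exact (pow_le_pow_left₀ (exp_pos 1).le exp_one_lt_d9.le 3).trans (by norm_num)

end SGMx

theorem p_SGM :
    S_SGM := by
  intro h Z hZ h0 hh
  have hg : ∀ l : ℕ, 5 ≤ l → (0 : ℝ) ≤ 2 / ((l : ℝ) - 2) := fun l hl => by
    have : (5 : ℝ) ≤ l := by exact_mod_cast hl
    exact div_nonneg (by norm_num) (by linarith)
  have e1 : sgm h = ∏ p ∈ h.primeFactors.filter (5 ≤ ·), (1 + 2 / ((p : ℝ) - 2)) := by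
    refine prod_congr rfl fun p hp => ?_
    have : (5 : ℝ) ≤ p := by exact_mod_cast (mem_filter.1 hp).2
    have h1 : (p : ℝ) - 2 ≠ 0 := by linarith
    have h2 : (p : ℝ) ≠ 0 := by linarith
    field_simp
    ring
  rw [e1, ← prod_filter_mul_prod_filter_not _ (fun p => Z < p)]
  refine mul_le_mul (SGMx.big hZ h0 hh ((filter_subset _ _).trans (filter_subset _ _))
    fun p hp => (mem_filter.1 hp).2) ?_ (prod_nonneg fun p hp => ?_) (by norm_num)
  · rw [prod_one_add]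
    refine (sum_congr rfl fun t ht => ?_).trans_le (sum_le_sum_of_subset_of_nonneg
      (powerset_mono.2 fun p hp => ?_) fun t ht _ => ?_)
    · rw [if_pos (SGMx.dvd_of ((mem_powerset.1 ht).trans
        ((filter_subset _ _).trans (filter_subset _ _))))]
    · obtain ⟨h1, h2⟩ := mem_filter.1 hp
      obtain ⟨h3, h4⟩ := mem_filter.1 h1
      exact mem_filter.2 ⟨mem_range.2 (by omega), Nat.prime_of_mem_primeFactors h3, h4⟩
    · split_ifs
      · exact prod_nonneg fun l hl => hg l (mem_filter.1 (mem_powerset.1 ht hl)).2.2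
      · exact le_rfl
  · have := hg p (mem_filter.1 (mem_filter.1 hp).1).2
    linarith

end Pool.Agent.P.MP_42fc1a_nt.EK
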