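import Pool.Agent.P.MP_42fc1a_nt.EK.IfaceB

/-! Step SHF. -/

namespace Pool.Agent.P.MP_42fc1a_nt.EK

open Finset Real Filter Topology MeasureTheory
open Pool.Agent.P.MP_e86632_nt (ee nn ee_add norm_ee ee_neg ee_zero)
open Pool.Agent.P.MP_8be758_nt.Avg (gs red ft nsq gs_pos gs_le_one gs_neg gs_anti)
open Pool.Agent.P.MP_e94e4b_nt.PF (sgm)
open Pool.Agent.P.E2
open ArithmeticFunction (vonMangoldt moebius)
open DirichletCharacter (LFunction)
open scoped Classical

namespace SHFx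

end SHFx

theorem p_SHF :
    S_SHF := by
  intro M σ hM
  have ht : Tendsto (fun r : ℝ => r ^ 13) atTop atTop := tendsto_pow_atTop (by norm_num)
  filter_upwards [ht.eventually_ge_atTop (4 * M), ht.eventually_ge_atTop (2 * (σ + 6))]
    with r h1 h2
  have hM' : (2 : ℝ) ≤ M := by exact_mod_cast hM
  have hσ : (0 : ℝ) ≤ σ := Nat.cast_nonneg σ
  unfold LL II XX
  generalize r ^ 13 = y at h1 h2
  have hE : Real.exp y = Real.exp (y / 2) ^ 2 := by rw [pow_two, ← Real.exp_add, add_halves]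
  have hE1 : σ + 7 ≤ Real.exp (y / 2) := by linarith [Real.add_one_le_exp (y / 2)]
  have hp : ∀ a : ℕ, a ≤ ⌊y / (2 * M)⌋₊ → ((2 ^ (M * a) : ℕ) : ℝ) ≤ Real.exp (y / 2) := by
    intro a ha
    have a1 : (a : ℝ) ≤ y / (2 * M) := (Nat.le_floor_iff (div_nonneg (by linarith)
      (by linarith))).1 ha
    rw [le_div_iff₀ (by linarith)] at a1
    have a2 : (2 : ℝ) ≤ Real.exp 1 := by linarith [Real.add_one_le_exp (1 : ℝ)]
    calc ((2 ^ (M * a) : ℕ) : ℝ) = 2 ^ (M * a) := by push_cast; rfl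
      _ ≤ Real.exp 1 ^ (M * a) := pow_le_pow_left₀ (by norm_num) a2 _
      _ = Real.exp ((M * a : ℕ) : ℝ) := Real.exp_one_pow _
      _ ≤ _ := Real.exp_le_exp.2 (by push_cast; linarith)
  refine ⟨?_, fun n a a' s n1 n2 b1 b2 b3 => ?_⟩
  · have a1 := Nat.lt_floor_add_one (y / (2 * M))
    have a2 : 1 ≤ y / (4 * M) := (one_le_div (by linarith)).2 h1
    have a3 : y / (2 * M) = 2 * (y / (4 * M)) := by field_simp; ring
    linarith
  have c1 := hp a b1
  have c2 := hp a' b2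
  have c3 := hp s b3
  have hX := Real.exp_pos y
  have c4 : ((σ + 2 ^ (M * a) + 2 ^ (M * a') + 2 ^ (M * s) : ℕ) : ℝ) ≤ Real.exp y / 2 := by
    rw [Nat.cast_add, Nat.cast_add, Nat.cast_add, hE]; nlinarith
  generalize σ + 2 ^ (M * a) + 2 ^ (M * a') + 2 ^ (M * s) = S at c4
  have c5 : S ≤ n := by
    have : (S : ℝ) ≤ n := by linarith
    exact_mod_cast this
  have c6 : Real.exp y / 2 ≤ ((n - S : ℕ) : ℝ) := by rw [Nat.cast_sub c5]; linarith
  have c7 : ((n - S : ℕ) : ℝ) ≤ 2 * Real.exp y := by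
    rw [Nat.cast_sub c5]; linarith [Nat.cast_nonneg (α := ℝ) S]
  have l2 : Real.log 2 ≤ 1 := by linarith [Real.log_le_sub_one_of_pos (two_pos (α := ℝ))]
  refine ⟨by rwa [hE, Real.sqrt_sq (Real.exp_pos _).le], c5, mem_Ioc.2
    ⟨(Nat.floor_lt (by positivity)).2 (by linarith), Nat.le_floor (by linarith)⟩, abs_le.2 ⟨?_, ?_⟩⟩
  · have := Real.log_le_log (by positivity) c6
    rw [Real.log_div hX.ne' two_ne_zero, Real.log_exp] at this
    linarith
  · have := Real.log_le_log (by linarith) c7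
    rw [Real.log_mul two_ne_zero hX.ne', Real.log_exp] at this
    linarith

end Pool.Agent.P.MP_42fc1a_nt.EK
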