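import Pool.Agent.P.MP_42fc1a_nt.EK.IfaceD

/-! Step SIE. -/

namespace Pool.Agent.P.MP_42fc1a_nt.EK

open Finset Real Filter Topology MeasureTheory
open Pool.Agent.P.MP_e86632_nt (ee nn ee_add norm_ee ee_neg ee_zero)
open Pool.Agent.P.MP_8be758_nt.Avg (gs red ft nsq gs_pos gs_le_one gs_neg gs_anti)
open Pool.Agent.P.MP_e94e4b_nt.PF (sgm)
open Pool.Agent.P.E2
open ArithmeticFunction (vonMangoldt moebius)
open DirichletCharacter (LFunction)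
open scoped Classical

namespace SIEx

theorem lev {q m : ℕ} (χ : DirichletCharacter ℂ q) (h : q ∣ m) {n : ℕ} (hn : n.Coprime m) :
    DirichletCharacter.changeLevel h χ (n : ZMod m) = χ n := by
  simpa using DirichletCharacter.changeLevel_eq_cast_of_dvd' χ h (a := (n : ℤ))
    (Nat.isCoprime_iff_coprime.2 hn)

theorem psi {q1 q : ℕ} (χ1 : DirichletCharacter ℂ q1) (χ : DirichletCharacter ℂ q)
    (h1 : χ1 ^ 2 = 1) (h : χ ^ 2 = 1) : ∃ ψ : DirichletCharacter ℂ (q1 * q), ψ ^ 2 = 1 ∧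
      ∀ n, ch ψ n = ch χ1 n * ch χ n := by
  refine ⟨DirichletCharacter.changeLevel (dvd_mul_right q1 q) χ1 *
    DirichletCharacter.changeLevel (dvd_mul_left q q1) χ, ?_, fun n => ?_⟩
  · rw [mul_pow, ← map_pow, ← map_pow, h1, h, map_one, map_one, mul_one]
  · unfold ch
    by_cases hn : n.Coprime (q1 * q)
    · rw [MulChar.mul_apply, lev _ _ hn, lev _ _ hn]
    · rw [MulChar.map_nonunit _ (fun e => hn ((ZMod.isUnit_iff_coprime _ _).1 e))]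
      rw [Nat.coprime_mul_iff_right, not_and_or] at hn
      rcases hn with hn | hn
      · rw [χ1.map_nonunit (fun e => hn ((ZMod.isUnit_iff_coprime _ _).1 e)), zero_mul]
      · rw [χ.map_nonunit (fun e => hn ((ZMod.isUnit_iff_coprime _ _).1 e)), mul_zero]

theorem fin (hSG5 : S_SG5) (hSG6 : S_SG6) {ε β : ℝ} {q1 : ℕ} [NeZero q1]
    {χ1 : DirichletCharacter ℂ q1} (hε : 0 < ε) (h1 : χ1 ≠ 1) (h2 : χ1 ^ 2 = 1) (b1 : 5 / 6 ≤ β)
    (b2 : β < 1) (b3 : 32 * (1 - β) ≤ ε)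
    (hz : ∀ (q : ℕ) [NeZero q] (χ : DirichletCharacter ℂ q) (ψ : DirichletCharacter ℂ (q1 * q)),
      χ ≠ 1 → χ ^ 2 = 1 → ψ ≠ 1 → ψ ^ 2 = 1 → (riemannZeta β * L3 χ1 χ ψ β).re ≤ 0) :
    ∃ c : ℝ, 0 < c ∧ ∀ (q : ℕ) [NeZero q] (χ : DirichletCharacter ℂ q), χ ≠ 1 → χ ^ 2 = 1 →
      c / (q : ℝ) ^ ε ≤ ‖LFunction χ 1‖ := by
  obtain ⟨c5, p5, h5⟩ := hSG5 ε q1 χ1 hε h1
  obtain ⟨c6, p6, h6⟩ := hSG6 ε β q1 χ1 h1 h2 b1 b2 b3
  refine ⟨min c5 c6, lt_min p5 p6, fun q _ χ a1 a2 => ?_⟩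
  obtain ⟨ψ, e1, e2⟩ := psi χ1 χ h2 a2
  have hq : (0 : ℝ) ≤ (q : ℝ) ^ ε := by positivity
  by_cases hψ : ψ = 1
  · refine (div_le_div_of_nonneg_right (min_le_left _ _) hq).trans (h5 q χ a1 fun n hn => ?_)
    have f1 : ch χ1 n * ch χ n = 1 := by
      rw [← e2, hψ]
      exact MulChar.one_apply ((ZMod.isUnit_iff_coprime _ _).2 hn)
    have f2 : ch χ1 n * ch χ1 n = 1 := by
      have u := (ZMod.isUnit_iff_coprime _ _).2 (Nat.coprime_mul_iff_right.1 hn).1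
      have := congrArg (fun x : DirichletCharacter ℂ q1 => x (n : ZMod q1)) h2
      simp only [pow_two, MulChar.mul_apply] at this
      exact this.trans (MulChar.one_apply u)
    linear_combination ch χ1 n * f1 - ch χ n * f2
  · exact (div_le_div_of_nonneg_right (min_le_right _ _) hq).trans
      (h6 q χ ψ a1 a2 hψ e1 e2 (hz q χ ψ a1 a2 hψ e1))

end SIEx

theorem p_SIE (hREAL : S_REAL) (hZNG : S_ZNG) (hSG5 : S_SG5) (hSG6 : S_SG6) :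
    S_SIE := by
  intro ε hε
  obtain ⟨δ, hδ, hz⟩ := hZNG
  obtain ⟨e, e0, e1, e2, e3⟩ : ∃ e : ℝ, 0 < e ∧ e ≤ 1 / 6 ∧ e ≤ ε / 32 ∧ e ≤ δ :=
    ⟨min (1 / 6) (min (ε / 32) δ), by positivity, min_le_left _ _,
      (min_le_right _ _).trans (min_le_left _ _), (min_le_right _ _).trans (min_le_right _ _)⟩
  by_cases hA : ∃ (q1 : ℕ) (_ : NeZero q1) (χ1 : DirichletCharacter ℂ q1) (β : ℝ), χ1 ≠ 1 ∧
      χ1 ^ 2 = 1 ∧ 1 - e ≤ β ∧ β < 1 ∧ LFunction χ1 β = 0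
  · obtain ⟨q1, _, χ1, β, h1, h2, b1, b2, b3⟩ := hA
    refine SIEx.fin hSG5 hSG6 (β := β) hε h1 h2 (by linarith) b2 (by linarith)
      fun q _ χ ψ _ _ _ _ => ?_
    simp [L3, b3]
  · have pos : ∀ (q : ℕ) [NeZero q] (χ : DirichletCharacter ℂ q), χ ≠ 1 → χ ^ 2 = 1 →
        ∃ x : ℝ, 0 < x ∧ LFunction χ ((1 - e : ℝ) : ℂ) = x := fun q _ χ a1 a2 => by
      obtain ⟨r1, -, r3⟩ := hREAL q χ a1 a2
      exact ⟨_, r3 (1 - e) (by linarith) (by linarith) fun σ s1 s2 s3 =>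
        hA ⟨q, inferInstance, χ, σ, a1, a2, s1, s2, s3⟩,
        Complex.ext rfl (by rw [r1 _ (by linarith), Complex.ofReal_im])⟩
    by_cases hB : ∃ (q1 : ℕ) (_ : NeZero q1) (χ1 : DirichletCharacter ℂ q1), χ1 ≠ 1 ∧ χ1 ^ 2 = 1
    · obtain ⟨q1, _, χ1, h1, h2⟩ := hB
      refine SIEx.fin hSG5 hSG6 (β := 1 - e) hε h1 h2 (by linarith) (by linarith) (by linarith)
        fun q _ χ ψ a1 a2 a3 a4 => ?_
      obtain ⟨x, x0, hx⟩ := pos q1 χ1 h1 h2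
      obtain ⟨y, y0, hy⟩ := pos q χ a1 a2
      obtain ⟨w, w0, hw⟩ := pos _ ψ a3 a4
      rw [L3, hx, hy, hw, ← Complex.ofReal_mul, ← Complex.ofReal_mul, Complex.re_mul_ofReal]
      exact mul_nonpos_of_nonpos_of_nonneg (hz _ (by linarith) (by linarith)).2 (by positivity)
    · exact ⟨1, one_pos, fun q _ χ a1 a2 => (hB ⟨q, inferInstance, χ, a1, a2⟩).elim⟩

end Pool.Agent.P.MP_42fc1a_nt.EK
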