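import Pool.Agent.P.MP_42fc1a_nt.EK.IfaceE

/-! Step STR. -/

namespace Pool.Agent.P.MP_42fc1a_nt.EK

open Finset Real Filter Topology MeasureTheory
open Pool.Agent.P.MP_e86632_nt (ee nn ee_add norm_ee ee_neg ee_zero)
open Pool.Agent.P.MP_8be758_nt.Avg (gs red ft nsq gs_pos gs_le_one gs_neg gs_anti)
open Pool.Agent.P.MP_e94e4b_nt.PF (sgm)
open Pool.Agent.P.E2
open ArithmeticFunction (vonMangoldt moebius)
open DirichletCharacter (LFunction)
open scoped Classical

namespace STRx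

theorem cee : Continuous ee := by unfold ee; fun_prop

theorem nn_tri (x y : ℝ) : nn x ≤ nn y + |x - y| := by
  have h := Pool.Agent.P.MP_e86632_nt.nn_le x (round y)
  have := abs_add_le (y - round y) (x - y)
  rw [show y - round y + (x - y) = x - round y by ring] at this
  exact h.trans this

theorem cnn : Continuous nn := (LipschitzWith.of_dist_le_mul (K := 1) fun x y => by
  have h1 := nn_tri x y
  have h2 := nn_tri y x
  rw [abs_sub_comm] at h2
  rw [Real.dist_eq, Real.dist_eq, NNReal.coe_one, one_mul, abs_le]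
  constructor <;> linarith).continuous

theorem nn_nat (x : ℝ) (k : ℕ) : nn (k * (x + 1)) = nn (k * x) := by
  unfold nn
  rw [mul_add, mul_one, round_add_natCast]
  push_cast
  ring_nf

theorem ee_nat (x : ℝ) (k : ℕ) : ee (k * (x + 1)) = ee (k * x) := by
  have := Pool.Agent.P.MP_e86632_nt.ee_add_int (k * x) k
  rw [mul_add, mul_one]
  simpa using this

theorem cft (A : Finset ℕ) (γ : ℕ → ℂ) : Continuous (ft A γ) := by
  have := cee
  unfold ft
  fun_prop

theorem cGn (M J : ℕ) : Continuous (Gn M J) := by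
  have := cee
  unfold Gn Gw
  fun_prop

theorem Gn_le (M J : ℕ) (x : ℝ) : ‖Gn M J x‖ ≤ 1 := by
  unfold Gn Gw
  rw [norm_div, Complex.norm_natCast]
  refine div_le_one_of_le₀ ((norm_sum_le _ _).trans ?_) (Nat.cast_nonneg _)
  simp

end STRx

theorem p_STR (hCI1 : S_CI1) :
    S_STR := by
  refine ⟨fun W Q0 w P => ⟨?_, fun x => ?_⟩, fun M J => ⟨STRx.cGn M J, STRx.Gn_le M J, fun x => ?_⟩,
    fun M L J σ A => ?_⟩
  · have : Str W Q0 w P = ⋃ i : ℕ, ⋃ q : ℕ, {α | (i ≤ w ∧ 1 ≤ q ∧ q ≤ Q0) ∧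
        nn (((W * q * 2 ^ i : ℕ) : ℝ) * α) ≤ W * q / P ^ 3} := by
      ext α
      simp only [Str, Set.mem_setOf_eq, Set.mem_iUnion]
      exact ⟨fun ⟨i, a, q, b, c, d⟩ => ⟨i, q, ⟨a, b, c⟩, d⟩,
        fun ⟨i, q, ⟨a, b, c⟩, d⟩ => ⟨i, a, q, b, c, d⟩⟩
    rw [this]
    refine MeasurableSet.iUnion fun i => MeasurableSet.iUnion fun q => ?_
    exact (MeasurableSet.const _).inter (isClosed_le (STRx.cnn.comp (by fun_prop))
      continuous_const).measurableSet
  · simp only [Str, Set.mem_setOf_eq, STRx.nn_nat]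
  · unfold Gn Gw
    congr 1
    refine sum_congr rfl fun s _ => ?_
    have := STRx.ee_nat x (2 ^ (M * s))
    push_cast at this ⊢
    rw [this]
  have e : ∀ x, ‖ps M L J σ A x‖ = ‖ft A (fun _ => 1) x‖ * ‖Gn M L x‖ ^ 2 * ‖Gn M J x‖ := by
    intro x
    simp [ps]
  have c : Continuous (ps M L J σ A) := by
    have h1 := STRx.cee
    have h2 := STRx.cft A fun _ => 1
    have h3 := STRx.cGn M L
    have h4 := STRx.cGn M J
    unfold ps
    fun_prop
  have b : ∀ x, ‖ps M L J σ A x‖ ≤ ‖ft A (fun _ => 1) x‖ := fun x => by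
    rw [e, mul_assoc]
    exact mul_le_of_le_one_right (norm_nonneg _) (mul_le_one₀
      (pow_le_one₀ (norm_nonneg _) (STRx.Gn_le _ _ _)) (norm_nonneg _) (STRx.Gn_le _ _ _))
  have i : ∫ x in (0 : ℝ)..1, ‖ft A (fun _ => 1) x‖ ^ 2 = A.card := by
    simpa [nsq] using (hCI1 A A A (fun _ => 1) (fun _ => 1) id 0).1
  refine ⟨c, e, fun x => (b x).trans ((norm_sum_le _ _).trans (by simp)), i, ?_⟩
  rw [← i]
  exact intervalIntegral.integral_mono_on zero_le_one ((c.norm.pow 2).intervalIntegrable _ _)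
    (((STRx.cft A _).norm.pow 2).intervalIntegrable _ _)
    fun x _ => pow_le_pow_left₀ (norm_nonneg _) (b x) 2

end Pool.Agent.P.MP_42fc1a_nt.EK
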