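import Pool.Agent.P.MP_42fc1a_nt.EK.IfaceB

/-! Step SV3. -/

namespace Pool.Agent.P.MP_42fc1a_nt.EK

open Finset Real Filter Topology MeasureTheory
open Pool.Agent.P.MP_e86632_nt (ee nn ee_add norm_ee ee_neg ee_zero)
open Pool.Agent.P.MP_8be758_nt.Avg (gs red ft nsq gs_pos gs_le_one gs_neg gs_anti)
open Pool.Agent.P.MP_e94e4b_nt.PF (sgm)
open Pool.Agent.P.E2
open ArithmeticFunction (vonMangoldt moebius)
open DirichletCharacter (LFunction)
open scoped Classical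

namespace SV3x

theorem fac {p : ℕ} (h : 5 ≤ p) : 1 ≤ (1 - 2 / (p : ℝ))⁻¹ ∧ (1 - 2 / (p : ℝ))⁻¹ ≤ 2 := by
  have h5 : (5 : ℝ) ≤ p := by exact_mod_cast h
  have h1 : 0 < 2 / (p : ℝ) := by positivity
  have h6 : 2 / (p : ℝ) ≤ 1 / 2 := by
    rw [div_le_iff₀ (by linarith)]
    linarith
  exact ⟨(one_le_inv₀ (by linarith)).2 (by linarith), inv_le_of_inv_le₀ two_pos (by linarith)⟩

theorem sgm_one (M : ℕ) : 1 ≤ sgm M := one_le_prod fun _ hp => (fac (mem_filter.1 hp).2).1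

theorem sgm_mul {M q : ℕ} (hM : 0 < M) (hq : q.Prime) : sgm (M * q) ≤ 2 * sgm M := by
  have h1 := sgm_one M
  rw [sgm, Nat.primeFactors_mul hM.ne' hq.ne_zero, hq.primeFactors, union_comm, ← insert_eq,
    filter_insert]
  split_ifs with h
  · by_cases h2 : q ∈ M.primeFactors.filter (5 ≤ ·)
    · rw [insert_eq_of_mem h2, ← sgm]
      linarith
    · rw [prod_insert h2, ← sgm]
      exact mul_le_mul_of_nonneg_right (fac h).2 (by linarith)
  · rw [← sgm]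
    linarith

theorem ex_q {c : ℤ} {B : ℕ} (hB : B ≠ 0) (h : IsCoprime c B) :
    ∃ q : ℕ, q.Prime ∧ (B : ℤ) ∣ q * c + 1 := by
  have : NeZero B := ⟨hB⟩
  obtain ⟨a, b, e⟩ := h
  have e1 : (a : ZMod B) * c = 1 := by
    have := congrArg (Int.cast : ℤ → ZMod B) e
    simpa using this
  obtain ⟨q, -, hq, e2⟩ := Nat.forall_exists_prime_gt_and_eq_mod
    (IsUnit.of_mul_eq_one _ e1).neg 0
  refine ⟨q, hq, (ZMod.intCast_zmod_eq_zero_iff_dvd _ _).1 ?_⟩
  push_cast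
  rw [e2, neg_mul, e1, neg_add_cancel]

theorem ex_lin {c : ℤ} {B : ℕ} (hB : B ≠ 0) (h : IsCoprime c B) (d : ℤ) :
    ∃ x : ℕ, (B : ℤ) ∣ c * x - d := by
  have : NeZero B := ⟨hB⟩
  obtain ⟨a, b, e⟩ := h
  have e1 : (a : ZMod B) * c = 1 := by
    have := congrArg (Int.cast : ℤ → ZMod B) e
    simpa using this
  refine ⟨((a * d : ℤ) : ZMod B).val, (ZMod.intCast_zmod_eq_zero_iff_dvd _ _).1 ?_⟩
  push_cast
  rw [ZMod.natCast_zmod_val, ← mul_assoc, mul_comm (c : ZMod B), e1, one_mul, sub_self]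

theorem cop {p l : ℕ} (hp : p.Prime) (hl : l.Prime) (h : p ≠ l) : IsCoprime (p : ℤ) (l : ℤ) :=
  Nat.isCoprime_iff_coprime.2 ((Nat.coprime_primes hp hl).2 h)

theorem ex_x {p p' : ℕ} (hp : p.Prime) (hp' : p'.Prime) (hne : p ≠ p') (Z : ℕ) (n0 m0 : ℤ) :
    ∃ x : ℕ, (p' : ℤ) ∣ p * x - m0 ∧
      ∀ l : ℕ, l.Prime → l ≤ Z → l ≠ p' → (l : ℤ) ∣ p' * x - n0 := by
  set T := (range (Z + 1)).filter fun l => l.Prime ∧ l ≠ p'
  set A : ℕ := ∏ l ∈ T, l with hA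
  have h0 : A ≠ 0 := prod_ne_zero_iff.2 fun l hl => (mem_filter.1 hl).2.1.ne_zero
  have h1 : IsCoprime (p' : ℤ) (A : ℤ) := by
    rw [hA, Nat.cast_prod]
    exact IsCoprime.prod_right fun l hl =>
      cop hp' (mem_filter.1 hl).2.1 (mem_filter.1 hl).2.2.symm
  have h2 : IsCoprime ((p' : ℤ) * p' + A * p) ((A * p' : ℕ) : ℤ) := by
    rw [Nat.cast_mul]
    refine IsCoprime.mul_right ((h1.mul_left h1).add_mul_left_left _) ?_
    rw [add_comm]
    exact (h1.symm.mul_left (cop hp hp' hne)).add_mul_left_left _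
  obtain ⟨x, hx⟩ := ex_lin (Nat.mul_ne_zero h0 hp'.ne_zero) h2 (p' * n0 + A * m0)
  rw [Nat.cast_mul, show ((p' : ℤ) * p' + A * p) * x - (p' * n0 + A * m0) =
    p' * (p' * x - n0) + A * (p * x - m0) by ring] at hx
  refine ⟨x, h1.dvd_of_dvd_mul_left
    ((dvd_add_right (dvd_mul_right _ _)).1 ((dvd_mul_left _ _).trans hx)), fun l hl h3 h4 => ?_⟩
  have h5 : (l : ℤ) ∣ A := Int.natCast_dvd_natCast.2
    (dvd_prod_of_mem _ (mem_filter.2 ⟨mem_range.2 (by omega), hl, h4⟩))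
  exact h5.trans (h1.symm.dvd_of_dvd_mul_left
    ((dvd_add_left (dvd_mul_right _ _)).1 ((dvd_mul_right _ _).trans hx)))

theorem ex_M {p p' : ℕ} (hp : p.Prime) (hp' : p'.Prime) (Z : ℕ) {h : ℤ} (h0 : h ≠ 0) :
    ∃ q : ℕ, q.Prime ∧ ∀ l : ℕ, l.Prime → l ≤ Z → l ≠ 2 → l ≠ p → l ≠ p' →
      (l : ℤ) ∣ p * p' * (2 * (h.natAbs * p * p' * q : ℕ)) + h := by
  set T := (range (Z + 1)).filter fun l => l.Prime ∧ l ≠ 2 ∧ l ≠ p ∧ l ≠ p'
  have hs : IsUnit h.sign := by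
    rcases h0.lt_or_gt with a | a
    · rw [Int.sign_eq_neg_one_of_neg a]; exact isUnit_one.neg
    · rw [Int.sign_eq_one_of_pos a]; exact isUnit_one
  have h1 : IsCoprime (h.sign * ((2 : ℕ) * (p * p') * (p * p')) : ℤ) ((∏ l ∈ T, l : ℕ) : ℤ) := by
    rw [Nat.cast_prod]
    refine IsCoprime.prod_right fun l hl => ?_
    obtain ⟨-, a, b, c, d⟩ := mem_filter.1 hl
    have e := (cop hp a c.symm).mul_left (cop hp' a d.symm)
    exact (isCoprime_mul_unit_left_left hs _ _).2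
      (((cop Nat.prime_two a b.symm).mul_left e).mul_left e)
  obtain ⟨q, hq, e⟩ := ex_q
    (prod_ne_zero_iff.2 fun l hl => (mem_filter.1 hl).2.1.ne_zero) h1
  refine ⟨q, hq, fun l hl a b c d => ?_⟩
  have h5 : (l : ℤ) ∣ ((∏ l ∈ T, l : ℕ) : ℤ) := Int.natCast_dvd_natCast.2
    (dvd_prod_of_mem _ (mem_filter.2 ⟨mem_range.2 (by omega), hl, b, c, d⟩))
  have h6 := (h5.trans e).mul_right h
  push_cast at h6 ⊢
  rw [← Int.sign_mul_self_eq_abs]
  exact h6.trans (dvd_of_eq (by ring))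

end SV3x

theorem p_SV3 (hSV : S_SV) :
    S_SV3 := by
  obtain ⟨C, hC, hS⟩ := hSV
  refine ⟨C * 8, by positivity, ?_⟩
  filter_upwards [hS, eventually_gt_atTop 0] with H hH H0 p p' h S hp hp' hne _ _ h0 hx
  have s1 := SV3x.sgm_one h.natAbs
  rcases S.eq_empty_or_nonempty with rfl | ⟨y, hy⟩
  · rw [card_empty, Nat.cast_zero]
    positivity
  have q0 : (p' : ℤ) ≠ 0 := by exact_mod_cast hp'.ne_zero
  have a1 : ∀ w ∈ S, w.1 % p' = y.1 % p' := fun w hw => by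
    refine (Nat.modEq_iff_dvd.2 ((SV3x.cop hp' hp hne.symm).dvd_of_dvd_mul_left
      ⟨y.2 - w.2, ?_⟩) : w.1 ≡ y.1 [MOD p'])
    linear_combination (hx w hw).2.2.2.2.2.2.2 - (hx y hy).2.2.2.2.2.2.2
  have a0 : ∀ w ∈ S, (w.1 : ℤ) = p' * (w.1 / p' : ℕ) + (y.1 % p' : ℕ) := fun w hw => by
    rw [← a1 w hw]
    exact_mod_cast (Nat.div_add_mod _ _).symm
  have a2 : ∀ w ∈ S, (w.2 : ℤ) - p * (w.1 / p' : ℕ) = y.2 - p * (y.1 / p' : ℕ) := fun w hw => by
    refine mul_left_cancel₀ q0 ?_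
    linear_combination (hx w hw).2.2.2.2.2.2.2 - (hx y hy).2.2.2.2.2.2.2 + p * a0 w hw -
      p * a0 y hy
  obtain ⟨x, x1, x2⟩ := SV3x.ex_x hp hp' hne ⌊H ^ (1 / 10 : ℝ)⌋₊ (y.1 % p' : ℕ)
    (y.2 - p * (y.1 / p' : ℕ))
  obtain ⟨q, hq, e⟩ := SV3x.ex_M hp hp' ⌊H ^ (1 / 10 : ℝ)⌋₊ h0
  have m0 : 0 < h.natAbs := Int.natAbs_pos.2 h0
  have m1 := Nat.mul_pos m0 hp.pos
  have m2 := Nat.mul_pos m1 hp'.pos
  have inj : Set.InjOn (fun w : ℕ × ℕ => x + w.1 / p') S := fun w hw v hv e => by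
    have e1 : w.1 / p' = v.1 / p' := Nat.add_left_cancel e
    have e2 := a0 w hw
    have e3 := a2 w hw
    rw [e1] at e2 e3
    exact Prod.ext (by have := a0 v hv; omega) (by have := a2 v hv; omega)
  rw [← card_image_of_injOn inj]
  refine (hH x (h.natAbs * p * p' * q) _ (Nat.cast_nonneg _) (Nat.mul_pos m2 hq.pos)
    fun N hN => ?_).trans ?_
  · obtain ⟨w, hw, rfl⟩ := mem_image.1 hN
    obtain ⟨w1, w2, w3, w4, w5, -, w7, w8⟩ := hx w hw
    have k1 : 0 < w.1 / p' := Nat.div_pos w5.le hp'.pos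
    have k2 : ((w.1 / p' : ℕ) : ℝ) ≤ H := Nat.cast_div_le.trans (by
      rw [div_le_iff₀ (by exact_mod_cast hp'.pos)]
      linarith)
    refine ⟨by exact_mod_cast Nat.lt_add_of_pos_right k1, by rw [Nat.cast_add]; linarith,
      fun l hl hz => ?_⟩
    have n1 : ¬ (l : ℤ) ∣ w.1 := fun d => by
      rw [(Nat.prime_dvd_prime_iff_eq hl w1).1 (Int.natCast_dvd_natCast.1 d)] at hz
      linarith
    have n2 : ¬ (l : ℤ) ∣ w.2 := fun d => by
      rw [(Nat.prime_dvd_prime_iff_eq hl w2).1 (Int.natCast_dvd_natCast.1 d)] at hz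
      linarith
    have b0 := a0 w hw
    have b2 := a2 w hw
    generalize w.1 / p' = k at b0 b2 ⊢
    have c1 : l ≠ p' → (l : ℤ) ∣ p' * (x + k : ℕ) - w.1 := fun d => by
      convert x2 l hl (Nat.le_floor hz) d using 1
      rw [Nat.cast_add]
      linear_combination -b0
    have n3 : ¬ (l : ℤ) ∣ (x + k : ℕ) := fun d => by
      by_cases d' : l = p'
      · subst d'
        refine n2 ((dvd_sub (d.mul_left p) x1).trans (dvd_of_eq ?_))
        rw [Nat.cast_add]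
        linear_combination -b2
      · exact n1 ((dvd_sub_right (d.mul_left p')).1 (c1 d'))
    refine ⟨fun d => n3 (Int.natCast_dvd_natCast.2 d), fun d => ?_⟩
    by_cases d2 : l = 2
    · subst d2
      exact n3 ((dvd_sub_right (dvd_mul_right _ _)).1 d)
    by_cases d3 : l = p
    · subst d3
      exact n3 ((dvd_sub_right (Dvd.dvd.mul_left (Int.natCast_dvd_natCast.2
        (((dvd_mul_left _ _).mul_right _).mul_right _)) _)).1 d)
    by_cases d4 : l = p'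
    · subst d4
      exact n3 ((dvd_sub_right (Dvd.dvd.mul_left (Int.natCast_dvd_natCast.2
        ((dvd_mul_left _ _).mul_right _)) _)).1 d)
    refine n2 ((SV3x.cop hl hp' d4).dvd_of_dvd_mul_left ?_)
    convert dvd_sub (dvd_sub (e l hl (Nat.le_floor hz) d2 d3 d4) (d.mul_left (p * p')))
      ((c1 d4).mul_left p) using 1
    linear_combination w8
  · have h3 := SV3x.sgm_mul m2 hq
    have h4 := SV3x.sgm_mul m1 hp'
    have h5 := SV3x.sgm_mul m0 hp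
    have h6 : C * sgm (h.natAbs * p * p' * q) ≤ C * 8 * sgm h.natAbs := by nlinarith
    gcongr

end Pool.Agent.P.MP_42fc1a_nt.EK
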