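import Pool.Agent.P.MP_42fc1a_nt.EK.IfaceB

/-! Step TAU. -/

namespace Pool.Agent.P.MP_42fc1a_nt.EK

open Finset Real Filter Topology MeasureTheory
open Pool.Agent.P.MP_e86632_nt (ee nn ee_add norm_ee ee_neg ee_zero)
open Pool.Agent.P.MP_8be758_nt.Avg (gs red ft nsq gs_pos gs_le_one gs_neg gs_anti)
open Pool.Agent.P.MP_e94e4b_nt.PF (sgm)
open Pool.Agent.P.E2
open ArithmeticFunction (vonMangoldt moebius)
open DirichletCharacter (LFunction)
open scoped Classical

namespace TAUx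

theorem mf_sq {q : ℕ} (hq : Squarefree q) :
    mf q ^ 2 * q = ∏ l ∈ q.primeFactors, (l : ℝ) / ((l : ℝ) - 1) ^ 2 := by
  have h1 : ((moebius q : ℤ) : ℝ) ^ 2 = 1 := by
    exact_mod_cast ArithmeticFunction.moebius_sq_eq_one_of_squarefree hq
  have h2 : (q : ℝ) = ∏ l ∈ q.primeFactors, (l : ℝ) := by
    rw [← Nat.cast_prod, Nat.prod_primeFactors_of_squarefree hq]
  have h3 : (q.totient : ℝ) = ∏ l ∈ q.primeFactors, ((l : ℝ) - 1) := by
    have h4 := Nat.totient_mul_prod_primeFactors q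
    rw [Nat.prod_primeFactors_of_squarefree hq, mul_comm q] at h4
    rw [Nat.eq_of_mul_eq_mul_right (Nat.pos_of_ne_zero hq.ne_zero) h4, Nat.cast_prod]
    exact prod_congr rfl fun l hl => by
      rw [Nat.cast_sub (Nat.prime_of_mem_primeFactors hl).one_le, Nat.cast_one]
  rw [mf, div_pow, h1, prod_div_distrib, prod_pow, ← h2, ← h3]
  ring

theorem key (hEUL : S_EUL) (D : Finset ℕ) (hD : ∀ q ∈ D, 1 < q) :
    ∑ q ∈ D, mf q ^ 2 * q ≤
      Real.exp (∑ l ∈ D.biUnion Nat.primeFactors, (l : ℝ) / ((l : ℝ) - 1) ^ 2) - 1 := by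
  refine le_trans (le_of_eq ?_) ((hEUL (D.biUnion Nat.primeFactors) (D.filter Squarefree)
    (fun l => (l : ℝ) / ((l : ℝ) - 1) ^ 2) (fun l => by positivity) fun q hq =>
      ⟨(mem_filter.1 hq).2, subset_biUnion_of_mem _ (mem_filter.1 hq).1⟩).2 fun h =>
        lt_irrefl _ (hD 1 (mem_filter.1 h).1))
  rw [sum_filter]
  refine sum_congr rfl fun q _ => ?_
  split_ifs with h
  · exact mf_sq h
  · simp [mf, ArithmeticFunction.moebius_eq_zero_of_not_squarefree h]

theorem oo_pos {M q : ℕ} (h1 : 1 < q) (h : q.Coprime (WW M)) : 1 ≤ oo M q := by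
  have : NeZero q := ⟨(zero_lt_one.trans h1).ne'⟩
  have h2 : IsUnit ((2 : ℕ) : ZMod q) :=
    (ZMod.isUnit_iff_coprime 2 q).2 (Nat.Coprime.coprime_mul_right_right h).symm
  rw [Nat.cast_ofNat] at h2
  exact (h2.pow M).isOfFinOrder.orderOf_pos

theorem prime_facts {M q l : ℕ} (h : q.Coprime (WW M)) (hl : l ∈ q.primeFactors) :
    l.Prime ∧ l ≠ 2 ∧ ¬ orderOf (2 : ZMod l) ∣ M ∧ orderOf (2 : ZMod l) ∣ M * oo M q := by
  have p := Nat.prime_of_mem_primeFactors hl
  have d := Nat.dvd_of_mem_primeFactors hl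
  have n : ¬ l ∣ WW M := fun e => p.one_lt.ne' (Nat.eq_one_of_dvd_coprimes h d e)
  refine ⟨p, fun e => n (e ▸ dvd_mul_right _ _), fun e => n (Dvd.dvd.mul_left ?_ _), ?_⟩
  · rw [← ZMod.natCast_eq_zero_iff, Nat.cast_sub Nat.one_le_two_pow]
    push_cast
    rw [orderOf_dvd_iff_pow_eq_one.1 e, sub_self]
  · have h1 := congrArg (ZMod.castHom d (ZMod l)) (pow_orderOf_eq_one ((2 : ZMod q) ^ M))
    rw [map_pow, map_pow, map_ofNat, map_one, ← pow_mul] at h1
    exact orderOf_dvd_of_pow_eq_one h1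

theorem three_le {l : ℕ} (p : l.Prime) (h : l ≠ 2) : (3 : ℝ) ≤ l := by
  have := p.two_le
  exact_mod_cast (by omega : 3 ≤ l)

theorem b1 {x : ℝ} (h : 3 ≤ x) : x / (x - 1) ^ 2 ≤ 3 * (1 / x) := by
  have : 0 < x - 1 := by linarith
  rw [mul_one_div, div_le_div_iff₀ (by positivity) (by linarith)]
  nlinarith

theorem b2 {x : ℝ} (h : 3 ≤ x) : x / (x - 1) ^ 2 ≤ 1 / x + 8 * (1 / x ^ 2) := by
  have : 0 < x - 1 := by linarith
  have x0 : 0 < x := by linarith
  rw [mul_one_div, div_add_div _ _ x0.ne' (by positivity),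
    div_le_div_iff₀ (by positivity) (by positivity)]
  have h1 : 0 ≤ x * (6 * x ^ 2 - 15 * x + 8) := mul_nonneg x0.le (by nlinarith)
  nlinarith

end TAUx

theorem p_TAU (hEUL : S_EUL) (hTAU1 : S_TAU1) (hTAU2 : S_TAU2) (hDYS : S_DYS) :
    S_TAU := by
  intro η hη
  obtain ⟨C, hC⟩ := hTAU1
  have s2 : Summable fun n : ℕ => 1 / (n : ℝ) ^ 2 := summable_one_div_nat_pow.2 one_lt_two
  set S : ℝ := ∑' n : ℕ, 1 / (n : ℝ) ^ 2 with hS
  set ρ : ℝ := Real.exp (2 / 3 * Real.log 2) with hρ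
  have ρ0 : 0 < ρ := Real.exp_pos _
  have ρ2 : ρ < 2 := by
    have := Real.log_pos (one_lt_two (α := ℝ))
    calc ρ < Real.exp (Real.log 2) := Real.exp_lt_exp.2 (by linarith)
      _ = 2 := Real.exp_log two_pos
  set K : ℝ := Real.exp (C + 8 * S) with hK
  have K0 : 0 < K := Real.exp_pos _
  have sg : Summable fun t : ℕ => K * ρ * (ρ / 2) ^ t :=
    (summable_geometric_of_lt_one (by positivity) (by linarith)).mul_left _
  obtain ⟨s, hs⟩ := summable_iff_vanishing_norm.1 sg (η / 2) (by positivity)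
  set t0 : ℕ := s.sup id + 1 with ht0
  have l0 : 0 < Real.log (1 + η / 4) := Real.log_pos (by linarith)
  obtain ⟨M, hM, hMY, hT⟩ := hTAU2 (2 ^ t0) (Real.log (1 + η / 4) / 3)
    (by rw [ht0, pow_succ]; have := Nat.one_le_two_pow (n := s.sup id); omega) (by positivity)
  refine ⟨M, hM, fun D hD => ?_⟩
  refine hDYS D (fun q => mf q ^ 2 * q) (oo M) (fun t => if t < t0 then η / 4 else K * ρ ^ (t + 1))
    η (fun q hq => ⟨by positivity, TAUx.oo_pos (hD q hq).1 (hD q hq).2⟩) (fun t => ?_) fun n => ?_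
  · refine (TAUx.key hEUL _ fun q hq => (hD q (mem_filter.1 hq).1).1).trans ?_
    set T := (D.filter fun q => oo M q < 2 ^ (t + 1)).biUnion Nat.primeFactors with hT'
    have hl : ∀ l ∈ T, l.Prime ∧ l ≠ 2 ∧ ¬ orderOf (2 : ZMod l) ∣ M ∧
        ∀ l' : ℕ, l'.Prime → l' ∣ orderOf (2 : ZMod l) → l' ≤ 2 ^ t0 ∨ l' ≤ 2 ^ (t + 1) := by
      intro l hl
      obtain ⟨q, hq, hl⟩ := mem_biUnion.1 hl
      obtain ⟨q1, q2⟩ := mem_filter.1 hq
      obtain ⟨a1, a2, a3, a4⟩ := TAUx.prime_facts (hD q q1).2 hl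
      refine ⟨a1, a2, a3, fun l' p d => ?_⟩
      rcases (Nat.Prime.dvd_mul p).1 (d.trans a4) with h | h
      · exact Or.inl (hMY l' p h)
      · exact Or.inr ((Nat.le_of_dvd (TAUx.oo_pos (hD q q1).1 (hD q q1).2) h).trans q2.le)
    split_ifs with ht
    · have h1 := hT T fun l h => ⟨(hl l h).1, (hl l h).2.1, (hl l h).2.2.1, fun l' p d =>
        ((hl l h).2.2.2 l' p d).elim id fun e => e.trans (Nat.pow_le_pow_right two_pos ht)⟩
      have h2 : ∑ l ∈ T, (l : ℝ) / ((l : ℝ) - 1) ^ 2 ≤ Real.log (1 + η / 4) := by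
        refine (sum_le_sum fun l h => TAUx.b1 (TAUx.three_le (hl l h).1 (hl l h).2.1)).trans ?_
        rw [← mul_sum]
        linarith
      have h3 := Real.exp_le_exp.2 h2
      rw [Real.exp_log (by linarith)] at h3
      linarith
    · have h1 := hC (2 ^ (t + 1)) T Nat.one_le_two_pow fun l h =>
        ⟨(hl l h).1, (hl l h).2.1, fun l' p d => ((hl l h).2.2.2 l' p d).elim
          (fun e => e.trans (Nat.pow_le_pow_right two_pos (by omega))) id⟩
      have h4 : ∑ l ∈ T, 1 / (l : ℝ) ^ 2 ≤ S := s2.sum_le_tsum T fun _ _ => by positivity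
      have h2 : ∑ l ∈ T, (l : ℝ) / ((l : ℝ) - 1) ^ 2 ≤
          C + 8 * S + ((t + 1 : ℕ) : ℝ) * (2 / 3 * Real.log 2) := by
        refine (sum_le_sum fun l h => TAUx.b2 (TAUx.three_le (hl l h).1 (hl l h).2.1)).trans ?_
        rw [sum_add_distrib, ← mul_sum]
        rw [Nat.cast_pow, Real.log_pow, Nat.cast_ofNat] at h1
        linarith
      have h3 := Real.exp_le_exp.2 h2
      rw [Real.exp_add, Real.exp_nat_mul] at h3
      linarith
  · have h1 : ∀ t ∈ range n, (if t < t0 then η / 4 else K * ρ ^ (t + 1)) / 2 ^ t ≤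
        η / 4 * (1 / 2) ^ t + if ¬ t < t0 then K * ρ * (ρ / 2) ^ t else 0 := fun t _ => by
      split_ifs
      · rw [add_zero, one_div, inv_pow, div_eq_mul_inv]
      · have : K * ρ ^ (t + 1) / 2 ^ t = K * ρ * (ρ / 2) ^ t := by rw [div_pow]; ring
        rw [this]
        exact le_add_of_nonneg_left (by positivity)
    refine (sum_le_sum h1).trans ?_
    rw [sum_add_distrib, ← mul_sum, ← sum_filter]
    have h2 := sum_geometric_two_le n
    have h3 := hs ((range n).filter fun t => ¬ t < t0) (disjoint_left.2 fun t h1 h2 => by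
      have : id t ≤ s.sup id := le_sup h2
      exact (mem_filter.1 h1).2 (by rw [ht0]; exact Nat.lt_succ_of_le this))
    have h4 := (le_abs_self _).trans_lt (Real.norm_eq_abs _ ▸ h3)
    nlinarith

end Pool.Agent.P.MP_42fc1a_nt.EK
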