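import Pool.Agent.P.MP_42fc1a_nt.EK.IfaceB

/-! Step TAU1. -/

namespace Pool.Agent.P.MP_42fc1a_nt.EK

open Finset Real Filter Topology MeasureTheory
open Pool.Agent.P.MP_e86632_nt (ee nn ee_add norm_ee ee_neg ee_zero)
open Pool.Agent.P.MP_8be758_nt.Avg (gs red ft nsq gs_pos gs_le_one gs_neg gs_anti)
open Pool.Agent.P.MP_e94e4b_nt.PF (sgm)
open Pool.Agent.P.E2
open ArithmeticFunction (vonMangoldt moebius)
open DirichletCharacter (LFunction)
open scoped Classical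

namespace TAU1x

theorem bdd {y : ℝ} (hy : 0 ≤ y) : 8 * y ^ 3 - y ^ 4 / 4 ≤ 8 * 32 ^ 3 := by
  have h3 : 0 ≤ y ^ 3 := by positivity
  have h4 : 0 ≤ y ^ 4 := by positivity
  rcases le_total y 32 with h | h
  · have : y ^ 3 ≤ 32 ^ 3 := pow_le_pow_left₀ hy h 3
    linarith
  · have : 32 * y ^ 3 ≤ y * y ^ 3 := mul_le_mul_of_nonneg_right h h3
    nlinarith

end TAU1x

theorem p_TAU1 (hODS : S_ODS) (hPRS : S_PRS) (hSMO : S_SMO) :
    S_TAU1 := by
  obtain ⟨C1, h1⟩ := hPRS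
  obtain ⟨C2, hC2, h2⟩ := hSMO
  refine ⟨Real.log 3 + C1 + C2 * Real.exp (8 * 32 ^ 3), fun x T hx hT => ?_⟩
  have x1 : (1 : ℝ) ≤ x := by exact_mod_cast hx
  obtain ⟨y, y0, hy⟩ : ∃ y : ℝ, 0 ≤ y ∧ y ^ 6 = x :=
    ⟨(x : ℝ) ^ ((6 : ℕ) : ℝ)⁻¹, by positivity,
      Real.rpow_inv_natCast_pow (by linarith) (by norm_num)⟩
  have y1 : 1 ≤ y := le_of_pow_le_pow_left₀ (n := 6) (by norm_num) y0 (by rw [hy]; linarith)
  have y4 : 1 ≤ y ^ 4 := one_le_pow₀ y1
  set Z := Real.exp (y ^ 4) with hZ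
  have Z2 : 2 ≤ Z := by
    have := Real.add_one_le_exp (y ^ 4)
    linarith
  set o : ℕ → ℕ := fun l => orderOf (2 : ZMod l) with ho
  rw [← sum_filter_add_sum_filter_not T (fun l => (o l : ℝ) < Z)]
  have hfib : ∀ (S : Finset ℕ), S ⊆ T → ∀ d, (S.filter (fun l => o l = d)).card ≤ d ∧
      ∑ l ∈ S.filter (fun l => o l = d), 1 / (l : ℝ) ≤ (2 + Real.log d) / d := by
    intro S hS d
    refine hODS d _ fun l hl => ?_
    obtain ⟨a1, a2⟩ := mem_filter.1 hl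
    exact ⟨(hT l (hS a1)).1, (hT l (hS a1)).2.1, a2⟩
  have e1 : ∑ l ∈ T.filter (fun l => (o l : ℝ) < Z), 1 / (l : ℝ) ≤
      Real.log 3 + C1 + 2 / 3 * Real.log x := by
    set S := T.filter (fun l => (o l : ℝ) < Z) with hS
    have a1 : S.card = ∑ d ∈ range ⌈Z⌉₊, (S.filter (fun l => o l = d)).card :=
      card_eq_sum_card_fiberwise fun l hl =>
        mem_coe.2 (mem_range.2 (Nat.lt_ceil.2 (mem_filter.1 (mem_coe.1 hl)).2))
    have a2 : (S.card : ℝ) ≤ ∑ d ∈ range ⌈Z⌉₊, Z := by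
      rw [a1]
      push_cast
      refine sum_le_sum fun d hd => ?_
      have b1 : ((S.filter (fun l => o l = d)).card : ℝ) ≤ d := by
        exact_mod_cast (hfib S (filter_subset _ _) d).1
      exact b1.trans (Nat.lt_ceil.1 (mem_range.1 hd)).le
    rw [sum_const, card_range, nsmul_eq_mul] at a2
    have a3 : (⌈Z⌉₊ : ℝ) ≤ Z + 1 := (Nat.ceil_lt_add_one (by linarith)).le
    have a4 : (S.card : ℝ) ≤ Z ^ 3 := by
      have b1 : (⌈Z⌉₊ : ℝ) ≤ Z ^ 2 := by nlinarith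
      have b2 := mul_le_mul_of_nonneg_right b1 (by linarith : 0 ≤ Z)
      calc (S.card : ℝ) ≤ _ := a2
        _ ≤ _ := b2
        _ = Z ^ 3 := by ring
    have a5 : 3 ≤ Z ^ 3 := by
      have : (2 : ℝ) ^ 3 ≤ Z ^ 3 := pow_le_pow_left₀ (by norm_num) Z2 3
      linarith
    have a6 := h1 (Z ^ 3) S a5 (fun l hl => (hT l (mem_filter.1 hl).1).1) a4
    have a7 : Real.log (Real.log (Z ^ 3)) = Real.log 3 + 2 / 3 * Real.log x := by
      rw [Real.log_pow, hZ, Real.log_exp, Real.log_mul (by norm_num) (by positivity), ← hy,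
        Real.log_pow, Real.log_pow]
      push_cast
      ring
    linarith
  have e2 : ∑ l ∈ T.filter (fun l => ¬ (o l : ℝ) < Z), 1 / (l : ℝ) ≤
      C2 * Real.exp (8 * 32 ^ 3) := by
    set S := T.filter (fun l => ¬ (o l : ℝ) < Z) with hS
    rw [← sum_fiberwise_of_maps_to (t := S.image o) (g := o) fun l hl => mem_image_of_mem o hl]
    have a1 := h2 x Z (S.image o) (by linarith) fun d hd => by
      obtain ⟨l, hl, rfl⟩ := mem_image.1 hd
      obtain ⟨b1, b2⟩ := mem_filter.1 hl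
      exact ⟨not_lt.1 b2, (hT l b1).2.2⟩
    refine (sum_le_sum fun d _ => (hfib S (filter_subset _ _) d).2).trans (a1.trans ?_)
    have a2 : √(x : ℝ) = y ^ 3 := by
      rw [← hy, show y ^ 6 = (y ^ 3) ^ 2 by ring, Real.sqrt_sq (by positivity)]
    have a3 : Z ^ (1 / 4 : ℝ) = Real.exp (y ^ 4 / 4) := by
      rw [hZ, ← Real.exp_mul]
      congr 1
      ring
    rw [a2, a3, mul_div_assoc, ← Real.exp_sub]
    exact mul_le_mul_of_nonneg_left (Real.exp_le_exp.2 (TAU1x.bdd y0)) hC2.le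
  linarith

end Pool.Agent.P.MP_42fc1a_nt.EK
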