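import Pool.Agent.P.MP_42fc1a_nt.EK.IfaceB

/-! Step TAU2. -/

namespace Pool.Agent.P.MP_42fc1a_nt.EK

open Finset Real Filter Topology MeasureTheory
open Pool.Agent.P.MP_e86632_nt (ee nn ee_add norm_ee ee_neg ee_zero)
open Pool.Agent.P.MP_8be758_nt.Avg (gs red ft nsq gs_pos gs_le_one gs_neg gs_anti)
open Pool.Agent.P.MP_e94e4b_nt.PF (sgm)
open Pool.Agent.P.E2
open ArithmeticFunction (vonMangoldt moebius)
open DirichletCharacter (LFunction)
open scoped Classical

namespace TAU2x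

theorem key {Y k d : ℕ} (h : ∀ l : ℕ, l.Prime → l ∣ d → l ≤ Y) (hd : ¬ d ∣ Y.factorial ^ k) :
    2 ^ k ≤ d := by
  have d0 : d ≠ 0 := by
    rintro rfl
    obtain ⟨p, h1, h2⟩ := Nat.exists_infinite_primes (Y + 1)
    have := h p h2 (dvd_zero _)
    omega
  by_contra c
  refine hd ((Nat.factorization_prime_le_iff_dvd d0 (by positivity)).1 fun p hp => ?_)
  by_cases e : p ∣ d
  · have h1 : p ^ k ∣ Y.factorial ^ k :=
      pow_dvd_pow_of_dvd (hp.dvd_factorial.2 (h p hp e)) k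
    have h2 := (hp.pow_dvd_iff_le_factorization (by positivity)).1 h1
    have h3 : p ^ d.factorization p ≤ d := Nat.ordProj_le p d0
    have h4 : 2 ^ k ≤ p ^ k := Nat.pow_le_pow_left hp.two_le k
    have h5 : d.factorization p < k := (Nat.pow_lt_pow_iff_right hp.one_lt).1 (by omega)
    omega
  · rw [Nat.factorization_eq_zero_of_not_dvd e]
    exact Nat.zero_le _

end TAU2x

theorem p_TAU2 (hODS : S_ODS) (hSMO : S_SMO) :
    S_TAU2 := by
  intro Y ε hY hε
  obtain ⟨C, hC, hS⟩ := hSMO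
  obtain ⟨j, hj⟩ := exists_nat_gt (C * Real.exp (8 * √(Y : ℝ)) / ε)
  have j0 : 0 < j := by
    have : (0 : ℝ) < j := lt_trans (by positivity) hj
    exact_mod_cast this
  refine ⟨Y.factorial ^ (j * 4), ?_, fun l hl h => hl.dvd_factorial.1 (hl.dvd_of_dvd_pow h),
    fun T hT => ?_⟩
  · exact (hY.trans (Nat.self_le_factorial Y)).trans (Nat.le_self_pow (by omega) _)
  rw [← Finset.sum_fiberwise_of_maps_to (s := T)
    (t := T.image fun l => orderOf (2 : ZMod l)) (g := fun l => orderOf (2 : ZMod l))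
    (fun l hl => mem_image_of_mem _ hl)]
  refine (sum_le_sum fun d _ => (hODS d _ fun l hl => ?_).2).trans
    ((hS Y (((2 : ℝ) ^ j) ^ 4) _ (one_le_pow₀ (one_le_pow₀ one_le_two)) fun d hd => ?_).trans ?_)
  · obtain ⟨h1, h2⟩ := mem_filter.1 hl
    exact ⟨(hT l h1).1, (hT l h1).2.1, h2⟩
  · obtain ⟨l, hl, rfl⟩ := mem_image.1 hd
    refine ⟨?_, (hT l hl).2.2.2⟩
    have := TAU2x.key (hT l hl).2.2.2 (hT l hl).2.2.1
    rw [← pow_mul]
    exact_mod_cast this
  · have e : (((2 : ℝ) ^ j) ^ 4) ^ (1 / 4 : ℝ) = 2 ^ j := by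
      rw [one_div]
      exact_mod_cast Real.pow_rpow_inv_natCast (x := (2 : ℝ) ^ j) (by positivity) (n := 4)
        (by norm_num)
    have h2 : (j : ℝ) ≤ 2 ^ j := by exact_mod_cast Nat.lt_two_pow_self.le
    rw [e, div_le_iff₀ (by positivity)]
    rw [div_lt_iff₀ hε] at hj
    nlinarith

end Pool.Agent.P.MP_42fc1a_nt.EK
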