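import Pool.Agent.P.MP_42fc1a_nt.EK.IfaceB

/-! Step TL. -/

namespace Pool.Agent.P.MP_42fc1a_nt.EK

open Finset Real Filter Topology MeasureTheory
open Pool.Agent.P.MP_e86632_nt (ee nn ee_add norm_ee ee_neg ee_zero)
open Pool.Agent.P.MP_8be758_nt.Avg (gs red ft nsq gs_pos gs_le_one gs_neg gs_anti)
open Pool.Agent.P.MP_e94e4b_nt.PF (sgm)
open Pool.Agent.P.E2
open ArithmeticFunction (vonMangoldt moebius)
open DirichletCharacter (LFunction)
open scoped Classical

theorem p_TL (hTV : S_TV) (hFW : S_FW) (hCQ : S_CQ) :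
    S_TL := by
  filter_upwards [hTV, eventually_ge_atTop 0] with r h r0 P T D W Q0 α δ hP hW hD hδ hn
  obtain ⟨c, c1, c2⟩ := hFW W hW
  have e : ft (II r) (bd r P T W D) α = ∑ a ∈ range W, ∑ d ∈ D, ∑ a' ∈ red d, c a * (mf d *
      ∑ m ∈ II r, (om r P T (Real.log m) : ℂ) *
        ee (m * (α + ((a : ℝ) / W + (a' : ℝ) / d)))) := by
    simp only [ft, bd, cq, Complex.ofReal_mul, c2, mul_sum, sum_mul, mul_add, ee_add,
      sum_comm (s := II r)]
    simp only [sum_comm (s := range W) (t := D), sum_comm (s := range W) (t := red _)]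
    exact sum_congr rfl fun _ _ => sum_congr rfl fun _ _ => sum_congr rfl fun _ _ =>
      sum_congr rfl fun _ _ => by ring
  obtain ⟨Y, hY⟩ : ∃ Y, Y = 100 * r ^ 13 / δ := ⟨_, rfl⟩
  have Y0 : 0 ≤ Y := by rw [hY]; positivity
  have q : (#D : ℝ) ≤ Q0 := by
    exact_mod_cast (card_le_card (hD.trans (filter_subset _ _))).trans (by simp)
  rw [e, ← hY]
  refine (norm_sum_le_of_le _ (n := fun _ => (Q0 : ℝ) * (W * Y)) fun a ha => ?_).trans ?_
  · refine (norm_sum_le_of_le _ (n := fun _ => W * Y) fun d hd => ?_).trans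
      (by rw [sum_const, nsmul_eq_mul]; gcongr)
    have k := (hCQ.2.2.2 d 0 (mem_Icc.1 (mem_filter.1 (hD hd)).1).1).2
    simp only [cq, Nat.cast_zero, zero_mul, ee_zero, sum_const, nsmul_eq_mul, mul_one, norm_mul,
      Complex.norm_natCast] at k
    refine (norm_sum_le_of_le _ (n := fun _ => W * (‖(mf d : ℂ)‖ * Y)) fun a' ha' => ?_).trans ?_
    · have := hn d hd a (mem_range.1 ha) a' ha'
      rw [norm_mul, norm_mul]
      gcongr
      · exact c1 a
      · exact (h P T _ hP (hδ.trans_le this)).trans (by rw [hY]; gcongr)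
    · rw [sum_const, nsmul_eq_mul]
      nlinarith [mul_le_mul_of_nonneg_left k (by positivity : 0 ≤ W * Y)]
  · have : (Q0 : ℝ) ≤ Q0 ^ 2 := by exact_mod_cast Nat.le_self_pow two_ne_zero _
    rw [sum_const, card_range, nsmul_eq_mul]
    nlinarith [mul_le_mul_of_nonneg_left this (by positivity : 0 ≤ (W : ℝ) ^ 2 * Y)]

end Pool.Agent.P.MP_42fc1a_nt.EK
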