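import Pool.Agent.P.MP_42fc1a_nt.EK.IfaceC
import Pool.Agent.P.MP_42fc1a_nt.EK.IfaceB

/-! Step TLQ. -/

namespace Pool.Agent.P.MP_42fc1a_nt.EK

open Finset Real Filter Topology MeasureTheory
open Pool.Agent.P.MP_e86632_nt (ee nn ee_add norm_ee ee_neg ee_zero)
open Pool.Agent.P.MP_8be758_nt.Avg (gs red ft nsq gs_pos gs_le_one gs_neg gs_anti)
open Pool.Agent.P.MP_e94e4b_nt.PF (sgm)
open Pool.Agent.P.E2
open ArithmeticFunction (vonMangoldt moebius)
open DirichletCharacter (LFunction)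
open scoped Classical

namespace TLQx

lemma nn_div_ge {u : ℤ} {q : ℕ} (hq : 0 < q) (h : ¬ (q : ℤ) ∣ u) :
    1 / (q : ℝ) ≤ nn ((u : ℝ) / q) := by
  have hq' : (0 : ℝ) < q := by exact_mod_cast hq
  unfold nn
  set k := round ((u : ℝ) / q)
  have h1 : u - k * q ≠ 0 := fun h0 => h ⟨k, by linarith⟩
  have h2 : (1 : ℝ) ≤ |((u - k * q : ℤ) : ℝ)| := by
    rw [← Int.cast_abs]; exact_mod_cast Int.one_le_abs h1
  have h3 : (u : ℝ) / q - k = ((u - k * q : ℤ) : ℝ) / q := by push_cast; field_simp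
  rw [h3, abs_div, abs_of_pos hq']
  exact div_le_div_of_nonneg_right h2 hq'.le

lemma nn_add_ge (x b : ℝ) : nn x - |b| ≤ nn (x + b) := by
  have h1 := Pool.Agent.P.MP_e86632_nt.nn_le x (round (x + b))
  have h2 : |x - (round (x + b) : ℤ)| ≤ |x + b - (round (x + b) : ℤ)| + |b| := by
    have : x - ((round (x + b) : ℤ) : ℝ) = (x + b - (round (x + b) : ℤ)) + (-b) := by ring
    rw [this]
    exact (abs_add_le _ _).trans (by rw [abs_neg])
  have h3 : nn (x + b) = |x + b - (round (x + b) : ℤ)| := rfl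
  linarith

lemma ev_pow (n : ℕ) : ∀ᶠ r : ℝ in atTop, 200 * r ^ n ≤ Real.exp r := by
  have h := Real.tendsto_exp_div_pow_atTop n
  filter_upwards [h.eventually_ge_atTop 200, eventually_gt_atTop (0 : ℝ)] with r h1 h2
  rwa [le_div_iff₀ (by positivity)] at h1

lemma sep {W q i d a a' : ℕ} (A : ℤ) (hW : 1 ≤ W) (h2 : 2 ∣ W) (hq : 1 ≤ q) (hd : 1 ≤ d)
    (hdW : d.Coprime W) (hdq : ¬ d ∣ q) (ha' : a'.Coprime d) :
    1 / ((d : ℝ) * (W * q * 2 ^ i : ℕ)) ≤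
      nn ((A : ℝ) / (W * q * 2 ^ i : ℕ) + ((a : ℝ) / W + (a' : ℝ) / d)) := by
  have hN : 0 < W * q * 2 ^ i := by positivity
  have hdN : 0 < d * (W * q * 2 ^ i) := by positivity
  have hnd : ¬ ((d * (W * q * 2 ^ i) : ℕ) : ℤ) ∣
      A * d + (a * d * (q * 2 ^ i) : ℕ) + (a' * (W * q * 2 ^ i) : ℕ) := by
    intro h
    have h1 : (d : ℤ) ∣ A * d + (a * d * (q * 2 ^ i) : ℕ) + (a' * (W * q * 2 ^ i) : ℕ) :=
      Dvd.dvd.trans (by push_cast; exact Dvd.intro _ rfl) h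
    have h3 : (d : ℤ) ∣ A * d + (a * d * (q * 2 ^ i) : ℕ) := by
      push_cast
      exact dvd_add (Dvd.intro_left _ rfl) (Dvd.dvd.mul_right (Dvd.intro_left _ rfl) _)
    have h4 : (d : ℤ) ∣ ((a' * (W * q * 2 ^ i) : ℕ) : ℤ) := (dvd_add_right h3).1 h1
    have h5 : d ∣ a' * (W * q * 2 ^ i) := by exact_mod_cast h4
    have h6 : d ∣ W * q * 2 ^ i := ha'.symm.dvd_of_dvd_mul_left h5
    have h7 : d.Coprime (2 ^ i) := (Nat.Coprime.coprime_dvd_right h2 hdW).pow_right i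
    have h8 : d ∣ W * q := h7.dvd_of_dvd_mul_right h6
    exact hdq (hdW.dvd_of_dvd_mul_left h8)
  have h := nn_div_ge hdN hnd
  have hW' : (0 : ℝ) < W := by exact_mod_cast hW
  have hq' : (0 : ℝ) < q := by exact_mod_cast hq
  have hd' : (0 : ℝ) < d := by exact_mod_cast hd
  have e : ((A * d + (a * d * (q * 2 ^ i) : ℕ) + (a' * (W * q * 2 ^ i) : ℕ) : ℤ) : ℝ) /
      ((d * (W * q * 2 ^ i) : ℕ) : ℝ) =
      (A : ℝ) / (W * q * 2 ^ i : ℕ) + ((a : ℝ) / W + (a' : ℝ) / d) := by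
    push_cast
    field_simp
    ring
  rw [e] at h
  have e2 : ((d * (W * q * 2 ^ i) : ℕ) : ℝ) = (d : ℝ) * (W * q * 2 ^ i : ℕ) := Nat.cast_mul _ _
  rwa [e2] at h

end TLQx

theorem p_TLQ (hRAM : S_RAM) (hTL : S_TL) :
    S_TLQ := by
  intro A
  filter_upwards [hTL, TLQx.ev_pow (13 + 4 * A), eventually_ge_atTop (2 : ℝ)] with r hT hE hr
  intro P α T W Q0 q i hPr hW h2 hq hqQ hWQ hPA hWQi hα
  set D : Finset ℕ := q.divisors.filter (fun d => d.Coprime W) with hD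
  have hDQ : D ⊆ QS W Q0 := by
    intro d hd
    rw [hD, mem_filter, Nat.mem_divisors] at hd
    have h1 : d ≤ q := Nat.le_of_dvd hq hd.1.1
    have h0 : 1 ≤ d := Nat.pos_of_dvd_of_pos hd.1.1 hq
    simp only [QS, mem_filter, mem_Icc]
    exact ⟨⟨h0, h1.trans hqQ⟩, hd.2⟩
  have hid : ft (II r) (fun m => (bw r P T m : ℂ)) α - ft (II r) (bd r P T W (QS W Q0)) α -
      ft (II r) (be r P T (W * q * 2 ^ i)) α = - ft (II r) (bd r P T W (QS W Q0 \ D)) α := by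
    unfold ft
    rw [← sum_sub_distrib, ← sum_sub_distrib, ← sum_neg_distrib]
    refine sum_congr rfl fun m _ => ?_
    have h1 := hRAM W q i m hW h2 hq
    have h3 := sum_sdiff (f := fun d => (mf d : ℂ) * cq d m) hDQ
    unfold be bd
    rw [← h3]
    push_cast
    rw [h1]
    ring
  rw [hid, norm_neg]
  have hW' : (1 : ℝ) ≤ W := by exact_mod_cast hW
  have hq' : (1 : ℝ) ≤ q := by exact_mod_cast hq
  have hqQ' : (q : ℝ) ≤ Q0 := by exact_mod_cast hqQ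
  have hQ' : (1 : ℝ) ≤ Q0 := hq'.trans hqQ'
  have hP2 : 2 ≤ P := by
    have h1 : r ≤ r ^ 300 := le_self_pow₀ (by linarith) (by norm_num)
    linarith [hPr.p1]
  have hQP : (Q0 : ℝ) ≤ P := by nlinarith
  set N : ℝ := ((W * q * 2 ^ i : ℕ) : ℝ) with hN
  have hNe : N = W * q * 2 ^ i := by rw [hN]; push_cast; ring
  have h2i : (0 : ℝ) < 2 ^ i := by positivity
  have hN0 : 0 < N := by rw [hNe]; positivity
  have hδ : 0 < 1 / (2 * Q0 * N) := by positivity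
  have hb : |α - (round (N * α) : ℤ) / N| ≤ 1 / (2 * Q0 * N) := by
    have e : α - (round (N * α) : ℤ) / N = (N * α - (round (N * α) : ℤ)) / N := by
      field_simp
    have h3 : nn (N * α) = |N * α - (round (N * α) : ℤ)| := rfl
    rw [e, abs_div, abs_of_pos hN0, ← h3]
    have h4 : (W : ℝ) * q / P ^ 3 ≤ 1 / (2 * Q0) := by
      rw [div_le_div_iff₀ (by positivity) (by positivity)]
      have h5 : (W : ℝ) * q ≤ P := by nlinarith
      have h6 : (W : ℝ) * q * Q0 ≤ P * P := mul_le_mul h5 hQP (by positivity) (by linarith)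
      nlinarith
    have h5 : nn (N * α) ≤ 1 / (2 * Q0) := hα.trans h4
    calc nn (N * α) / N ≤ 1 / (2 * Q0) / N := div_le_div_of_nonneg_right h5 hN0.le
      _ = 1 / (2 * Q0 * N) := by field_simp
  have hmain := hT P T (QS W Q0 \ D) W Q0 α (1 / (2 * Q0 * N)) hPr hW sdiff_subset hδ (by
    intro d hd a _ a' ha'
    rw [Finset.mem_sdiff] at hd
    have hd1 := hd.1
    simp only [QS, mem_filter, mem_Icc] at hd1
    have hdq : ¬ d ∣ q := fun h => hd.2 (by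
      rw [hD, mem_filter, Nat.mem_divisors]
      exact ⟨⟨h, by omega⟩, hd1.2⟩)
    have ha2 : a'.Coprime d := (mem_filter.1 ha').2
    have h1 := TLQx.sep (i := i) (a := a) (round (N * α)) hW h2 hq hd1.1.1 hd1.2 hdq ha2
    rw [← hN] at h1
    have h3 := TLQx.nn_add_ge ((round (N * α) : ℤ) / N + ((a : ℝ) / W + (a' : ℝ) / d))
      (α - (round (N * α) : ℤ) / N)
    have e : ((round (N * α) : ℤ) : ℝ) / N + ((a : ℝ) / W + (a' : ℝ) / d) +
        (α - (round (N * α) : ℤ) / N) = α + ((a : ℝ) / W + (a' : ℝ) / d) := by ring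
    rw [e] at h3
    have hd0 : (1 : ℝ) ≤ d := by exact_mod_cast hd1.1.1
    have hdQ : (d : ℝ) ≤ Q0 := by exact_mod_cast hd1.1.2
    have h4 : 1 / ((Q0 : ℝ) * N) ≤ 1 / (d * N) :=
      one_div_le_one_div_of_le (by positivity) (mul_le_mul_of_nonneg_right hdQ hN0.le)
    have h5 : 1 / ((Q0 : ℝ) * N) = 2 * (1 / (2 * Q0 * N)) := by field_simp
    linarith)
  refine hmain.trans (le_trans ?_ hE)
  have e : (W : ℝ) ^ 2 * (Q0 : ℝ) ^ 2 * (100 * r ^ 13 / (1 / (2 * Q0 * N))) =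
      200 * (r ^ 13 * ((W * Q0) * (W * Q0) * Q0 * N)) := by
    field_simp
    ring
  have hrA : 0 ≤ r ^ A := by positivity
  have hNA : N ≤ r ^ A := by
    rw [hNe]
    refine le_trans ?_ hWQi
    gcongr
  have h1 : (W : ℝ) * Q0 ≤ r ^ A := hWQ.trans hPA
  have h3 : (Q0 : ℝ) ≤ r ^ A := hQP.trans hPA
  have h4 : (W * Q0) * (W * Q0) * Q0 * N ≤ r ^ A * r ^ A * r ^ A * r ^ A := by gcongr
  have e2 : r ^ (13 + 4 * A) = r ^ 13 * (r ^ A * r ^ A * r ^ A * r ^ A) := by ring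
  rw [e, e2]
  gcongr

end Pool.Agent.P.MP_42fc1a_nt.EK
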