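import Pool.Agent.P.MP_42fc1a_nt.EK.IfaceB

/-! Step TV. -/

namespace Pool.Agent.P.MP_42fc1a_nt.EK

open Finset Real Filter Topology MeasureTheory
open Pool.Agent.P.MP_e86632_nt (ee nn ee_add norm_ee ee_neg ee_zero)
open Pool.Agent.P.MP_8be758_nt.Avg (gs red ft nsq gs_pos gs_le_one gs_neg gs_anti)
open Pool.Agent.P.MP_e94e4b_nt.PF (sgm)
open Pool.Agent.P.E2
open ArithmeticFunction (vonMangoldt moebius)
open DirichletCharacter (LFunction)
open scoped Classical

theorem p_TV (hBW : S_BW) (hOM : S_OM) :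
    S_TV := by
  filter_upwards [hBW, hOM, eventually_ge_atTop (1 : ℝ)] with r h1 h2 hr P T θ hP hθ
  obtain ⟨a1, a2, -⟩ := h2 P T hP
  have a0 := (h1 P T hP).1
  have hr1 : 1 ≤ r ^ 13 := one_le_pow₀ hr
  have key := MP_e86632_nt.abel_bound (fun m : ℕ => ee (m * θ))
    (fun m : ℕ => (om r P T (Real.log m) : ℂ)) ⌊XX r / 60⌋₊ ⌊110 * XX r⌋₊ (1 / (2 * nn θ))
    (200 * r ^ 13) (by positivity) (by positivity) (fun n _ => MP_e86632_nt.geom_bound hθ _ n) (by
      intro hlt
      have b1 : (⌊110 * XX r⌋₊ : ℝ) ≤ 110 * XX r := Nat.floor_le (by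
        by_contra q
        rw [Nat.floor_of_nonpos (not_le.1 q).le] at hlt
        omega)
      have b2 := Nat.lt_floor_add_one (XX r / 60)
      generalize ⌊XX r / 60⌋₊ = a at *
      obtain ⟨M, hM⟩ : ∃ M, ⌊110 * XX r⌋₊ = M + 1 := ⟨_, (Nat.succ_pred_eq_of_pos (by omega)).symm⟩
      rw [hM] at hlt b1 ⊢
      have b3 : ∑ i ∈ Ioc a M, ‖(om r P T (Real.log (i + 1 : ℕ)) : ℂ) - om r P T (Real.log i)‖ ≤
          4 * r ^ 13 * (Real.log (M + 1 : ℕ) - Real.log (a + 1 : ℕ)) := by
        rw [← MP_e86632_nt.tele_Ioc (fun i : ℕ => Real.log i) a M (by omega), mul_sum]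
        refine sum_le_sum fun i hi => ?_
        have hi0 : (0 : ℝ) < i := by exact_mod_cast (Nat.zero_le a).trans_lt (mem_Ioc.1 hi).1
        rw [← Complex.ofReal_sub, Complex.norm_real, Real.norm_eq_abs]
        refine (a2 _ _).trans (le_of_eq ?_)
        rw [abs_of_nonneg (sub_nonneg.2 (Real.log_le_log hi0 (by push_cast; linarith)))]
      have b4 : Real.log (M + 1 : ℕ) - Real.log (a + 1 : ℕ) ≤ 13 := by
        have c1 : Real.log (M + 1 : ℕ) ≤ Real.log (2 ^ 13 * (a + 1 : ℕ)) :=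
          Real.log_le_log (by positivity) (by push_cast at b1 ⊢; linarith)
        rw [Real.log_mul (by positivity) (by positivity), Real.log_pow] at c1
        have := Real.log_two_lt_d9
        push_cast at c1 ⊢
        linarith
      have b5 : ‖(om r P T (Real.log (M + 1 : ℕ)) : ℂ)‖ ≤ 2 := by
        rw [Complex.norm_real, Real.norm_eq_abs, abs_of_nonneg (a1 _).1]
        exact (a1 _).2.trans a0
      simp only [Nat.add_sub_cancel]
      nlinarith)
  rw [II, sum_congr rfl fun m _ => mul_comm _ _]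
  refine key.trans (le_of_eq ?_)
  field_simp
  ring

end Pool.Agent.P.MP_42fc1a_nt.EK
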