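import Pool.Agent.P.MP_42fc1a_nt.EK.IfaceA

/-! Step WIN. -/

namespace Pool.Agent.P.MP_42fc1a_nt.EK

open Finset Real Filter Topology MeasureTheory
open Pool.Agent.P.MP_e86632_nt (ee nn ee_add norm_ee ee_neg ee_zero)
open Pool.Agent.P.MP_8be758_nt.Avg (gs red ft nsq gs_pos gs_le_one gs_neg gs_anti)
open Pool.Agent.P.MP_e94e4b_nt.PF (sgm)
open Pool.Agent.P.E2
open ArithmeticFunction (vonMangoldt moebius)
open DirichletCharacter (LFunction)
open scoped Classical

namespace WINx

end WINx

theorem p_WIN :
    S_WIN := by
  intro Bs len T Lx c hB hl hc hlt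
  by_contra hne
  push Not at hne
  have key : ∀ m j : ℕ, j + m = T → ((Bs ∩ Ico j T).card : ℝ) ≤ c * m + Lx := by
    intro m
    induction m using Nat.strong_induction_on with
    | _ m ih =>
      intro j hj
      by_cases h : j + len j ≤ T
      · have h1 := hne j h
        have h2 := ih (m - len j) (by have := (hl j).1; omega) (j + len j) (by omega)
        have h3 : Bs ∩ Ico j T ⊆ (Bs ∩ Ico j (j + len j)) ∪ (Bs ∩ Ico (j + len j) T) := by
          intro x hx
          simp only [mem_union, mem_inter, mem_Ico] at hx ⊢
          by_cases hx' : x < j + len j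
          · exact Or.inl ⟨hx.1, hx.2.1, hx'⟩
          · exact Or.inr ⟨hx.1, by omega, hx.2.2⟩
        have h4 : ((Bs ∩ Ico j T).card : ℝ) ≤
            (Bs ∩ Ico j (j + len j)).card + (Bs ∩ Ico (j + len j) T).card := by
          exact_mod_cast (card_le_card h3).trans (card_union_le _ _)
        rw [Nat.cast_sub (by omega)] at h2
        linarith
      · have h1 : (Bs ∩ Ico j T).card ≤ Lx := by
          have := card_le_card (inter_subset_right (s₁ := Bs) (s₂ := Ico j T))
          rw [Nat.card_Ico] at this
          have := (hl j).2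
          omega
        have h2 : ((Bs ∩ Ico j T).card : ℝ) ≤ Lx := by exact_mod_cast h1
        have : 0 ≤ c * m := by positivity
        linarith
  have h := key T 0 (by omega)
  rw [← range_eq_Ico, inter_eq_left.2 hB] at h
  linarith

end Pool.Agent.P.MP_42fc1a_nt.EK
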