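import Pool.Agent.P.MP_42fc1a_nt.EK.IfaceC
import Pool.Agent.P.MP_42fc1a_nt.EK.IfaceB

/-! Step ZCL. -/

namespace Pool.Agent.P.MP_42fc1a_nt.EK

open Finset Real Filter Topology MeasureTheory
open Pool.Agent.P.MP_e86632_nt (ee nn ee_add norm_ee ee_neg ee_zero)
open Pool.Agent.P.MP_8be758_nt.Avg (gs red ft nsq gs_pos gs_le_one gs_neg gs_anti)
open Pool.Agent.P.MP_e94e4b_nt.PF (sgm)
open Pool.Agent.P.E2
open ArithmeticFunction (vonMangoldt moebius)
open DirichletCharacter (LFunction)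
open scoped Classical

namespace ZCLx

theorem sq_sub (a b : ℂ) : ‖a - b‖ ^ 2 ≤ 2 * ‖a‖ ^ 2 + 2 * ‖b‖ ^ 2 := by
  have h := norm_sub_le a b
  have h0 := norm_nonneg (a - b)
  nlinarith [sq_nonneg (‖a‖ - ‖b‖), norm_nonneg a, norm_nonneg b]

theorem cop_iff {q c m : ℕ} (h : m ≡ c [MOD q]) : m.Coprime q ↔ c.Coprime q := by
  unfold Nat.Coprime
  rw [h.gcd_eq]

theorem card_red (q : ℕ) : (red q).card = q.totient := by
  unfold red
  rw [Nat.totient_eq_card_coprime]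
  congr 1
  ext x
  simp [Nat.coprime_comm]

theorem bw_zero {r P : ℝ} {T : Finset ℕ} {q m : ℕ} (hP : 0 ≤ P) (hR : Rg r P) (hT : T ⊆ PP P)
    (h3 : ∀ m, bw r P T m ≠ 0 → ∃ p ∈ T, ∃ n ∈ RN r P, n.Prime ∧ m = p * n)
    (hl : ∀ l : ℕ, l.Prime → l ∣ q → (l : ℝ) ≤ P) (hm : ¬ m.Coprime q) : bw r P T m = 0 := by
  by_contra hne
  obtain ⟨p, hp, n, hn, hnp, rfl⟩ := h3 m hne
  obtain ⟨hpp, hp1, -⟩ := hR.pp p (hT hp)
  obtain ⟨-, hn1, -⟩ := hR.rn n hn
  apply hm
  apply Nat.Coprime.mul_left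
  · rw [Nat.Prime.coprime_iff_not_dvd hpp]
    intro hd
    have := hl p hpp hd
    linarith
  · rw [Nat.Prime.coprime_iff_not_dvd hnp]
    intro hd
    have := hl n hnp hd
    linarith

end ZCLx

theorem p_ZCL (hRNG : S_RNG) (hBW : S_BW) (hMOD : S_MOD) (hPSV : S_PSV) :
    S_ZCL := by
  filter_upwards [hRNG, hBW, hMOD, eventually_ge_atTop (1 : ℝ)] with r h1 h2 h3 hr
  intro P θ v T q _ hPr hSw hl hv
  have hP1 : 1 ≤ P := le_trans (one_le_pow₀ hr) hPr.p1
  have hR := h1 P hP1 hPr.p2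
  obtain ⟨-, -, hb3, -, -⟩ := h2 P T hPr
  obtain ⟨-, p2, p3, p4⟩ := hPSV q
  have hq : 0 < q := hSw.q1
  have hφ : 0 < q.totient := Nat.totient_pos.mpr hq
  have hφR : (0 : ℝ) < q.totient := by exact_mod_cast hφ
  have hqR : (0 : ℝ) < q := by exact_mod_cast hq
  have hφC : (q.totient : ℂ) ≠ 0 := by exact_mod_cast hφ.ne'
  have hqC : (q : ℂ) ≠ 0 := by exact_mod_cast hq.ne'
  set y : ℝ := om r P T v * Real.exp v with hy
  set E : ℝ := 8 / θ + XX r * Real.exp (-r) / q with hE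
  set f : ℕ → ℂ := fun m => (bw r P T m : ℂ) * (gk θ (Real.log m - v) : ℂ) with hf
  set Y : ℕ → ℂ := fun c => ∑ m ∈ Ic r q c, f m - (y : ℂ) / q.totient with hY
  set e : ℕ → ℝ := fun c =>
    ∑ m ∈ Ic r q c, om r P T (Real.log m) * gk θ (Real.log m - v) - y / q with he
  have he1 : ∀ c, |e c| ≤ E := fun c => h3 P θ v T q c hPr hSw hv
  have hz : ∀ c ∈ range q, ¬ c.Coprime q → ‖Zc r θ (be r P T q) q c v‖ ^ 2 = 0 := by
    intro c _ hc
    have : Zc r θ (be r P T q) q c v = 0 := by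
      unfold Zc
      refine Finset.sum_eq_zero fun m hm => ?_
      have hmc : m ≡ c [MOD q] := (Finset.mem_filter.mp hm).2
      have hm' : ¬ m.Coprime q := fun h => hc ((ZCLx.cop_iff hmc).mp h)
      have hb := ZCLx.bw_zero (by linarith) hR hPr.sub hb3 hl hm'
      unfold be Lm
      rw [hb, if_neg hm']
      simp
    rw [this]
    simp
  have hc1 : ∀ c ∈ red q, Zc r θ (be r P T q) q c v =
      Y c - (((q : ℝ) / q.totient * e c : ℝ) : ℂ) := by
    intro c hc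
    have hcq : c.Coprime q := (Finset.mem_filter.mp hc).2
    have h1 : Zc r θ (be r P T q) q c v = ∑ m ∈ Ic r q c, (f m - (q : ℂ) / q.totient *
        ((om r P T (Real.log m) * gk θ (Real.log m - v) : ℝ) : ℂ)) := by
      unfold Zc
      refine Finset.sum_congr rfl fun m hm => ?_
      have hmc : m ≡ c [MOD q] := (Finset.mem_filter.mp hm).2
      have hm' : m.Coprime q := (ZCLx.cop_iff hmc).mpr hcq
      unfold be Lm
      rw [if_pos hm']
      simp only [hf]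
      push_cast
      ring
    rw [h1, Finset.sum_sub_distrib, ← Finset.mul_sum]
    simp only [hY, he]
    push_cast
    field_simp
    ring
  have hch : ∀ χ : DirichletCharacter ℂ q, ∑ c ∈ red q, Y c * ch χ c =
      Zx r P T θ (ch χ) v - kp χ * (y : ℂ) := by
    intro χ
    have h1 : Zx r P T θ (ch χ) v = ∑ m ∈ II r, f m * ch χ m := by
      unfold Zx
      refine Finset.sum_congr rfl fun m _ => ?_
      simp only [hf]
      ring
    rw [h1, p4 (II r) f χ]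
    simp only [hY, sub_mul, Finset.sum_sub_distrib]
    rw [← Finset.mul_sum, p2 χ]
    congr 1
    field_simp
  have hsum : ∑ χ : DirichletCharacter ℂ q, ‖Zx r P T θ (ch χ) v - kp χ * (y : ℂ)‖ ^ 2 =
      q.totient * ∑ c ∈ red q, ‖Y c‖ ^ 2 := by
    rw [← p3 Y]
    exact Finset.sum_congr rfl fun χ _ => by rw [hch χ]
  have hred : ∑ c ∈ range q, ‖Zc r θ (be r P T q) q c v‖ ^ 2 =
      ∑ c ∈ red q, ‖Zc r θ (be r P T q) q c v‖ ^ 2 := by
    unfold red
    rw [Finset.sum_filter_of_ne]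
    intro c hc hne
    by_contra h
    exact hne (hz c hc h)
  rw [hred, hsum]
  have hb : ∀ c ∈ red q, ‖Zc r θ (be r P T q) q c v‖ ^ 2 ≤
      2 * ‖Y c‖ ^ 2 + 2 * (((q : ℝ) / q.totient) ^ 2 * E ^ 2) := by
    intro c hc
    rw [hc1 c hc]
    refine le_trans (ZCLx.sq_sub _ _) ?_
    rw [Complex.norm_real, Real.norm_eq_abs, sq_abs, mul_pow]
    have : e c ^ 2 ≤ E ^ 2 := by
      rw [← sq_abs (e c)]
      exact pow_le_pow_left₀ (abs_nonneg _) (he1 c) 2
    gcongr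
  refine le_trans (Finset.sum_le_sum hb) (le_of_eq ?_)
  rw [Finset.sum_add_distrib, ← Finset.mul_sum, Finset.sum_const, ZCLx.card_red, nsmul_eq_mul]
  field_simp

end Pool.Agent.P.MP_42fc1a_nt.EK
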