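import Pool.Agent.P.MP_42fc1a_nt.EK.IfaceD

/-! Step ZNG. -/

namespace Pool.Agent.P.MP_42fc1a_nt.EK

open Finset Real Filter Topology MeasureTheory
open Pool.Agent.P.MP_e86632_nt (ee nn ee_add norm_ee ee_neg ee_zero)
open Pool.Agent.P.MP_8be758_nt.Avg (gs red ft nsq gs_pos gs_le_one gs_neg gs_anti)
open Pool.Agent.P.MP_e94e4b_nt.PF (sgm)
open Pool.Agent.P.E2
open ArithmeticFunction (vonMangoldt moebius)
open DirichletCharacter (LFunction)
open scoped Classical

namespace ZNGx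

end ZNGx

theorem p_ZNG :
    S_ZNG := by
  have h1 : Tendsto (fun s : ℂ => ((s - 1) * riemannZeta s).re) (𝓝[≠] 1) (𝓝 1) :=
    (Complex.continuous_re.tendsto 1).comp riemannZeta_residue_one
  have h2 : ∀ᶠ s : ℂ in 𝓝[≠] 1, 0 < ((s - 1) * riemannZeta s).re :=
    h1.eventually (lt_mem_nhds one_pos)
  rw [eventually_nhdsWithin_iff, Metric.eventually_nhds_iff] at h2
  obtain ⟨ε, hε, h⟩ := h2
  refine ⟨ε / 2, by positivity, fun β h3 h4 => ?_⟩
  have him : (riemannZeta β).im = 0 := by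
    rw [← Complex.conj_eq_iff_im, ← riemannZeta_conj, Complex.conj_ofReal]
  refine ⟨him, ?_⟩
  have hd : dist (β : ℂ) 1 < ε := by
    rw [← Complex.ofReal_one, Complex.dist_of_im_eq (by simp), Complex.ofReal_re,
      Complex.ofReal_re, Real.dist_eq, abs_lt]
    constructor <;> linarith
  have hn : (β : ℂ) ∈ ({1}ᶜ : Set ℂ) := fun e =>
    h4.ne (Complex.ofReal_eq_one.1 (Set.mem_singleton_iff.1 e))
  have := h hd hn
  simp only [Complex.mul_re, Complex.sub_re, Complex.ofReal_re, Complex.one_re, him, mul_zero,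
    sub_zero] at this
  by_contra hc
  nlinarith [not_le.1 hc]

end Pool.Agent.P.MP_42fc1a_nt.EK
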