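import Pool.Agent.P.MP_42fc1a_nt.EK.TBW
import Pool.Agent.P.MP_42fc1a_nt.EK.TLIP
import Pool.Agent.P.MP_42fc1a_nt.EK.TOM
import Pool.Agent.P.MP_42fc1a_nt.EK.TTV
import Pool.Agent.P.MP_42fc1a_nt.EK.TFW
import Pool.Agent.P.MP_42fc1a_nt.EK.TCQ
import Pool.Agent.P.MP_42fc1a_nt.EK.TTL
import Pool.Agent.P.MP_42fc1a_nt.EK.TE4
import Pool.Agent.P.MP_42fc1a_nt.EK.TEUL
import Pool.Agent.P.MP_42fc1a_nt.EK.TPRS
import Pool.Agent.P.MP_42fc1a_nt.EK.TSMO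
import Pool.Agent.P.MP_42fc1a_nt.EK.TTAU1
import Pool.Agent.P.MP_42fc1a_nt.EK.TTAU2
import Pool.Agent.P.MP_42fc1a_nt.EK.TDYS
import Pool.Agent.P.MP_42fc1a_nt.EK.TTAU
import Pool.Agent.P.MP_42fc1a_nt.EK.TMSUM
import Pool.Agent.P.MP_42fc1a_nt.EK.TORD
import Pool.Agent.P.MP_42fc1a_nt.EK.TGQ
import Pool.Agent.P.MP_42fc1a_nt.EK.TOFF
import Pool.Agent.P.MP_42fc1a_nt.EK.TSHF
import Pool.Agent.P.MP_42fc1a_nt.EK.TTT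
import Pool.Agent.P.MP_42fc1a_nt.EK.TE5
import Pool.Agent.P.MP_42fc1a_nt.EK.TREP
import Pool.Agent.P.MP_42fc1a_nt.EK.TSV3
import Pool.Agent.P.MP_42fc1a_nt.EK.TCOR
import Pool.Agent.P.MP_42fc1a_nt.EK.TH40
import Pool.Agent.P.MP_42fc1a_nt.EK.TROM0
import Pool.Agent.P.MP_42fc1a_nt.EK.TSGM
import Pool.Agent.P.MP_42fc1a_nt.EK.TROM
import Pool.Agent.P.MP_42fc1a_nt.EK.TE1A
import Pool.Agent.P.MP_42fc1a_nt.EK.TE1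
import Pool.Agent.P.MP_42fc1a_nt.EK.TPSV
import Pool.Agent.P.MP_42fc1a_nt.EK.TAPX0
import Pool.Agent.P.MP_42fc1a_nt.EK.TLB0
import Pool.Agent.P.MP_42fc1a_nt.EK.TREAL
import Pool.Agent.P.MP_42fc1a_nt.EK.TZNG
import Pool.Agent.P.MP_42fc1a_nt.EK.TSG5
import Pool.Agent.P.MP_42fc1a_nt.EK.TSG0
import Pool.Agent.P.MP_42fc1a_nt.EK.TSG1
import Pool.Agent.P.MP_42fc1a_nt.EK.TSG3
import Pool.Agent.P.MP_42fc1a_nt.EK.TSG4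
import Pool.Agent.P.MP_42fc1a_nt.EK.TSG6
import Pool.Agent.P.MP_42fc1a_nt.EK.TSIE
import Pool.Agent.P.MP_42fc1a_nt.EK.TL1D
import Pool.Agent.P.MP_42fc1a_nt.EK.TPR0
import Pool.Agent.P.MP_42fc1a_nt.EK.TZFL
import Pool.Agent.P.MP_42fc1a_nt.EK.TLDL
import Pool.Agent.P.MP_42fc1a_nt.EK.TP0U
import Pool.Agent.P.MP_42fc1a_nt.EK.TC1U
import Pool.Agent.P.MP_42fc1a_nt.EK.TLNG
import Pool.Agent.P.MP_42fc1a_nt.EK.TSPC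
import Pool.Agent.P.MP_42fc1a_nt.EK.TMVQ
import Pool.Agent.P.MP_42fc1a_nt.EK.TDPQ
import Pool.Agent.P.MP_42fc1a_nt.EK.TDLQ
import Pool.Agent.P.MP_42fc1a_nt.EK.TARCS
import Pool.Agent.P.MP_42fc1a_nt.EK.TPARS
import Pool.Agent.P.MP_42fc1a_nt.EK.TGL1
import Pool.Agent.P.MP_42fc1a_nt.EK.TA2M1
import Pool.Agent.P.MP_42fc1a_nt.EK.TCLS
import Pool.Agent.P.MP_42fc1a_nt.EK.TCLM
import Pool.Agent.P.MP_42fc1a_nt.EK.TA2M2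
import Pool.Agent.P.MP_42fc1a_nt.EK.TA2M3
import Pool.Agent.P.MP_42fc1a_nt.EK.TSCH
import Pool.Agent.P.MP_42fc1a_nt.EK.TA2M
import Pool.Agent.P.MP_42fc1a_nt.EK.TMOD
import Pool.Agent.P.MP_42fc1a_nt.EK.TZCL
import Pool.Agent.P.MP_42fc1a_nt.EK.TONE1
import Pool.Agent.P.MP_42fc1a_nt.EK.TONEQ
import Pool.Agent.P.MP_42fc1a_nt.EK.TRAM
import Pool.Agent.P.MP_42fc1a_nt.EK.TTLQ
import Pool.Agent.P.MP_42fc1a_nt.EK.TE3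
import Pool.Agent.P.MP_42fc1a_nt.EK.TSTR
import Pool.Agent.P.MP_42fc1a_nt.EK.TCHG
import Pool.Agent.P.MP_42fc1a_nt.EK.TBIL
import Pool.Agent.P.MP_42fc1a_nt.EK.TE2
import Pool.Agent.P.MP_42fc1a_nt.EK.TCIR
import Pool.Agent.P.MP_42fc1a_nt.EK.TLAW
import Pool.Agent.P.MP_42fc1a_nt.EK.TFE
import Pool.Agent.P.MP_42fc1a_nt.EK.TMOM
import Pool.Agent.P.MP_42fc1a_nt.EK.TAVG
import Pool.Agent.P.MP_42fc1a_nt.EK.TBST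
import Pool.Agent.P.MP_42fc1a_nt.EK.TBLK
import Pool.Agent.P.MP_42fc1a_nt.EK.TWIN
import Pool.Agent.P.MP_42fc1a_nt.EK.TPICK
import Pool.Agent.P.MP_42fc1a_nt.EK.TFIB
import Pool.Agent.P.MP_42fc1a_nt.EK.TONE
import Pool.Agent.P.MP_42fc1a_nt.EK.TPD
import Pool.Agent.P.MP_42fc1a_nt.EK.TMMX
import Pool.Agent.P.MP_42fc1a_nt.EK.TGOOD
import Pool.Agent.P.MP_42fc1a_nt.EK.TMS0
import Pool.Agent.P.MP_42fc1a_nt.EK.TMSN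
import Pool.Agent.P.MP_42fc1a_nt.EK.TMSI
import Pool.Agent.P.MP_42fc1a_nt.EK.TMASS
import Pool.Agent.P.MP_42fc1a_nt.EK.TINVC
import Pool.Agent.P.MP_42fc1a_nt.EK.TPAR
import Pool.Agent.P.MP_42fc1a_nt.EK.TINV
import Pool.Agent.P.MP_42fc1a_nt.EK.TSEL
import Pool.Agent.P.MP_42fc1a_nt.EK.TNUM
import Pool.Agent.P.MP_42fc1a_nt.EK.TMAINC
import Pool.Agent.P.MP_42fc1a_nt.EK.TDYA
import Pool.Agent.P.MP_42fc1a_nt.EK.TFIN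
import Pool.Agent.P.MP_e94e4b_nt.E2.All
import Pool.Agent.P.MP_74dd9d_nt.Mertens
import Pool.Agent.P.MP_42fc1a_nt.Main

/-! All the steps together. -/

namespace Pool.Agent.P.MP_42fc1a_nt.EK

open Finset

theorem a_SV : S_SV := Pool.Agent.P.MP_e94e4b_nt.PF.t_SV Pool.Agent.P.E2.a_FL

theorem a_MER : S_MER := fun t T ht hT =>
  le_trans (Real.exp_le_exp.2 (sum_le_sum_of_subset_of_nonneg
    (fun l hl => Pool.Agent.P.MP_74dd9d_nt.mem_Pr.2 ⟨(hT l hl).2, (hT l hl).1⟩)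
    fun _ _ _ => by positivity)) (Pool.Agent.P.MP_74dd9d_nt.SS_upper ht)

theorem a_ODS : S_ODS := fun d T hT => by
  refine ⟨?_, sum_od_le hT⟩
  rcases T.eq_empty_or_nonempty with rfl | ⟨p, hp⟩
  · simp
  · exact card_primes_le ((hT p hp).2.2 ▸ od_pos (hT p hp).1 (hT p hp).2.1) fun l hl =>
      ⟨(hT l hl).1, (hT l hl).2.2 ▸ pow_orderOf_eq_one _⟩

theorem a_LOC : S_LOC := no_local

theorem a_BW : S_BW := p_BW Pool.Agent.P.E2.a_RNG Pool.Agent.P.E2.a_PH Pool.Agent.P.E2.a_RHO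

theorem a_LIP : S_LIP := p_LIP

theorem a_OM : S_OM := p_OM Pool.Agent.P.E2.a_RNG Pool.Agent.P.E2.a_WIN1 a_LIP a_BW

theorem a_TV : S_TV := p_TV a_BW a_OM

theorem a_FW : S_FW := p_FW

theorem a_CQ : S_CQ := p_CQ

theorem a_TL : S_TL := p_TL a_TV a_FW a_CQ

theorem a_E4 : S_E4 := p_E4 a_TL

theorem a_EUL : S_EUL := p_EUL

theorem a_PRS : S_PRS := p_PRS a_MER

theorem a_SMO : S_SMO := p_SMO

theorem a_TAU1 : S_TAU1 := p_TAU1 a_ODS a_PRS a_SMO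

theorem a_TAU2 : S_TAU2 := p_TAU2 a_ODS a_SMO

theorem a_DYS : S_DYS := p_DYS

theorem a_TAU : S_TAU := p_TAU a_EUL a_TAU1 a_TAU2 a_DYS

theorem a_MSUM : S_MSUM := p_MSUM a_EUL a_MER

theorem a_ORD : S_ORD := p_ORD

theorem a_GQ : S_GQ := p_GQ a_ORD

theorem a_OFF : S_OFF := p_OFF

theorem a_SHF : S_SHF := p_SHF

theorem a_TT : S_TT := p_TT a_CQ a_MSUM a_GQ a_OFF a_SHF

theorem a_E5 : S_E5 := p_E5 a_CQ a_BW a_OM a_TT a_SHF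

theorem a_REP : S_REP := p_REP

theorem a_SV3 : S_SV3 := p_SV3 a_SV

theorem a_COR : S_COR := p_COR Pool.Agent.P.E2.a_RNG Pool.Agent.P.E2.a_PH a_BW a_SV3

theorem a_H40 : S_H40 := p_H40

theorem a_ROM0 : S_ROM0 := p_ROM0 a_ODS a_EUL a_PRS a_DYS

theorem a_SGM : S_SGM := p_SGM

theorem a_ROM : S_ROM := p_ROM a_MER a_ORD a_ROM0 a_SGM

theorem a_E1A : S_E1A := p_E1A

theorem a_E1 : S_E1 := p_E1 a_SHF a_COR a_H40 a_ROM a_E1A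

theorem a_PSV : S_PSV := p_PSV

theorem a_APX0 : S_APX0 := p_APX0 Pool.Agent.P.E2.a_AP1 Pool.Agent.P.E2.a_AP2

theorem a_LB0 : S_LB0 := p_LB0 a_APX0

theorem a_REAL : S_REAL := p_REAL a_APX0

theorem a_ZNG : S_ZNG := p_ZNG

theorem a_SG5 : S_SG5 := p_SG5

theorem a_SG0 : S_SG0 := p_SG0

theorem a_SG1 : S_SG1 := p_SG1 a_SG0

theorem a_SG3 : S_SG3 := p_SG3

theorem a_SG4 : S_SG4 := p_SG4 Pool.Agent.P.E2.a_ZL2 a_REAL a_SG3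

theorem a_SG6 : S_SG6 := p_SG6 a_LB0 a_SG1 a_SG4

theorem a_SIE : S_SIE := p_SIE a_REAL a_ZNG a_SG5 a_SG6

theorem a_L1D : S_L1D := p_L1D a_LB0 a_SIE

theorem a_PR0 : S_PR0 := p_PR0

theorem a_ZFL : S_ZFL :=
  p_ZFL Pool.Agent.P.E2.a_LAN Pool.Agent.P.E2.a_ZL1 Pool.Agent.P.E2.a_ZL2 Pool.Agent.P.E2.a_T341
    a_LB0 a_L1D a_PR0

theorem a_LDL : S_LDL :=
  p_LDL Pool.Agent.P.E2.a_BC Pool.Agent.P.E2.a_ZL1 Pool.Agent.P.E2.a_ZL2 a_LB0 a_ZFL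

theorem a_P0U : S_P0U :=
  p_P0U Pool.Agent.P.E2.a_ZL1 Pool.Agent.P.E2.a_ZL2 Pool.Agent.P.E2.a_LD Pool.Agent.P.E2.a_MEL
    Pool.Agent.P.E2.a_CSN a_LDL

theorem a_C1U : S_C1U :=
  p_C1U Pool.Agent.P.E2.a_TAIL Pool.Agent.P.E2.a_RNG Pool.Agent.P.E2.a_PH Pool.Agent.P.E2.a_PW
    Pool.Agent.P.E2.a_MS a_LIP Pool.Agent.P.E2.a_WIN1

theorem a_LNG : S_LNG :=
  p_LNG Pool.Agent.P.E2.a_RNG Pool.Agent.P.E2.a_WIN1 Pool.Agent.P.E2.a_P0 a_BW a_P0U a_C1U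

theorem a_SPC : S_SPC := p_SPC Pool.Agent.P.E2.a_RS

theorem a_MVQ : S_MVQ := p_MVQ Pool.Agent.P.E2.a_PL a_PSV a_SPC

theorem a_DPQ : S_DPQ :=
  p_DPQ Pool.Agent.P.E2.a_RNG Pool.Agent.P.E2.a_PH Pool.Agent.P.E2.a_UM Pool.Agent.P.E2.a_PU
    Pool.Agent.P.E2.a_DPA a_PSV a_MVQ

theorem a_DLQ : S_DLQ := p_DLQ Pool.Agent.P.E2.a_RNG Pool.Agent.P.E2.a_PL a_BW a_PSV a_DPQ

theorem a_ARCS : S_ARCS := p_ARCS

theorem a_PARS : S_PARS := p_PARS Pool.Agent.P.E2.a_GAL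

theorem a_GL1 : S_GL1 := p_GL1

theorem a_A2M1 : S_A2M1 := p_A2M1 a_GL1

theorem a_CLS : S_CLS := p_CLS Pool.Agent.P.E2.a_RS

theorem a_CLM : S_CLM := p_CLM Pool.Agent.P.E2.a_CMP a_CLS

theorem a_A2M2 : S_A2M2 := p_A2M2 a_CLS a_CLM

theorem a_A2M3 : S_A2M3 := p_A2M3

theorem a_SCH : S_SCH := p_SCH

theorem a_A2M : S_A2M := p_A2M a_A2M1 a_A2M2 a_A2M3 a_SCH

theorem a_MOD : S_MOD := p_MOD a_BW a_OM a_CLM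

theorem a_ZCL : S_ZCL := p_ZCL Pool.Agent.P.E2.a_RNG a_BW a_MOD a_PSV

theorem a_ONE1 : S_ONE1 := p_ONE1 a_BW a_OM a_ARCS a_PARS a_A2M a_ZCL

theorem a_ONEQ : S_ONEQ := p_ONEQ a_PSV a_LNG a_DLQ a_ONE1

theorem a_RAM : S_RAM := p_RAM a_CQ

theorem a_TLQ : S_TLQ := p_TLQ a_RAM a_TL

theorem a_E3 : S_E3 := p_E3 a_ONEQ a_TLQ

theorem a_STR : S_STR := p_STR Pool.Agent.P.E2.a_CI1

theorem a_CHG : S_CHG := p_CHG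

theorem a_BIL : S_BIL := p_BIL Pool.Agent.P.E2.a_CI1 a_CHG

theorem a_E2 : S_E2 := p_E2 Pool.Agent.P.E2.a_RNG Pool.Agent.P.E2.a_PH a_BW a_BIL a_STR

theorem a_CIR : S_CIR := p_CIR

theorem a_LAW : S_LAW := p_LAW

theorem a_FE : S_FE := p_FE

theorem a_MOM : S_MOM := p_MOM a_FE

theorem a_AVG : S_AVG := p_AVG

theorem a_BST : S_BST := p_BST a_AVG

theorem a_BLK : S_BLK := p_BLK

theorem a_WIN : S_WIN := p_WIN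

theorem a_PICK : S_PICK := p_PICK a_BLK a_WIN

theorem a_FIB : S_FIB := p_FIB

theorem a_ONE : S_ONE := p_ONE a_MOM a_BST a_PICK a_FIB

theorem a_PD : S_PD := p_PD

theorem a_MMX : S_MMX := p_MMX a_BLK

theorem a_GOOD : S_GOOD := p_GOOD a_PD a_MMX

theorem a_MS0 : S_MS0 := p_MS0 a_FE a_PD

theorem a_MSN : S_MSN := p_MSN a_PD

theorem a_MSI : S_MSI := p_MSI a_PD

theorem a_MASS : S_MASS := p_MASS a_MS0 a_MSN a_MSI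

theorem a_INVC : S_INVC := p_INVC a_LAW a_ONE a_GOOD a_MASS

theorem a_PAR : S_PAR := p_PAR

theorem a_INV : S_INV := p_INV a_INVC a_PAR

theorem a_SEL : S_SEL := p_SEL Pool.Agent.P.E2.a_RHO a_SHF a_INV

theorem a_NUM : S_NUM := p_NUM

theorem a_MAINC : S_MAINC :=
  p_MAINC Pool.Agent.P.E2.a_RNG a_BW a_E4 a_TAU a_E5 a_REP a_SHF a_E1 a_E3 a_STR a_E2 a_CIR a_SEL
    a_NUM

theorem a_DYA : S_DYA := p_DYA a_LOC a_MAINC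

theorem a_FIN : S_FIN := p_FIN a_DYA

end Pool.Agent.P.MP_42fc1a_nt.EK
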