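import Pool.Agent.P.MP_e94e4b_nt.E2.IfC

/-! Definitions for the theorem on products of two primes plus boundedly many powers of two. -/

namespace Pool.Agent.P.MP_42fc1a_nt.EK

open Finset Real Filter Topology MeasureTheory
open Pool.Agent.P.MP_e86632_nt (ee nn)
open Pool.Agent.P.MP_8be758_nt.Avg (gs red ft nsq)
open Pool.Agent.P.E2
open scoped Classical

noncomputable section

/-! ### Sums over powers of two -/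

/-- twisted sum over a set of exponents -/
def Gw (M : ℕ) (ω : ℕ → ℂ) (S : Finset ℕ) (x : ℝ) : ℂ := ∑ s ∈ S, ω s * ee (2 ^ (M * s) * x)

/-- normalised sum over the exponents `1, ..., J` -/
def Gn (M J : ℕ) (x : ℝ) : ℂ := Gw M (fun _ => 1) (Icc 1 J) x / J

/-- coefficients of size at most one -/
def Uni (ω : ℕ → ℂ) : Prop := ∀ s, ‖ω s‖ ≤ 1

/-- block number `k` of size `b` -/
def Bl (b k : ℕ) : Finset ℕ := Ioc (k * b) ((k + 1) * b)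

/-- product of the normalised block energies -/
def FF (M b : ℕ) (ω : ℕ → ℂ) (R : Finset ℕ) (x : ℝ) : ℝ :=
  ∏ k ∈ R, (‖Gw M ω (Bl b k) x‖ / b) ^ 2

/-- a sub-probability on `H` with atoms at most `e` -/
structure Sub (e : ℝ) (H : Finset ℤ) (ϱ : ℤ → ℝ) : Prop where
  pos : ∀ h, 0 ≤ ϱ h
  atom : ∀ h, ϱ h ≤ e
  tot : ∑ h ∈ H, ϱ h ≤ 1

/-- the law of the frequencies of `FF` -/
structure Law (M b : ℕ) (R : Finset ℕ) (i Y : ℕ) (e : ℝ) (H : Finset ℤ) (ϱ : ℤ → ℝ) : Prop where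
  sub : Sub e H ϱ
  sup : ∀ h ∈ H, ∃ y : ℤ, h = 2 ^ i * y ∧ 2 * |y| < Y
  exp : ∀ ω, Uni ω → ∃ c : ℤ → ℂ, (∀ h, ‖c h‖ ≤ ϱ h) ∧
    ∀ x, (FF M b ω R x : ℂ) = ∑ h ∈ H, c h * ee (h * x)

/-- normalised Fejer kernel -/
def fe (N : ℕ) (θ : ℝ) : ℝ := ‖∑ v ∈ range N, ee (v * θ)‖ ^ 2 / (N : ℝ) ^ 2

/-- the primes in `(P, 2 P]` -/
def Pn (P : ℕ) : Finset ℕ := (Ioc P (2 * P)).filter Nat.Prime

/-- weighted mass of the frequencies divisible by `p` -/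
def ms (P p g : ℕ) (α : ℝ) (H1 : Finset ℤ) (ϱ1 : ℤ → ℝ) (H2 : Finset ℤ) (ϱ2 : ℤ → ℝ) : ℝ :=
  ∑ x ∈ (H1 ×ˢ H2).filter (fun x => (p : ℤ) ∣ x.1 + x.2), ϱ1 x.1 * ϱ2 x.2 *
    (fe (4 * P) ((((x.1 + x.2) / p : ℤ) : ℝ) * α) *
      fe (4 * P) (g * ((((x.1 + x.2) / p : ℤ) : ℝ) * α)))

/-- the resonant frequencies -/
def Ev (P p g : ℕ) (Δ α : ℝ) (H : ℤ) : Prop :=
  (p : ℤ) ∣ H ∧ H ≠ 0 ∧ nn (((H / p : ℤ) : ℝ) * α) ≤ Δ / P ∧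
    nn (g * (((H / p : ℤ) : ℝ) * α)) ≤ Δ / P

/-- total mass of the resonant frequencies -/
def core (P g : ℕ) (Δ α : ℝ) (H1 : Finset ℤ) (ϱ1 : ℤ → ℝ) (H2 : Finset ℤ) (ϱ2 : ℤ → ℝ) : ℝ :=
  ∑ p ∈ Pn P, ∑ x ∈ (H1 ×ˢ H2).filter (fun x => Ev P p g Δ α (x.1 + x.2)), ϱ1 x.1 * ϱ2 x.2

/-- number of biased preimages of `β` under multiplication by `p` -/
def nb (M J : ℕ) (lam : ℝ) (p : ℕ) (β : ℝ) : ℕ :=
  ((range p).filter fun j : ℕ => lam ≤ ‖Gn M J ((β + j) / p)‖).card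

/-- the structured arcs -/
def Str (W Q0 w : ℕ) (P : ℝ) : Set ℝ :=
  {α | ∃ i ≤ w, ∃ q, 1 ≤ q ∧ q ≤ Q0 ∧ nn (((W * q * 2 ^ i : ℕ) : ℝ) * α) ≤ W * q / P ^ 3}

/-- the size conditions of the inverse lemma; `J = b0 * b1 * u` -/
structure Par (lam μ B : ℝ) (M b0 b1 u n0 n1 G0 G1 P K : ℕ) : Prop where
  l0 : 0 < lam
  l1 : lam ≤ 1
  hμ : μ = lam ^ 2 / 16
  m2 : 2 ≤ M
  hb0 : 1 ≤ b0
  hb1 : 1 ≤ b1
  hn0 : 1 ≤ n0
  hn1 : n0 ≤ n1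
  p2 : 2 ≤ P
  g1 : 1 ≤ G1
  g01 : 16 * (G0 : ℝ) ≤ lam ^ 2 * G1
  gJ : 16 * (G1 : ℝ) ≤ lam ^ 2 * (b0 * b1 * u : ℕ)
  win : (n1 : ℝ) < μ / 2 * (b1 * u : ℕ)
  wrap : 2 * 2 ^ (M * G1) * 4 ^ n0 < P
  prec : 4 * 4 ^ n0 * 2 ^ (M * b0 * n1) ≤ 2 ^ (M * G0)
  yP : 2 ^ (M * b0 * n1) ≤ P
  dP : 4 ^ n1 ≤ P
  big : 2 ^ (M * (b0 * b1 * u) + M + 1) * (1 + 2 * 2 ^ (M * b0 * n0) * 4 ^ n1) ≤ P ^ K
  bN : 2 ^ n0 / μ ^ (2 * ⌈μ / 2 * n0⌉₊) *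
    (2 * P * (1 / (b0 * b1 : ℕ) : ℝ) ^ ⌈μ * u⌉₊ + K / (4 ^ n0) ^ 2 +
      K * (1 / (b0 : ℝ)) ^ ⌈μ / 2 * n0⌉₊) ≤ B
  bI : 2 ^ n1 / μ ^ (2 * ⌈μ / 2 * n1⌉₊) *
    (2 * P * (1 / (b0 * b1 : ℕ) : ℝ) ^ ⌈μ * u⌉₊ + K / (4 ^ n1) ^ 2 +
      ((4 * 2 ^ (M * b0 * n0) * 4 ^ n1 + 3) * K * (1 / (b0 : ℝ)) ^ ⌈μ / 2 * n1⌉₊ +
        K * (4 * (P : ℝ) ^ 4 + 1) * (1 / (b0 * b1 : ℕ) : ℝ) ^ ⌈μ * u⌉₊)) ≤ B

/-! ### The weights -/

/-- the range of the products -/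
def II (r : ℝ) : Finset ℕ := Ioc ⌊XX r / 60⌋₊ ⌊110 * XX r⌋₊

/-- the weight on products of a small prime from `T` and a large prime -/
def bw (r P : ℝ) (T : Finset ℕ) (m : ℕ) : ℝ :=
  ∑ p ∈ T.filter (fun p => p ∣ m ∧ m / p ∈ RN r P), th (m / p) * ph r P (m / p)

/-- sum of the reciprocals -/
def rh (T : Finset ℕ) : ℝ := ∑ p ∈ T, 1 / (p : ℝ)

/-- the smooth cut-off as a function of the logarithm -/
def wn (r P x : ℝ) : ℝ :=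
  win (1 / r ^ 13) (r ^ 13 - Real.log P - 3) (r ^ 13 - Real.log P + 3) x

/-- the density of the weight as a function of the logarithm -/
def om (r P : ℝ) (T : Finset ℕ) (v : ℝ) : ℝ := ∑ p ∈ T, wn r P (v - Real.log p) / p

/-- normalised indicator of the integers coprime to `n` -/
def Lm (n m : ℕ) : ℝ := if m.Coprime n then (n : ℝ) / n.totient else 0

/-- Ramanujan sum -/
def cq (q m : ℕ) : ℂ := ∑ a ∈ red q, ee (m * ((a : ℝ) / q))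

/-- the moduli of the model -/
def QS (W Q0 : ℕ) : Finset ℕ := (Icc 1 Q0).filter fun q => q.Coprime W

/-- the part of the model that comes from the moduli in `D` -/
def bd (r P : ℝ) (T : Finset ℕ) (W : ℕ) (D : Finset ℕ) (m : ℕ) : ℂ :=
  ((om r P T (Real.log m) * Lm W m : ℝ) : ℂ) * ∑ d ∈ D, (mf d : ℂ) * cq d m

/-- length of the long window of exponents -/
def LL (r : ℝ) (M : ℕ) : ℕ := ⌊r ^ 13 / (2 * M)⌋₊

/-- the modulus -/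
def WW (M : ℕ) : ℕ := 2 * (2 ^ M - 1)

/-- order of `2 ^ M` modulo `q` -/
def oo (M q : ℕ) : ℕ := orderOf ((2 : ZMod q) ^ M)

/-- standing conditions on the small primes -/
structure Pr (r P : ℝ) (T : Finset ℕ) : Prop where
  p1 : r ^ 300 ≤ P
  p2 : P ≤ Real.exp r
  sub : T ⊆ PP P
  rho : 1 / (8 * r) ≤ rh T

/-- the tail of the singular series is at most `η` -/
def Tau (M : ℕ) (η : ℝ) : Prop :=
  ∀ D : Finset ℕ, (∀ q ∈ D, 1 < q ∧ q.Coprime (WW M)) → ∑ q ∈ D, mf q ^ 2 * q / oo M q ≤ η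

/-- the averaged number of representations -/
def av (M L J σ : ℕ) (A : Finset ℕ) (f : ℕ → ℂ) : ℂ :=
  (∑ n ∈ A, ∑ a ∈ Icc 1 L, ∑ a' ∈ Icc 1 L, ∑ s ∈ Icc 1 J,
    f (n - (σ + 2 ^ (M * a) + 2 ^ (M * a') + 2 ^ (M * s)))) / ((L : ℂ) ^ 2 * J)

/-- the test function of the circle method -/
def ps (M L J σ : ℕ) (A : Finset ℕ) (α : ℝ) : ℂ :=
  (starRingEnd ℂ) (ft A (fun _ => 1) α) * ee (σ * α) * Gn M L α ^ 2 * Gn M J α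

/-- correlation of the weight -/
def cor (r P : ℝ) (T : Finset ℕ) (h : ℤ) : ℝ :=
  ∑ m ∈ II r, ∑ m' ∈ II r, if (m' : ℤ) - m = h then bw r P T m * bw r P T m' else 0

/-- a signed sum of four powers -/
def h4 (M a b c d : ℕ) : ℤ := 2 ^ (M * a) + 2 ^ (M * b) - 2 ^ (M * c) - 2 ^ (M * d)

/-- one residue class of the range -/
def Ic (r : ℝ) (q c : ℕ) : Finset ℕ := (II r).filter fun m => m ≡ c [MOD q]

/-- multiplicative window in a residue class -/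
def Zc (r θ : ℝ) (β : ℕ → ℂ) (q c : ℕ) (v : ℝ) : ℂ :=
  ∑ m ∈ Ic r q c, β m * (gk θ (Real.log m - v) : ℂ)

/-- multiplicative window of the twisted weight -/
def Zx (r P : ℝ) (T : Finset ℕ) (θ : ℝ) (F : ℕ → ℂ) (v : ℝ) : ℂ :=
  ∑ m ∈ II r, (bw r P T m : ℂ) * F m * (gk θ (Real.log m - v) : ℂ)

/-- the product of three L-functions in the theorem of Siegel -/
def L3 {q1 q : ℕ} [NeZero q1] [NeZero q] (χ1 : DirichletCharacter ℂ q1)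
    (χ : DirichletCharacter ℂ q) (ψ : DirichletCharacter ℂ (q1 * q)) (s : ℂ) : ℂ :=
  DirichletCharacter.LFunction χ1 s * DirichletCharacter.LFunction χ s *
    DirichletCharacter.LFunction ψ s

/-- the property in the theorem -/
def Rep (k A n : ℕ) : Prop :=
  ∃ (p₁ p₂ : ℕ) (pows : Multiset ℕ), p₁.Prime ∧ p₂.Prime ∧ pows.card ≤ k ∧
    (p₁ : ℝ) ≤ Real.log n ^ A ∧ n = p₁ * p₂ + (pows.map (2 ^ ·)).sum

end

end Pool.Agent.P.MP_42fc1a_nt.EK
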