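import Pool.Agent.P.MP_42fc1a_nt.EK.Defs

/-! Statements, part A: the inverse lemma. -/

namespace Pool.Agent.P.MP_42fc1a_nt.EK

open Finset Real Filter Topology MeasureTheory
open Pool.Agent.P.MP_e86632_nt (ee nn)
open Pool.Agent.P.MP_8be758_nt.Avg (gs red ft nsq)
open Pool.Agent.P.E2
open scoped Classical

-- deps:
def S_LAW : Prop := ∀ (M b lo n : ℕ) (R : Finset ℕ), 2 ≤ M → 1 ≤ b → R ⊆ Ico lo (lo + n) →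
  ∃ H ϱ, Law M b R (M * (b * lo + 1)) (2 ^ (M * b * n)) ((1 / (b : ℝ)) ^ R.card) H ϱ

-- deps:
def S_FE : Prop :=
  (∀ (N : ℕ) (θ : ℝ), 1 ≤ N → 0 ≤ fe N θ ∧ fe N θ ≤ 1 ∧
    (0 < nn θ → fe N θ ≤ 1 / (2 * N * nn θ) ^ 2)) ∧
  ∀ (P : ℕ) (F : ℤ → ℝ), 1 ≤ P → (∀ v, 0 ≤ F v) →
    ∑ v ∈ Ioc P (2 * P), F v ≤
      (∑ v1 ∈ range (4 * P), ∑ v2 ∈ range (4 * P), F ((v1 : ℤ) - v2)) / (2 * P)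

-- deps: FE
def S_MOM : Prop := ∀ (ι : Type) (K : Finset ι) (Hh : ι → ℤ) (c : ι → ℂ) (wt : ι → ℝ) (F : ℝ → ℝ)
  (P p g : ℕ) (α : ℝ), 1 ≤ P → 1 ≤ p → (∀ z, 0 ≤ F z) → (∀ κ ∈ K, ‖c κ‖ ≤ wt κ) →
  (∀ z, (F z : ℂ) = ∑ κ ∈ K, c κ * ee (Hh κ * z)) →
  ∑ v ∈ Ioc P (2 * P), ∑ v' ∈ Ioc P (2 * P), ∑ j ∈ range p,
      F ((((v : ℝ) + g * v') * α + j) / p) ≤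
    64 * (P : ℝ) ^ 2 * p * ∑ κ ∈ K.filter (fun κ => (p : ℤ) ∣ Hh κ), wt κ *
      (fe (4 * P) (((Hh κ / p : ℤ) : ℝ) * α) * fe (4 * P) (g * (((Hh κ / p : ℤ) : ℝ) * α)))

-- deps:
def S_PD : Prop := ∀ (P K : ℕ) (V : ℤ), 2 ≤ P → V ≠ 0 → |V| ≤ (P : ℤ) ^ K →
  ((Pn P).filter fun p : ℕ => (p : ℤ) ∣ V).card ≤ K

-- deps: FE PD
def S_MS0 : Prop := ∀ (P K g : ℕ) (Δ α e1 e2 : ℝ) (H1 H2 : Finset ℤ) (ϱ1 ϱ2 : ℤ → ℝ), 2 ≤ P →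
  1 ≤ Δ → Sub e1 H1 ϱ1 → Sub e2 H2 ϱ2 → (∀ h ∈ H1, ∀ y ∈ H2, |h + y| ≤ (P : ℤ) ^ K) →
  ∑ p ∈ Pn P, ms P p g α H1 ϱ1 H2 ϱ2 ≤ 2 * P * e1 + K / Δ ^ 2 + core P g Δ α H1 ϱ1 H2 ϱ2

-- deps: PD
def S_MSN : Prop := ∀ (P K g i Y : ℕ) (Δ δ α e1 e2 : ℝ) (H1 H2 : Finset ℤ) (ϱ1 ϱ2 : ℤ → ℝ),
  2 ≤ P → 1 ≤ g → 1 ≤ Δ → Sub e1 H1 ϱ1 → Sub e2 H2 ϱ2 →
  (∀ h ∈ H1, ∀ y ∈ H2, |h + y| ≤ (P : ℤ) ^ K) →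
  (∀ y ∈ H2, ∃ y' : ℤ, y = 2 ^ i * y' ∧ 2 * |y'| < Y) →
  (∀ q : ℕ, 1 ≤ q → q ≤ Y → δ < nn (q * (2 ^ i * α))) → 2 * g * Δ < P → 4 * Δ ≤ δ * g →
  core P g Δ α H1 ϱ1 H2 ϱ2 ≤ K * e2

-- deps: PD
def S_MSI : Prop := ∀ (P K g i Y q Q0 : ℕ) (A : ℤ) (Δ δ α e1 e2 : ℝ) (H1 H2 : Finset ℤ)
  (ϱ1 ϱ2 : ℤ → ℝ), 2 ≤ P → 1 ≤ Δ → Δ ≤ P → Sub e1 H1 ϱ1 → Sub e2 H2 ϱ2 →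
  (∀ h ∈ H1, ∀ y ∈ H2, |h + y| ≤ (P : ℤ) ^ K) →
  (∀ h ∈ H1, ((|h| : ℤ) : ℝ) + 2 ^ i * (1 + 2 * Q0 * Δ) ≤ (P : ℝ) ^ K) →
  (∀ y ∈ H2, ∃ y' : ℤ, y = 2 ^ i * y' ∧ 2 * |y'| < Y) → 1 ≤ Y → Y ≤ P →
  1 ≤ q → q ≤ Q0 → |q * (2 ^ i * α) - A| ≤ δ → Y * δ ≤ 1 →
  (∀ i1 ≤ i, ∀ A' : ℤ, 1 / (P : ℝ) ^ 3 < |2 ^ i1 * α - A' / q|) →
  core P g Δ α H1 ϱ1 H2 ϱ2 ≤ (4 * Q0 * Δ + 3) * K * e2 + K * (4 * (P : ℝ) ^ 4 + 1) * e1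

-- deps:
def S_AVG : Prop := ∀ (f : ℕ → ℝ) (J G0 G1 : ℕ) (lam : ℝ), (∀ s, 0 ≤ f s ∧ f s ≤ 1) → 0 < lam →
  lam ≤ 1 → 1 ≤ G1 → 16 * (G0 : ℝ) ≤ lam ^ 2 * G1 → 16 * (G1 : ℝ) ≤ lam ^ 2 * J →
  lam * J ≤ ∑ s ∈ Icc 1 J, f s →
  ∃ g, G0 ≤ g ∧ g ≤ G1 ∧ lam ^ 2 / 4 * J ≤ ∑ s ∈ Icc 1 J, f s * f (s + g)

-- deps: AVG
def S_BST : Prop := ∀ (ι : Type) (S : Finset ι) (x : ι → ℝ) (M J G0 G1 : ℕ) (lam : ℝ), 0 < lam →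
  lam ≤ 1 → 1 ≤ G1 → 16 * (G0 : ℝ) ≤ lam ^ 2 * G1 → 16 * (G1 : ℝ) ≤ lam ^ 2 * J →
  (∀ κ ∈ S, lam ≤ ‖Gn M J (x κ)‖) →
  ∃ g ω, G0 ≤ g ∧ g ≤ G1 ∧ Uni ω ∧ lam ^ 2 / 8 * (S.card : ℝ) ^ 2 ≤
    (((S ×ˢ S).filter fun y =>
      lam ^ 2 / 8 * J ≤ ‖Gw M ω (Icc 1 J) (x y.1 + 2 ^ (M * g) * x y.2)‖).card : ℝ)

-- deps:
def S_BLK : Prop := ∀ (M b T : ℕ) (ω : ℕ → ℂ) (z μ : ℝ), Uni ω → 1 ≤ b → 0 ≤ μ →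
  2 * μ * (b * T : ℕ) ≤ ‖Gw M ω (Icc 1 (b * T)) z‖ →
  μ * T ≤ (((range T).filter fun k => μ * b ≤ ‖Gw M ω (Bl b k) z‖).card : ℝ)

-- deps:
def S_WIN : Prop := ∀ (Bs : Finset ℕ) (len : ℕ → ℕ) (T Lx : ℕ) (c : ℝ), Bs ⊆ range T →
  (∀ i, 1 ≤ len i ∧ len i ≤ Lx) → 0 ≤ c → c * T + Lx < Bs.card →
  ∃ i, i + len i ≤ T ∧ c * len i ≤ ((Bs ∩ Ico i (i + len i)).card : ℝ)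

-- deps: BLK WIN
def S_PICK : Prop := ∀ (M b0 b1 u Lx : ℕ) (len : ℕ → ℕ) (ω : ℕ → ℂ) (z μ : ℝ), Uni ω → 1 ≤ b0 →
  1 ≤ b1 → 0 < μ → (∀ i, 1 ≤ len i ∧ len i ≤ Lx) → (Lx : ℝ) < μ / 2 * (b1 * u : ℕ) →
  2 * μ * (b0 * b1 * u : ℕ) ≤ ‖Gw M ω (Icc 1 (b0 * b1 * u)) z‖ →
  ∃ R ∈ powersetCard ⌈μ * u⌉₊ (range u), ∃ i, i + len i ≤ b1 * u ∧
    ∃ R0 ∈ powersetCard ⌈μ / 2 * len i⌉₊ (Ico i (i + len i)),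
      μ ^ (2 * ⌈μ * u⌉₊) * μ ^ (2 * ⌈μ / 2 * len i⌉₊) ≤ FF M (b0 * b1) ω R z * FF M b0 ω R0 z

-- deps: BLK
def S_MMX : Prop := ∀ (M b u p i Y : ℕ) (lam μ e β : ℝ) (H : Finset ℕ → Finset ℤ)
  (ϱ : Finset ℕ → ℤ → ℝ), 1 ≤ b → 1 ≤ u → 1 ≤ p → 0 < μ → 2 * μ ≤ lam →
  (∀ R ∈ powersetCard ⌈μ * u⌉₊ (range u), Law M b R i Y e (H R) (ϱ R)) →
  (nb M (b * u) lam p β : ℝ) ≤ p / μ ^ (2 * ⌈μ * u⌉₊) *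
    ∑ R ∈ powersetCard ⌈μ * u⌉₊ (range u), ∑ h ∈ (H R).filter (fun h => (p : ℤ) ∣ h), ϱ R h

-- deps:
def S_FIB : Prop := ∀ (T : Finset ℕ) (Jv : ℕ → Finset ℕ) (F : ℝ → ℝ) (P p g : ℕ) (m α : ℝ),
  1 ≤ p → 0 ≤ m → T ⊆ Ioc P (2 * P) → (∀ v ∈ T, Jv v ⊆ range p ∧ ((Jv v).card : ℝ) ≤ m) →
  (∀ z, 0 ≤ F z) → (∀ (z : ℝ) (k : ℤ), F (z + k) = F z) →
  ∑ v ∈ T, ∑ j ∈ Jv v, ∑ v' ∈ T, ∑ j' ∈ Jv v',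
      F ((v * α + j) / p + g * ((v' * α + j') / p)) ≤
    m * ∑ v ∈ Ioc P (2 * P), ∑ v' ∈ Ioc P (2 * P), ∑ j ∈ range p,
      F ((((v : ℝ) + g * v') * α + j) / p)

-- deps: MOM BST PICK FIB
def S_ONE : Prop := ∀ (lam μ B m α : ℝ) (M b0 b1 u n0 n1 G0 G1 P K p : ℕ) (T : Finset ℕ)
  (len : ℕ → ℕ) (H : Finset ℕ → Finset ℤ) (ϱ : Finset ℕ → ℤ → ℝ)
  (H0 : ℕ → Finset ℕ → Finset ℤ) (ϱ0 : ℕ → Finset ℕ → ℤ → ℝ),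
  Par lam μ B M b0 b1 u n0 n1 G0 G1 P K → T ⊆ Pn P → p ∈ Pn P →
  (∀ i, 1 ≤ len i ∧ len i ≤ n1) →
  (∀ R ∈ powersetCard ⌈μ * u⌉₊ (range u), ∃ i Y e, Law M (b0 * b1) R i Y e (H R) (ϱ R)) →
  (∀ i, ∀ R0 ∈ powersetCard ⌈μ / 2 * len i⌉₊ (Ico i (i + len i)),
    ∃ i' Y e, Law M b0 R0 i' Y e (H0 i R0) (ϱ0 i R0)) →
  (∀ β, (nb M (b0 * b1 * u) lam p β : ℝ) ≤ m) →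
  2 * μ * (∑ v ∈ T, (nb M (b0 * b1 * u) lam p (v * α) : ℝ)) ^ 2 ≤
    m * (128 * (P : ℝ) ^ 3) * ∑ g ∈ Icc G0 G1, ∑ R ∈ powersetCard ⌈μ * u⌉₊ (range u),
      ∑ i ∈ (range (b1 * u)).filter (fun i => i + len i ≤ b1 * u),
        ∑ R0 ∈ powersetCard ⌈μ / 2 * len i⌉₊ (Ico i (i + len i)),
          ms P p (2 ^ (M * g)) α (H R) (ϱ R) (H0 i R0) (ϱ0 i R0) /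
            (μ ^ (2 * ⌈μ * u⌉₊) * μ ^ (2 * ⌈μ / 2 * len i⌉₊))

-- deps: PD MMX
def S_GOOD : Prop := ∀ (lam μ B : ℝ) (M b0 b1 u n0 n1 G0 G1 P K : ℕ)
  (H : Finset ℕ → Finset ℤ) (ϱ : Finset ℕ → ℤ → ℝ), Par lam μ B M b0 b1 u n0 n1 G0 G1 P K →
  (∀ R ∈ powersetCard ⌈μ * u⌉₊ (range u), Law M (b0 * b1) R M (2 ^ (M * (b0 * b1) * u))
    ((1 / (b0 * b1 : ℕ) : ℝ) ^ ⌈μ * u⌉₊) (H R) (ϱ R)) →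
  ∃ T ⊆ Pn P, ((Pn P \ T).card : ℝ) ≤ K * P / 2 ^ u ∧ ∀ p ∈ T, ∀ β,
    (nb M (b0 * b1 * u) lam p β : ℝ) ≤ 2 * P / μ ^ (2 * ⌈μ * u⌉₊) *
      (2 ^ u * (1 / (b0 * b1 : ℕ) : ℝ) ^ ⌈μ * u⌉₊ + 4 ^ u / P)

-- deps: MS0 MSN MSI
def S_MASS : Prop := ∀ (lam μ B α : ℝ) (M b0 b1 u n0 n1 G0 G1 P K W : ℕ),
  Par lam μ B M b0 b1 u n0 n1 G0 G1 P K → 1 ≤ W →
  α ∉ Str W (2 ^ (M * b0 * n0)) (M * (b0 * b1 * u)) P →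
  ∃ len : ℕ → ℕ, (∀ i, 1 ≤ len i ∧ len i ≤ n1) ∧
    ∀ (g i : ℕ) (R R0 : Finset ℕ) (H H0 : Finset ℤ) (ϱ ϱ0 : ℤ → ℝ), G0 ≤ g → g ≤ G1 →
      i + len i ≤ b1 * u →
      Law M (b0 * b1) R M (2 ^ (M * (b0 * b1) * u)) ((1 / (b0 * b1 : ℕ) : ℝ) ^ ⌈μ * u⌉₊) H ϱ →
      Law M b0 R0 (M * (b0 * i + 1)) (2 ^ (M * b0 * len i))
        ((1 / (b0 : ℝ)) ^ ⌈μ / 2 * len i⌉₊) H0 ϱ0 →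
      2 ^ len i / μ ^ (2 * ⌈μ / 2 * len i⌉₊) *
        ∑ p ∈ Pn P, ms P p (2 ^ (M * g)) α H ϱ H0 ϱ0 ≤ B

-- deps: LAW ONE GOOD MASS
def S_INVC : Prop := ∀ (lam μ B : ℝ) (M b0 b1 u n0 n1 G0 G1 P K W : ℕ),
  Par lam μ B M b0 b1 u n0 n1 G0 G1 P K → 1 ≤ W →
  ∃ T ⊆ Pn P, ((Pn P \ T).card : ℝ) ≤ K * P / 2 ^ u ∧
    ∀ α, α ∉ Str W (2 ^ (M * b0 * n0)) (M * (b0 * b1 * u)) P →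
      (∑ v ∈ T, ∑ p ∈ T, (nb M (b0 * b1 * u) lam p (v * α) : ℝ)) ^ 2 ≤
        64 * (P : ℝ) ^ 4 / μ * (2 * P / μ ^ (2 * ⌈μ * u⌉₊) *
          (2 ^ u * (1 / (b0 * b1 : ℕ) : ℝ) ^ ⌈μ * u⌉₊ + 4 ^ u / P)) *
          ((G1 + 1) * (2 ^ u / μ ^ (2 * ⌈μ * u⌉₊)) * (b1 * u : ℕ) * B)

-- deps:
def S_PAR : Prop := ∀ (M : ℕ) (lam : ℝ), 2 ≤ M → 0 < lam → lam ≤ 1 →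
  ∃ b0 D0 : ℕ, ∀ D : ℕ, D0 ≤ D → ∃ b1 K g0 g1 : ℕ, ∃ C : ℝ, ∀ u : ℕ, 1 ≤ u →
    Par lam (lam ^ 2 / 16) (C / 2 ^ (20 * u)) M b0 b1 u (10 * u) (10 * M * b0 * u) (g0 * u) (g1 * u)
      (2 ^ (D * u)) K ∧
    (2 : ℝ) ^ (D * u) * (1 / (b0 * b1 : ℕ) : ℝ) ^ ⌈lam ^ 2 / 16 * u⌉₊ ≤ 1

-- deps: INVC PAR
def S_INV : Prop := ∀ (M W : ℕ) (lam : ℝ), 2 ≤ M → 1 ≤ W → 0 < lam → lam ≤ 1 →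
  ∃ cQ D0 : ℕ, ∀ D : ℕ, D0 ≤ D → ∃ b K : ℕ, 1 ≤ b ∧ ∀ᶠ u : ℕ in atTop,
    ∃ T ⊆ Pn (2 ^ (D * u)), ((Pn (2 ^ (D * u)) \ T).card : ℝ) ≤ K * 2 ^ (D * u) / 2 ^ u ∧
      ∀ α, α ∉ Str W (2 ^ (cQ * u)) (M * (b * u)) (2 ^ (D * u)) →
        ∑ v ∈ T, ∑ p ∈ T, (nb M (b * u) lam p (v * α) : ℝ) ≤ (2 ^ (D * u)) ^ 2 / 2 ^ (5 * u)

end Pool.Agent.P.MP_42fc1a_nt.EK
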