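import Pool.Agent.P.MP_42fc1a_nt.EK.IfaceC

/-! Statements, part E: the assembly. -/

namespace Pool.Agent.P.MP_42fc1a_nt.EK

open Finset Real Filter Topology MeasureTheory
open Pool.Agent.P.MP_e86632_nt (ee nn)
open Pool.Agent.P.MP_8be758_nt.Avg (gs red ft nsq)
open Pool.Agent.P.MP_e94e4b_nt.PF (sgm)
open Pool.Agent.P.E2
open ArithmeticFunction (vonMangoldt moebius)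
open DirichletCharacter (LFunction)
open scoped Classical

-- deps: CI1
def S_STR : Prop :=
  (∀ (W Q0 w : ℕ) (P : ℝ), MeasurableSet (Str W Q0 w P) ∧
    ∀ x, x + 1 ∈ Str W Q0 w P ↔ x ∈ Str W Q0 w P) ∧
  (∀ M J : ℕ, Continuous (Gn M J) ∧ (∀ x, ‖Gn M J x‖ ≤ 1) ∧ ∀ x, Gn M J (x + 1) = Gn M J x) ∧
  ∀ (M L J σ : ℕ) (A : Finset ℕ), Continuous (ps M L J σ A) ∧
    (∀ x, ‖ps M L J σ A x‖ = ‖ft A (fun _ => 1) x‖ * ‖Gn M L x‖ ^ 2 * ‖Gn M J x‖) ∧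
    (∀ x, ‖ps M L J σ A x‖ ≤ A.card) ∧
    ∫ x in (0 : ℝ)..1, ‖ft A (fun _ => 1) x‖ ^ 2 = A.card ∧
    ∫ x in (0 : ℝ)..1, ‖ps M L J σ A x‖ ^ 2 ≤ A.card

-- deps: RNG PH BW BIL STR
def S_E2 : Prop := ∀ᶠ r : ℝ in atTop, ∀ (P lam : ℝ) (T A : Finset ℕ) (M L J σ W Q0 w : ℕ),
  Pr r P T →
  (∀ α, α ∉ Str W Q0 w P → ∑ v ∈ T, ∑ p ∈ T, (nb M J lam p (v * α) : ℝ) ≤ P ^ 2 / r ^ 35) →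
  ‖∫ x in (0 : ℝ)..1, ({x | lam ≤ ‖Gn M J x‖} \ Str W Q0 w P).indicator (ps M L J σ A) x *
      ft (II r) (fun m => (bw r P T m : ℂ)) x‖ ^ 2 ≤ A.card * (XX r / r ^ 4)

-- deps:
def S_CIR : Prop := ∀ (ψ S S' : ℝ → ℂ) (f g h : ℝ → ℝ) (R : Set ℝ) (lam N e1 e3 e4 : ℝ),
  Continuous ψ → Continuous S → Continuous S' → Continuous f → Continuous g → Continuous h →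
  MeasurableSet R →
  (∀ x, 0 ≤ f x ∧ 0 ≤ g x ∧ g x ≤ 1 ∧ 0 ≤ h x ∧ h x ≤ 1 ∧ ‖ψ x‖ ≤ f x * g x * h x) →
  0 ≤ lam → 0 ≤ e4 → ∫ x in (0 : ℝ)..1, f x ^ 2 ≤ N →
  ∫ x in (0 : ℝ)..1, ‖S x‖ ^ 2 * g x ^ 2 ≤ e1 →
  ∫ x in Set.Icc (0 : ℝ) 1 ∩ R, ‖S x - S' x‖ ^ 2 ≤ e3 → (∀ x, x ∉ R → ‖S' x‖ ≤ e4) →
  ‖∫ x in (0 : ℝ)..1, ψ x * S' x‖ ≤ ‖∫ x in (0 : ℝ)..1, ψ x * S x‖ +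
    √N * (√e3 + lam * √e1 + e4) +
    ‖∫ x in (0 : ℝ)..1, ({x | lam ≤ h x} \ R).indicator ψ x * S x‖

-- deps: RHO SHF INV
def S_SEL : Prop := ∀ (M W b : ℕ) (lam α : ℝ), 2 ≤ M → 1 ≤ W → 0 < lam → lam ≤ 1 → 0 < α →
  ∃ A : ℕ, ∀ᶠ r : ℝ in atTop, ∃ (P : ℝ) (T : Finset ℕ) (J Q0 w : ℕ), Pr r P T ∧ r ^ b ≤ P ∧
    P ≤ r ^ A ∧ ((W : ℝ) * Q0) ^ 4 ≤ P ^ α ∧ ((W : ℝ) * Q0) ^ 2 ≤ P ∧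
    (W : ℝ) * Q0 * 2 ^ w ≤ r ^ A ∧ 1 ≤ Q0 ∧ 1 ≤ J ∧ J ≤ LL r M ∧
    ∀ x, x ∉ Str W Q0 w P → ∑ v ∈ T, ∑ p ∈ T, (nb M J lam p (v * x) : ℝ) ≤ P ^ 2 / r ^ 35

-- deps:
def S_NUM : Prop := ∀ (ε C W : ℝ), 0 < ε → 0 < C → 1 ≤ W → ∃ lam : ℝ, 0 < lam ∧ lam ≤ 1 ∧
  ∀ᶠ r : ℝ in atTop, ∀ N ρ : ℝ, ε * XX r / W < N → 1 / (8 * r) ≤ ρ →
    0 ≤ 9 / 10 * N - √(3 * (ε / 100) * N * XX r / W) ∧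
    √N * (√(XX r / r ^ 4) + lam * √(C * ρ ^ 2 * XX r) + Real.exp r) + √(N * (XX r / r ^ 4)) <
      ρ * (9 / 10 * N - √(3 * (ε / 100) * N * XX r / W))

-- deps: RNG BW E4 TAU E5 REP SHF E1 E3 STR E2 CIR SEL NUM
def S_MAINC : Prop := ∀ ε : ℝ, 0 < ε → ∃ M : ℕ, 2 ≤ M ∧ ∃ A : ℕ, ∀ σ : ℕ, ∀ᶠ r : ℝ in atTop,
  ∀ (n0 : ℕ) (S : Finset ℕ), IsCoprime ((n0 : ℤ) - σ - 3 * 2 ^ M) (WW M) →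
    (∀ n ∈ S, XX r < n ∧ (n : ℝ) ≤ 2 * XX r ∧ n ≡ n0 [MOD WW M] ∧
      ∀ p₁ p₂ a a' s : ℕ, p₁.Prime → p₂.Prime → (p₁ : ℝ) ≤ 2 * r ^ A →
        n ≠ p₁ * p₂ + (σ + 2 ^ a + 2 ^ a' + 2 ^ s)) →
    (S.card : ℝ) ≤ ε * XX r / WW M

-- deps: LOC MAINC
def S_DYA : Prop := ∃ k : ℕ, ∀ ε : ℝ, 0 < ε → ∃ A : ℕ, ∀ᶠ x : ℝ in atTop, ∀ S : Finset ℕ,
  (∀ n ∈ S, x < n ∧ (n : ℝ) ≤ 2 * x ∧ ¬ Rep k A n) → (S.card : ℝ) ≤ ε * x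

-- deps: DYA
def S_FIN : Prop := ∃ k : ℕ, ∀ ε : ℝ, 0 < ε → ∃ A X0 : ℕ, ∀ X : ℕ, X0 ≤ X →
  (((Icc 1 X).filter fun n => ¬ Rep k A n).card : ℝ) ≤ ε * X

end Pool.Agent.P.MP_42fc1a_nt.EK
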