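import Pool.Agent.P.MP_42fc1a_nt.EK.IfaceA

/-! Powers of the small constant. -/

namespace Pool.Agent.P.MP_42fc1a_nt.EK

open Real

theorem mu_pow {lam : ℝ} (h0 : 0 < lam) (h1 : lam ≤ 1) {k n : ℕ}
    (hk : (k : ℝ) ≤ lam ^ 2 / 16 / 2 * n + 1) :
    1 / (lam ^ 2 / 16) ^ (2 * k) ≤ 2 ^ n / (lam ^ 2 / 16) ^ 2 := by
  set μ := lam ^ 2 / 16 with hμ
  have m0 : 0 < μ := by positivity
  have y0 : 0 < lam / 4 := by positivity
  have l1 : -Real.log (lam / 4) ≤ 4 / lam := by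
    have := Real.log_le_sub_one_of_pos (inv_pos.2 y0)
    rw [Real.log_inv, inv_div] at this
    linarith
  have l2 : Real.log μ = 2 * Real.log (lam / 4) := by
    rw [show μ = (lam / 4) ^ 2 by rw [hμ]; ring, Real.log_pow]; norm_num
  have l3 : μ * -Real.log μ ≤ Real.log 2 := by
    have a1 : μ * -Real.log μ ≤ μ * (2 * (4 / lam)) := by gcongr; linarith
    have a2 : μ * (2 * (4 / lam)) = lam / 2 := by rw [hμ]; field_simp; ring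
    linarith [Real.log_two_gt_d9]
  have l4 : 0 ≤ -Real.log μ := by
    have : Real.log μ ≤ 0 := Real.log_nonpos m0.le (by rw [hμ]; nlinarith)
    linarith
  rw [div_le_div_iff₀ (by positivity) (by positivity), one_mul,
    ← Real.log_le_log_iff (by positivity) (by positivity), Real.log_mul (by positivity)
    (by positivity), Real.log_pow, Real.log_pow, Real.log_pow]
  have a3 := mul_le_mul_of_nonneg_right hk l4
  have a4 := mul_le_mul_of_nonneg_left l3 (Nat.cast_nonneg (α := ℝ) n)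
  push_cast
  nlinarith

theorem mu_ceil {lam : ℝ} (h0 : 0 < lam) (h1 : lam ≤ 1) (n : ℕ) :
    1 / (lam ^ 2 / 16) ^ (2 * ⌈lam ^ 2 / 16 / 2 * n⌉₊) ≤ 2 ^ n / (lam ^ 2 / 16) ^ 2 :=
  mu_pow h0 h1 (Nat.ceil_lt_add_one (by positivity)).le

theorem mu_ceil' {lam : ℝ} (h0 : 0 < lam) (h1 : lam ≤ 1) (n : ℕ) :
    1 / (lam ^ 2 / 16) ^ (2 * ⌈lam ^ 2 / 16 * n⌉₊) ≤ 4 ^ n / (lam ^ 2 / 16) ^ 2 := by
  have := mu_pow h0 h1 (k := ⌈lam ^ 2 / 16 * n⌉₊) (n := 2 * n)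
    ((Nat.ceil_lt_add_one (by positivity)).le.trans_eq (by push_cast; ring))
  rwa [pow_mul 2, show (2 : ℝ) ^ 2 = 4 by norm_num] at this

/-- atoms -/
theorem atom_le {x : ℝ} {b t E : ℕ} (hb : 2 ^ t ≤ b) (hE : (E : ℝ) ≤ t * x) :
    (1 / (b : ℝ)) ^ ⌈x⌉₊ ≤ 1 / 2 ^ E := by
  have h1 : E ≤ t * ⌈x⌉₊ := by
    have : (E : ℝ) ≤ t * (⌈x⌉₊ : ℝ) := hE.trans (by gcongr; exact Nat.le_ceil x)
    exact_mod_cast this
  have h2 : (2 : ℝ) ^ t ≤ b := by exact_mod_cast hb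
  calc (1 / (b : ℝ)) ^ ⌈x⌉₊ ≤ (1 / 2 ^ t) ^ ⌈x⌉₊ := by gcongr
    _ = 1 / 2 ^ (t * ⌈x⌉₊) := by rw [one_div_pow, pow_mul]
    _ ≤ 1 / 2 ^ E := by gcongr; norm_num

end Pool.Agent.P.MP_42fc1a_nt.EK
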