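import Pool.Agent.P.MP_42fc1a_nt.EK.IfaceC

/-! Step A2M2. -/

namespace Pool.Agent.P.MP_42fc1a_nt.EK

open Finset Real Filter Topology MeasureTheory
open Pool.Agent.P.MP_e86632_nt (ee nn ee_add norm_ee ee_neg ee_zero)
open Pool.Agent.P.MP_8be758_nt.Avg (gs red ft nsq gs_pos gs_le_one gs_neg gs_anti)
open Pool.Agent.P.MP_e94e4b_nt.PF (sgm)
open Pool.Agent.P.E2
open ArithmeticFunction (vonMangoldt moebius)
open DirichletCharacter (LFunction)
open scoped Classical

namespace A2M2x

theorem cg (a : ℝ) : Continuous (gk a) := by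
  unfold gk gs; fun_prop

theorem one {a : ℝ} (ha : 0 < a) (u : ℝ) {x y : ℝ} (h : x ≤ y) :
    ∫ v in x..y, Real.exp v * gk a (Real.exp v - u) ≤ 1 := by
  have := intervalIntegral.integral_comp_mul_deriv (a := x) (b := y) (f := Real.exp)
    (f' := Real.exp) (g := fun t => gk a (u - t)) (fun v _ => Real.hasDerivAt_exp v)
    Real.continuous_exp.continuousOn ((cg a).comp (by fun_prop))
  simp only [Function.comp, ← gk_neg a (u - Real.exp _), neg_sub, mul_comm (gk a _)] at this
  rw [this, intervalIntegral.integral_of_le (Real.exp_le_exp.2 h), ← gk_integral' ha u]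
  exact setIntegral_le_integral (gk_integrable' ha u) (.of_forall fun _ => gk_nonneg ha _)

end A2M2x

open A2M2x in
theorem p_A2M2 (hCLS : S_CLS) (hCLM : S_CLM) :
    S_A2M2 := by
  filter_upwards [hCLM] with r h θ a u q c hs ha
  have q0 : (0 : ℝ) < q := by exact_mod_cast hs.q1
  have a0 := q0.trans_le ha
  have t0 : 0 < θ := pos_of_mul_pos_left ((by positivity : 0 < 200 * (q : ℝ)).trans_le hs.qt)
    (Real.exp_pos _).le
  have le : r ^ 13 - 5 ≤ r ^ 13 + 5 := by linarith
  have c1 : ∀ m : ℕ, Continuous fun v => gk θ (Real.log m - v) * gk a (Real.exp v - u) := fun m =>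
    ((cg θ).comp (by fun_prop)).mul ((cg a).comp (by fun_prop))
  have h1 := (hCLS a u q c (Ic r q c) hs.q1 ha fun m hm => (mem_filter.1 hm).2).1
  have h2 : ∑ m ∈ Ic r q c, ∫ v in (r ^ 13 - 5)..(r ^ 13 + 5),
      gk θ (Real.log m - v) * gk a (Real.exp v - u) ≤ 10 / q := by
    rw [← intervalIntegral.integral_finsetSum fun m _ => (c1 m).intervalIntegrable _ _]
    refine (intervalIntegral.integral_mono_on (g := fun v => 10 / q *
      (Real.exp v * gk a (Real.exp v - u))) le
      ((continuous_finsetSum _ fun m _ => c1 m).intervalIntegrable _ _)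
      ((continuous_const.mul (Real.continuous_exp.mul
        ((cg a).comp (by fun_prop)))).intervalIntegrable _ _) fun v hv => ?_).trans ?_
    · rw [← sum_mul]
      refine (mul_le_mul_of_nonneg_right (h θ v q c hs (abs_le.2 ⟨by linarith [hv.1],
        by linarith [hv.2]⟩)).1 (gk_nonneg a0 _)).trans (le_of_eq (by ring))
    · rw [intervalIntegral.integral_const_mul]
      exact mul_le_of_le_one_right (by positivity) (one a0 u le)
  refine (sum_le_sum fun m _ => (abs_sub _ _).trans (add_le_add (abs_of_nonneg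
    (gk_nonneg a0 _)).le (abs_of_nonneg (intervalIntegral.integral_nonneg le fun v _ =>
      mul_nonneg (gk_nonneg t0 _) (gk_nonneg a0 _))).le)).trans ?_
  rw [sum_add_distrib]
  exact (add_le_add h1 h2).trans (le_of_eq (by ring))

end Pool.Agent.P.MP_42fc1a_nt.EK
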