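import Pool.Agent.P.MP_42fc1a_nt.EK.IfaceA

/-! Step BST. -/

namespace Pool.Agent.P.MP_42fc1a_nt.EK

open Finset Real Filter Topology MeasureTheory
open Pool.Agent.P.MP_e86632_nt (ee nn ee_add norm_ee ee_neg ee_zero)
open Pool.Agent.P.MP_8be758_nt.Avg (gs red ft nsq gs_pos gs_le_one gs_neg gs_anti)
open Pool.Agent.P.MP_e94e4b_nt.PF (sgm)
open Pool.Agent.P.E2
open ArithmeticFunction (vonMangoldt moebius)
open DirichletCharacter (LFunction)
open scoped Classical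

namespace BSTx

theorem norm_Gw {M J : ℕ} {ω : ℕ → ℂ} (h : Uni ω) (x : ℝ) : ‖Gw M ω (Icc 1 J) x‖ ≤ J := by
  refine (norm_sum_le _ _).trans ((sum_le_card_nsmul _ _ (1 : ℝ) fun s _ => ?_).trans ?_)
  · rw [norm_mul, norm_ee, mul_one]; exact h s
  · simp

theorem count {ι : Type} (T : Finset ι) (F : ι → ℝ) {a J : ℝ} (ha : 0 ≤ a) (hJ : 0 < J)
    (hF : ∀ y, F y ≤ J) (h : 2 * a * J * T.card ≤ ∑ y ∈ T, F y) :
    a * T.card ≤ ((T.filter fun y => a * J ≤ F y).card : ℝ) := by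
  have h1 : ∑ y ∈ T, F y ≤ ∑ y ∈ T, (a * J + if a * J ≤ F y then J else 0) :=
    sum_le_sum fun y _ => by
      have := mul_nonneg ha hJ.le
      split_ifs with e
      · linarith [hF y]
      · linarith [not_le.1 e]
  rw [sum_add_distrib, ← sum_filter, sum_const, sum_const, nsmul_eq_mul, nsmul_eq_mul] at h1
  refine le_of_mul_le_mul_right ?_ hJ
  linarith

end BSTx

theorem p_BST (hAVG : S_AVG) :
    S_BST := by
  intro ι S x M J G0 G1 lam l0 l1 g1 g01 gJ hS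
  have l2 : lam ^ 2 ≤ 1 := pow_le_one₀ l0.le l1
  have hG1 : (1 : ℝ) ≤ G1 := by exact_mod_cast g1
  have hJ : (0 : ℝ) < J := by
    by_contra hn
    have : (J : ℝ) = 0 := le_antisymm (not_lt.1 hn) (Nat.cast_nonneg _)
    rw [this] at gJ
    linarith
  rcases S.eq_empty_or_nonempty with rfl | hne
  · refine ⟨G0, fun _ => 0, le_rfl, ?_, fun _ => by simp, by simp⟩
    have : (G0 : ℝ) ≤ G1 := by nlinarith [(Nat.cast_nonneg G0 : (0 : ℝ) ≤ G0)]
    exact_mod_cast this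
  have hn : (0 : ℝ) < S.card := by exact_mod_cast hne.card_pos
  choose un hu1 hu2 using Complex.exists_norm_eq_mul_self
  set c : ι → ℂ := fun κ => un (Gw M (fun _ => 1) (Icc 1 J) (x κ)) with hc
  set A : ℕ → ℂ := fun s => ∑ κ ∈ S, c κ * ee (2 ^ (M * s) * x κ) with hA
  have hA1 : ∀ s, ‖A s‖ ≤ S.card := fun s => by
    refine (norm_sum_le _ _).trans ((sum_le_card_nsmul _ _ (1 : ℝ) fun κ _ => ?_).trans ?_)
    · rw [norm_mul, norm_ee, mul_one]; exact (hu1 _).le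
    · simp
  have hA2 : lam * J * S.card ≤ ∑ s ∈ Icc 1 J, ‖A s‖ := by
    refine le_trans ?_ (norm_sum_le _ _)
    have e : ∑ s ∈ Icc 1 J, A s =
        ((∑ κ ∈ S, ‖Gw M (fun _ => 1) (Icc 1 J) (x κ)‖ : ℝ) : ℂ) := by
      rw [sum_comm, Complex.ofReal_sum]
      refine sum_congr rfl fun κ _ => ?_
      rw [hu2, ← mul_sum]
      simp only [Gw, one_mul, hc]
    rw [e, Complex.norm_real, Real.norm_eq_abs]
    refine le_trans ?_ (le_abs_self _)
    rw [mul_comm, ← nsmul_eq_mul]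
    refine card_nsmul_le_sum _ _ _ fun κ hκ => ?_
    have := hS κ hκ
    rwa [Gn, norm_div, Complex.norm_natCast, le_div_iff₀ hJ] at this
  obtain ⟨g, h0, h1, h2⟩ := hAVG (fun s => ‖A s‖ / S.card) J G0 G1 lam
    (fun s => ⟨by positivity, (div_le_one hn).2 (hA1 s)⟩) l0 l1 g1 g01 gJ
    (by rwa [← sum_div, le_div_iff₀ hn])
  have hω : Uni fun s => un (A s * A (s + g)) := fun s => (hu1 _).le
  refine ⟨g, fun s => un (A s * A (s + g)), h0, h1, hω, ?_⟩
  have e : ((∑ s ∈ Icc 1 J, ‖A s * A (s + g)‖ : ℝ) : ℂ) = ∑ y ∈ S ×ˢ S, c y.1 * c y.2 *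
      Gw M (fun s => un (A s * A (s + g))) (Icc 1 J) (x y.1 + 2 ^ (M * g) * x y.2) := by
    simp only [Gw, mul_sum]
    rw [sum_comm, Complex.ofReal_sum]
    refine sum_congr rfl fun s _ => ?_
    rw [hu2]
    generalize un (A s * A (s + g)) = w
    simp only [hA]
    rw [sum_mul_sum, ← sum_product', mul_sum]
    refine sum_congr rfl fun y _ => ?_
    rw [mul_add (2 ^ (M * s) : ℝ), ee_add, mul_add M, pow_add, mul_assoc (2 ^ (M * s) : ℝ)]
    ring
  have h3 : ∑ s ∈ Icc 1 J, ‖A s * A (s + g)‖ ≤ ∑ y ∈ S ×ˢ S,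
      ‖Gw M (fun s => un (A s * A (s + g))) (Icc 1 J) (x y.1 + 2 ^ (M * g) * x y.2)‖ := by
    refine (le_abs_self _).trans ?_
    rw [← Real.norm_eq_abs, ← Complex.norm_real, e]
    refine (norm_sum_le _ _).trans (sum_le_sum fun y _ => ?_)
    rw [norm_mul, norm_mul, hu1, hu1, one_mul, one_mul]
  have h4 : lam ^ 2 / 4 * J * (S.card : ℝ) ^ 2 ≤ ∑ s ∈ Icc 1 J, ‖A s * A (s + g)‖ := by
    rw [← le_div_iff₀ (by positivity), sum_div]
    refine h2.trans (le_of_eq (sum_congr rfl fun s _ => ?_))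
    rw [norm_mul, div_mul_div_comm, pow_two]
  have h5 := BSTx.count (S ×ˢ S) _ (a := lam ^ 2 / 8) (by positivity) hJ
    (fun y : ι × ι => BSTx.norm_Gw (M := M) hω (x y.1 + 2 ^ (M * g) * x y.2))
    (by rw [card_product]; push_cast; linarith)
  rw [card_product] at h5
  push_cast at h5
  rw [pow_two (S.card : ℝ)]
  exact h5

end Pool.Agent.P.MP_42fc1a_nt.EK
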