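import Pool.Agent.P.MP_42fc1a_nt.EK.IfaceB

/-! Step BW. -/

namespace Pool.Agent.P.MP_42fc1a_nt.EK

open Finset Real Filter Topology MeasureTheory
open Pool.Agent.P.MP_e86632_nt (ee nn ee_add norm_ee ee_neg ee_zero)
open Pool.Agent.P.MP_8be758_nt.Avg (gs red ft nsq gs_pos gs_le_one gs_neg gs_anti)
open Pool.Agent.P.MP_e94e4b_nt.PF (sgm)
open Pool.Agent.P.E2
open ArithmeticFunction (vonMangoldt moebius)
open DirichletCharacter (LFunction)
open scoped Classical

namespace BWx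

lemma mem {r P : ℝ} (h : Rg r P) (a : 1 ≤ P) {p n : ℕ} (hp : p ∈ PP P) (hn : n ∈ RN r P) :
    p * n ∈ II r := by
  have x := XX_pos r
  refine mem_Ioc.2 ⟨(Nat.floor_lt (by positivity)).2 ?_, (mem_Icc.1 (h.mr p hp n hn)).2⟩
  have h1 : X2 r P / 55 < n := Nat.lt_of_floor_lt (mem_Ioc.1 hn).1
  rw [X2, div_div, div_lt_iff₀ (by positivity)] at h1
  have h2 := mul_le_mul_of_nonneg_right (h.pp p hp).2.1.le (Nat.cast_nonneg (α := ℝ) n)
  push_cast
  linarith

lemma bil {R : Type} [CommRing R] (φ : ℝ →+* R) {r P : ℝ} {T : Finset ℕ} (h : Rg r P) (a : 1 ≤ P)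
    (hT : T ⊆ PP P) (F : ℕ → R) : ∑ m ∈ II r, φ (bw r P T m) * F m =
      ∑ p ∈ T, ∑ n ∈ RN r P, φ (th n * ph r P n) * F (p * n) := by
  simp only [bw, map_sum, sum_mul]
  rw [sum_comm' (t' := T) (s' := fun p => (II r).filter fun m => p ∣ m ∧ m / p ∈ RN r P)
    (by simp only [mem_filter]; tauto)]
  refine sum_congr rfl fun p hp => ?_
  have p0 := (h.pp p (hT hp)).1.pos
  refine sum_nbij' (· / p) (p * ·) (fun m hm => (mem_filter.1 hm).2.2)
    (fun n hn => mem_filter.2 ⟨mem h a (hT hp) hn, dvd_mul_right _ _, by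
      rwa [Nat.mul_div_cancel_left _ p0]⟩)
    (fun m hm => Nat.mul_div_cancel' (mem_filter.1 hm).2.1) (fun n _ => Nat.mul_div_cancel_left _ p0)
    fun m hm => by rw [Nat.mul_div_cancel' (mem_filter.1 hm).2.1]

lemma cheb {r P : ℝ} (a : 1 ≤ P) : ∑ n ∈ RN r P, th n ≤ 100 * (XX r / P) := by
  have x : 0 < XX r / P := div_pos (XX_pos r) (by linarith)
  have h1 := Chebyshev.theta_le_log4_mul_x (x := 55 * X2 r P) (by rw [X2]; positivity)
  have h2 : Real.log 4 ≤ 1.4 := by
    rw [show (4 : ℝ) = 2 ^ 2 by norm_num, Real.log_pow]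
    have := Real.log_two_lt_d9
    push_cast
    linarith
  rw [Chebyshev.theta, sum_filter] at h1
  refine (sum_le_sum_of_subset_of_nonneg (Ioc_subset_Ioc_left (Nat.zero_le _))
    fun n _ _ => th_nonneg n).trans (le_trans h1 ?_)
  rw [X2]
  nlinarith

end BWx

theorem p_BW (hRNG : S_RNG) (hPH : S_PH) (hRHO : S_RHO) :
    S_BW := by
  filter_upwards [hRNG, hPH, hRHO, eventually_ge_atTop 1] with r h1 h2 h3 r1 P T c
  have a : 1 ≤ P := (one_le_pow₀ r1).trans c.p1
  have b := c.p2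
  have h := h1 P a b
  refine ⟨(sum_le_sum_of_subset_of_nonneg c.sub fun _ _ _ => by positivity).trans
      (h3 P c.p1 b).2,
    fun m => ⟨sum_nonneg fun p _ => mul_nonneg (th_nonneg _) (h2 P a b _).1, ?_⟩,
    fun m hm => ?_, BWx.bil Complex.ofRealHom h a c.sub, ?_⟩
  · rw [bw, ← sum_filter_ne_zero]
    refine (sum_le_card_nsmul _ _ (2 * r ^ 13) fun p hp => ?_).trans ?_
    · exact (mul_le_of_le_one_right (th_nonneg _) (h2 P a b _).2.1).trans ((th_le_log _).trans
        (h.rn _ (mem_filter.1 (mem_filter.1 hp).1).2.2).2.2)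
    · rw [nsmul_eq_mul]
      refine mul_le_of_le_one_left (by positivity) (Nat.cast_le_one.2 (card_le_one.2 ?_))
      simp only [mem_filter]
      rintro p ⟨⟨-, d, n⟩, z⟩ p' ⟨⟨c', d', -⟩, z'⟩
      have q := prime_of_th (left_ne_zero_of_mul z)
      have q' := prime_of_th (left_ne_zero_of_mul z')
      have e : p * (m / p) = p' * (m / p') := by rw [Nat.mul_div_cancel' d, Nat.mul_div_cancel' d']
      have w := h.pp p' (c.sub c')
      rcases q.dvd_mul.1 (e ▸ dvd_mul_left _ p) with k | k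
      · have : ((m / p : ℕ) : ℝ) ≤ p' := Nat.cast_le.2 (Nat.le_of_dvd w.1.pos k)
        linarith [(h.rn _ n).2.1, w.2.2]
      · rw [(Nat.prime_dvd_prime_iff_eq q q').1 k] at e
        exact Nat.eq_of_mul_eq_mul_right q'.pos e
  · obtain ⟨p, hp, z⟩ := exists_ne_zero_of_sum_ne_zero hm
    obtain ⟨c, d, n⟩ := mem_filter.1 hp
    exact ⟨p, c, _, n, prime_of_th (left_ne_zero_of_mul z), (Nat.mul_div_cancel' d).symm⟩
  · have e := BWx.bil (RingHom.id ℝ) h a c.sub fun _ => 1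
    simp only [RingHom.id_apply, mul_one] at e
    rw [e, rh, mul_assoc, sum_mul, mul_sum]
    refine sum_le_sum fun p hp => ((sum_le_sum fun n _ =>
      mul_le_of_le_one_right (th_nonneg _) (h2 P a b _).2.1).trans (BWx.cheb a)).trans ?_
    have w := h.pp p (c.sub hp)
    have := div_le_div_of_nonneg_left (XX_pos r).le (by linarith [w.2.1]) w.2.2
    rw [mul_comm 2, ← div_div] at this
    rw [one_div, inv_mul_eq_div]
    linarith

end Pool.Agent.P.MP_42fc1a_nt.EK
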