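import Pool.Agent.P.MP_42fc1a_nt.EK.IfaceB

/-! Step E1. -/

namespace Pool.Agent.P.MP_42fc1a_nt.EK

open Finset Real Filter Topology MeasureTheory
open Pool.Agent.P.MP_e86632_nt (ee nn ee_add norm_ee ee_neg ee_zero)
open Pool.Agent.P.MP_8be758_nt.Avg (gs red ft nsq gs_pos gs_le_one gs_neg gs_anti)
open Pool.Agent.P.MP_e94e4b_nt.PF (sgm)
open Pool.Agent.P.E2
open ArithmeticFunction (vonMangoldt moebius)
open DirichletCharacter (LFunction)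
open scoped Classical

namespace E1x

lemma tL (M : ℕ) (hM : 2 ≤ M) : Tendsto (fun r : ℝ => LL r M) atTop atTop := by
  unfold LL
  refine tendsto_nat_floor_atTop.comp ?_
  have h0 : (0 : ℝ) < 2 * M := by
    have : (2 : ℝ) ≤ M := by exact_mod_cast hM
    linarith
  exact (tendsto_pow_atTop (by norm_num : (13 : ℕ) ≠ 0)).atTop_div_const h0

lemma hb (M a b c d : ℕ) (X : ℝ) (hX : 4 ≤ X) (ha : ((2 ^ (M * a) : ℕ) : ℝ) ≤ √X)
    (hb : ((2 ^ (M * b) : ℕ) : ℝ) ≤ √X) (hc : ((2 ^ (M * c) : ℕ) : ℝ) ≤ √X)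
    (hd : ((2 ^ (M * d) : ℕ) : ℝ) ≤ √X) : ((|h4 M a b c d| : ℤ) : ℝ) ≤ X := by
  have h2 : 2 ≤ √X := Real.le_sqrt_of_sq_le (by linarith)
  have h3 : √X * √X = X := Real.mul_self_sqrt (by linarith)
  have h5 : 2 * √X ≤ X := by nlinarith
  unfold h4
  push_cast at ha hb hc hd ⊢
  have p1 : (0 : ℝ) < 2 ^ (M * a) := by positivity
  have p2 : (0 : ℝ) < 2 ^ (M * b) := by positivity
  have p3 : (0 : ℝ) < 2 ^ (M * c) := by positivity
  have p4 : (0 : ℝ) < 2 ^ (M * d) := by positivity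
  rw [abs_le]
  constructor <;> linarith

lemma fin (C1 C2 ρ X r L M S : ℝ) (hC1 : 0 < C1) (hr : 2 ≤ r) (hM : 2 ≤ M) (hX : 0 < X)
    (hL : r ^ 13 / (4 * M) ≤ L) (hρ : 1 / (8 * r) ≤ ρ)
    (hS : S ≤ 2 * L ^ 2 * (C1 * r ^ 13 * ρ * X) + C2 * L ^ 4 * (C1 * ρ ^ 2 * X)) :
    S / L ^ 4 ≤ (256 * C1 * M ^ 2 + C1 * C2) * ρ ^ 2 * X := by
  have hr0 : 0 < r := by linarith
  have hM0 : 0 < M := by linarith
  have h13 : 0 < r ^ 13 := by positivity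
  have hL0 : 0 < L := lt_of_lt_of_le (by positivity) hL
  have hρ0 : 0 < ρ := lt_of_lt_of_le (by positivity) hρ
  rw [div_le_iff₀ (by positivity)]
  have h1 : r ^ 13 ≤ 4 * M * L := by
    rw [div_le_iff₀ (by positivity)] at hL
    linarith
  have h2 : 1 ≤ 8 * r * ρ := by
    rw [div_le_iff₀ (by positivity)] at hρ
    linarith
  have h3 : r ≤ r ^ 13 := le_self_pow₀ (by linarith) (by norm_num)
  have h4 : 1 ≤ 8 * r ^ 13 * ρ := by nlinarith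
  have h5 : r ^ 13 * r ^ 13 ≤ (4 * M * L) * (4 * M * L) :=
    mul_le_mul h1 h1 h13.le (by positivity)
  have h6 : r ^ 13 ≤ 128 * M ^ 2 * L ^ 2 * ρ := by
    calc r ^ 13 = r ^ 13 * 1 := (mul_one _).symm
      _ ≤ r ^ 13 * (8 * r ^ 13 * ρ) := mul_le_mul_of_nonneg_left h4 h13.le
      _ = (r ^ 13 * r ^ 13) * (8 * ρ) := by ring
      _ ≤ ((4 * M * L) * (4 * M * L)) * (8 * ρ) :=
          mul_le_mul_of_nonneg_right h5 (by positivity)
      _ = 128 * M ^ 2 * L ^ 2 * ρ := by ring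
  have h7 : 2 * L ^ 2 * (C1 * r ^ 13 * ρ * X) ≤ 256 * C1 * M ^ 2 * ρ ^ 2 * X * L ^ 4 := by
    calc 2 * L ^ 2 * (C1 * r ^ 13 * ρ * X) = r ^ 13 * (2 * L ^ 2 * C1 * ρ * X) := by ring
      _ ≤ (128 * M ^ 2 * L ^ 2 * ρ) * (2 * L ^ 2 * C1 * ρ * X) :=
          mul_le_mul_of_nonneg_right h6 (by positivity)
      _ = _ := by ring
  calc S ≤ _ := hS
    _ ≤ 256 * C1 * M ^ 2 * ρ ^ 2 * X * L ^ 4 + C2 * L ^ 4 * (C1 * ρ ^ 2 * X) := by linarith
    _ = _ := by ring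

end E1x

theorem p_E1 (hSHF : S_SHF) (hCOR : S_COR) (hH40 : S_H40) (hROM : S_ROM) (hE1A : S_E1A) :
    S_E1 := by
  intro M hM
  obtain ⟨C1, hC1, h1⟩ := hCOR
  obtain ⟨C2, hC2, h2⟩ := hROM M hM
  have hM2 : (2 : ℝ) ≤ M := by exact_mod_cast hM
  refine ⟨256 * C1 * (M : ℝ) ^ 2 + C1 * C2, by positivity, ?_⟩
  filter_upwards [h1, (E1x.tL M hM).eventually h2, hSHF M 0 hM, eventually_ge_atTop (2 : ℝ)]
    with r hr1 hr2 hr3 hr4
  intro P T hPr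
  obtain ⟨hc0, hc1⟩ := hr1 P T hPr
  obtain ⟨hL, hs⟩ := hr3
  have hX4 : 4 ≤ XX r := by
    unfold XX
    have h3 : (2 : ℝ) ^ 13 ≤ r ^ 13 := pow_le_pow_left₀ (by norm_num) hr4 13
    have h5 := Real.add_one_le_exp (r ^ 13)
    norm_num at h3
    linarith
  have hn1 : XX r < (⌊2 * XX r⌋₊ : ℕ) := by
    have := Nat.lt_floor_add_one (2 * XX r)
    linarith
  have hn2 : ((⌊2 * XX r⌋₊ : ℕ) : ℝ) ≤ 2 * XX r := Nat.floor_le (by linarith)
  have hsq : ∀ a ∈ Icc 1 (LL r M), ((2 ^ (M * a) : ℕ) : ℝ) ≤ √(XX r) := by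
    intro a ha
    have ha2 := (mem_Icc.1 ha).2
    exact (hs _ a a a hn1 hn2 ha2 ha2 ha2).1
  have hρ := hPr.rho
  have hρ0 : 0 < rh T := lt_of_lt_of_le (by positivity) hρ
  rw [hE1A]
  refine E1x.fin C1 C2 (rh T) (XX r) r (LL r M) M _ hC1 hr4 hM2 (by linarith) hL hρ ?_
  have hA : 0 ≤ C1 * r ^ 13 * rh T * XX r := by positivity
  have hB : 0 ≤ C1 * rh T ^ 2 * XX r := by positivity
  calc _ ≤ ∑ a ∈ Icc 1 (LL r M), ∑ b ∈ Icc 1 (LL r M), ∑ c ∈ Icc 1 (LL r M),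
        ∑ d ∈ Icc 1 (LL r M),
        ((if h4 M a b c d = 0 then (1 : ℝ) else 0) * (C1 * r ^ 13 * rh T * XX r) +
          (if h4 M a b c d = 0 then 0 else sgm (h4 M a b c d).natAbs) *
            (C1 * rh T ^ 2 * XX r)) := by
        refine sum_le_sum fun a ha => sum_le_sum fun b hb => sum_le_sum fun c hc =>
          sum_le_sum fun d hd => ?_
        by_cases h0 : h4 M a b c d = 0
        · rw [if_pos h0, if_pos h0, h0]
          linarith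
        · rw [if_neg h0, if_neg h0]
          have := hc1 _ h0 (E1x.hb M a b c d _ hX4 (hsq a ha) (hsq b hb) (hsq c hc) (hsq d hd))
          linarith
    _ = (∑ a ∈ Icc 1 (LL r M), ∑ b ∈ Icc 1 (LL r M), ∑ c ∈ Icc 1 (LL r M),
          ∑ d ∈ Icc 1 (LL r M), (if h4 M a b c d = 0 then (1 : ℝ) else 0)) *
          (C1 * r ^ 13 * rh T * XX r) +
        (∑ a ∈ Icc 1 (LL r M), ∑ b ∈ Icc 1 (LL r M), ∑ c ∈ Icc 1 (LL r M),
          ∑ d ∈ Icc 1 (LL r M),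
            (if h4 M a b c d = 0 then 0 else sgm (h4 M a b c d).natAbs)) *
          (C1 * rh T ^ 2 * XX r) := by
        simp only [sum_add_distrib, sum_mul]
    _ ≤ _ := add_le_add (mul_le_mul_of_nonneg_right (hH40 M _ hM) hA)
        (mul_le_mul_of_nonneg_right hr2 hB)

end Pool.Agent.P.MP_42fc1a_nt.EK
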