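import Pool.Agent.P.MP_42fc1a_nt.EK.IfaceC

/-! Step E3. -/

namespace Pool.Agent.P.MP_42fc1a_nt.EK

open Finset Real Filter Topology MeasureTheory
open Pool.Agent.P.MP_e86632_nt (ee nn ee_add norm_ee ee_neg ee_zero)
open Pool.Agent.P.MP_8be758_nt.Avg (gs red ft nsq gs_pos gs_le_one gs_neg gs_anti)
open Pool.Agent.P.MP_e94e4b_nt.PF (sgm)
open Pool.Agent.P.E2
open ArithmeticFunction (vonMangoldt moebius)
open DirichletCharacter (LFunction)
open scoped Classical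

namespace E3x

theorem meas_nn : Measurable nn := by
  have : nn = fun x : ℝ => |x - ((⌊x + 1 / 2⌋ : ℤ) : ℝ)| := funext fun x => by rw [nn, round_eq]
  rw [this]
  exact continuous_abs.measurable.comp (measurable_id.sub
    ((measurable_from_top (f := fun z : ℤ => (z : ℝ))).comp
      (Int.measurable_floor.comp (measurable_id.add_const _))))

theorem meas_set (c d : ℝ) : MeasurableSet {x : ℝ | nn (c * x) ≤ d} :=
  measurableSet_le (meas_nn.comp (measurable_id.const_mul c)) measurable_const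

theorem cover {ι : Type} (J : Finset ι) (S : ι → Set ℝ) (hS : ∀ j, MeasurableSet (S j))
    (U : Set ℝ) (hU : ∀ x, x ∈ U ↔ ∃ j ∈ J, x ∈ S j) (F : ℝ → ℝ) (G : ι → ℝ → ℝ)
    (cF : Continuous F) (cG : ∀ j, Continuous (G j)) (G0 : ∀ j x, 0 ≤ G j x)
    (h : ∀ j ∈ J, ∀ x ∈ S j, F x ≤ G j x) :
    ∫ x in Set.Icc (0 : ℝ) 1 ∩ U, F x ≤ ∑ j ∈ J, ∫ x in Set.Icc (0 : ℝ) 1 ∩ S j, G j x := by
  have mU : MeasurableSet U := by
    have : U = ⋃ j ∈ J, S j := Set.ext fun x => by simp [hU]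
    rw [this]
    exact J.measurableSet_biUnion fun j _ => hS j
  have iG : ∀ j ∈ J, Integrable ((S j).indicator (G j)) (volume.restrict (Set.Icc (0 : ℝ) 1)) :=
    fun j _ => Integrable.indicator (cG j).integrableOn_Icc (hS j)
  simp only [← setIntegral_indicator (hS _), ← setIntegral_indicator mU]
  rw [← integral_finsetSum _ iG]
  refine integral_mono (Integrable.indicator cF.integrableOn_Icc mU)
    (integrable_finsetSum _ iG) fun x => ?_
  have nn0 : ∀ j ∈ J, 0 ≤ (S j).indicator (G j) x := fun j _ =>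
    Set.indicator_nonneg (fun y _ => G0 j y) x
  by_cases hx : x ∈ U
  · obtain ⟨j, hj, hxj⟩ := (hU x).1 hx
    refine le_trans ?_ (Finset.single_le_sum nn0 hj)
    rw [Set.indicator_of_mem hx, Set.indicator_of_mem hxj]
    exact h j hj x hxj
  · rw [Set.indicator_of_notMem hx]
    exact Finset.sum_nonneg nn0

theorem piece (S : Set ℝ) (g : ℝ → ℝ) (cg : Continuous g) {c B : ℝ} (hc : 0 ≤ c)
    (h : ∫ x in Set.Icc (0 : ℝ) 1 ∩ S, g x ≤ B) :
    ∫ x in Set.Icc (0 : ℝ) 1 ∩ S, (2 * g x + c) ≤ 2 * B + c := by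
  have i1 : IntegrableOn g (Set.Icc (0 : ℝ) 1 ∩ S) :=
    cg.integrableOn_Icc.mono_set Set.inter_subset_left
  have i2 : IntegrableOn (fun _ : ℝ => c) (Set.Icc (0 : ℝ) 1 ∩ S) :=
    continuous_const.integrableOn_Icc.mono_set Set.inter_subset_left
  rw [integral_add (i1.const_mul 2) i2, integral_const_mul, setIntegral_const, smul_eq_mul]
  have m : volume.real (Set.Icc (0 : ℝ) 1 ∩ S) ≤ 1 := by
    have := measureReal_mono (μ := volume) (Set.inter_subset_left (s := Set.Icc (0 : ℝ) 1) (t := S))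
      (by simp)
    simpa using this
  nlinarith

theorem ev_pow (k : ℕ) : ∀ᶠ r : ℝ in atTop, r ^ k ≤ Real.exp (r / 4) := by
  filter_upwards [(isLittleO_pow_exp_pos_mul_atTop k (b := 1 / 4) (by norm_num)).bound one_pos]
    with r hr
  rw [one_mul, Real.norm_eq_abs, Real.norm_eq_abs, abs_of_pos (Real.exp_pos _),
    show 1 / 4 * r = r / 4 by ring] at hr
  exact (le_abs_self _).trans hr

theorem num {r X y z n Q : ℝ} (hr : 4 ≤ r) (hX : Real.exp (3 * r) ≤ X) (y1 : 1 ≤ y) (yz : y ≤ z)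
    (hz : r ^ 33 ≤ z) (n1 : n ≤ r) (Q0 : 0 ≤ Q) (Q1 : Q ≤ y)
    (h1 : y ≤ Real.exp (r / 4)) (h6 : r ^ 6 ≤ Real.exp (r / 4)) :
    n * Q * (2 * (y ^ 2 * X * r ^ 27 / z ^ 4) + 2 * Real.exp r ^ 2) ≤ X / r ^ 4 := by
  have r0 : 0 < r := by linarith
  have X0 : 0 < X := (Real.exp_pos _).trans_le hX
  have z0 : 0 < z := by linarith
  have a1 : r * y * (2 * (y ^ 2 * X * r ^ 27 / z ^ 4)) ≤ X / r ^ 4 / 2 := by
    calc r * y * (2 * (y ^ 2 * X * r ^ 27 / z ^ 4))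
        ≤ r * z * (2 * (z ^ 2 * X * r ^ 27 / z ^ 4)) := by gcongr
      _ = 2 * r ^ 28 * X / z := by field_simp
      _ ≤ 2 * r ^ 28 * X / r ^ 33 := by gcongr
      _ = X / r ^ 4 * (2 / r) := by field_simp
      _ ≤ X / r ^ 4 * (2 / 4) := by gcongr
      _ = X / r ^ 4 / 2 := by ring
  have a2 : r * y * (2 * Real.exp r ^ 2) ≤ X / r ^ 4 / 2 := by
    rw [div_div, le_div_iff₀ (by positivity)]
    calc r * y * (2 * Real.exp r ^ 2) * (r ^ 4 * 2) = 4 * r ^ 5 * y * Real.exp r ^ 2 := by ring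
      _ ≤ r * r ^ 5 * y * Real.exp r ^ 2 := by gcongr
      _ = r ^ 6 * y * Real.exp r ^ 2 := by ring
      _ ≤ Real.exp (r / 4) * Real.exp (r / 4) * Real.exp r ^ 2 := by gcongr
      _ = Real.exp (r / 4 + r / 4 + r + r) := by simp only [Real.exp_add]; ring
      _ ≤ Real.exp (3 * r) := Real.exp_le_exp.2 (by linarith)
      _ ≤ X := hX
  calc n * Q * (2 * (y ^ 2 * X * r ^ 27 / z ^ 4) + 2 * Real.exp r ^ 2)
      ≤ r * y * (2 * (y ^ 2 * X * r ^ 27 / z ^ 4) + 2 * Real.exp r ^ 2) := by gcongr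
    _ ≤ X / r ^ 4 := by rw [mul_add]; linarith

theorem wle {r : ℝ} {w : ℕ} (hr : 4 ≤ r) (h : (2 : ℝ) ^ w ≤ Real.exp (r / 4)) :
    (w : ℝ) + 1 ≤ r := by
  have h2 : Real.exp (w * (1 / 2)) ≤ (2 : ℝ) ^ w := by
    rw [Real.exp_nat_mul]
    refine pow_le_pow_left₀ (Real.exp_pos _).le ?_ _
    rw [← Real.le_log_iff_exp_le two_pos]
    linarith [Real.log_two_gt_d9]
  have := Real.exp_le_exp.1 (h2.trans h)
  linarith

end E3x

theorem p_E3 (hONEQ : S_ONEQ) (hTLQ : S_TLQ) :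
    S_E3 := by
  obtain ⟨α, b, hα, h1⟩ := hONEQ
  obtain ⟨b', hb'⟩ := exists_nat_ge (33 / (α / 4))
  refine ⟨α, max b b', hα, fun A => ?_⟩
  filter_upwards [h1 A, hTLQ A, E3x.ev_pow A, E3x.ev_pow 6, eventually_ge_atTop (4 : ℝ)] with
    r e1 e2 eA e6 hr P T W Q0 w hP hb hA hW h2 c4 c2 cw hQ
  have r1 : (1 : ℝ) ≤ r := by linarith
  have W1 : (1 : ℝ) ≤ W := by exact_mod_cast hW
  have Q1 : (1 : ℝ) ≤ Q0 := by exact_mod_cast hQ
  have y1 : (1 : ℝ) ≤ W * Q0 := one_le_mul_of_one_le_of_one_le W1 Q1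
  have w1 : (1 : ℝ) ≤ 2 ^ w := one_le_pow₀ one_le_two
  have P0 : 0 < P := by nlinarith
  have hz : r ^ 33 ≤ P ^ (α / 4) := by
    have a1 : r ^ b' ≤ P := (pow_le_pow_right₀ r1 (le_max_right _ _)).trans hb
    have a2 : (33 : ℝ) ≤ b' * (α / 4) := by rwa [div_le_iff₀ (by positivity)] at hb'
    calc r ^ 33 = r ^ ((33 : ℕ) : ℝ) := (Real.rpow_natCast r 33).symm
      _ ≤ r ^ ((b' : ℝ) * (α / 4)) := Real.rpow_le_rpow_of_exponent_le r1 (by exact_mod_cast a2)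
      _ = (r ^ b') ^ (α / 4) := by rw [Real.rpow_mul (by linarith), Real.rpow_natCast]
      _ ≤ P ^ (α / 4) := Real.rpow_le_rpow (by positivity) a1 (by positivity)
  have z4 : P ^ α = (P ^ (α / 4)) ^ 4 := by
    rw [← Real.rpow_natCast, ← Real.rpow_mul P0.le]; congr 1; push_cast; ring
  have yz : (W : ℝ) * Q0 ≤ P ^ (α / 4) :=
    le_of_pow_le_pow_left₀ four_ne_zero (by positivity) (z4 ▸ c4)
  have yP : (W : ℝ) * Q0 ≤ P := by nlinarith
  have hX : Real.exp (3 * r) ≤ XX r := by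
    refine Real.exp_le_exp.2 ?_
    have : r ^ 2 ≤ r ^ 13 := pow_le_pow_right₀ r1 (by norm_num)
    nlinarith
  have X0 : 0 < XX r := Real.exp_pos _
  have pi : ∀ i ≤ w, (W : ℝ) * Q0 * 2 ^ i ≤ r ^ A := fun i hi =>
    le_trans (by gcongr; exact one_le_two) cw
  refine (E3x.cover (range (w + 1) ×ˢ Icc 1 Q0)
    (fun j => {x : ℝ | nn (((W * j.2 * 2 ^ j.1 : ℕ) : ℝ) * x) ≤ W * j.2 / P ^ 3})
    (fun j => E3x.meas_set _ _) _ (fun x => ?_) _
    (fun j x => 2 * ‖ft (II r) (be r P T (W * j.2 * 2 ^ j.1)) x‖ ^ 2 + 2 * Real.exp r ^ 2)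
    (by fun_prop) (fun j => by fun_prop) (fun j x => by positivity) (fun j hj x hx => ?_)).trans ?_
  · constructor
    · rintro ⟨i, hi, q, q1, q2, h⟩
      exact ⟨(i, q), mem_product.2 ⟨mem_range.2 (Nat.lt_succ_of_le hi), mem_Icc.2 ⟨q1, q2⟩⟩, h⟩
    · rintro ⟨j, hj, h⟩
      obtain ⟨a1, a2⟩ := mem_product.1 hj
      exact ⟨j.1, Nat.le_of_lt_succ (mem_range.1 a1), j.2, (mem_Icc.1 a2).1, (mem_Icc.1 a2).2, h⟩
  · obtain ⟨a1, a2⟩ := mem_product.1 hj
    have t := e2 P x T W Q0 j.2 j.1 hP hW h2 (mem_Icc.1 a2).1 (mem_Icc.1 a2).2 yP hA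
      (pi _ (Nat.le_of_lt_succ (mem_range.1 a1))) hx
    have t2 := norm_le_norm_sub_add (ft (II r) (fun m => (bw r P T m : ℂ)) x -
      ft (II r) (bd r P T W (QS W Q0)) x) (ft (II r) (be r P T (W * j.2 * 2 ^ j.1)) x)
    have t3 := pow_le_pow_left₀ (norm_nonneg _) (t2.trans (add_le_add_left t _)) 2
    nlinarith [sq_nonneg (Real.exp r - ‖ft (II r) (be r P T (W * j.2 * 2 ^ j.1)) x‖)]
  · refine (Finset.sum_le_card_nsmul _ _ (2 * (((W : ℝ) * Q0) ^ 2 * XX r * r ^ 27 /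
      (P ^ (α / 4)) ^ 4) + 2 * Real.exp r ^ 2) fun j hj => ?_).trans ?_
    · obtain ⟨a1, a2⟩ := mem_product.1 hj
      have q1 := (mem_Icc.1 a2).1
      have q2 : ((W * j.2 : ℕ) : ℝ) ≤ W * Q0 := by
        have : (j.2 : ℝ) ≤ Q0 := by exact_mod_cast (mem_Icc.1 a2).2
        push_cast; gcongr
      have t := e1 P T (W * j.2) j.1 hP ((pow_le_pow_right₀ r1 (le_max_left _ _)).trans hb) hA
        (Nat.mul_pos hW q1) (le_trans (by gcongr) c2)
        (le_trans (by rw [Nat.cast_mul _ (2 ^ j.1)]; push_cast at q2 ⊢; gcongr)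
          (pi _ (Nat.le_of_lt_succ (mem_range.1 a1))))
      refine E3x.piece _ _ (by fun_prop) (by positivity) ?_
      rw [← Nat.cast_mul W j.2]
      refine t.trans ?_
      rw [← z4]
      gcongr
    · rw [nsmul_eq_mul, card_product, card_range, Nat.card_Icc, Nat.add_sub_cancel]
      push_cast
      exact E3x.num hr hX y1 yz hz (E3x.wle hr (le_trans (by nlinarith) (cw.trans eA)))
        (by positivity) (by nlinarith) (le_trans (by nlinarith) (cw.trans eA)) e6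

end Pool.Agent.P.MP_42fc1a_nt.EK
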