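import Pool.Agent.P.MP_42fc1a_nt.EK.IfaceE

/-! Step FIN. -/

namespace Pool.Agent.P.MP_42fc1a_nt.EK

open Finset Real Filter Topology MeasureTheory
open Pool.Agent.P.MP_e86632_nt (ee nn ee_add norm_ee ee_neg ee_zero)
open Pool.Agent.P.MP_8be758_nt.Avg (gs red ft nsq gs_pos gs_le_one gs_neg gs_anti)
open Pool.Agent.P.MP_e94e4b_nt.PF (sgm)
open Pool.Agent.P.E2
open ArithmeticFunction (vonMangoldt moebius)
open DirichletCharacter (LFunction)
open scoped Classical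

namespace FINx

theorem iter {P : ℕ → Prop} {δ x0 : ℝ} (h0 : 0 ≤ x0)
    (h : ∀ x : ℝ, x0 ≤ x → ∀ S : Finset ℕ,
      (∀ n ∈ S, x < n ∧ (n : ℝ) ≤ 2 * x ∧ P n) → (S.card : ℝ) ≤ δ * x)
    {y : ℝ} (hy : x0 ≤ y) (j : ℕ) : ∀ S : Finset ℕ,
      (∀ n ∈ S, y < n ∧ (n : ℝ) ≤ 2 ^ j * y ∧ P n) → (S.card : ℝ) ≤ δ * ((2 ^ j - 1) * y) := by
  induction j with
  | zero =>
    intro S hS
    have : S = ∅ := eq_empty_of_forall_notMem fun n hn => by
      obtain ⟨a, b, -⟩ := hS n hn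
      rw [pow_zero, one_mul] at b
      linarith
    simp [this]
  | succ j ih =>
    intro S hS
    have y0 : 0 ≤ y := h0.trans hy
    have e1 : (1 : ℝ) ≤ 2 ^ j := one_le_pow₀ (by norm_num)
    have h1 := ih (S.filter fun n => (n : ℝ) ≤ 2 ^ j * y) fun n hn =>
      ⟨(hS n (mem_filter.1 hn).1).1, (mem_filter.1 hn).2, (hS n (mem_filter.1 hn).1).2.2⟩
    have h2 := h (2 ^ j * y) (by nlinarith) (S.filter fun n => ¬ (n : ℝ) ≤ 2 ^ j * y) fun n hn =>
      ⟨not_le.1 (mem_filter.1 hn).2, (hS n (mem_filter.1 hn).1).2.1.trans_eq (by ring),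
        (hS n (mem_filter.1 hn).1).2.2⟩
    have h3 := card_filter_add_card_filter_not (s := S) fun n : ℕ => (n : ℝ) ≤ 2 ^ j * y
    have h4 : (S.card : ℝ) = _ := congrArg Nat.cast h3.symm
    rw [h4, Nat.cast_add, pow_succ]
    linarith

end FINx

theorem p_FIN (hDYA : S_DYA) :
    S_FIN := by
  obtain ⟨k, hk⟩ := hDYA
  refine ⟨k, fun ε hε => ?_⟩
  obtain ⟨A, hA⟩ := hk (ε / 2) (by positivity)
  obtain ⟨x0, h0⟩ := eventually_atTop.1 hA
  obtain ⟨j, hj⟩ := pow_unbounded_of_one_lt (2 / ε) (show (1 : ℝ) < 2 by norm_num)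
  obtain ⟨X0, hX0⟩ := exists_nat_ge (2 ^ j * max x0 0)
  refine ⟨A, X0, fun X hX => ?_⟩
  have p0 : (0 : ℝ) < 2 ^ j := by positivity
  have hX' : (X0 : ℝ) ≤ X := by exact_mod_cast hX
  obtain ⟨y, ey⟩ : ∃ y : ℝ, (X : ℝ) = 2 ^ j * y := ⟨X / 2 ^ j, by field_simp⟩
  have hy : max x0 0 ≤ y := le_of_mul_le_mul_left (hX0.trans (hX'.trans_eq ey)) p0
  have y0 : 0 ≤ y := (le_max_right _ _).trans hy
  have h1 := FINx.iter (P := fun n => ¬ Rep k A n) (le_max_right x0 0)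
    (fun x hx => h0 x ((le_max_left _ _).trans hx)) hy j
    (((Icc 1 X).filter fun n => ¬ Rep k A n).filter fun n => y < n) fun n hn => by
      obtain ⟨a, b⟩ := mem_filter.1 hn
      obtain ⟨c, d⟩ := mem_filter.1 a
      exact ⟨b, ey ▸ Nat.cast_le.2 (mem_Icc.1 c).2, d⟩
  have h2 : ((((Icc 1 X).filter fun n => ¬ Rep k A n).filter fun n : ℕ => ¬ y < n).card : ℝ) ≤
      y := by
    refine le_trans ?_ (Nat.floor_le y0)
    have : (((Icc 1 X).filter fun n => ¬ Rep k A n).filter fun n : ℕ => ¬ y < n) ⊆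
        Icc 1 ⌊y⌋₊ :=
      fun n hn => by
        obtain ⟨a, b⟩ := mem_filter.1 hn
        exact mem_Icc.2 ⟨(mem_Icc.1 (mem_filter.1 a).1).1, Nat.le_floor (not_lt.1 b)⟩
    have := card_le_card this
    rw [Nat.card_Icc, Nat.add_sub_cancel] at this
    exact_mod_cast this
  have h3 := card_filter_add_card_filter_not (s := (Icc 1 X).filter fun n => ¬ Rep k A n)
    fun n : ℕ => y < n
  have h4 : (((Icc 1 X).filter fun n => ¬ Rep k A n).card : ℝ) = _ := congrArg Nat.cast h3.symm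
  have h5 : 2 < 2 ^ j * ε := (div_lt_iff₀ hε).1 hj
  have h6 : 2 * y ≤ 2 ^ j * ε * y := mul_le_mul_of_nonneg_right h5.le y0
  have h7 : 0 ≤ ε * y := by positivity
  rw [h4, Nat.cast_add]
  refine (add_le_add h1 h2).trans ?_
  rw [ey]
  linarith

end Pool.Agent.P.MP_42fc1a_nt.EK
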