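import Pool.Agent.P.MP_42fc1a_nt.EK.IfaceA

/-! Step MSN. -/

namespace Pool.Agent.P.MP_42fc1a_nt.EK

open Finset Real Filter Topology MeasureTheory
open Pool.Agent.P.MP_e86632_nt (ee nn ee_add norm_ee ee_neg ee_zero)
open Pool.Agent.P.MP_8be758_nt.Avg (gs red ft nsq gs_pos gs_le_one gs_neg gs_anti)
open Pool.Agent.P.MP_e94e4b_nt.PF (sgm)
open Pool.Agent.P.E2
open ArithmeticFunction (vonMangoldt moebius)
open DirichletCharacter (LFunction)
open scoped Classical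

namespace MSNx

open Pool.Agent.P.MP_e86632_nt (nn_le nn_of_abs_le)

lemma near {P p g : ℕ} {Δ α : ℝ} {H : ℤ} (hP : 2 ≤ P) (hg : 1 ≤ g) (hw : 2 * g * Δ < P)
    (hp : p ∈ Pn P) (h : Ev P p g Δ α H) : ∃ z : ℤ, |H * α - z| ≤ 2 * Δ / g := by
  obtain ⟨⟨t, rfl⟩, h0, h1, h2⟩ := h
  have p0 : (p : ℤ) ≠ 0 := left_ne_zero_of_mul h0
  have p2 : (p : ℝ) ≤ 2 * P := by exact_mod_cast (mem_Ioc.1 (mem_filter.1 hp).1).2
  have P0 : (0 : ℝ) < P := by exact_mod_cast (by omega : 0 < P)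
  have g0 : (0 : ℝ) < g := by exact_mod_cast hg
  rw [Int.mul_ediv_cancel_left _ p0] at h1 h2
  unfold nn at h1 h2
  have h3 : |g * (t * α - round (t * α))| ≤ 1 / 2 := by
    rw [abs_mul, abs_of_pos g0]
    rw [le_div_iff₀ P0] at h1
    nlinarith [mul_le_mul_of_nonneg_left h1 g0.le]
  have h4 := nn_le (g * (t * α - round (t * α))) (round (g * (t * α)) - g * round (t * α))
  rw [nn_of_abs_le h3, abs_mul, abs_of_pos g0] at h4
  have h5 : g * |t * α - round (t * α)| ≤ Δ / P :=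
    h4.trans (le_of_eq_of_le (congrArg _ (by push_cast; ring)) h2)
  refine ⟨p * round (t * α), ?_⟩
  rw [le_div_iff₀ P0] at h5
  push_cast
  rw [mul_assoc, ← mul_sub, abs_mul, Nat.abs_cast, le_div_iff₀ g0]
  nlinarith [mul_le_mul_of_nonneg_right p2 (mul_nonneg g0.le (abs_nonneg (t * α - round (t * α))))]

lemma uniq {i Y : ℕ} {δ α : ℝ} {h a b z w : ℤ}
    (hq : ∀ q : ℕ, 1 ≤ q → q ≤ Y → δ < nn (q * (2 ^ i * α))) (ha : 2 * |a| < Y) (hb : 2 * |b| < Y)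
    (h1 : |(h + 2 ^ i * a : ℤ) * α - z| ≤ δ / 2) (h2 : |(h + 2 ^ i * b : ℤ) * α - w| ≤ δ / 2) :
    a ≤ b := by
  by_contra k
  obtain ⟨q, e⟩ := Int.eq_ofNat_of_zero_le (show 0 ≤ a - b by omega)
  have h3 := (hq q (by omega) (by
    have := le_abs_self a
    have := neg_abs_le b
    omega)).trans_le (nn_le _ (z - w))
  have e' : (q : ℝ) = a - b := by exact_mod_cast e.symm
  rw [e'] at h3
  push_cast at h1 h2 h3
  rw [abs_le] at h1 h2
  rcases lt_abs.1 h3 with h4 | h4 <;> linarith [h1.1, h1.2, h2.1, h2.2]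

end MSNx

theorem p_MSN (hPD : S_PD) :
    S_MSN := by
  intro P K g i Y Δ δ α e1 e2 H1 H2 ϱ1 ϱ2 hP hg hΔ s1 s2 hK hy hq hw hδ
  have g0 : (0 : ℝ) < g := by exact_mod_cast hg
  have e0 : 0 ≤ K * e2 := mul_nonneg (Nat.cast_nonneg _) ((s2.pos 0).trans (s2.atom 0))
  have hd : 2 * Δ / g ≤ δ / 2 := by rw [div_le_iff₀ g0]; linarith
  have key : ∀ h ∈ H1, ∑ y ∈ H2, ϱ2 y * #((Pn P).filter fun p => Ev P p g Δ α (h + y)) ≤
      K * e2 := fun h hh => by
    by_cases k : ∃ y ∈ H2, ∃ p ∈ Pn P, Ev P p g Δ α (h + y)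
    · obtain ⟨y, hy2, p, hp, ev⟩ := k
      rw [sum_eq_single_of_mem y hy2 fun y' hy' ne => ?_, mul_comm]
      · refine mul_le_mul (Nat.cast_le.2 ((card_le_card ?_).trans
          (hPD P K (h + y) hP ev.2.1 (hK h hh y hy2)))) (s2.atom y) (s2.pos y) (Nat.cast_nonneg _)
        exact monotone_filter_right _ fun p _ k => k.1
      · rw [filter_eq_empty_iff.2 fun p' hp' ev' => ne ?_, card_empty, Nat.cast_zero, mul_zero]
        obtain ⟨a, rfl, ha⟩ := hy y hy2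
        obtain ⟨b, rfl, hb⟩ := hy y' hy'
        obtain ⟨z, hz⟩ := MSNx.near hP hg hw hp ev
        obtain ⟨w, hw'⟩ := MSNx.near hP hg hw hp' ev'
        rw [le_antisymm (MSNx.uniq hq ha hb (hz.trans hd) (hw'.trans hd))
          (MSNx.uniq hq hb ha (hw'.trans hd) (hz.trans hd))]
    · refine (sum_eq_zero fun y hy2 => ?_).trans_le e0
      rw [filter_eq_empty_iff.2 fun p hp ev => k ⟨y, hy2, p, hp, ev⟩, card_empty, Nat.cast_zero,
        mul_zero]
  calc _ = ∑ h ∈ H1, ϱ1 h * ∑ y ∈ H2, ϱ2 y * #((Pn P).filter fun p => Ev P p g Δ α (h + y)) := by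
        simp only [core, sum_filter, card_filter, Nat.cast_sum, mul_sum]
        rw [sum_comm, sum_product]
        simp
    _ ≤ ∑ h ∈ H1, ϱ1 h * (K * e2) :=
        sum_le_sum fun h hh => mul_le_mul_of_nonneg_left (key h hh) (s1.pos h)
    _ ≤ _ := by
        rw [← sum_mul]
        exact mul_le_of_le_one_left e0 s1.tot

end Pool.Agent.P.MP_42fc1a_nt.EK
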