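import Pool.Agent.P.MP_42fc1a_nt.EK.IfaceD

/-! Step SG4. -/

namespace Pool.Agent.P.MP_42fc1a_nt.EK

open Finset Real Filter Topology MeasureTheory
open Pool.Agent.P.MP_e86632_nt (ee nn ee_add norm_ee ee_neg ee_zero)
open Pool.Agent.P.MP_8be758_nt.Avg (gs red ft nsq gs_pos gs_le_one gs_neg gs_anti)
open Pool.Agent.P.MP_e94e4b_nt.PF (sgm)
open Pool.Agent.P.E2
open ArithmeticFunction (vonMangoldt moebius)
open DirichletCharacter (LFunction)
open scoped Classical

namespace SG4x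

open scoped ComplexOrder

/-- twisted von Mangoldt sequence -/
noncomputable def tw {q : ℕ} (χ : DirichletCharacter ℂ q) : ℕ → ℂ :=
  (fun n : ℕ => χ (n : ZMod q)) * (fun n : ℕ => ((vonMangoldt n : ℝ) : ℂ))

/-- plain von Mangoldt sequence -/
noncomputable def vm : ℕ → ℂ := fun n : ℕ => ((vonMangoldt n : ℝ) : ℂ)

theorem tw_sum {q : ℕ} (χ : DirichletCharacter ℂ q) {s : ℂ} (hs : 1 < s.re) :
    LSeriesSummable (tw χ) s :=
  DirichletCharacter.LSeriesSummable_twist_vonMangoldt χ hs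

theorem vm_sum {s : ℂ} (hs : 1 < s.re) : LSeriesSummable vm s :=
  ArithmeticFunction.LSeriesSummable_vonMangoldt hs

theorem tw_deriv {q : ℕ} [NeZero q] (χ : DirichletCharacter ℂ q) (hχ : χ ≠ 1) {s : ℂ}
    (hs : 1 < s.re) :
    HasDerivAt (LFunction χ) (-(LSeries (tw χ) s * LFunction χ s)) s := by
  have h1 : LSeries (tw χ) s =
      -deriv (LSeries fun n : ℕ => χ (n : ZMod q)) s / LSeries (fun n : ℕ => χ (n : ZMod q)) s :=
    DirichletCharacter.LSeries_twist_vonMangoldt_eq χ hs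
  have h2 := DirichletCharacter.LFunction_eq_LSeries χ hs
  have h3 := DirichletCharacter.deriv_LFunction_eq_deriv_LSeries χ hs
  have h4 : LSeries (fun n : ℕ => χ (n : ZMod q)) s ≠ 0 :=
    DirichletCharacter.LSeries_ne_zero_of_one_lt_re χ hs
  have h5 := ((DirichletCharacter.differentiable_LFunction hχ) s).hasDerivAt
  have h6 : -(LSeries (tw χ) s * LFunction χ s) = deriv (LFunction χ) s := by
    rw [h1, h2, h3]
    field_simp
  rw [h6]
  exact h5

theorem ne_one {s : ℂ} (hs : 1 < s.re) : s ≠ 1 := by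
  intro h
  rw [h] at hs
  simp at hs

theorem vm_deriv {s : ℂ} (hs : 1 < s.re) :
    HasDerivAt riemannZeta (-(LSeries vm s * riemannZeta s)) s := by
  have h1 : LSeries vm s = -deriv riemannZeta s / riemannZeta s :=
    ArithmeticFunction.LSeries_vonMangoldt_eq_deriv_riemannZeta_div hs
  have h4 : riemannZeta s ≠ 0 := riemannZeta_ne_zero_of_one_lt_re hs
  have h5 := (differentiableAt_riemannZeta (ne_one hs)).hasDerivAt
  have h6 : -(LSeries vm s * riemannZeta s) = deriv riemannZeta s := by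
    rw [h1]
    field_simp
  rw [h6]
  exact h5

theorem val {q : ℕ} (χ : DirichletCharacter ℂ q) (h : χ ^ 2 = 1) (n : ℕ) :
    ∃ x : ℝ, χ (n : ZMod q) = (x : ℂ) ∧ -1 ≤ x := by
  have hq : χ.IsQuadratic := MulChar.isQuadratic_iff_sq_eq_one.mpr h
  rcases hq (n : ZMod q) with h0 | h0 | h0
  · exact ⟨0, by simp [h0], by norm_num⟩
  · exact ⟨1, by simp [h0], by norm_num⟩
  · exact ⟨-1, by simp [h0], by norm_num⟩

theorem real_pos {q : ℕ} [NeZero q] (hZL2 : S_ZL2) (hREAL : S_REAL) (χ : DirichletCharacter ℂ q)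
    (h1 : χ ≠ 1) (h2 : χ ^ 2 = 1) : ∃ x : ℝ, LFunction χ 2 = (x : ℂ) ∧ 1 / 2 ≤ x := by
  obtain ⟨ha, hb, -⟩ := hREAL q χ h1 h2
  have hc := ha 2 (by norm_num)
  have hd := (hZL2.2 q χ 2 (by simp) (by simp)).2.2.2.2.1
  have he : LFunction χ 2 = ((LFunction χ 2).re : ℂ) := by
    apply Complex.ext
    · simp
    · simpa using hc
  refine ⟨(LFunction χ 2).re, he, ?_⟩
  rw [he, Complex.norm_real, Real.norm_eq_abs, abs_of_pos hb] at hd
  have : ((2 : ℂ).re - 1) / 2 = 1 / 2 := by simp; norm_num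
  rw [this] at hd
  exact hd

end SG4x

open SG4x in
open scoped ComplexOrder in
theorem p_SG4 (hZL2 : S_ZL2) (hREAL : S_REAL) (hSG3 : S_SG3) :
    S_SG4 := by
  intro q1 q _ _ χ1 χ ψ h11 h12 h21 h22 h31 h32 hψ
  obtain ⟨x1, hx1, hy1⟩ := real_pos hZL2 hREAL χ1 h11 h12
  obtain ⟨x2, hx2, hy2⟩ := real_pos hZL2 hREAL χ h21 h22
  obtain ⟨x3, hx3, hy3⟩ := real_pos hZL2 hREAL ψ h31 h32
  have hF2 : riemannZeta 2 * L3 χ1 χ ψ 2 = ((π ^ 2 / 6 * (x1 * x2 * x3) : ℝ) : ℂ) := by
    rw [riemannZeta_two, L3, hx1, hx2, hx3]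
    push_cast
    ring
  have hpi : 1 ≤ π ^ 2 / 6 := by
    have := Real.pi_gt_three
    nlinarith
  have hprod : 1 / 8 ≤ x1 * x2 * x3 := by
    have h12' : 1 / 4 ≤ x1 * x2 := by nlinarith
    nlinarith
  have hlow : 1 / 16 ≤ π ^ 2 / 6 * (x1 * x2 * x3) := by nlinarith
  refine ⟨?_, by rw [hF2, Complex.ofReal_re]; exact hlow⟩
  set a : ℕ → ℂ := vm + tw χ1 + tw χ + tw ψ with ha
  have hsum : ∀ s : ℂ, 1 < s.re → LSeriesSummable a s := fun s hs =>
    (((vm_sum hs).add (tw_sum χ1 hs)).add (tw_sum χ hs)).add (tw_sum ψ hs)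
  have hval : ∀ s : ℂ, 1 < s.re → LSeries a s =
      LSeries vm s + LSeries (tw χ1) s + LSeries (tw χ) s + LSeries (tw ψ) s := by
    intro s hs
    rw [ha, LSeries_add (((vm_sum hs).add (tw_sum χ1 hs)).add (tw_sum χ hs)) (tw_sum ψ hs),
      LSeries_add ((vm_sum hs).add (tw_sum χ1 hs)) (tw_sum χ hs),
      LSeries_add (vm_sum hs) (tw_sum χ1 hs)]
  have habs : LSeries.abscissaOfAbsConv a ≤ (1 : ℝ) :=
    LSeries.abscissaOfAbsConv_le_of_forall_lt_LSeriesSummable fun y hy =>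
      hsum y (by simpa using hy)
  have hnn : 0 ≤ a := by
    intro n
    obtain ⟨u, hu, hu'⟩ := val χ1 h12 n
    obtain ⟨v, hv, hv'⟩ := val χ h22 n
    have hw : ψ (n : ZMod (q1 * q)) = (u : ℂ) * v := by
      have := hψ n
      simp only [ch] at this
      rw [this, hu, hv]
    have he : a n = ((vonMangoldt n * ((1 + u) * (1 + v)) : ℝ) : ℂ) := by
      simp only [ha, Pi.add_apply, vm, tw, Pi.mul_apply, hu, hv, hw]
      push_cast
      ring
    rw [Pi.zero_apply, he]
    have h0 : 0 ≤ vonMangoldt n * ((1 + u) * (1 + v)) :=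
      mul_nonneg ArithmeticFunction.vonMangoldt_nonneg
        (mul_nonneg (by linarith) (by linarith))
    exact Complex.zero_le_real.mpr h0
  have hder : ∀ s : ℂ, 1 < s.re → HasDerivAt (fun s => riemannZeta s * L3 χ1 χ ψ s)
      (-(LSeries a s * (riemannZeta s * L3 χ1 χ ψ s))) s := by
    intro s hs
    have h := (vm_deriv hs).mul
      (((tw_deriv χ1 h11 hs).mul (tw_deriv χ h21 hs)).mul (tw_deriv ψ h31 hs))
    have e : -(LSeries a s * (riemannZeta s * L3 χ1 χ ψ s)) =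
        -(LSeries vm s * riemannZeta s) * (LFunction χ1 s * LFunction χ s * LFunction ψ s) +
        riemannZeta s * ((-(LSeries (tw χ1) s * LFunction χ1 s) * LFunction χ s +
          LFunction χ1 s * -(LSeries (tw χ) s * LFunction χ s)) * LFunction ψ s +
          LFunction χ1 s * LFunction χ s * -(LSeries (tw ψ) s * LFunction ψ s)) := by
      rw [hval s hs, L3]
      ring
    rw [e]
    exact h
  have hU : IsOpen {s : ℂ | 1 < s.re} := isOpen_lt continuous_const Complex.continuous_re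
  have key := hSG3 (fun s => riemannZeta s * L3 χ1 χ ψ s) (LSeries a) {s : ℂ | 1 < s.re} 2 hU
    (by simp)
    (fun s hs => (hder s hs).differentiableAt.differentiableWithinAt)
    ((LSeries_differentiableOn a).mono fun s hs => by
      have hs' : (1 : ℝ) < s.re := hs
      exact lt_of_le_of_lt habs (by exact_mod_cast hs'))
    (fun s hs => (hder s hs).deriv)
    (by
      show (riemannZeta 2 * L3 χ1 χ ψ 2).im = 0 ∧ 0 ≤ (riemannZeta 2 * L3 χ1 χ ψ 2).re
      rw [hF2, Complex.ofReal_re, Complex.ofReal_im]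
      exact ⟨rfl, by linarith⟩)
    (fun m => by
      have h := LSeries.iteratedDeriv_alternating hnn (x := 2)
        (lt_of_le_of_lt habs (by exact_mod_cast (by norm_num : (1 : ℝ) < 2))) m
      rw [Complex.le_def] at h
      have e2 : ((2 : ℝ) : ℂ) = 2 := by norm_num
      rw [e2] at h
      exact ⟨by simpa using h.2.symm, by simpa using h.1⟩)
  exact fun m => (key m).2

end Pool.Agent.P.MP_42fc1a_nt.EK
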