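import Pool.Agent.P.MP_42fc1a_nt.EK.IfaceB

/-! Step SMO. -/

namespace Pool.Agent.P.MP_42fc1a_nt.EK

open Finset Real Filter Topology MeasureTheory
open Pool.Agent.P.MP_e86632_nt (ee nn ee_add norm_ee ee_neg ee_zero)
open Pool.Agent.P.MP_8be758_nt.Avg (gs red ft nsq gs_pos gs_le_one gs_neg gs_anti)
open Pool.Agent.P.MP_e94e4b_nt.PF (sgm)
open Pool.Agent.P.E2
open ArithmeticFunction (vonMangoldt moebius)
open DirichletCharacter (LFunction)
open scoped Classical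

namespace SMOx

theorem sq_sum (x : ℕ) : ∑ n ∈ range (x + 1), (√(n : ℝ))⁻¹ ≤ 2 * √(x : ℝ) := by
  induction x with
  | zero => simp
  | succ x ih =>
    rw [sum_range_succ]
    have hb : 0 < √((x + 1 : ℕ) : ℝ) := Real.sqrt_pos.2 (by positivity)
    have ha := Real.sqrt_nonneg (x : ℝ)
    have e1 : √(x : ℝ) ^ 2 = x := Real.sq_sqrt (by positivity)
    have e2 : √((x + 1 : ℕ) : ℝ) ^ 2 = x + 1 := by rw [Real.sq_sqrt (by positivity)]; simp
    have h : (√((x + 1 : ℕ) : ℝ))⁻¹ ≤ 2 * (√((x + 1 : ℕ) : ℝ) - √(x : ℝ)) := by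
      rw [inv_eq_one_div, div_le_iff₀ hb]
      nlinarith [sq_nonneg (√((x + 1 : ℕ) : ℝ) - √(x : ℝ))]
    linarith

theorem small {p : ℕ} (hp : p.Prime) : (√(p : ℝ))⁻¹ ≤ 3 / 4 := by
  have h2 : (2 : ℝ) ≤ p := by exact_mod_cast hp.two_le
  have h : (4 / 3 : ℝ) ≤ √(p : ℝ) := Real.le_sqrt_of_sq_le (by linarith)
  exact (inv_anti₀ (by norm_num) h).trans_eq (by norm_num)

theorem smooth (x : ℕ) (D : Finset ℕ) (hD : ∀ d ∈ D, d ≠ 0 ∧ ∀ l : ℕ, l.Prime → l ∣ d → l ≤ x) :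
    ∑ d ∈ D, (√(d : ℝ))⁻¹ ≤ Real.exp (8 * √(x : ℝ)) := by
  let f : ℕ →* ℝ := ⟨⟨fun n => (√(n : ℝ))⁻¹, by simp⟩, fun m n => by
    simp only [Nat.cast_mul]
    rw [Real.sqrt_mul (by positivity), mul_inv]⟩
  have f0 : ∀ n, 0 ≤ f n := fun n => inv_nonneg.2 (Real.sqrt_nonneg _)
  have H := (EulerProduct.summable_and_hasSum_smoothNumbers_prod_primesBelow_geometric (f := f)
    (fun {p} hp => by
      rw [Real.norm_of_nonneg (f0 p)]
      exact (small hp).trans_lt (by norm_num)) (x + 1)).2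
  have h1 := sum_le_hasSum (D.subtype (· ∈ (x + 1).smoothNumbers)) (fun m _ => f0 _) H
  rw [sum_subtype_of_mem (fun n => f n) fun d hd => Nat.mem_smoothNumbers'.2 fun l hl hld =>
    Nat.lt_succ_of_le ((hD d hd).2 l hl hld)] at h1
  refine h1.trans ((prod_le_prod (g := fun p => Real.exp (4 * f p)) (fun p hp => ?_)
    fun p hp => ?_).trans ?_)
  · have : f p ≤ 3 / 4 := small (Nat.prime_of_mem_primesBelow hp)
    exact inv_nonneg.2 (by linarith)
  · have h2 : f p ≤ 3 / 4 := small (Nat.prime_of_mem_primesBelow hp)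
    have h3 := Real.add_one_le_exp (4 * f p)
    have h4 := f0 p
    rw [inv_eq_one_div, div_le_iff₀ (by linarith)]
    nlinarith [mul_le_mul_of_nonneg_right h3 (by linarith : 0 ≤ 1 - f p)]
  · rw [← Real.exp_sum, ← mul_sum]
    refine Real.exp_le_exp.2 ?_
    have h2 : ∑ p ∈ (x + 1).primesBelow, f p ≤ ∑ n ∈ range (x + 1), (√(n : ℝ))⁻¹ :=
      sum_le_sum_of_subset_of_nonneg
        (fun p hp => mem_range.2 (Nat.lt_of_mem_primesBelow hp)) fun n _ _ => f0 n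
    linarith [sq_sum x]

theorem term {Z d : ℝ} (hZ : 1 ≤ Z) (hd : Z ≤ d) :
    (2 + Real.log d) / d ≤ 4 * (√d)⁻¹ / Z ^ (1 / 4 : ℝ) := by
  have d0 : 0 < d := by linarith
  have hz : 0 < Z ^ (1 / 4 : ℝ) := by positivity
  have h1 : Z ^ (1 / 4 : ℝ) ≤ d ^ (1 / 4 : ℝ) := Real.rpow_le_rpow (by linarith) hd (by norm_num)
  obtain ⟨w, hw⟩ : ∃ w, w = d ^ (1 / 4 : ℝ) := ⟨_, rfl⟩
  have w0 : 0 < w := by rw [hw]; positivity
  have e : d = w ^ 4 := by
    rw [hw, ← Real.rpow_natCast, ← Real.rpow_mul d0.le]; norm_num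
  have e2 : √d = w ^ 2 := by
    rw [e, show w ^ 4 = (w ^ 2) ^ 2 by ring, Real.sqrt_sq (by positivity)]
  have h2 : Real.log d ≤ 4 * (w - 1) := by
    have := Real.log_le_sub_one_of_pos w0
    rw [e, Real.log_pow]
    push_cast
    linarith
  rw [← hw] at h1
  calc (2 + Real.log d) / d ≤ 4 * w / d := by gcongr; linarith
    _ = 4 * (√d)⁻¹ / w := by rw [e2, e]; field_simp
    _ ≤ _ := by gcongr

end SMOx

theorem p_SMO :
    S_SMO := by
  refine ⟨4, by norm_num, fun x Z D hZ hD => ?_⟩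
  have h := SMOx.smooth x D fun d hd => ⟨by
    rintro rfl
    have := (hD 0 hd).1
    norm_num at this
    linarith, (hD d hd).2⟩
  refine (sum_le_sum fun d hd => SMOx.term hZ (hD d hd).1).trans ?_
  rw [← sum_div, ← mul_sum]
  gcongr

end Pool.Agent.P.MP_42fc1a_nt.EK
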