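import Pool.Agent.P.MP_42fc1a_nt.EK.IfaceC

/-! Step SPC. -/

namespace Pool.Agent.P.MP_42fc1a_nt.EK

open Finset Real Filter Topology MeasureTheory
open Pool.Agent.P.MP_e86632_nt (ee nn ee_add norm_ee ee_neg ee_zero)
open Pool.Agent.P.MP_8be758_nt.Avg (gs red ft nsq gs_pos gs_le_one gs_neg gs_anti)
open Pool.Agent.P.MP_e94e4b_nt.PF (sgm)
open Pool.Agent.P.E2
open ArithmeticFunction (vonMangoldt moebius)
open DirichletCharacter (LFunction)
open scoped Classical

namespace SPCx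

lemma side (hRS : S_RS) (S : Finset ℕ) (y : ℕ → ℝ) {w D : ℝ} (hD : 0 < D) (hw : D ≤ w)
    (h0 : ∀ j ∈ S, 0 ≤ y j) (h : ∀ i ∈ S, ∀ j ∈ S, i ≠ j → D ≤ |y i - y j|) :
    ∑ j ∈ S, gk w (y j) ≤ 8 / D := by
  have w0 := hD.trans_le hw
  have h1 := (hRS (w / D) 0 (S.image fun j => ⌊y j / D⌋₊) ((one_le_div hD).2 hw)).1
  have fl : ∀ j ∈ S, (⌊y j / D⌋₊ : ℝ) * D ≤ y j ∧ y j < (⌊y j / D⌋₊ + 1) * D := fun j hj =>
    ⟨(le_div_iff₀ hD).1 (Nat.floor_le (div_nonneg (h0 j hj) hD.le)),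
      (div_lt_iff₀ hD).1 (Nat.lt_floor_add_one _)⟩
  rw [sum_image fun i hi j hj e => by
    by_contra c
    have a := fl i hi
    have b := fl j hj
    rw [show ⌊y i / D⌋₊ = ⌊y j / D⌋₊ from e] at a
    exact (h i hi j hj c).not_gt (abs_lt.2 ⟨by linarith [a.1, b.2], by linarith [a.2, b.1]⟩)] at h1
  refine le_trans ?_ (div_le_div_of_nonneg_right h1 hD.le)
  rw [sum_div]
  refine sum_le_sum fun j hj => (gk_anti w0 (x := ⌊y j / D⌋₊ * D) (by
    rw [abs_of_nonneg (h0 j hj), abs_of_nonneg (by positivity)]; exact (fl j hj).1)).trans_eq ?_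
  rw [gk, gk, sub_zero, div_div _ (w / D) D, div_mul_cancel₀ _ hD.ne', div_div_eq_mul_div]

end SPCx

theorem p_SPC (hRS : S_RS) :
    S_SPC := by
  intro S x w v δ hw hδ h
  have m : ∀ i ∈ S, ∀ j ∈ S, i ≠ j → min w δ ≤ |x i - x j| := fun i hi j hj c =>
    (min_le_right _ _).trans (h i hi j hj c)
  have a := SPCx.side hRS (S.filter fun j => v ≤ x j) (fun j => x j - v) (lt_min hw hδ)
    (min_le_left _ _) (fun j hj => sub_nonneg.2 (mem_filter.1 hj).2) fun i hi j hj c => by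
      rw [sub_sub_sub_cancel_right]; exact m i (mem_filter.1 hi).1 j (mem_filter.1 hj).1 c
  have b := SPCx.side hRS (S.filter fun j => ¬ v ≤ x j) (fun j => -(x j - v)) (lt_min hw hδ)
    (min_le_left _ _) (fun j hj => by linarith [not_le.1 (mem_filter.1 hj).2]) fun i hi j hj c => by
      rw [← neg_sub', abs_neg, sub_sub_sub_cancel_right]
      exact m i (mem_filter.1 hi).1 j (mem_filter.1 hj).1 c
  simp only [gk_neg] at b
  rw [← sum_filter_add_sum_filter_not S fun j => v ≤ x j]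
  have c : 8 / min w δ ≤ 8 / w + 8 / δ := by
    rcases min_choice w δ with e | e <;> rw [e]
    exacts [le_add_of_nonneg_right (by positivity), le_add_of_nonneg_left (by positivity)]
  have : 16 / w + 16 / δ = 2 * (8 / w + 8 / δ) := by ring
  linarith

end Pool.Agent.P.MP_42fc1a_nt.EK
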