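import Pool.Agent.P.MP_42fc1a_nt.EK.IfaceB

/-! Step TT. -/

namespace Pool.Agent.P.MP_42fc1a_nt.EK

open Finset Real Filter Topology MeasureTheory
open Pool.Agent.P.MP_e86632_nt (ee nn ee_add norm_ee ee_neg ee_zero)
open Pool.Agent.P.MP_8be758_nt.Avg (gs red ft nsq gs_pos gs_le_one gs_neg gs_anti)
open Pool.Agent.P.MP_e94e4b_nt.PF (sgm)
open Pool.Agent.P.E2
open ArithmeticFunction (vonMangoldt moebius)
open DirichletCharacter (LFunction)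
open scoped Classical

namespace TTx

lemma gn_le (M J : ℕ) (x : ℝ) : ‖Gn M J x‖ ≤ 1 := by
  rw [Gn, norm_div, Complex.norm_natCast]
  exact div_le_one_of_le₀ ((norm_sum_le _ _).trans (by simp)) (Nat.cast_nonneg _)

lemma gn_neg (M J : ℕ) (x : ℝ) : ‖Gn M J (-x)‖ = ‖Gn M J x‖ := by
  have : Gw M (fun _ => 1) (Icc 1 J) (-x) = (starRingEnd ℂ) (Gw M (fun _ => 1) (Icc 1 J) x) := by
    simp only [Gw, map_sum, one_mul, mul_neg, ee_neg]
  rw [Gn, Gn, norm_div, norm_div, this, Complex.norm_conj]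

lemma ident (M L J σ n : ℕ) (θ : ℝ)
    (h : ∀ a ∈ Icc 1 L, ∀ a' ∈ Icc 1 L, ∀ s ∈ Icc 1 J,
      σ + 2 ^ (M * a) + 2 ^ (M * a') + 2 ^ (M * s) ≤ n) :
    (∑ a ∈ Icc 1 L, ∑ a' ∈ Icc 1 L, ∑ s ∈ Icc 1 J,
      ee ((n - (σ + 2 ^ (M * a) + 2 ^ (M * a') + 2 ^ (M * s)) : ℕ) * θ)) / ((L : ℂ) ^ 2 * J) =
      ee (σ * -θ) * Gn M L (-θ) ^ 2 * Gn M J (-θ) * ee (n * θ) := by
  have e : ∑ a ∈ Icc 1 L, ∑ a' ∈ Icc 1 L, ∑ s ∈ Icc 1 J,
      ee ((n - (σ + 2 ^ (M * a) + 2 ^ (M * a') + 2 ^ (M * s)) : ℕ) * θ) =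
      ee (σ * -θ) * ee (n * θ) * (Gw M (fun _ => 1) (Icc 1 L) (-θ) *
        (Gw M (fun _ => 1) (Icc 1 L) (-θ) * Gw M (fun _ => 1) (Icc 1 J) (-θ))) := by
    simp only [Gw, one_mul]
    rw [sum_mul, mul_sum]
    refine sum_congr rfl fun a ha => ?_
    rw [sum_mul, mul_sum, mul_sum]
    refine sum_congr rfl fun a' ha' => ?_
    rw [mul_sum, mul_sum, mul_sum]
    refine sum_congr rfl fun s hs => ?_
    rw [Nat.cast_sub (h a ha a' ha' s hs), ← ee_add, ← ee_add, ← ee_add, ← ee_add]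
    congr 1
    push_cast
    ring
  rw [e, Gn, Gn]
  ring

end TTx

open TTx in
theorem p_TT (hCQ : S_CQ) (hMSUM : S_MSUM) (hGQ : S_GQ) (hOFF : S_OFF) (hSHF : S_SHF) :
    S_TT := by
  intro M σ η hM hη hT
  obtain ⟨C, C0, hC⟩ := hMSUM
  have W1 : 1 ≤ WW M := by
    have : 2 ^ 1 ≤ 2 ^ M := Nat.pow_le_pow_right (by norm_num) (by omega)
    unfold WW; omega
  filter_upwards [hSHF M σ hM, eventually_ge_atTop 2, eventually_ge_atTop (12 * M * C / η),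
    eventually_ge_atTop (WW M / η), eventually_ge_atTop (4 * (WW M : ℝ))] with r ⟨hL, hS⟩ r2 r3 r4 r5
  intro Q0 J n0 A hQ J1 hJ hA
  obtain ⟨L, hLL⟩ : ∃ L, L = LL r M := ⟨_, rfl⟩
  rw [← hLL] at hL hS hJ ⊢
  obtain ⟨D, hD⟩ : ∃ D, D = (QS (WW M) Q0).erase 1 := ⟨_, rfl⟩
  have hDs : D ⊆ QS (WW M) Q0 := hD ▸ erase_subset _ _
  have hDm : ∀ q ∈ D, 1 < q ∧ q ≤ Q0 ∧ q.Coprime (WW M) := fun q hq => by
    rw [hD, mem_erase, QS, mem_filter, mem_Icc] at hq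
    exact ⟨by omega, hq.2.1.2, hq.2.2⟩
  rw [← hD]
  obtain ⟨c, hc⟩ : ∃ c : ℕ → ℕ → ℂ, c = fun (q a : ℕ) => (mf q : ℂ) * (ee (σ * -((a : ℝ) / q)) *
    Gn M L (-((a : ℝ) / q)) ^ 2 * Gn M J (-((a : ℝ) / q))) := ⟨_, rfl⟩
  have e : (av M L J σ A fun m => ∑ d ∈ D, (mf d : ℂ) * cq d m) =
      ∑ n ∈ A, ∑ q ∈ D, ∑ a ∈ red q, c q a * ee (n * ((a : ℝ) / q)) := by
    rw [av, sum_div]
    refine sum_congr rfl fun n hn => ?_
    have h := fun θ => ident M L J σ n θ fun a ha a' ha' s hs =>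
      (hS n a a' s (hA n hn).1 (hA n hn).2.1 (mem_Icc.1 ha).2 (mem_Icc.1 ha').2
        ((mem_Icc.1 hs).2.trans hJ)).2.1
    simp only [cq, mul_sum]
    simp only [sum_comm (s := Icc 1 J) (t := D), sum_comm (s := Icc 1 L) (t := D)]
    rw [sum_div]
    refine sum_congr rfl fun q _ => ?_
    simp only [sum_comm (s := Icc 1 J) (t := red q), sum_comm (s := Icc 1 L) (t := red q)]
    rw [sum_div]
    refine sum_congr rfl fun a _ => ?_
    simp only [← mul_sum]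
    rw [mul_div_assoc, h, hc]
    ring
  have cb : ∀ q a, ‖c q a‖ ≤ |mf q| * ‖Gn M L ((a : ℝ) / q)‖ := fun q a => by
    simp only [hc, norm_mul, norm_pow, norm_ee, one_mul, gn_neg, Complex.norm_real, Real.norm_eq_abs]
    refine mul_le_mul_of_nonneg_left ?_ (abs_nonneg _)
    have h1 := gn_le M L ((a : ℝ) / q)
    have h2 := gn_le M J ((a : ℝ) / q)
    have h3 := norm_nonneg (Gn M L ((a : ℝ) / q))
    have h4 := norm_nonneg (Gn M J ((a : ℝ) / q))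
    nlinarith [mul_le_mul_of_nonneg_left h2 (sq_nonneg ‖Gn M L ((a : ℝ) / q)‖)]
  have L0 : (0 : ℝ) < L := by exact_mod_cast J1.trans hJ
  have M0 : (0 : ℝ) < M := by exact_mod_cast (show 0 < M by omega)
  have p12 : 7 * r ≤ r ^ 12 := by
    have h1 : (2 : ℝ) ^ 11 ≤ r ^ 11 := pow_le_pow_left₀ (by norm_num) r2 11
    rw [pow_succ]
    nlinarith
  have p13 : r ^ 13 = r ^ 12 * r := pow_succ _ _
  have s2 : ∑ q ∈ D, ∑ a ∈ red q, ‖c q a‖ ^ 2 ≤ 4 / 3 * η := by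
    have h1 : ∑ q ∈ D, ∑ a ∈ red q, ‖c q a‖ ^ 2 ≤
        ∑ q ∈ D, (mf q ^ 2 * q / oo M q + mf q ^ 2 * q / L) := sum_le_sum fun q hq => by
      have g := hGQ M q L (hDm q hq).1.le
        ((hDm q hq).2.2.coprime_dvd_right (Dvd.intro _ rfl)) (J1.trans hJ)
      calc _ ≤ ∑ a ∈ red q, mf q ^ 2 * ‖Gn M L ((a : ℝ) / q)‖ ^ 2 := sum_le_sum fun a _ =>
            (pow_le_pow_left₀ (norm_nonneg _) (cb q a) 2).trans_eq (by rw [mul_pow, sq_abs])
        _ ≤ mf q ^ 2 * (q * (1 / oo M q + 1 / L)) := by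
            rw [← mul_sum]
            exact mul_le_mul_of_nonneg_left ((sum_le_sum_of_subset_of_nonneg (filter_subset _ _)
              fun _ _ _ => sq_nonneg _).trans g) (sq_nonneg _)
        _ = _ := by ring
    have h2 := hT D fun q hq => ⟨(hDm q hq).1, (hDm q hq).2.2⟩
    have h3 := hC r D (by linarith) fun q hq =>
      ⟨(hDm q hq).1.le, le_trans (by exact_mod_cast (hDm q hq).2.1) hQ⟩
    rw [sum_add_distrib, ← sum_div] at h1
    have h4 : (∑ q ∈ D, mf q ^ 2 * q) / L ≤ η / 3 := by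
      rw [div_le_iff₀ L0]
      rw [div_le_iff₀ (by positivity)] at hL
      rw [div_le_iff₀ hη] at r3
      have b1 : r * r ≤ L * (4 * M) := by nlinarith
      have b2 : 12 * M * (C * r) ≤ 12 * M * (η / 3 * L) := by nlinarith
      exact h3.trans (le_of_mul_le_mul_left b2 (by positivity))
    linarith
  have s1 : ∑ q ∈ D, ∑ a ∈ red q, ‖c q a‖ ≤ (Q0 : ℝ) ^ 2 := by
    have h1 : D.card ≤ Q0 := (card_le_card (hDs.trans (filter_subset _ _))).trans (by simp)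
    refine (sum_le_card_nsmul _ _ (Q0 : ℝ) fun q hq => ?_).trans ?_
    · refine (sum_le_card_nsmul _ _ 1 fun a _ => (cb q a).trans
        (mul_le_one₀ (abs_mf_le q) (norm_nonneg _) (gn_le _ _ _))).trans ?_
      rw [nsmul_eq_mul, mul_one]
      exact_mod_cast (Pool.Agent.P.MP_8be758_nt.Avg.card_red_le q).trans (hDm q hq).2.1
    · rw [nsmul_eq_mul, pow_two]
      exact mul_le_mul_of_nonneg_right (by exact_mod_cast h1) (Nat.cast_nonneg _)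
  have X0 : 0 < XX r := Real.exp_pos _
  have W0 : (1 : ℝ) ≤ WW M := by exact_mod_cast W1
  have hX : Real.exp r ^ 6 * r ≤ XX r := by
    have h1 : Real.exp r ^ 7 ≤ XX r := by
      rw [← Real.exp_nat_mul, XX]
      exact Real.exp_le_exp.2 (by push_cast; nlinarith)
    refine le_trans ?_ h1
    rw [pow_succ _ 6]
    exact mul_le_mul_of_nonneg_left (by linarith [Real.add_one_le_exp r]) (by positivity)
  have e1 : 1 ≤ Real.exp r ^ 6 := one_le_pow₀ (Real.one_le_exp (by linarith))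
  have h := hOFF (WW M) Q0 n0 ⌊XX r⌋₊ (⌊XX r⌋₊ + 1) D c W1 hDs
  have hsub : A ⊆ (Ioc ⌊XX r⌋₊ (⌊XX r⌋₊ + (⌊XX r⌋₊ + 1))).filter (fun n => n ≡ n0 [MOD WW M]) :=
    fun n hn => by
    obtain ⟨a1, a2, a3⟩ := hA n hn
    refine mem_filter.2 ⟨mem_Ioc.2 ⟨(Nat.floor_lt X0.le).2 a1, ?_⟩, a3⟩
    have : (n : ℝ) < ⌊XX r⌋₊ + (⌊XX r⌋₊ + 1) + 1 := by linarith [Nat.lt_floor_add_one (XX r)]
    exact Nat.lt_succ_iff.1 (by exact_mod_cast this)
  have t1 : (Q0 : ℝ) ^ 2 * (∑ q ∈ D, ∑ a ∈ red q, ‖c q a‖) ^ 2 ≤ η * (XX r / WW M) := by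
    have h1 : (Q0 : ℝ) ^ 2 * (∑ q ∈ D, ∑ a ∈ red q, ‖c q a‖) ^ 2 ≤ (Q0 : ℝ) ^ 6 :=
      (mul_le_mul_of_nonneg_left (pow_le_pow_left₀ (by positivity) s1 2) (sq_nonneg _)).trans_eq
        (by ring)
    refine (h1.trans (pow_le_pow_left₀ (Nat.cast_nonneg _) hQ 6)).trans ?_
    rw [← mul_div_assoc, le_div_iff₀ (by linarith)]
    rw [div_le_iff₀ hη] at r4
    nlinarith [mul_le_mul_of_nonneg_left r4 (zero_le_one.trans e1), mul_le_mul_of_nonneg_left hX hη.le]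
  have t2 : ((⌊XX r⌋₊ + 1 : ℕ) : ℝ) / WW M + 1 ≤ 3 / 2 * (XX r / WW M) := by
    rw [← mul_div_assoc, div_add_one (by linarith), div_le_div_iff_of_pos_right (by linarith)]
    push_cast
    nlinarith [Nat.floor_le X0.le]
  have t3 := mul_le_mul t2 s2 (by positivity) (by positivity)
  rw [e]
  refine ((pow_le_pow_left₀ (norm_nonneg _) (norm_sum_le _ _) 2).trans sq_sum_le_card_mul_sum_sq).trans
    ((mul_le_mul_of_nonneg_left (((sum_le_sum_of_subset_of_nonneg hsub fun _ _ _ => sq_nonneg _).trans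
      h).trans (add_le_add t3 t1)) (Nat.cast_nonneg _)).trans_eq (by ring))

end Pool.Agent.P.MP_42fc1a_nt.EK
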